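import Pool.Agent.Helper433_ES.Dup

/-! The entire functions `A = ℘σ²` and `B = σ²`. -/

namespace Pool.Agent.Helper433.ES

open PowerSeries Filter Topology Finset

noncomputable section

variable {l : ℝ} {a b z : ℂ}

/-- finite stages -/
def AB (N : ℕ) (z a b : ℂ) : ℂ × ℂ := (Phi a b)^[N] (A0 (z / 2 ^ N) a b, B0 (z / 2 ^ N) a b)

lemma AB_succ {N : ℕ} (h : Reg l (z / 2 ^ N) a b) : AB (N + 1) z a b = AB N z a b := by
  unfold AB
  rw [Function.iterate_succ_apply]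
  congr 1
  have h1 : z / 2 ^ N = 2 * (z / 2 ^ (N + 1)) := by rw [pow_succ]; field_simp
  rw [h1]
  refine (AB0_dup h.pos h.ha h.hb ?_).symm
  have h2 := h.hz
  rw [h1, norm_mul, Complex.norm_ofNat] at h2
  linarith

lemma Reg.mono {N M : ℕ} (h : Reg l (z / 2 ^ N) a b) (hM : N ≤ M) : Reg l (z / 2 ^ M) a b := by
  refine ⟨h.pos, h.ha, h.hb, lt_of_le_of_lt ?_ h.hz⟩
  have hl := h.pos
  gcongr
  rw [norm_div, norm_div, norm_pow, norm_pow]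
  gcongr
  all_goals (rw [Complex.norm_ofNat]; norm_num)

lemma AB_stable {N M : ℕ} (h : Reg l (z / 2 ^ N) a b) (hM : N ≤ M) : AB M z a b = AB N z a b := by
  induction M, hM using Nat.le_induction with
  | base => rfl
  | succ M hM ih => rw [AB_succ (h.mono hM), ih]

/-- the number of halvings needed -/
def Nn (z a b : ℂ) : ℕ := ⌈6 * (1 + ‖a‖ + ‖b‖) * ‖z‖⌉₊ + 1

lemma reg_Nn (z a b : ℂ) : Reg (1 + ‖a‖ + ‖b‖) (z / 2 ^ (Nn z a b)) a b := by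
  have h1 : (1 : ℝ) ≤ 1 + ‖a‖ + ‖b‖ := by linarith [norm_nonneg a, norm_nonneg b]
  refine ⟨by positivity, ?_, ?_, ?_⟩
  · calc ‖a‖ ≤ (1 + ‖a‖ + ‖b‖) ^ 1 := by linarith [norm_nonneg a, norm_nonneg b]
      _ ≤ _ := pow_le_pow_right₀ h1 (by norm_num)
  · calc ‖b‖ ≤ (1 + ‖a‖ + ‖b‖) ^ 1 := by linarith [norm_nonneg a, norm_nonneg b]
      _ ≤ _ := pow_le_pow_right₀ h1 (by norm_num)
  · rw [norm_div, norm_pow, Complex.norm_ofNat, ← mul_div_assoc, div_lt_one (by positivity)]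
    have h2 : ((Nn z a b : ℕ) : ℝ) < 2 ^ (Nn z a b) := by exact_mod_cast Nat.lt_two_pow_self
    refine lt_of_le_of_lt ?_ h2
    unfold Nn
    push_cast
    have := Nat.le_ceil (6 * (1 + ‖a‖ + ‖b‖) * ‖z‖)
    linarith

/-- the entire function `℘ σ²` -/
def Af (z a b : ℂ) : ℂ := (AB (Nn z a b) z a b).1

/-- the entire function `σ²` -/
def Bf (z a b : ℂ) : ℂ := (AB (Nn z a b) z a b).2

lemma AB_eq {N : ℕ} (h : Reg l (z / 2 ^ N) a b) : AB N z a b = (Af z a b, Bf z a b) := by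
  have h1 : AB (Nn z a b) z a b = AB N z a b := by
    rw [← AB_stable h (le_max_left N (Nn z a b)),
      ← AB_stable (reg_Nn z a b) (le_max_right N (Nn z a b))]
  rw [← h1]; rfl

lemma Af_eq (h : Reg l z a b) : Af z a b = A0 z a b := by
  have h1 : Reg l (z / 2 ^ 0) a b := by simpa using h
  have h2 := AB_eq h1
  simp only [AB, Function.iterate_zero, pow_zero, div_one, id_eq] at h2
  exact (congrArg Prod.fst h2).symm

lemma Bf_eq (h : Reg l z a b) : Bf z a b = A0 z a b * F z a b := by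
  have h1 : Reg l (z / 2 ^ 0) a b := by simpa using h
  have h2 := AB_eq h1
  simp only [AB, Function.iterate_zero, pow_zero, div_one, id_eq] at h2
  exact (congrArg Prod.snd h2).symm

lemma Af_zero (a b : ℂ) : Af 0 a b = 1 := by
  obtain ⟨l, hl, ha, hb⟩ := exists_l a b
  rw [Af_eq (l := l) ⟨hl, ha, hb, by simp⟩, A0_zero]

lemma Bf_zero (a b : ℂ) : Bf 0 a b = 0 := by
  obtain ⟨l, hl, ha, hb⟩ := exists_l a b
  rw [Bf_eq (l := l) ⟨hl, ha, hb, by simp⟩, F_zero, mul_zero]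

/-! growth -/

lemma Phi_norm {p : ℂ × ℂ} {R : ℝ} (hl : 0 < l) (ha : ‖a‖ ≤ l ^ 4) (hb : ‖b‖ ≤ l ^ 6)
    (h1 : ‖p.1‖ ≤ R) (h2 : l ^ 2 * ‖p.2‖ ≤ R) :
    ‖(Phi a b p).1‖ ≤ 12 * R ^ 4 ∧ l ^ 2 * ‖(Phi a b p).2‖ ≤ 12 * R ^ 4 := by
  have hR : 0 ≤ R := (norm_nonneg _).trans h1
  set x := ‖p.1‖ with hx
  set y := l ^ 2 * ‖p.2‖ with hy
  have hx0 : 0 ≤ x := norm_nonneg _
  have hy0 : 0 ≤ y := by positivity
  have ha' := norm_nonneg a
  have hb' := norm_nonneg b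
  have hp2 : 0 ≤ ‖p.2‖ := norm_nonneg _
  have p1 : x ^ 4 ≤ R ^ 4 := by gcongr
  have p2 : x ^ 2 * y ^ 2 ≤ R ^ 4 := by
    calc x ^ 2 * y ^ 2 ≤ R ^ 2 * R ^ 2 := by gcongr
      _ = R ^ 4 := by ring
  have p3 : x * y ^ 3 ≤ R ^ 4 := by
    calc x * y ^ 3 ≤ R * R ^ 3 := by gcongr
      _ = R ^ 4 := by ring
  have p4 : y ^ 4 ≤ R ^ 4 := by gcongr
  have p5 : x ^ 3 * y ≤ R ^ 4 := by
    calc x ^ 3 * y ≤ R ^ 3 * R := by gcongr
      _ = R ^ 4 := by ring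
  constructor
  · have h3 : ‖(Phi a b p).1‖ ≤ x ^ 4 + 2 * ‖a‖ * x ^ 2 * ‖p.2‖ ^ 2 +
        8 * ‖b‖ * x * ‖p.2‖ ^ 3 + ‖a‖ ^ 2 * ‖p.2‖ ^ 4 := by
      simp only [Phi]
      refine (norm_add_le _ _).trans (add_le_add ((norm_sub_le _ _).trans (add_le_add
        ((norm_sub_le _ _).trans (add_le_add ?_ ?_)) ?_)) ?_)
      · rw [norm_pow]
      · simp only [norm_mul, norm_pow, Complex.norm_ofNat]; rw [← hx]
      · simp only [norm_mul, norm_pow, Complex.norm_ofNat]; rw [← hx]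
      · simp only [norm_mul, norm_pow]; rfl
    have q2 : 2 * ‖a‖ * x ^ 2 * ‖p.2‖ ^ 2 ≤ 2 * (x ^ 2 * y ^ 2) := by
      calc 2 * ‖a‖ * x ^ 2 * ‖p.2‖ ^ 2 ≤ 2 * l ^ 4 * x ^ 2 * ‖p.2‖ ^ 2 := by gcongr
        _ = 2 * (x ^ 2 * y ^ 2) := by rw [hy]; ring
    have q3 : 8 * ‖b‖ * x * ‖p.2‖ ^ 3 ≤ 8 * (x * y ^ 3) := by
      calc 8 * ‖b‖ * x * ‖p.2‖ ^ 3 ≤ 8 * l ^ 6 * x * ‖p.2‖ ^ 3 := by gcongr
        _ = 8 * (x * y ^ 3) := by rw [hy]; ring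
    have q4 : ‖a‖ ^ 2 * ‖p.2‖ ^ 4 ≤ y ^ 4 := by
      calc ‖a‖ ^ 2 * ‖p.2‖ ^ 4 ≤ (l ^ 4) ^ 2 * ‖p.2‖ ^ 4 := by gcongr
        _ = y ^ 4 := by rw [hy]; ring
    linarith
  · have h3 : ‖(Phi a b p).2‖ ≤ 4 * (x ^ 3 * ‖p.2‖ + ‖a‖ * x * ‖p.2‖ ^ 3 +
        ‖b‖ * ‖p.2‖ ^ 4) := by
      simp only [Phi]
      rw [norm_mul, Complex.norm_ofNat]
      gcongr
      refine (norm_add_le _ _).trans (add_le_add ((norm_add_le _ _).trans (add_le_add ?_ ?_)) ?_)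
      · simp only [norm_mul, norm_pow]; rw [← hx]
      · simp only [norm_mul, norm_pow]; rw [← hx]
      · simp only [norm_mul, norm_pow]; rfl
    have q2 : l ^ 2 * (‖a‖ * x * ‖p.2‖ ^ 3) ≤ x * y ^ 3 := by
      calc l ^ 2 * (‖a‖ * x * ‖p.2‖ ^ 3) ≤ l ^ 2 * (l ^ 4 * x * ‖p.2‖ ^ 3) := by gcongr
        _ = x * y ^ 3 := by rw [hy]; ring
    have q3 : l ^ 2 * (‖b‖ * ‖p.2‖ ^ 4) ≤ y ^ 4 := by
      calc l ^ 2 * (‖b‖ * ‖p.2‖ ^ 4) ≤ l ^ 2 * (l ^ 6 * ‖p.2‖ ^ 4) := by gcongr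
        _ = y ^ 4 := by rw [hy]; ring
    have q1 : l ^ 2 * (x ^ 3 * ‖p.2‖) = x ^ 3 * y := by rw [hy]; ring
    calc l ^ 2 * ‖(Phi a b p).2‖ ≤ l ^ 2 * (4 * (x ^ 3 * ‖p.2‖ + ‖a‖ * x * ‖p.2‖ ^ 3 +
        ‖b‖ * ‖p.2‖ ^ 4)) := by gcongr
      _ = 4 * (l ^ 2 * (x ^ 3 * ‖p.2‖) + l ^ 2 * (‖a‖ * x * ‖p.2‖ ^ 3) +
        l ^ 2 * (‖b‖ * ‖p.2‖ ^ 4)) := by ring
      _ ≤ 12 * R ^ 4 := by rw [q1]; linarith

lemma iter_norm {p : ℂ × ℂ} {R : ℝ} (hl : 0 < l) (ha : ‖a‖ ≤ l ^ 4) (hb : ‖b‖ ≤ l ^ 6)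
    (h1 : ‖p.1‖ ≤ R) (h2 : l ^ 2 * ‖p.2‖ ≤ R) (N : ℕ) :
    12 * ‖((Phi a b)^[N] p).1‖ ≤ (12 * R) ^ (4 ^ N) ∧
      12 * (l ^ 2 * ‖((Phi a b)^[N] p).2‖) ≤ (12 * R) ^ (4 ^ N) := by
  induction N with
  | zero => simp; exact ⟨h1, h2⟩
  | succ N ih =>
    rw [Function.iterate_succ_apply']
    have h3 : ‖((Phi a b)^[N] p).1‖ ≤ (12 * R) ^ (4 ^ N) / 12 := by linarith [ih.1]
    have h4 : l ^ 2 * ‖((Phi a b)^[N] p).2‖ ≤ (12 * R) ^ (4 ^ N) / 12 := by linarith [ih.2]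
    obtain ⟨h5, h6⟩ := Phi_norm hl ha hb h3 h4
    have hR : 0 ≤ R := (norm_nonneg _).trans h1
    have h7 : 0 ≤ ((12 * R) ^ (4 ^ N)) ^ 4 := by positivity
    have h8 : 12 * (12 * ((12 * R) ^ (4 ^ N) / 12) ^ 4) ≤ (12 * R) ^ (4 ^ (N + 1)) := by
      have h9 : (12 * R) ^ (4 ^ (N + 1)) = ((12 * R) ^ (4 ^ N)) ^ 4 := by
        rw [← pow_mul, pow_succ 4 N]
      rw [h9]
      calc 12 * (12 * ((12 * R) ^ (4 ^ N) / 12) ^ 4) =
          144 / 20736 * ((12 * R) ^ (4 ^ N)) ^ 4 := by ring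
        _ ≤ 1 * ((12 * R) ^ (4 ^ N)) ^ 4 := by gcongr; norm_num
        _ = _ := one_mul _
    exact ⟨by linarith, by linarith⟩

/-- growth of order two -/
lemma AB_growth (hl : 0 < l) (ha : ‖a‖ ≤ l ^ 4) (hb : ‖b‖ ≤ l ^ 6) (z : ℂ) :
    ‖Af z a b‖ ≤ Real.exp (2000 * (1 + (l * ‖z‖) ^ 2)) ∧
      l ^ 2 * ‖Bf z a b‖ ≤ Real.exp (2000 * (1 + (l * ‖z‖) ^ 2)) := by
  -- choose the number of halvings
  obtain ⟨N, hN1, hN2⟩ : ∃ N : ℕ, 6 * (l * ‖z‖) < 2 ^ N ∧ (2 : ℝ) ^ N ≤ 1 + 12 * (l * ‖z‖) := by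
    by_cases h : 6 * (l * ‖z‖) < 1
    · exact ⟨0, by simpa using h, by simp; positivity⟩
    · push Not at h
      obtain ⟨n, hn1, hn2⟩ := exists_nat_pow_near h (by norm_num : (1 : ℝ) < 2)
      refine ⟨n + 1, hn2, ?_⟩
      rw [pow_succ]
      linarith
  have hx : 0 ≤ l * ‖z‖ := by positivity
  have hreg : Reg l (z / 2 ^ N) a b := by
    refine ⟨hl, ha, hb, ?_⟩
    rw [norm_div, norm_pow, Complex.norm_ofNat, ← mul_div_assoc, div_lt_one (by positivity)]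
    linarith
  have h1 := A0_norm hreg
  have h2 := B0_norm hreg
  obtain ⟨h3, h4⟩ := iter_norm hl ha hb (p := (A0 (z / 2 ^ N) a b, B0 (z / 2 ^ N) a b))
    (R := 16) (by linarith) h2 N
  have h5 : (Phi a b)^[N] (A0 (z / 2 ^ N) a b, B0 (z / 2 ^ N) a b) = (Af z a b, Bf z a b) :=
    AB_eq hreg
  rw [h5] at h3 h4
  simp only at h3 h4
  have h6 : ((4 : ℝ) ^ N) ≤ 2 + 288 * (l * ‖z‖) ^ 2 := by
    have : (4 : ℝ) ^ N = (2 ^ N) ^ 2 := by rw [← pow_mul, mul_comm, pow_mul]; norm_num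
    rw [this]
    calc ((2 : ℝ) ^ N) ^ 2 ≤ (1 + 12 * (l * ‖z‖)) ^ 2 := by gcongr
      _ ≤ 2 + 288 * (l * ‖z‖) ^ 2 := by nlinarith [sq_nonneg (1 - 12 * (l * ‖z‖))]
  have h7 : ((12 : ℝ) * 16) ^ (4 ^ N) ≤ Real.exp (2000 * (1 + (l * ‖z‖) ^ 2)) := by
    have h8 : (12 : ℝ) * 16 ≤ Real.exp 6 := by
      have h3 := Real.exp_one_gt_d9
      have h4 : Real.exp 6 = Real.exp 1 ^ 6 := by rw [← Real.exp_nat_mul]; norm_num
      rw [h4]
      calc (12 : ℝ) * 16 ≤ (2.7 : ℝ) ^ 6 := by norm_num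
        _ ≤ Real.exp 1 ^ 6 := by gcongr; linarith
    calc ((12 : ℝ) * 16) ^ (4 ^ N) ≤ (Real.exp 6) ^ (4 ^ N) := by gcongr
      _ = Real.exp (((4 ^ N : ℕ) : ℝ) * 6) := by rw [Real.exp_nat_mul]
      _ ≤ Real.exp (2000 * (1 + (l * ‖z‖) ^ 2)) := by
          apply Real.exp_le_exp.2
          push_cast
          nlinarith [sq_nonneg (l * ‖z‖)]
  have h9 := norm_nonneg (Af z a b)
  have h10 : 0 ≤ l ^ 2 * ‖Bf z a b‖ := by positivity
  constructor <;> linarith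

/-! analyticity in parameters -/

lemma iter_diff {U : Set ℂ} {α β f g : ℂ → ℂ} (hα : DifferentiableOn ℂ α U)
    (hβ : DifferentiableOn ℂ β U) (hf : DifferentiableOn ℂ f U) (hg : DifferentiableOn ℂ g U)
    (N : ℕ) : DifferentiableOn ℂ (fun s => ((Phi (α s) (β s))^[N] (f s, g s)).1) U ∧
      DifferentiableOn ℂ (fun s => ((Phi (α s) (β s))^[N] (f s, g s)).2) U := by
  induction N with
  | zero => exact ⟨hf, hg⟩
  | succ N ih =>
    simp only [Function.iterate_succ_apply']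
    obtain ⟨h1, h2⟩ := ih
    simp only [Phi] at h1 h2 ⊢
    constructor
    · exact (((h1.pow 4).sub (((hα.const_mul 2).mul (h1.pow 2)).mul (h2.pow 2))).sub
        (((hβ.const_mul 8).mul h1).mul (h2.pow 3))).add ((hα.pow 2).mul (h2.pow 4))
    · exact ((((h1.pow 3).mul h2).add ((hα.mul h1).mul (h2.pow 3))).add
        (hβ.mul (h2.pow 4))).const_mul 4

lemma AB_analytic {ζ α β : ℂ → ℂ} {p : ℂ} (hζ : AnalyticAt ℂ ζ p) (hα : AnalyticAt ℂ α p)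
    (hβ : AnalyticAt ℂ β p) :
    AnalyticAt ℂ (fun s => Af (ζ s) (α s) (β s)) p ∧
      AnalyticAt ℂ (fun s => Bf (ζ s) (α s) (β s)) p := by
  set l : ℝ := 2 + ‖α p‖ + ‖β p‖ with hl
  have hl1 : (1 : ℝ) ≤ l := by rw [hl]; linarith [norm_nonneg (α p), norm_nonneg (β p)]
  obtain ⟨N, hN⟩ := pow_unbounded_of_one_lt (6 * l * ‖ζ p‖) (one_lt_two (α := ℝ))
  have e1 : ∀ᶠ s in 𝓝 p, ‖α s‖ < l := by
    refine (hα.continuousAt.norm).eventually_lt continuousAt_const ?_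
    rw [hl]; linarith [norm_nonneg (β p)]
  have e2 : ∀ᶠ s in 𝓝 p, ‖β s‖ < l := by
    refine (hβ.continuousAt.norm).eventually_lt continuousAt_const ?_
    rw [hl]; linarith [norm_nonneg (α p)]
  have e3 : ∀ᶠ s in 𝓝 p, 6 * l * ‖ζ s‖ < 2 ^ N :=
    (continuousAt_const.mul hζ.continuousAt.norm).eventually_lt continuousAt_const hN
  have e4 := hζ.eventually_analyticAt
  have e5 := hα.eventually_analyticAt
  have e6 := hβ.eventually_analyticAt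
  obtain ⟨U, hU, hUo, hpU⟩ := eventually_nhds_iff.1 (e1.and (e2.and (e3.and (e4.and (e5.and e6)))))
  have hreg : ∀ s ∈ U, Reg l (ζ s / 2 ^ N) (α s) (β s) := by
    intro s hs
    obtain ⟨h1, h2, h3, -⟩ := hU s hs
    refine ⟨by linarith, ?_, ?_, ?_⟩
    · exact h1.le.trans (by
        calc l = l ^ 1 := (pow_one l).symm
          _ ≤ l ^ 4 := pow_le_pow_right₀ hl1 (by norm_num))
    · exact h2.le.trans (by
        calc l = l ^ 1 := (pow_one l).symm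
          _ ≤ l ^ 6 := pow_le_pow_right₀ hl1 (by norm_num))
    · rw [norm_div, norm_pow, Complex.norm_ofNat, ← mul_div_assoc, div_lt_one (by positivity)]
      exact h3
  have dζ : DifferentiableOn ℂ (fun s => ζ s / 2 ^ N) U := fun s hs =>
    ((hU s hs).2.2.2.1.differentiableAt.div_const _).differentiableWithinAt
  have dα : DifferentiableOn ℂ α U := fun s hs =>
    (hU s hs).2.2.2.2.1.differentiableAt.differentiableWithinAt
  have dβ : DifferentiableOn ℂ β U := fun s hs =>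
    (hU s hs).2.2.2.2.2.differentiableAt.differentiableWithinAt
  obtain ⟨h1, h2⟩ := iter_diff dα dβ (A0_diff hUo dζ dα dβ hreg) (B0_diff hUo dζ dα dβ hreg) N
  have h3 : ∀ s ∈ U, (Phi (α s) (β s))^[N] (A0 (ζ s / 2 ^ N) (α s) (β s),
      B0 (ζ s / 2 ^ N) (α s) (β s)) = (Af (ζ s) (α s) (β s), Bf (ζ s) (α s) (β s)) :=
    fun s hs => AB_eq (hreg s hs)
  constructor
  · refine (h1.congr fun s hs => ?_).analyticAt (hUo.mem_nhds hpU)
    simp only [h3 s hs]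
  · refine (h2.congr fun s hs => ?_).analyticAt (hUo.mem_nhds hpU)
    simp only [h3 s hs]

/-! no common zeros -/

lemma Phi_eq_zero {p : ℂ × ℂ} (hD : 4 * a ^ 3 + 27 * b ^ 2 ≠ 0) (h : Phi a b p = 0) : p = 0 := by
  obtain ⟨x, y⟩ := p
  simp only [Phi, Prod.mk_eq_zero] at h
  obtain ⟨h1, h2⟩ := h
  by_cases hy : y = 0
  · subst hy
    have : x ^ 4 = 0 := by linear_combination h1
    simp only [Prod.mk_eq_zero, and_true]
    exact pow_eq_zero_iff (by norm_num) |>.1 this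
  · exfalso
    set t := x / y with ht
    have hx : x = t * y := by rw [ht]; field_simp
    have h3 : t ^ 3 + a * t + b = 0 := by
      have : 4 * y ^ 4 * (t ^ 3 + a * t + b) = 0 := by
        rw [← h2, hx]; ring
      rcases mul_eq_zero.1 this with h | h
      · exact absurd h (mul_ne_zero (by norm_num) (pow_ne_zero _ hy))
      · exact h
    have h4 : t ^ 4 - 2 * a * t ^ 2 - 8 * b * t + a ^ 2 = 0 := by
      have : y ^ 4 * (t ^ 4 - 2 * a * t ^ 2 - 8 * b * t + a ^ 2) = 0 := by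
        rw [← h1, hx]; ring
      rcases mul_eq_zero.1 this with h | h
      · exact absurd h (pow_ne_zero _ hy)
      · exact h
    have h5 : (3 * t ^ 2 + a) ^ 2 = 0 := by linear_combination h4 + 8 * t * h3
    have h6 : 3 * t ^ 2 + a = 0 := pow_eq_zero_iff (by norm_num) |>.1 h5
    apply hD
    have ha : a = -3 * t ^ 2 := by linear_combination h6
    have hb : b = 2 * t ^ 3 := by rw [ha] at h3; linear_combination h3
    rw [ha, hb]; ring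

lemma iter_ne_zero {p : ℂ × ℂ} (hD : 4 * a ^ 3 + 27 * b ^ 2 ≠ 0) (hp : p ≠ 0) (N : ℕ) :
    (Phi a b)^[N] p ≠ 0 := by
  induction N with
  | zero => exact hp
  | succ N ih =>
    rw [Function.iterate_succ_apply']
    exact fun h => ih (Phi_eq_zero hD h)

lemma AB_ne_zero (hD : 4 * a ^ 3 + 27 * b ^ 2 ≠ 0) (z : ℂ) :
    ¬ (Af z a b = 0 ∧ Bf z a b = 0) := by
  rintro ⟨h1, h2⟩
  have h3 := iter_ne_zero (a := a) (b := b) (p := (A0 (z / 2 ^ (Nn z a b)) a b,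
    B0 (z / 2 ^ (Nn z a b)) a b)) hD (by
      intro h
      exact A0_ne (congrArg Prod.fst h)) (Nn z a b)
  apply h3
  have h4 : (Phi a b)^[Nn z a b] (A0 (z / 2 ^ (Nn z a b)) a b, B0 (z / 2 ^ (Nn z a b)) a b) =
    (Af z a b, Bf z a b) := AB_eq (reg_Nn z a b)
  rw [h4, h1, h2]; rfl

end

end Pool.Agent.Helper433.ES
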