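import Mathlib

/-! Field automorphisms of `ℂ` moving an algebraic number to a conjugate. -/

namespace Pool.Agent.Helper433.ES

open Polynomial

noncomputable section

/-- An automorphism of the algebraic closure of `K` in `ℂ` extends to `ℂ`. -/
lemma extend_aut {K : Type*} [Field K] [Algebra K ℂ]
    (σ : (algebraicClosure K ℂ) ≃ₐ[K] (algebraicClosure K ℂ)) :
    ∃ τ : ℂ ≃+* ℂ, ∀ x : algebraicClosure K ℂ, τ (x : ℂ) = (σ x : ℂ) := by
  obtain ⟨s, hs⟩ := exists_isTranscendenceBasis (algebraicClosure K ℂ) ℂ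
  let E : MvPolynomial s (algebraicClosure K ℂ) ≃+* MvPolynomial s (algebraicClosure K ℂ) :=
    MvPolynomial.mapEquiv s σ.toRingEquiv
  let e : Algebra.adjoin (algebraicClosure K ℂ) (Set.range ((↑) : s → ℂ)) ≃+*
      Algebra.adjoin (algebraicClosure K ℂ) (Set.range ((↑) : s → ℂ)) :=
    (hs.1.aevalEquiv.symm.toRingEquiv.trans E).trans hs.1.aevalEquiv.toRingEquiv
  have : IsAlgClosure (Algebra.adjoin (algebraicClosure K ℂ) (Set.range ((↑) : s → ℂ))) ℂ :=
    IsAlgClosed.isAlgClosure_of_transcendence_basis _ hs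
  refine ⟨IsAlgClosure.equivOfEquiv ℂ ℂ e, fun x => ?_⟩
  have h1 : (x : ℂ) = algebraMap (Algebra.adjoin (algebraicClosure K ℂ)
      (Set.range ((↑) : s → ℂ))) ℂ (algebraMap (algebraicClosure K ℂ) _ x) := rfl
  rw [h1, IsAlgClosure.equivOfEquiv_algebraMap]
  have h2 : e (algebraMap (algebraicClosure K ℂ) _ x) =
      algebraMap (algebraicClosure K ℂ) _ (σ x) := by
    have h3 : hs.1.aevalEquiv.symm (algebraMap (algebraicClosure K ℂ) _ x) =
        MvPolynomial.C x := by
      rw [AlgEquiv.symm_apply_eq]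
      exact (AlgEquiv.commutes hs.1.aevalEquiv x).symm
    have h4 : E (MvPolynomial.C x) = MvPolynomial.C (σ x) := by
      simp [E]
    show hs.1.aevalEquiv (E (hs.1.aevalEquiv.symm (algebraMap (algebraicClosure K ℂ) _ x))) = _
    rw [h3, h4]
    exact AlgEquiv.commutes hs.1.aevalEquiv (σ x)
  rw [h2]
  rfl

/-- conjugate algebraic numbers are exchanged by automorphisms of `ℂ` -/
lemma exists_aut {K : Type*} [Field K] [Algebra K ℂ] {g y : ℂ} (hg : IsAlgebraic K g)
    (hy : aeval y (minpoly K g) = 0) :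
    ∃ τ : ℂ →+* ℂ, (∀ x : K, τ (algebraMap K ℂ x) = algebraMap K ℂ x) ∧ τ g = y := by
  have hmem : ∀ z : ℂ, IsAlgebraic K z → z ∈ algebraicClosure K ℂ := fun z hz =>
    mem_algebraicClosure_iff.2 hz
  have hyalg : IsAlgebraic K y := ⟨minpoly K g, minpoly.ne_zero hg.isIntegral, hy⟩
  set g' : algebraicClosure K ℂ := ⟨g, hmem g hg⟩ with hg'
  set y' : algebraicClosure K ℂ := ⟨y, hmem y hyalg⟩ with hy'
  have hmin : minpoly K g' = minpoly K g := by
    have := minpoly.algebraMap_eq (A := K) (B := algebraicClosure K ℂ) (B' := ℂ)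
      (algebraMap (algebraicClosure K ℂ) ℂ).injective g'
    rw [← this]; rfl
  have hroot : aeval y' (minpoly K g') = 0 := by
    rw [hmin]
    apply (algebraMap (algebraicClosure K ℂ) ℂ).injective
    rw [map_zero, ← hy]
    exact (aeval_algebraMap_apply ℂ y' (minpoly K g)).symm
  have halg : IsAlgebraic K g' := Algebra.IsAlgebraic.isAlgebraic g'
  have hN : Normal K (algebraicClosure K ℂ) := by
    have : IsAlgClosure K (algebraicClosure K ℂ) := algebraicClosure.isAlgClosure K ℂ
    exact IsAlgClosure.normal K (algebraicClosure K ℂ)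
  obtain ⟨σ, hσ⟩ := minpoly.exists_algEquiv_of_root' halg hroot
  obtain ⟨τ, hτ⟩ := extend_aut σ
  refine ⟨τ.toRingHom, fun x => ?_, ?_⟩
  · have := hτ (algebraMap K (algebraicClosure K ℂ) x)
    rw [σ.commutes] at this
    exact this
  · have := hτ g'
    rw [hσ] at this
    exact this

end

end Pool.Agent.Helper433.ES
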