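import Pool.Agent.Helper433_ES.SL5

/-! The transcendence criterion. -/

namespace Pool.Agent.Helper433.ES

open PowerSeries Filter Topology Finset

noncomputable section

namespace SLData

variable (d : SLData)

/-- Taylor series of the quotient -/
def qs (p : ℂ) : ℂ⟦X⟧ := Tay (fun s => d.U s / d.V s) p

/-- Taylor series of the auxiliary function -/
def ser (S L : ℕ) (c : ℕ → ℕ → ℤ) (p : ℂ) : ℂ⟦X⟧ :=
  ∑ j ∈ range S, ∑ l ∈ range L, PowerSeries.C (c j l : ℂ) * ((PowerSeries.C p + X) ^ j * d.qs p ^ l)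

/-- the arithmetic hypothesis -/
def Arith (K : Type*) [Field K] [Algebra K ℂ] : Prop :=
  ∃ M κ : ℕ, 0 < M ∧ ∀ (S L : ℕ) (c : ℕ → ℕ → ℤ), ∀ p ∈ d.I, ∀ N : ℕ,
    IsIntegral ℤ (((M ^ (S + N + L) * (d.e p * N + κ * L).factorial : ℕ) : ℂ) *
      coeff N (d.ser S L c p)) ∧
    ∀ y : ℂ, Polynomial.aeval y (minpoly K (coeff N (d.ser S L c p))) = 0 →
      ∃ p' ∈ d.I, d.e p' = d.e p ∧ coeff N (d.ser S L c p') = y

lemma openD : IsOpen ((d.D : Set ℂ)ᶜ) := d.D.finite_toSet.isClosed.isOpen_compl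

lemma U_an {p : ℂ} (hp : p ∈ d.I) : AnalyticAt ℂ d.U p :=
  d.hU.analyticAt (d.openD.mem_nhds (d.hI p hp))

lemma V_an {p : ℂ} (hp : p ∈ d.I) : AnalyticAt ℂ d.V p :=
  d.hV.analyticAt (d.openD.mem_nhds (d.hI p hp))

lemma q_an {p : ℂ} (hp : p ∈ d.I) : AnalyticAt ℂ (fun s => d.U s / d.V s) p :=
  (d.U_an hp).div (d.V_an hp) (d.hVI p hp)

lemma Tay_mono {p : ℂ} (hp : p ∈ d.I) (j l : ℕ) :
    AnalyticAt ℂ (fun s => s ^ j * (d.U s / d.V s) ^ l) p ∧
    Tay (fun s => s ^ j * (d.U s / d.V s) ^ l) p = (PowerSeries.C p + X) ^ j * d.qs p ^ l := by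
  have h1 : AnalyticAt ℂ (fun s : ℂ => s) p := by fun_prop
  have h2 := d.q_an hp
  refine ⟨(h1.pow j).mul (h2.pow l), ?_⟩
  rw [Tay_mul (f := fun s => s ^ j) (g := fun s => (d.U s / d.V s) ^ l) (h1.pow j) (h2.pow l),
    Tay_pow h1, Tay_pow h2, Tay_id, qs]

lemma Tay_G {p : ℂ} (hp : p ∈ d.I) (S L : ℕ) (c : ℕ → ℕ → ℤ) :
    Tay (d.G S L c) p = Tay d.V p ^ L * d.ser S L c p := by
  have hV := d.V_an hp
  have hev : d.G S L c =ᶠ[𝓝 p] fun s => d.V s ^ L *
      ∑ j ∈ range S, ∑ l ∈ range L, (c j l : ℂ) * (s ^ j * (d.U s / d.V s) ^ l) := by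
    filter_upwards [hV.continuousAt.eventually_ne (d.hVI p hp)] with s hs
    unfold G
    rw [Finset.mul_sum]
    refine Finset.sum_congr rfl fun j _ => ?_
    rw [Finset.mul_sum]
    refine Finset.sum_congr rfl fun l hl => ?_
    rw [Finset.mem_range] at hl
    have h1 : d.V s ^ L = d.V s ^ l * d.V s ^ (L - l) := by rw [← pow_add]; congr 1; omega
    rw [h1, div_pow]
    field_simp
  have han : ∀ j l, AnalyticAt ℂ (fun s => (c j l : ℂ) * (s ^ j * (d.U s / d.V s) ^ l)) p :=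
    fun j l => analyticAt_const.mul (d.Tay_mono hp j l).1
  have han2 : ∀ j, AnalyticAt ℂ
      (fun s => ∑ l ∈ range L, (c j l : ℂ) * (s ^ j * (d.U s / d.V s) ^ l)) p :=
    fun j => Finset.analyticAt_fun_sum _ fun l _ => han j l
  have han3 : AnalyticAt ℂ (fun s => ∑ j ∈ range S, ∑ l ∈ range L,
      (c j l : ℂ) * (s ^ j * (d.U s / d.V s) ^ l)) p :=
    Finset.analyticAt_fun_sum _ fun j _ => han2 j
  rw [Tay_congr hev, Tay_mul (f := fun s => d.V s ^ L) (hV.pow L) han3, Tay_pow hV]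
  congr 1
  rw [Tay_sum _ fun j _ => han2 j, ser]
  refine Finset.sum_congr rfl fun j _ => ?_
  rw [Tay_sum _ fun l _ => han j l]
  refine Finset.sum_congr rfl fun l _ => ?_
  rw [Tay_const_mul _ (d.Tay_mono hp j l).1, (d.Tay_mono hp j l).2]

lemma coef_bound_one {p : ℂ} (hp : p ∈ d.I) : ∃ Q : ℕ, 1 ≤ Q ∧ ∀ j l N : ℕ,
    ‖coeff N ((PowerSeries.C p + X) ^ j * d.qs p ^ l)‖ ≤ (Q : ℝ) ^ (j + l + N) := by
  have h1 := (d.q_an hp).eventually_analyticAt
  obtain ⟨ε, hε, hball⟩ := Metric.eventually_nhds_iff_ball.1 h1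
  set ϱ : ℝ := ε / 2 with hϱ
  have hϱ0 : 0 < ϱ := half_pos hε
  have hsub : Metric.closedBall p ϱ ⊆ Metric.ball p ε :=
    Metric.closedBall_subset_ball (by rw [hϱ]; linarith)
  have hcont : ContinuousOn (fun s => d.U s / d.V s) (Metric.closedBall p ϱ) :=
    fun s hs => (hball s (hsub hs)).continuousAt.continuousWithinAt
  obtain ⟨B, hB⟩ := (isCompact_closedBall p ϱ).exists_bound_of_continuousOn hcont
  obtain ⟨Q, hQ⟩ := exists_nat_ge (max (max B (‖p‖ + ϱ)) (max (1 / ϱ) 1))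
  have hQB : B ≤ Q := ((le_max_left _ _).trans (le_max_left _ _)).trans hQ
  have hQp : ‖p‖ + ϱ ≤ Q := ((le_max_right _ _).trans (le_max_left _ _)).trans hQ
  have hQϱ : 1 / ϱ ≤ Q := ((le_max_left _ _).trans (le_max_right _ _)).trans hQ
  have hQ1 : (1 : ℝ) ≤ Q := ((le_max_right _ _).trans (le_max_right _ _)).trans hQ
  refine ⟨Q, by exact_mod_cast hQ1, fun j l N => ?_⟩
  rw [← (d.Tay_mono hp j l).2, coeff_Tay]
  set g : ℂ → ℂ := fun s => s ^ j * (d.U s / d.V s) ^ l with hg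
  have hgd : DiffContOnCl ℂ g (Metric.ball p ϱ) := by
    refine DifferentiableOn.diffContOnCl ?_
    intro s hs
    have hs' : s ∈ Metric.ball p ε := hsub (Metric.closure_ball_subset_closedBall hs)
    have h2 : AnalyticAt ℂ (fun s : ℂ => s) s := by fun_prop
    exact ((h2.pow j).mul ((hball s hs').pow l)).differentiableAt.differentiableWithinAt
  have hgb : ∀ z ∈ Metric.sphere p ϱ, ‖g z‖ ≤ (Q : ℝ) ^ (j + l) := by
    intro z hz
    have hz' : z ∈ Metric.closedBall p ϱ := Metric.sphere_subset_closedBall hz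
    have h3 : ‖z‖ ≤ Q := by
      refine le_trans ?_ hQp
      have : ‖z - p‖ = ϱ := by rw [← dist_eq_norm]; exact hz
      calc ‖z‖ = ‖p + (z - p)‖ := by ring_nf
        _ ≤ ‖p‖ + ‖z - p‖ := norm_add_le _ _
        _ = _ := by rw [this]
    have h4 : ‖d.U z / d.V z‖ ≤ Q := (hB z hz').trans hQB
    simp only [hg]
    rw [norm_mul, norm_pow, norm_pow, pow_add]
    gcongr
  have h5 := Complex.norm_iteratedDeriv_le_of_forall_mem_sphere_norm_le N hϱ0 hgd hgb
  rw [norm_div, Complex.norm_natCast, div_le_iff₀ (by exact_mod_cast Nat.factorial_pos N)]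
  refine h5.trans ?_
  have h6 : (1 / ϱ) ^ N ≤ (Q : ℝ) ^ N := by gcongr
  have h7 : (0 : ℝ) ≤ N.factorial := Nat.cast_nonneg _
  calc (N.factorial : ℝ) * (Q : ℝ) ^ (j + l) / ϱ ^ N
      = (N.factorial : ℝ) * (Q : ℝ) ^ (j + l) * (1 / ϱ) ^ N := by rw [one_div, inv_pow]; ring
    _ ≤ (N.factorial : ℝ) * (Q : ℝ) ^ (j + l) * (Q : ℝ) ^ N := by gcongr
    _ = (Q : ℝ) ^ (j + l + N) * N.factorial := by rw [pow_add _ (j + l) N]; ring

lemma coef_bound : ∃ Q : ℕ, 1 ≤ Q ∧ ∀ p ∈ d.I, ∀ j l N : ℕ,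
    ‖coeff N ((PowerSeries.C p + X) ^ j * d.qs p ^ l)‖ ≤ (Q : ℝ) ^ (j + l + N) := by
  classical
  choose! Q hQ1 hQ using fun (p : ℂ) (hp : p ∈ d.I) => d.coef_bound_one hp
  refine ⟨1 + ∑ p ∈ d.I, Q p, by omega, fun p hp j l N => (hQ p hp j l N).trans ?_⟩
  have : Q p ≤ 1 + ∑ p ∈ d.I, Q p :=
    (Finset.single_le_sum (f := Q) (fun _ _ => Nat.zero_le _) hp).trans (by omega)
  have h2 : (Q p : ℝ) ≤ ((1 + ∑ p ∈ d.I, Q p : ℕ) : ℝ) := by exact_mod_cast this
  gcongr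

lemma isPreconnected_compl : IsPreconnected ((d.D : Set ℂ)ᶜ) := by
  have := (d.D.finite_toSet.countable).isPathConnected_compl_of_one_lt_rank (by
    rw [Complex.rank_real_complex]; exact_mod_cast one_lt_two)
  exact this.isConnected.isPreconnected

lemma coeff_ser (S L : ℕ) (c : ℕ → ℕ → ℤ) (p : ℂ) (N : ℕ) :
    coeff N (d.ser S L c p) = ∑ j ∈ range S, ∑ l ∈ range L,
      (c j l : ℂ) * coeff N ((PowerSeries.C p + X) ^ j * d.qs p ^ l) := by
  rw [ser, map_sum]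
  refine Finset.sum_congr rfl fun j _ => ?_
  rw [map_sum]
  refine Finset.sum_congr rfl fun l _ => ?_
  rw [PowerSeries.coeff_C_mul]

/-- Liouville: small values vanish. -/
lemma small_zero {K : Type*} [Field K] [Algebra K ℂ]
    (hK : ∀ x : K, IsIntegral ℤ x → x ≠ 0 → 1 ≤ ‖algebraMap K ℂ x‖)
    {M κ : ℕ} (hM : 0 < M) (hA : ∀ (S L : ℕ) (c : ℕ → ℕ → ℤ), ∀ p ∈ d.I, ∀ N : ℕ,
    IsIntegral ℤ (((M ^ (S + N + L) * (d.e p * N + κ * L).factorial : ℕ) : ℂ) *
      coeff N (d.ser S L c p)) ∧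
    ∀ y : ℂ, Polynomial.aeval y (minpoly K (coeff N (d.ser S L c p))) = 0 →
      ∃ p' ∈ d.I, d.e p' = d.e p ∧ coeff N (d.ser S L c p') = y)
    {S L : ℕ} {c : ℕ → ℕ → ℤ} {p : ℂ} (hp : p ∈ d.I) {N : ℕ}
    (h : ∀ p' ∈ d.I, d.e p' = d.e p →
      ‖((M ^ (S + N + L) * (d.e p * N + κ * L).factorial : ℕ) : ℂ) *
        coeff N (d.ser S L c p')‖ < 1) : coeff N (d.ser S L c p) = 0 := by
  by_contra hne
  obtain ⟨h1, h2⟩ := hA S L c p hp N
  obtain ⟨y, hy, hy1⟩ := liouville hK (D := M ^ (S + N + L) * (d.e p * N + κ * L).factorial)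
    (by positivity) hne h1
  obtain ⟨p', hp', he, hyp⟩ := h2 y hy
  rw [← hyp] at hy1
  exact absurd hy1 (not_le.2 (h p' hp' he))

/-- **The transcendence criterion.** -/
theorem criterion {K : Type*} [Field K] [Algebra K ℂ]
    (hK : ∀ x : K, IsIntegral ℤ x → x ≠ 0 → 1 ≤ ‖algebraMap K ℂ x‖) (hA : d.Arith K) :
    ∃ (S L : ℕ) (c : ℕ → ℕ → ℤ), (∃ j < S, ∃ l < L, c j l ≠ 0) ∧ ∀ s ∉ d.D, d.G S L c s = 0 := by
  classical
  obtain ⟨M, κ, hM, hA⟩ := hA
  obtain ⟨Q, hQ1, hQ⟩ := d.coef_bound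
  set g := d.gain with hg
  have hg1 : 1 < g := d.one_lt_gain
  have hI : d.I.Nonempty := by
    rw [Finset.nonempty_iff_ne_empty]
    intro h0
    have h1 := d.hsum
    rw [h0, Finset.sum_empty] at h1
    have h2 := d.total_pos
    linarith
  set θ : ℝ := (1 + 1 / g) / 2 with hθ
  have hg0 : 0 < g := by linarith
  have hginv : 1 / g < 1 := by rw [div_lt_one hg0]; exact hg1
  have hθ1 : θ < 1 := by rw [hθ]; linarith
  have hθ0 : 0 < θ := by rw [hθ]; positivity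
  have hθg : 1 < θ * g := by
    rw [hθ]
    have : (1 + 1 / g) / 2 * g = (g + 1) / 2 := by field_simp
    rw [this]; linarith
  obtain ⟨r₀, hr₀⟩ := exists_nat_ge (5 / (1 - θ))
  set r : ℕ := r₀ + 7 with hr
  have hr7 : 7 ≤ r := by omega
  have hrθ : 5 / (r : ℝ) ≤ 1 - θ := by
    have h1 : 0 < 1 - θ := by linarith
    have h2 : (0 : ℝ) < r := by exact_mod_cast (by omega : 0 < r)
    have h3 : (r₀ : ℝ) ≤ r := by exact_mod_cast (by omega : r₀ ≤ r)
    rw [div_le_iff₀ h2]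
    rw [div_le_iff₀ h1] at hr₀
    nlinarith
  obtain ⟨E, hE0, hest⟩ := d.est θ hθ0
  -- bound for the denominators at the points
  obtain ⟨Kv, hKv0, hKv⟩ : ∃ Kv : ℝ, 0 ≤ Kv ∧ ∀ p ∈ d.I, ‖d.V p‖⁻¹ ≤ Real.exp Kv := by
    refine ⟨∑ p ∈ d.I, ‖d.V p‖⁻¹, Finset.sum_nonneg fun _ _ => by positivity, fun p hp => ?_⟩
    have h1 : ‖d.V p‖⁻¹ ≤ ∑ p ∈ d.I, ‖d.V p‖⁻¹ :=
      Finset.single_le_sum (f := fun p => ‖d.V p‖⁻¹) (fun _ _ => by positivity) hp
    have h2 := Real.add_one_le_exp (∑ p ∈ d.I, ‖d.V p‖⁻¹)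
    linarith
  set Em : ℕ := ∑ p ∈ d.I, d.e p with hEm
  have hEm' : ∀ p ∈ d.I, d.e p ≤ Em := fun p hp =>
    Finset.single_le_sum (f := d.e) (fun _ _ => Nat.zero_le _) hp
  -- thresholds
  have hall := (hest.and ((size_ineq θ r hr7 hrθ).and
    (final_ineq g θ E Kv M κ hθg hKv0 hM)))
  obtain ⟨τ₀, hτ₀⟩ := eventually_atTop.1 hall
  obtain ⟨n, hcount, hn1, hnτ⟩ := ((count_ineq Em M κ Q d.I.card r hr7).and
    ((eventually_ge_atTop 1).and (eventually_ge_atTop τ₀))).exists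
  set T := n ^ r with hT
  set S := n ^ (r - 2) with hS
  set L := n ^ 5 with hL
  set h := n ^ (r - 1) with hh
  have hTτ : τ₀ ≤ T := hnτ.trans (by
    calc n = n ^ 1 := (pow_one n).symm
      _ ≤ n ^ r := Nat.pow_le_pow_right hn1 (by omega))
  -- pigeonhole
  let Dn : ({p // p ∈ d.I} × Fin T) → ℕ := fun x =>
    M ^ (S + (x.2 : ℕ) + L) * (d.e x.1.1 * (x.2 : ℕ) + κ * L).factorial
  let am : ({p // p ∈ d.I} × Fin T) → (Fin S × Fin L) → ℂ := fun x y =>
    (Dn x : ℂ) * coeff (x.2 : ℕ) ((PowerSeries.C x.1.1 + X) ^ (y.1 : ℕ) * d.qs x.1.1 ^ (y.2 : ℕ))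
  set B : ℕ := 2 ^ h * S * L * M ^ (S + T + L) * (Em * T + κ * L).factorial * Q ^ (S + L + T)
    with hB
  have ham : ∀ x y, ‖am x y‖ ≤
      ((M ^ (S + T + L) * (Em * T + κ * L).factorial * Q ^ (S + L + T) : ℕ) : ℝ) := by
    intro x y
    simp only [am]
    rw [norm_mul, Complex.norm_natCast]
    have h1 : Dn x ≤ M ^ (S + T + L) * (Em * T + κ * L).factorial := by
      simp only [Dn]
      have hx2 := x.2.2
      refine Nat.mul_le_mul (Nat.pow_le_pow_right hM (by omega)) (Nat.factorial_le ?_)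
      have h3 := hEm' x.1.1 x.1.2
      have : d.e x.1.1 * (x.2 : ℕ) ≤ Em * T := Nat.mul_le_mul h3 hx2.le
      omega
    have h2 := hQ x.1.1 x.1.2 y.1 y.2 x.2
    have h3 : (Q : ℝ) ^ ((y.1 : ℕ) + y.2 + x.2) ≤ (Q : ℝ) ^ (S + L + T) := by
      refine pow_le_pow_right₀ (by exact_mod_cast hQ1) ?_
      have := x.2.2; have := y.1.2; have := y.2.2
      omega
    calc (Dn x : ℝ) * ‖coeff (x.2 : ℕ) ((PowerSeries.C x.1.1 + X) ^ (y.1 : ℕ) * d.qs x.1.1 ^ (y.2 : ℕ))‖
        ≤ ((M ^ (S + T + L) * (Em * T + κ * L).factorial : ℕ) : ℝ) * (Q : ℝ) ^ (S + L + T) := by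
          gcongr
          exact h2.trans h3
      _ = _ := by push_cast; ring
  have hpB : ∀ x, ((2 ^ h : ℕ) : ℝ) * ∑ y, ‖am x y‖ ≤ (B : ℝ) := by
    intro x
    calc ((2 ^ h : ℕ) : ℝ) * ∑ y, ‖am x y‖ ≤ ((2 ^ h : ℕ) : ℝ) * ∑ _y : Fin S × Fin L,
        ((M ^ (S + T + L) * (Em * T + κ * L).factorial * Q ^ (S + L + T) : ℕ) : ℝ) := by
          gcongr with y _
          exact ham x y
      _ = (B : ℝ) := by
          rw [Finset.sum_const, Finset.card_univ, Fintype.card_prod, Fintype.card_fin,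
            Fintype.card_fin, nsmul_eq_mul, hB]
          push_cast; ring
  have hpc : (4 * B + 1) ^ (2 * Fintype.card ({p // p ∈ d.I} × Fin T)) <
      (2 ^ h + 1) ^ Fintype.card (Fin S × Fin L) := by
    rw [Fintype.card_prod, Fintype.card_prod, Fintype.card_fin, Fintype.card_fin,
      Fintype.card_fin, Fintype.card_coe]
    exact hcount
  obtain ⟨c₀, hc₀ne, hc₀le, hc₀small⟩ := pigeon am (2 ^ h) B hpB hpc
  -- the polynomial
  let c : ℕ → ℕ → ℤ := fun j l => if hj : j < S ∧ l < L then c₀ (⟨j, hj.1⟩, ⟨l, hj.2⟩) else 0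
  have hcval : ∀ y : Fin S × Fin L, c y.1 y.2 = c₀ y := by
    intro y
    simp only [c]
    rw [dif_pos ⟨y.1.2, y.2.2⟩]
  have hcle : ∀ j l, |(c j l : ℝ)| ≤ 2 ^ h := by
    intro j l
    by_cases hj : j < S ∧ l < L
    · have h1 := hc₀le (⟨j, hj.1⟩, ⟨l, hj.2⟩)
      have h2 : c j l = c₀ (⟨j, hj.1⟩, ⟨l, hj.2⟩) := by simp only [c]; rw [dif_pos hj]
      rw [h2]
      exact_mod_cast h1
    · have h2 : c j l = 0 := by simp only [c]; rw [dif_neg hj]
      rw [h2]; simp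
  refine ⟨S, L, c, ?_, ?_⟩
  · by_contra hcon
    push Not at hcon
    apply hc₀ne
    ext y
    rw [← hcval y]
    exact hcon y.1 y.1.2 y.2 y.2.2
  -- initial vanishing
  have hinit : ∀ p ∈ d.I, ∀ N < T, coeff N (d.ser S L c p) = 0 := by
    intro p hp N hN
    refine d.small_zero hK hM hA hp fun p' hp' he => ?_
    have h1 := hc₀small (⟨p', hp'⟩, ⟨N, hN⟩)
    have h2 : ∑ y, (c₀ y : ℂ) * am (⟨p', hp'⟩, ⟨N, hN⟩) y =
        ((M ^ (S + N + L) * (d.e p * N + κ * L).factorial : ℕ) : ℂ) *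
          coeff N (d.ser S L c p') := by
      rw [d.coeff_ser, Finset.mul_sum]
      rw [Fintype.sum_prod_type, Finset.sum_range]
      refine Finset.sum_congr rfl fun j _ => ?_
      rw [Finset.mul_sum, Finset.sum_range]
      refine Finset.sum_congr rfl fun l _ => ?_
      have h3 := hcval (j, l)
      simp only at h3
      rw [h3]
      simp only [am, Dn]
      rw [he]
      ring
    rw [h2] at h1
    exact h1
  -- extrapolation
  have hvan : ∀ τ, T ≤ τ → ∀ p ∈ d.I, ∀ N, d.e p * N < τ → coeff N (d.ser S L c p) = 0 := by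
    intro τ hτ
    induction τ, hτ using Nat.le_induction with
    | base =>
      intro p hp N hN
      refine hinit p hp N (lt_of_le_of_lt ?_ hN)
      exact Nat.le_mul_of_pos_left N (d.he p hp)
    | succ τ hτ ih =>
      intro p hp N hN
      rcases Nat.lt_or_ge (d.e p * N) τ with h1 | h1
      · exact ih p hp N h1
      have heN : d.e p * N = τ := by omega
      obtain ⟨hest', hsize, hfin⟩ := hτ₀ τ (hTτ.trans hτ)
      obtain ⟨s1, s2, s3, s4, s5, s6⟩ := hsize n hτ hn1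
      -- divide by the zeros
      have hdvd : ∀ q ∈ d.I, X ^ (d.nn τ q) ∣ Tay (d.G S L c) q := by
        intro q hq
        rw [d.Tay_G hq]
        refine Dvd.dvd.mul_left ?_ _
        rw [PowerSeries.X_pow_dvd_iff]
        intro m hm
        exact ih q hq m ((d.lt_nn hq m).1 hm)
      obtain ⟨H, hHd, hHG⟩ := divide d.openD d.I (d.G_diff S L c)
        (fun q hq => d.hI q hq) (d.nn τ) hdvd
      have hbd := hest' S L h s1 s2 s3 s4 s5 c hcle H hHd hHG
      refine d.small_zero hK hM hA hp fun p' hp' he => ?_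
      -- the order at `p'` is `N`
      have hnn : d.nn τ p' = N := by
        have e1 : ¬ N < d.nn τ p' := by
          rw [d.lt_nn hp', he, heN]; exact lt_irrefl _
        have e2 : ∀ m, m < N → m < d.nn τ p' := by
          intro m hm
          rw [d.lt_nn hp', he, ← heN]
          exact Nat.mul_lt_mul_of_pos_left hm (d.he p hp)
        by_contra hne
        have h3 : d.nn τ p' < N := lt_of_le_of_ne (not_lt.1 e1) hne
        exact lt_irrefl _ (e2 _ h3)
      have hlead := lead_coeff d.openD hp' (d.hI p' hp') hHd hHG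
      rw [hnn] at hlead
      -- compare the coefficients
      have hT1 : coeff N (Tay (d.G S L c) p') = d.V p' ^ L * coeff N (d.ser S L c p') := by
        have h4 : X ^ N ∣ d.ser S L c p' := by
          rw [PowerSeries.X_pow_dvd_iff]
          intro m hm
          refine ih p' hp' m ?_
          rw [he, ← heN]
          exact Nat.mul_lt_mul_of_pos_left hm (d.he p hp)
        obtain ⟨w, hw⟩ := h4
        rw [d.Tay_G hp', hw]
        have e1 : Tay d.V p' ^ L * (X ^ N * w) = X ^ N * (Tay d.V p' ^ L * w) := by ring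
        have e2 := PowerSeries.coeff_X_pow_mul (Tay d.V p' ^ L * w) N 0
        have e3 := PowerSeries.coeff_X_pow_mul w N 0
        rw [zero_add] at e2 e3
        rw [e1, e2, e3, coeff_zero_eq_constantCoeff_apply, map_mul, map_pow, constantCoeff_Tay,
          coeff_zero_eq_constantCoeff_apply]
      have hbd' := hbd p' hp'
      rw [← hlead, hT1, norm_mul, norm_pow] at hbd'
      have hVp : 0 < ‖d.V p'‖ := norm_pos_iff.2 (d.hVI p' hp')
      have hco : ‖coeff N (d.ser S L c p')‖ ≤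
          Real.exp (E * τ - θ * d.gain * τ * Real.log τ) * Real.exp (L * Kv) := by
        have h5 : ‖coeff N (d.ser S L c p')‖ =
            (‖d.V p'‖ ^ L * ‖coeff N (d.ser S L c p')‖) * (‖d.V p'‖⁻¹) ^ L := by
          rw [inv_pow]; field_simp
        rw [h5]
        have h6 : (‖d.V p'‖⁻¹) ^ L ≤ Real.exp (L * Kv) := by
          rw [Real.exp_nat_mul]
          have := hKv p' hp'
          gcongr
        gcongr
      have hNτ : (N : ℝ) ≤ τ := by
        have : N ≤ τ := by rw [← heN]; exact Nat.le_mul_of_pos_left N (d.he p hp)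
        exact_mod_cast this
      have hfin' := hfin S L N s1 s3 hNτ s6
      rw [norm_mul, Complex.norm_natCast, heN]
      refine lt_of_le_of_lt ?_ hfin'
      gcongr
  -- conclusion
  obtain ⟨p, hp⟩ := hI
  have hser : d.ser S L c p = 0 := by
    ext N
    rw [map_zero]
    refine hvan (T + d.e p * N + 1) (by omega) p hp N (by omega)
  have hT0 : Tay (d.G S L c) p = Tay (fun _ => (0 : ℂ)) p := by
    rw [d.Tay_G hp, hser, mul_zero, Tay_const, map_zero]
  have hGan : AnalyticOnNhd ℂ (d.G S L c) ((d.D : Set ℂ)ᶜ) :=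
    (d.G_diff S L c).analyticOnNhd d.openD
  have hev : d.G S L c =ᶠ[𝓝 p] fun _ => 0 :=
    Tay_inj (hGan p (d.hI p hp)) analyticAt_const hT0
  have := hGan.eqOn_of_preconnected_of_eventuallyEq (g := fun _ => (0 : ℂ)) analyticOnNhd_const
    d.isPreconnected_compl (d.hI p hp) hev
  exact fun s hs => this hs

end SLData

end

end Pool.Agent.Helper433.ES
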