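import Pool.Agent.Helper433_ES.Fib
import Pool.Agent.Helper433_ES.SL6
import Pool.Agent.Helper433_ES.Aut

/-! The arithmetic hypothesis of the criterion. -/

namespace Pool.Agent.Helper433.ES

open Filter Topology Finset

noncomputable section

variable {K : Type*} [Field K] [Algebra K ℂ]

lemma ii_dvd {D D' : ℕ} (h : D' ∣ D) {x : ℂ} (hx : IsIntegral ℤ ((D' : ℂ) * x)) :
    IsIntegral ℤ ((D : ℂ) * x) := by
  obtain ⟨c, rfl⟩ := h
  have : ((D' * c : ℕ) : ℂ) * x = (c : ℂ) * ((D' : ℂ) * x) := by push_cast; ring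
  rw [this]
  exact (ii_nat c).mul hx

lemma alg_of_int {D : ℕ} (hD : 0 < D) {x : ℂ} (hx : IsIntegral ℤ ((D : ℂ) * x)) :
    IsAlgebraic ℚ x := by
  have h1 : IsAlgebraic ℚ ((D : ℂ) * x) := (hx.tower_top (A := ℚ)).isAlgebraic
  have hD0 : (D : ℂ) ≠ 0 := by exact_mod_cast hD.ne'
  have h2 : x = (D : ℂ)⁻¹ * ((D : ℂ) * x) := by field_simp
  rw [h2]
  exact ((alg_nat D).inv).mul h1

lemma alg_over [CharZero K] {x : ℂ} (hx : IsAlgebraic ℚ x) : IsAlgebraic K x := by
  obtain ⟨f, hf, hfx⟩ := hx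
  refine ⟨f.map (algebraMap ℚ K), (Polynomial.map_ne_zero_iff (algebraMap ℚ K).injective).2 hf, ?_⟩
  rw [Polynomial.aeval_def, Polynomial.eval₂_map] 
  rw [Polynomial.aeval_def] at hfx
  have : (algebraMap K ℂ).comp (algebraMap ℚ K) = algebraMap ℚ ℂ := RingHom.ext_rat _ _
  rw [this]; exact hfx

lemma aeval_aut (τ : ℂ →+* ℂ) (hτ : ∀ x : K, τ (algebraMap K ℂ x) = algebraMap K ℂ x)
    (f : Polynomial K) (p : ℂ) : Polynomial.aeval (τ p) f = τ (Polynomial.aeval p f) := by
  rw [Polynomial.aeval_def, Polynomial.aeval_def, Polynomial.hom_eval₂]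
  congr 1
  ext x
  exact (hτ x).symm

theorem arith_of [CharZero K] (d : SLData) (hKa : ∀ x : K, IsAlgebraic ℚ (algebraMap K ℂ x))
    {a b Q P1 P2 : Polynomial K} (hD : disc a b ≠ 0) (hQ : Q ≠ 0) (z w : ℂ → ℂ → ℂ)
    (hfib : ∀ p ∈ d.I, Fib a b p) (hsol : ∀ p ∈ d.I, LocSol a b Q P1 P2 p (z p) (w p))
    (halg : ∀ p ∈ d.I, IsAlgebraic ℚ p) (he : ∀ p ∈ d.I, d.e p = ee a b p)
    (hqs : ∀ p ∈ d.I, d.qs p = Tay (fP a b (z p)) p)
    (hgal : ∀ p ∈ d.I, ∀ p', Polynomial.aeval p' (minpoly K p) = 0 → p' ∈ d.I) : d.Arith K := by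
  classical
  -- coefficients
  have hcoef : ∀ p ∈ d.I, ∀ (S L : ℕ) (c : ℕ → ℕ → ℤ) (N : ℕ),
      PowerSeries.coeff N (d.ser S L c p) = ∑ j ∈ range S, ∑ l ∈ range L, (c j l : ℂ) *
        PowerSeries.coeff (ee a b p * N + 2 * kk a b p * l)
          ((PowerSeries.C p + PowerSeries.X ^ ee a b p) ^ j * PhiP a b (z p) p ^ l) := by
    intro p hp S L c N
    rw [d.coeff_ser]
    refine Finset.sum_congr rfl fun j _ => Finset.sum_congr rfl fun l _ => ?_
    rw [hqs p hp, local_coeff (hfib p hp) (hsol p hp).hz]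
  choose! B hB hBΦ using fun (p : ℂ) (hp : p ∈ d.I) =>
    local_int hKa hD hQ (halg p hp) (hfib p hp) (hsol p hp)
  choose! R hR hRp using fun (p : ℂ) (hp : p ∈ d.I) => exists_den (halg p hp)
  set Mp : ℂ → ℕ := fun p => B p ^ (ee a b p + 2 * kk a b p) * R p with hMp
  set M : ℕ := ∏ p ∈ d.I, Mp p with hM
  have hM0 : 0 < M := Finset.prod_pos fun p hp => Nat.mul_pos (pow_pos (hB p hp) _) (hR p hp)
  set κ : ℕ := ∑ p ∈ d.I, 2 * kk a b p with hκ
  have hint : ∀ (S L : ℕ) (c : ℕ → ℕ → ℤ), ∀ p ∈ d.I, ∀ N : ℕ,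
      IsIntegral ℤ (((M ^ (S + N + L) * (d.e p * N + κ * L).factorial : ℕ) : ℂ) *
        PowerSeries.coeff N (d.ser S L c p)) := by
    intro S L c p hp N
    rw [hcoef p hp, he p hp, Finset.mul_sum]
    refine ii_sum _ fun j hj => ?_
    rw [Finset.mul_sum]
    refine ii_sum _ fun l hl => ?_
    rw [Finset.mem_range] at hj hl
    have hmem : (PowerSeries.C (R p : ℂ) * (PowerSeries.C p + PowerSeries.X ^ ee a b p)) ^ j *
        PhiP a b (z p) p ^ l ∈ HS (B p) := by
      refine (HS _).mul_mem ((HS _).pow_mem ?_ j) ((HS _).pow_mem (hBΦ p hp) l)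
      rw [mul_add, ← map_mul]
      exact (HS _).add_mem (C_mem_HS (hRp p hp))
        ((HS _).mul_mem (C_mem_HS (ii_nat _)) ((HS _).pow_mem X_mem_HS _))
    have h1 := hmem (ee a b p * N + 2 * kk a b p * l)
    set n := ee a b p * N + 2 * kk a b p * l with hn
    have h2 : (PowerSeries.C (R p : ℂ) * (PowerSeries.C p + PowerSeries.X ^ ee a b p)) ^ j *
        PhiP a b (z p) p ^ l = PowerSeries.C ((R p : ℂ) ^ j) *
        ((PowerSeries.C p + PowerSeries.X ^ ee a b p) ^ j * PhiP a b (z p) p ^ l) := by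
      rw [mul_pow, ← map_pow]; ring
    rw [h2, PowerSeries.coeff_C_mul] at h1
    have h3 : IsIntegral ℤ (((B p ^ n * n.factorial * R p ^ j : ℕ) : ℂ) *
        PowerSeries.coeff n ((PowerSeries.C p + PowerSeries.X ^ ee a b p) ^ j *
          PhiP a b (z p) p ^ l)) := by
      have e1 : ((B p ^ n * n.factorial * R p ^ j : ℕ) : ℂ) *
          PowerSeries.coeff n ((PowerSeries.C p + PowerSeries.X ^ ee a b p) ^ j *
            PhiP a b (z p) p ^ l) = (B p : ℂ) ^ n * (n.factorial : ℂ) * ((R p : ℂ) ^ j *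
          PowerSeries.coeff n ((PowerSeries.C p + PowerSeries.X ^ ee a b p) ^ j *
            PhiP a b (z p) p ^ l)) := by push_cast; ring
      rw [e1]; exact h1
    have hdvd : B p ^ n * n.factorial * R p ^ j ∣
        M ^ (S + N + L) * (ee a b p * N + κ * L).factorial := by
      have d1 : Mp p ∣ M := Finset.dvd_prod_of_mem _ hp
      have d2 : Mp p ^ (S + N + L) ∣ M ^ (S + N + L) := pow_dvd_pow_of_dvd d1 _
      have d3 : n.factorial ∣ (ee a b p * N + κ * L).factorial := by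
        apply Nat.factorial_dvd_factorial
        rw [hn]
        have h4 : 2 * kk a b p ≤ κ :=
          Finset.single_le_sum (f := fun p => 2 * kk a b p) (fun _ _ => Nat.zero_le _) hp
        have h5 : 2 * kk a b p * l ≤ κ * L := Nat.mul_le_mul h4 hl.le
        omega
      have d4 : B p ^ n * R p ^ j ∣ Mp p ^ (S + N + L) := by
        simp only [hMp]
        rw [mul_pow, ← pow_mul]
        refine mul_dvd_mul (pow_dvd_pow _ ?_) (pow_dvd_pow _ (by omega))
        rw [hn]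
        have h6 : ee a b p * N ≤ ee a b p * (S + N + L) := Nat.mul_le_mul_left _ (by omega)
        have h7 : 2 * kk a b p * l ≤ 2 * kk a b p * (S + N + L) := Nat.mul_le_mul_left _ (by omega)
        rw [add_mul]
        omega
      have e2 : B p ^ n * n.factorial * R p ^ j = (B p ^ n * R p ^ j) * n.factorial := by ring
      rw [e2]
      exact mul_dvd_mul (d4.trans d2) d3
    have h8 := ii_dvd hdvd h3
    have e3 : ((M ^ (S + N + L) * (ee a b p * N + κ * L).factorial : ℕ) : ℂ) *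
        ((c j l : ℂ) * PowerSeries.coeff n ((PowerSeries.C p + PowerSeries.X ^ ee a b p) ^ j *
          PhiP a b (z p) p ^ l)) = (c j l : ℂ) *
        (((M ^ (S + N + L) * (ee a b p * N + κ * L).factorial : ℕ) : ℂ) *
        PowerSeries.coeff n ((PowerSeries.C p + PowerSeries.X ^ ee a b p) ^ j *
          PhiP a b (z p) p ^ l)) := by ring
    rw [e3]
    exact (ii_int _).mul h8
  refine ⟨M, κ, hM0, fun S L c p hp N => ⟨hint S L c p hp N, fun y hy => ?_⟩⟩
  have hgalg : IsAlgebraic K (PowerSeries.coeff N (d.ser S L c p)) :=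
    alg_over (alg_of_int (D := M ^ (S + N + L) * (d.e p * N + κ * L).factorial)
      (by positivity) (hint S L c p hp N))
  obtain ⟨τ, hτ, hτg⟩ := exists_aut hgalg hy
  have hp' : τ p ∈ d.I := by
    refine hgal p hp _ ?_
    rw [aeval_aut τ hτ, minpoly.aeval, map_zero]
  refine ⟨τ p, hp', ?_, ?_⟩
  · rw [he _ hp', he _ hp, ee_map τ hτ]
  · rw [← hτg, hcoef p hp, hcoef _ hp', map_sum]
    refine Finset.sum_congr rfl fun j _ => ?_
    rw [map_sum]
    refine Finset.sum_congr rfl fun l _ => ?_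
    have hconj := local_conj τ hτ hD hQ (hfib _ hp') (hsol p hp) (hsol _ hp')
    have e4 : PowerSeries.map τ ((PowerSeries.C p + PowerSeries.X ^ ee a b p) ^ j *
        PhiP a b (z p) p ^ l) = (PowerSeries.C (τ p) + PowerSeries.X ^ ee a b (τ p)) ^ j *
        PhiP a b (z (τ p)) (τ p) ^ l := by
      rw [map_mul, map_pow, map_pow, map_add, map_pow, PowerSeries.map_C, PowerSeries.map_X,
        hconj, ee_map τ hτ]
    rw [← e4, PowerSeries.coeff_map, ee_map τ hτ, kk_map τ hτ, map_mul τ, map_intCast τ]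

end

end Pool.Agent.Helper433.ES
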