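import Pool.Agent.Helper433_ES.SL6

/-! The transcendence criterion for a finite family of functions, one for each archimedean
place. -/

namespace Pool.Agent.Helper433.ES

open PowerSeries Filter Topology Finset

noncomputable section

namespace SLData

/-- the arithmetic hypothesis for a family -/
def ArithF {ι : Type*} (d : ι → SLData) : Prop :=
  ∃ M κ : ℕ, 0 < M ∧ ∀ (S L : ℕ) (c : ℕ → ℕ → ℤ) (i : ι), ∀ p ∈ (d i).I, ∀ N : ℕ,
    IsIntegral ℤ (((M ^ (S + N + L) * ((d i).e p * N + κ * L).factorial : ℕ) : ℂ) *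
      coeff N ((d i).ser S L c p)) ∧
    ∀ y : ℂ, Polynomial.aeval y (minpoly ℚ (coeff N ((d i).ser S L c p))) = 0 →
      ∃ i', ∃ p' ∈ (d i').I, (d i').e p' = (d i).e p ∧ ‖coeff N ((d i').ser S L c p')‖ = ‖y‖

lemma rat_int (x : ℚ) (hx : IsIntegral ℤ x) (hx0 : x ≠ 0) : 1 ≤ ‖algebraMap ℚ ℂ x‖ := by
  obtain ⟨n, rfl⟩ := IsIntegrallyClosed.isIntegral_iff.1 hx
  have hn : n ≠ 0 := by
    rintro rfl
    exact hx0 (by simp)
  have h1 : (1 : ℝ) ≤ |(n : ℝ)| := by
    have : (1 : ℤ) ≤ |n| := Int.one_le_abs hn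
    exact_mod_cast this
  simpa using h1

/-- Liouville: small values vanish. -/
lemma small_zeroF {ι : Type*} (d : ι → SLData) {M κ : ℕ} (hM : 0 < M)
    (hA : ∀ (S L : ℕ) (c : ℕ → ℕ → ℤ) (i : ι), ∀ p ∈ (d i).I, ∀ N : ℕ,
    IsIntegral ℤ (((M ^ (S + N + L) * ((d i).e p * N + κ * L).factorial : ℕ) : ℂ) *
      coeff N ((d i).ser S L c p)) ∧
    ∀ y : ℂ, Polynomial.aeval y (minpoly ℚ (coeff N ((d i).ser S L c p))) = 0 →
      ∃ i', ∃ p' ∈ (d i').I, (d i').e p' = (d i).e p ∧ ‖coeff N ((d i').ser S L c p')‖ = ‖y‖)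
    {S L : ℕ} {c : ℕ → ℕ → ℤ} {i : ι} {p : ℂ} (hp : p ∈ (d i).I) {N : ℕ}
    (h : ∀ i', ∀ p' ∈ (d i').I, (d i').e p' = (d i).e p →
      ‖((M ^ (S + N + L) * ((d i).e p * N + κ * L).factorial : ℕ) : ℂ) *
        coeff N ((d i').ser S L c p')‖ < 1) : coeff N ((d i).ser S L c p) = 0 := by
  by_contra hne
  obtain ⟨h1, h2⟩ := hA S L c i p hp N
  obtain ⟨y, hy, hy1⟩ := liouville rat_int
    (D := M ^ (S + N + L) * ((d i).e p * N + κ * L).factorial) (by positivity) hne h1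
  obtain ⟨i', p', hp', he, hyp⟩ := h2 y hy
  have h3 := h i' p' hp' he
  rw [norm_mul, hyp, ← norm_mul] at h3
  exact absurd hy1 (not_le.2 h3)

/-- **The transcendence criterion for a family.** -/
theorem criterionF {ι : Type*} [Fintype ι] (d : ι → SLData) (hA : ArithF d) :
    ∃ (S L : ℕ) (c : ℕ → ℕ → ℤ), (∃ j < S, ∃ l < L, c j l ≠ 0) ∧
      ∀ i, ∀ s ∉ (d i).D, (d i).G S L c s = 0 := by
  classical
  obtain ⟨M, κ, hM, hA⟩ := hA
  choose Qi hQi1 hQi using fun i => (d i).coef_bound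
  set Q : ℕ := 1 + ∑ i, Qi i with hQdef
  have hQ1 : 1 ≤ Q := by omega
  have hQ : ∀ i, ∀ p ∈ (d i).I, ∀ j l N : ℕ,
      ‖coeff N ((PowerSeries.C p + X) ^ j * (d i).qs p ^ l)‖ ≤ (Q : ℝ) ^ (j + l + N) := by
    intro i p hp j l N
    refine (hQi i p hp j l N).trans ?_
    have h1 : Qi i ≤ Q :=
      (Finset.single_le_sum (f := Qi) (fun _ _ => Nat.zero_le _) (Finset.mem_univ i)).trans
        (by omega)
    have h2 : (Qi i : ℝ) ≤ (Q : ℝ) := by exact_mod_cast h1
    gcongr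
  have hIne : ∀ i, (d i).I.Nonempty := by
    intro i
    rw [Finset.nonempty_iff_ne_empty]
    intro h0
    have h1 := (d i).hsum
    rw [h0, Finset.sum_empty] at h1
    have h2 := (d i).total_pos
    linarith
  -- a common exponent
  obtain ⟨θ, hθ0, hθ1, hθg⟩ : ∃ θ : ℝ, 0 < θ ∧ θ < 1 ∧ ∀ i, 1 < θ * (d i).gain := by
    have h1 : ∀ i, ∀ᶠ θ : ℝ in 𝓝[<] 1, 1 < θ * (d i).gain := by
      intro i
      have h2 : Tendsto (fun θ : ℝ => θ * (d i).gain) (𝓝[<] 1) (𝓝 (1 * (d i).gain)) :=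
        ((continuous_id.mul continuous_const).tendsto 1).mono_left nhdsWithin_le_nhds
      exact h2.eventually_const_lt (by rw [one_mul]; exact (d i).one_lt_gain)
    have h3 : ∀ᶠ θ : ℝ in 𝓝[<] 1, ∀ i, 1 < θ * (d i).gain := eventually_all.2 h1
    have h4 : ∀ᶠ θ : ℝ in 𝓝[<] 1, 0 < θ :=
      (eventually_gt_nhds one_pos).filter_mono nhdsWithin_le_nhds
    obtain ⟨θ, ⟨h5, h6⟩, h7⟩ := ((h3.and h4).and self_mem_nhdsWithin).exists
    exact ⟨θ, h6, h7, h5⟩
  obtain ⟨r₀, hr₀⟩ := exists_nat_ge (5 / (1 - θ))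
  set r : ℕ := r₀ + 7 with hr
  have hr7 : 7 ≤ r := by omega
  have hrθ : 5 / (r : ℝ) ≤ 1 - θ := by
    have h1 : 0 < 1 - θ := by linarith
    have h2 : (0 : ℝ) < r := by exact_mod_cast (by omega : 0 < r)
    have h3 : (r₀ : ℝ) ≤ r := by exact_mod_cast (by omega : r₀ ≤ r)
    rw [div_le_iff₀ h2]
    rw [div_le_iff₀ h1] at hr₀
    nlinarith
  choose E hE0 hest using fun i => (d i).est θ hθ0
  -- bound for the denominators at the points
  obtain ⟨Kv, hKv0, hKv⟩ : ∃ Kv : ℝ, 0 ≤ Kv ∧ ∀ i, ∀ p ∈ (d i).I,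
      ‖(d i).V p‖⁻¹ ≤ Real.exp Kv := by
    refine ⟨∑ i, ∑ p ∈ (d i).I, ‖(d i).V p‖⁻¹, Finset.sum_nonneg fun _ _ =>
      Finset.sum_nonneg fun _ _ => by positivity, fun i p hp => ?_⟩
    have h1 : ‖(d i).V p‖⁻¹ ≤ ∑ p ∈ (d i).I, ‖(d i).V p‖⁻¹ :=
      Finset.single_le_sum (f := fun p => ‖(d i).V p‖⁻¹) (fun _ _ => by positivity) hp
    have h1' : ∑ p ∈ (d i).I, ‖(d i).V p‖⁻¹ ≤ ∑ i, ∑ p ∈ (d i).I, ‖(d i).V p‖⁻¹ :=
      Finset.single_le_sum (f := fun i => ∑ p ∈ (d i).I, ‖(d i).V p‖⁻¹)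
        (fun _ _ => Finset.sum_nonneg fun _ _ => by positivity) (Finset.mem_univ i)
    have h2 := Real.add_one_le_exp (∑ i, ∑ p ∈ (d i).I, ‖(d i).V p‖⁻¹)
    linarith
  set Em : ℕ := ∑ i, ∑ p ∈ (d i).I, (d i).e p with hEm
  have hEm' : ∀ i, ∀ p ∈ (d i).I, (d i).e p ≤ Em := fun i p hp =>
    (Finset.single_le_sum (f := (d i).e) (fun _ _ => Nat.zero_le _) hp).trans
      (Finset.single_le_sum (f := fun i => ∑ p ∈ (d i).I, (d i).e p)
        (fun _ _ => Nat.zero_le _) (Finset.mem_univ i))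
  -- thresholds
  have hall := (eventually_all.2 hest).and ((size_ineq θ r hr7 hrθ).and
    (eventually_all.2 fun i => final_ineq (d i).gain θ (E i) Kv M κ (hθg i) hKv0 hM))
  obtain ⟨τ₀, hτ₀⟩ := eventually_atTop.1 hall
  obtain ⟨n, hcount, hn1, hnτ⟩ := ((count_ineq Em M κ Q
    (Fintype.card (Σ i, {p // p ∈ (d i).I})) r hr7).and
    ((eventually_ge_atTop 1).and (eventually_ge_atTop τ₀))).exists
  set T := n ^ r with hT
  set S := n ^ (r - 2) with hS
  set L := n ^ 5 with hL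
  set h := n ^ (r - 1) with hh
  have hTτ : τ₀ ≤ T := hnτ.trans (by
    calc n = n ^ 1 := (pow_one n).symm
      _ ≤ n ^ r := Nat.pow_le_pow_right hn1 (by omega))
  -- pigeonhole
  let Dn : ((Σ i, {p // p ∈ (d i).I}) × Fin T) → ℕ := fun x =>
    M ^ (S + (x.2 : ℕ) + L) * ((d x.1.1).e x.1.2.1 * (x.2 : ℕ) + κ * L).factorial
  let am : ((Σ i, {p // p ∈ (d i).I}) × Fin T) → (Fin S × Fin L) → ℂ := fun x y =>
    (Dn x : ℂ) * coeff (x.2 : ℕ)
      ((PowerSeries.C x.1.2.1 + X) ^ (y.1 : ℕ) * (d x.1.1).qs x.1.2.1 ^ (y.2 : ℕ))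
  set B : ℕ := 2 ^ h * S * L * M ^ (S + T + L) * (Em * T + κ * L).factorial * Q ^ (S + L + T)
    with hB
  have ham : ∀ x y, ‖am x y‖ ≤
      ((M ^ (S + T + L) * (Em * T + κ * L).factorial * Q ^ (S + L + T) : ℕ) : ℝ) := by
    intro x y
    simp only [am]
    rw [norm_mul, Complex.norm_natCast]
    have h1 : Dn x ≤ M ^ (S + T + L) * (Em * T + κ * L).factorial := by
      simp only [Dn]
      have hx2 := x.2.2
      refine Nat.mul_le_mul (Nat.pow_le_pow_right hM (by omega)) (Nat.factorial_le ?_)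
      have h3 := hEm' x.1.1 x.1.2.1 x.1.2.2
      have : (d x.1.1).e x.1.2.1 * (x.2 : ℕ) ≤ Em * T := Nat.mul_le_mul h3 hx2.le
      omega
    have h2 := hQ x.1.1 x.1.2.1 x.1.2.2 y.1 y.2 x.2
    have h3 : (Q : ℝ) ^ ((y.1 : ℕ) + y.2 + x.2) ≤ (Q : ℝ) ^ (S + L + T) := by
      refine pow_le_pow_right₀ (by exact_mod_cast hQ1) ?_
      have := x.2.2; have := y.1.2; have := y.2.2
      omega
    calc (Dn x : ℝ) * ‖coeff (x.2 : ℕ)
          ((PowerSeries.C x.1.2.1 + X) ^ (y.1 : ℕ) * (d x.1.1).qs x.1.2.1 ^ (y.2 : ℕ))‖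
        ≤ ((M ^ (S + T + L) * (Em * T + κ * L).factorial : ℕ) : ℝ) * (Q : ℝ) ^ (S + L + T) := by
          gcongr
          exact h2.trans h3
      _ = _ := by push_cast; ring
  have hpB : ∀ x, ((2 ^ h : ℕ) : ℝ) * ∑ y, ‖am x y‖ ≤ (B : ℝ) := by
    intro x
    calc ((2 ^ h : ℕ) : ℝ) * ∑ y, ‖am x y‖ ≤ ((2 ^ h : ℕ) : ℝ) * ∑ _y : Fin S × Fin L,
        ((M ^ (S + T + L) * (Em * T + κ * L).factorial * Q ^ (S + L + T) : ℕ) : ℝ) := by
          gcongr with y _
          exact ham x y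
      _ = (B : ℝ) := by
          rw [Finset.sum_const, Finset.card_univ, Fintype.card_prod, Fintype.card_fin,
            Fintype.card_fin, nsmul_eq_mul, hB]
          push_cast; ring
  have hpc : (4 * B + 1) ^ (2 * Fintype.card ((Σ i, {p // p ∈ (d i).I}) × Fin T)) <
      (2 ^ h + 1) ^ Fintype.card (Fin S × Fin L) := by
    rw [Fintype.card_prod, Fintype.card_prod, Fintype.card_fin, Fintype.card_fin,
      Fintype.card_fin]
    exact hcount
  obtain ⟨c₀, hc₀ne, hc₀le, hc₀small⟩ := pigeon am (2 ^ h) B hpB hpc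
  -- the polynomial
  let c : ℕ → ℕ → ℤ := fun j l => if hj : j < S ∧ l < L then c₀ (⟨j, hj.1⟩, ⟨l, hj.2⟩) else 0
  have hcval : ∀ y : Fin S × Fin L, c y.1 y.2 = c₀ y := by
    intro y
    simp only [c]
    rw [dif_pos ⟨y.1.2, y.2.2⟩]
  have hcle : ∀ j l, |(c j l : ℝ)| ≤ 2 ^ h := by
    intro j l
    by_cases hj : j < S ∧ l < L
    · have h1 := hc₀le (⟨j, hj.1⟩, ⟨l, hj.2⟩)
      have h2 : c j l = c₀ (⟨j, hj.1⟩, ⟨l, hj.2⟩) := by simp only [c]; rw [dif_pos hj]
      rw [h2]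
      exact_mod_cast h1
    · have h2 : c j l = 0 := by simp only [c]; rw [dif_neg hj]
      rw [h2]; simp
  refine ⟨S, L, c, ?_, ?_⟩
  · by_contra hcon
    push Not at hcon
    apply hc₀ne
    ext y
    rw [← hcval y]
    exact hcon y.1 y.1.2 y.2 y.2.2
  -- initial vanishing
  have hinit : ∀ i, ∀ p ∈ (d i).I, ∀ N < T, coeff N ((d i).ser S L c p) = 0 := by
    intro i p hp N hN
    refine small_zeroF d hM hA hp fun i' p' hp' he => ?_
    have h1 := hc₀small (⟨i', ⟨p', hp'⟩⟩, ⟨N, hN⟩)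
    have h2 : ∑ y, (c₀ y : ℂ) * am (⟨i', ⟨p', hp'⟩⟩, ⟨N, hN⟩) y =
        ((M ^ (S + N + L) * ((d i).e p * N + κ * L).factorial : ℕ) : ℂ) *
          coeff N ((d i').ser S L c p') := by
      rw [(d i').coeff_ser, Finset.mul_sum]
      rw [Fintype.sum_prod_type, Finset.sum_range]
      refine Finset.sum_congr rfl fun j _ => ?_
      rw [Finset.mul_sum, Finset.sum_range]
      refine Finset.sum_congr rfl fun l _ => ?_
      have h3 := hcval (j, l)
      simp only at h3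
      rw [h3]
      simp only [am, Dn]
      rw [he]
      ring
    rw [h2] at h1
    exact h1
  -- extrapolation
  have hvan : ∀ τ, T ≤ τ → ∀ i, ∀ p ∈ (d i).I, ∀ N, (d i).e p * N < τ →
      coeff N ((d i).ser S L c p) = 0 := by
    intro τ hτ
    induction τ, hτ using Nat.le_induction with
    | base =>
      intro i p hp N hN
      refine hinit i p hp N (lt_of_le_of_lt ?_ hN)
      exact Nat.le_mul_of_pos_left N ((d i).he p hp)
    | succ τ hτ ih =>
      intro i p hp N hN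
      rcases Nat.lt_or_ge ((d i).e p * N) τ with h1 | h1
      · exact ih i p hp N h1
      have heN : (d i).e p * N = τ := by omega
      obtain ⟨hest', hsize, hfin⟩ := hτ₀ τ (hTτ.trans hτ)
      obtain ⟨s1, s2, s3, s4, s5, s6⟩ := hsize n hτ hn1
      refine small_zeroF d hM hA hp fun i' p' hp' he => ?_
      -- divide by the zeros
      have hdvd : ∀ q ∈ (d i').I, X ^ ((d i').nn τ q) ∣ Tay ((d i').G S L c) q := by
        intro q hq
        rw [(d i').Tay_G hq]
        refine Dvd.dvd.mul_left ?_ _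
        rw [PowerSeries.X_pow_dvd_iff]
        intro m hm
        exact ih i' q hq m (((d i').lt_nn hq m).1 hm)
      obtain ⟨H, hHd, hHG⟩ := divide (d i').openD (d i').I ((d i').G_diff S L c)
        (fun q hq => (d i').hI q hq) ((d i').nn τ) hdvd
      have hbd := hest' i' S L h s1 s2 s3 s4 s5 c hcle H hHd hHG
      -- the order at `p'` is `N`
      have hnn : (d i').nn τ p' = N := by
        have e1 : ¬ N < (d i').nn τ p' := by
          rw [(d i').lt_nn hp', he, heN]; exact lt_irrefl _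
        have e2 : ∀ m, m < N → m < (d i').nn τ p' := by
          intro m hm
          rw [(d i').lt_nn hp', he, ← heN]
          exact Nat.mul_lt_mul_of_pos_left hm ((d i).he p hp)
        by_contra hne
        have h3 : (d i').nn τ p' < N := lt_of_le_of_ne (not_lt.1 e1) hne
        exact lt_irrefl _ (e2 _ h3)
      have hlead := lead_coeff (d i').openD hp' ((d i').hI p' hp') hHd hHG
      rw [hnn] at hlead
      -- compare the coefficients
      have hT1 : coeff N (Tay ((d i').G S L c) p') =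
          (d i').V p' ^ L * coeff N ((d i').ser S L c p') := by
        have h4 : X ^ N ∣ (d i').ser S L c p' := by
          rw [PowerSeries.X_pow_dvd_iff]
          intro m hm
          refine ih i' p' hp' m ?_
          rw [he, ← heN]
          exact Nat.mul_lt_mul_of_pos_left hm ((d i).he p hp)
        obtain ⟨w, hw⟩ := h4
        rw [(d i').Tay_G hp', hw]
        have e1 : Tay (d i').V p' ^ L * (X ^ N * w) = X ^ N * (Tay (d i').V p' ^ L * w) := by ring
        have e2 := PowerSeries.coeff_X_pow_mul (Tay (d i').V p' ^ L * w) N 0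
        have e3 := PowerSeries.coeff_X_pow_mul w N 0
        rw [zero_add] at e2 e3
        rw [e1, e2, e3, coeff_zero_eq_constantCoeff_apply, map_mul, map_pow, constantCoeff_Tay,
          coeff_zero_eq_constantCoeff_apply]
      have hbd' := hbd p' hp'
      rw [← hlead, hT1, norm_mul, norm_pow] at hbd'
      have hVp : 0 < ‖(d i').V p'‖ := norm_pos_iff.2 ((d i').hVI p' hp')
      have hco : ‖coeff N ((d i').ser S L c p')‖ ≤
          Real.exp (E i' * τ - θ * (d i').gain * τ * Real.log τ) * Real.exp (L * Kv) := by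
        have h5 : ‖coeff N ((d i').ser S L c p')‖ =
            (‖(d i').V p'‖ ^ L * ‖coeff N ((d i').ser S L c p')‖) * (‖(d i').V p'‖⁻¹) ^ L := by
          rw [inv_pow]; field_simp
        rw [h5]
        have h6 : (‖(d i').V p'‖⁻¹) ^ L ≤ Real.exp (L * Kv) := by
          rw [Real.exp_nat_mul]
          have := hKv i' p' hp'
          gcongr
        gcongr
      have hNτ : (N : ℝ) ≤ τ := by
        have : N ≤ τ := by rw [← heN]; exact Nat.le_mul_of_pos_left N ((d i).he p hp)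
        exact_mod_cast this
      have hfin' := hfin i' S L N s1 s3 hNτ s6
      rw [norm_mul, Complex.norm_natCast, heN]
      refine lt_of_le_of_lt ?_ hfin'
      gcongr
  -- conclusion
  intro i
  obtain ⟨p, hp⟩ := hIne i
  have hser : (d i).ser S L c p = 0 := by
    ext N
    rw [map_zero]
    refine hvan (T + (d i).e p * N + 1) (by omega) i p hp N (by omega)
  have hT0 : Tay ((d i).G S L c) p = Tay (fun _ => (0 : ℂ)) p := by
    rw [(d i).Tay_G hp, hser, mul_zero, Tay_const, map_zero]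
  have hGan : AnalyticOnNhd ℂ ((d i).G S L c) (((d i).D : Set ℂ)ᶜ) :=
    ((d i).G_diff S L c).analyticOnNhd (d i).openD
  have hev : (d i).G S L c =ᶠ[𝓝 p] fun _ => 0 :=
    Tay_inj (hGan p ((d i).hI p hp)) analyticAt_const hT0
  have := hGan.eqOn_of_preconnected_of_eventuallyEq (g := fun _ => (0 : ℂ)) analyticOnNhd_const
    (d i).isPreconnected_compl ((d i).hI p hp) hev
  exact fun s hs => this hs

end SLData

end

end Pool.Agent.Helper433.ES
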