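import Pool.Agent.Helper433_ES.Cj
import Pool.Agent.Helper433_ES.SLF

/-! The arithmetic hypothesis for a family of conjugate classes. -/

namespace Pool.Agent.Helper433.ES

open Filter Topology Finset

noncomputable section

section

variable {a b : Polynomial ℂ} {p : ℂ} {z : ℂ → ℂ}

lemma Adt.zer (h : Adt a b p) : Zer a b p := ⟨h.zero_a, h.zero_b⟩

theorem local_serG (h : Adt a b p) (hz : AnalyticAt ℂ z p) :
    PowerSeries.X ^ (2 * scl a b p) *
      PowerSeries.expand (ram a b p) (ram_ne a b p) (Tay (fP a b z) p) = PhiG a b z p := by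
  set e := ram a b p with he
  set k := scl a b p with hk
  have he0 : e ≠ 0 := ram_ne a b p
  have hk0 : 0 < k := h.scl_pos
  obtain ⟨α, hα, hα', hαT⟩ := pull_div a p e (4 * k) he0 h.dvd_a
  obtain ⟨β, hβ, hβ', hβT⟩ := pull_div b p e (6 * k) he0 h.dvd_b
  obtain ⟨hzc, hzcT⟩ := Tay_comp_pow hz e he0
  obtain ⟨hfc, hfcT⟩ := Tay_comp_pow (h.zer.fP_an hz) e he0
  have hid : AnalyticAt ℂ (fun s : ℂ => s) 0 := by fun_prop
  have hζ : AnalyticAt ℂ (fun u : ℂ => u ^ k * z (p + u ^ e)) 0 := (hid.pow k).mul hzc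
  obtain ⟨hF, hFT⟩ := F_comp_taylor hζ (hα 0) (hβ 0) (by
    show (0 : ℂ) ^ k * z (p + 0 ^ e) = 0
    rw [zero_pow hk0.ne', zero_mul])
  have heq : (fun u : ℂ => u ^ (2 * k) * fP a b z (p + u ^ e)) =
      fun u => F (u ^ k * z (p + u ^ e)) (α u) (β u) := by
    ext u
    rw [fP, hα' u, hβ' u, ← F_scale, ← pow_mul, ← pow_mul, ← pow_mul, mul_comm k 2,
      mul_comm k 4, mul_comm k 6]
  have hT : Tay (fun u : ℂ => u ^ (2 * k) * fP a b z (p + u ^ e)) 0 =
      Tay (fun u => F (u ^ k * z (p + u ^ e)) (α u) (β u)) 0 := by rw [heq]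
  rw [hFT, hαT, hβT, Tay_mul (f := fun u => u ^ (2 * k)) (hid.pow _) hfc, Tay_pow hid, hfcT,
    Tay_mul (f := fun u => u ^ k) (hid.pow _) hzc, Tay_pow hid, hzcT, Tay_id] at hT
  rw [map_zero, zero_add] at hT
  rw [hT]
  rfl

theorem local_coeffG (h : Adt a b p) (hz : AnalyticAt ℂ z p) (j l N : ℕ) :
    PowerSeries.coeff N ((PowerSeries.C p + PowerSeries.X) ^ j * Tay (fP a b z) p ^ l) =
      PowerSeries.coeff (ram a b p * N + 2 * scl a b p * l)
        ((PowerSeries.C p + PowerSeries.X ^ ram a b p) ^ j * PhiG a b z p ^ l) := by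
  rw [← local_serG h hz]
  have h1 : (PowerSeries.C p + PowerSeries.X ^ ram a b p) ^ j *
      (PowerSeries.X ^ (2 * scl a b p) *
      PowerSeries.expand (ram a b p) (ram_ne a b p) (Tay (fP a b z) p)) ^ l =
      PowerSeries.X ^ (2 * scl a b p * l) * PowerSeries.expand (ram a b p) (ram_ne a b p)
        ((PowerSeries.C p + PowerSeries.X) ^ j * Tay (fP a b z) p ^ l) := by
    rw [map_mul, map_pow, map_pow, map_add, PowerSeries.expand_C, PowerSeries.expand_X, mul_pow,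
      ← pow_mul]
    ring
  rw [h1, PowerSeries.coeff_X_pow_mul, PowerSeries.coeff_expand_mul]

lemma lev_le (a b : Polynomial ℂ) (p : ℂ) : lev a b p ≤ 1 := by
  unfold lev
  split_ifs <;> norm_num

lemma fact_pow_dvd {r : ℕ} (hr : r ≤ 1) (n : ℕ) :
    n.factorial ^ (r + 1) ∣ ((r + 1) * n).factorial := by
  interval_cases r
  · simp
  · have := Nat.factorial_mul_factorial_dvd_factorial_add n n
    have h2 : (1 + 1) * n = n + n := by ring
    rw [pow_succ, pow_one, h2]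
    exact this

end

/-- transitivity of the endomorphisms of `ℂ` on a family of data -/
def Trn {ι : Type*} (A B Q P1 P2 : ι → Polynomial ℂ) (I : ι → Finset ℂ) : Prop :=
  ∀ (τ : ℂ →+* ℂ) (i : ι), ∃ (i' : ι) (τ' : ℂ →+* ℂ), (∀ x, ‖τ' x‖ = ‖τ x‖) ∧
    (A i).map τ' = A i' ∧ (B i).map τ' = B i' ∧ (Q i).map τ' = Q i' ∧
    (P1 i).map τ' = P1 i' ∧ (P2 i).map τ' = P2 i' ∧ ∀ p ∈ I i, τ' p ∈ I i'

theorem arithF_of {ι : Type*} [Fintype ι] (d : ι → SLData) (A B Q P1 P2 : ι → Polynomial ℂ)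
    (hAa : ∀ i n, IsAlgebraic ℚ ((A i).coeff n)) (hBa : ∀ i n, IsAlgebraic ℚ ((B i).coeff n))
    (hQa : ∀ i n, IsAlgebraic ℚ ((Q i).coeff n)) (h1a : ∀ i n, IsAlgebraic ℚ ((P1 i).coeff n))
    (h2a : ∀ i n, IsAlgebraic ℚ ((P2 i).coeff n))
    (hD : ∀ i, disc (A i) (B i) ≠ 0) (hQ : ∀ i, Q i ≠ 0) (z w : ι → ℂ → ℂ → ℂ)
    (hfib : ∀ i, ∀ p ∈ (d i).I, Adt (A i) (B i) p)
    (hsol : ∀ i, ∀ p ∈ (d i).I, LocSol (A i) (B i) (Q i) (P1 i) (P2 i) p (z i p) (w i p))
    (halg : ∀ i, ∀ p ∈ (d i).I, IsAlgebraic ℚ p)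
    (he : ∀ i, ∀ p ∈ (d i).I, (d i).e p = (lev (A i) (B i) p + 1) * ram (A i) (B i) p)
    (hqs : ∀ i, ∀ p ∈ (d i).I, (d i).qs p = Tay (fP (A i) (B i) (z i p)) p)
    (hT : Trn A B Q P1 P2 fun i => (d i).I) : SLData.ArithF d := by
  classical
  -- coefficients
  have hcoef : ∀ i, ∀ p ∈ (d i).I, ∀ (S L : ℕ) (c : ℕ → ℕ → ℤ) (N : ℕ),
      PowerSeries.coeff N ((d i).ser S L c p) = ∑ j ∈ range S, ∑ l ∈ range L, (c j l : ℂ) *
        PowerSeries.coeff (ram (A i) (B i) p * N + 2 * scl (A i) (B i) p * l)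
          ((PowerSeries.C p + PowerSeries.X ^ ram (A i) (B i) p) ^ j *
            PhiG (A i) (B i) (z i p) p ^ l) := by
    intro i p hp S L c N
    rw [(d i).coeff_ser]
    refine Finset.sum_congr rfl fun j _ => Finset.sum_congr rfl fun l _ => ?_
    rw [hqs i p hp, local_coeffG (hfib i p hp) (hsol i p hp).hz]
  choose! C hC hCΦ using fun (i : ι) (p : ℂ) (hp : p ∈ (d i).I) =>
    local_intG (hAa i) (hBa i) (hQa i) (h1a i) (h2a i) (hD i) (hQ i) (halg i p hp)
      (hfib i p hp) (hsol i p hp)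
  choose! R hR hRp using fun (i : ι) (p : ℂ) (hp : p ∈ (d i).I) => exists_den (halg i p hp)
  set Mp : ι → ℂ → ℕ := fun i p =>
    C i p ^ (ram (A i) (B i) p + 2 * scl (A i) (B i) p) * R i p with hMp
  set M : ℕ := ∏ i, ∏ p ∈ (d i).I, Mp i p with hM
  have hM0 : 0 < M := Finset.prod_pos fun i _ => Finset.prod_pos fun p hp =>
    Nat.mul_pos (pow_pos (hC i p hp) _) (hR i p hp)
  set κ : ℕ := ∑ i, ∑ p ∈ (d i).I, 4 * scl (A i) (B i) p with hκ
  have hint : ∀ (S L : ℕ) (c : ℕ → ℕ → ℤ), ∀ i, ∀ p ∈ (d i).I, ∀ N : ℕ,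
      IsIntegral ℤ (((M ^ (S + N + L) * ((d i).e p * N + κ * L).factorial : ℕ) : ℂ) *
        PowerSeries.coeff N ((d i).ser S L c p)) := by
    intro S L c i p hp N
    rw [hcoef i p hp, he i p hp, Finset.mul_sum]
    refine ii_sum _ fun j hj => ?_
    rw [Finset.mul_sum]
    refine ii_sum _ fun l hl => ?_
    rw [Finset.mem_range] at hj hl
    set e := ram (A i) (B i) p with hedef
    set k := scl (A i) (B i) p with hkdef
    set r := lev (A i) (B i) p with hrdef
    have hr1 : r ≤ 1 := lev_le _ _ _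
    have hmem : (PowerSeries.C (R i p : ℂ) * (PowerSeries.C p + PowerSeries.X ^ e)) ^ j *
        PhiG (A i) (B i) (z i p) p ^ l ∈ HR (r + 1) (C i p) := by
      refine (HR _ _).mul_mem ((HR _ _).pow_mem ?_ j) ((HR _ _).pow_mem (hCΦ i p hp) l)
      rw [mul_add, ← map_mul]
      exact (HR _ _).add_mem (C_mem_HR (hRp i p hp))
        ((HR _ _).mul_mem (C_mem_HR (ii_nat _)) ((HR _ _).pow_mem X_mem_HR _))
    have h1 := hmem (e * N + 2 * k * l)
    set n := e * N + 2 * k * l with hn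
    have h2 : (PowerSeries.C (R i p : ℂ) * (PowerSeries.C p + PowerSeries.X ^ e)) ^ j *
        PhiG (A i) (B i) (z i p) p ^ l = PowerSeries.C ((R i p : ℂ) ^ j) *
        ((PowerSeries.C p + PowerSeries.X ^ e) ^ j * PhiG (A i) (B i) (z i p) p ^ l) := by
      rw [mul_pow, ← map_pow]; ring
    rw [h2, PowerSeries.coeff_C_mul] at h1
    have h3 : IsIntegral ℤ (((C i p ^ n * n.factorial ^ (r + 1) * R i p ^ j : ℕ) : ℂ) *
        PowerSeries.coeff n ((PowerSeries.C p + PowerSeries.X ^ e) ^ j *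
          PhiG (A i) (B i) (z i p) p ^ l)) := by
      have e1 : ((C i p ^ n * n.factorial ^ (r + 1) * R i p ^ j : ℕ) : ℂ) *
          PowerSeries.coeff n ((PowerSeries.C p + PowerSeries.X ^ e) ^ j *
            PhiG (A i) (B i) (z i p) p ^ l) = (C i p : ℂ) ^ n * (n.factorial : ℂ) ^ (r + 1) *
          ((R i p : ℂ) ^ j * PowerSeries.coeff n ((PowerSeries.C p + PowerSeries.X ^ e) ^ j *
            PhiG (A i) (B i) (z i p) p ^ l)) := by push_cast; ring
      rw [e1]; exact h1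
    have hdvd : C i p ^ n * n.factorial ^ (r + 1) * R i p ^ j ∣
        M ^ (S + N + L) * ((r + 1) * e * N + κ * L).factorial := by
      have d1 : Mp i p ∣ M := (Finset.dvd_prod_of_mem _ hp).trans
        (Finset.dvd_prod_of_mem (fun i => ∏ p ∈ (d i).I, Mp i p) (Finset.mem_univ i))
      have d2 : Mp i p ^ (S + N + L) ∣ M ^ (S + N + L) := pow_dvd_pow_of_dvd d1 _
      have d3 : n.factorial ^ (r + 1) ∣ ((r + 1) * e * N + κ * L).factorial := by
        refine (fact_pow_dvd hr1 n).trans (Nat.factorial_dvd_factorial ?_)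
        rw [hn]
        have h4 : 4 * k ≤ κ := by
          have h41 : 4 * k ≤ ∑ p ∈ (d i).I, 4 * scl (A i) (B i) p :=
            Finset.single_le_sum (f := fun p => 4 * scl (A i) (B i) p)
              (fun _ _ => Nat.zero_le _) hp
          exact h41.trans (Finset.single_le_sum
            (f := fun i => ∑ p ∈ (d i).I, 4 * scl (A i) (B i) p)
            (fun _ _ => Nat.zero_le _) (Finset.mem_univ i))
        have h5 : 4 * k * l ≤ κ * L := Nat.mul_le_mul h4 hl.le
        have h6 : (r + 1) * (2 * k * l) ≤ 2 * (2 * k * l) := Nat.mul_le_mul_right _ (by omega)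
        have h7 : (r + 1) * (e * N + 2 * k * l) = (r + 1) * e * N + (r + 1) * (2 * k * l) := by
          ring
        have h8 : 2 * (2 * k * l) = 4 * k * l := by ring
        omega
      have d4 : C i p ^ n * R i p ^ j ∣ Mp i p ^ (S + N + L) := by
        simp only [hMp]
        rw [mul_pow, ← pow_mul]
        refine mul_dvd_mul (pow_dvd_pow _ ?_) (pow_dvd_pow _ (by omega))
        rw [hn, ← hedef, ← hkdef]
        have h6 : e * N ≤ e * (S + N + L) := Nat.mul_le_mul_left _ (by omega)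
        have h7 : 2 * k * l ≤ 2 * k * (S + N + L) := Nat.mul_le_mul_left _ (by omega)
        rw [add_mul]
        omega
      have e2 : C i p ^ n * n.factorial ^ (r + 1) * R i p ^ j =
          (C i p ^ n * R i p ^ j) * n.factorial ^ (r + 1) := by ring
      rw [e2]
      exact mul_dvd_mul (d4.trans d2) d3
    have h8 := ii_dvd hdvd h3
    have e3 : ((M ^ (S + N + L) * ((r + 1) * e * N + κ * L).factorial : ℕ) : ℂ) *
        ((c j l : ℂ) * PowerSeries.coeff n ((PowerSeries.C p + PowerSeries.X ^ e) ^ j *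
          PhiG (A i) (B i) (z i p) p ^ l)) = (c j l : ℂ) *
        (((M ^ (S + N + L) * ((r + 1) * e * N + κ * L).factorial : ℕ) : ℂ) *
        PowerSeries.coeff n ((PowerSeries.C p + PowerSeries.X ^ e) ^ j *
          PhiG (A i) (B i) (z i p) p ^ l)) := by ring
    rw [e3]
    exact (ii_int _).mul h8
  refine ⟨M, κ, hM0, fun S L c i p hp N => ⟨hint S L c i p hp N, fun y hy => ?_⟩⟩
  have hgalg : IsAlgebraic ℚ (PowerSeries.coeff N ((d i).ser S L c p)) :=
    alg_of_int (D := M ^ (S + N + L) * ((d i).e p * N + κ * L).factorial)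
      (by positivity) (hint S L c i p hp N)
  obtain ⟨τ₀, -, hτg⟩ := exists_aut hgalg hy
  obtain ⟨i', τ, hnorm, tA, tB, tQ, t1, t2, tI⟩ := hT τ₀ i
  have hp' : τ p ∈ (d i').I := tI p hp
  refine ⟨i', τ p, hp', ?_, ?_⟩
  · rw [he _ _ hp', he _ _ hp, ← tA, ← tB, ram_c, lev_c]
  · rw [← hτg, ← hnorm]
    congr 1
    rw [hcoef i p hp, hcoef _ _ hp', map_sum]
    refine Finset.sum_congr rfl fun j _ => ?_
    rw [map_sum]
    refine Finset.sum_congr rfl fun l _ => ?_
    have hs' := hsol i' (τ p) hp'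
    rw [← tA, ← tB, ← tQ, ← t1, ← t2] at hs'
    have hconj := local_conjG τ (hD i) (hQ i) (hfib i p hp) (hsol i p hp) hs'
    rw [← tA, ← tB]
    have e4 : PowerSeries.map τ ((PowerSeries.C p + PowerSeries.X ^ ram (A i) (B i) p) ^ j *
        PhiG (A i) (B i) (z i p) p ^ l) = (PowerSeries.C (τ p) +
          PowerSeries.X ^ ram ((A i).map τ) ((B i).map τ) (τ p)) ^ j *
        PhiG ((A i).map τ) ((B i).map τ) (z i' (τ p)) (τ p) ^ l := by
      rw [map_mul, map_pow, map_pow, map_add, map_pow, PowerSeries.map_C, PowerSeries.map_X,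
        hconj, ram_c τ]
    rw [← e4, PowerSeries.coeff_map, ram_c τ, scl_c τ, map_mul τ, map_intCast τ]

end

end Pool.Agent.Helper433.ES
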