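import Pool.Agent.Helper433_ES.Def

/-! Grothendieck classes without any normalisation. -/

namespace Pool.Agent.Helper433.ES

open Filter Topology

noncomputable section

variable {K : Type*} [Field K] [Algebra K ℂ]

/-- A Grothendieck class defined over `K` on the elliptic surface `y ^ 2 = x ^ 3 + a x + b` over
the projective line: a rational section `(P₁ / Q, P₂ / Q)` over `K` of the relative de Rham bundle
which near every point `p` of the affine line and near infinity is the covariant derivative of
a meromorphic section `(z p, w p)`, resp. `(zi, wi)`, and such that these local primitives agree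
modulo periods: their first coordinates take the common values `ν s` modulo the period lattice. -/
structure GrothClass (a b : Polynomial K) where
  ν : ℂ → ℂ
  z : ℂ → ℂ → ℂ
  w : ℂ → ℂ → ℂ
  zi : ℂ → ℂ
  wi : ℂ → ℂ
  Q : Polynomial K
  P₁ : Polynomial K
  P₂ : Polynomial K
  Q_ne : Q ≠ 0
  z_mero : ∀ p, MeromorphicAt (z p) p
  w_mero : ∀ p, MeromorphicAt (w p) p
  zi_mero : MeromorphicAt (fun t => zi t⁻¹) 0
  wi_mero : MeromorphicAt (fun t => wi t⁻¹) 0
  period : ∀ p, ∀ᶠ s in 𝓝[≠] p,
    IsPeriod (Polynomial.aeval s a) (Polynomial.aeval s b) (z p s - ν s)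
  period_infty : ∀ᶠ s in cocompact ℂ,
    IsPeriod (Polynomial.aeval s a) (Polynomial.aeval s b) (zi s - ν s)
  gm : ∀ p, ∀ᶠ s in 𝓝[≠] p, GM a b Q P₁ P₂ (z p) (w p) s
  gm_infty : ∀ᶠ s in cocompact ℂ, GM a b Q P₁ P₂ zi wi s

/-- The Weierstrass equation is minimal at the point `p` of the affine line. -/
def Minl (a b : Polynomial K) (p : ℂ) : Prop :=
  ¬ ((Polynomial.X - Polynomial.C p) ^ 4 ∣ a.map (algebraMap K ℂ) ∧
    (Polynomial.X - Polynomial.C p) ^ 6 ∣ b.map (algebraMap K ℂ))

end

end Pool.Agent.Helper433.ES
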