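import Pool.Agent.Helper433_ES.Hur

/-! Hurwitz integral series of level `r`: denominators `B ^ n * (n !) ^ r`. -/

namespace Pool.Agent.Helper433.ES

open PowerSeries Filter Topology Finset

noncomputable section

/-- Hurwitz integral series of level `r` with parameter `B`. -/
def HR (r B : ℕ) : Subring ℂ⟦X⟧ where
  carrier := {φ | ∀ n, IsIntegral ℤ ((B : ℂ) ^ n * (n.factorial : ℂ) ^ r * coeff n φ)}
  mul_mem' := by
    intro φ ψ hφ hψ n
    rw [PowerSeries.coeff_mul, Finset.mul_sum]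
    refine ii_sum _ fun p hp => ?_
    rw [HasAntidiagonal.mem_antidiagonal] at hp
    have h3 : (n.choose p.1 : ℂ) * (p.1.factorial : ℂ) * (p.2.factorial : ℂ) = n.factorial := by
      have := Nat.choose_mul_factorial_mul_factorial (n := n) (k := p.1) (by omega)
      have h4 : n - p.1 = p.2 := by omega
      rw [h4] at this
      exact_mod_cast this
    have h4 : (B : ℂ) ^ n * (n.factorial : ℂ) ^ r * (coeff p.1 φ * coeff p.2 ψ) =
        (n.choose p.1 : ℂ) ^ r * (((B : ℂ) ^ p.1 * (p.1.factorial : ℂ) ^ r * coeff p.1 φ) *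
          ((B : ℂ) ^ p.2 * (p.2.factorial : ℂ) ^ r * coeff p.2 ψ)) := by
      rw [← h3, ← hp, pow_add, mul_pow, mul_pow]; ring
    rw [h4]
    exact ((ii_nat _).pow _).mul ((hφ _).mul (hψ _))
  one_mem' := by
    intro n
    rw [PowerSeries.coeff_one]
    split_ifs with h
    · subst h; simpa using ii_nat 1
    · rw [mul_zero]; exact isIntegral_zero
  add_mem' := by
    intro φ ψ hφ hψ n
    rw [map_add, mul_add]
    exact (hφ n).add (hψ n)
  zero_mem' := by
    intro n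
    rw [map_zero, mul_zero]; exact isIntegral_zero
  neg_mem' := by
    intro φ hφ n
    rw [map_neg, mul_neg]
    exact (hφ n).neg

variable {r : ℕ}

lemma HR_mono {B : ℕ} {φ : ℂ⟦X⟧} (h : φ ∈ HR r B) (k : ℕ) : φ ∈ HR r (B * k) := by
  intro n
  have h1 : ((B * k : ℕ) : ℂ) ^ n * (n.factorial : ℂ) ^ r * coeff n φ =
      (k : ℂ) ^ n * ((B : ℂ) ^ n * (n.factorial : ℂ) ^ r * coeff n φ) := by
    push_cast; rw [mul_pow]; ring
  rw [h1]
  exact ((ii_nat k).pow _).mul (h n)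

lemma C_mem_HR {B : ℕ} {x : ℂ} (hx : IsIntegral ℤ x) : PowerSeries.C x ∈ HR r B := by
  intro n
  rw [PowerSeries.coeff_C]
  split_ifs with h
  · subst h; simpa using hx
  · rw [mul_zero]; exact isIntegral_zero

lemma X_mem_HR {B : ℕ} : PowerSeries.X ∈ HR r B := by
  intro n
  rw [PowerSeries.coeff_X]
  split_ifs with h
  · rw [mul_one]; exact ((ii_nat B).pow _).mul ((ii_nat _).pow _)
  · rw [mul_zero]; exact isIntegral_zero

lemma HS_HR {B : ℕ} {φ : ℂ⟦X⟧} (h : φ ∈ HS B) : φ ∈ HR 1 B := by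
  intro n
  rw [pow_one]
  exact h n

/-- divided powers -/
lemma HR_dpow {B : ℕ} {Z : ℂ⟦X⟧} (hZ : Z ∈ HR (r + 1) B) (h0 : constantCoeff Z = 0) (m : ℕ) :
    PowerSeries.C ((m.factorial : ℂ)⁻¹) * Z ^ m ∈ HR (r + 1) B := by
  induction m with
  | zero => simp [(HR (r + 1) B).one_mem]
  | succ m ih =>
    intro n
    rcases n with _ | n
    · have h1 : coeff 0 (PowerSeries.C (((m + 1).factorial : ℂ)⁻¹) * Z ^ (m + 1)) = 0 := by
        rw [coeff_zero_eq_constantCoeff_apply, map_mul, map_pow, h0, zero_pow (by omega), mul_zero]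
      rw [h1, mul_zero]; exact isIntegral_zero
    · have hd : d⁄dX ℂ (PowerSeries.C (((m + 1).factorial : ℂ)⁻¹) * Z ^ (m + 1)) =
          d⁄dX ℂ Z * (PowerSeries.C ((m.factorial : ℂ)⁻¹) * Z ^ m) := by
        rw [Derivation.leibniz, derivative_C, smul_zero, add_zero, smul_eq_mul,
          PowerSeries.derivative_pow]
        have h5 : ((m + 1 : ℕ) : ℂ⟦X⟧) = PowerSeries.C ((m + 1 : ℕ) : ℂ) := by simp
        rw [h5, Nat.add_sub_cancel]
        have h6 : PowerSeries.C (((m + 1).factorial : ℂ)⁻¹) * PowerSeries.C ((m + 1 : ℕ) : ℂ) =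
            PowerSeries.C ((m.factorial : ℂ)⁻¹) := by
          rw [← map_mul]
          congr 1
          rw [Nat.factorial_succ]
          have := fac_ne m
          have h7 : ((m : ℂ) + 1) ≠ 0 := by exact_mod_cast Nat.succ_ne_zero m
          push_cast
          field_simp
        calc PowerSeries.C (((m + 1).factorial : ℂ)⁻¹) *
              (PowerSeries.C ((m + 1 : ℕ) : ℂ) * Z ^ m * d⁄dX ℂ Z)
            = (PowerSeries.C (((m + 1).factorial : ℂ)⁻¹) * PowerSeries.C ((m + 1 : ℕ) : ℂ)) *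
              Z ^ m * d⁄dX ℂ Z := by ring
          _ = _ := by rw [h6]; ring
      set Ψ := PowerSeries.C ((m.factorial : ℂ)⁻¹) * Z ^ m with hΨ
      have h2 : coeff n (d⁄dX ℂ Z * Ψ) =
          coeff (n + 1) (PowerSeries.C (((m + 1).factorial : ℂ)⁻¹) * Z ^ (m + 1)) *
            ((n : ℂ) + 1) := by
        rw [← hd, PowerSeries.coeff_derivative]
      have hn1 : ((n : ℂ) + 1) ≠ 0 := by exact_mod_cast Nat.succ_ne_zero n
      have h3 : coeff (n + 1) (PowerSeries.C (((m + 1).factorial : ℂ)⁻¹) * Z ^ (m + 1)) =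
          ((n : ℂ) + 1)⁻¹ * coeff n (d⁄dX ℂ Z * Ψ) := by
        rw [h2]; field_simp
      rw [h3, PowerSeries.coeff_mul, Finset.mul_sum, Finset.mul_sum]
      refine ii_sum _ fun p hp => ?_
      rw [HasAntidiagonal.mem_antidiagonal] at hp
      rw [PowerSeries.coeff_derivative]
      have c1 : ((n + 1).choose (p.1 + 1) : ℂ) * ((p.1 + 1).factorial : ℂ) *
          (p.2.factorial : ℂ) = (n + 1).factorial := by
        have := Nat.choose_mul_factorial_mul_factorial (n := n + 1) (k := p.1 + 1) (by omega)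
        have h4 : n + 1 - (p.1 + 1) = p.2 := by omega
        rw [h4] at this
        exact_mod_cast this
      have c2 : (n.choose p.1 : ℂ) * (p.1.factorial : ℂ) * (p.2.factorial : ℂ) =
          n.factorial := by
        have := Nat.choose_mul_factorial_mul_factorial (n := n) (k := p.1) (by omega)
        have h4 : n - p.1 = p.2 := by omega
        rw [h4] at this
        exact_mod_cast this
      have c3 : (((n + 1).factorial : ℕ) : ℂ) = ((n : ℂ) + 1) * n.factorial := by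
        rw [Nat.factorial_succ]; push_cast; ring
      have c4 : (((p.1 + 1).factorial : ℕ) : ℂ) = ((p.1 : ℂ) + 1) * p.1.factorial := by
        rw [Nat.factorial_succ]; push_cast; ring
      have key : (B : ℂ) ^ (n + 1) * ((n + 1).factorial : ℂ) ^ (r + 1) * (((n : ℂ) + 1)⁻¹ *
          (coeff (p.1 + 1) Z * ((p.1 : ℂ) + 1) * coeff p.2 Ψ)) =
          (((n + 1).choose (p.1 + 1) : ℂ) ^ r * (n.choose p.1 : ℂ)) *
          (((B : ℂ) ^ (p.1 + 1) * ((p.1 + 1).factorial : ℂ) ^ (r + 1) * coeff (p.1 + 1) Z) *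
          ((B : ℂ) ^ p.2 * (p.2.factorial : ℂ) ^ (r + 1) * coeff p.2 Ψ)) := by
        have e1 : ((n + 1).factorial : ℂ) ^ (r + 1) * ((n : ℂ) + 1)⁻¹ * ((p.1 : ℂ) + 1) =
            ((n + 1).choose (p.1 + 1) : ℂ) ^ r * (n.choose p.1 : ℂ) *
              (((p.1 + 1).factorial : ℂ) ^ (r + 1) * (p.2.factorial : ℂ) ^ (r + 1)) := by
          calc ((n + 1).factorial : ℂ) ^ (r + 1) * ((n : ℂ) + 1)⁻¹ * ((p.1 : ℂ) + 1)
              = ((n + 1).factorial : ℂ) ^ r * (((n + 1).factorial : ℂ) * ((n : ℂ) + 1)⁻¹) *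
                ((p.1 : ℂ) + 1) := by rw [pow_succ]; ring
            _ = ((n + 1).factorial : ℂ) ^ r * (n.factorial : ℂ) * ((p.1 : ℂ) + 1) := by
                rw [c3]; field_simp
            _ = (((n + 1).choose (p.1 + 1) : ℂ) * ((p.1 + 1).factorial : ℂ) *
                (p.2.factorial : ℂ)) ^ r *
                ((n.choose p.1 : ℂ) * (p.1.factorial : ℂ) * (p.2.factorial : ℂ)) *
                ((p.1 : ℂ) + 1) := by rw [c1, c2]
            _ = ((n + 1).choose (p.1 + 1) : ℂ) ^ r * (n.choose p.1 : ℂ) *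
                (((p.1 + 1).factorial : ℂ) ^ r * (((p.1 : ℂ) + 1) * (p.1.factorial : ℂ)) *
                ((p.2.factorial : ℂ) ^ r * (p.2.factorial : ℂ))) := by
                rw [mul_pow, mul_pow]; ring
            _ = _ := by rw [← c4, pow_succ, pow_succ]
        have e2 : (B : ℂ) ^ (n + 1) = (B : ℂ) ^ (p.1 + 1) * (B : ℂ) ^ p.2 := by
          rw [← pow_add]; congr 1; omega
        calc (B : ℂ) ^ (n + 1) * ((n + 1).factorial : ℂ) ^ (r + 1) * (((n : ℂ) + 1)⁻¹ *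
              (coeff (p.1 + 1) Z * ((p.1 : ℂ) + 1) * coeff p.2 Ψ))
            = (B : ℂ) ^ (n + 1) * (((n + 1).factorial : ℂ) ^ (r + 1) * ((n : ℂ) + 1)⁻¹ *
              ((p.1 : ℂ) + 1)) * (coeff (p.1 + 1) Z * coeff p.2 Ψ) := by ring
          _ = _ := by rw [e1, e2]; ring
      rw [key]
      exact (((ii_nat _).pow _).mul (ii_nat _)).mul ((hZ _).mul (ih _))

lemma PhiR_aux {B : ℕ} {a b Z : ℂ⟦X⟧} (ha : a ∈ HR (r + 1) B) (hb : b ∈ HR (r + 1) B)
    (hZ : Z ∈ HR (r + 1) B) (h0 : constantCoeff Z = 0) : PhiS a b Z ∈ HR (r + 1) B := by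
  intro m
  rw [PhiS, coeff_mk, Finset.mul_sum]
  refine ii_sum _ fun n _ => ?_
  have h1 := (HR (r + 1) B).mul_mem (hc_mem (HR (r + 1) B) ha hb n) (HR_dpow hZ h0 n) m
  have h2 : coeff m (hc a b n * (PowerSeries.C ((n.factorial : ℂ)⁻¹) * Z ^ n)) =
      (n.factorial : ℂ)⁻¹ * coeff m (hc a b n * Z ^ n) := by
    rw [← PowerSeries.coeff_C_mul]; congr 1; ring
  rw [← h2]
  exact h1

lemma Geo.HR {φ : ℂ⟦X⟧} (h : Geo φ) : ∃ M : ℕ, 0 < M ∧ ∀ r, PowerSeries.C (M : ℂ) * φ ∈ HR r M := by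
  obtain ⟨M, hM, h⟩ := h
  refine ⟨M, hM, fun r n => ?_⟩
  rw [PowerSeries.coeff_C_mul]
  have : (M : ℂ) ^ n * (n.factorial : ℂ) ^ r * ((M : ℂ) * coeff n φ) =
      (n.factorial : ℂ) ^ r * ((M : ℂ) ^ (n + 1) * coeff n φ) := by ring
  rw [this]
  exact ((ii_nat _).pow _).mul (h n)

/-- integrality of the composite series -/
lemma PhiR_HR {a b Z : ℂ⟦X⟧} (ha : Geo a) (hb : Geo b) (hZ : ∃ B : ℕ, 0 < B ∧ Z ∈ HR (r + 1) B)
    (h0 : constantCoeff Z = 0) : ∃ B : ℕ, 0 < B ∧ PhiS a b Z ∈ HR (r + 1) B := by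
  obtain ⟨M₁, hM₁, h₁⟩ := ha.HR
  obtain ⟨M₂, hM₂, h₂⟩ := hb.HR
  obtain ⟨B, hB, hZ⟩ := hZ
  set M := M₁ * M₂ with hM
  have hM0 : 0 < M := Nat.mul_pos hM₁ hM₂
  have hMc : (M : ℂ) ≠ 0 := by exact_mod_cast hM0.ne'
  refine ⟨B * M, Nat.mul_pos hB hM0, ?_⟩
  rw [PhiS_scale (M : ℂ) hMc]
  have hnat : ∀ (k : ℕ) (C' : ℕ), PowerSeries.C (k : ℂ) ∈ ES.HR (r + 1) C' :=
    fun k C' => C_mem_HR (ii_nat k)
  have ha' : PowerSeries.C ((M : ℂ) ^ 4) * a ∈ ES.HR (r + 1) (B * M) := by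
    have e : PowerSeries.C ((M : ℂ) ^ 4) * a =
        PowerSeries.C ((M₂ * M ^ 3 : ℕ) : ℂ) * (PowerSeries.C (M₁ : ℂ) * a) := by
      rw [← mul_assoc, ← map_mul]
      congr 2
      rw [hM]; push_cast; ring
    rw [e]
    refine (ES.HR _ _).mul_mem (hnat _ _) ?_
    have e2 : B * M = M₁ * (M₂ * B) := by rw [hM]; ring
    rw [e2]
    exact HR_mono (h₁ _) _
  have hb' : PowerSeries.C ((M : ℂ) ^ 6) * b ∈ ES.HR (r + 1) (B * M) := by
    have e : PowerSeries.C ((M : ℂ) ^ 6) * b =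
        PowerSeries.C ((M₁ * M ^ 5 : ℕ) : ℂ) * (PowerSeries.C (M₂ : ℂ) * b) := by
      rw [← mul_assoc, ← map_mul]
      congr 2
      rw [hM]; push_cast; ring
    rw [e]
    refine (ES.HR _ _).mul_mem (hnat _ _) ?_
    have e2 : B * M = M₂ * (M₁ * B) := by rw [hM]; ring
    rw [e2]
    exact HR_mono (h₂ _) _
  have hZ' : PowerSeries.C ((M : ℂ)⁻¹) * Z ∈ ES.HR (r + 1) (B * M) := by
    intro n
    rw [PowerSeries.coeff_C_mul]
    rcases n with _ | n
    · rw [coeff_zero_eq_constantCoeff_apply, h0, mul_zero, mul_zero]; exact isIntegral_zero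
    · have e : ((B * M : ℕ) : ℂ) ^ (n + 1) * ((n + 1).factorial : ℂ) ^ (r + 1) *
          ((M : ℂ)⁻¹ * coeff (n + 1) Z) =
          (M : ℂ) ^ n * ((B : ℂ) ^ (n + 1) * ((n + 1).factorial : ℂ) ^ (r + 1) *
            coeff (n + 1) Z) := by
        push_cast
        rw [mul_pow (B : ℂ), pow_succ (M : ℂ)]
        field_simp
      rw [e]
      exact ((ii_nat M).pow _).mul (hZ (n + 1))
  have hfin := PhiR_aux ha' hb' hZ' (by rw [map_mul, h0, mul_zero])
  have hM2 : PowerSeries.C ((M : ℂ) ^ 2) ∈ ES.HR (r + 1) (B * M) := by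
    have := hnat (M ^ 2) (B * M)
    push_cast at this
    exact this
  exact (ES.HR _ _).mul_mem hM2 hfin

end

end Pool.Agent.Helper433.ES
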