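import Pool.Agent.Helper433_ES.Hur

/-! The formal local system and its transformation under `s = p + u ^ e`. -/

namespace Pool.Agent.Helper433.ES

open PowerSeries Filter Topology Finset

noncomputable section

/-- shift of a power series -/
def sh (m : ℕ) (φ : ℂ⟦X⟧) : ℂ⟦X⟧ := PowerSeries.mk fun n => coeff (n + m) φ

lemma sh_eq {m : ℕ} {φ ψ : ℂ⟦X⟧} (h : φ = PowerSeries.X ^ m * ψ) : sh m φ = ψ := by
  ext n
  rw [sh, coeff_mk, h, PowerSeries.coeff_X_pow_mul]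

lemma sh_spec {m : ℕ} {φ : ℂ⟦X⟧} (h : PowerSeries.X ^ m ∣ φ) : φ = PowerSeries.X ^ m * sh m φ := by
  obtain ⟨ψ, hψ⟩ := h
  rw [sh_eq hψ]; exact hψ

lemma sh_map (τ : ℂ →+* ℂ) (m : ℕ) (φ : ℂ⟦X⟧) :
    PowerSeries.map τ (sh m φ) = sh m (PowerSeries.map τ φ) := by
  ext n
  simp [sh]

lemma X_dvd_of_pow {φ : ℂ⟦X⟧} {n r : ℕ} (hr : 0 < r) (h : PowerSeries.X ^ (r * n) ∣ φ ^ r) :
    PowerSeries.X ^ n ∣ φ := by
  by_cases hφ : φ = 0
  · rw [hφ]; exact dvd_zero _
  obtain ⟨m, ψ, hm, hψ⟩ := exists_factor hφ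
  rcases Nat.lt_or_ge m n with hmn | hmn
  · exfalso
    rw [hm, mul_pow, ← pow_mul] at h
    have h1 : r * n = m * r + (r * n - m * r) := by
      have : m * r ≤ r * n := by rw [mul_comm]; exact Nat.mul_le_mul_left r hmn.le
      omega
    have h2 : 0 < r * n - m * r := by
      have : m * r < r * n := by rw [mul_comm]; exact Nat.mul_lt_mul_of_pos_left hmn hr
      omega
    rw [h1, pow_add] at h
    have h3 : PowerSeries.X ^ (r * n - m * r) ∣ ψ ^ r :=
      (mul_dvd_mul_iff_left (pow_ne_zero _ X_ne_zero)).1 h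
    have h4 : (PowerSeries.X : ℂ⟦X⟧) ∣ ψ ^ r := (dvd_pow_self _ h2.ne').trans h3
    rw [PowerSeries.X_dvd_iff, map_pow] at h4
    exact hψ (pow_eq_zero_iff hr.ne' |>.1 h4)
  · rw [hm]
    exact Dvd.dvd.mul_right (pow_dvd_pow _ hmn) _

lemma expand_deriv (e : ℕ) (he : e ≠ 0) (φ : ℂ⟦X⟧) :
    PowerSeries.X * d⁄dX ℂ (expand e he φ) =
      (e : ℂ⟦X⟧) * PowerSeries.X ^ e * expand e he (d⁄dX ℂ φ) := by
  ext n
  rw [coeff_X_mul_deriv]
  have h1 : (e : ℂ⟦X⟧) * PowerSeries.X ^ e * expand e he (d⁄dX ℂ φ) =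
      PowerSeries.C (e : ℂ) * (PowerSeries.X ^ e * expand e he (d⁄dX ℂ φ)) := by
    rw [map_natCast]; ring
  rw [h1, PowerSeries.coeff_C_mul, PowerSeries.coeff_X_pow_mul', PowerSeries.coeff_expand,
    PowerSeries.coeff_expand]
  by_cases hd : e ∣ n
  · obtain ⟨j, rfl⟩ := hd
    rw [if_pos (Dvd.intro j rfl), Nat.mul_div_cancel_left _ (Nat.pos_of_ne_zero he)]
    rcases j with _ | j
    · have : ¬ e ≤ e * 0 := by rw [mul_zero]; omega
      rw [if_neg this]; simp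
    · have h2 : e * (j + 1) - e = e * j := by rw [mul_add, mul_one, Nat.add_sub_cancel]
      have h3 : e ≤ e * (j + 1) := by rw [mul_add, mul_one]; exact Nat.le_add_left _ _
      rw [if_pos h3, h2, if_pos (Dvd.intro j rfl), Nat.mul_div_cancel_left _ (Nat.pos_of_ne_zero he),
        PowerSeries.coeff_derivative]
      push_cast
      ring
  · rw [if_neg hd, mul_zero]
    split_ifs with h1 h2
    · exfalso
      apply hd
      have := Nat.dvd_add h2 (dvd_refl e)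
      rwa [Nat.sub_add_cancel h1] at this
    · simp
    · simp

lemma euler_pow (n : ℕ) (φ : ℂ⟦X⟧) :
    PowerSeries.X * d⁄dX ℂ (PowerSeries.X ^ n * φ) =
      PowerSeries.X ^ n * ((n : ℂ⟦X⟧) * φ + PowerSeries.X * d⁄dX ℂ φ) := by
  rw [Derivation.leibniz, smul_eq_mul, smul_eq_mul, PowerSeries.derivative_pow, derivative_X]
  rcases n with _ | n
  · simp
  · rw [Nat.add_sub_cancel, pow_succ]; push_cast; ring

/-- discriminant -/
def Dl (A B : ℂ⟦X⟧) : ℂ⟦X⟧ := 4 * A ^ 3 + 27 * B ^ 2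

/-- Wronskian -/
def Wl (A B : ℂ⟦X⟧) : ℂ⟦X⟧ := 2 * A * d⁄dX ℂ B - 3 * d⁄dX ℂ A * B

/-- first equation -/
def L1 (A B : ℂ⟦X⟧) (m : ℕ) (z w : ℂ⟦X⟧) : ℂ⟦X⟧ :=
  12 * Dl A B * PowerSeries.X ^ m * d⁄dX ℂ z + d⁄dX ℂ (Dl A B) * PowerSeries.X ^ m * z +
    18 * Wl A B * w

/-- second equation -/
def L2 (A B : ℂ⟦X⟧) (m : ℕ) (z w : ℂ⟦X⟧) : ℂ⟦X⟧ :=
  12 * Dl A B * (PowerSeries.X * d⁄dX ℂ w - (m : ℂ⟦X⟧) * w) +
    6 * A * Wl A B * PowerSeries.X ^ (m + 1) * z - d⁄dX ℂ (Dl A B) * PowerSeries.X * w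

/-- transformed first equation -/
def E1 (a b : ℂ⟦X⟧) (K : ℕ) (Y1 Y2 : ℂ⟦X⟧) : ℂ⟦X⟧ :=
  12 * Dl a b * (PowerSeries.X * d⁄dX ℂ Y1 - (K : ℂ⟦X⟧) * Y1) +
    PowerSeries.X * (d⁄dX ℂ (Dl a b) * Y1 + 18 * Wl a b * Y2)

/-- transformed second equation -/
def E2 (a b : ℂ⟦X⟧) (K : ℕ) (Y1 Y2 : ℂ⟦X⟧) : ℂ⟦X⟧ :=
  12 * Dl a b * (PowerSeries.X * d⁄dX ℂ Y2 - (K : ℂ⟦X⟧) * Y2) +
    PowerSeries.X * (6 * a * Wl a b * Y1 - d⁄dX ℂ (Dl a b) * Y2)

section

variable {e k m : ℕ} {he : e ≠ 0} {A B a b z w : ℂ⟦X⟧}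

lemma exp_D (hA : expand e he A = PowerSeries.X ^ (4 * k) * a)
    (hB : expand e he B = PowerSeries.X ^ (6 * k) * b) :
    expand e he (Dl A B) = PowerSeries.X ^ (12 * k) * Dl a b := by
  unfold Dl
  rw [map_add, map_mul, map_mul, map_pow, map_pow, hA, hB, map_ofNat, map_ofNat]
  ring

lemma exp_D' (hA : expand e he A = PowerSeries.X ^ (4 * k) * a)
    (hB : expand e he B = PowerSeries.X ^ (6 * k) * b) :
    (e : ℂ⟦X⟧) * PowerSeries.X ^ e * expand e he (d⁄dX ℂ (Dl A B)) =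
      PowerSeries.X ^ (12 * k) * (((12 * k : ℕ) : ℂ⟦X⟧) * Dl a b +
        PowerSeries.X * d⁄dX ℂ (Dl a b)) := by
  rw [← expand_deriv, exp_D hA hB, euler_pow]

lemma exp_W (hA : expand e he A = PowerSeries.X ^ (4 * k) * a)
    (hB : expand e he B = PowerSeries.X ^ (6 * k) * b) :
    (e : ℂ⟦X⟧) * PowerSeries.X ^ e * expand e he (Wl A B) =
      PowerSeries.X ^ (10 * k) * (PowerSeries.X * Wl a b) := by
  have h1 := expand_deriv e he A
  have h2 := expand_deriv e he B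
  rw [hA, euler_pow] at h1
  rw [hB, euler_pow] at h2
  unfold Wl
  rw [map_sub, map_mul, map_mul, map_mul, map_mul, map_ofNat, map_ofNat, hA, hB]
  have e1 : (e : ℂ⟦X⟧) * PowerSeries.X ^ e *
      (2 * (PowerSeries.X ^ (4 * k) * a) * expand e he (d⁄dX ℂ B) -
        3 * expand e he (d⁄dX ℂ A) * (PowerSeries.X ^ (6 * k) * b)) =
      2 * (PowerSeries.X ^ (4 * k) * a) *
        ((e : ℂ⟦X⟧) * PowerSeries.X ^ e * expand e he (d⁄dX ℂ B)) -
      3 * ((e : ℂ⟦X⟧) * PowerSeries.X ^ e * expand e he (d⁄dX ℂ A)) *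
        (PowerSeries.X ^ (6 * k) * b) := by ring
  rw [e1, ← h1, ← h2]
  push_cast
  ring

lemma exp_L1 (hA : expand e he A = PowerSeries.X ^ (4 * k) * a)
    (hB : expand e he B = PowerSeries.X ^ (6 * k) * b) :
    (e : ℂ⟦X⟧) * PowerSeries.X ^ e * expand e he (L1 A B m z w) =
      PowerSeries.X ^ (10 * k) *
        E1 a b (k + e * m) (PowerSeries.X ^ (2 * k + e * m) * expand e he z) (expand e he w) := by
  have h1 := exp_D hA hB
  have h2 := exp_D' hA hB
  have h3 := exp_W hA hB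
  have h4 := expand_deriv e he z
  unfold L1 E1
  rw [euler_pow (2 * k + e * m)]
  simp only [map_add, map_mul, map_pow, map_ofNat, expand_X]
  rw [h1]
  have e1 : (e : ℂ⟦X⟧) * PowerSeries.X ^ e *
      (12 * (PowerSeries.X ^ (12 * k) * Dl a b) * (PowerSeries.X ^ e) ^ m *
        expand e he (d⁄dX ℂ z) + expand e he (d⁄dX ℂ (Dl A B)) * (PowerSeries.X ^ e) ^ m *
        expand e he z + 18 * expand e he (Wl A B) * expand e he w) =
      12 * (PowerSeries.X ^ (12 * k) * Dl a b) * (PowerSeries.X ^ e) ^ m *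
        ((e : ℂ⟦X⟧) * PowerSeries.X ^ e * expand e he (d⁄dX ℂ z)) +
      ((e : ℂ⟦X⟧) * PowerSeries.X ^ e * expand e he (d⁄dX ℂ (Dl A B))) *
        (PowerSeries.X ^ e) ^ m * expand e he z +
      18 * ((e : ℂ⟦X⟧) * PowerSeries.X ^ e * expand e he (Wl A B)) * expand e he w := by ring
  rw [e1, h2, h3, ← h4]
  push_cast
  ring

lemma exp_L2 (hA : expand e he A = PowerSeries.X ^ (4 * k) * a)
    (hB : expand e he B = PowerSeries.X ^ (6 * k) * b) :
    (e : ℂ⟦X⟧) * expand e he (L2 A B m z w) =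
      PowerSeries.X ^ (12 * k) *
        E2 a b (k + e * m) (PowerSeries.X ^ (2 * k + e * m) * expand e he z) (expand e he w) := by
  have h1 := exp_D hA hB
  have h2 := exp_D' hA hB
  have h3 := exp_W hA hB
  have h4 := expand_deriv e he w
  unfold L2 E2
  simp only [map_add, map_sub, map_mul, map_pow, map_ofNat, expand_X, map_natCast]
  rw [h1, hA]
  have e1 : (e : ℂ⟦X⟧) *
      (12 * (PowerSeries.X ^ (12 * k) * Dl a b) * (PowerSeries.X ^ e * expand e he (d⁄dX ℂ w) -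
        (m : ℂ⟦X⟧) * expand e he w) + 6 * (PowerSeries.X ^ (4 * k) * a) * expand e he (Wl A B) *
        (PowerSeries.X ^ e) ^ (m + 1) * expand e he z -
        expand e he (d⁄dX ℂ (Dl A B)) * PowerSeries.X ^ e * expand e he w) =
      12 * (PowerSeries.X ^ (12 * k) * Dl a b) *
        ((e : ℂ⟦X⟧) * PowerSeries.X ^ e * expand e he (d⁄dX ℂ w) -
        (e : ℂ⟦X⟧) * (m : ℂ⟦X⟧) * expand e he w) + 6 * (PowerSeries.X ^ (4 * k) * a) *
        ((e : ℂ⟦X⟧) * PowerSeries.X ^ e * expand e he (Wl A B)) *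
        (PowerSeries.X ^ e) ^ m * expand e he z -
        ((e : ℂ⟦X⟧) * PowerSeries.X ^ e * expand e he (d⁄dX ℂ (Dl A B))) * expand e he w := by
    rw [pow_succ]; ring
  rw [e1, h2, h3, ← h4]
  push_cast
  ring

/-- coefficients at the critical exponent vanish -/
lemma crit (hk : 0 < k) (hek : ¬ e ∣ k) :
    coeff (k + e * m) (PowerSeries.X ^ (2 * k + e * m) * expand e he z) = 0 ∧
      coeff (k + e * m) (expand e he w) = 0 := by
  constructor
  · rw [PowerSeries.coeff_X_pow_mul', if_neg (by omega)]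
  · rw [PowerSeries.coeff_expand, if_neg]
    intro h
    exact hek ((Nat.dvd_add_left (Dvd.intro m rfl)).1 h)

lemma expand_ne {φ : ℂ⟦X⟧} (h : φ ≠ 0) : expand e he φ ≠ 0 := by
  intro h0
  apply h
  ext n
  have := congrArg (coeff (e * n)) h0
  rwa [PowerSeries.coeff_expand_mul, map_zero] at this

/-- passing to normal form -/
lemma normal_form {K : ℕ} {Y1 Y2 Γ1 Γ2 : ℂ⟦X⟧} (hD : constantCoeff (Dl a b) ≠ 0)
    (h1 : E1 a b K Y1 Y2 = Γ1) (h2 : E2 a b K Y1 Y2 = Γ2) :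
    ∀ i : Fin 2, PowerSeries.X * d⁄dX ℂ (![Y1, Y2] i) =
      (K : ℂ⟦X⟧) * ![Y1, Y2] i + PowerSeries.X * ∑ j, ![![-(d⁄dX ℂ (Dl a b) * (12 * Dl a b)⁻¹),
        -(18 * Wl a b * (12 * Dl a b)⁻¹)], ![-(6 * a * Wl a b * (12 * Dl a b)⁻¹),
        d⁄dX ℂ (Dl a b) * (12 * Dl a b)⁻¹]] i j * ![Y1, Y2] j +
      ![Γ1 * (12 * Dl a b)⁻¹, Γ2 * (12 * Dl a b)⁻¹] i := by
  have hinv : (12 * Dl a b) * (12 * Dl a b)⁻¹ = 1 := by
    refine PowerSeries.mul_inv_cancel _ ?_
    rw [map_mul, map_ofNat]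
    exact mul_ne_zero (by norm_num) hD
  set I := (12 * Dl a b)⁻¹ with hI
  unfold E1 at h1
  unfold E2 at h2
  intro i
  fin_cases i
  · simp only [Fin.sum_univ_two, Fin.zero_eta, Fin.isValue, Matrix.cons_val_zero,
      Matrix.cons_val_one]
    linear_combination I * h1 - (PowerSeries.X * d⁄dX ℂ Y1 - (K : ℂ⟦X⟧) * Y1) * hinv
  · simp only [Fin.sum_univ_two, Fin.mk_one, Fin.isValue, Matrix.cons_val_zero,
      Matrix.cons_val_one]
    linear_combination I * h2 - (PowerSeries.X * d⁄dX ℂ Y2 - (K : ℂ⟦X⟧) * Y2) * hinv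

/-- integrality of the local solution -/
theorem loc_int {Q P1 P2 : ℂ⟦X⟧} (hk : 0 < k) (hek : ¬ e ∣ k)
    (hA : expand e he A = PowerSeries.X ^ (4 * k) * a)
    (hB : expand e he B = PowerSeries.X ^ (6 * k) * b)
    (hD : constantCoeff (Dl a b) ≠ 0) (gA : Geo A) (gB : Geo B) (gQ : Geo Q) (gP1 : Geo P1)
    (gP2 : Geo P2) (hQ : Q ≠ 0)
    (h1 : Q * L1 A B m z w = PowerSeries.X ^ m * P1)
    (h2 : Q * L2 A B m z w = PowerSeries.X ^ (m + 1) * P2) :
    ∃ M : ℕ, 0 < M ∧ PowerSeries.X ^ k * expand e he z ∈ HS M := by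
  set K := k + e * m with hK
  set Y1 := PowerSeries.X ^ (2 * k + e * m) * expand e he z with hY1
  set Y2 := expand e he w with hY2
  have e1 := exp_L1 (m := m) (z := z) (w := w) hA hB
  have e2 := exp_L2 (m := m) (z := z) (w := w) hA hB
  rw [← hK, ← hY1, ← hY2] at e1 e2
  have hQe : expand e he Q ≠ 0 := expand_ne hQ
  have gQe : Geo (expand e he Q) := gQ.expand e he
  have ga : Geo a := Geo.unshift_pow (4 * k) (by rw [← hA]; exact gA.expand e he)
  have gb : Geo b := Geo.unshift_pow (6 * k) (by rw [← hB]; exact gB.expand e he)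
  have gn : ∀ n : ℕ, Geo (n : ℂ⟦X⟧) := Geo.nat
  have g12 : Geo (12 : ℂ⟦X⟧) := by simpa using gn 12
  have gΓ1 : Geo (E1 a b K Y1 Y2) := by
    refine Geo.of_mul (A := expand e he Q * PowerSeries.X ^ (10 * k))
      (mul_ne_zero hQe (pow_ne_zero _ X_ne_zero)) (gQe.mul (Geo.X.pow _)) ?_
    have h3 : expand e he Q * PowerSeries.X ^ (10 * k) * E1 a b K Y1 Y2 =
        (e : ℂ⟦X⟧) * PowerSeries.X ^ (e + e * m) * expand e he P1 := by
      rw [mul_assoc, ← e1]
      have h4 := congrArg (expand e he) h1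
      rw [map_mul, map_mul, map_pow, expand_X] at h4
      calc expand e he Q * ((e : ℂ⟦X⟧) * PowerSeries.X ^ e * expand e he (L1 A B m z w))
          = (e : ℂ⟦X⟧) * PowerSeries.X ^ e *
            (expand e he Q * expand e he (L1 A B m z w)) := by ring
        _ = _ := by rw [h4, pow_add, ← pow_mul]; ring
    rw [h3]
    exact ((gn e).mul (Geo.X.pow _)).mul (gP1.expand e he)
  have gΓ2 : Geo (E2 a b K Y1 Y2) := by
    refine Geo.of_mul (A := expand e he Q * PowerSeries.X ^ (12 * k))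
      (mul_ne_zero hQe (pow_ne_zero _ X_ne_zero)) (gQe.mul (Geo.X.pow _)) ?_
    have h3 : expand e he Q * PowerSeries.X ^ (12 * k) * E2 a b K Y1 Y2 =
        (e : ℂ⟦X⟧) * PowerSeries.X ^ (e * (m + 1)) * expand e he P2 := by
      rw [mul_assoc, ← e2]
      have h4 := congrArg (expand e he) h2
      rw [map_mul, map_mul, map_pow, expand_X] at h4
      calc expand e he Q * ((e : ℂ⟦X⟧) * expand e he (L2 A B m z w))
          = (e : ℂ⟦X⟧) * (expand e he Q * expand e he (L2 A B m z w)) := by ring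
        _ = _ := by rw [h4, ← pow_mul]; ring
    rw [h3]
    exact ((gn e).mul (Geo.X.pow _)).mul (gP2.expand e he)
  have gD : Geo (Dl a b) := by
    unfold Dl
    have g4 : Geo (4 : ℂ⟦X⟧) := by simpa using gn 4
    have g27 : Geo (27 : ℂ⟦X⟧) := by simpa using gn 27
    exact (g4.mul (ga.pow 3)).add (g27.mul (gb.pow 2))
  have gW : Geo (Wl a b) := by
    unfold Wl
    have g2 : Geo (2 : ℂ⟦X⟧) := by simpa using gn 2
    have g3 : Geo (3 : ℂ⟦X⟧) := by simpa using gn 3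
    exact ((g2.mul ga).mul gb.deriv).sub ((g3.mul ga.deriv).mul gb)
  have gI : Geo ((12 * Dl a b)⁻¹) := by
    have h0 : constantCoeff (12 * Dl a b) ≠ 0 := by
      rw [map_mul, map_ofNat]
      exact mul_ne_zero (by norm_num) hD
    exact (g12.mul gD).inv h0 (PowerSeries.mul_inv_cancel _ h0)
  obtain ⟨c1, c2⟩ := crit (m := m) (z := z) (w := w) (he := he) hk hek
  rw [← hK, ← hY1] at c1
  rw [← hK, ← hY2] at c2
  obtain ⟨M, hM, hint⟩ := rec_int (ι := Fin 2) (k := K) (Y := ![Y1, Y2])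
    (Γ := ![E1 a b K Y1 Y2 * (12 * Dl a b)⁻¹, E2 a b K Y1 Y2 * (12 * Dl a b)⁻¹])
    (N := ![![-(d⁄dX ℂ (Dl a b) * (12 * Dl a b)⁻¹),
        -(18 * Wl a b * (12 * Dl a b)⁻¹)], ![-(6 * a * Wl a b * (12 * Dl a b)⁻¹),
        d⁄dX ℂ (Dl a b) * (12 * Dl a b)⁻¹]])
    (by
      intro i j
      have g18 : Geo (18 : ℂ⟦X⟧) := by simpa using gn 18
      have g6 : Geo (6 : ℂ⟦X⟧) := by simpa using gn 6
      fin_cases i <;> fin_cases j
      · exact (gD.deriv.mul gI).neg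
      · exact ((g18.mul gW).mul gI).neg
      · exact (((g6.mul ga).mul gW).mul gI).neg
      · exact gD.deriv.mul gI)
    (by
      intro i
      fin_cases i
      · exact gΓ1.mul gI
      · exact gΓ2.mul gI)
    (normal_form hD rfl rfl)
    (by
      intro i
      fin_cases i
      · exact c1
      · exact c2)
  refine ⟨M ^ (K + 2), pow_pos hM _, fun n => ?_⟩
  rcases n with _ | n
  · have h0 : coeff 0 (PowerSeries.X ^ k * expand e he z) = 0 := by
      rw [coeff_zero_eq_constantCoeff_apply, map_mul, map_pow, PowerSeries.constantCoeff_X,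
        zero_pow hk.ne', zero_mul]
    rw [h0, mul_zero]; exact isIntegral_zero
  · have h3 := hint (n + 1 + K) 0
    simp only [Matrix.cons_val_zero] at h3
    rw [Nat.add_sub_cancel] at h3
    have h4 : coeff (n + 1 + K) Y1 = coeff (n + 1) (PowerSeries.X ^ k * expand e he z) := by
      have : Y1 = PowerSeries.X ^ K * (PowerSeries.X ^ k * expand e he z) := by
        rw [hY1, hK, ← mul_assoc, ← pow_add]; congr 2; omega
      rw [this, PowerSeries.coeff_X_pow_mul]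
    rw [h4] at h3
    obtain ⟨r, hr⟩ : ∃ r, (K + 2) * (n + 1) = (n + 1 + K + 1) + r := ⟨(K + 2) * (n + 1) -
      (n + 1 + K + 1), by
        have : n + 1 + K + 1 ≤ (K + 2) * (n + 1) := by nlinarith
        omega⟩
    have h5 : ((M ^ (K + 2) : ℕ) : ℂ) ^ (n + 1) * ((n + 1).factorial : ℂ) *
        coeff (n + 1) (PowerSeries.X ^ k * expand e he z) =
        (M : ℂ) ^ r * ((M : ℂ) ^ (n + 1 + K + 1) * ((n + 1).factorial : ℂ) *
          coeff (n + 1) (PowerSeries.X ^ k * expand e he z)) := by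
      push_cast
      rw [← pow_mul, hr, pow_add]; ring
    rw [h5]
    exact ((ii_nat M).pow _).mul h3

lemma L1_sub (z' w' : ℂ⟦X⟧) :
    L1 A B m (z - z') (w - w') = L1 A B m z w - L1 A B m z' w' := by
  unfold L1; rw [map_sub]; ring

lemma L2_sub (z' w' : ℂ⟦X⟧) :
    L2 A B m (z - z') (w - w') = L2 A B m z w - L2 A B m z' w' := by
  unfold L2; rw [map_sub]; ring

/-- uniqueness of the local solution -/
theorem loc_unique {Q P1 P2 z' w' : ℂ⟦X⟧} (hk : 0 < k) (hek : ¬ e ∣ k)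
    (hA : expand e he A = PowerSeries.X ^ (4 * k) * a)
    (hB : expand e he B = PowerSeries.X ^ (6 * k) * b)
    (hD : constantCoeff (Dl a b) ≠ 0) (hQ : Q ≠ 0)
    (h1 : Q * L1 A B m z w = PowerSeries.X ^ m * P1)
    (h2 : Q * L2 A B m z w = PowerSeries.X ^ (m + 1) * P2)
    (h1' : Q * L1 A B m z' w' = PowerSeries.X ^ m * P1)
    (h2' : Q * L2 A B m z' w' = PowerSeries.X ^ (m + 1) * P2) : z = z' := by
  have hz1 : L1 A B m (z - z') (w - w') = 0 := by
    refine (mul_eq_zero.1 (?_ : Q * _ = 0)).resolve_left hQ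
    rw [L1_sub, mul_sub, h1, h1', sub_self]
  have hz2 : L2 A B m (z - z') (w - w') = 0 := by
    refine (mul_eq_zero.1 (?_ : Q * _ = 0)).resolve_left hQ
    rw [L2_sub, mul_sub, h2, h2', sub_self]
  have e1 := exp_L1 (m := m) (z := z - z') (w := w - w') hA hB
  have e2 := exp_L2 (m := m) (z := z - z') (w := w - w') hA hB
  rw [hz1, map_zero, mul_zero] at e1
  rw [hz2, map_zero, mul_zero] at e2
  have f1 := (mul_eq_zero.1 e1.symm).resolve_left (pow_ne_zero _ X_ne_zero)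
  have f2 := (mul_eq_zero.1 e2.symm).resolve_left (pow_ne_zero _ X_ne_zero)
  have hnf := normal_form hD f1 f2
  have h0 := rec_unique (ι := Fin 2) (k := k + e * m)
    (Y := ![PowerSeries.X ^ (2 * k + e * m) * expand e he (z - z'), expand e he (w - w')])
    (fun i => by
      have := hnf i
      have h00 : ![(0 : ℂ⟦X⟧) * (12 * Dl a b)⁻¹, 0 * (12 * Dl a b)⁻¹] i = 0 := by
        fin_cases i <;> simp
      rw [h00, add_zero] at this
      exact this)
    (by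
      obtain ⟨c1, c2⟩ := crit (m := m) (z := z - z') (w := w - w') (he := he) hk hek
      intro i
      fin_cases i
      · exact c1
      · exact c2) 0
  simp only [Matrix.cons_val_zero] at h0
  have h3 := (mul_eq_zero.1 h0).resolve_left (pow_ne_zero _ X_ne_zero)
  by_contra hne
  exact expand_ne (he := he) (sub_ne_zero.2 hne) h3

end

end

end Pool.Agent.Helper433.ES
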