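import Pool.Agent.Helper433_ES.Loc

/-! Homogeneous Laurent solutions have no pole when the Weierstrass equation is minimal. -/

namespace Pool.Agent.Helper433.ES

open PowerSeries Filter Topology Finset

noncomputable section

lemma coeff_low {φ Y : ℂ⟦X⟧} {j : ℕ} (h : ∀ i < j, coeff i Y = 0) :
    coeff j (φ * Y) = constantCoeff φ * coeff j Y := by
  rw [PowerSeries.coeff_mul, Finset.sum_eq_single (0, j)]
  · rw [coeff_zero_eq_constantCoeff_apply]
  · intro p hp hne
    rw [HasAntidiagonal.mem_antidiagonal] at hp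
    have : p.2 < j := by
      by_contra hcon
      apply hne
      have h1 : p.1 = 0 := by omega
      have h2 : p.2 = j := by omega
      exact Prod.ext h1 h2
    rw [h p.2 this, mul_zero]
  · intro hcon
    exact absurd (by simp) hcon

lemma coeff_low_X {φ Y : ℂ⟦X⟧} {j : ℕ} (h : ∀ i < j, coeff i Y = 0) :
    coeff j (PowerSeries.X * φ * Y) = 0 := by
  rw [coeff_low h, map_mul, PowerSeries.constantCoeff_X, zero_mul, zero_mul]

lemma low_euler {Y : ℂ⟦X⟧} {j K : ℕ} (h : ∀ i < j, coeff i Y = 0) : ∀ i < j,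
    coeff i (PowerSeries.X * d⁄dX ℂ Y - (K : ℂ⟦X⟧) * Y) = 0 := by
  intro i hi
  have h2 : coeff i ((K : ℂ⟦X⟧) * Y) = K * coeff i Y := by
    rw [← map_natCast (PowerSeries.C (R := ℂ)), PowerSeries.coeff_C_mul]
  rw [map_sub, coeff_X_mul_deriv, h2, h i hi]; ring

lemma coeff_euler (Y : ℂ⟦X⟧) (j K : ℕ) :
    coeff j (PowerSeries.X * d⁄dX ℂ Y - (K : ℂ⟦X⟧) * Y) = ((j : ℂ) - K) * coeff j Y := by
  have h2 : coeff j ((K : ℂ⟦X⟧) * Y) = K * coeff j Y := by
    rw [← map_natCast (PowerSeries.C (R := ℂ)), PowerSeries.coeff_C_mul]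
  rw [map_sub, coeff_X_mul_deriv, h2]; ring

lemma nat_sub_ne {j K : ℕ} (h : j < K) : ((j : ℂ) - K) ≠ 0 :=
  sub_ne_zero.2 (by exact_mod_cast h.ne)

/-- good reduction -/
lemma low_S {a b Y1 Y2 : ℂ⟦X⟧} {K : ℕ} (hD : constantCoeff (Dl a b) ≠ 0)
    (h1 : ∀ n < K, coeff n (E1 a b K Y1 Y2) = 0) (h2 : ∀ n < K, coeff n (E2 a b K Y1 Y2) = 0) :
    ∀ n < K, coeff n Y1 = 0 ∧ coeff n Y2 = 0 := by
  intro n
  induction n using Nat.strong_induction_on with
  | _ n ih =>
    intro hn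
    have l1 : ∀ i < n, coeff i Y1 = 0 := fun i hi => (ih i hi (by omega)).1
    have l2 : ∀ i < n, coeff i Y2 = 0 := fun i hi => (ih i hi (by omega)).2
    have c12 : constantCoeff (12 * Dl a b) ≠ 0 := by
      rw [map_mul, map_ofNat]; exact mul_ne_zero (by norm_num) hD
    constructor
    · have e1 := h1 n hn
      have e2 : E1 a b K Y1 Y2 = (12 * Dl a b) * (PowerSeries.X * d⁄dX ℂ Y1 - (K : ℂ⟦X⟧) * Y1) +
          PowerSeries.X * d⁄dX ℂ (Dl a b) * Y1 + PowerSeries.X * (18 * Wl a b) * Y2 := by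
        unfold E1; ring
      rw [e2, map_add, map_add, coeff_low (low_euler l1), coeff_low_X l1, coeff_low_X l2,
        coeff_euler, add_zero, add_zero] at e1
      exact (mul_eq_zero.1 ((mul_eq_zero.1 e1).resolve_left c12)).resolve_left (nat_sub_ne hn)
    · have e1 := h2 n hn
      have e2 : E2 a b K Y1 Y2 = (12 * Dl a b) * (PowerSeries.X * d⁄dX ℂ Y2 - (K : ℂ⟦X⟧) * Y2) +
          PowerSeries.X * (6 * a * Wl a b) * Y1 + PowerSeries.X * (-d⁄dX ℂ (Dl a b)) * Y2 := by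
        unfold E2; ring
      rw [e2, map_add, map_add, coeff_low (low_euler l2), coeff_low_X l1, coeff_low_X l2,
        coeff_euler, add_zero, add_zero] at e1
      exact (mul_eq_zero.1 ((mul_eq_zero.1 e1).resolve_left c12)).resolve_left (nat_sub_ne hn)

lemma deriv_Dl (a b : ℂ⟦X⟧) :
    d⁄dX ℂ (Dl a b) = 12 * a ^ 2 * d⁄dX ℂ a + 54 * b * d⁄dX ℂ b := by
  unfold Dl
  have h4 : d⁄dX ℂ (4 : ℂ⟦X⟧) = 0 := by
    have : (4 : ℂ⟦X⟧) = PowerSeries.C 4 := (map_ofNat _ 4).symm
    rw [this, derivative_C]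
  have h27 : d⁄dX ℂ (27 : ℂ⟦X⟧) = 0 := by
    have : (27 : ℂ⟦X⟧) = PowerSeries.C 27 := (map_ofNat _ 27).symm
    rw [this, derivative_C]
  rw [map_add, Derivation.leibniz, Derivation.leibniz, h4, h27, PowerSeries.derivative_pow,
    PowerSeries.derivative_pow]
  simp only [smul_eq_mul]
  push_cast
  ring

lemma Wl_rel (a b : ℂ⟦X⟧) :
    27 * b * Wl a b = a * d⁄dX ℂ (Dl a b) - 3 * d⁄dX ℂ a * Dl a b := by
  rw [deriv_Dl]; unfold Wl Dl; ring

/-- multiplicative reduction -/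
lemma low_M {a b Y1 Y2 : ℂ⟦X⟧} {K : ℕ} (hne : Dl a b ≠ 0) (hD : constantCoeff (Dl a b) = 0)
    (ha : constantCoeff a ≠ 0) (hb : constantCoeff b ≠ 0)
    (h1 : E1 a b K Y1 Y2 = 0) (h2 : E2 a b K Y1 Y2 = 0) :
    ∀ n < K, coeff n Y1 = 0 ∧ coeff n Y2 = 0 := by
  obtain ⟨ν, D₁, hD₁, hd⟩ := exists_factor hne
  set d := constantCoeff D₁ with hdd
  set a₀ := constantCoeff a with ha0
  set b₀ := constantCoeff b with hb0
  have hrel0 : 4 * a₀ ^ 3 = -27 * b₀ ^ 2 := by
    unfold Dl at hD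
    rw [map_add, map_mul, map_mul, map_pow, map_pow, map_ofNat, map_ofNat] at hD
    linear_combination hD
  -- derivative of the discriminant
  set M := (ν : ℂ⟦X⟧) * D₁ + PowerSeries.X * d⁄dX ℂ D₁ with hM
  have hXD : PowerSeries.X * d⁄dX ℂ (Dl a b) = PowerSeries.X ^ ν * M := by
    rw [hD₁, euler_pow]
  have hXν : (PowerSeries.X : ℂ⟦X⟧) ^ ν ≠ 0 := pow_ne_zero _ X_ne_zero
  have hM0 : constantCoeff M = ν * d := by
    rw [hM, map_add, map_mul, map_mul, PowerSeries.constantCoeff_X, zero_mul, add_zero,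
      map_natCast]
  set Wt := a * M - PowerSeries.X * (3 * d⁄dX ℂ a) * D₁ with hWt
  have hXW : 27 * b * (PowerSeries.X * Wl a b) = PowerSeries.X ^ ν * Wt := by
    calc 27 * b * (PowerSeries.X * Wl a b) = PowerSeries.X * (27 * b * Wl a b) := by ring
      _ = a * (PowerSeries.X * d⁄dX ℂ (Dl a b)) -
          PowerSeries.X * (3 * d⁄dX ℂ a) * Dl a b := by rw [Wl_rel]; ring
      _ = _ := by rw [hXD, hD₁, hWt]; ring
  have hWt0 : constantCoeff Wt = a₀ * (ν * d) := by
    rw [hWt, map_sub, map_mul, hM0, map_mul, map_mul, PowerSeries.constantCoeff_X]; ring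
  have I1 : (27 * b * (12 * D₁)) * (PowerSeries.X * d⁄dX ℂ Y1 - (K : ℂ⟦X⟧) * Y1) +
      (27 * b * M) * Y1 + (18 * Wt) * Y2 = 0 := by
    have e1 : PowerSeries.X ^ ν * ((27 * b * (12 * D₁)) *
        (PowerSeries.X * d⁄dX ℂ Y1 - (K : ℂ⟦X⟧) * Y1) + (27 * b * M) * Y1 + (18 * Wt) * Y2) =
        27 * b * E1 a b K Y1 Y2 := by
      have e2 : 27 * b * E1 a b K Y1 Y2 =
          27 * b * 12 * Dl a b * (PowerSeries.X * d⁄dX ℂ Y1 - (K : ℂ⟦X⟧) * Y1) +
          27 * b * (PowerSeries.X * d⁄dX ℂ (Dl a b)) * Y1 +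
          18 * (27 * b * (PowerSeries.X * Wl a b)) * Y2 := by unfold E1; ring
      rw [e2, hXD, hXW, hD₁]; ring
    rw [h1, mul_zero] at e1
    exact (mul_eq_zero.1 e1).resolve_left hXν
  have I2 : (27 * b * (12 * D₁)) * (PowerSeries.X * d⁄dX ℂ Y2 - (K : ℂ⟦X⟧) * Y2) +
      (-(27 * b * M)) * Y2 + (6 * a * Wt) * Y1 = 0 := by
    have e1 : PowerSeries.X ^ ν * ((27 * b * (12 * D₁)) *
        (PowerSeries.X * d⁄dX ℂ Y2 - (K : ℂ⟦X⟧) * Y2) + (-(27 * b * M)) * Y2 +
        (6 * a * Wt) * Y1) = 27 * b * E2 a b K Y1 Y2 := by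
      have e2 : 27 * b * E2 a b K Y1 Y2 =
          27 * b * 12 * Dl a b * (PowerSeries.X * d⁄dX ℂ Y2 - (K : ℂ⟦X⟧) * Y2) -
          27 * b * (PowerSeries.X * d⁄dX ℂ (Dl a b)) * Y2 +
          6 * a * (27 * b * (PowerSeries.X * Wl a b)) * Y1 := by unfold E2; ring
      rw [e2, hXD, hXW, hD₁]; ring
    rw [h2, mul_zero] at e1
    exact (mul_eq_zero.1 e1).resolve_left hXν
  intro n
  induction n using Nat.strong_induction_on with
  | _ n ih =>
    intro hn
    have l1 : ∀ i < n, coeff i Y1 = 0 := fun i hi => (ih i hi (by omega)).1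
    have l2 : ∀ i < n, coeff i Y2 = 0 := fun i hi => (ih i hi (by omega)).2
    have c1 := congrArg (coeff n) I1
    have c2 := congrArg (coeff n) I2
    rw [map_add, map_add, coeff_low (low_euler l1), coeff_low l1, coeff_low l2, coeff_euler,
      map_zero] at c1
    rw [map_add, map_add, coeff_low (low_euler l2), coeff_low l2, coeff_low l1, coeff_euler,
      map_zero] at c2
    simp only [map_mul, map_neg, map_ofNat, hM0, hWt0] at c1 c2
    rw [← ha0, ← hb0, ← hdd] at *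
    set y1 := coeff n Y1
    set y2 := coeff n Y2
    set J : ℂ := (n : ℂ) - K with hJ
    have hJ0 : J ≠ 0 := nat_sub_ne hn
    have hkey1 : 729 * b₀ ^ 2 * (144 * J ^ 2) * d ^ 2 * y1 = 0 := by
      linear_combination (27 * b₀ * (12 * J - ν) * d) * c1 - (18 * a₀ * ν * d) * c2 +
        (27 * ν ^ 2 * d ^ 2 * y1) * hrel0
    have hkey2 : 729 * b₀ ^ 2 * (144 * J ^ 2) * d ^ 2 * y2 = 0 := by
      linear_combination (27 * b₀ * (12 * J + ν) * d) * c2 - (6 * a₀ ^ 2 * ν * d) * c1 +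
        (27 * ν ^ 2 * d ^ 2 * y2) * hrel0
    have hnz : 729 * b₀ ^ 2 * (144 * J ^ 2) * d ^ 2 ≠ 0 := by
      refine mul_ne_zero (mul_ne_zero (mul_ne_zero (by norm_num) (pow_ne_zero _ hb))
        (mul_ne_zero (by norm_num) (pow_ne_zero _ hJ0))) (pow_ne_zero _ hd)
    exact ⟨(mul_eq_zero.1 hkey1).resolve_left hnz, (mul_eq_zero.1 hkey2).resolve_left hnz⟩

section

variable {e k m : ℕ} {he : e ≠ 0} {A B a b z w : ℂ⟦X⟧}

lemma exp_E1 (hA : expand e he A = PowerSeries.X ^ (4 * k) * a)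
    (hB : expand e he B = PowerSeries.X ^ (6 * k) * b) :
    PowerSeries.X ^ (2 * k) * ((e : ℂ⟦X⟧) * expand e he (E1 A B m z w)) =
      PowerSeries.X ^ (12 * k) *
        E1 a b (k + e * m) (PowerSeries.X ^ (2 * k) * expand e he z) (expand e he w) := by
  have h1 := exp_D hA hB
  have h2 := exp_D' hA hB
  have h3 := exp_W hA hB
  have h4 := expand_deriv e he z
  unfold E1
  rw [euler_pow (2 * k)]
  simp only [map_add, map_sub, map_mul, map_ofNat, map_natCast, expand_X]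
  rw [h1]
  have e1 : PowerSeries.X ^ (2 * k) * ((e : ℂ⟦X⟧) *
      (12 * (PowerSeries.X ^ (12 * k) * Dl a b) * (PowerSeries.X ^ e * expand e he (d⁄dX ℂ z) -
        (m : ℂ⟦X⟧) * expand e he z) + PowerSeries.X ^ e * (expand e he (d⁄dX ℂ (Dl A B)) *
        expand e he z + 18 * expand e he (Wl A B) * expand e he w))) =
      PowerSeries.X ^ (2 * k) * (12 * (PowerSeries.X ^ (12 * k) * Dl a b) *
        (((e : ℂ⟦X⟧) * PowerSeries.X ^ e * expand e he (d⁄dX ℂ z)) -
        (e : ℂ⟦X⟧) * (m : ℂ⟦X⟧) * expand e he z) +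
        ((e : ℂ⟦X⟧) * PowerSeries.X ^ e * expand e he (d⁄dX ℂ (Dl A B))) * expand e he z +
        18 * ((e : ℂ⟦X⟧) * PowerSeries.X ^ e * expand e he (Wl A B)) * expand e he w) := by ring
  rw [e1, h2, h3, ← h4]
  push_cast
  ring

lemma exp_E2 (hA : expand e he A = PowerSeries.X ^ (4 * k) * a)
    (hB : expand e he B = PowerSeries.X ^ (6 * k) * b) :
    (e : ℂ⟦X⟧) * expand e he (E2 A B m z w) =
      PowerSeries.X ^ (12 * k) *
        E2 a b (k + e * m) (PowerSeries.X ^ (2 * k) * expand e he z) (expand e he w) := by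
  have h1 := exp_D hA hB
  have h2 := exp_D' hA hB
  have h3 := exp_W hA hB
  have h4 := expand_deriv e he w
  unfold E2
  simp only [map_add, map_sub, map_mul, map_ofNat, map_natCast, expand_X]
  rw [h1, hA]
  have e1 : (e : ℂ⟦X⟧) *
      (12 * (PowerSeries.X ^ (12 * k) * Dl a b) * (PowerSeries.X ^ e * expand e he (d⁄dX ℂ w) -
        (m : ℂ⟦X⟧) * expand e he w) + PowerSeries.X ^ e * (6 * (PowerSeries.X ^ (4 * k) * a) *
        expand e he (Wl A B) * expand e he z - expand e he (d⁄dX ℂ (Dl A B)) * expand e he w)) =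
      12 * (PowerSeries.X ^ (12 * k) * Dl a b) *
        (((e : ℂ⟦X⟧) * PowerSeries.X ^ e * expand e he (d⁄dX ℂ w)) -
        (e : ℂ⟦X⟧) * (m : ℂ⟦X⟧) * expand e he w) +
        6 * (PowerSeries.X ^ (4 * k) * a) *
        ((e : ℂ⟦X⟧) * PowerSeries.X ^ e * expand e he (Wl A B)) * expand e he z -
        ((e : ℂ⟦X⟧) * PowerSeries.X ^ e * expand e he (d⁄dX ℂ (Dl A B))) * expand e he w := by ring
  rw [e1, h2, h3, ← h4]
  push_cast
  ring

end

/-- maximal order -/
lemma exists_max_order {A B : ℂ⟦X⟧} (h : Dl A B ≠ 0) : ∃ g : ℕ,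
    PowerSeries.X ^ g ∣ A ^ 3 ∧ PowerSeries.X ^ g ∣ B ^ 2 ∧
      ¬ (PowerSeries.X ^ (g + 1) ∣ A ^ 3 ∧ PowerSeries.X ^ (g + 1) ∣ B ^ 2) := by
  classical
  have hex : ∃ n : ℕ, ¬ (PowerSeries.X ^ n ∣ A ^ 3 ∧ PowerSeries.X ^ n ∣ B ^ 2) := by
    by_contra hcon
    push Not at hcon
    apply h
    ext j
    have h1 : PowerSeries.X ^ (j + 1) ∣ Dl A B := by
      unfold Dl
      exact dvd_add (Dvd.dvd.mul_left (hcon (j + 1)).1 _) (Dvd.dvd.mul_left (hcon (j + 1)).2 _)
    rw [(PowerSeries.X_pow_dvd_iff.1 h1) j (Nat.lt_succ_self j), map_zero]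
  set n₀ := Nat.find hex with hn₀
  have h1 := Nat.find_spec hex
  rw [← hn₀] at h1
  have h2 : n₀ ≠ 0 := by
    intro h0
    rw [h0] at h1
    exact h1 ⟨by simp, by simp⟩
  obtain ⟨g, hg⟩ : ∃ g, n₀ = g + 1 := ⟨n₀ - 1, by omega⟩
  have h3 : ¬ ¬ (PowerSeries.X ^ g ∣ A ^ 3 ∧ PowerSeries.X ^ g ∣ B ^ 2) :=
    Nat.find_min hex (by omega)
  push Not at h3
  exact ⟨g, h3.1, h3.2, by rw [← hg]; exact h1⟩

/-- **regularity of homogeneous solutions** -/
theorem hom_regular {A B z w : ℂ⟦X⟧} {m : ℕ} (hne : Dl A B ≠ 0)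
    (hmin : ¬ (PowerSeries.X ^ 4 ∣ A ∧ PowerSeries.X ^ 6 ∣ B))
    (h1 : E1 A B m z w = 0) (h2 : E2 A B m z w = 0) : PowerSeries.X ^ m ∣ z := by
  obtain ⟨g, hgA, hgB, hgmax⟩ := exists_max_order hne
  have hg12 : g < 12 := by
    by_contra hcon
    push Not at hcon
    apply hmin
    constructor
    · exact X_dvd_of_pow (r := 3) (by norm_num) ((pow_dvd_pow _ (by omega)).trans hgA)
    · exact X_dvd_of_pow (r := 2) (by norm_num) ((pow_dvd_pow _ (by omega)).trans hgB)
  have hgcd : 0 < Nat.gcd 12 g := Nat.gcd_pos_of_pos_left _ (by norm_num)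
  obtain ⟨e, he12⟩ : Nat.gcd 12 g ∣ 12 := Nat.gcd_dvd_left _ _
  obtain ⟨k, hkg⟩ : Nat.gcd 12 g ∣ g := Nat.gcd_dvd_right _ _
  have he : e ≠ 0 := by
    rintro rfl
    omega
  have heg : e * g = 12 * k := by
    calc e * g = e * (Nat.gcd 12 g * k) := by rw [← hkg]
      _ = (Nat.gcd 12 g * e) * k := by ring
      _ = 12 * k := by rw [← he12]
  have hke : k < e := by
    by_contra hcon
    push Not at hcon
    have h3 : Nat.gcd 12 g * e ≤ Nat.gcd 12 g * k := Nat.mul_le_mul_left _ hcon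
    rw [← he12, ← hkg] at h3
    omega
  have hdA : PowerSeries.X ^ (4 * k) ∣ expand e he A := by
    refine X_dvd_of_pow (r := 3) (by norm_num) ?_
    have h3 := map_dvd (expand e he) hgA
    rw [map_pow, map_pow, expand_X, ← pow_mul, heg] at h3
    have h4 : 3 * (4 * k) = 12 * k := by ring
    rw [h4]; exact h3
  have hdB : PowerSeries.X ^ (6 * k) ∣ expand e he B := by
    refine X_dvd_of_pow (r := 2) (by norm_num) ?_
    have h3 := map_dvd (expand e he) hgB
    rw [map_pow, map_pow, expand_X, ← pow_mul, heg] at h3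
    have h4 : 2 * (6 * k) = 12 * k := by ring
    rw [h4]; exact h3
  obtain ⟨a, ha⟩ := hdA
  obtain ⟨b, hb⟩ := hdB
  have f1 := exp_E1 (m := m) (z := z) (w := w) ha hb
  have f2 := exp_E2 (m := m) (z := z) (w := w) ha hb
  rw [h1, map_zero, mul_zero, mul_zero] at f1
  rw [h2, map_zero, mul_zero] at f2
  have g1 := (mul_eq_zero.1 f1.symm).resolve_left (pow_ne_zero _ X_ne_zero)
  have g2 := (mul_eq_zero.1 f2.symm).resolve_left (pow_ne_zero _ X_ne_zero)
  have hlow : ∀ n < k + e * m, coeff n (PowerSeries.X ^ (2 * k) * expand e he z) = 0 ∧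
      coeff n (expand e he w) = 0 := by
    by_cases hD : constantCoeff (Dl a b) = 0
    · have hDl : Dl a b ≠ 0 := by
        intro h0
        have h3 := exp_D ha hb
        rw [h0, mul_zero] at h3
        exact expand_ne (he := he) hne h3
      have hD' := hD
      unfold Dl at hD'
      rw [map_add, map_mul, map_mul, map_pow, map_pow, map_ofNat, map_ofNat] at hD'
      have ha0 : constantCoeff a ≠ 0 := by
        intro h0
        rw [h0] at hD'
        have hb0 : constantCoeff b = 0 := by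
          have : (27 : ℂ) * constantCoeff b ^ 2 = 0 := by linear_combination hD'
          have := (mul_eq_zero.1 this).resolve_left (by norm_num)
          exact pow_eq_zero_iff (by norm_num) |>.1 this
        apply hgmax
        have key : ∀ φ ψ : ℂ⟦X⟧, expand e he φ = PowerSeries.X ^ (12 * k) * ψ →
            constantCoeff ψ = 0 → PowerSeries.X ^ g ∣ φ → PowerSeries.X ^ (g + 1) ∣ φ := by
          intro φ ψ hφ hψ hdvd
          rw [PowerSeries.X_pow_dvd_iff]
          intro i hi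
          rcases Nat.lt_or_ge i g with h | h
          · exact (PowerSeries.X_pow_dvd_iff.1 hdvd) i h
          · have hig : i = g := by omega
            have h5 : coeff (e * g) (expand e he φ) = coeff g φ := coeff_expand_mul _ _ _ _
            rw [hφ, heg] at h5
            have h6 := PowerSeries.coeff_X_pow_mul ψ (12 * k) 0
            rw [zero_add, coeff_zero_eq_constantCoeff_apply, hψ] at h6
            rw [hig, ← h5, h6]
        constructor
        · refine key (A ^ 3) (a ^ 3) ?_ (by rw [map_pow, h0]; ring) hgA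
          rw [map_pow, ha, mul_pow, ← pow_mul]; congr 2; ring
        · refine key (B ^ 2) (b ^ 2) ?_ (by rw [map_pow, hb0]; ring) hgB
          rw [map_pow, hb, mul_pow, ← pow_mul]; congr 2; ring
      have hb0 : constantCoeff b ≠ 0 := by
        intro h0
        rw [h0] at hD'
        apply ha0
        have : (4 : ℂ) * constantCoeff a ^ 3 = 0 := by linear_combination hD'
        have := (mul_eq_zero.1 this).resolve_left (by norm_num)
        exact pow_eq_zero_iff (by norm_num) |>.1 this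
      exact low_M hDl hD ha0 hb0 g1 g2
    · exact low_S hD (fun n _ => by rw [g1, map_zero]) (fun n _ => by rw [g2, map_zero])
  rw [PowerSeries.X_pow_dvd_iff]
  intro i hi
  have h3 : 2 * k + e * i < k + e * m := by
    have : e * (i + 1) ≤ e * m := Nat.mul_le_mul_left _ hi
    rw [mul_add, mul_one] at this
    omega
  have h4 := (hlow (2 * k + e * i) h3).1
  have h5 := PowerSeries.coeff_X_pow_mul (expand e he z) (2 * k) (e * i)
  rw [add_comm (e * i)] at h5
  rw [h5, coeff_expand_mul] at h4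
  exact h4

end

end Pool.Agent.Helper433.ES
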