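import Pool.Agent.Helper433_ES.RecR
import Pool.Agent.Helper433_ES.HurR
import Pool.Agent.Helper433_ES.Loc
import Pool.Agent.Helper433_ES.Nor1

/-! Local solutions at fibres of multiplicative type after a ramified base change. -/

namespace Pool.Agent.Helper433.ES

open PowerSeries Filter Topology Finset

noncomputable section

lemma sh_one (φ : ℂ⟦X⟧) : φ = PowerSeries.C (constantCoeff φ) + PowerSeries.X * sh 1 φ := by
  ext n
  rcases n with _ | n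
  · simp
  · rw [map_add, PowerSeries.coeff_succ_X_mul, PowerSeries.coeff_C, if_neg (by omega), zero_add]
    simp [sh]

lemma Geo.sh_one {φ : ℂ⟦X⟧} (h : Geo φ) : Geo (sh 1 φ) := by
  apply Geo.unshift
  have e : PowerSeries.X * sh 1 φ = φ - PowerSeries.C (constantCoeff φ) := by
    rw [eq_sub_iff_add_eq, add_comm]; exact (ES.sh_one φ).symm
  rw [e]
  refine h.sub (Geo.C ?_)
  have := h.alg 0
  rwa [coeff_zero_eq_constantCoeff_apply] at this

/-- a unit times a power of the variable with multiplicative behaviour -/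
structure Mul0 (a b : ℂ⟦X⟧) (ν : ℕ) (D₁ W₁ : ℂ⟦X⟧) : Prop where
  hD : Dl a b = PowerSeries.X ^ ν * D₁
  h1 : constantCoeff D₁ ≠ 0
  ha : constantCoeff a ≠ 0
  hb : constantCoeff b ≠ 0
  h0 : 4 * constantCoeff a ^ 3 + 27 * constantCoeff b ^ 2 = 0
  hW : 27 * b * W₁ = a * ((ν : ℂ⟦X⟧) * D₁ + PowerSeries.X * d⁄dX ℂ D₁) -
    3 * PowerSeries.X * d⁄dX ℂ a * D₁

lemma c27 {b : ℂ⟦X⟧} (hb : constantCoeff b ≠ 0) : constantCoeff (27 * b) ≠ 0 := by
  rw [map_mul, map_ofNat]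
  exact mul_ne_zero (by norm_num) hb

lemma exists_mul0 {a b : ℂ⟦X⟧} (hne : Dl a b ≠ 0) (hD : constantCoeff (Dl a b) = 0)
    (ha : constantCoeff a ≠ 0) : ∃ ν D₁ W₁, Mul0 a b ν D₁ W₁ := by
  obtain ⟨ν, D₁, hν, hD₁⟩ := exists_factor hne
  have h0 : 4 * constantCoeff a ^ 3 + 27 * constantCoeff b ^ 2 = 0 := by
    have := hD
    unfold Dl at this
    rwa [map_add, map_mul, map_mul, map_pow, map_pow, map_ofNat, map_ofNat] at this
  have hb : constantCoeff b ≠ 0 := by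
    intro hb
    rw [hb] at h0
    have : constantCoeff a ^ 3 = 0 := by linear_combination (1 / 4) * h0
    exact ha (pow_eq_zero_iff (by norm_num) |>.1 this)
  refine ⟨ν, D₁, (27 * b)⁻¹ * (a * ((ν : ℂ⟦X⟧) * D₁ + PowerSeries.X * d⁄dX ℂ D₁) -
    3 * PowerSeries.X * d⁄dX ℂ a * D₁), ⟨hν, hD₁, ha, hb, h0, ?_⟩⟩
  rw [← mul_assoc, PowerSeries.mul_inv_cancel _ (c27 hb), one_mul]

section

variable {a b D₁ W₁ : ℂ⟦X⟧} {ν : ℕ}

lemma Mul0.dD (h : Mul0 a b ν D₁ W₁) : PowerSeries.X * d⁄dX ℂ (Dl a b) =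
    PowerSeries.X ^ ν * ((ν : ℂ⟦X⟧) * D₁ + PowerSeries.X * d⁄dX ℂ D₁) := by
  rw [h.hD]
  exact euler_pow ν D₁

lemma Mul0.W (h : Mul0 a b ν D₁ W₁) : PowerSeries.X * Wl a b = PowerSeries.X ^ ν * W₁ := by
  have hb0 : (27 * b : ℂ⟦X⟧) ≠ 0 := by
    intro h0
    exact c27 h.hb (by rw [h0, map_zero])
  apply mul_left_cancel₀ hb0
  have h1 := Wl_rel a b
  have h2 := h.dD
  have h3 := h.hW
  have h4 := h.hD
  linear_combination PowerSeries.X * h1 + a * h2 - 3 * PowerSeries.X * d⁄dX ℂ a * h4 -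
    PowerSeries.X ^ ν * h3

/-- the reduced equations -/
def G1 (D₁ W₁ : ℂ⟦X⟧) (ν K : ℕ) (Y1 Y2 : ℂ⟦X⟧) : ℂ⟦X⟧ :=
  12 * D₁ * (PowerSeries.X * d⁄dX ℂ Y1 - (K : ℂ⟦X⟧) * Y1) +
    ((ν : ℂ⟦X⟧) * D₁ + PowerSeries.X * d⁄dX ℂ D₁) * Y1 + 18 * W₁ * Y2

def G2 (a D₁ W₁ : ℂ⟦X⟧) (ν K : ℕ) (Y1 Y2 : ℂ⟦X⟧) : ℂ⟦X⟧ :=
  12 * D₁ * (PowerSeries.X * d⁄dX ℂ Y2 - (K : ℂ⟦X⟧) * Y2) + 6 * a * W₁ * Y1 -
    ((ν : ℂ⟦X⟧) * D₁ + PowerSeries.X * d⁄dX ℂ D₁) * Y2

lemma Mul0.E1 (h : Mul0 a b ν D₁ W₁) (K : ℕ) (Y1 Y2 : ℂ⟦X⟧) :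
    E1 a b K Y1 Y2 = PowerSeries.X ^ ν * G1 D₁ W₁ ν K Y1 Y2 := by
  unfold ES.E1 G1
  have h2 := h.dD
  have h3 := h.W
  have h4 := h.hD
  linear_combination 12 * (PowerSeries.X * d⁄dX ℂ Y1 - (K : ℂ⟦X⟧) * Y1) * h4 + Y1 * h2 +
    18 * Y2 * h3

lemma Mul0.E2 (h : Mul0 a b ν D₁ W₁) (K : ℕ) (Y1 Y2 : ℂ⟦X⟧) :
    E2 a b K Y1 Y2 = PowerSeries.X ^ ν * G2 a D₁ W₁ ν K Y1 Y2 := by
  unfold ES.E2 G2
  have h2 := h.dD
  have h3 := h.W
  have h4 := h.hD
  linear_combination 12 * (PowerSeries.X * d⁄dX ℂ Y2 - (K : ℂ⟦X⟧) * Y2) * h4 - Y2 * h2 +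
    6 * a * Y1 * h3

/-- the matrix of the reduced system -/
def MM (a D₁ W₁ : ℂ⟦X⟧) (ν : ℕ) (i j : Fin 2) : ℂ⟦X⟧ :=
  ![![-(((ν : ℂ⟦X⟧) * D₁ + PowerSeries.X * d⁄dX ℂ D₁) * (12 * D₁)⁻¹), -(18 * W₁ * (12 * D₁)⁻¹)],
    ![-(6 * a * W₁ * (12 * D₁)⁻¹),
      ((ν : ℂ⟦X⟧) * D₁ + PowerSeries.X * d⁄dX ℂ D₁) * (12 * D₁)⁻¹]] i j

lemma nf_mul (hD : constantCoeff D₁ ≠ 0) {K : ℕ} {Y1 Y2 Γ1 Γ2 : ℂ⟦X⟧}
    (h1 : G1 D₁ W₁ ν K Y1 Y2 = Γ1) (h2 : G2 a D₁ W₁ ν K Y1 Y2 = Γ2) :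
    ∀ i : Fin 2, PowerSeries.X * d⁄dX ℂ (![Y1, Y2] i) =
      (K : ℂ⟦X⟧) * ![Y1, Y2] i + ∑ j, PowerSeries.C (constantCoeff (MM a D₁ W₁ ν i j)) *
        ![Y1, Y2] j + (PowerSeries.X * ∑ j, sh 1 (MM a D₁ W₁ ν i j) * ![Y1, Y2] j +
      ![Γ1 * (12 * D₁)⁻¹, Γ2 * (12 * D₁)⁻¹] i) := by
  have hinv : (12 * D₁) * (12 * D₁)⁻¹ = 1 := by
    refine PowerSeries.mul_inv_cancel _ ?_
    rw [map_mul, map_ofNat]
    exact mul_ne_zero (by norm_num) hD
  have key : ∀ i : Fin 2, PowerSeries.X * d⁄dX ℂ (![Y1, Y2] i) =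
      (K : ℂ⟦X⟧) * ![Y1, Y2] i + ∑ j, MM a D₁ W₁ ν i j * ![Y1, Y2] j +
      ![Γ1 * (12 * D₁)⁻¹, Γ2 * (12 * D₁)⁻¹] i := by
    set I := (12 * D₁)⁻¹ with hI
    unfold G1 at h1
    unfold G2 at h2
    intro i
    fin_cases i
    · simp only [MM, Fin.sum_univ_two, Fin.zero_eta, Fin.isValue, Matrix.cons_val_zero,
        Matrix.cons_val_one]
      linear_combination I * h1 - (PowerSeries.X * d⁄dX ℂ Y1 - (K : ℂ⟦X⟧) * Y1) * hinv
    · simp only [MM, Fin.sum_univ_two, Fin.mk_one, Fin.isValue, Matrix.cons_val_zero,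
        Matrix.cons_val_one]
      linear_combination I * h2 - (PowerSeries.X * d⁄dX ℂ Y2 - (K : ℂ⟦X⟧) * Y2) * hinv
  intro i
  rw [key i]
  have e : ∀ j, MM a D₁ W₁ ν i j * ![Y1, Y2] j =
      PowerSeries.C (constantCoeff (MM a D₁ W₁ ν i j)) * ![Y1, Y2] j +
        PowerSeries.X * (sh 1 (MM a D₁ W₁ ν i j) * ![Y1, Y2] j) := by
    intro j
    conv_lhs => rw [sh_one (MM a D₁ W₁ ν i j)]
    ring
  rw [Finset.sum_congr rfl fun j _ => e j, Finset.sum_add_distrib, Finset.mul_sum]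
  ring

lemma Mul0.nil (h : Mul0 a b ν D₁ W₁) (i l : Fin 2) :
    ∑ j, constantCoeff (MM a D₁ W₁ ν i j) * constantCoeff (MM a D₁ W₁ ν j l) = 0 := by
  have hW := congrArg constantCoeff h.hW
  have h0 := h.h0
  have hb := h.hb
  simp only [map_mul, map_sub, map_add, map_ofNat, PowerSeries.constantCoeff_X, zero_mul, mul_zero,
    sub_zero, add_zero] at hW
  have hkey : ∀ I N W α β : ℂ, β ≠ 0 → 27 * β * W = α * N → 4 * α ^ 3 + 27 * β ^ 2 = 0 →
      (N * I) ^ 2 + 108 * α * (W * I) ^ 2 = 0 := by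
    intro I N W α β hβ h1 h2
    have : (27 * β) ^ 2 * ((N * I) ^ 2 + 108 * α * (W * I) ^ 2) = 0 := by
      have e : (27 * β) ^ 2 * ((N * I) ^ 2 + 108 * α * (W * I) ^ 2) =
          I ^ 2 * (729 * β ^ 2 * N ^ 2 + 108 * α * (27 * β * W) ^ 2) := by ring
      rw [e, h1]
      linear_combination 27 * I ^ 2 * N ^ 2 * h2
    exact (mul_eq_zero.1 this).resolve_left (pow_ne_zero _ (mul_ne_zero (by norm_num) hβ))
  have hn := hkey (constantCoeff (12 * D₁)⁻¹) (constantCoeff (ν : ℂ⟦X⟧) * constantCoeff D₁)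
    (constantCoeff W₁) (constantCoeff a) (constantCoeff b) hb hW h0
  fin_cases i <;> fin_cases l <;>
    simp only [MM, Fin.sum_univ_two, Fin.mk_one, Fin.zero_eta, Fin.isValue, Matrix.cons_val_zero,
      Matrix.cons_val_one, map_neg, map_mul, map_add, map_ofNat, PowerSeries.constantCoeff_X,
      zero_mul, add_zero]
  · linear_combination hn
  · ring
  · ring
  · linear_combination hn

end

section

variable {e k m : ℕ} {he : e ≠ 0} {A B a b z w : ℂ⟦X⟧}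

lemma geo_E {Q P1 P2 : ℂ⟦X⟧}
    (hA : expand e he A = PowerSeries.X ^ (4 * k) * a)
    (hB : expand e he B = PowerSeries.X ^ (6 * k) * b)
    (gQ : Geo Q) (gP1 : Geo P1) (gP2 : Geo P2) (hQ : Q ≠ 0)
    (h1 : Q * L1 A B m z w = PowerSeries.X ^ m * P1)
    (h2 : Q * L2 A B m z w = PowerSeries.X ^ (m + 1) * P2) :
    Geo (E1 a b (k + e * m) (PowerSeries.X ^ (2 * k + e * m) * expand e he z) (expand e he w)) ∧
    Geo (E2 a b (k + e * m) (PowerSeries.X ^ (2 * k + e * m) * expand e he z)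
      (expand e he w)) := by
  set K := k + e * m with hK
  set Y1 := PowerSeries.X ^ (2 * k + e * m) * expand e he z with hY1
  set Y2 := expand e he w with hY2
  have e1 := exp_L1 (m := m) (z := z) (w := w) hA hB
  have e2 := exp_L2 (m := m) (z := z) (w := w) hA hB
  rw [← hK, ← hY1, ← hY2] at e1 e2
  have hQe : expand e he Q ≠ 0 := expand_ne hQ
  have gQe : Geo (expand e he Q) := gQ.expand e he
  have gn : ∀ n : ℕ, Geo (n : ℂ⟦X⟧) := Geo.nat
  constructor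
  · refine Geo.of_mul (A := expand e he Q * PowerSeries.X ^ (10 * k))
      (mul_ne_zero hQe (pow_ne_zero _ X_ne_zero)) (gQe.mul (Geo.X.pow _)) ?_
    have h3 : expand e he Q * PowerSeries.X ^ (10 * k) * E1 a b K Y1 Y2 =
        (e : ℂ⟦X⟧) * PowerSeries.X ^ (e + e * m) * expand e he P1 := by
      rw [mul_assoc, ← e1]
      have h4 := congrArg (expand e he) h1
      rw [map_mul, map_mul, map_pow, expand_X] at h4
      calc expand e he Q * ((e : ℂ⟦X⟧) * PowerSeries.X ^ e * expand e he (L1 A B m z w))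
          = (e : ℂ⟦X⟧) * PowerSeries.X ^ e *
            (expand e he Q * expand e he (L1 A B m z w)) := by ring
        _ = _ := by rw [h4, pow_add, ← pow_mul]; ring
    rw [h3]
    exact ((gn e).mul (Geo.X.pow _)).mul (gP1.expand e he)
  · refine Geo.of_mul (A := expand e he Q * PowerSeries.X ^ (12 * k))
      (mul_ne_zero hQe (pow_ne_zero _ X_ne_zero)) (gQe.mul (Geo.X.pow _)) ?_
    have h3 : expand e he Q * PowerSeries.X ^ (12 * k) * E2 a b K Y1 Y2 =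
        (e : ℂ⟦X⟧) * PowerSeries.X ^ (e * (m + 1)) * expand e he P2 := by
      rw [mul_assoc, ← e2]
      have h4 := congrArg (expand e he) h2
      rw [map_mul, map_mul, map_pow, expand_X] at h4
      calc expand e he Q * ((e : ℂ⟦X⟧) * expand e he (L2 A B m z w))
          = (e : ℂ⟦X⟧) * (expand e he Q * expand e he (L2 A B m z w)) := by ring
        _ = _ := by rw [h4, ← pow_mul]; ring
    rw [h3]
    exact ((gn e).mul (Geo.X.pow _)).mul (gP2.expand e he)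

lemma Geo.of_unit_mul {φ ψ : ℂ⟦X⟧} (h0 : φ ≠ 0) (hφ : Geo φ) (h : Geo (φ * ψ)) : Geo ψ :=
  Geo.of_mul h0 hφ h

/-- integrality of the local solution, multiplicative type -/
theorem loc_int2 {Q P1 P2 : ℂ⟦X⟧} (hk : 0 < k) (hek : ¬ e ∣ k)
    (hA : expand e he A = PowerSeries.X ^ (4 * k) * a)
    (hB : expand e he B = PowerSeries.X ^ (6 * k) * b)
    (hne : Dl a b ≠ 0) (hD : constantCoeff (Dl a b) = 0) (ha : constantCoeff a ≠ 0)
    (gA : Geo A) (gB : Geo B) (gQ : Geo Q) (gP1 : Geo P1) (gP2 : Geo P2) (hQ : Q ≠ 0)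
    (h1 : Q * L1 A B m z w = PowerSeries.X ^ m * P1)
    (h2 : Q * L2 A B m z w = PowerSeries.X ^ (m + 1) * P2) :
    ∃ M : ℕ, 0 < M ∧ PowerSeries.X ^ k * expand e he z ∈ HR 2 M := by
  obtain ⟨gΓ1, gΓ2⟩ := geo_E (he := he) (z := z) (w := w) hA hB gQ gP1 gP2 hQ h1 h2
  set K := k + e * m with hK
  set Y1 := PowerSeries.X ^ (2 * k + e * m) * expand e he z with hY1
  set Y2 := expand e he w with hY2
  have ga : Geo a := Geo.unshift_pow (4 * k) (by rw [← hA]; exact gA.expand e he)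
  have gb : Geo b := Geo.unshift_pow (6 * k) (by rw [← hB]; exact gB.expand e he)
  have gn : ∀ n : ℕ, Geo (n : ℂ⟦X⟧) := Geo.nat
  have g12 : Geo (12 : ℂ⟦X⟧) := by simpa using gn 12
  have g27 : Geo (27 : ℂ⟦X⟧) := by simpa using gn 27
  have g18 : Geo (18 : ℂ⟦X⟧) := by simpa using gn 18
  have g6 : Geo (6 : ℂ⟦X⟧) := by simpa using gn 6
  have g3 : Geo (3 : ℂ⟦X⟧) := by simpa using gn 3
  have g4 : Geo (4 : ℂ⟦X⟧) := by simpa using gn 4
  obtain ⟨ν, D₁, W₁, hM0⟩ := exists_mul0 hne hD ha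
  have gD : Geo (Dl a b) := by
    unfold Dl
    exact (g4.mul (ga.pow 3)).add (g27.mul (gb.pow 2))
  have gD₁ : Geo D₁ := Geo.unshift_pow ν (by rw [← hM0.hD]; exact gD)
  have gN : Geo ((ν : ℂ⟦X⟧) * D₁ + PowerSeries.X * d⁄dX ℂ D₁) :=
    ((gn ν).mul gD₁).add (Geo.X.mul gD₁.deriv)
  have gW : Geo W₁ := by
    have hb0 : (27 * b : ℂ⟦X⟧) ≠ 0 := by
      intro h0
      exact c27 hM0.hb (by rw [h0, map_zero])
    refine Geo.of_mul hb0 (g27.mul gb) ?_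
    rw [hM0.hW]
    exact (ga.mul gN).sub (((g3.mul Geo.X).mul ga.deriv).mul gD₁)
  have gI : Geo ((12 * D₁)⁻¹) := by
    have h0 : constantCoeff (12 * D₁) ≠ 0 := by
      rw [map_mul, map_ofNat]
      exact mul_ne_zero (by norm_num) hM0.h1
    exact (g12.mul gD₁).inv h0 (PowerSeries.mul_inv_cancel _ h0)
  have gG1 : Geo (G1 D₁ W₁ ν K Y1 Y2) :=
    Geo.unshift_pow ν (by rw [← hM0.E1]; exact gΓ1)
  have gG2 : Geo (G2 a D₁ W₁ ν K Y1 Y2) :=
    Geo.unshift_pow ν (by rw [← hM0.E2]; exact gΓ2)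
  have gMM : ∀ i j, Geo (MM a D₁ W₁ ν i j) := by
    intro i j
    fin_cases i <;> fin_cases j
    · exact (gN.mul gI).neg
    · exact ((g18.mul gW).mul gI).neg
    · exact (((g6.mul ga).mul gW).mul gI).neg
    · exact gN.mul gI
  obtain ⟨c1, c2⟩ := crit (m := m) (z := z) (w := w) (he := he) hk hek
  rw [← hK, ← hY1] at c1
  rw [← hK, ← hY2] at c2
  obtain ⟨M, hM, hint⟩ := rec2_int (ι := Fin 2) (k := K) (Y := ![Y1, Y2])
    (Γ := ![G1 D₁ W₁ ν K Y1 Y2 * (12 * D₁)⁻¹, G2 a D₁ W₁ ν K Y1 Y2 * (12 * D₁)⁻¹])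
    (N := fun i j => sh 1 (MM a D₁ W₁ ν i j))
    (N0 := fun i j => constantCoeff (MM a D₁ W₁ ν i j))
    (fun i j => (gMM i j).sh_one)
    (by
      intro i
      fin_cases i
      · exact gG1.mul gI
      · exact gG2.mul gI)
    (fun i j => by
      have := (gMM i j).alg 0
      rwa [coeff_zero_eq_constantCoeff_apply] at this)
    (nf_mul hM0.h1 rfl rfl) hM0.nil
    (by
      intro i
      fin_cases i
      · exact c1
      · exact c2)
  refine ⟨M ^ (K + 2), pow_pos hM _, fun n => ?_⟩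
  rcases n with _ | n
  · have h0 : coeff 0 (PowerSeries.X ^ k * expand e he z) = 0 := by
      rw [coeff_zero_eq_constantCoeff_apply, map_mul, map_pow, PowerSeries.constantCoeff_X,
        zero_pow hk.ne', zero_mul]
    rw [h0, mul_zero]; exact isIntegral_zero
  · have h3 := hint (n + 1 + K) 0
    simp only [Matrix.cons_val_zero] at h3
    rw [Nat.add_sub_cancel] at h3
    have h4 : coeff (n + 1 + K) Y1 = coeff (n + 1) (PowerSeries.X ^ k * expand e he z) := by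
      have : Y1 = PowerSeries.X ^ K * (PowerSeries.X ^ k * expand e he z) := by
        rw [hY1, hK, ← mul_assoc, ← pow_add]; congr 2; omega
      rw [this, PowerSeries.coeff_X_pow_mul]
    rw [h4] at h3
    obtain ⟨r, hr⟩ : ∃ r, (K + 2) * (n + 1) = (n + 1 + K + 1) + r := ⟨(K + 2) * (n + 1) -
      (n + 1 + K + 1), by
        have : n + 1 + K + 1 ≤ (K + 2) * (n + 1) := by nlinarith
        omega⟩
    have h5 : ((M ^ (K + 2) : ℕ) : ℂ) ^ (n + 1) * ((n + 1).factorial : ℂ) ^ 2 *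
        coeff (n + 1) (PowerSeries.X ^ k * expand e he z) =
        (M : ℂ) ^ r * ((M : ℂ) ^ (n + 1 + K + 1) * ((n + 1).factorial : ℂ) ^ 2 *
          coeff (n + 1) (PowerSeries.X ^ k * expand e he z)) := by
      push_cast
      rw [← pow_mul, hr, pow_add]; ring
    rw [h5]
    exact ((ii_nat M).pow _).mul h3

/-- uniqueness of the local solution, multiplicative type -/
theorem loc_unique2 {Q P1 P2 z' w' : ℂ⟦X⟧} (hk : 0 < k) (hek : ¬ e ∣ k)
    (hA : expand e he A = PowerSeries.X ^ (4 * k) * a)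
    (hB : expand e he B = PowerSeries.X ^ (6 * k) * b)
    (hne : Dl a b ≠ 0) (hD : constantCoeff (Dl a b) = 0) (ha : constantCoeff a ≠ 0) (hQ : Q ≠ 0)
    (h1 : Q * L1 A B m z w = PowerSeries.X ^ m * P1)
    (h2 : Q * L2 A B m z w = PowerSeries.X ^ (m + 1) * P2)
    (h1' : Q * L1 A B m z' w' = PowerSeries.X ^ m * P1)
    (h2' : Q * L2 A B m z' w' = PowerSeries.X ^ (m + 1) * P2) : z = z' := by
  have hz1 : L1 A B m (z - z') (w - w') = 0 := by
    refine (mul_eq_zero.1 (?_ : Q * _ = 0)).resolve_left hQ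
    rw [L1_sub, mul_sub, h1, h1', sub_self]
  have hz2 : L2 A B m (z - z') (w - w') = 0 := by
    refine (mul_eq_zero.1 (?_ : Q * _ = 0)).resolve_left hQ
    rw [L2_sub, mul_sub, h2, h2', sub_self]
  have e1 := exp_L1 (m := m) (z := z - z') (w := w - w') hA hB
  have e2 := exp_L2 (m := m) (z := z - z') (w := w - w') hA hB
  rw [hz1, map_zero, mul_zero] at e1
  rw [hz2, map_zero, mul_zero] at e2
  have f1 := (mul_eq_zero.1 e1.symm).resolve_left (pow_ne_zero _ X_ne_zero)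
  have f2 := (mul_eq_zero.1 e2.symm).resolve_left (pow_ne_zero _ X_ne_zero)
  obtain ⟨ν, D₁, W₁, hM0⟩ := exists_mul0 hne hD ha
  rw [hM0.E1] at f1
  rw [hM0.E2] at f2
  have f1' := (mul_eq_zero.1 f1).resolve_left (pow_ne_zero _ X_ne_zero)
  have f2' := (mul_eq_zero.1 f2).resolve_left (pow_ne_zero _ X_ne_zero)
  have hnf := nf_mul hM0.h1 f1' f2'
  have h0 := rec2_unique (ι := Fin 2) (k := k + e * m)
    (Y := ![PowerSeries.X ^ (2 * k + e * m) * expand e he (z - z'), expand e he (w - w')])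
    (N := fun i j => sh 1 (MM a D₁ W₁ ν i j))
    (N0 := fun i j => constantCoeff (MM a D₁ W₁ ν i j))
    (fun i => by
      have := hnf i
      have h00 : ![(0 : ℂ⟦X⟧) * (12 * D₁)⁻¹, 0 * (12 * D₁)⁻¹] i = 0 := by
        fin_cases i <;> simp
      rw [h00, add_zero] at this
      exact this) hM0.nil
    (by
      obtain ⟨c1, c2⟩ := crit (m := m) (z := z - z') (w := w - w') (he := he) hk hek
      intro i
      fin_cases i
      · exact c1
      · exact c2) 0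
  simp only [Matrix.cons_val_zero] at h0
  have h3 := (mul_eq_zero.1 h0).resolve_left (pow_ne_zero _ X_ne_zero)
  by_contra hne
  exact expand_ne (he := he) (sub_ne_zero.2 hne) h3

end

end

end Pool.Agent.Helper433.ES
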