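import Pool.Agent.Helper433_ES.Ari
import Pool.Agent.Helper433_ES.LocR
import Pool.Agent.Helper433_ES.Def2

/-! Conjugation by endomorphisms of the field of complex numbers; local theory at additive points. -/

namespace Pool.Agent.Helper433.ES

open Filter Topology Finset

noncomputable section

section

variable (τ : ℂ →+* ℂ)

lemma hat_map_c (f : Polynomial ℂ) (p : ℂ) :
    PowerSeries.map τ (hat p f) = hat (τ p) (f.map τ) := by
  induction f using Polynomial.induction_on' with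
  | add f g hf hg => rw [map_add, map_add, Polynomial.map_add, map_add, hf, hg]
  | monomial n c =>
    rw [← Polynomial.C_mul_X_pow_eq_monomial, map_mul, map_mul, map_pow, map_pow, hat_C, hat_X,
      Polynomial.map_mul, Polynomial.map_pow, Polynomial.map_C, Polynomial.map_X, map_mul,
      map_pow, hat_C, hat_X, map_add, PowerSeries.map_C, PowerSeries.map_C, PowerSeries.map_X]
    rfl

lemma aeval_c (f : Polynomial ℂ) (p : ℂ) :
    Polynomial.aeval (τ p) (f.map τ) = τ (Polynomial.aeval p f) := by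
  rw [Polynomial.coe_aeval_eq_eval, Polynomial.coe_aeval_eq_eval, Polynomial.eval_map,
    Polynomial.eval₂_at_apply]

lemma disc_map_c {R S : Type*} [Field R] [Field S] (τ : R →+* S) (a b : Polynomial R) :
    (disc a b).map τ = disc (a.map τ) (b.map τ) := by
  unfold disc
  simp only [Polynomial.map_add, Polynomial.map_mul, Polynomial.map_pow, Polynomial.map_ofNat]

lemma wrn_map_c {R S : Type*} [Field R] [Field S] (τ : R →+* S) (a b : Polynomial R) :
    (wrn a b).map τ = wrn (a.map τ) (b.map τ) := by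
  unfold wrn
  simp only [Polynomial.map_sub, Polynomial.map_mul, Polynomial.map_ofNat,
    Polynomial.derivative_map]

lemma map_id_c (f : Polynomial ℂ) : f.map (algebraMap ℂ ℂ) = f := by
  rw [Algebra.algebraMap_self, Polynomial.map_id]

lemma eu_map_c (a b : Polynomial ℂ) (p : ℂ) : eu (a.map τ) (b.map τ) (τ p) = eu a b p := by
  unfold eu
  rw [map_id_c, map_id_c, ← disc_map_c τ a b]
  exact (Polynomial.eq_rootMultiplicity_map τ.injective p).symm

lemma pow_dvd_c (f : Polynomial ℂ) (p : ℂ) (n : ℕ) :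
    (Polynomial.X - Polynomial.C (τ p)) ^ n ∣ f.map τ ↔
      (Polynomial.X - Polynomial.C p) ^ n ∣ f := by
  have : (Polynomial.X - Polynomial.C (τ p)) ^ n =
      ((Polynomial.X - Polynomial.C p) ^ n : Polynomial ℂ).map τ := by
    rw [Polynomial.map_pow, Polynomial.map_sub, Polynomial.map_X, Polynomial.map_C]
  rw [this]
  exact Polynomial.map_dvd_map' τ

lemma Fib_c (a b : Polynomial ℂ) (p : ℂ) : Fib (a.map τ) (b.map τ) (τ p) ↔ Fib a b p := by
  constructor
  · rintro ⟨h1, h2, h3⟩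
    rw [map_id_c, eu_map_c, ← Polynomial.map_pow, pow_dvd_c] at h1 h2
    rw [eu_map_c] at h3
    exact ⟨by rwa [map_id_c], by rwa [map_id_c], h3⟩
  · rintro ⟨h1, h2, h3⟩
    rw [map_id_c] at h1 h2
    refine ⟨?_, ?_, by rwa [eu_map_c]⟩
    · rw [map_id_c, eu_map_c, ← Polynomial.map_pow, pow_dvd_c]; exact h1
    · rw [map_id_c, eu_map_c, ← Polynomial.map_pow, pow_dvd_c]; exact h2

lemma geo_hat_c {f : Polynomial ℂ} (hf : ∀ n, IsAlgebraic ℚ (f.coeff n)) {p : ℂ}
    (hp : IsAlgebraic ℚ p) : Geo (hat p f) := by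
  rw [f.as_sum_support_C_mul_X_pow, map_sum]
  refine Geo.sum _ fun n _ => ?_
  rw [map_mul, map_pow, hat_C, hat_X]
  exact (Geo.C (hf n)).mul (((Geo.C hp).add Geo.X).pow n)

end

/-- a fibre of type `I_n^*`, `n` positive -/
def Star (a b : Polynomial ℂ) (p : ℂ) : Prop :=
  (Polynomial.X - Polynomial.C p) ^ 2 ∣ a ∧ (Polynomial.X - Polynomial.C p) ^ 3 ∣ b ∧
    ¬ (Polynomial.X - Polynomial.C p) ^ 3 ∣ a ∧ 6 < eu a b p

lemma Star_c (τ : ℂ →+* ℂ) (a b : Polynomial ℂ) (p : ℂ) :
    Star (a.map τ) (b.map τ) (τ p) ↔ Star a b p := by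
  unfold Star
  rw [pow_dvd_c, pow_dvd_c, pow_dvd_c, eu_map_c]

/-- additive fibres used by the method -/
def Adt (a b : Polynomial ℂ) (p : ℂ) : Prop := Star a b p ∨ (¬ Star a b p ∧ Fib a b p)

lemma Adt_c (τ : ℂ →+* ℂ) (a b : Polynomial ℂ) (p : ℂ) :
    Adt (a.map τ) (b.map τ) (τ p) ↔ Adt a b p := by
  unfold Adt
  rw [Star_c, Fib_c]

open Classical in
/-- ramification -/
def ram (a b : Polynomial ℂ) (p : ℂ) : ℕ := if Star a b p then 2 else ee a b p

open Classical in
/-- scaling -/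
def scl (a b : Polynomial ℂ) (p : ℂ) : ℕ := if Star a b p then 1 else kk a b p

open Classical in
/-- level -/
def lev (a b : Polynomial ℂ) (p : ℂ) : ℕ := if Star a b p then 1 else 0

open Classical in
/-- the gain of a fibre -/
def wt (a b : Polynomial ℂ) (p : ℂ) : ℕ := if Star a b p then 3 else Nat.gcd 12 (eu a b p)

lemma ram_ne (a b : Polynomial ℂ) (p : ℂ) : ram a b p ≠ 0 := by
  unfold ram
  split_ifs
  · norm_num
  · exact ee_ne a b p

lemma ram_c (τ : ℂ →+* ℂ) (a b : Polynomial ℂ) (p : ℂ) :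
    ram (a.map τ) (b.map τ) (τ p) = ram a b p := by
  unfold ram ee
  by_cases h : Star a b p
  · rw [if_pos h, if_pos ((Star_c τ a b p).2 h)]
  · rw [if_neg h, if_neg (fun h' => h ((Star_c τ a b p).1 h')), eu_map_c]

lemma scl_c (τ : ℂ →+* ℂ) (a b : Polynomial ℂ) (p : ℂ) :
    scl (a.map τ) (b.map τ) (τ p) = scl a b p := by
  unfold scl kk
  by_cases h : Star a b p
  · rw [if_pos h, if_pos ((Star_c τ a b p).2 h)]
  · rw [if_neg h, if_neg (fun h' => h ((Star_c τ a b p).1 h')), eu_map_c]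

lemma lev_c (τ : ℂ →+* ℂ) (a b : Polynomial ℂ) (p : ℂ) :
    lev (a.map τ) (b.map τ) (τ p) = lev a b p := by
  unfold lev
  by_cases h : Star a b p
  · rw [if_pos h, if_pos ((Star_c τ a b p).2 h)]
  · rw [if_neg h, if_neg (fun h' => h ((Star_c τ a b p).1 h'))]

lemma wt_c (τ : ℂ →+* ℂ) (a b : Polynomial ℂ) (p : ℂ) :
    wt (a.map τ) (b.map τ) (τ p) = wt a b p := by
  unfold wt
  by_cases h : Star a b p
  · rw [if_pos h, if_pos ((Star_c τ a b p).2 h)]
  · rw [if_neg h, if_neg (fun h' => h ((Star_c τ a b p).1 h')), eu_map_c]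

lemma wt_inv (a b : Polynomial ℂ) (p : ℂ) :
    (1 : ℝ) / (((lev a b p + 1) * ram a b p : ℕ) : ℝ) = (wt a b p : ℝ) / 12 := by
  unfold lev ram wt
  split_ifs with h
  · norm_num
  · have h1 : Nat.gcd 12 (eu a b p) ∣ 12 := Nat.gcd_dvd_left _ _
    obtain ⟨c, hc⟩ := h1
    have hg := gcd_pos' a b p
    have h2 : ee a b p = c := by
      unfold ee
      exact Nat.div_eq_of_eq_mul_right hg hc
    rw [h2, zero_add, one_mul]
    have hc0 : (c : ℝ) ≠ 0 := by
      intro h0
      have : c = 0 := by exact_mod_cast h0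
      rw [this] at hc; omega
    have hcr : (12 : ℝ) = Nat.gcd 12 (eu a b p) * c := by exact_mod_cast hc
    have hgr : ((Nat.gcd 12 (eu a b p) : ℕ) : ℝ) ≠ 0 := by exact_mod_cast hg.ne'
    rw [hcr, div_eq_div_iff hc0 (mul_ne_zero hgr hc0)]
    ring

section

variable {a b : Polynomial ℂ} {p : ℂ}

lemma Adt.scl_pos (h : Adt a b p) : 0 < scl a b p := by
  unfold scl
  rcases h with h | ⟨h0, h⟩
  · rw [if_pos h]; norm_num
  · rw [if_neg h0]; exact h.kk_pos

lemma Adt.not_dvd (h : Adt a b p) : ¬ ram a b p ∣ scl a b p := by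
  unfold scl ram
  rcases h with h | ⟨h0, h⟩
  · rw [if_pos h, if_pos h]; norm_num
  · rw [if_neg h0, if_neg h0]; exact h.not_dvd

lemma Star.hat_a (h : Star a b p) : PowerSeries.X ^ 2 ∣ hat p a := by
  rw [X_pow_dvd_hat]; exact h.1

lemma Star.hat_b (h : Star a b p) : PowerSeries.X ^ 3 ∣ hat p b := by
  rw [X_pow_dvd_hat]; exact h.2.1

lemma Adt.dvd_a (h : Adt a b p) : PowerSeries.X ^ (4 * scl a b p) ∣
    PowerSeries.expand (ram a b p) (ram_ne a b p) (hat p a) := by
  rcases h with h | ⟨h0, h⟩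
  · have h1 : ram a b p = 2 := by unfold ram; rw [if_pos h]
    have h2 : scl a b p = 1 := by unfold scl; rw [if_pos h]
    rw [expand_congr' h1 (ram_ne a b p) (by norm_num), h2]
    have h3 := map_dvd (PowerSeries.expand 2 (by norm_num)) h.hat_a
    rw [map_pow, PowerSeries.expand_X, ← pow_mul] at h3
    exact h3
  · have h1 : ram a b p = ee a b p := by unfold ram; rw [if_neg h0]
    have h2 : scl a b p = kk a b p := by unfold scl; rw [if_neg h0]
    rw [expand_congr' h1 (ram_ne a b p) (ee_ne a b p), h2]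
    exact h.dvd_a

lemma Adt.dvd_b (h : Adt a b p) : PowerSeries.X ^ (6 * scl a b p) ∣
    PowerSeries.expand (ram a b p) (ram_ne a b p) (hat p b) := by
  rcases h with h | ⟨h0, h⟩
  · have h1 : ram a b p = 2 := by unfold ram; rw [if_pos h]
    have h2 : scl a b p = 1 := by unfold scl; rw [if_pos h]
    rw [expand_congr' h1 (ram_ne a b p) (by norm_num), h2]
    have h3 := map_dvd (PowerSeries.expand 2 (by norm_num)) h.hat_b
    rw [map_pow, PowerSeries.expand_X, ← pow_mul] at h3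
    exact h3
  · have h1 : ram a b p = ee a b p := by unfold ram; rw [if_neg h0]
    have h2 : scl a b p = kk a b p := by unfold scl; rw [if_neg h0]
    rw [expand_congr' h1 (ram_ne a b p) (ee_ne a b p), h2]
    exact h.dvd_b

/-- the reduced coefficients -/
def aG (a b : Polynomial ℂ) (p : ℂ) : PowerSeries ℂ :=
  sh (4 * scl a b p) (PowerSeries.expand (ram a b p) (ram_ne a b p) (hat p a))

/-- the reduced coefficients -/
def bG (a b : Polynomial ℂ) (p : ℂ) : PowerSeries ℂ :=
  sh (6 * scl a b p) (PowerSeries.expand (ram a b p) (ram_ne a b p) (hat p b))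

lemma Adt.exp_a (h : Adt a b p) : PowerSeries.expand (ram a b p) (ram_ne a b p) (hat p a) =
    PowerSeries.X ^ (4 * scl a b p) * aG a b p := sh_spec h.dvd_a

lemma Adt.exp_b (h : Adt a b p) : PowerSeries.expand (ram a b p) (ram_ne a b p) (hat p b) =
    PowerSeries.X ^ (6 * scl a b p) * bG a b p := sh_spec h.dvd_b

/-- the two local types -/
lemma Adt.type (h : Adt a b p) (hD : disc a b ≠ 0) :
    (lev a b p = 0 ∧ PowerSeries.constantCoeff (Dl (aG a b p) (bG a b p)) ≠ 0) ∨
    (lev a b p = 1 ∧ Dl (aG a b p) (bG a b p) ≠ 0 ∧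
      PowerSeries.constantCoeff (Dl (aG a b p) (bG a b p)) = 0 ∧
      PowerSeries.constantCoeff (aG a b p) ≠ 0) := by
  rcases h with h | ⟨h0, h⟩
  · right
    have hA : Adt a b p := Or.inl h
    have h1 : ram a b p = 2 := by unfold ram; rw [if_pos h]
    have h2 : scl a b p = 1 := by unfold scl; rw [if_pos h]
    have h3 : lev a b p = 1 := by unfold lev; rw [if_pos h]
    have e1 := exp_D hA.exp_a hA.exp_b
    rw [← hat_disc] at e1
    have hne : Dl (aG a b p) (bG a b p) ≠ 0 := by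
      intro h4
      rw [h4, mul_zero] at e1
      exact expand_ne (he := ram_ne a b p) (hat_ne hD p) e1
    refine ⟨h3, hne, ?_, ?_⟩
    · -- the discriminant has a factor of degree seven
      have h5 : PowerSeries.X ^ 7 ∣ hat p (disc a b) := by
        rw [X_pow_dvd_hat]
        have h6 : (Polynomial.X - Polynomial.C p) ^ eu a b p ∣ disc a b := by
          have := Polynomial.pow_rootMultiplicity_dvd (disc a b) p
          unfold eu
          rwa [map_id_c]
        exact (pow_dvd_pow _ h.2.2.2).trans h6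
      have h7 := map_dvd (PowerSeries.expand (ram a b p) (ram_ne a b p)) h5
      rw [e1, map_pow, PowerSeries.expand_X, h1, h2, ← pow_mul] at h7
      have h8 : PowerSeries.X ^ (12 * 1) * PowerSeries.X ^ 2 ∣
          PowerSeries.X ^ (12 * 1) * Dl (aG a b p) (bG a b p) := by
        rw [← pow_add]; exact h7
      have h9 := (mul_dvd_mul_iff_left (pow_ne_zero _ PowerSeries.X_ne_zero)).1 h8
      exact PowerSeries.X_dvd_iff.1 ((dvd_pow_self _ (by norm_num)).trans h9)
    · intro h4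
      apply h.2.2.1
      rw [← X_pow_dvd_hat]
      obtain ⟨ψ, hψ⟩ := h.hat_a
      have h5 := hA.exp_a
      rw [hψ, map_mul, map_pow, PowerSeries.expand_X, ← pow_mul] at h5
      have h6 : PowerSeries.X ^ (ram a b p * 2) = (PowerSeries.X : PowerSeries ℂ) ^
          (4 * scl a b p) := by rw [h1, h2]
      rw [h6] at h5
      have h7 := mul_left_cancel₀ (pow_ne_zero _ PowerSeries.X_ne_zero) h5
      have h8 : PowerSeries.constantCoeff ψ = 0 := by
        rw [← PowerSeries.constantCoeff_expand (ram a b p) (ram_ne a b p) ψ, h7]; exact h4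
      rw [hψ, pow_succ _ 2]
      exact mul_dvd_mul_left _ (PowerSeries.X_dvd_iff.2 h8)
  · left
    have h1 : ram a b p = ee a b p := by unfold ram; rw [if_neg h0]
    have h2 : scl a b p = kk a b p := by unfold scl; rw [if_neg h0]
    have h3 : lev a b p = 0 := by unfold lev; rw [if_neg h0]
    have ha : aG a b p = aP a b p := by
      unfold aG aP
      rw [expand_congr' h1 (ram_ne a b p) (ee_ne a b p), h2]
    have hb : bG a b p = bP a b p := by
      unfold bG bP
      rw [expand_congr' h1 (ram_ne a b p) (ee_ne a b p), h2]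
    rw [ha, hb]
    exact ⟨h3, h.unit hD⟩

/-- the local series -/
def PhiG (a b : Polynomial ℂ) (z : ℂ → ℂ) (p : ℂ) : PowerSeries ℂ :=
  PhiS (aG a b p) (bG a b p)
    (PowerSeries.X ^ scl a b p * PowerSeries.expand (ram a b p) (ram_ne a b p) (Tay z p))

variable {Q P1 P2 : Polynomial ℂ} {z w : ℂ → ℂ}

theorem local_intG (ha : ∀ n, IsAlgebraic ℚ (a.coeff n)) (hb : ∀ n, IsAlgebraic ℚ (b.coeff n))
    (hQa : ∀ n, IsAlgebraic ℚ (Q.coeff n)) (h1a : ∀ n, IsAlgebraic ℚ (P1.coeff n))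
    (h2a : ∀ n, IsAlgebraic ℚ (P2.coeff n)) (hD : disc a b ≠ 0)
    (hQ : Q ≠ 0) (hp : IsAlgebraic ℚ p) (h : Adt a b p) (hs : LocSol a b Q P1 P2 p z w) :
    ∃ M : ℕ, 0 < M ∧ PhiG a b z p ∈ HR (lev a b p + 1) M := by
  obtain ⟨m, hm⟩ := hs.formal
  obtain ⟨W, h1, h2⟩ := hm m le_rfl
  have ga := geo_hat_c ha hp
  have gb := geo_hat_c hb hp
  have gQ := geo_hat_c hQa hp
  have g1 := geo_hat_c h1a hp
  have g2 := geo_hat_c h2a hp
  have gaG : Geo (aG a b p) :=
    Geo.unshift_pow (4 * scl a b p) (by rw [← h.exp_a]; exact ga.expand _ _)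
  have gbG : Geo (bG a b p) :=
    Geo.unshift_pow (6 * scl a b p) (by rw [← h.exp_b]; exact gb.expand _ _)
  have h0 : PowerSeries.constantCoeff (PowerSeries.X ^ scl a b p *
      PowerSeries.expand (ram a b p) (ram_ne a b p) (Tay z p)) = 0 := by
    rw [map_mul, map_pow, PowerSeries.constantCoeff_X, zero_pow h.scl_pos.ne', zero_mul]
  rcases h.type hD with ⟨h3, h4⟩ | ⟨h3, h4, h5, h6⟩
  · rw [h3]
    obtain ⟨M, hM, hloc⟩ := loc_int (e := ram a b p) (he := ram_ne a b p) (k := scl a b p)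
      h.scl_pos h.not_dvd h.exp_a h.exp_b h4 ga gb gQ g1 g2 (hat_ne hQ p) h1 h2
    exact PhiR_HR gaG gbG ⟨M, hM, HS_HR hloc⟩ h0
  · rw [h3]
    have hloc := loc_int2 (e := ram a b p) (he := ram_ne a b p) (k := scl a b p)
      h.scl_pos h.not_dvd h.exp_a h.exp_b h4 h5 h6 ga gb gQ g1 g2 (hat_ne hQ p) h1 h2
    exact PhiR_HR gaG gbG hloc h0

theorem local_conjG (τ : ℂ →+* ℂ) (hD : disc a b ≠ 0) (hQ : Q ≠ 0) (h : Adt a b p)
    {z' w' : ℂ → ℂ} (hs : LocSol a b Q P1 P2 p z w)
    (hs' : LocSol (a.map τ) (b.map τ) (Q.map τ) (P1.map τ) (P2.map τ) (τ p) z' w') :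
    PowerSeries.map τ (PhiG a b z p) = PhiG (a.map τ) (b.map τ) z' (τ p) := by
  have h' : Adt (a.map τ) (b.map τ) (τ p) := (Adt_c τ a b p).2 h
  have hD' : disc (a.map τ) (b.map τ) ≠ 0 := by
    rw [← disc_map_c]; exact (Polynomial.map_ne_zero_iff τ.injective).2 hD
  have hQ' : Q.map τ ≠ 0 := (Polynomial.map_ne_zero_iff τ.injective).2 hQ
  have hT : PowerSeries.map τ (Tay z p) = Tay z' (τ p) := by
    obtain ⟨m₁, hm₁⟩ := hs.formal
    obtain ⟨m₂, hm₂⟩ := hs'.formal
    obtain ⟨W, h1, h2⟩ := hm₁ (max m₁ m₂) (le_max_left _ _)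
    obtain ⟨W', h1', h2'⟩ := hm₂ (max m₁ m₂) (le_max_right _ _)
    have e1 := congrArg (PowerSeries.map τ) h1
    have e2 := congrArg (PowerSeries.map τ) h2
    rw [map_mul, map_mul, map_pow, PowerSeries.map_X, map_L1, hat_map_c τ, hat_map_c τ,
      hat_map_c τ, hat_map_c τ] at e1
    rw [map_mul, map_mul, map_pow, PowerSeries.map_X, map_L2, hat_map_c τ, hat_map_c τ,
      hat_map_c τ, hat_map_c τ] at e2
    rcases h'.type hD' with ⟨h3, h4⟩ | ⟨h3, h4, h5, h6⟩
    · exact loc_unique (he := ram_ne _ _ (τ p)) h'.scl_pos h'.not_dvd h'.exp_a h'.exp_b h4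
        (hat_ne hQ' (τ p)) e1 e2 h1' h2'
    · exact loc_unique2 (he := ram_ne _ _ (τ p)) h'.scl_pos h'.not_dvd h'.exp_a h'.exp_b h4 h5 h6
        (hat_ne hQ' (τ p)) e1 e2 h1' h2'
  unfold PhiG
  rw [PhiS_map, map_mul, map_pow, PowerSeries.map_X, PowerSeries.map_expand, hT]
  have ha : PowerSeries.map τ (aG a b p) = aG (a.map τ) (b.map τ) (τ p) := by
    unfold aG
    rw [sh_map, PowerSeries.map_expand, hat_map_c τ, scl_c τ,
      expand_congr' (ram_c τ a b p) (ram_ne _ _ (τ p)) (ram_ne a b p)]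
  have hb : PowerSeries.map τ (bG a b p) = bG (a.map τ) (b.map τ) (τ p) := by
    unfold bG
    rw [sh_map, PowerSeries.map_expand, hat_map_c τ, scl_c τ,
      expand_congr' (ram_c τ a b p) (ram_ne _ _ (τ p)) (ram_ne a b p)]
  rw [ha, hb, scl_c τ, expand_congr' (ram_c τ a b p) (ram_ne _ _ (τ p)) (ram_ne a b p)]

lemma Adt.zero_a (h : Adt a b p) : Polynomial.aeval p a = (0 : ℂ) := by
  rcases h with h | ⟨_, h⟩
  · have h1 : (Polynomial.X - Polynomial.C p) ∣ a := (dvd_pow_self _ (by norm_num)).trans h.1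
    rw [Polynomial.coe_aeval_eq_eval]
    exact Polynomial.dvd_iff_isRoot.1 h1
  · exact h.zero_a

lemma Adt.zero_b (h : Adt a b p) : Polynomial.aeval p b = (0 : ℂ) := by
  rcases h with h | ⟨_, h⟩
  · have h1 : (Polynomial.X - Polynomial.C p) ∣ b := (dvd_pow_self _ (by norm_num)).trans h.2.1
    rw [Polynomial.coe_aeval_eq_eval]
    exact Polynomial.dvd_iff_isRoot.1 h1
  · exact h.zero_b

end

end

end Pool.Agent.Helper433.ES
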