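import Pool.Agent.Helper433_ES.Tay

/-! The coefficients of the expansion of the inverse of the Weierstrass function of
`y² = x³ + a x + b` at the origin. -/

namespace Pool.Agent.Helper433.ES

open PowerSeries Filter Topology Finset

noncomputable section

section Gen

variable {R : Type*} [CommRing R]

/-- binomial convolution -/
def bconv (x y : ℕ → R) (n : ℕ) : R :=
  ∑ p ∈ antidiagonal n, (n.choose p.1 : R) * x p.1 * y p.2

/-- one step of the recursion -/
def hstep (a b : R) (g : ℕ → R) : ℕ → R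
  | 0 => 0
  | 1 => 0
  | (n + 2) => (if n = 0 then 2 else 0) + 6 * a * bconv g g n + 8 * b * bconv g (bconv g g) n

/-- iterated steps -/
def hit (a b : R) : ℕ → ℕ → R
  | 0 => fun _ => 0
  | (k + 1) => hstep a b (hit a b k)

/-- `n!` times the `n`-th coefficient of `1/℘` -/
def hc (a b : R) (n : ℕ) : R := hit a b (n + 1) n

lemma bconv_congr {x y x' y' : ℕ → R} {n : ℕ} (h : ∀ m ≤ n, x m = x' m)
    (h' : ∀ m ≤ n, y m = y' m) : bconv x y n = bconv x' y' n := by
  unfold bconv
  refine Finset.sum_congr rfl fun p hp => ?_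
  rw [HasAntidiagonal.mem_antidiagonal] at hp
  rw [h p.1 (by omega), h' p.2 (by omega)]

lemma hstep_congr (a b : R) {g g' : ℕ → R} {n : ℕ} (h : ∀ m, m + 2 ≤ n → g m = g' m) :
    hstep a b g n = hstep a b g' n := by
  rcases n with _ | _ | n
  · rfl
  · rfl
  · have h1 : bconv g g n = bconv g' g' n :=
      bconv_congr (fun m hm => h m (by omega)) (fun m hm => h m (by omega))
    have h2 : bconv g (bconv g g) n = bconv g' (bconv g' g') n :=
      bconv_congr (fun m hm => h m (by omega)) fun m hm =>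
        bconv_congr (fun k hk => h k (by omega)) (fun k hk => h k (by omega))
    simp only [hstep, h1, h2]

lemma hit_eq (a b : R) (k n : ℕ) (h : n < k) : hit a b k n = hc a b n := by
  induction n using Nat.strong_induction_on generalizing k with
  | _ n ih =>
    obtain ⟨k, rfl⟩ : ∃ k', k = k' + 1 := ⟨k - 1, by omega⟩
    show hstep a b (hit a b k) n = hstep a b (hit a b n) n
    refine hstep_congr a b fun m hm => ?_
    rw [ih m (by omega) k (by omega), ih m (by omega) n (by omega)]

lemma hc_zero (a b : R) : hc a b 0 = 0 := rfl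

lemma hc_one (a b : R) : hc a b 1 = 0 := rfl

lemma hc_succ (a b : R) (n : ℕ) :
    hc a b (n + 2) = (if n = 0 then 2 else 0) + 6 * a * bconv (hc a b) (hc a b) n +
      8 * b * bconv (hc a b) (bconv (hc a b) (hc a b)) n := by
  show hstep a b (hit a b (n + 2)) (n + 2) = hstep a b (hc a b) (n + 2)
  refine hstep_congr a b fun m hm => ?_
  exact hit_eq a b _ _ (by omega)

lemma hc_map {S : Type*} [CommRing S] (φ : R →+* S) (a b : R) (n : ℕ) :
    φ (hc a b n) = hc (φ a) (φ b) n := by
  induction n using Nat.strong_induction_on with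
  | _ n ih =>
    rcases n with _ | _ | n
    · simp [hc_zero]
    · simp [hc_one]
    · rw [hc_succ, hc_succ]
      have hb : ∀ m ≤ n, φ (bconv (hc a b) (hc a b) m) =
          bconv (hc (φ a) (φ b)) (hc (φ a) (φ b)) m := by
        intro m hm
        unfold bconv
        rw [map_sum]
        refine Finset.sum_congr rfl fun p hp => ?_
        rw [HasAntidiagonal.mem_antidiagonal] at hp
        rw [map_mul, map_mul, map_natCast, ih p.1 (by omega), ih p.2 (by omega)]
      have hb2 : φ (bconv (hc a b) (bconv (hc a b) (hc a b)) n) =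
          bconv (hc (φ a) (φ b)) (bconv (hc (φ a) (φ b)) (hc (φ a) (φ b))) n := by
        rw [bconv, bconv, map_sum]
        refine Finset.sum_congr rfl fun p hp => ?_
        rw [HasAntidiagonal.mem_antidiagonal] at hp
        rw [map_mul, map_mul, map_natCast, ih p.1 (by omega), hb p.2 (by omega)]
      rw [map_add, map_add, map_mul, map_mul, map_mul, map_mul, hb n le_rfl, hb2]
      have : φ (if n = 0 then 2 else 0) = if n = 0 then 2 else 0 := by
        split_ifs
        · exact map_ofNat φ 2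
        · exact map_zero φ
      have h6 : φ 6 = 6 := map_ofNat φ 6
      have h8 : φ 8 = 8 := map_ofNat φ 8
      rw [this, h6, h8]

/-- the coefficients stay in any subring containing `a` and `b` -/
lemma hc_mem (S : Subring R) {a b : R} (ha : a ∈ S) (hb : b ∈ S) (n : ℕ) : hc a b n ∈ S := by
  have := hc_map S.subtype ⟨a, ha⟩ ⟨b, hb⟩ n
  simp only [Subring.coe_subtype] at this
  rw [← this]
  exact SetLike.coe_mem _

/-- homogeneity -/
lemma hc_scale (l a b : R) (n : ℕ) :
    l ^ 2 * hc (l ^ 4 * a) (l ^ 6 * b) n = l ^ n * hc a b n := by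
  induction n using Nat.strong_induction_on with
  | _ n ih =>
    rcases n with _ | _ | n
    · simp [hc_zero]
    · simp [hc_one]
    · rw [hc_succ, hc_succ]
      have hb : ∀ m ≤ n, l ^ 4 * bconv (hc (l ^ 4 * a) (l ^ 6 * b)) (hc (l ^ 4 * a) (l ^ 6 * b)) m =
          l ^ m * bconv (hc a b) (hc a b) m := by
        intro m hm
        unfold bconv
        rw [mul_sum, mul_sum]
        refine Finset.sum_congr rfl fun p hp => ?_
        rw [HasAntidiagonal.mem_antidiagonal] at hp
        have h1 := ih p.1 (by omega)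
        have h2 := ih p.2 (by omega)
        calc l ^ 4 * ((m.choose p.1 : R) * hc (l ^ 4 * a) (l ^ 6 * b) p.1 *
              hc (l ^ 4 * a) (l ^ 6 * b) p.2)
            = (m.choose p.1 : R) * (l ^ 2 * hc (l ^ 4 * a) (l ^ 6 * b) p.1) *
              (l ^ 2 * hc (l ^ 4 * a) (l ^ 6 * b) p.2) := by ring
          _ = _ := by rw [h1, h2, ← hp, pow_add]; ring
      have hb2 : l ^ 6 * bconv (hc (l ^ 4 * a) (l ^ 6 * b))
          (bconv (hc (l ^ 4 * a) (l ^ 6 * b)) (hc (l ^ 4 * a) (l ^ 6 * b))) n =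
          l ^ n * bconv (hc a b) (bconv (hc a b) (hc a b)) n := by
        rw [bconv, bconv, mul_sum, mul_sum]
        refine Finset.sum_congr rfl fun p hp => ?_
        rw [HasAntidiagonal.mem_antidiagonal] at hp
        have h1 := ih p.1 (by omega)
        have h2 := hb p.2 (by omega)
        calc l ^ 6 * ((n.choose p.1 : R) * hc (l ^ 4 * a) (l ^ 6 * b) p.1 *
              bconv (hc (l ^ 4 * a) (l ^ 6 * b)) (hc (l ^ 4 * a) (l ^ 6 * b)) p.2)
            = (n.choose p.1 : R) * (l ^ 2 * hc (l ^ 4 * a) (l ^ 6 * b) p.1) *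
              (l ^ 4 * bconv (hc (l ^ 4 * a) (l ^ 6 * b)) (hc (l ^ 4 * a) (l ^ 6 * b)) p.2) := by
              ring
          _ = _ := by rw [h1, h2, ← hp, pow_add]; ring
      have h3 : l ^ 2 * (if n = 0 then (2 : R) else 0) = l ^ (n + 2) * (if n = 0 then 2 else 0) := by
        split_ifs with h0
        · subst h0; ring
        · simp
      calc l ^ 2 * ((if n = 0 then 2 else 0) + 6 * (l ^ 4 * a) *
            bconv (hc (l ^ 4 * a) (l ^ 6 * b)) (hc (l ^ 4 * a) (l ^ 6 * b)) n +
            8 * (l ^ 6 * b) * bconv (hc (l ^ 4 * a) (l ^ 6 * b))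
              (bconv (hc (l ^ 4 * a) (l ^ 6 * b)) (hc (l ^ 4 * a) (l ^ 6 * b))) n)
          = l ^ 2 * (if n = 0 then (2 : R) else 0) + 6 * a * l ^ 2 * (l ^ 4 *
            bconv (hc (l ^ 4 * a) (l ^ 6 * b)) (hc (l ^ 4 * a) (l ^ 6 * b)) n) +
            8 * b * l ^ 2 * (l ^ 6 * bconv (hc (l ^ 4 * a) (l ^ 6 * b))
              (bconv (hc (l ^ 4 * a) (l ^ 6 * b)) (hc (l ^ 4 * a) (l ^ 6 * b))) n) := by ring
        _ = _ := by rw [hb n le_rfl, hb2, h3]; ring

end Gen

/-- the coefficients of `1/℘` over `ℂ` -/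
def cc (a b : ℂ) (n : ℕ) : ℂ := hc a b n / (n.factorial : ℂ)

lemma cc_zero (a b : ℂ) : cc a b 0 = 0 := by simp [cc, hc_zero]

lemma cc_one (a b : ℂ) : cc a b 1 = 0 := by simp [cc, hc_one]

lemma bconv_div (x y : ℕ → ℂ) (n : ℕ) :
    bconv x y n / (n.factorial : ℂ) =
      ∑ p ∈ antidiagonal n, (x p.1 / (p.1.factorial : ℂ)) * (y p.2 / (p.2.factorial : ℂ)) := by
  unfold bconv
  rw [sum_div]
  refine Finset.sum_congr rfl fun p hp => ?_
  rw [HasAntidiagonal.mem_antidiagonal] at hp
  have h3 : (n.choose p.1 : ℂ) * (p.1.factorial : ℂ) * (p.2.factorial : ℂ) = n.factorial := by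
    have := Nat.choose_mul_factorial_mul_factorial (n := n) (k := p.1) (by omega)
    have h4 : n - p.1 = p.2 := by omega
    rw [h4] at this
    exact_mod_cast this
  have h4 := fac_ne p.1
  have h5 := fac_ne p.2
  have h6 := fac_ne n
  field_simp
  rw [← h3]; ring

/-- convolution square of the coefficients -/
def cc2 (a b : ℂ) (n : ℕ) : ℂ := ∑ p ∈ antidiagonal n, cc a b p.1 * cc a b p.2

/-- convolution cube of the coefficients -/
def cc3 (a b : ℂ) (n : ℕ) : ℂ := ∑ p ∈ antidiagonal n, cc a b p.1 * cc2 a b p.2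

lemma cc_succ (a b : ℂ) (n : ℕ) :
    ((n : ℂ) + 2) * ((n : ℂ) + 1) * cc a b (n + 2) =
      (if n = 0 then 2 else 0) + 6 * a * cc2 a b n + 8 * b * cc3 a b n := by
  have h1 : bconv (hc a b) (hc a b) n / (n.factorial : ℂ) = cc2 a b n := bconv_div _ _ _
  have h2 : bconv (hc a b) (bconv (hc a b) (hc a b)) n / (n.factorial : ℂ) = cc3 a b n := by
    rw [bconv_div]
    refine Finset.sum_congr rfl fun p _ => ?_
    rw [bconv_div]; rfl
  have h6 := fac_ne n
  have h7 : ((n + 2).factorial : ℂ) = ((n : ℂ) + 2) * ((n : ℂ) + 1) * n.factorial := by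
    rw [Nat.factorial_succ, Nat.factorial_succ]; push_cast; ring
  have h8 : ((n : ℂ) + 2) ≠ 0 := by exact_mod_cast Nat.succ_ne_zero (n + 1)
  have h9 : ((n : ℂ) + 1) ≠ 0 := by exact_mod_cast Nat.succ_ne_zero n
  have h10 : (if n = 0 then (2 : ℂ) else 0) * n.factorial = if n = 0 then 2 else 0 := by
    split_ifs with h0
    · subst h0; simp
    · simp
  rw [cc, hc_succ, h7, ← h1, ← h2]
  generalize (if n = 0 then (2 : ℂ) else 0) = δ at h10 ⊢
  generalize bconv (hc a b) (hc a b) n = x at *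
  generalize bconv (hc a b) (bconv (hc a b) (hc a b)) n = y at *
  field_simp
  linear_combination (-1) * h10

lemma cc_norm {a b : ℂ} {l : ℝ} (hl : 0 < l) (ha : ‖a‖ ≤ l ^ 4) (hb : ‖b‖ ≤ l ^ 6) (n : ℕ) :
    l ^ 2 * ‖cc a b n‖ ≤ (3 * l) ^ n := by
  induction n using Nat.strong_induction_on with
  | _ n ih =>
    rcases n with _ | _ | n
    · simp [cc_zero]
    · simp [cc_one]; positivity
    · have h2 : ∀ m ≤ n, l ^ 4 * ‖cc2 a b m‖ ≤ (m + 1) * (3 * l) ^ m := by
        intro m hm
        have : ‖cc2 a b m‖ ≤ ∑ p ∈ antidiagonal m, ‖cc a b p.1‖ * ‖cc a b p.2‖ := by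
          refine (norm_sum_le _ _).trans (Finset.sum_le_sum fun p _ => ?_)
          rw [norm_mul]
        calc l ^ 4 * ‖cc2 a b m‖ ≤ l ^ 4 * ∑ p ∈ antidiagonal m, ‖cc a b p.1‖ * ‖cc a b p.2‖ := by
              gcongr
          _ = ∑ p ∈ antidiagonal m, (l ^ 2 * ‖cc a b p.1‖) * (l ^ 2 * ‖cc a b p.2‖) := by
              rw [mul_sum]; refine Finset.sum_congr rfl fun p _ => by ring
          _ ≤ ∑ p ∈ antidiagonal m, (3 * l) ^ m := by
              refine Finset.sum_le_sum fun p hp => ?_
              rw [HasAntidiagonal.mem_antidiagonal] at hp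
              rw [← hp, pow_add]
              have := ih p.1 (by omega)
              have := ih p.2 (by omega)
              gcongr
          _ = (m + 1) * (3 * l) ^ m := by simp
      have h3 : l ^ 6 * ‖cc3 a b n‖ ≤ (n + 1) * (n + 1) * (3 * l) ^ n := by
        have : ‖cc3 a b n‖ ≤ ∑ p ∈ antidiagonal n, ‖cc a b p.1‖ * ‖cc2 a b p.2‖ := by
          refine (norm_sum_le _ _).trans (Finset.sum_le_sum fun p _ => ?_)
          rw [norm_mul]
        calc l ^ 6 * ‖cc3 a b n‖ ≤ l ^ 6 * ∑ p ∈ antidiagonal n, ‖cc a b p.1‖ * ‖cc2 a b p.2‖ := by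
              gcongr
          _ = ∑ p ∈ antidiagonal n, (l ^ 2 * ‖cc a b p.1‖) * (l ^ 4 * ‖cc2 a b p.2‖) := by
              rw [mul_sum]; refine Finset.sum_congr rfl fun p _ => by ring
          _ ≤ ∑ p ∈ antidiagonal n, (n + 1) * (3 * l) ^ n := by
              refine Finset.sum_le_sum fun p hp => ?_
              rw [HasAntidiagonal.mem_antidiagonal] at hp
              have h1 := ih p.1 (by omega)
              have h2' := h2 p.2 (by omega)
              have h4 : ((p.2 : ℝ) + 1) ≤ n + 1 := by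
                have : (p.2 : ℝ) ≤ n := by exact_mod_cast (by omega : p.2 ≤ n)
                linarith
              calc (l ^ 2 * ‖cc a b p.1‖) * (l ^ 4 * ‖cc2 a b p.2‖)
                  ≤ (3 * l) ^ p.1 * (((p.2 : ℝ) + 1) * (3 * l) ^ p.2) := by gcongr
                _ = ((p.2 : ℝ) + 1) * (3 * l) ^ n := by rw [← hp, pow_add]; ring
                _ ≤ (n + 1) * (3 * l) ^ n := by gcongr
          _ = (n + 1) * (n + 1) * (3 * l) ^ n := by simp; ring
      have h4 := congrArg norm (cc_succ a b n)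
      rw [norm_mul, norm_mul] at h4
      have h5 : ‖((n : ℂ) + 2)‖ = (n : ℝ) + 2 := by
        have : ((n : ℂ) + 2) = ((n + 2 : ℕ) : ℂ) := by push_cast; ring
        rw [this, Complex.norm_natCast]; push_cast; ring
      have h6 : ‖((n : ℂ) + 1)‖ = (n : ℝ) + 1 := by
        have : ((n : ℂ) + 1) = ((n + 1 : ℕ) : ℂ) := by push_cast; ring
        rw [this, Complex.norm_natCast]; push_cast; ring
      rw [h5, h6] at h4
      have h7 : ‖(if n = 0 then (2 : ℂ) else 0) + 6 * a * cc2 a b n + 8 * b * cc3 a b n‖ ≤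
          (if n = 0 then 2 else 0) + 6 * l ^ 4 * ‖cc2 a b n‖ + 8 * l ^ 6 * ‖cc3 a b n‖ := by
        refine (norm_add_le _ _).trans (add_le_add ((norm_add_le _ _).trans (add_le_add ?_ ?_)) ?_)
        · split_ifs <;> simp
        · rw [norm_mul, norm_mul]
          have : ‖(6 : ℂ)‖ = 6 := by simp
          rw [this]; gcongr
        · rw [norm_mul, norm_mul]
          have : ‖(8 : ℂ)‖ = 8 := by simp
          rw [this]; gcongr
      have h2n := h2 n le_rfl
      have hpos : (0 : ℝ) < (3 * l) ^ n := by positivity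
      have h8 : ((n : ℝ) + 2) * ((n : ℝ) + 1) * ‖cc a b (n + 2)‖ ≤
          (if n = 0 then 2 else 0) + 6 * (((n : ℝ) + 1) * (3 * l) ^ n) +
            8 * (((n : ℝ) + 1) * ((n : ℝ) + 1) * (3 * l) ^ n) := by
        rw [h4]; refine h7.trans ?_
        nlinarith
      have h9 : (if n = 0 then (2 : ℝ) else 0) + 6 * (((n : ℝ) + 1) * (3 * l) ^ n) +
            8 * (((n : ℝ) + 1) * ((n : ℝ) + 1) * (3 * l) ^ n) ≤
          ((n : ℝ) + 2) * ((n : ℝ) + 1) * (9 * (3 * l) ^ n) := by
        rcases Nat.eq_zero_or_pos n with h0 | h0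
        · subst h0; norm_num
        · rw [if_neg (by omega)]
          have h0' : (1 : ℝ) ≤ n := by exact_mod_cast h0
          have : 6 * ((n : ℝ) + 1) + 8 * (((n : ℝ) + 1) * ((n : ℝ) + 1)) ≤
            9 * (((n : ℝ) + 2) * ((n : ℝ) + 1)) := by nlinarith
          nlinarith [mul_le_mul_of_nonneg_right this hpos.le]
      have h10 : 0 < ((n : ℝ) + 2) * ((n : ℝ) + 1) := by positivity
      have h11 : ‖cc a b (n + 2)‖ ≤ 9 * (3 * l) ^ n := by
        refine le_of_mul_le_mul_left ?_ h10
        exact h8.trans h9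
      calc l ^ 2 * ‖cc a b (n + 2)‖ ≤ l ^ 2 * (9 * (3 * l) ^ n) := by gcongr
        _ = (3 * l) ^ (n + 2) := by ring

end

end Pool.Agent.Helper433.ES
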