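import Pool.Agent.Helper433_ES.Fn

/-! Duplication of the local functions. -/

namespace Pool.Agent.Helper433.ES

open PowerSeries Filter Topology Finset

noncomputable section

variable {l : ℝ} {a b : ℂ}

lemma exists_l (a b : ℂ) : ∃ l : ℝ, 0 < l ∧ ‖a‖ ≤ l ^ 4 ∧ ‖b‖ ≤ l ^ 6 := by
  refine ⟨1 + ‖a‖ + ‖b‖, by positivity, ?_, ?_⟩
  · have h1 : (1 : ℝ) ≤ 1 + ‖a‖ + ‖b‖ := by linarith [norm_nonneg a, norm_nonneg b]
    calc ‖a‖ ≤ (1 + ‖a‖ + ‖b‖) ^ 1 := by linarith [norm_nonneg a, norm_nonneg b]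
      _ ≤ _ := pow_le_pow_right₀ h1 (by norm_num)
  · have h1 : (1 : ℝ) ≤ 1 + ‖a‖ + ‖b‖ := by linarith [norm_nonneg a, norm_nonneg b]
    calc ‖b‖ ≤ (1 + ‖a‖ + ‖b‖) ^ 1 := by linarith [norm_nonneg a, norm_nonneg b]
      _ ≤ _ := pow_le_pow_right₀ h1 (by norm_num)

lemma eventually_reg (hl : 0 < l) (ha : ‖a‖ ≤ l ^ 4) (hb : ‖b‖ ≤ l ^ 6) :
    ∀ᶠ z in 𝓝 (0 : ℂ), Reg l z a b := by
  have h1 : ∀ᶠ z in 𝓝 (0 : ℂ), 6 * l * ‖z‖ < 1 := by
    have : Continuous fun z : ℂ => 6 * l * ‖z‖ := by fun_prop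
    exact this.continuousAt.eventually_lt continuousAt_const (by simp)
  filter_upwards [h1] with z hz
  exact ⟨hl, ha, hb, hz⟩

lemma F_taylor (a b : ℂ) : AnalyticAt ℂ (fun z => F z a b) 0 ∧
    Tay (fun z => F z a b) 0 = PowerSeries.mk (cc a b) := by
  obtain ⟨l, hl, ha, hb⟩ := exists_l a b
  refine Tay_of_hasSum ?_
  filter_upwards [eventually_reg hl ha hb] with z hz
  rw [zero_add]
  exact (F_summable hz).hasSum

lemma H_taylor (a b : ℂ) : AnalyticAt ℂ (fun z => Hf z a b) 0 ∧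
    Tay (fun z => Hf z a b) 0 = PowerSeries.mk (ch a b) := by
  obtain ⟨l, hl, ha, hb⟩ := exists_l a b
  refine Tay_of_hasSum ?_
  filter_upwards [eventually_reg hl ha hb] with z hz
  rw [zero_add]
  exact (H_summable hz).hasSum

lemma F_zero (a b : ℂ) : F 0 a b = 0 := by
  have h1 := constantCoeff_Tay (fun z => F z a b) 0
  rw [(F_taylor a b).2, ← coeff_zero_eq_constantCoeff_apply, coeff_mk, cc_zero] at h1
  exact h1.symm

lemma H_zero (a b : ℂ) : Hf 0 a b = 0 := by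
  have h1 := constantCoeff_Tay (fun z => Hf z a b) 0
  rw [(H_taylor a b).2, ← coeff_zero_eq_constantCoeff_apply, coeff_mk] at h1
  exact h1.symm

lemma A0_zero (a b : ℂ) : A0 0 a b = 1 := by rw [A0, H_zero, Complex.exp_zero]

lemma B0_zero (a b : ℂ) : B0 0 a b = 0 := by rw [B0, F_zero, mul_zero]

/-- the Taylor series of `F` -/
def phi (a b : ℂ) : ℂ⟦X⟧ := PowerSeries.mk (cc a b)

lemma phi_sq (a b : ℂ) (n : ℕ) : coeff n (phi a b ^ 2) = cc2 a b n := by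
  rw [pow_two, PowerSeries.coeff_mul]; simp [phi, cc2]

lemma phi_cube (a b : ℂ) (n : ℕ) : coeff n (phi a b ^ 3) = cc3 a b n := by
  have : phi a b ^ 3 = phi a b * phi a b ^ 2 := by ring
  rw [this, PowerSeries.coeff_mul]
  refine Finset.sum_congr rfl fun p _ => ?_
  rw [phi_sq]; simp [phi]

lemma phi_zero (a b : ℂ) : constantCoeff (phi a b) = 0 := by
  rw [← coeff_zero_eq_constantCoeff_apply]; simp [phi, cc_zero]

lemma phi_one (a b : ℂ) : constantCoeff (d⁄dX ℂ (phi a b)) = 0 := by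
  rw [← coeff_zero_eq_constantCoeff_apply, PowerSeries.coeff_derivative]; simp [phi, cc_one]

lemma phi_ode (a b : ℂ) :
    d⁄dX ℂ (d⁄dX ℂ (phi a b)) = 2 + 6 * C a * phi a b ^ 2 + 8 * C b * phi a b ^ 3 := by
  ext n
  rw [PowerSeries.coeff_derivative, PowerSeries.coeff_derivative, map_add, map_add]
  have h1 : (6 : ℂ⟦X⟧) * C a * phi a b ^ 2 = C (6 * a) * phi a b ^ 2 := by
    rw [map_mul, map_ofNat]
  have h2 : (8 : ℂ⟦X⟧) * C b * phi a b ^ 3 = C (8 * b) * phi a b ^ 3 := by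
    rw [map_mul, map_ofNat]
  have h3 : (2 : ℂ⟦X⟧) = C 2 := (map_ofNat C 2).symm
  rw [h1, h2, h3, PowerSeries.coeff_C_mul, PowerSeries.coeff_C_mul, phi_sq, phi_cube,
    PowerSeries.coeff_C, ← cc_succ]
  simp only [phi, coeff_mk]
  push_cast; ring

/-- the Taylor series of the derivative of `Hf` -/
def etaS (a b : ℂ) : ℂ⟦X⟧ := d⁄dX ℂ (PowerSeries.mk (ch a b))

lemma eta_zero (a b : ℂ) : constantCoeff (etaS a b) = 0 := by
  rw [← coeff_zero_eq_constantCoeff_apply, etaS, PowerSeries.coeff_derivative]; simp [ch]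

lemma eta_ode (a b : ℂ) :
    d⁄dX ℂ (etaS a b) = -2 * C a * phi a b - 4 * C b * phi a b ^ 2 := by
  ext n
  have h1 : (-2 : ℂ⟦X⟧) * C a * phi a b = C (-2 * a) * phi a b := by
    rw [map_mul, map_neg, map_ofNat]
  have h2 : (4 : ℂ⟦X⟧) * C b * phi a b ^ 2 = C (4 * b) * phi a b ^ 2 := by
    rw [map_mul, map_ofNat]
  rw [etaS, PowerSeries.coeff_derivative, PowerSeries.coeff_derivative, map_sub, h1, h2,
    PowerSeries.coeff_C_mul, PowerSeries.coeff_C_mul, phi_sq, coeff_mk]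
  simp only [phi, coeff_mk, ch]
  have h8 : ((n : ℂ) + 2) ≠ 0 := by exact_mod_cast Nat.succ_ne_zero (n + 1)
  have h9 : ((n : ℂ) + 1) ≠ 0 := by exact_mod_cast Nat.succ_ne_zero n
  push_cast
  have h10 : ((n : ℂ) + 1 + 1) = n + 2 := by ring
  rw [h10]
  field_simp

lemma A0_analytic (a b : ℂ) : AnalyticAt ℂ (fun z => A0 z a b) 0 := (H_taylor a b).1.cexp

/-- the Taylor series of `A0` -/
def alphaS (a b : ℂ) : ℂ⟦X⟧ := Tay (fun z => A0 z a b) 0

lemma alpha_zero (a b : ℂ) : constantCoeff (alphaS a b) = 1 := by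
  rw [alphaS, constantCoeff_Tay, A0_zero]

lemma alpha_ode (a b : ℂ) : d⁄dX ℂ (alphaS a b) = etaS a b * alphaS a b := by
  rw [alphaS, ← Tay_deriv, etaS, ← (H_taylor a b).2, ← Tay_deriv,
    ← Tay_mul (H_taylor a b).1.deriv (A0_analytic a b)]
  refine Tay_congr ?_
  filter_upwards [(H_taylor a b).1.eventually_analyticAt] with z hz
  have h1 : HasDerivAt (fun z => A0 z a b) (A0 z a b * deriv (fun z => Hf z a b) z) z :=
    hz.differentiableAt.hasDerivAt.cexp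
  rw [h1.deriv]; ring

/-- denominator of the duplication formula -/
def DDf (a b x : ℂ) : ℂ := 1 - 2 * a * x ^ 2 - 8 * b * x ^ 3 + a ^ 2 * x ^ 4

/-- numerator of the duplication formula -/
def NNf (a b x : ℂ) : ℂ := 4 * (x + a * x ^ 3 + b * x ^ 4)

lemma Tay_DDf (a b : ℂ) {f : ℂ → ℂ} {p : ℂ} (hf : AnalyticAt ℂ f p) :
    Tay (fun z => DDf a b (f z)) p = DD (C a) (C b) (Tay f p) := by
  have h2 := hf.pow 2
  have h3 := hf.pow 3
  have h4 := hf.pow 4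
  have e1 : Tay (fun z => 2 * a * f z ^ 2) p = C (2 * a) * Tay f p ^ 2 := by
    rw [Tay_const_mul (f := fun z => f z ^ 2) _ h2, Tay_pow hf]
  have e2 : Tay (fun z => 8 * b * f z ^ 3) p = C (8 * b) * Tay f p ^ 3 := by
    rw [Tay_const_mul (f := fun z => f z ^ 3) _ h3, Tay_pow hf]
  have e3 : Tay (fun z => a ^ 2 * f z ^ 4) p = C (a ^ 2) * Tay f p ^ 4 := by
    rw [Tay_const_mul (f := fun z => f z ^ 4) _ h4, Tay_pow hf]
  have a1 : AnalyticAt ℂ (fun z => 2 * a * f z ^ 2) p := analyticAt_const.mul h2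
  have a2 : AnalyticAt ℂ (fun z => 8 * b * f z ^ 3) p := analyticAt_const.mul h3
  have a3 : AnalyticAt ℂ (fun z => a ^ 2 * f z ^ 4) p := analyticAt_const.mul h4
  have a0 : AnalyticAt ℂ (fun _ : ℂ => (1 : ℂ)) p := analyticAt_const
  unfold DDf
  rw [Tay_add (f := fun z => 1 - 2 * a * f z ^ 2 - 8 * b * f z ^ 3)
    (g := fun z => a ^ 2 * f z ^ 4) ((a0.sub a1).sub a2) a3,
    Tay_sub (f := fun z => 1 - 2 * a * f z ^ 2) (g := fun z => 8 * b * f z ^ 3) (a0.sub a1) a2,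
    Tay_sub (f := fun _ => 1) a0 a1, Tay_const, e1, e2, e3]
  simp only [DD, map_mul, map_pow, map_ofNat, map_one]

lemma Tay_NNf (a b : ℂ) {f : ℂ → ℂ} {p : ℂ} (hf : AnalyticAt ℂ f p) :
    Tay (fun z => NNf a b (f z)) p = NN (C a) (C b) (Tay f p) := by
  have h3 := hf.pow 3
  have h4 := hf.pow 4
  have e2 : Tay (fun z => a * f z ^ 3) p = C a * Tay f p ^ 3 := by
    rw [Tay_const_mul (f := fun z => f z ^ 3) _ h3, Tay_pow hf]
  have e3 : Tay (fun z => b * f z ^ 4) p = C b * Tay f p ^ 4 := by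
    rw [Tay_const_mul (f := fun z => f z ^ 4) _ h4, Tay_pow hf]
  have a2 : AnalyticAt ℂ (fun z => a * f z ^ 3) p := analyticAt_const.mul h3
  have a3 : AnalyticAt ℂ (fun z => b * f z ^ 4) p := analyticAt_const.mul h4
  unfold NNf
  rw [Tay_const_mul (f := fun z => f z + a * f z ^ 3 + b * f z ^ 4) _ ((hf.add a2).add a3),
    Tay_add (f := fun z => f z + a * f z ^ 3) (g := fun z => b * f z ^ 4) (hf.add a2) a3,
    Tay_add hf a2, e2, e3]
  simp only [NN, map_ofNat]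

lemma DDf_analytic (a b : ℂ) {f : ℂ → ℂ} {p : ℂ} (hf : AnalyticAt ℂ f p) :
    AnalyticAt ℂ (fun z => DDf a b (f z)) p := by
  unfold DDf; fun_prop

lemma NNf_analytic (a b : ℂ) {f : ℂ → ℂ} {p : ℂ} (hf : AnalyticAt ℂ f p) :
    AnalyticAt ℂ (fun z => NNf a b (f z)) p := by
  unfold NNf; fun_prop

/-- analyticity on the ball of convergence -/
lemma F_analyticOn (hl : 0 < l) (ha : ‖a‖ ≤ l ^ 4) (hb : ‖b‖ ≤ l ^ 6) :
    AnalyticOnNhd ℂ (fun z => F z a b) {z | 6 * l * ‖z‖ < 1} := by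
  have hO : IsOpen {z : ℂ | 6 * l * ‖z‖ < 1} :=
    isOpen_lt (by fun_prop) continuous_const
  exact (F_diff (l := l) hO differentiableOn_id (differentiableOn_const a)
    (differentiableOn_const b) fun s hs => ⟨hl, ha, hb, hs⟩).analyticOnNhd hO

lemma A0_analyticOn (hl : 0 < l) (ha : ‖a‖ ≤ l ^ 4) (hb : ‖b‖ ≤ l ^ 6) :
    AnalyticOnNhd ℂ (fun z => A0 z a b) {z | 6 * l * ‖z‖ < 1} := by
  have hO : IsOpen {z : ℂ | 6 * l * ‖z‖ < 1} :=
    isOpen_lt (by fun_prop) continuous_const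
  exact (A0_diff (l := l) hO differentiableOn_id (differentiableOn_const a)
    (differentiableOn_const b) fun s hs => ⟨hl, ha, hb, hs⟩).analyticOnNhd hO

lemma eq_on_small {f g : ℂ → ℂ} (hl : 0 < l)
    (hf : AnalyticOnNhd ℂ f {z | 12 * l * ‖z‖ < 1}) (hg : AnalyticOnNhd ℂ g {z | 12 * l * ‖z‖ < 1})
    (h : Tay f 0 = Tay g 0) : ∀ z, 12 * l * ‖z‖ < 1 → f z = g z := by
  have h0 : (0 : ℂ) ∈ {z : ℂ | 12 * l * ‖z‖ < 1} := by simp
  have hball : {z : ℂ | 12 * l * ‖z‖ < 1} = Metric.ball 0 (1 / (12 * l)) := by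
    ext z
    simp only [Set.mem_ofPred_eq, mem_ball_zero_iff]
    rw [lt_div_iff₀ (by positivity)]
    constructor <;> intro h <;> linarith
  have hpre : IsPreconnected {z : ℂ | 12 * l * ‖z‖ < 1} := by
    rw [hball]; exact (convex_ball _ _).isPreconnected
  have h1 := hf.eqOn_of_preconnected_of_eventuallyEq hg hpre h0
    (Tay_inj (hf 0 h0) (hg 0 h0) h)
  exact fun z hz => h1 hz

lemma F_dup (hl : 0 < l) (ha : ‖a‖ ≤ l ^ 4) (hb : ‖b‖ ≤ l ^ 6) {z : ℂ}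
    (hz : 12 * l * ‖z‖ < 1) : F (2 * z) a b * DDf a b (F z a b) = NNf a b (F z a b) := by
  have hF : ∀ w, 12 * l * ‖w‖ < 1 → AnalyticAt ℂ (fun z => F z a b) w := fun w hw =>
    F_analyticOn hl ha hb w (by
      show 6 * l * ‖w‖ < 1
      nlinarith [norm_nonneg w, mul_nonneg hl.le (norm_nonneg w)])
  have hF2 : ∀ w, 12 * l * ‖w‖ < 1 → AnalyticAt ℂ (fun z => F (2 * z) a b) w := fun w hw => by
    have h1 : AnalyticAt ℂ (fun z => F z a b) (2 * w) := F_analyticOn hl ha hb (2 * w) (by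
      show 6 * l * ‖2 * w‖ < 1
      rw [norm_mul, Complex.norm_ofNat]; linarith)
    exact h1.comp_of_eq (by fun_prop) rfl
  refine eq_on_small (f := fun z => F (2 * z) a b * DDf a b (F z a b))
    (g := fun z => NNf a b (F z a b)) hl
    (fun w hw => (hF2 w hw).mul (DDf_analytic a b (hF w hw)))
    (fun w hw => NNf_analytic a b (hF w hw)) ?_ z hz
  have hF0 : AnalyticAt ℂ (fun z => F z a b) 0 := (F_taylor a b).1
  have h20 : AnalyticAt ℂ (fun z => F (2 * z) a b) 0 := hF2 0 (by simp)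
  rw [Tay_mul h20 (DDf_analytic a b hF0), Tay_DDf a b hF0, Tay_NNf a b hF0,
    Tay_comp_mul 2 hF0, (F_taylor a b).2]
  exact dup_phi (phi_zero a b) (phi_one a b) (phi_ode a b)

lemma A0_dup (hl : 0 < l) (ha : ‖a‖ ≤ l ^ 4) (hb : ‖b‖ ≤ l ^ 6) {z : ℂ}
    (hz : 12 * l * ‖z‖ < 1) : A0 (2 * z) a b = A0 z a b ^ 4 * DDf a b (F z a b) := by
  have hF : ∀ w, 12 * l * ‖w‖ < 1 → AnalyticAt ℂ (fun z => F z a b) w := fun w hw =>
    F_analyticOn hl ha hb w (by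
      show 6 * l * ‖w‖ < 1
      nlinarith [norm_nonneg w, mul_nonneg hl.le (norm_nonneg w)])
  have hA : ∀ w, 12 * l * ‖w‖ < 1 → AnalyticAt ℂ (fun z => A0 z a b) w := fun w hw =>
    A0_analyticOn hl ha hb w (by
      show 6 * l * ‖w‖ < 1
      nlinarith [norm_nonneg w, mul_nonneg hl.le (norm_nonneg w)])
  have hA2 : ∀ w, 12 * l * ‖w‖ < 1 → AnalyticAt ℂ (fun z => A0 (2 * z) a b) w := fun w hw => by
    have h1 : AnalyticAt ℂ (fun z => A0 z a b) (2 * w) := A0_analyticOn hl ha hb (2 * w) (by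
      show 6 * l * ‖2 * w‖ < 1
      rw [norm_mul, Complex.norm_ofNat]; linarith)
    exact h1.comp_of_eq (by fun_prop) rfl
  refine eq_on_small (f := fun z => A0 (2 * z) a b)
    (g := fun z => A0 z a b ^ 4 * DDf a b (F z a b)) hl
    (fun w hw => hA2 w hw)
    (fun w hw => ((hA w hw).pow 4).mul (DDf_analytic a b (hF w hw))) ?_ z hz
  have hF0 : AnalyticAt ℂ (fun z => F z a b) 0 := (F_taylor a b).1
  have hA0 := A0_analytic a b
  rw [Tay_comp_mul 2 hA0, Tay_mul (f := fun z => A0 z a b ^ 4) (hA0.pow 4)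
    (DDf_analytic a b hF0), Tay_DDf a b hF0, Tay_pow hA0, (F_taylor a b).2]
  exact dup_alpha (phi_zero a b) (phi_one a b) (phi_ode a b) (eta_zero a b) (eta_ode a b)
    (alpha_zero a b) (alpha_ode a b)

/-- the duplication map on pairs -/
def Phi (a b : ℂ) (p : ℂ × ℂ) : ℂ × ℂ :=
  (p.1 ^ 4 - 2 * a * p.1 ^ 2 * p.2 ^ 2 - 8 * b * p.1 * p.2 ^ 3 + a ^ 2 * p.2 ^ 4,
    4 * (p.1 ^ 3 * p.2 + a * p.1 * p.2 ^ 3 + b * p.2 ^ 4))

lemma AB0_dup (hl : 0 < l) (ha : ‖a‖ ≤ l ^ 4) (hb : ‖b‖ ≤ l ^ 6) {z : ℂ}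
    (hz : 12 * l * ‖z‖ < 1) :
    (A0 (2 * z) a b, B0 (2 * z) a b) = Phi a b (A0 z a b, B0 z a b) := by
  have h1 := F_dup hl ha hb hz
  have h2 := A0_dup hl ha hb hz
  have h3 : A0 (2 * z) a b = A0 z a b ^ 4 * DDf a b (F z a b) := h2
  have h4 : B0 (2 * z) a b = A0 z a b ^ 4 * NNf a b (F z a b) := by
    rw [B0, h3, ← h1]; ring
  rw [h3, h4, Phi]
  simp only [B0, DDf, NNf]
  ext
  · simp only; ring
  · simp only; ring

end

end Pool.Agent.Helper433.ES
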