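import Pool.Agent.Helper433_ES.Hur
import Pool.Agent.Helper433_ES.Dup

/-! Taylor series of the composite function. -/

namespace Pool.Agent.Helper433.ES

open PowerSeries Filter Topology Finset

noncomputable section

/-- functions analytic at `p` -/
def AnR (p : ℂ) : Subring (ℂ → ℂ) where
  carrier := {f | AnalyticAt ℂ f p}
  mul_mem' := fun hf hg => AnalyticAt.mul hf hg
  one_mem' := analyticAt_const
  add_mem' := fun hf hg => AnalyticAt.add hf hg
  zero_mem' := analyticAt_const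
  neg_mem' := fun hf => AnalyticAt.neg hf

/-- the Taylor homomorphism -/
def TayH (p : ℂ) : AnR p →+* ℂ⟦X⟧ where
  toFun f := Tay f.1 p
  map_one' := by
    have : Tay (fun _ => (1 : ℂ)) p = 1 := by rw [Tay_const, map_one]
    exact this
  map_mul' := fun f g => Tay_mul f.2 g.2
  map_zero' := by
    have : Tay (fun _ => (0 : ℂ)) p = 0 := by rw [Tay_const, map_zero]
    exact this
  map_add' := fun f g => Tay_add f.2 g.2

lemma Tay_hc {a b : ℂ → ℂ} {p : ℂ} (ha : AnalyticAt ℂ a p) (hb : AnalyticAt ℂ b p) (n : ℕ) :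
    AnalyticAt ℂ (fun s => hc (a s) (b s) n) p ∧
      Tay (fun s => hc (a s) (b s) n) p = hc (Tay a p) (Tay b p) n := by
  let A : AnR p := ⟨a, ha⟩
  let B : AnR p := ⟨b, hb⟩
  have h1 := hc_map (TayH p) A B n
  have h2 := hc_map (AnR p).subtype A B n
  have h3 : ((hc A B n : AnR p) : ℂ → ℂ) = fun s => hc (a s) (b s) n := by
    have h4 : ((hc A B n : AnR p) : ℂ → ℂ) = hc a b n := h2
    rw [h4]
    ext s
    exact hc_map (Pi.evalRingHom (fun _ : ℂ => ℂ) s) a b n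
  constructor
  · rw [← h3]; exact (hc A B n).2
  · rw [← h3]; exact h1

lemma Tay_cc {a b : ℂ → ℂ} {p : ℂ} (ha : AnalyticAt ℂ a p) (hb : AnalyticAt ℂ b p) (n : ℕ) :
    AnalyticAt ℂ (fun s => cc (a s) (b s) n) p ∧
      Tay (fun s => cc (a s) (b s) n) p =
        PowerSeries.C ((n.factorial : ℂ)⁻¹) * hc (Tay a p) (Tay b p) n := by
  obtain ⟨h1, h2⟩ := Tay_hc ha hb n
  have h3 : (fun s => cc (a s) (b s) n) = fun s => (n.factorial : ℂ)⁻¹ * hc (a s) (b s) n := by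
    ext s; rw [cc]; ring
  rw [h3]
  exact ⟨analyticAt_const.mul h1, by rw [Tay_const_mul _ h1, h2]⟩

/-- homogeneity of `F` -/
lemma F_scale (l z a b : ℂ) : l ^ 2 * F z (l ^ 4 * a) (l ^ 6 * b) = F (l * z) a b := by
  unfold F
  rw [← tsum_mul_left]
  congr 1
  ext n
  have h := hc_scale l a b n
  unfold cc
  rw [mul_pow]
  calc l ^ 2 * (z ^ n * (hc (l ^ 4 * a) (l ^ 6 * b) n / (n.factorial : ℂ)))
      = z ^ n * (l ^ 2 * hc (l ^ 4 * a) (l ^ 6 * b) n) / (n.factorial : ℂ) := by ring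
    _ = _ := by rw [h]; ring

lemma F_comp_taylor {z a b : ℂ → ℂ} {p : ℂ} (hz : AnalyticAt ℂ z p) (ha : AnalyticAt ℂ a p)
    (hb : AnalyticAt ℂ b p) (h0 : z p = 0) :
    AnalyticAt ℂ (fun u => F (z u) (a u) (b u)) p ∧
      Tay (fun u => F (z u) (a u) (b u)) p = PhiS (Tay a p) (Tay b p) (Tay z p) := by
  obtain ⟨l, hl, hla, hlb⟩ : ∃ l : ℝ, 0 < l ∧ ‖a p‖ < l ^ 4 ∧ ‖b p‖ < l ^ 6 := by
    obtain ⟨l, hl, h1, h2⟩ := exists_l (a p) (b p)
    exact ⟨l + 1, by linarith, lt_of_le_of_lt h1 (by gcongr; linarith),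
      lt_of_le_of_lt h2 (by gcongr; linarith)⟩
  have e1 : ∀ᶠ u in 𝓝 p, ‖a u‖ < l ^ 4 :=
    (ha.continuousAt.norm).eventually_lt continuousAt_const hla
  have e2 : ∀ᶠ u in 𝓝 p, ‖b u‖ < l ^ 6 :=
    (hb.continuousAt.norm).eventually_lt continuousAt_const hlb
  have e3 : ∀ᶠ u in 𝓝 p, 6 * l * ‖z u‖ < 1 :=
    (continuousAt_const.mul hz.continuousAt.norm).eventually_lt continuousAt_const (by
      show 6 * l * ‖z p‖ < 1
      rw [h0]; simp)
  have e4 := hz.eventually_analyticAt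
  have e5 := ha.eventually_analyticAt
  have e6 := hb.eventually_analyticAt
  obtain ⟨U, hU, hUo, hpU⟩ := eventually_nhds_iff.1 (e1.and (e2.and (e3.and (e4.and (e5.and e6)))))
  have hreg : ∀ s ∈ U, Reg l (z s) (a s) (b s) := fun s hs =>
    ⟨hl, (hU s hs).1.le, (hU s hs).2.1.le, (hU s hs).2.2.1⟩
  have dz : DifferentiableOn ℂ z U := fun s hs =>
    (hU s hs).2.2.2.1.differentiableAt.differentiableWithinAt
  have da : DifferentiableOn ℂ a U := fun s hs =>
    (hU s hs).2.2.2.2.1.differentiableAt.differentiableWithinAt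
  have db : DifferentiableOn ℂ b U := fun s hs =>
    (hU s hs).2.2.2.2.2.differentiableAt.differentiableWithinAt
  have hFd := F_diff hUo dz da db hreg
  have hFan : AnalyticAt ℂ (fun u => F (z u) (a u) (b u)) p := hFd.analyticAt (hUo.mem_nhds hpU)
  refine ⟨hFan, ?_⟩
  ext m
  -- the tail
  set G : ℂ → ℂ := fun u => ∑' j, z u ^ j * cc (a u) (b u) (j + (m + 1)) with hG
  have hGterm : ∀ (j : ℕ) (s : ℂ), s ∈ U → ‖z s ^ j * cc (a s) (b s) (j + (m + 1))‖ ≤
      ((3 * l) ^ (m + 1) * (l ^ 2)⁻¹) * (1 / 2) ^ j := by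
    intro j s hs
    have h := hreg s hs
    have h1 := cc_norm h.pos h.ha h.hb (j + (m + 1))
    rw [norm_mul, norm_pow]
    have h2 : ‖cc (a s) (b s) (j + (m + 1))‖ ≤ (3 * l) ^ (j + (m + 1)) * (l ^ 2)⁻¹ := by
      rw [← div_eq_mul_inv, le_div_iff₀ (by positivity)]; linarith
    calc ‖z s‖ ^ j * ‖cc (a s) (b s) (j + (m + 1))‖
        ≤ ‖z s‖ ^ j * ((3 * l) ^ (j + (m + 1)) * (l ^ 2)⁻¹) := by gcongr
      _ = ((3 * l) ^ (m + 1) * (l ^ 2)⁻¹) * (3 * l * ‖z s‖) ^ j := by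
          rw [mul_pow (3 * l) ‖z s‖, pow_add]; ring
      _ ≤ ((3 * l) ^ (m + 1) * (l ^ 2)⁻¹) * (1 / 2) ^ j := by
          gcongr
          have := h.hz
          linarith
  have hGd : DifferentiableOn ℂ G U :=
    Complex.differentiableOn_tsum_of_summable_norm
      (summable_half.mul_left ((3 * l) ^ (m + 1) * (l ^ 2)⁻¹))
      (fun j => (dz.pow j).mul (cc_diff da db _)) hUo fun j s hs => hGterm j s hs
  have hGan : AnalyticAt ℂ G p := hGd.analyticAt (hUo.mem_nhds hpU)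
  have hsplit : (fun u => F (z u) (a u) (b u)) =ᶠ[𝓝 p] fun u =>
      (∑ n ∈ range (m + 1), z u ^ n * cc (a u) (b u) n) + z u ^ (m + 1) * G u := by
    filter_upwards [hUo.mem_nhds hpU] with u hu
    have hs := F_summable (hreg u hu)
    rw [F, ← hs.sum_add_tsum_nat_add (m + 1)]
    congr 1
    simp only [hG]
    rw [← tsum_mul_left]
    congr 1
    ext j
    rw [pow_add]; ring
  have hterm : ∀ n ∈ range (m + 1), AnalyticAt ℂ (fun u => z u ^ n * cc (a u) (b u) n) p :=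
    fun n _ => (hz.pow n).mul (Tay_cc ha hb n).1
  have hsum : AnalyticAt ℂ (fun u => ∑ n ∈ range (m + 1), z u ^ n * cc (a u) (b u) n) p :=
    Finset.analyticAt_fun_sum _ hterm
  have hlastan : AnalyticAt ℂ (fun u => z u ^ (m + 1) * G u) p := (hz.pow _).mul hGan
  rw [Tay_congr hsplit, Tay_add hsum hlastan, Tay_sum _ hterm,
    Tay_mul (f := fun u => z u ^ (m + 1)) (hz.pow _) hGan, Tay_pow hz, map_add]
  have hX : PowerSeries.X ∣ Tay z p := by
    rw [PowerSeries.X_dvd_iff, constantCoeff_Tay, h0]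
  have hlast : coeff m (Tay z p ^ (m + 1) * Tay G p) = 0 := by
    have h1 : PowerSeries.X ^ (m + 1) ∣ Tay z p ^ (m + 1) * Tay G p :=
      Dvd.dvd.mul_right (pow_dvd_pow_of_dvd hX _) _
    exact (PowerSeries.X_pow_dvd_iff.1 h1) m (Nat.lt_succ_self m)
  rw [hlast, add_zero, map_sum, PhiS, coeff_mk]
  refine Finset.sum_congr rfl fun n _ => ?_
  rw [Tay_mul (f := fun u => z u ^ n) (hz.pow _) (Tay_cc ha hb n).1, Tay_pow hz,
    (Tay_cc ha hb n).2, ← PowerSeries.coeff_C_mul]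
  congr 1
  ring

end

end Pool.Agent.Helper433.ES
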