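import Pool.Agent.Helper433_ES.Stmt

/-! Local data and normal forms of Grothendieck classes. -/

namespace Pool.Agent.Helper433.ES

open Filter Topology

noncomputable section

variable {K : Type*} [Field K] [Algebra K ℂ]

/-- order of vanishing of the discriminant at `p`; the Euler number of the fibre over `p` of the
surface `y ^ 2 = x ^ 3 + a x + b` when the equation is minimal at `p` -/
def eu (a b : Polynomial K) (p : ℂ) : ℕ :=
  ((disc a b).map (algebraMap K ℂ)).rootMultiplicity p

/-- The fibre over `p` is additive and potentially good (types `II`, `III`, `IV`, `I0*`, `IV*`,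
`III*`, `II*` when the equation is minimal): with `n` the order of the discriminant at `p`, the
cube of `a` and the square of `b` vanish to order at least `n` at `p`, and `12` does not divide
`n`. -/
structure Fib (a b : Polynomial K) (p : ℂ) : Prop where
  ha : (Polynomial.X - Polynomial.C p) ^ eu a b p ∣ (a.map (algebraMap K ℂ)) ^ 3
  hb : (Polynomial.X - Polynomial.C p) ^ eu a b p ∣ (b.map (algebraMap K ℂ)) ^ 2
  h12 : ¬ 12 ∣ eu a b p

/-- A Grothendieck class on the elliptic surface `y ^ 2 = x ^ 3 + a x + b` over the projective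
line, defined over `K`, in normal form with poles bounded by `m` on `D` and by `mi` at infinity.

It is a section, modulo periods, of the line bundle of Lie algebras of the fibres (`O(-χ)`), given
by values `ν s`; near each point `p` of the affine line a branch `z p`, analytic when `p ∉ D` and
with a pole of order at most `m p` when `p ∈ D`; near infinity a branch `zi`. The class is
rational over `K` in de Rham cohomology: with second coordinates `w p` the branches satisfy the
inhomogeneous Gauss-Manin system whose right-hand sides `P₁ / Q`, `P₂ / Q` are rational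
functions over `K`. -/
structure GrClass (a b : Polynomial K) (χ : ℕ) (D : Finset ℂ) (m : ℂ → ℕ) (mi : ℕ) where
  ν : ℂ → ℂ
  z : ℂ → ℂ → ℂ
  w : ℂ → ℂ → ℂ
  zi : ℂ → ℂ
  Q : Polynomial K
  P₁ : Polynomial K
  P₂ : Polynomial K
  Q_ne : Q ≠ 0
  z_analytic : ∀ p, p ∉ D → AnalyticAt ℂ (z p) p
  z_pole : ∀ q ∈ D, ∃ h : ℂ → ℂ, AnalyticAt ℂ h q ∧
    ∀ᶠ s in 𝓝[≠] q, (s - q) ^ m q * z q s = h s
  zi_pole : ∃ h : ℂ → ℂ, AnalyticAt ℂ h 0 ∧
    ∀ᶠ s in cocompact ℂ, s ^ χ * zi s = s ^ mi * h s⁻¹
  period : ∀ p, ∀ᶠ s in 𝓝[≠] p,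
    IsPeriod (Polynomial.aeval s a) (Polynomial.aeval s b) (z p s - ν s)
  period_infty : ∀ᶠ s in cocompact ℂ,
    IsPeriod (Polynomial.aeval s a) (Polynomial.aeval s b) (zi s - ν s)
  w_meromorphic : ∀ p, p ∉ D → MeromorphicAt (w p) p
  gm₁ : ∀ p, p ∉ D → ∀ᶠ s in 𝓝[≠] p,
    Polynomial.aeval s Q * (12 * Polynomial.aeval s (disc a b) * deriv (z p) s +
      Polynomial.aeval s (Polynomial.derivative (disc a b)) * z p s +
      18 * Polynomial.aeval s (wrn a b) * w p s) = Polynomial.aeval s P₁
  gm₂ : ∀ p, p ∉ D → ∀ᶠ s in 𝓝[≠] p,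
    Polynomial.aeval s Q * (12 * Polynomial.aeval s (disc a b) * deriv (w p) s +
      6 * Polynomial.aeval s a * Polynomial.aeval s (wrn a b) * z p s -
      Polynomial.aeval s (Polynomial.derivative (disc a b)) * w p s) = Polynomial.aeval s P₂

end

end Pool.Agent.Helper433.ES
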