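import Pool.Agent.Helper433_ES.LocAn

/-! Local theory at an additive, potentially good point. -/

namespace Pool.Agent.Helper433.ES

open Filter Topology Finset

noncomputable section

variable {K : Type*} [Field K] [Algebra K ℂ]

/-- ramification index needed for good reduction -/
def ee (a b : Polynomial K) (p : ℂ) : ℕ := 12 / Nat.gcd 12 (eu a b p)

/-- scaling exponent -/
def kk (a b : Polynomial K) (p : ℂ) : ℕ := eu a b p / Nat.gcd 12 (eu a b p)

variable {a b Q P1 P2 : Polynomial K} {p : ℂ} {z w : ℂ → ℂ}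

lemma gcd_pos' (a b : Polynomial K) (p : ℂ) : 0 < Nat.gcd 12 (eu a b p) :=
  Nat.gcd_pos_of_pos_left _ (by norm_num)

lemma ee_ne (a b : Polynomial K) (p : ℂ) : ee a b p ≠ 0 := by
  have h1 : Nat.gcd 12 (eu a b p) ∣ 12 := Nat.gcd_dvd_left _ _
  have h2 : Nat.gcd 12 (eu a b p) ≤ 12 := Nat.le_of_dvd (by norm_num) h1
  exact (Nat.div_pos h2 (gcd_pos' a b p)).ne'

lemma ee_mul (a b : Polynomial K) (p : ℂ) : ee a b p * eu a b p = 12 * kk a b p := by
  obtain ⟨c, hc⟩ : Nat.gcd 12 (eu a b p) ∣ 12 := Nat.gcd_dvd_left _ _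
  obtain ⟨d, hd⟩ : Nat.gcd 12 (eu a b p) ∣ eu a b p := Nat.gcd_dvd_right _ _
  have hg := gcd_pos' a b p
  have h1 : ee a b p = c := by
    unfold ee
    exact Nat.div_eq_of_eq_mul_right hg hc
  have h2 : kk a b p = d := by
    unfold kk
    exact Nat.div_eq_of_eq_mul_right hg hd
  rw [h1, h2]
  calc c * eu a b p = c * (Nat.gcd 12 (eu a b p) * d) := by rw [← hd]
    _ = (Nat.gcd 12 (eu a b p) * c) * d := by ring
    _ = 12 * d := by rw [← hc]

lemma Fib.eu_pos (h : Fib a b p) : 0 < eu a b p := by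
  rcases Nat.eq_zero_or_pos (eu a b p) with h0 | h0
  · exact absurd (h0 ▸ dvd_zero 12) h.h12
  · exact h0

lemma Fib.kk_pos (h : Fib a b p) : 0 < kk a b p := by
  have h1 := ee_mul a b p
  have h2 := h.eu_pos
  have h3 := Nat.pos_of_ne_zero (ee_ne a b p)
  by_contra hcon
  have h4 : kk a b p = 0 := by omega
  rw [h4, mul_zero] at h1
  have := Nat.mul_pos h3 h2
  omega

lemma Fib.not_dvd (h : Fib a b p) : ¬ ee a b p ∣ kk a b p := by
  rintro ⟨c, hc⟩
  apply h.h12
  have h1 := ee_mul a b p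
  rw [hc] at h1
  have h2 : ee a b p * eu a b p = ee a b p * (12 * c) := by rw [h1]; ring
  have h3 := Nat.eq_of_mul_eq_mul_left (Nat.pos_of_ne_zero (ee_ne a b p)) h2
  exact ⟨c, h3⟩

/-- the reduced coefficients -/
def aP (a b : Polynomial K) (p : ℂ) : PowerSeries ℂ :=
  sh (4 * kk a b p) (PowerSeries.expand (ee a b p) (ee_ne a b p) (hat p a))

/-- the reduced coefficients -/
def bP (a b : Polynomial K) (p : ℂ) : PowerSeries ℂ :=
  sh (6 * kk a b p) (PowerSeries.expand (ee a b p) (ee_ne a b p) (hat p b))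

lemma Fib.hat_a (h : Fib a b p) : PowerSeries.X ^ eu a b p ∣ hat p a ^ 3 := by
  have h1 := (X_pow_dvd_hat p ((a.map (algebraMap K ℂ)) ^ 3) (eu a b p)).2 h.ha
  rwa [map_pow, ← hat_eq_map] at h1

lemma Fib.hat_b (h : Fib a b p) : PowerSeries.X ^ eu a b p ∣ hat p b ^ 2 := by
  have h1 := (X_pow_dvd_hat p ((b.map (algebraMap K ℂ)) ^ 2) (eu a b p)).2 h.hb
  rwa [map_pow, ← hat_eq_map] at h1

lemma Fib.dvd_a (h : Fib a b p) : PowerSeries.X ^ (4 * kk a b p) ∣
    PowerSeries.expand (ee a b p) (ee_ne a b p) (hat p a) := by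
  refine X_dvd_of_pow (r := 3) (by norm_num) ?_
  have h1 := map_dvd (PowerSeries.expand (ee a b p) (ee_ne a b p)) h.hat_a
  rw [map_pow, map_pow, PowerSeries.expand_X, ← pow_mul, ee_mul] at h1
  have h2 : 3 * (4 * kk a b p) = 12 * kk a b p := by ring
  rw [h2]
  exact h1

lemma Fib.dvd_b (h : Fib a b p) : PowerSeries.X ^ (6 * kk a b p) ∣
    PowerSeries.expand (ee a b p) (ee_ne a b p) (hat p b) := by
  refine X_dvd_of_pow (r := 2) (by norm_num) ?_
  have h1 := map_dvd (PowerSeries.expand (ee a b p) (ee_ne a b p)) h.hat_b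
  rw [map_pow, map_pow, PowerSeries.expand_X, ← pow_mul, ee_mul] at h1
  have h2 : 2 * (6 * kk a b p) = 12 * kk a b p := by ring
  rw [h2]
  exact h1

lemma Fib.exp_a (h : Fib a b p) : PowerSeries.expand (ee a b p) (ee_ne a b p) (hat p a) =
    PowerSeries.X ^ (4 * kk a b p) * aP a b p := sh_spec h.dvd_a

lemma Fib.exp_b (h : Fib a b p) : PowerSeries.expand (ee a b p) (ee_ne a b p) (hat p b) =
    PowerSeries.X ^ (6 * kk a b p) * bP a b p := sh_spec h.dvd_b

lemma Fib.unit (h : Fib a b p) (hD : disc a b ≠ 0) :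
    PowerSeries.constantCoeff (Dl (aP a b p) (bP a b p)) ≠ 0 := by
  intro h0
  have h1 := exp_D h.exp_a h.exp_b
  rw [← hat_disc] at h1
  have hDm : (disc a b).map (algebraMap K ℂ) ≠ 0 :=
    (Polynomial.map_ne_zero_iff (algebraMap K ℂ).injective).2 hD
  have h2 : ¬ PowerSeries.X ^ (eu a b p + 1) ∣ hat p (disc a b) := by
    rw [hat_eq_map, X_pow_dvd_hat]
    exact Polynomial.pow_rootMultiplicity_not_dvd hDm p
  have h3 : PowerSeries.X ^ eu a b p ∣ hat p (disc a b) := by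
    rw [hat_eq_map, X_pow_dvd_hat]
    exact Polynomial.pow_rootMultiplicity_dvd _ p
  obtain ⟨ψ, hψ⟩ := h3
  rw [hψ, map_mul, map_pow, PowerSeries.expand_X, ← pow_mul, ee_mul] at h1
  have h4 := mul_left_cancel₀ (pow_ne_zero _ PowerSeries.X_ne_zero) h1
  have h5 : PowerSeries.constantCoeff ψ = 0 := by
    rw [← PowerSeries.constantCoeff_expand (ee a b p) (ee_ne a b p) ψ, h4]; exact h0
  apply h2
  rw [hψ, pow_succ]
  exact mul_dvd_mul_left _ (PowerSeries.X_dvd_iff.2 h5)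

/-- the local series -/
def PhiP (a b : Polynomial K) (z : ℂ → ℂ) (p : ℂ) : PowerSeries ℂ :=
  PhiS (aP a b p) (bP a b p)
    (PowerSeries.X ^ kk a b p * PowerSeries.expand (ee a b p) (ee_ne a b p) (Tay z p))

theorem local_int (hKa : ∀ x : K, IsAlgebraic ℚ (algebraMap K ℂ x)) (hD : disc a b ≠ 0)
    (hQ : Q ≠ 0) (hp : IsAlgebraic ℚ p) (h : Fib a b p) (hs : LocSol a b Q P1 P2 p z w) :
    ∃ M : ℕ, 0 < M ∧ PhiP a b z p ∈ HS M := by
  obtain ⟨m, hm⟩ := hs.formal
  obtain ⟨W, h1, h2⟩ := hm m le_rfl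
  have gh : ∀ f : Polynomial K, Geo (hat p f) := geo_hat hKa hp
  have hloc := loc_int (e := ee a b p) (he := ee_ne a b p) (k := kk a b p) h.kk_pos h.not_dvd
    h.exp_a h.exp_b (h.unit hD) (gh a) (gh b) (gh Q) (gh P1) (gh P2) (hat_ne hQ p) h1 h2
  refine PhiS_HS ?_ ?_ hloc ?_
  · exact Geo.unshift_pow (4 * kk a b p) (by rw [← h.exp_a]; exact (gh a).expand _ _)
  · exact Geo.unshift_pow (6 * kk a b p) (by rw [← h.exp_b]; exact (gh b).expand _ _)
  · rw [map_mul, map_pow, PowerSeries.constantCoeff_X, zero_pow h.kk_pos.ne', zero_mul]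

lemma map_deriv (τ : ℂ →+* ℂ) (φ : PowerSeries ℂ) :
    PowerSeries.map τ (PowerSeries.derivative ℂ φ) =
      PowerSeries.derivative ℂ (PowerSeries.map τ φ) := by
  ext n
  rw [PowerSeries.coeff_map, PowerSeries.coeff_derivative, PowerSeries.coeff_derivative,
    PowerSeries.coeff_map]
  simp

lemma map_Dl (τ : ℂ →+* ℂ) (A B : PowerSeries ℂ) :
    PowerSeries.map τ (Dl A B) = Dl (PowerSeries.map τ A) (PowerSeries.map τ B) := by
  unfold Dl
  rw [map_add, map_mul, map_mul, map_pow, map_pow, map_ofNat, map_ofNat]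

lemma map_Wl (τ : ℂ →+* ℂ) (A B : PowerSeries ℂ) :
    PowerSeries.map τ (Wl A B) = Wl (PowerSeries.map τ A) (PowerSeries.map τ B) := by
  unfold Wl
  rw [map_sub, map_mul, map_mul, map_mul, map_mul, map_deriv, map_deriv, map_ofNat, map_ofNat]

lemma map_L1 (τ : ℂ →+* ℂ) (A B z w : PowerSeries ℂ) (m : ℕ) :
    PowerSeries.map τ (L1 A B m z w) = L1 (PowerSeries.map τ A) (PowerSeries.map τ B) m
      (PowerSeries.map τ z) (PowerSeries.map τ w) := by
  unfold L1
  simp only [map_add, map_mul, map_pow, map_deriv, map_Dl, map_Wl, map_ofNat, PowerSeries.map_X]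

lemma map_L2 (τ : ℂ →+* ℂ) (A B z w : PowerSeries ℂ) (m : ℕ) :
    PowerSeries.map τ (L2 A B m z w) = L2 (PowerSeries.map τ A) (PowerSeries.map τ B) m
      (PowerSeries.map τ z) (PowerSeries.map τ w) := by
  unfold L2
  simp only [map_add, map_sub, map_mul, map_pow, map_deriv, map_Dl, map_Wl, map_ofNat,
    PowerSeries.map_X, map_natCast]

lemma eu_map (τ : ℂ →+* ℂ) (hτ : ∀ x : K, τ (algebraMap K ℂ x) = algebraMap K ℂ x)
    (a b : Polynomial K) (p : ℂ) : eu a b (τ p) = eu a b p := by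
  unfold eu
  have h1 := Polynomial.eq_rootMultiplicity_map (p := (disc a b).map (algebraMap K ℂ))
    (f := τ) τ.injective p
  rw [h1, Polynomial.map_map]
  congr 1
  congr 1
  ext x
  simp [hτ]

lemma ee_map (τ : ℂ →+* ℂ) (hτ : ∀ x : K, τ (algebraMap K ℂ x) = algebraMap K ℂ x)
    (a b : Polynomial K) (p : ℂ) : ee a b (τ p) = ee a b p := by
  unfold ee; rw [eu_map τ hτ]

lemma kk_map (τ : ℂ →+* ℂ) (hτ : ∀ x : K, τ (algebraMap K ℂ x) = algebraMap K ℂ x)
    (a b : Polynomial K) (p : ℂ) : kk a b (τ p) = kk a b p := by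
  unfold kk; rw [eu_map τ hτ]

lemma expand_congr' {e e' : ℕ} (h : e = e') (he : e ≠ 0) (he' : e' ≠ 0) (φ : PowerSeries ℂ) :
    PowerSeries.expand e he φ = PowerSeries.expand e' he' φ := by
  subst h; rfl

theorem local_conj (τ : ℂ →+* ℂ) (hτ : ∀ x : K, τ (algebraMap K ℂ x) = algebraMap K ℂ x)
    (hD : disc a b ≠ 0) (hQ : Q ≠ 0) (h' : Fib a b (τ p)) {z' w' : ℂ → ℂ}
    (hs : LocSol a b Q P1 P2 p z w) (hs' : LocSol a b Q P1 P2 (τ p) z' w') :
    PowerSeries.map τ (PhiP a b z p) = PhiP a b z' (τ p) := by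
  have hT : PowerSeries.map τ (Tay z p) = Tay z' (τ p) := by
    obtain ⟨m₁, hm₁⟩ := hs.formal
    obtain ⟨m₂, hm₂⟩ := hs'.formal
    obtain ⟨W, h1, h2⟩ := hm₁ (max m₁ m₂) (le_max_left _ _)
    obtain ⟨W', h1', h2'⟩ := hm₂ (max m₁ m₂) (le_max_right _ _)
    have e1 := congrArg (PowerSeries.map τ) h1
    have e2 := congrArg (PowerSeries.map τ) h2
    rw [map_mul, map_mul, map_pow, PowerSeries.map_X, map_L1, hat_map τ hτ, hat_map τ hτ,
      hat_map τ hτ, hat_map τ hτ] at e1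
    rw [map_mul, map_mul, map_pow, PowerSeries.map_X, map_L2, hat_map τ hτ, hat_map τ hτ,
      hat_map τ hτ, hat_map τ hτ] at e2
    exact loc_unique (he := ee_ne a b (τ p)) h'.kk_pos h'.not_dvd h'.exp_a h'.exp_b (h'.unit hD)
      (hat_ne hQ (τ p)) e1 e2 h1' h2'
  unfold PhiP
  rw [PhiS_map, map_mul, map_pow, PowerSeries.map_X, PowerSeries.map_expand, hT]
  have ha : PowerSeries.map τ (aP a b p) = aP a b (τ p) := by
    unfold aP
    rw [sh_map, PowerSeries.map_expand, hat_map τ hτ, kk_map τ hτ,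
      expand_congr' (ee_map τ hτ a b p) (ee_ne a b (τ p)) (ee_ne a b p)]
  have hb : PowerSeries.map τ (bP a b p) = bP a b (τ p) := by
    unfold bP
    rw [sh_map, PowerSeries.map_expand, hat_map τ hτ, kk_map τ hτ,
      expand_congr' (ee_map τ hτ a b p) (ee_ne a b (τ p)) (ee_ne a b p)]
  rw [ha, hb, kk_map τ hτ, expand_congr' (ee_map τ hτ a b p) (ee_ne a b (τ p)) (ee_ne a b p)]

lemma Fib.zero_a (h : Fib a b p) : Polynomial.aeval p a = 0 := by
  have h1 : PowerSeries.X ∣ hat p a ^ 3 := (dvd_pow_self _ h.eu_pos.ne').trans h.hat_a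
  rw [PowerSeries.X_dvd_iff, map_pow] at h1
  have h2 := pow_eq_zero_iff (by norm_num) |>.1 h1
  rw [← (Tay_aeval a p).2, constantCoeff_Tay] at h2
  exact h2

lemma Fib.zero_b (h : Fib a b p) : Polynomial.aeval p b = 0 := by
  have h1 : PowerSeries.X ∣ hat p b ^ 2 := (dvd_pow_self _ h.eu_pos.ne').trans h.hat_b
  rw [PowerSeries.X_dvd_iff, map_pow] at h1
  have h2 := pow_eq_zero_iff (by norm_num) |>.1 h1
  rw [← (Tay_aeval b p).2, constantCoeff_Tay] at h2
  exact h2

/-- both coefficients vanish -/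
structure Zer (a b : Polynomial K) (p : ℂ) : Prop where
  zero_a : Polynomial.aeval p a = (0 : ℂ)
  zero_b : Polynomial.aeval p b = (0 : ℂ)

lemma Fib.zer (h : Fib a b p) : Zer a b p := ⟨h.zero_a, h.zero_b⟩

/-- near an additive point the arguments lie in the small region -/
lemma Zer.reg (h : Zer a b p) (hz : AnalyticAt ℂ z p) : ∃ l : ℝ, ∀ᶠ s in 𝓝 p,
    Reg l (z s) (Polynomial.aeval s a) (Polynomial.aeval s b) := by
  set l : ℝ := 1 / (12 * (1 + ‖z p‖)) with hl
  have hl0 : 0 < l := by positivity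
  have ca := (Tay_aeval a p).1.continuousAt
  have cb := (Tay_aeval b p).1.continuousAt
  have e1 : ∀ᶠ s in 𝓝 p, ‖(Polynomial.aeval s a : ℂ)‖ < l ^ 4 :=
    ca.norm.eventually_lt continuousAt_const (by
      show ‖(Polynomial.aeval p a : ℂ)‖ < l ^ 4
      rw [h.zero_a, norm_zero]; positivity)
  have e2 : ∀ᶠ s in 𝓝 p, ‖(Polynomial.aeval s b : ℂ)‖ < l ^ 6 :=
    cb.norm.eventually_lt continuousAt_const (by
      show ‖(Polynomial.aeval p b : ℂ)‖ < l ^ 6
      rw [h.zero_b, norm_zero]; positivity)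
  have e3 : ∀ᶠ s in 𝓝 p, 6 * l * ‖z s‖ < 1 :=
    (continuousAt_const.mul hz.continuousAt.norm).eventually_lt continuousAt_const (by
      show 6 * l * ‖z p‖ < 1
      rw [hl, mul_one_div, div_mul_eq_mul_div, div_lt_one (by positivity)]
      nlinarith [norm_nonneg (z p)])
  refine ⟨l, ?_⟩
  filter_upwards [e1, e2, e3] with s h1 h2 h3
  exact ⟨hl0, h1.le, h2.le, h3⟩

/-- the local function -/
def fP (a b : Polynomial K) (z : ℂ → ℂ) (s : ℂ) : ℂ :=
  F (z s) (Polynomial.aeval s a) (Polynomial.aeval s b)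

lemma Zer.fP_an (h : Zer a b p) (hz : AnalyticAt ℂ z p) : AnalyticAt ℂ (fP a b z) p := by
  obtain ⟨l, hl⟩ := h.reg hz
  obtain ⟨U, hU, hUo, hpU⟩ := eventually_nhds_iff.1 (hl.and hz.eventually_analyticAt)
  have dz : DifferentiableOn ℂ z U := fun s hs =>
    (hU s hs).2.differentiableAt.differentiableWithinAt
  have da : DifferentiableOn ℂ (fun s : ℂ => (Polynomial.aeval s a : ℂ)) U := fun s _ =>
    (Tay_aeval a s).1.differentiableAt.differentiableWithinAt
  have db : DifferentiableOn ℂ (fun s : ℂ => (Polynomial.aeval s b : ℂ)) U := fun s _ =>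
    (Tay_aeval b s).1.differentiableAt.differentiableWithinAt
  exact (F_diff hUo dz da db fun s hs => (hU s hs).1).analyticAt (hUo.mem_nhds hpU)

/-- division of a polynomial pulled back by `s = p + u ^ e` -/
lemma pull_div (f : Polynomial K) (p : ℂ) (e n : ℕ) (he : e ≠ 0)
    (h : PowerSeries.X ^ n ∣ PowerSeries.expand e he (hat p f)) :
    ∃ g : ℂ → ℂ, (∀ u, AnalyticAt ℂ g u) ∧ (∀ u, Polynomial.aeval (p + u ^ e) f = u ^ n * g u) ∧
      Tay g 0 = sh n (PowerSeries.expand e he (hat p f)) := by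
  have hT := Tay_comp_pow (Tay_aeval f p).1 e he
  rw [(Tay_aeval f p).2] at hT
  have hd : DifferentiableOn ℂ (fun u : ℂ => (Polynomial.aeval (p + u ^ e) f : ℂ)) Set.univ := by
    intro u _
    have h1 : DifferentiableAt ℂ (fun s : ℂ => (Polynomial.aeval s f : ℂ)) (p + u ^ e) :=
      (Tay_aeval f _).1.differentiableAt
    have h2 : DifferentiableAt ℂ (fun u : ℂ => p + u ^ e) u := by fun_prop
    exact (h1.comp u h2).differentiableWithinAt
  obtain ⟨g, hg, hg'⟩ := div1 isOpen_univ n hd (p := 0) (Set.mem_univ 0) (by rw [hT.2]; exact h)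
  have hgan : ∀ u, AnalyticAt ℂ g u := fun u => hg.analyticAt univ_mem
  refine ⟨g, hgan, fun u => ?_, ?_⟩
  · have := hg' u
    rw [sub_zero] at this
    exact this
  · symm
    refine sh_eq ?_
    rw [← hT.2]
    have h1 : (fun u : ℂ => (Polynomial.aeval (p + u ^ e) f : ℂ)) = fun u => u ^ n * g u := by
      ext u
      have := hg' u
      rw [sub_zero] at this
      exact this
    have hid : AnalyticAt ℂ (fun s : ℂ => s) 0 := by fun_prop
    rw [h1, Tay_mul (f := fun u => u ^ n) (hid.pow n) (hgan 0), Tay_pow hid, Tay_id]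
    simp

theorem local_ser (h : Fib a b p) (hz : AnalyticAt ℂ z p) :
    PowerSeries.X ^ (2 * kk a b p) *
      PowerSeries.expand (ee a b p) (ee_ne a b p) (Tay (fP a b z) p) = PhiP a b z p := by
  set e := ee a b p with he
  set k := kk a b p with hk
  have he0 : e ≠ 0 := ee_ne a b p
  have hk0 : 0 < k := h.kk_pos
  obtain ⟨α, hα, hα', hαT⟩ := pull_div a p e (4 * k) he0 h.dvd_a
  obtain ⟨β, hβ, hβ', hβT⟩ := pull_div b p e (6 * k) he0 h.dvd_b
  obtain ⟨hzc, hzcT⟩ := Tay_comp_pow hz e he0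
  obtain ⟨hfc, hfcT⟩ := Tay_comp_pow (h.zer.fP_an hz) e he0
  have hid : AnalyticAt ℂ (fun s : ℂ => s) 0 := by fun_prop
  have hζ : AnalyticAt ℂ (fun u : ℂ => u ^ k * z (p + u ^ e)) 0 := (hid.pow k).mul hzc
  obtain ⟨hF, hFT⟩ := F_comp_taylor hζ (hα 0) (hβ 0) (by
    show (0 : ℂ) ^ k * z (p + 0 ^ e) = 0
    rw [zero_pow hk0.ne', zero_mul])
  have heq : (fun u : ℂ => u ^ (2 * k) * fP a b z (p + u ^ e)) =
      fun u => F (u ^ k * z (p + u ^ e)) (α u) (β u) := by
    ext u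
    rw [fP, hα' u, hβ' u, ← F_scale, ← pow_mul, ← pow_mul, ← pow_mul, mul_comm k 2,
      mul_comm k 4, mul_comm k 6]
  have hT : Tay (fun u : ℂ => u ^ (2 * k) * fP a b z (p + u ^ e)) 0 =
      Tay (fun u => F (u ^ k * z (p + u ^ e)) (α u) (β u)) 0 := by rw [heq]
  rw [hFT, hαT, hβT, Tay_mul (f := fun u => u ^ (2 * k)) (hid.pow _) hfc, Tay_pow hid, hfcT,
    Tay_mul (f := fun u => u ^ k) (hid.pow _) hzc, Tay_pow hid, hzcT, Tay_id] at hT
  rw [map_zero, zero_add] at hT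
  rw [hT]
  rfl

theorem local_coeff (h : Fib a b p) (hz : AnalyticAt ℂ z p) (j l N : ℕ) :
    PowerSeries.coeff N ((PowerSeries.C p + PowerSeries.X) ^ j * Tay (fP a b z) p ^ l) =
      PowerSeries.coeff (ee a b p * N + 2 * kk a b p * l)
        ((PowerSeries.C p + PowerSeries.X ^ ee a b p) ^ j * PhiP a b z p ^ l) := by
  rw [← local_ser h hz]
  have h1 : (PowerSeries.C p + PowerSeries.X ^ ee a b p) ^ j *
      (PowerSeries.X ^ (2 * kk a b p) *
      PowerSeries.expand (ee a b p) (ee_ne a b p) (Tay (fP a b z) p)) ^ l =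
      PowerSeries.X ^ (2 * kk a b p * l) * PowerSeries.expand (ee a b p) (ee_ne a b p)
        ((PowerSeries.C p + PowerSeries.X) ^ j * Tay (fP a b z) p ^ l) := by
    rw [map_mul, map_pow, map_pow, map_add, PowerSeries.expand_C, PowerSeries.expand_X, mul_pow,
      ← pow_mul]
    ring
  rw [h1, PowerSeries.coeff_X_pow_mul, PowerSeries.coeff_expand_mul]

end

end Pool.Agent.Helper433.ES
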