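import Pool.Agent.Helper433_ES.Wp

/-! Derivatives in the elliptic variable depend analytically on parameters. -/

namespace Pool.Agent.Helper433.ES

open Filter Topology Finset Metric

noncomputable section

lemma param_deriv {G : ℂ → ℂ → ℂ} {U : Set ℂ} (hU : IsOpen U) {M : ℝ} (hM : 0 ≤ M)
    (h1 : ∀ t, DifferentiableOn ℂ (fun s => G s t) U) (h2 : ∀ s ∈ U, Differentiable ℂ (G s))
    (h3 : ∀ s ∈ U, ∀ t, ‖t‖ < 1 → ‖G s t‖ ≤ M) :
    DifferentiableOn ℂ (fun s => deriv (G s) 0) U := by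
  set φ : ℕ → ℂ → ℂ := fun n s => ((n : ℂ) + 2) * (G s (((n : ℂ) + 2)⁻¹) - G s 0) with hφ
  have hφd : ∀ n, DifferentiableOn ℂ (φ n) U := fun n =>
    (differentiableOn_const _).mul ((h1 _).sub (h1 _))
  have hn2 : ∀ n : ℕ, ((n : ℂ) + 2) ≠ 0 := fun n => by exact_mod_cast Nat.succ_ne_zero (n + 1)
  have hnorm : ∀ n : ℕ, ‖(((n : ℂ) + 2)⁻¹ : ℂ)‖ = ((n : ℝ) + 2)⁻¹ := by
    intro n
    rw [norm_inv]
    congr 1
    have : ((n : ℂ) + 2) = ((n + 2 : ℕ) : ℂ) := by push_cast; ring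
    rw [this, Complex.norm_natCast]; push_cast; ring
  have key : ∀ (n : ℕ), ∀ s ∈ U, dist (deriv (G s) 0) (φ n s) ≤ 6 * M * ((n : ℝ) + 2)⁻¹ := by
    intro n s hs
    have hd : DifferentiableOn ℂ (G s) (ball 0 1) := (h2 s hs).differentiableOn
    have hmaps : Set.MapsTo (G s) (ball 0 1) (closedBall (G s 0) (2 * M)) := by
      intro t ht
      rw [mem_ball_zero_iff] at ht
      rw [mem_closedBall, dist_eq_norm]
      have e1 := h3 s hs t ht
      have e2 := h3 s hs 0 (by simp)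
      calc ‖G s t - G s 0‖ ≤ ‖G s t‖ + ‖G s 0‖ := norm_sub_le _ _
        _ ≤ 2 * M := by linarith
    have hds : ∀ t ∈ ball (0 : ℂ) 1, ‖dslope (G s) 0 t‖ ≤ 2 * M := by
      intro t ht
      have := Complex.norm_dslope_le_div_of_mapsTo_ball hd hmaps ht
      simpa using this
    have hdd : DifferentiableOn ℂ (dslope (G s) 0) (ball 0 1) :=
      (Complex.differentiableOn_dslope (ball_mem_nhds 0 one_pos)).2 hd
    have hmaps2 : Set.MapsTo (dslope (G s) 0) (ball 0 1)
        (closedBall (dslope (G s) 0 0) (6 * M)) := by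
      intro t ht
      rw [mem_closedBall, dist_eq_norm]
      have e1 := hds t ht
      have e2 := hds 0 (mem_ball_self one_pos)
      calc ‖dslope (G s) 0 t - dslope (G s) 0 0‖ ≤ ‖dslope (G s) 0 t‖ + ‖dslope (G s) 0 0‖ :=
            norm_sub_le _ _
        _ ≤ 6 * M := by linarith
    have ht : (((n : ℂ) + 2)⁻¹ : ℂ) ∈ ball (0 : ℂ) 1 := by
      rw [mem_ball_zero_iff, hnorm]
      have : (0 : ℝ) ≤ n := Nat.cast_nonneg n
      rw [inv_lt_one_iff₀]
      right; linarith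
    have h4 := Complex.dist_le_div_mul_dist_of_mapsTo_ball hdd hmaps2 ht
    rw [dist_zero_right, hnorm, div_one] at h4
    have h5 : dslope (G s) 0 (((n : ℂ) + 2)⁻¹) = φ n s := by
      rw [dslope_of_ne _ (inv_ne_zero (hn2 n)), slope_def_field]
      simp only [hφ, sub_zero]
      field_simp
    rw [h5, dslope_same, dist_comm] at h4
    exact h4
  have hlim : Tendsto (fun n : ℕ => 6 * M * ((n : ℝ) + 2)⁻¹) atTop (𝓝 0) := by
    have h6 : Tendsto (fun n : ℕ => ((n : ℝ) + 2)⁻¹) atTop (𝓝 0) :=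
      tendsto_inv_atTop_zero.comp (tendsto_atTop_add_const_right _ _ tendsto_natCast_atTop_atTop)
    simpa using h6.const_mul (6 * M)
  have hunif : TendstoUniformlyOn φ (fun s => deriv (G s) 0) atTop U := by
    rw [Metric.tendstoUniformlyOn_iff]
    intro ε hε
    filter_upwards [hlim.eventually_lt_const hε] with n hn s hs
    exact lt_of_le_of_lt (key n s hs) hn
  exact hunif.tendstoLocallyUniformlyOn.differentiableOn
    (Eventually.of_forall hφd) hU

/-- derivative in the elliptic variable -/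
def dAf (z a b : ℂ) : ℂ := deriv (fun t => Af t a b) z

/-- derivative in the elliptic variable -/
def dBf (z a b : ℂ) : ℂ := deriv (fun t => Bf t a b) z

lemma dAB_analytic {ζ α β : ℂ → ℂ} {p : ℂ} (hζ : AnalyticAt ℂ ζ p) (hα : AnalyticAt ℂ α p)
    (hβ : AnalyticAt ℂ β p) :
    AnalyticAt ℂ (fun s => dAf (ζ s) (α s) (β s)) p ∧
      AnalyticAt ℂ (fun s => dBf (ζ s) (α s) (β s)) p := by
  set l : ℝ := 2 + ‖α p‖ + ‖β p‖ with hl
  have hl1 : (1 : ℝ) ≤ l := by rw [hl]; linarith [norm_nonneg (α p), norm_nonneg (β p)]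
  have e1 : ∀ᶠ s in 𝓝 p, ‖α s‖ < l := by
    refine (hα.continuousAt.norm).eventually_lt continuousAt_const ?_
    rw [hl]; linarith [norm_nonneg (β p)]
  have e2 : ∀ᶠ s in 𝓝 p, ‖β s‖ < l := by
    refine (hβ.continuousAt.norm).eventually_lt continuousAt_const ?_
    rw [hl]; linarith [norm_nonneg (α p)]
  have e3 : ∀ᶠ s in 𝓝 p, ‖ζ s‖ < ‖ζ p‖ + 1 :=
    hζ.continuousAt.norm.eventually_lt continuousAt_const (by
      show ‖ζ p‖ < ‖ζ p‖ + 1
      linarith)
  obtain ⟨U, hU, hUo, hpU⟩ := _root_.eventually_nhds_iff.1 (e1.and (e2.and (e3.and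
    (hζ.eventually_analyticAt.and (hα.eventually_analyticAt.and hβ.eventually_analyticAt)))))
  set M : ℝ := Real.exp (2000 * (1 + (l * (‖ζ p‖ + 2)) ^ 2)) with hM
  have hbound : ∀ s ∈ U, ∀ t : ℂ, ‖t‖ < 1 →
      ‖Af (ζ s + t) (α s) (β s)‖ ≤ M ∧ ‖Bf (ζ s + t) (α s) (β s)‖ ≤ M := by
    intro s hs t ht
    obtain ⟨h1, h2, h3, -⟩ := hU s hs
    have ha : ‖α s‖ ≤ l ^ 4 := h1.le.trans (by
      calc l = l ^ 1 := (pow_one l).symm
        _ ≤ l ^ 4 := pow_le_pow_right₀ hl1 (by norm_num))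
    have hb : ‖β s‖ ≤ l ^ 6 := h2.le.trans (by
      calc l = l ^ 1 := (pow_one l).symm
        _ ≤ l ^ 6 := pow_le_pow_right₀ hl1 (by norm_num))
    obtain ⟨g1, g2⟩ := AB_growth (by linarith) ha hb (ζ s + t)
    have h4 : ‖ζ s + t‖ ≤ ‖ζ p‖ + 2 := (norm_add_le _ _).trans (by linarith)
    have h5 : Real.exp (2000 * (1 + (l * ‖ζ s + t‖) ^ 2)) ≤ M := by
      rw [hM]
      apply Real.exp_le_exp.2
      have : (l * ‖ζ s + t‖) ^ 2 ≤ (l * (‖ζ p‖ + 2)) ^ 2 := by gcongr
      linarith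
    refine ⟨g1.trans h5, ?_⟩
    have h6 : 1 ≤ l ^ 2 := one_le_pow₀ hl1
    have h7 := norm_nonneg (Bf (ζ s + t) (α s) (β s))
    nlinarith
  have hent : ∀ s, Differentiable ℂ (fun t => Af (ζ s + t) (α s) (β s)) ∧
      Differentiable ℂ (fun t => Bf (ζ s + t) (α s) (β s)) := by
    intro s
    constructor
    · intro t
      have h1 := ((Af_Bf_entire (α s) (β s)).1 (ζ s + t) (Set.mem_univ _)).differentiableAt
      have h2 : DifferentiableAt ℂ (fun t => ζ s + t) t := by fun_prop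
      exact h1.comp t h2
    · intro t
      have h1 := ((Af_Bf_entire (α s) (β s)).2 (ζ s + t) (Set.mem_univ _)).differentiableAt
      have h2 : DifferentiableAt ℂ (fun t => ζ s + t) t := by fun_prop
      exact h1.comp t h2
  have hpar : ∀ t : ℂ, DifferentiableOn ℂ (fun s => Af (ζ s + t) (α s) (β s)) U ∧
      DifferentiableOn ℂ (fun s => Bf (ζ s + t) (α s) (β s)) U := by
    intro t
    have : ∀ s ∈ U, AnalyticAt ℂ (fun s => Af (ζ s + t) (α s) (β s)) s ∧
        AnalyticAt ℂ (fun s => Bf (ζ s + t) (α s) (β s)) s := by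
      intro s hs
      obtain ⟨-, -, -, h4, h5, h6⟩ := hU s hs
      exact AB_analytic (ζ := fun s => ζ s + t) (h4.add analyticAt_const) h5 h6
    exact ⟨fun s hs => (this s hs).1.differentiableAt.differentiableWithinAt,
      fun s hs => (this s hs).2.differentiableAt.differentiableWithinAt⟩
  have hM0 : 0 ≤ M := (Real.exp_pos _).le
  have hA := param_deriv hUo hM0 (fun t => (hpar t).1) (fun s _ => (hent s).1)
    (fun s hs t ht => (hbound s hs t ht).1)
  have hB := param_deriv hUo hM0 (fun t => (hpar t).2) (fun s _ => (hent s).2)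
    (fun s hs t ht => (hbound s hs t ht).2)
  have eA : (fun s => deriv (fun t => Af (ζ s + t) (α s) (β s)) 0) =
      fun s => dAf (ζ s) (α s) (β s) := by
    ext s
    have := deriv_comp_const_add (fun t => Af t (α s) (β s)) (ζ s) 0
    rw [add_zero] at this
    exact this
  have eB : (fun s => deriv (fun t => Bf (ζ s + t) (α s) (β s)) 0) =
      fun s => dBf (ζ s) (α s) (β s) := by
    ext s
    have := deriv_comp_const_add (fun t => Bf t (α s) (β s)) (ζ s) 0
    rw [add_zero] at this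
    exact this
  rw [eA] at hA
  rw [eB] at hB
  exact ⟨hA.analyticAt (hUo.mem_nhds hpU), hB.analyticAt (hUo.mem_nhds hpU)⟩

/-- `℘' σ⁴` -/
def Cf (z a b : ℂ) : ℂ := dAf z a b * Bf z a b - Af z a b * dBf z a b

lemma Cf_analytic {ζ α β : ℂ → ℂ} {p : ℂ} (hζ : AnalyticAt ℂ ζ p) (hα : AnalyticAt ℂ α p)
    (hβ : AnalyticAt ℂ β p) : AnalyticAt ℂ (fun s => Cf (ζ s) (α s) (β s)) p := by
  obtain ⟨h1, h2⟩ := AB_analytic hζ hα hβ
  obtain ⟨h3, h4⟩ := dAB_analytic hζ hα hβ
  exact (h3.mul h2).sub (h1.mul h4)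

lemma Cf_eq_wp (L : PeriodPair) {a b : ℂ} (h2 : L.g₂ = -4 * a) (h3 : L.g₃ = -4 * b) {z : ℂ}
    (hz : z ∉ L.lattice) : Cf z a b = L.derivWeierstrassP z * Bf z a b ^ 2 := by
  have hopen : ∀ᶠ t in 𝓝 z, t ∉ L.lattice := by
    have h := L.isClosed_lattice.isOpen_compl
    exact h.mem_nhds hz
  have hev : (fun t => Af t a b) =ᶠ[𝓝 z] fun t => L.weierstrassP t * Bf t a b := by
    filter_upwards [hopen] with t ht
    exact Af_eq_wp L h2 h3 ht
  have hP : DifferentiableAt ℂ L.weierstrassP z :=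
    (L.analyticOnNhd_weierstrassP z hz).differentiableAt
  have hB : DifferentiableAt ℂ (fun t => Bf t a b) z :=
    ((Af_Bf_entire a b).2 z (Set.mem_univ z)).differentiableAt
  have hd : dAf z a b = L.derivWeierstrassP z * Bf z a b + L.weierstrassP z * dBf z a b := by
    unfold dAf dBf
    rw [hev.deriv_eq]
    have h4 : deriv (fun t => L.weierstrassP t * Bf t a b) z =
        deriv L.weierstrassP z * Bf z a b + L.weierstrassP z * deriv (fun t => Bf t a b) z :=
      deriv_fun_mul hP hB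
    rw [h4, L.deriv_weierstrassP]
  rw [Cf, hd, Af_eq_wp L h2 h3 hz]
  ring

end

end Pool.Agent.Helper433.ES
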