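import Pool.Agent.Helper433_ES.Glob3
import Pool.Agent.Helper433_ES.Par

/-! The class is that of a section. -/

namespace Pool.Agent.Helper433.ES

open Filter Topology Finset

noncomputable section

variable {K : Type*} [Field K] [Algebra K ℂ] {a b : Polynomial K} {χ : ℕ} {D : Finset ℂ}
  {m : ℂ → ℕ} {mi : ℕ} (N : GrClass a b χ D m mi)

/-- derivative numerators of the branches -/
def brC (a b : Polynomial K) (z : ℂ → ℂ) (s : ℂ) : ℂ :=
  Cf (z s) (Polynomial.aeval s a) (Polynomial.aeval s b)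

/-- half the derivative of the Weierstrass function -/
def brY (a b : Polynomial K) (z : ℂ → ℂ) (s : ℂ) : ℂ :=
  brC a b z s / (2 * brB a b z s ^ 2)

lemma cross_Y {a b z v : ℂ} (hD : 4 * a ^ 3 + 27 * b ^ 2 ≠ 0) (h : IsPeriod a b (z - v)) :
    Cf z a b / (2 * Bf z a b ^ 2) = Cf v a b / (2 * Bf v a b ^ 2) := by
  obtain ⟨L, h2, h3, hL⟩ := h
  by_cases hv : v ∈ L.lattice
  · have hz : z ∈ L.lattice := by
      have := add_mem hL hv
      simpa using this
    rw [Bf_lattice L h2 h3 hv, Bf_lattice L h2 h3 hz]; simp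
  · have hz : z ∉ L.lattice := fun hz => hv (by
      have := sub_mem hz hL
      simpa using this)
    have hB1 := Bf_ne L hD h2 h3 hv
    have hB2 := Bf_ne L hD h2 h3 hz
    have h4 : L.derivWeierstrassP z = L.derivWeierstrassP v := by
      have := L.derivWeierstrassP_add_coe v ⟨z - v, hL⟩
      simpa using this
    rw [Cf_eq_wp L h2 h3 hv, Cf_eq_wp L h2 h3 hz, h4]
    field_simp

lemma z_ev_analytic (p : ℂ) : ∀ᶠ s in 𝓝[≠] p, AnalyticAt ℂ (N.z p) s := by
  by_cases hp : p ∈ D
  · obtain ⟨h, hh, hzh⟩ := N.z_pole p hp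
    have h1 : MeromorphicAt (N.z p) p := by
      have h2 : MeromorphicAt (fun s => h s / (s - p) ^ m p) p := by
        have h3 : AnalyticAt ℂ (fun s : ℂ => (s - p) ^ m p) p := by fun_prop
        exact hh.meromorphicAt.div h3.meromorphicAt
      refine h2.congr ?_
      filter_upwards [hzh, self_mem_nhdsWithin] with s hs hsp
      have : (s - p) ^ m p ≠ 0 := pow_ne_zero _ (sub_ne_zero.2 hsp)
      rw [← hs, mul_div_cancel_left₀ _ this]
    exact h1.eventually_analyticAt
  · exact (N.z_analytic p hp).eventually_analyticAt.filter_mono nhdsWithin_le_nhds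

/-- punctured neighbourhoods of punctured neighbourhoods -/
lemma ev_ev {P : ℂ → Prop} {p : ℂ} (h : ∀ᶠ s in 𝓝[≠] p, P s) :
    ∀ᶠ s in 𝓝[≠] p, ∀ᶠ t in 𝓝 s, P t := by
  rw [eventually_nhdsWithin_iff] at h ⊢
  filter_upwards [eventually_eventually_nhds.2 h] with s hs hsp
  filter_upwards [hs, isOpen_ne.mem_nhds hsp] with t ht1 ht2
  exact ht1 ht2

lemma br_near (hab : disc a b ≠ 0) (p : ℂ) : ∀ᶠ s in 𝓝[≠] p,
    (brB a b (N.z p) s = 0 ↔ brB a b N.ν s = 0) ∧
      brY a b (N.z p) s = brY a b N.ν s := by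
  filter_upwards [disc_near hab p, N.period p] with s hs1 hs2
  exact ⟨(cross_facts hs1 hs2).2.1, cross_Y hs1 hs2⟩

lemma poly_eq_of_near {f g : Polynomial ℂ} {p : ℂ} (h : ∀ᶠ s in 𝓝[≠] p, f.eval s = g.eval s) :
    f = g := by
  by_contra hne
  have h1 := poly_ne (f - g) (sub_ne_zero.2 hne) p
  obtain ⟨s, hs1, hs2⟩ := (h.and h1).exists
  apply hs2
  rw [Polynomial.eval_sub, hs1, sub_self]

lemma eval_ratio {P Q : Polynomial ℂ} (hQ : Q ≠ 0) {s : ℂ} (hs : Q.eval s ≠ 0) :
    RatFunc.eval (RingHom.id ℂ) s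
      (algebraMap (Polynomial ℂ) (RatFunc ℂ) P / algebraMap (Polynomial ℂ) (RatFunc ℂ) Q) =
      P.eval s / Q.eval s := by
  set x := algebraMap (Polynomial ℂ) (RatFunc ℂ) P / algebraMap (Polynomial ℂ) (RatFunc ℂ) Q with hx
  have h1 : x.num * Q = P * x.denom := (RatFunc.num_mul_eq_mul_denom_iff hQ).2 hx
  have h2 := congrArg (Polynomial.eval s) h1
  rw [Polynomial.eval_mul, Polynomial.eval_mul] at h2
  have h3 : x.denom ∣ Q := RatFunc.denom_div_dvd P Q
  have h4 : x.denom.eval s ≠ 0 := by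
    intro h0
    obtain ⟨c, hc⟩ := h3
    apply hs
    rw [hc, Polynomial.eval_mul, h0, zero_mul]
  unfold RatFunc.eval
  show (x.num.eval₂ (RingHom.id ℂ) s) / (x.denom.eval₂ (RingHom.id ℂ) s) = _
  rw [← Polynomial.eval, ← Polynomial.eval, div_eq_div_iff h4 hs, h2]

theorem main_fin (hab : disc a b ≠ 0) {p₀ : ℂ} (hp₀ : p₀ ∉ D) (hf₀ : Zer a b p₀)
    {A₀ B₀ : Polynomial ℂ} (hB₀ : B₀ ≠ 0)
    (hrel : ∀ p ∉ D, ∀ᶠ s in 𝓝[≠] p, B₀.eval s * N.f s = A₀.eval s) :
    (∀ p, ∀ᶠ s in 𝓝[≠] p,
      IsPeriod (Polynomial.aeval s a) (Polynomial.aeval s b) (N.z p s)) ∨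
    ∃ x y : RatFunc ℂ,
      y ^ 2 = x ^ 3 + algebraMap (Polynomial ℂ) (RatFunc ℂ) (a.map (algebraMap K ℂ)) * x +
        algebraMap (Polynomial ℂ) (RatFunc ℂ) (b.map (algebraMap K ℂ)) ∧
      ∀ p, ∀ᶠ s in 𝓝[≠] p, ∀ L : PeriodPair,
        L.g₂ = -4 * Polynomial.aeval s a → L.g₃ = -4 * Polynomial.aeval s b →
        N.z p s ∉ L.lattice ∧ L.weierstrassP (N.z p s) = RatFunc.eval (RingHom.id ℂ) s x ∧
          L.derivWeierstrassP (N.z p s) = 2 * RatFunc.eval (RingHom.id ℂ) s y := by
  classical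
  rcases N_zero_dich N hab with hzero | hnz
  · -- the zero section
    left
    intro p
    have hall := (ev_ev ((near_notMem D p).and ((disc_near hab p).and ((N.period p).and
      ((br_near N hab p)))))).and (z_ev_analytic N p)
    filter_upwards [hall] with s hs
    obtain ⟨hs1, hsan⟩ := hs
    have hsD : s ∉ D := hs1.self_of_nhds.1
    have hsdisc := hs1.self_of_nhds.2.1
    have hsper := hs1.self_of_nhds.2.2.1
    have hB : brB a b (N.z p) s = 0 := by
      have h1 : ∀ᶠ t in 𝓝[≠] s, brB a b (N.z p) t = 0 := by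
        filter_upwards [hzero s hsD, hs1.filter_mono nhdsWithin_le_nhds] with t ht1 ht2
        exact ht2.2.2.2.1.2 ht1
      exact eq_of_eventually_ne (g := fun _ => (0 : ℂ)) (br_an hsan).2.continuousAt
        continuousAt_const h1
    obtain ⟨L, h2, h3, -⟩ := hsper
    refine ⟨L, h2, h3, ?_⟩
    by_contra hcon
    exact Bf_ne L hsdisc h2 h3 hcon hB
  · right
    have hnd := N_nondeg N hab hp₀ hf₀
    -- first coordinate
    have hA₀ : A₀ ≠ 0 := by
      rintro rfl
      obtain ⟨s, ⟨⟨⟨h1, h2⟩, h3⟩, h4⟩⟩ := ((((hrel p₀ hp₀).and (poly_ne B₀ hB₀ p₀)).and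
        (hnz p₀ hp₀)).and (hnd p₀ hp₀)).exists
      rw [Polynomial.eval_zero] at h1
      rcases mul_eq_zero.1 h1 with h | h
      · exact h2 h
      · rcases div_eq_zero_iff.1 h with h | h
        · exact h3 h
        · exact h4 h
    set aC := a.map (algebraMap K ℂ) with haC
    set bC := b.map (algebraMap K ℂ) with hbC
    -- the equation for the second coordinate
    have heq : ∀ p ∉ D, ∀ᶠ s in 𝓝[≠] p, A₀.eval s ≠ 0 ∧
        A₀.eval s ^ 3 * brY a b N.ν s ^ 2 = B₀.eval s ^ 3 + aC.eval s * B₀.eval s * A₀.eval s ^ 2 +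
          bC.eval s * A₀.eval s ^ 3 := by
      intro p hp
      filter_upwards [hrel p hp, poly_ne A₀ hA₀ p, hnz p hp, hnd p hp, disc_near hab p,
        N.period p] with s h1 h2 h3 h4 h5 h6
      refine ⟨h2, ?_⟩
      obtain ⟨L, g2, g3, -⟩ := h6
      have hv : N.ν s ∉ L.lattice := fun hv => h3 (Bf_lattice L g2 g3 hv)
      have e1 := Af_eq_wp L g2 g3 hv
      have e2 := Cf_eq_wp L g2 g3 hv
      have e3 := L.derivWeierstrassP_sq (N.ν s) hv
      have h3' : Bf (N.ν s) (Polynomial.aeval s a) (Polynomial.aeval s b) ≠ 0 := h3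
      have h4' : Af (N.ν s) (Polynomial.aeval s a) (Polynomial.aeval s b) ≠ 0 := h4
      have hx : L.weierstrassP (N.ν s) * A₀.eval s = B₀.eval s := by
        rw [← h1, GrClass.f, e1]
        rw [e1] at h4'
        have hP : L.weierstrassP (N.ν s) ≠ 0 := fun h => h4' (by rw [h, zero_mul])
        field_simp
      have hy : brY a b N.ν s = L.derivWeierstrassP (N.ν s) / 2 := by
        rw [brY, brC, brB, e2]
        field_simp
      rw [hy, ← aeval_map', ← aeval_map', ← hx, div_pow, e3, g2, g3]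
      ring
    have hlocY : ∀ p ∉ D, LocP (brY a b N.ν) p := by
      intro p hp
      have hz := N.z_analytic p hp
      refine ⟨fun s => 2 * brB a b (N.z p) s ^ 2, brC a b (N.z p),
        analyticAt_const.mul ((br_an hz).2.pow 2),
        Cf_analytic hz (Tay_aeval a p).1 (Tay_aeval b p).1, ?_, ?_⟩
      · filter_upwards [hnz p hp, br_near N hab p] with s h1 h2
        refine mul_ne_zero two_ne_zero (pow_ne_zero _ fun h => h1 (h2.1.1 h))
      · filter_upwards [br_near N hab p] with s h2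
        rw [← h2.2]; rfl
    obtain ⟨A₁, B₁, hB₁, hrelY⟩ := rational_of_alg D (brY a b N.ν) hlocY 3
      (fun l => if l = 2 then A₀ ^ 3 else if l = 0 then
        -(B₀ ^ 3 + aC * B₀ * A₀ ^ 2 + bC * A₀ ^ 3) else 0)
      ⟨2, by norm_num, by simpa using hA₀⟩
      (by
        intro p hp
        filter_upwards [heq p hp] with s hs
        rw [Finset.sum_range_succ, Finset.sum_range_succ, Finset.sum_range_succ,
          Finset.sum_range_zero]
        simp only [one_ne_zero, OfNat.one_ne_ofNat, OfNat.zero_ne_ofNat, if_true, if_false,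
          Polynomial.eval_zero, Polynomial.eval_neg, Polynomial.eval_add, Polynomial.eval_mul,
          Polynomial.eval_pow]
        linear_combination hs.2)
    refine ⟨algebraMap _ _ B₀ / algebraMap _ _ A₀, algebraMap _ _ A₁ / algebraMap _ _ B₁, ?_, ?_⟩
    · have hpoly : A₁ ^ 2 * A₀ ^ 3 =
          B₁ ^ 2 * (B₀ ^ 3 + aC * B₀ * A₀ ^ 2 + bC * A₀ ^ 3) := by
        refine poly_eq_of_near (p := p₀) ?_
        filter_upwards [heq p₀ hp₀, hrelY p₀ hp₀] with s h1 h2
        simp only [Polynomial.eval_add, Polynomial.eval_mul, Polynomial.eval_pow]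
        rw [← h2, ← h1.2]; ring
      have hR := congrArg (algebraMap (Polynomial ℂ) (RatFunc ℂ)) hpoly
      simp only [map_add, map_mul, map_pow] at hR
      have hA' : algebraMap (Polynomial ℂ) (RatFunc ℂ) A₀ ≠ 0 := RatFunc.algebraMap_ne_zero hA₀
      have hB' : algebraMap (Polynomial ℂ) (RatFunc ℂ) B₁ ≠ 0 := RatFunc.algebraMap_ne_zero hB₁
      field_simp
      linear_combination hR
    · intro p
      have hall := (ev_ev ((near_notMem D p).and ((disc_near hab p).and ((N.period p).and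
        ((br_near N hab p).and (N_near N hab p)))))).and (z_ev_analytic N p)
      filter_upwards [hall, poly_ne A₀ hA₀ p, poly_ne B₀ hB₀ p, poly_ne B₁ hB₁ p]
        with s hs hsA hsB hsB₁
      obtain ⟨hs1, hsan⟩ := hs
      have hsD : s ∉ D := hs1.self_of_nhds.1
      have hsdisc := hs1.self_of_nhds.2.1
      obtain ⟨hanA, hanB⟩ := br_an (a := a) (b := b) hsan
      have hanC : AnalyticAt ℂ (brC a b (N.z p)) s :=
        Cf_analytic hsan (Tay_aeval a s).1 (Tay_aeval b s).1
      have hpolc : ∀ f : Polynomial ℂ, ContinuousAt (fun t => f.eval t) s := fun f =>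
        f.continuous.continuousAt
      -- relation for the first coordinate
      have r1 : B₀.eval s * brB a b (N.z p) s = A₀.eval s * brA a b (N.z p) s := by
        refine eq_of_eventually_ne (f := fun t => B₀.eval t * brB a b (N.z p) t)
          (g := fun t => A₀.eval t * brA a b (N.z p) t) ((hpolc B₀).mul hanB.continuousAt)
          ((hpolc A₀).mul hanA.continuousAt) ?_
        filter_upwards [hrel s hsD, hnd s hsD, hs1.filter_mono nhdsWithin_le_nhds]
          with t ht1 ht2 ht3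
        have e1 := ht3.2.2.2.2.2.2
        have e2 : brA a b (N.z p) t ≠ 0 := fun h => ht2 (ht3.2.2.2.2.1.1 h)
        rw [e1] at ht1
        rw [← ht1]
        field_simp
      have hBne : brB a b (N.z p) s ≠ 0 := by
        intro h0
        rw [h0, mul_zero] at r1
        have h1 := (mul_eq_zero.1 r1.symm).resolve_left hsA
        exact AB_ne_zero hsdisc _ ⟨h1, h0⟩
      -- relation for the second coordinate
      have r2 : B₁.eval s * brC a b (N.z p) s = 2 * A₁.eval s * brB a b (N.z p) s ^ 2 := by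
        refine eq_of_eventually_ne (f := fun t => B₁.eval t * brC a b (N.z p) t)
          (g := fun t => 2 * A₁.eval t * brB a b (N.z p) t ^ 2)
          ((hpolc B₁).mul hanC.continuousAt)
          ((continuousAt_const.mul (hpolc A₁)).mul (hanB.continuousAt.pow 2)) ?_
        filter_upwards [hrelY s hsD, hnz s hsD, hs1.filter_mono nhdsWithin_le_nhds]
          with t ht1 ht2 ht3
        have e1 := ht3.2.2.2.1.2
        have e2 : brB a b (N.z p) t ≠ 0 := fun h => ht2 (ht3.2.2.2.1.1.1 h)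
        rw [← e1, brY] at ht1
        rw [← ht1]
        field_simp
      intro L g2 g3
      have hlat : N.z p s ∉ L.lattice := fun h => hBne (Bf_lattice L g2 g3 h)
      have hBne' : Bf (N.z p s) (Polynomial.aeval s a) (Polynomial.aeval s b) ≠ 0 := hBne
      refine ⟨hlat, ?_, ?_⟩
      · rw [eval_ratio hA₀ hsA, eq_div_iff hsA]
        have e1 := Af_eq_wp L g2 g3 hlat
        rw [brA, brB, e1] at r1
        have : (L.weierstrassP (N.z p s) * A₀.eval s) *
            Bf (N.z p s) (Polynomial.aeval s a) (Polynomial.aeval s b) = B₀.eval s *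
            Bf (N.z p s) (Polynomial.aeval s a) (Polynomial.aeval s b) := by
          rw [r1]; ring
        exact mul_right_cancel₀ hBne' this
      · rw [eval_ratio hB₁ hsB₁, mul_div_assoc', eq_div_iff hsB₁]
        have e1 := Cf_eq_wp L g2 g3 hlat
        rw [brC, brB, e1] at r2
        have : (L.derivWeierstrassP (N.z p s) * B₁.eval s) *
            Bf (N.z p s) (Polynomial.aeval s a) (Polynomial.aeval s b) ^ 2 = 2 * A₁.eval s *
            Bf (N.z p s) (Polynomial.aeval s a) (Polynomial.aeval s b) ^ 2 := by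
          rw [← r2]; ring
        exact mul_right_cancel₀ (pow_ne_zero 2 hBne') this

end

end Pool.Agent.Helper433.ES
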