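import Pool.Agent.Helper433_ES.Formal

/-! The local functions. -/

namespace Pool.Agent.Helper433.ES

open PowerSeries Filter Topology Finset

noncomputable section

/-- region of convergence -/
structure Reg (l : ℝ) (z a b : ℂ) : Prop where
  pos : 0 < l
  ha : ‖a‖ ≤ l ^ 4
  hb : ‖b‖ ≤ l ^ 6
  hz : 6 * l * ‖z‖ < 1

/-- the inverse of the Weierstrass function near the origin -/
def F (z a b : ℂ) : ℂ := ∑' n, z ^ n * cc a b n

/-- coefficients of the logarithm of `A0` -/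
def ch (a b : ℂ) : ℕ → ℂ
  | 0 => 0
  | 1 => 0
  | (n + 2) => (-2 * a * cc a b n - 4 * b * cc2 a b n) / (((n : ℂ) + 2) * ((n : ℂ) + 1))

/-- logarithm of `A0` -/
def Hf (z a b : ℂ) : ℂ := ∑' n, z ^ n * ch a b n

/-- `℘ σ²` near the origin -/
def A0 (z a b : ℂ) : ℂ := Complex.exp (Hf z a b)

/-- `σ²` near the origin -/
def B0 (z a b : ℂ) : ℂ := A0 z a b * F z a b

lemma cc2_norm {a b : ℂ} {l : ℝ} (hl : 0 < l) (ha : ‖a‖ ≤ l ^ 4) (hb : ‖b‖ ≤ l ^ 6) (m : ℕ) :
    l ^ 4 * ‖cc2 a b m‖ ≤ (m + 1) * (3 * l) ^ m := by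
  have : ‖cc2 a b m‖ ≤ ∑ p ∈ antidiagonal m, ‖cc a b p.1‖ * ‖cc a b p.2‖ := by
    refine (norm_sum_le _ _).trans (Finset.sum_le_sum fun p _ => ?_)
    rw [norm_mul]
  calc l ^ 4 * ‖cc2 a b m‖ ≤ l ^ 4 * ∑ p ∈ antidiagonal m, ‖cc a b p.1‖ * ‖cc a b p.2‖ := by
        gcongr
    _ = ∑ p ∈ antidiagonal m, (l ^ 2 * ‖cc a b p.1‖) * (l ^ 2 * ‖cc a b p.2‖) := by
        rw [mul_sum]; refine Finset.sum_congr rfl fun p _ => by ring
    _ ≤ ∑ p ∈ antidiagonal m, (3 * l) ^ m := by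
        refine Finset.sum_le_sum fun p hp => ?_
        rw [HasAntidiagonal.mem_antidiagonal] at hp
        rw [← hp, pow_add]
        have := cc_norm hl ha hb p.1
        have := cc_norm hl ha hb p.2
        gcongr
    _ = (m + 1) * (3 * l) ^ m := by simp

lemma norm_natCast_add_two (n : ℕ) : ‖((n : ℂ) + 2)‖ = (n : ℝ) + 2 := by
  have : ((n : ℂ) + 2) = ((n + 2 : ℕ) : ℂ) := by push_cast; ring
  rw [this, Complex.norm_natCast]; push_cast; ring

lemma norm_natCast_add_one (n : ℕ) : ‖((n : ℂ) + 1)‖ = (n : ℝ) + 1 := by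
  have : ((n : ℂ) + 1) = ((n + 1 : ℕ) : ℂ) := by push_cast; ring
  rw [this, Complex.norm_natCast]; push_cast; ring

lemma ch_norm {a b : ℂ} {l : ℝ} (hl : 0 < l) (ha : ‖a‖ ≤ l ^ 4) (hb : ‖b‖ ≤ l ^ 6) (n : ℕ) :
    ‖ch a b n‖ ≤ (3 * l) ^ n := by
  rcases n with _ | _ | n
  · simp [ch]
  · simp [ch]; positivity
  · have h1 := cc_norm hl ha hb n
    have h2 := cc2_norm hl ha hb n
    rw [ch, norm_div, norm_mul, norm_natCast_add_two, norm_natCast_add_one]
    have h3 : ‖-2 * a * cc a b n - 4 * b * cc2 a b n‖ ≤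
        2 * l ^ 4 * ‖cc a b n‖ + 4 * l ^ 6 * ‖cc2 a b n‖ := by
      refine (norm_sub_le _ _).trans (add_le_add ?_ ?_)
      · rw [norm_mul, norm_mul]
        have : ‖(-2 : ℂ)‖ = 2 := by simp
        rw [this]; gcongr
      · rw [norm_mul, norm_mul]
        have : ‖(4 : ℂ)‖ = 4 := by simp
        rw [this]; gcongr
    rw [div_le_iff₀ (by positivity)]
    have hpos : (0 : ℝ) < (3 * l) ^ n := by positivity
    have hn : (0 : ℝ) ≤ n := Nat.cast_nonneg n
    calc ‖-2 * a * cc a b n - 4 * b * cc2 a b n‖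
        ≤ 2 * l ^ 4 * ‖cc a b n‖ + 4 * l ^ 6 * ‖cc2 a b n‖ := h3
      _ = l ^ 2 * (2 * (l ^ 2 * ‖cc a b n‖) + 4 * (l ^ 4 * ‖cc2 a b n‖)) := by ring
      _ ≤ l ^ 2 * (2 * (3 * l) ^ n + 4 * (((n : ℝ) + 1) * (3 * l) ^ n)) := by gcongr
      _ = l ^ 2 * (3 * l) ^ n * (4 * n + 6) := by ring
      _ ≤ l ^ 2 * (3 * l) ^ n * (9 * (((n : ℝ) + 2) * ((n : ℝ) + 1))) := by
          gcongr; nlinarith
      _ = (3 * l) ^ (n + 2) * (((n : ℝ) + 2) * ((n : ℝ) + 1)) := by ring

section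

variable {l : ℝ} {z a b : ℂ}

lemma F_term_norm (h : Reg l z a b) (n : ℕ) :
    ‖z ^ n * cc a b n‖ ≤ (l ^ 2)⁻¹ * (1 / 2) ^ n := by
  have h1 := cc_norm h.pos h.ha h.hb n
  have hl := h.pos
  rw [norm_mul, norm_pow, ← div_eq_inv_mul, le_div_iff₀ (by positivity)]
  calc ‖z‖ ^ n * ‖cc a b n‖ * l ^ 2 = ‖z‖ ^ n * (l ^ 2 * ‖cc a b n‖) := by ring
    _ ≤ ‖z‖ ^ n * (3 * l) ^ n := by gcongr
    _ = (3 * l * ‖z‖) ^ n := by rw [mul_pow (3 * l)]; ring
    _ ≤ (1 / 2) ^ n := by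
        gcongr
        have := h.hz
        nlinarith

lemma H_term_norm (h : Reg l z a b) (n : ℕ) :
    ‖z ^ n * ch a b n‖ ≤ (1 / 2) ^ n := by
  have h1 := ch_norm h.pos h.ha h.hb n
  have hl := h.pos
  rw [norm_mul, norm_pow]
  calc ‖z‖ ^ n * ‖ch a b n‖ ≤ ‖z‖ ^ n * (3 * l) ^ n := by gcongr
    _ = (3 * l * ‖z‖) ^ n := by rw [mul_pow (3 * l)]; ring
    _ ≤ (1 / 2) ^ n := by
        gcongr
        have := h.hz
        nlinarith

lemma summable_half : Summable fun n : ℕ => ((1 : ℝ) / 2) ^ n := summable_geometric_two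

lemma F_summable (h : Reg l z a b) : Summable fun n => z ^ n * cc a b n :=
  Summable.of_norm_bounded (summable_half.mul_left _) (F_term_norm h)

lemma H_summable (h : Reg l z a b) : Summable fun n => z ^ n * ch a b n :=
  Summable.of_norm_bounded summable_half (H_term_norm h)

lemma F_norm (h : Reg l z a b) : l ^ 2 * ‖F z a b‖ ≤ 2 := by
  have hl := h.pos
  have h1 : ‖F z a b‖ ≤ ∑' n : ℕ, (l ^ 2)⁻¹ * ((1 : ℝ) / 2) ^ n :=
    tsum_of_norm_bounded ((summable_half.mul_left _).hasSum) (F_term_norm h)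
  rw [tsum_mul_left, tsum_geometric_two] at h1
  calc l ^ 2 * ‖F z a b‖ ≤ l ^ 2 * ((l ^ 2)⁻¹ * 2) := by gcongr
    _ = 2 := by field_simp

lemma H_norm (h : Reg l z a b) : ‖Hf z a b‖ ≤ 2 := by
  have h1 : ‖Hf z a b‖ ≤ ∑' n : ℕ, ((1 : ℝ) / 2) ^ n :=
    tsum_of_norm_bounded (summable_half.hasSum) (H_term_norm h)
  rwa [tsum_geometric_two] at h1

lemma A0_norm (h : Reg l z a b) : ‖A0 z a b‖ ≤ 8 := by
  rw [A0, Complex.norm_exp]
  have h1 : (Hf z a b).re ≤ 2 := (Complex.re_le_norm _).trans (H_norm h)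
  have h2 : Real.exp 2 ≤ 8 := by
    have h3 := Real.exp_one_lt_d9
    have h4 : Real.exp 2 = Real.exp 1 * Real.exp 1 := by rw [← Real.exp_add]; norm_num
    have h5 := Real.exp_pos 1
    rw [h4]; nlinarith
  exact (Real.exp_le_exp.2 h1).trans h2

lemma B0_norm (h : Reg l z a b) : l ^ 2 * ‖B0 z a b‖ ≤ 16 := by
  have h1 := A0_norm h
  have h2 := F_norm h
  have hl := h.pos
  rw [B0, norm_mul]
  calc l ^ 2 * (‖A0 z a b‖ * ‖F z a b‖) = ‖A0 z a b‖ * (l ^ 2 * ‖F z a b‖) := by ring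
    _ ≤ 8 * 2 := by gcongr
    _ = 16 := by norm_num

lemma A0_ne : A0 z a b ≠ 0 := Complex.exp_ne_zero _

end

/-! analyticity in parameters -/

section Param

variable {U : Set ℂ} {ζ α β : ℂ → ℂ}

lemma hc_diff (hα : DifferentiableOn ℂ α U) (hβ : DifferentiableOn ℂ β U) (n : ℕ) :
    DifferentiableOn ℂ (fun s => hc (α s) (β s) n) U := by
  induction n using Nat.strong_induction_on with
  | _ n ih =>
    rcases n with _ | _ | n
    · exact differentiableOn_const (0 : ℂ)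
    · exact differentiableOn_const (0 : ℂ)
    · simp only [hc_succ]
      have hb : ∀ m ≤ n, DifferentiableOn ℂ
          (fun s => bconv (hc (α s) (β s)) (hc (α s) (β s)) m) U := by
        intro m hm
        unfold bconv
        refine DifferentiableOn.fun_sum fun p hp => ?_
        rw [HasAntidiagonal.mem_antidiagonal] at hp
        exact ((differentiableOn_const _).mul (ih p.1 (by omega))).mul (ih p.2 (by omega))
      have hb2 : DifferentiableOn ℂ
          (fun s => bconv (hc (α s) (β s)) (bconv (hc (α s) (β s)) (hc (α s) (β s))) n) U := by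
        have : (fun s => bconv (hc (α s) (β s)) (bconv (hc (α s) (β s)) (hc (α s) (β s))) n) =
          fun s => ∑ p ∈ antidiagonal n, (n.choose p.1 : ℂ) * hc (α s) (β s) p.1 *
            bconv (hc (α s) (β s)) (hc (α s) (β s)) p.2 := rfl
        rw [this]
        refine DifferentiableOn.fun_sum fun p hp => ?_
        rw [HasAntidiagonal.mem_antidiagonal] at hp
        exact ((differentiableOn_const _).mul (ih p.1 (by omega))).mul (hb p.2 (by omega))
      exact ((differentiableOn_const _).add (((differentiableOn_const _).mul hα).mul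
        (hb n le_rfl))).add (((differentiableOn_const _).mul hβ).mul hb2)

lemma cc_diff (hα : DifferentiableOn ℂ α U) (hβ : DifferentiableOn ℂ β U) (n : ℕ) :
    DifferentiableOn ℂ (fun s => cc (α s) (β s) n) U := (hc_diff hα hβ n).div_const _

lemma ch_diff (hα : DifferentiableOn ℂ α U) (hβ : DifferentiableOn ℂ β U) (n : ℕ) :
    DifferentiableOn ℂ (fun s => ch (α s) (β s) n) U := by
  rcases n with _ | _ | n
  · exact differentiableOn_const 0
  · exact differentiableOn_const 0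
  · simp only [ch]
    refine DifferentiableOn.div_const ?_ _
    have h2 : DifferentiableOn ℂ (fun s => cc2 (α s) (β s) n) U := by
      unfold cc2
      exact DifferentiableOn.fun_sum fun p _ => (cc_diff hα hβ p.1).mul (cc_diff hα hβ p.2)
    exact (((differentiableOn_const _).mul hα).mul (cc_diff hα hβ n)).sub
      (((differentiableOn_const _).mul hβ).mul h2)

lemma F_diff {l : ℝ} (hU : IsOpen U) (hζ : DifferentiableOn ℂ ζ U)
    (hα : DifferentiableOn ℂ α U) (hβ : DifferentiableOn ℂ β U)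
    (h : ∀ s ∈ U, Reg l (ζ s) (α s) (β s)) :
    DifferentiableOn ℂ (fun s => F (ζ s) (α s) (β s)) U := by
  refine Complex.differentiableOn_tsum_of_summable_norm (summable_half.mul_left (l ^ 2)⁻¹)
    (fun n => (hζ.pow n).mul (cc_diff hα hβ n)) hU fun n s hs => ?_
  exact F_term_norm (h s hs) n

lemma H_diff {l : ℝ} (hU : IsOpen U) (hζ : DifferentiableOn ℂ ζ U)
    (hα : DifferentiableOn ℂ α U) (hβ : DifferentiableOn ℂ β U)
    (h : ∀ s ∈ U, Reg l (ζ s) (α s) (β s)) :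
    DifferentiableOn ℂ (fun s => Hf (ζ s) (α s) (β s)) U := by
  refine Complex.differentiableOn_tsum_of_summable_norm summable_half
    (fun n => (hζ.pow n).mul (ch_diff hα hβ n)) hU fun n s hs => ?_
  exact H_term_norm (h s hs) n

lemma A0_diff {l : ℝ} (hU : IsOpen U) (hζ : DifferentiableOn ℂ ζ U)
    (hα : DifferentiableOn ℂ α U) (hβ : DifferentiableOn ℂ β U)
    (h : ∀ s ∈ U, Reg l (ζ s) (α s) (β s)) :
    DifferentiableOn ℂ (fun s => A0 (ζ s) (α s) (β s)) U :=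
  (H_diff hU hζ hα hβ h).cexp

lemma B0_diff {l : ℝ} (hU : IsOpen U) (hζ : DifferentiableOn ℂ ζ U)
    (hα : DifferentiableOn ℂ α U) (hβ : DifferentiableOn ℂ β U)
    (h : ∀ s ∈ U, Reg l (ζ s) (α s) (β s)) :
    DifferentiableOn ℂ (fun s => B0 (ζ s) (α s) (β s)) U :=
  (A0_diff hU hζ hα hβ h).mul (F_diff hU hζ hα hβ h)

end Param

end

end Pool.Agent.Helper433.ES
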