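import Pool.Agent.Helper433_ES.Coef

/-! Formal identities for the expansion at the origin. -/

namespace Pool.Agent.Helper433.ES

open PowerSeries Filter Topology Finset

set_option linter.unusedSectionVars false

noncomputable section

section Gen

variable {k : Type*} [Field k] [CharZero k]

lemma X_pow_succ_dvd {δ : k⟦X⟧} {n : ℕ} (h0 : constantCoeff δ = 0)
    (h : X ^ n ∣ d⁄dX k δ) : X ^ (n + 1) ∣ δ := by
  rw [PowerSeries.X_pow_dvd_iff] at h ⊢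
  intro m hm
  rcases m with _ | m
  · simpa using h0
  · have h1 := h m (by omega)
    rw [PowerSeries.coeff_derivative] at h1
    have h2 : ((m : k) + 1) ≠ 0 := by exact_mod_cast Nat.succ_ne_zero m
    rcases mul_eq_zero.1 h1 with h3 | h3
    · exact h3
    · exact absurd h3 h2

lemma eq_zero_of_X_pow_dvd {δ : k⟦X⟧} (h : ∀ n, X ^ n ∣ δ) : δ = 0 := by
  ext m
  exact (PowerSeries.X_pow_dvd_iff.1 (h (m + 1))) m (by omega)

lemma lin1_unique {δ κ : k⟦X⟧} (h0 : constantCoeff δ = 0) (h : d⁄dX k δ = κ * δ) : δ = 0 := by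
  refine eq_zero_of_X_pow_dvd fun n => ?_
  induction n with
  | zero => simp
  | succ n ih =>
    refine X_pow_succ_dvd h0 ?_
    rw [h]; exact Dvd.dvd.mul_left ih κ

lemma lin2_unique {δ κ : k⟦X⟧} (h0 : constantCoeff δ = 0) (h1 : constantCoeff (d⁄dX k δ) = 0)
    (h : d⁄dX k (d⁄dX k δ) = κ * δ) : δ = 0 := by
  refine eq_zero_of_X_pow_dvd fun n => ?_
  induction n with
  | zero => simp
  | succ n ih =>
    refine X_pow_succ_dvd h0 ?_
    rcases n with _ | n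
    · simp
    · refine X_pow_succ_dvd h1 ?_
      rw [h]; exact Dvd.dvd.mul_left ((pow_dvd_pow X (Nat.le_succ n)).trans ih) κ

lemma derivative_rescale (c : k) (φ : k⟦X⟧) :
    d⁄dX k (rescale c φ) = C c * rescale c (d⁄dX k φ) := by
  ext n
  rw [PowerSeries.coeff_derivative, coeff_rescale, PowerSeries.coeff_C_mul, coeff_rescale,
    PowerSeries.coeff_derivative]
  ring

lemma rescale_C (c x : k) : rescale c (C x) = C x := by
  ext n
  rw [coeff_rescale, PowerSeries.coeff_C]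
  split_ifs with h
  · subst h; simp
  · simp

lemma constantCoeff_rescale (c : k) (φ : k⟦X⟧) : constantCoeff (rescale c φ) = constantCoeff φ := by
  rw [← coeff_zero_eq_constantCoeff_apply, coeff_rescale]; simp

/-- numerator of the duplication formula -/
def NN (A B φ : k⟦X⟧) : k⟦X⟧ := 4 * (φ + A * φ ^ 3 + B * φ ^ 4)

/-- denominator of the duplication formula -/
def DD (A B φ : k⟦X⟧) : k⟦X⟧ := 1 - 2 * A * φ ^ 2 - 8 * B * φ ^ 3 + A ^ 2 * φ ^ 4

lemma d_ofNat4 (x : k⟦X⟧) : d⁄dX k (4 * x) = 4 * d⁄dX k x := by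
  have : (4 : k⟦X⟧) = C 4 := (map_ofNat C 4).symm
  rw [this, Derivation.leibniz, derivative_C]; simp

lemma d_ofNat2 (x : k⟦X⟧) : d⁄dX k (2 * x) = 2 * d⁄dX k x := by
  have : (2 : k⟦X⟧) = C 2 := (map_ofNat C 2).symm
  rw [this, Derivation.leibniz, derivative_C]; simp

lemma d_ofNat8 (x : k⟦X⟧) : d⁄dX k (8 * x) = 8 * d⁄dX k x := by
  have : (8 : k⟦X⟧) = C 8 := (map_ofNat C 8).symm
  rw [this, Derivation.leibniz, derivative_C]; simp

lemma d_const {A : k⟦X⟧} (hA : d⁄dX k A = 0) (x : k⟦X⟧) : d⁄dX k (A * x) = A * d⁄dX k x := by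
  rw [Derivation.leibniz, hA]; simp

lemma d_pow' (x : k⟦X⟧) (n : ℕ) : d⁄dX k (x ^ (n + 1)) = ((n : k⟦X⟧) + 1) * x ^ n * d⁄dX k x := by
  rw [derivative_pow]; push_cast; simp

lemma d_NN {A B φ : k⟦X⟧} (hA : d⁄dX k A = 0) (hB : d⁄dX k B = 0) :
    d⁄dX k (NN A B φ) = 4 * (1 + 3 * A * φ ^ 2 + 4 * B * φ ^ 3) * d⁄dX k φ := by
  unfold NN
  rw [d_ofNat4, map_add, map_add, d_const hA, d_const hB, d_pow' φ 2, d_pow' φ 3]
  push_cast; ring

lemma d_DD {A B φ : k⟦X⟧} (hA : d⁄dX k A = 0) (hB : d⁄dX k B = 0) :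
    d⁄dX k (DD A B φ) = (- 4 * A * φ - 24 * B * φ ^ 2 + 4 * A ^ 2 * φ ^ 3) * d⁄dX k φ := by
  unfold DD
  have h1 : 2 * A * φ ^ 2 = 2 * (A * φ ^ 2) := by ring
  have h2 : 8 * B * φ ^ 3 = 8 * (B * φ ^ 3) := by ring
  have h3 : A ^ 2 * φ ^ 4 = A * (A * φ ^ 4) := by ring
  rw [h1, h2, h3, map_add, map_sub, map_sub, derivative_one, d_ofNat2, d_ofNat8, d_const hA,
    d_const hB, d_const hA, d_const hA, d_pow' φ 1, d_pow' φ 2, d_pow' φ 3]
  push_cast; ring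

lemma phi_fst {A B φ : k⟦X⟧} (hA : d⁄dX k A = 0) (hB : d⁄dX k B = 0)
    (h0 : constantCoeff φ = 0) (h1 : constantCoeff (d⁄dX k φ) = 0)
    (h : d⁄dX k (d⁄dX k φ) = 2 + 6 * A * φ ^ 2 + 8 * B * φ ^ 3) :
    (d⁄dX k φ) ^ 2 = 4 * (φ + A * φ ^ 3 + B * φ ^ 4) := by
  refine derivative.ext ?_ ?_
  · have := d_NN (φ := φ) hA hB
    unfold NN at this
    rw [this, d_pow' _ 1, h]
    push_cast; ring
  · simp [h0, h1]

/-- the algebraic identity behind the duplication formula -/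
lemma dup_alg {A B f t t' N D : k⟦X⟧} (ht : t ^ 2 = 4 * (f + A * f ^ 3 + B * f ^ 4))
    (ht' : t' = 2 + 6 * A * f ^ 2 + 8 * B * f ^ 3)
    (hN : N = 4 * (f + A * f ^ 3 + B * f ^ 4))
    (hD : D = 1 - 2 * A * f ^ 2 - 8 * B * f ^ 3 + A ^ 2 * f ^ 4) :
    let N1 := 4 * (1 + 3 * A * f ^ 2 + 4 * B * f ^ 3)
    let D1 := (- 4 * A * f - 24 * B * f ^ 2 + 4 * A ^ 2 * f ^ 3)
    let N2 := 4 * (6 * A * f + 12 * B * f ^ 2)
    let D2 := (- 4 * A - 48 * B * f + 12 * A ^ 2 * f ^ 2)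
    (N1 * D - N * D1) * D * t' + ((N2 * D - N * D2) * D - 2 * D1 * (N1 * D - N * D1)) * t ^ 2 =
      4 * (2 * D ^ 3 + 6 * A * N ^ 2 * D + 8 * B * N ^ 3) := by
  intro N1 D1 N2 D2
  subst ht'
  rw [ht]
  simp only [N1, D1, N2, D2]
  subst hN hD
  ring

lemma dup_alg2 {A B f t t' N D : k⟦X⟧} (ht : t ^ 2 = 4 * (f + A * f ^ 3 + B * f ^ 4))
    (ht' : t' = 2 + 6 * A * f ^ 2 + 8 * B * f ^ 3)
    (hN : N = 4 * (f + A * f ^ 3 + B * f ^ 4))
    (hD : D = 1 - 2 * A * f ^ 2 - 8 * B * f ^ 3 + A ^ 2 * f ^ 4) :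
    let D1 := (- 4 * A * f - 24 * B * f ^ 2 + 4 * A ^ 2 * f ^ 3)
    let D2 := (- 4 * A - 48 * B * f + 12 * A ^ 2 * f ^ 2)
    4 * (-2 * A * N * D - 4 * B * N ^ 2) =
      4 * (-2 * A * f - 4 * B * f ^ 2) * D ^ 2 + (D2 * D - D1 ^ 2) * t ^ 2 + D1 * D * t' := by
  intro D1 D2
  subst ht'
  rw [ht]
  simp only [D1, D2]
  subst hN hD
  ring

lemma dup_phi {a b : k} {φ : k⟦X⟧}
    (h0 : constantCoeff φ = 0) (h1 : constantCoeff (d⁄dX k φ) = 0)
    (h : d⁄dX k (d⁄dX k φ) = 2 + 6 * C a * φ ^ 2 + 8 * C b * φ ^ 3) :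
    rescale 2 φ * DD (C a) (C b) φ = NN (C a) (C b) φ := by
  have hA : d⁄dX k (C a) = 0 := derivative_C
  have hB : d⁄dX k (C b) = 0 := derivative_C
  have ht := phi_fst hA hB h0 h1 h
  have hD0 : constantCoeff (DD (C a) (C b) φ) = 1 := by simp [DD, h0]
  have hDu : DD (C a) (C b) φ * (DD (C a) (C b) φ)⁻¹ = 1 :=
    PowerSeries.mul_inv_cancel _ (by rw [hD0]; exact one_ne_zero)
  have hdu : d⁄dX k (DD (C a) (C b) φ)⁻¹ =
      -(DD (C a) (C b) φ)⁻¹ ^ 2 * d⁄dX k (DD (C a) (C b) φ) := derivative_inv' _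
  have key := dup_alg (N := NN (C a) (C b) φ) (D := DD (C a) (C b) φ) ht h rfl rfl
  have hdN := d_NN (φ := φ) hA hB
  have hdD := d_DD (φ := φ) hA hB
  have hN0 : constantCoeff (NN (C a) (C b) φ) = 0 := by simp [NN, h0]
  generalize hN : NN (C a) (C b) φ = N at *
  generalize hDD : DD (C a) (C b) φ = D at *
  generalize hu : D⁻¹ = u at *
  generalize htt : d⁄dX k φ = t at *
  generalize hAA : C a = A at *
  generalize hBB : C b = B at *
  -- first derivative of the quotient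
  have e1 : d⁄dX k (N * u) =
      ((4 * (1 + 3 * A * φ ^ 2 + 4 * B * φ ^ 3)) * D -
        N * (- 4 * A * φ - 24 * B * φ ^ 2 + 4 * A ^ 2 * φ ^ 3)) * u ^ 2 * t := by
    rw [Derivation.leibniz, hdu, hdN, hdD]
    simp only [smul_eq_mul]
    linear_combination (-(4 * (1 + 3 * A * φ ^ 2 + 4 * B * φ ^ 3)) * u * t) * hDu
  have e2 : d⁄dX k (4 * (1 + 3 * A * φ ^ 2 + 4 * B * φ ^ 3)) =
      4 * (6 * A * φ + 12 * B * φ ^ 2) * t := by
    have : 4 * (1 + 3 * A * φ ^ 2 + 4 * B * φ ^ 3) =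
      4 * 1 + 4 * (A * φ ^ 2) + 8 * (A * φ ^ 2) + 8 * (2 * (B * φ ^ 3)) := by ring
    rw [this, map_add, map_add, map_add, d_ofNat4, d_ofNat4, d_ofNat8, d_ofNat8, d_ofNat2,
      d_const hA, d_const hB, derivative_one, d_pow' φ 1, d_pow' φ 2, htt]
    push_cast; ring
  have e3 : d⁄dX k (- 4 * A * φ - 24 * B * φ ^ 2 + 4 * A ^ 2 * φ ^ 3) =
      (- 4 * A - 48 * B * φ + 12 * A ^ 2 * φ ^ 2) * t := by
    have : - 4 * A * φ - 24 * B * φ ^ 2 + 4 * A ^ 2 * φ ^ 3 =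
      4 * (A * (A * φ ^ 3)) - (4 * (A * φ) + (8 * (2 * (B * φ ^ 2)) + 8 * (B * φ ^ 2))) := by ring
    rw [this, map_sub, map_add, map_add, d_ofNat4, d_ofNat4, d_ofNat8, d_ofNat8, d_ofNat2,
      d_const hA, d_const hA, d_const hA, d_const hB, d_pow' φ 1, d_pow' φ 2, htt]
    push_cast; ring
  have e4 : d⁄dX k (d⁄dX k (N * u)) = 4 * (2 + 6 * A * (N * u) ^ 2 + 8 * B * (N * u) ^ 3) := by
    rw [e1, Derivation.leibniz, Derivation.leibniz, map_sub, Derivation.leibniz (d⁄dX k) _ D,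
      Derivation.leibniz (d⁄dX k) N, e2, e3, hdN, hdD, d_pow' u 1, hdu, hdD]
    simp only [smul_eq_mul]
    linear_combination u ^ 3 * key + (-(u ^ 2) * ((4 * (1 + 3 * A * φ ^ 2 + 4 * B * φ ^ 3)) * D -
        N * (- 4 * A * φ - 24 * B * φ ^ 2 + 4 * A ^ 2 * φ ^ 3)) * d⁄dX k t
      - u ^ 2 * ((4 * (6 * A * φ + 12 * B * φ ^ 2)) * D -
        N * (- 4 * A - 48 * B * φ + 12 * A ^ 2 * φ ^ 2)) * t ^ 2
      + 8 * (1 + D * u + D ^ 2 * u ^ 2) + 24 * A * N ^ 2 * u ^ 2) * hDu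
  have hψ0 : constantCoeff (N * u) = 0 := by simp [hN0]
  have hψ1 : constantCoeff (d⁄dX k (N * u)) = 0 := by rw [e1]; simp [h1]
  have hr : d⁄dX k (d⁄dX k (rescale 2 φ)) =
      4 * (2 + 6 * A * (rescale 2 φ) ^ 2 + 8 * B * (rescale 2 φ) ^ 3) := by
    have hAr : rescale 2 A = A := by rw [← hAA, rescale_C]
    have hBr : rescale 2 B = B := by rw [← hBB, rescale_C]
    have c2 : (C 2 : k⟦X⟧) = 2 := map_ofNat C 2
    rw [derivative_rescale, d_const derivative_C, derivative_rescale, htt, h]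
    simp only [map_add, map_mul, map_pow, hAr, hBr, map_ofNat]
    ring
  have hδ : rescale 2 φ - N * u = 0 := by
    refine lin2_unique (κ := 4 * (6 * A * (rescale 2 φ + N * u) +
      8 * B * ((rescale 2 φ) ^ 2 + rescale 2 φ * (N * u) + (N * u) ^ 2))) ?_ ?_ ?_
    · rw [map_sub, hψ0, constantCoeff_rescale, h0, sub_zero]
    · rw [map_sub, map_sub, hψ1, derivative_rescale, map_mul, constantCoeff_rescale, htt, h1]
      simp
    · rw [map_sub, map_sub, hr, e4]; ring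
  have : rescale 2 φ = N * u := sub_eq_zero.1 hδ
  rw [this]
  linear_combination N * hDu

lemma dup_alpha {a b : k} {φ η α : k⟦X⟧}
    (h0 : constantCoeff φ = 0) (h1 : constantCoeff (d⁄dX k φ) = 0)
    (h : d⁄dX k (d⁄dX k φ) = 2 + 6 * C a * φ ^ 2 + 8 * C b * φ ^ 3)
    (hη0 : constantCoeff η = 0) (hη : d⁄dX k η = -2 * C a * φ - 4 * C b * φ ^ 2)
    (hα0 : constantCoeff α = 1) (hα : d⁄dX k α = η * α) :
    rescale 2 α = α ^ 4 * DD (C a) (C b) φ := by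
  have hA : d⁄dX k (C a) = 0 := derivative_C
  have hB : d⁄dX k (C b) = 0 := derivative_C
  have ht := phi_fst hA hB h0 h1 h
  have hD0 : constantCoeff (DD (C a) (C b) φ) = 1 := by simp [DD, h0]
  have hDu : DD (C a) (C b) φ * (DD (C a) (C b) φ)⁻¹ = 1 :=
    PowerSeries.mul_inv_cancel _ (by rw [hD0]; exact one_ne_zero)
  have hdu : d⁄dX k (DD (C a) (C b) φ)⁻¹ =
      -(DD (C a) (C b) φ)⁻¹ ^ 2 * d⁄dX k (DD (C a) (C b) φ) := derivative_inv' _
  have key := dup_alg2 (N := NN (C a) (C b) φ) (D := DD (C a) (C b) φ) ht h rfl rfl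
  have hdD := d_DD (φ := φ) hA hB
  have hdup := dup_phi h0 h1 h
  generalize hN : NN (C a) (C b) φ = N at *
  generalize hDD : DD (C a) (C b) φ = D at *
  generalize hu : D⁻¹ = u at *
  generalize htt : d⁄dX k φ = t at *
  generalize hAA : C a = A at *
  generalize hBB : C b = B at *
  have hAr : rescale 2 A = A := by rw [← hAA, rescale_C]
  have hBr : rescale 2 B = B := by rw [← hBB, rescale_C]
  have c2 : (C 2 : k⟦X⟧) = 2 := map_ofNat C 2
  have hφ2 : rescale 2 φ = N * u := by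
    calc rescale 2 φ = rescale 2 φ * (D * u) := by rw [hDu, mul_one]
      _ = N * u := by rw [← mul_assoc, hdup]
  have e3 : d⁄dX k (- 4 * A * φ - 24 * B * φ ^ 2 + 4 * A ^ 2 * φ ^ 3) =
      (- 4 * A - 48 * B * φ + 12 * A ^ 2 * φ ^ 2) * t := by
    have : - 4 * A * φ - 24 * B * φ ^ 2 + 4 * A ^ 2 * φ ^ 3 =
      4 * (A * (A * φ ^ 3)) - (4 * (A * φ) + (8 * (2 * (B * φ ^ 2)) + 8 * (B * φ ^ 2))) := by ring
    rw [this, map_sub, map_add, map_add, d_ofNat4, d_ofNat4, d_ofNat8, d_ofNat8, d_ofNat2,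
      d_const hA, d_const hA, d_const hA, d_const hB, d_pow' φ 1, d_pow' φ 2, htt]
    push_cast; ring
  -- logarithmic derivatives agree
  have hlog : 2 * rescale 2 η = 4 * η +
      (- 4 * A * φ - 24 * B * φ ^ 2 + 4 * A ^ 2 * φ ^ 3) * t * u := by
    refine derivative.ext ?_ ?_
    · rw [d_ofNat2, derivative_rescale, hη, map_add, d_ofNat4, hη, Derivation.leibniz,
        Derivation.leibniz, e3, hdu, hdD]
      simp only [map_sub, map_neg, map_mul, map_pow, hAr, hBr, map_ofNat, hφ2,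
        smul_eq_mul]
      linear_combination u ^ 2 * key + (8 * A * N * u + 4 * (-2 * A * φ - 4 * B * φ ^ 2)
        * (1 + D * u) + ((- 4 * A - 48 * B * φ + 12 * A ^ 2 * φ ^ 2) * t ^ 2 * u) +
        (- 4 * A * φ - 24 * B * φ ^ 2 + 4 * A ^ 2 * φ ^ 3) * u * d⁄dX k t) * hDu
    · simp only [map_add, map_mul, constantCoeff_rescale, hη0, h1]
      simp
  have hδ : rescale 2 α - α ^ 4 * D = 0 := by
    refine lin1_unique (κ := 2 * rescale 2 η) ?_ ?_
    · rw [map_sub, constantCoeff_rescale, map_mul, map_pow, hα0, hD0]; simp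
    · have e5 : d⁄dX k (rescale 2 α) = 2 * rescale 2 η * rescale 2 α := by
        rw [derivative_rescale, hα, map_mul, c2]; ring
      rw [map_sub, e5, mul_sub]
      congr 1
      rw [Derivation.leibniz, hdD, d_pow' α 3, hα, hlog]
      simp only [smul_eq_mul]
      push_cast
      linear_combination (-(α ^ 4 * (- 4 * A * φ - 24 * B * φ ^ 2 + 4 * A ^ 2 * φ ^ 3) * t)) * hDu
  exact sub_eq_zero.1 hδ

end Gen

end

end Pool.Agent.Helper433.ES
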