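import Pool.Agent.Helper433_ES.Coef

/-! Power series with geometric denominators. -/

namespace Pool.Agent.Helper433.ES

open PowerSeries Filter Topology Finset

noncomputable section

lemma ii_nat (n : ℕ) : IsIntegral ℤ (n : ℂ) := by
  have := isIntegral_algebraMap (R := ℤ) (A := ℂ) (x := (n : ℤ))
  simpa using this

lemma ii_sum {ι : Type*} (s : Finset ι) {f : ι → ℂ} (h : ∀ i ∈ s, IsIntegral ℤ (f i)) :
    IsIntegral ℤ (∑ i ∈ s, f i) := IsIntegral.sum _ h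

/-- clearing the denominator of an algebraic number -/
lemma exists_den {x : ℂ} (hx : IsAlgebraic ℚ x) :
    ∃ M : ℕ, 0 < M ∧ IsIntegral ℤ ((M : ℂ) * x) := by
  have hx' : IsAlgebraic ℤ x := (IsFractionRing.isAlgebraic_iff ℤ ℚ ℂ).2 hx
  obtain ⟨y, hy0, hy⟩ := hx'.exists_integral_multiple
  refine ⟨y.natAbs, Int.natAbs_pos.2 hy0, ?_⟩
  rw [Algebra.smul_def] at hy
  have h1 : IsIntegral ℤ ((y : ℂ) * x) := by simpa using hy
  rcases Int.natAbs_eq y with h | h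
  · have h2 : ((y.natAbs : ℕ) : ℂ) = (y : ℂ) := by
      conv_rhs => rw [h]
      rw [Int.cast_natCast]
    rw [h2]; exact h1
  · have h2 : ((y.natAbs : ℕ) : ℂ) = -(y : ℂ) := by
      conv_rhs => rw [h]
      rw [Int.cast_neg, Int.cast_natCast, neg_neg]
    rw [h2, neg_mul]; exact h1.neg

/-- geometric denominators -/
def Geo (φ : ℂ⟦X⟧) : Prop :=
  ∃ M : ℕ, 0 < M ∧ ∀ n, IsIntegral ℤ ((M : ℂ) ^ (n + 1) * coeff n φ)

lemma geo_scale {M : ℕ} {φ : ℂ⟦X⟧} (h : ∀ n, IsIntegral ℤ ((M : ℂ) ^ (n + 1) * coeff n φ))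
    (k : ℕ) (n : ℕ) : IsIntegral ℤ (((M * k : ℕ) : ℂ) ^ (n + 1) * coeff n φ) := by
  have h1 : ((M * k : ℕ) : ℂ) ^ (n + 1) * coeff n φ =
      (k : ℂ) ^ (n + 1) * ((M : ℂ) ^ (n + 1) * coeff n φ) := by push_cast; rw [mul_pow]; ring
  rw [h1]
  exact ((ii_nat k).pow _).mul (h n)

lemma Geo.add {φ ψ : ℂ⟦X⟧} (hφ : Geo φ) (hψ : Geo ψ) : Geo (φ + ψ) := by
  obtain ⟨M, hM, h⟩ := hφ
  obtain ⟨M', hM', h'⟩ := hψ
  refine ⟨M * M', Nat.mul_pos hM hM', fun n => ?_⟩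
  rw [map_add, mul_add]
  refine (geo_scale h M' n).add ?_
  rw [mul_comm M M']
  exact geo_scale h' M n

lemma Geo.neg {φ : ℂ⟦X⟧} (hφ : Geo φ) : Geo (-φ) := by
  obtain ⟨M, hM, h⟩ := hφ
  refine ⟨M, hM, fun n => ?_⟩
  rw [map_neg, mul_neg]
  exact (h n).neg

lemma Geo.sub {φ ψ : ℂ⟦X⟧} (hφ : Geo φ) (hψ : Geo ψ) : Geo (φ - ψ) := by
  rw [sub_eq_add_neg]; exact hφ.add hψ.neg

lemma Geo.mul {φ ψ : ℂ⟦X⟧} (hφ : Geo φ) (hψ : Geo ψ) : Geo (φ * ψ) := by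
  obtain ⟨M, hM, h⟩ := hφ
  obtain ⟨M', hM', h'⟩ := hψ
  refine ⟨M * M', Nat.mul_pos hM hM', fun n => ?_⟩
  rw [PowerSeries.coeff_mul, Finset.mul_sum]
  refine ii_sum _ fun p hp => ?_
  rw [HasAntidiagonal.mem_antidiagonal] at hp
  obtain ⟨i, hi⟩ : ∃ i, n + 1 = (p.1 + 1) + i := ⟨p.2, by omega⟩
  obtain ⟨j, hj⟩ : ∃ j, n + 1 = (p.2 + 1) + j := ⟨p.1, by omega⟩
  have h1 : ((M * M' : ℕ) : ℂ) ^ (n + 1) * (coeff p.1 φ * coeff p.2 ψ) =
      ((M : ℂ) ^ i * (M' : ℂ) ^ j) * (((M : ℂ) ^ (p.1 + 1) * coeff p.1 φ) *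
        ((M' : ℂ) ^ (p.2 + 1) * coeff p.2 ψ)) := by
    push_cast
    rw [mul_pow]
    conv_lhs => rw [hi, pow_add]
    have : (M' : ℂ) ^ (p.1 + 1 + i) = (M' : ℂ) ^ (p.2 + 1) * (M' : ℂ) ^ j := by
      rw [← pow_add, ← hi, hj]
    rw [this]; ring
  rw [h1]
  exact (((ii_nat M).pow _).mul ((ii_nat M').pow _)).mul ((h _).mul (h' _))

lemma Geo.C {x : ℂ} (hx : IsAlgebraic ℚ x) : Geo (PowerSeries.C x) := by
  obtain ⟨M, hM, h⟩ := exists_den hx
  refine ⟨M, hM, fun n => ?_⟩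
  rw [PowerSeries.coeff_C]
  split_ifs with h0
  · subst h0; simpa using h
  · simpa using isIntegral_zero

lemma alg_nat (n : ℕ) : IsAlgebraic ℚ (n : ℂ) := by
  have := isAlgebraic_algebraMap (R := ℚ) (A := ℂ) (n : ℚ)
  simpa using this

lemma Geo.nat (n : ℕ) : Geo (n : ℂ⟦X⟧) := by
  have := Geo.C (alg_nat n)
  simpa using this

lemma Geo.zero : Geo 0 := by simpa using Geo.nat 0

lemma Geo.one : Geo 1 := by simpa using Geo.nat 1

lemma Geo.X : Geo (PowerSeries.X) := by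
  refine ⟨1, one_pos, fun n => ?_⟩
  rw [PowerSeries.coeff_X]
  split_ifs
  · simpa using ii_nat 1
  · simpa using isIntegral_zero

lemma Geo.pow {φ : ℂ⟦X⟧} (hφ : Geo φ) (n : ℕ) : Geo (φ ^ n) := by
  induction n with
  | zero => rw [pow_zero]; exact Geo.one
  | succ n ih => rw [pow_succ]; exact ih.mul hφ

lemma Geo.sum {ι : Type*} (I : Finset ι) {f : ι → ℂ⟦X⟧} (h : ∀ i ∈ I, Geo (f i)) :
    Geo (∑ i ∈ I, f i) := by
  classical
  induction I using Finset.induction_on with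
  | empty => rw [Finset.sum_empty]; exact Geo.zero
  | insert i I hi ih =>
    rw [Finset.sum_insert hi]
    exact (h i (Finset.mem_insert_self i I)).add
      (ih fun j hj => h j (Finset.mem_insert_of_mem hj))

/-- dividing by `X` -/
lemma Geo.unshift {φ : ℂ⟦X⟧} (h : Geo (PowerSeries.X * φ)) : Geo φ := by
  obtain ⟨M, hM, h⟩ := h
  refine ⟨M * M, Nat.mul_pos hM hM, fun n => ?_⟩
  have h1 := h (n + 1)
  rw [PowerSeries.coeff_succ_X_mul] at h1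
  have h2 : ((M * M : ℕ) : ℂ) ^ (n + 1) * coeff n φ =
      (M : ℂ) ^ n * ((M : ℂ) ^ (n + 1 + 1) * coeff n φ) := by
    push_cast; rw [mul_pow]; ring
  rw [h2]
  exact ((ii_nat M).pow _).mul h1

lemma Geo.unshift_pow {φ : ℂ⟦X⟧} (m : ℕ) (h : Geo (PowerSeries.X ^ m * φ)) : Geo φ := by
  induction m with
  | zero => simpa using h
  | succ m ih =>
    apply ih
    apply Geo.unshift
    rw [← mul_assoc, ← pow_succ']
    exact h

lemma Geo.alg {φ : ℂ⟦X⟧} (h : Geo φ) (n : ℕ) : IsAlgebraic ℚ (coeff n φ) := by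
  obtain ⟨M, hM, h⟩ := h
  have h1 : IsAlgebraic ℚ ((M : ℂ) ^ (n + 1) * coeff n φ) :=
    ((h n).tower_top (A := ℚ)).isAlgebraic
  have hM0 : (M : ℂ) ≠ 0 := by exact_mod_cast hM.ne'
  have h2 : coeff n φ = ((M : ℂ) ^ (n + 1))⁻¹ * ((M : ℂ) ^ (n + 1) * coeff n φ) := by
    field_simp
  rw [h2]
  exact (((alg_nat M).pow _).inv).mul h1

/-- inverses -/
lemma Geo.inv {φ ψ : ℂ⟦X⟧} (h : Geo φ) (h0 : constantCoeff φ ≠ 0) (hψ : φ * ψ = 1) : Geo ψ := by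
  have halg : IsAlgebraic ℚ (constantCoeff φ) := by
    have := h.alg 0
    rwa [coeff_zero_eq_constantCoeff_apply] at this
  obtain ⟨M, hM, h⟩ := h
  obtain ⟨M', hM', h'⟩ := exists_den halg.inv
  set c := constantCoeff φ with hc
  refine ⟨M' * (M * M), Nat.mul_pos hM' (Nat.mul_pos hM hM), fun n => ?_⟩
  have hrec : ∀ n, c * coeff n ψ = (if n = 0 then 1 else 0) -
      ∑ p ∈ (antidiagonal n).erase (0, n), coeff p.1 φ * coeff p.2 ψ := by
    intro n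
    have h1 := congrArg (coeff n) hψ
    rw [PowerSeries.coeff_mul, PowerSeries.coeff_one] at h1
    rw [← Finset.add_sum_erase _ _ (a := (0, n)) (by simp)] at h1
    rw [← h1, coeff_zero_eq_constantCoeff_apply]
    ring
  induction n using Nat.strong_induction_on with
  | _ n ih =>
    have h1 : coeff n ψ = c⁻¹ * ((if n = 0 then 1 else 0) -
        ∑ p ∈ (antidiagonal n).erase (0, n), coeff p.1 φ * coeff p.2 ψ) := by
      rw [← hrec]; field_simp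
    rw [h1]
    push_cast
    have h2 : ((M' : ℂ) * ((M : ℂ) * M)) ^ (n + 1) * (c⁻¹ * ((if n = 0 then 1 else 0) -
        ∑ p ∈ (antidiagonal n).erase (0, n), coeff p.1 φ * coeff p.2 ψ)) =
        (M' * c⁻¹) * ((M' ^ n * ((M : ℂ) * M) ^ (n + 1)) * (if n = 0 then 1 else 0)) -
        ∑ p ∈ (antidiagonal n).erase (0, n), (M' * c⁻¹) * (M' ^ n * ((M : ℂ) * M) ^ (n + 1) *
          (coeff p.1 φ * coeff p.2 ψ)) := by
      rw [← Finset.mul_sum, ← Finset.mul_sum, mul_pow, pow_succ (M' : ℂ)]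
      ring
    rw [h2]
    refine IsIntegral.sub (h'.mul ?_) (ii_sum _ fun p hp => h'.mul ?_)
    · refine IsIntegral.mul ((((ii_nat M').pow _)).mul (((ii_nat M).mul (ii_nat M)).pow _)) ?_
      split_ifs
      · simpa using ii_nat 1
      · exact isIntegral_zero
    · rw [Finset.mem_erase, HasAntidiagonal.mem_antidiagonal] at hp
      have hp1 : p.1 ≠ 0 := by
        intro h0
        apply hp.1
        ext <;> simp [h0]; omega
      have h3 := ih p.2 (by omega)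
      push_cast at h3
      obtain ⟨i, hi⟩ : ∃ i, p.1 = i + 1 := ⟨p.1 - 1, by omega⟩
      have hn : n = (p.2 + 1) + i := by omega
      have h4 : (M' : ℂ) ^ n * ((M : ℂ) * M) ^ (n + 1) * (coeff p.1 φ * coeff p.2 ψ) =
          ((M' : ℂ) ^ i * (M : ℂ) ^ i) * ((M : ℂ) ^ (p.1 + 1) * coeff p.1 φ) *
          (((M' : ℂ) * ((M : ℂ) * M)) ^ (p.2 + 1) * coeff p.2 ψ) := by
        have e1 : (M' : ℂ) ^ n = (M' : ℂ) ^ (p.2 + 1) * (M' : ℂ) ^ i := by rw [← pow_add, ← hn]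
        have e2 : ((M : ℂ) * M) ^ (n + 1) = ((M : ℂ) * M) ^ (p.2 + 1) *
            ((M : ℂ) ^ i * (M : ℂ) ^ (p.1 + 1)) := by
          rw [← pow_add, ← pow_two, ← pow_mul, ← pow_mul, ← pow_add]
          congr 1
          omega
        rw [e1, e2, mul_pow (M' : ℂ)]
        ring
      rw [h4]
      exact ((((ii_nat M').pow _).mul ((ii_nat M).pow _)).mul (h _)).mul h3

lemma exists_factor {φ : ℂ⟦X⟧} (h : φ ≠ 0) :
    ∃ (m : ℕ) (ψ : ℂ⟦X⟧), φ = PowerSeries.X ^ m * ψ ∧ constantCoeff ψ ≠ 0 := by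
  classical
  have hex : ∃ n, coeff n φ ≠ 0 := by
    by_contra hcon
    push Not at hcon
    apply h
    ext n
    rw [hcon n, map_zero]
  set m := Nat.find hex with hm
  have h1 : PowerSeries.X ^ m ∣ φ := by
    rw [PowerSeries.X_pow_dvd_iff]
    intro n hn
    by_contra hne
    exact Nat.find_min hex hn hne
  obtain ⟨ψ, hψ⟩ := h1
  refine ⟨m, ψ, hψ, ?_⟩
  have h2 := Nat.find_spec hex
  rw [← hm, hψ] at h2
  have h3 := PowerSeries.coeff_X_pow_mul ψ m 0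
  rw [zero_add] at h3
  rwa [h3, coeff_zero_eq_constantCoeff_apply] at h2

/-- exact division -/
lemma Geo.of_mul {A φ : ℂ⟦X⟧} (hA0 : A ≠ 0) (hA : Geo A) (h : Geo (A * φ)) : Geo φ := by
  obtain ⟨m, B, hB, hB0⟩ := exists_factor hA0
  have hBg : Geo B := Geo.unshift_pow m (by rw [← hB]; exact hA)
  have h2 : Geo (B * φ) := Geo.unshift_pow m (by rw [← mul_assoc, ← hB]; exact h)
  have h3 : B * B⁻¹ = 1 := PowerSeries.mul_inv_cancel B hB0
  have h4 : Geo B⁻¹ := hBg.inv hB0 h3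
  have h5 : φ = B⁻¹ * (B * φ) := by rw [← mul_assoc, mul_comm B⁻¹ B, h3, one_mul]
  rw [h5]
  exact h4.mul h2

lemma Geo.deriv {φ : ℂ⟦X⟧} (h : Geo φ) : Geo (d⁄dX ℂ φ) := by
  obtain ⟨M, hM, h⟩ := h
  refine ⟨M * M, Nat.mul_pos hM hM, fun n => ?_⟩
  rw [PowerSeries.coeff_derivative]
  have h2 : ((M * M : ℕ) : ℂ) ^ (n + 1) * (coeff (n + 1) φ * ((n : ℂ) + 1)) =
      ((n + 1 : ℕ) : ℂ) * (M : ℂ) ^ n * ((M : ℂ) ^ (n + 1 + 1) * coeff (n + 1) φ) := by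
    push_cast; rw [mul_pow]; ring
  rw [h2]
  exact ((ii_nat _).mul ((ii_nat M).pow _)).mul (h _)

lemma Geo.expand {φ : ℂ⟦X⟧} (h : Geo φ) (e : ℕ) (he : e ≠ 0) : Geo (PowerSeries.expand e he φ) := by
  obtain ⟨M, hM, h⟩ := h
  refine ⟨M, hM, fun n => ?_⟩
  rw [PowerSeries.coeff_expand]
  split_ifs with hd
  · obtain ⟨i, hi⟩ : ∃ i, n + 1 = (n / e + 1) + i := ⟨n - n / e, by
      have := Nat.div_le_self n e; omega⟩
    have h2 : (M : ℂ) ^ (n + 1) * coeff (n / e) φ =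
        (M : ℂ) ^ i * ((M : ℂ) ^ (n / e + 1) * coeff (n / e) φ) := by
      conv_lhs => rw [hi, pow_add]
      ring
    rw [h2]
    exact ((ii_nat M).pow _).mul (h _)
  · rw [mul_zero]; exact isIntegral_zero

end

end Pool.Agent.Helper433.ES
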