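import Pool.Agent.Helper433_ES.Loc

/-! Expansion of polynomials at a point. -/

namespace Pool.Agent.Helper433.ES

open Filter Topology Finset

noncomputable section

section

variable {K : Type*} [Field K] [Algebra K ℂ]

/-- expansion of a polynomial over `K` at `p`, as a homomorphism -/
def hat (p : ℂ) : Polynomial K →+* PowerSeries ℂ :=
  Polynomial.eval₂RingHom ((PowerSeries.C).comp (algebraMap K ℂ)) (PowerSeries.C p + PowerSeries.X)

lemma hat_C (p : ℂ) (x : K) : hat p (Polynomial.C x) = PowerSeries.C (algebraMap K ℂ x) := by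
  simp [hat]

lemma hat_X (p : ℂ) : hat p (Polynomial.X : Polynomial K) = PowerSeries.C p + PowerSeries.X := by
  simp [hat]

lemma Tay_aeval (f : Polynomial K) (p : ℂ) :
    AnalyticAt ℂ (fun s => Polynomial.aeval s f) p ∧
      Tay (fun s => Polynomial.aeval s f) p = hat p f := by
  induction f using Polynomial.induction_on' with
  | add f g hf hg =>
    have h1 : (fun s : ℂ => Polynomial.aeval s (f + g)) =
        fun s : ℂ => Polynomial.aeval s f + Polynomial.aeval s g := by ext s; rw [map_add]
    rw [h1]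
    exact ⟨hf.1.add hg.1, by rw [Tay_add hf.1 hg.1, hf.2, hg.2, map_add]⟩
  | monomial n x =>
    have h1 : (fun s : ℂ => Polynomial.aeval s (Polynomial.monomial n x)) =
        fun s => algebraMap K ℂ x * s ^ n := by
      ext s; rw [Polynomial.aeval_monomial]
    have hid : AnalyticAt ℂ (fun s : ℂ => s) p := by fun_prop
    rw [h1]
    refine ⟨analyticAt_const.mul (hid.pow n), ?_⟩
    rw [Tay_const_mul (f := fun s => s ^ n) _ (hid.pow n), Tay_pow hid, Tay_id,
      ← Polynomial.C_mul_X_pow_eq_monomial, map_mul, map_pow, hat_C, hat_X]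

lemma aeval_deriv (f : Polynomial K) (s : ℂ) :
    deriv (fun s => Polynomial.aeval s f) s = Polynomial.aeval s (Polynomial.derivative f) :=
  f.deriv_aeval (x := s)

lemma hat_deriv (f : Polynomial K) (p : ℂ) :
    PowerSeries.derivative ℂ (hat p f) = hat p (Polynomial.derivative f) := by
  rw [← (Tay_aeval f p).2, ← Tay_deriv, ← (Tay_aeval (Polynomial.derivative f) p).2]
  congr 1
  ext s
  exact aeval_deriv f s

lemma hat_map (τ : ℂ →+* ℂ) (hτ : ∀ x : K, τ (algebraMap K ℂ x) = algebraMap K ℂ x)
    (f : Polynomial K) (p : ℂ) : PowerSeries.map τ (hat p f) = hat (τ p) f := by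
  have h1 : (PowerSeries.map τ).comp (hat (K := K) p) = hat (τ p) := by
    apply Polynomial.ringHom_ext
    · intro x
      simp [hat_C, hτ]
    · simp [hat_X]
  exact congrArg (fun g : Polynomial K →+* PowerSeries ℂ => g f) h1

lemma geo_hat (hKa : ∀ x : K, IsAlgebraic ℚ (algebraMap K ℂ x)) {p : ℂ} (hp : IsAlgebraic ℚ p)
    (f : Polynomial K) : Geo (hat p f) := by
  induction f using Polynomial.induction_on' with
  | add f g hf hg => rw [map_add]; exact hf.add hg
  | monomial n x =>
    rw [← Polynomial.C_mul_X_pow_eq_monomial, map_mul, map_pow, hat_C, hat_X]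
    exact (Geo.C (hKa x)).mul (((Geo.C hp).add Geo.X).pow n)

lemma hat_eq_map (p : ℂ) (f : Polynomial K) : hat p f = hat p (f.map (algebraMap K ℂ)) := by
  have h1 : hat (K := K) p = (hat (K := ℂ) p).comp (Polynomial.mapRingHom (algebraMap K ℂ)) := by
    apply Polynomial.ringHom_ext
    · intro x
      simp [hat_C]
    · simp [hat_X]
  rw [h1]; rfl

end

lemma hat_coe (p : ℂ) (g : Polynomial ℂ) :
    hat p g = ((g.comp (Polynomial.X + Polynomial.C p) : Polynomial ℂ) : PowerSeries ℂ) := by
  have h1 : hat (K := ℂ) p = (Polynomial.coeToPowerSeries.ringHom (R := ℂ)).comp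
      (Polynomial.compRingHom (Polynomial.X + Polynomial.C p)) := by
    apply Polynomial.ringHom_ext
    · intro x
      simp [hat_C]
    · simp [hat_X, add_comm]
  rw [h1]; rfl

lemma X_pow_dvd_hat (p : ℂ) (g : Polynomial ℂ) (n : ℕ) :
    PowerSeries.X ^ n ∣ hat p g ↔ (Polynomial.X - Polynomial.C p) ^ n ∣ g := by
  rw [Polynomial.X_sub_C_pow_dvd_iff, hat_coe, PowerSeries.X_pow_dvd_iff,
    Polynomial.X_pow_dvd_iff]
  simp only [Polynomial.coeff_coe]

lemma hat_ne {K : Type*} [Field K] [Algebra K ℂ] {f : Polynomial K} (hf : f ≠ 0) (p : ℂ) :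
    hat p f ≠ 0 := by
  intro h
  rw [hat_eq_map, hat_coe] at h
  have h1 : (f.map (algebraMap K ℂ)).comp (Polynomial.X + Polynomial.C p) = 0 := by
    ext n
    have := congrArg (PowerSeries.coeff n) h
    rwa [Polynomial.coeff_coe, map_zero] at this
  have h2 : f.map (algebraMap K ℂ) = 0 := by
    have h3 : ((f.map (algebraMap K ℂ)).comp (Polynomial.X + Polynomial.C p)).comp
        (Polynomial.X - Polynomial.C p) = 0 := by rw [h1, Polynomial.zero_comp]
    rw [Polynomial.comp_assoc] at h3
    simpa using h3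
  exact hf ((Polynomial.map_eq_zero_iff (algebraMap K ℂ).injective).1 h2)

/-- substitution `s = p + u ^ e` -/
lemma Tay_comp_pow {g : ℂ → ℂ} {p : ℂ} (hg : AnalyticAt ℂ g p) (e : ℕ) (he : e ≠ 0) :
    AnalyticAt ℂ (fun u => g (p + u ^ e)) 0 ∧
      Tay (fun u => g (p + u ^ e)) 0 = PowerSeries.expand e he (Tay g p) := by
  have h1 : Tendsto (fun u : ℂ => u ^ e) (𝓝 0) (𝓝 0) := by
    have : Continuous fun u : ℂ => u ^ e := by fun_prop
    have h2 := this.tendsto 0
    simpa [zero_pow he] using h2
  have h2 : ∀ᶠ u in 𝓝 (0 : ℂ), HasSum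
      (fun m => u ^ m * PowerSeries.coeff m (PowerSeries.expand e he (Tay g p)))
      ((fun u => g (p + u ^ e)) (0 + u)) := by
    filter_upwards [h1.eventually (Tay_hasSum hg)] with u hu
    rw [zero_add]
    have hinj : Function.Injective fun n : ℕ => e * n := fun x y hxy =>
      Nat.eq_of_mul_eq_mul_left (Nat.pos_of_ne_zero he) hxy
    rw [← hinj.hasSum_iff]
    · have h3 : ((fun m => u ^ m * PowerSeries.coeff m (PowerSeries.expand e he (Tay g p))) ∘
          fun n : ℕ => e * n) = fun n => (u ^ e) ^ n * PowerSeries.coeff n (Tay g p) := by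
        ext n
        simp only [Function.comp_apply]
        rw [PowerSeries.coeff_expand_mul, pow_mul]
      rw [h3]
      exact hu
    · intro m hm
      rw [PowerSeries.coeff_expand, if_neg, mul_zero]
      rintro ⟨j, rfl⟩
      exact hm ⟨j, rfl⟩
  obtain ⟨h3, h4⟩ := Tay_of_hasSum (f := fun u => g (p + u ^ e)) (p := 0)
    (c := fun m => PowerSeries.coeff m (PowerSeries.expand e he (Tay g p))) h2
  refine ⟨h3, ?_⟩
  rw [h4]
  ext m
  simp

end

end Pool.Agent.Helper433.ES
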