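import Pool.Agent.Helper433_ES.Glue2
import Pool.Agent.Helper433_ES.Hat
import Pool.Agent.Helper433_ES.AB

/-! Growth of the local quotients near the poles and at infinity. -/

namespace Pool.Agent.Helper433.ES

open Filter Topology Finset

noncomputable section

variable {K : Type*} [Field K] [Algebra K ℂ]

lemma aeval_map' (f : Polynomial K) (s : ℂ) :
    Polynomial.aeval s f = (f.map (algebraMap K ℂ)).eval s := by
  rw [Polynomial.eval_map, Polynomial.aeval_def]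

/-- local size of the coefficients -/
lemma weight_q {a b : Polynomial K} {q : ℂ} {ω : ℕ}
    (ha : (Polynomial.X - Polynomial.C q) ^ ω ∣ (a.map (algebraMap K ℂ)) ^ 3)
    (hb : (Polynomial.X - Polynomial.C q) ^ ω ∣ (b.map (algebraMap K ℂ)) ^ 2) :
    ∃ C₀ : ℝ, 1 ≤ C₀ ∧ ∀ s : ℂ, 0 < ‖s - q‖ → ‖s - q‖ < 1 →
      ‖(Polynomial.aeval s a : ℂ)‖ ≤ (C₀ * ‖s - q‖ ^ ((ω : ℝ) / 12)) ^ 4 ∧
      ‖(Polynomial.aeval s b : ℂ)‖ ≤ (C₀ * ‖s - q‖ ^ ((ω : ℝ) / 12)) ^ 6 := by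
  obtain ⟨a₁, ha₁⟩ := ha
  obtain ⟨b₁, hb₁⟩ := hb
  have hc : IsCompact (Metric.closedBall q 1) := isCompact_closedBall q 1
  obtain ⟨Ma, hMa⟩ := hc.exists_bound_of_continuousOn (a₁.continuous.continuousOn)
  obtain ⟨Mb, hMb⟩ := hc.exists_bound_of_continuousOn (b₁.continuous.continuousOn)
  set C₀ : ℝ := 1 + |Ma| + |Mb| with hC₀
  have hC1 : 1 ≤ C₀ := by have := abs_nonneg Ma; have := abs_nonneg Mb; linarith
  have hCa : Ma ≤ C₀ ^ 12 := by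
    have h1 : C₀ ≤ C₀ ^ 12 := by
      calc C₀ = C₀ ^ 1 := (pow_one _).symm
        _ ≤ C₀ ^ 12 := pow_le_pow_right₀ hC1 (by norm_num)
    have := le_abs_self Ma; have := abs_nonneg Mb; linarith
  have hCb : Mb ≤ C₀ ^ 12 := by
    have h1 : C₀ ≤ C₀ ^ 12 := by
      calc C₀ = C₀ ^ 1 := (pow_one _).symm
        _ ≤ C₀ ^ 12 := pow_le_pow_right₀ hC1 (by norm_num)
    have := le_abs_self Mb; have := abs_nonneg Ma; linarith
  refine ⟨C₀, hC1, fun s hs0 hs1 => ?_⟩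
  have hsb : s ∈ Metric.closedBall q 1 := by
    rw [Metric.mem_closedBall, dist_eq_norm]; exact hs1.le
  set x := ‖s - q‖ with hx
  set Y := C₀ * x ^ ((ω : ℝ) / 12) with hY
  have hY0 : 0 ≤ Y := by positivity
  have hY12 : Y ^ 12 = C₀ ^ 12 * x ^ ω := by
    rw [hY, mul_pow, ← Real.rpow_natCast (x ^ ((ω : ℝ) / 12)) 12, ← Real.rpow_mul hs0.le]
    congr 1
    have : (ω : ℝ) / 12 * ((12 : ℕ) : ℝ) = (ω : ℝ) := by push_cast; ring
    rw [this, Real.rpow_natCast]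
  constructor
  · have h1 : ‖(Polynomial.aeval s a : ℂ)‖ ^ 3 ≤ (Y ^ 4) ^ 3 := by
      have e1 : (Polynomial.aeval s a : ℂ) ^ 3 = (s - q) ^ ω * a₁.eval s := by
        have := congrArg (Polynomial.eval s) ha₁
        rw [Polynomial.eval_pow, ← aeval_map', Polynomial.eval_mul, Polynomial.eval_pow,
          Polynomial.eval_sub, Polynomial.eval_X, Polynomial.eval_C] at this
        exact this
      have e2 : (Y ^ 4) ^ 3 = Y ^ 12 := by ring
      rw [← norm_pow, e1, norm_mul, norm_pow, e2, hY12, mul_comm (C₀ ^ 12)]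
      have := (hMa s hsb).trans hCa
      gcongr
    exact (pow_le_pow_iff_left₀ (norm_nonneg _) (by positivity) (by norm_num)).1 h1
  · have h1 : ‖(Polynomial.aeval s b : ℂ)‖ ^ 2 ≤ (Y ^ 6) ^ 2 := by
      have e1 : (Polynomial.aeval s b : ℂ) ^ 2 = (s - q) ^ ω * b₁.eval s := by
        have := congrArg (Polynomial.eval s) hb₁
        rw [Polynomial.eval_pow, ← aeval_map', Polynomial.eval_mul, Polynomial.eval_pow,
          Polynomial.eval_sub, Polynomial.eval_X, Polynomial.eval_C] at this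
        exact this
      have e2 : (Y ^ 6) ^ 2 = Y ^ 12 := by ring
      rw [← norm_pow, e1, norm_mul, norm_pow, e2, hY12, mul_comm (C₀ ^ 12)]
      have := (hMb s hsb).trans hCb
      gcongr
    exact (pow_le_pow_iff_left₀ (norm_nonneg _) (by positivity) (by norm_num)).1 h1

/-- polynomial growth with the right exponent -/
lemma deg_bound (f : Polynomial K) : ∃ M : ℝ, 0 ≤ M ∧ ∀ s : ℂ, 1 ≤ ‖s‖ →
    ‖(Polynomial.aeval s f : ℂ)‖ ≤ M * ‖s‖ ^ f.natDegree := by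
  refine ⟨∑ i ∈ range (f.natDegree + 1), ‖algebraMap K ℂ (f.coeff i)‖,
    Finset.sum_nonneg fun _ _ => norm_nonneg _, fun s hs => ?_⟩
  rw [Polynomial.aeval_eq_sum_range, Finset.sum_mul]
  refine (norm_sum_le _ _).trans (Finset.sum_le_sum fun i hi => ?_)
  rw [Finset.mem_range] at hi
  rw [Algebra.smul_def, norm_mul, norm_pow]
  have : ‖s‖ ^ i ≤ ‖s‖ ^ f.natDegree := pow_le_pow_right₀ hs (by omega)
  gcongr

/-- size of the coefficients at infinity -/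
lemma weight_inf {a b : Polynomial K} {χ ω : ℕ} (ha : 3 * a.natDegree + ω ≤ 12 * χ)
    (hb : 2 * b.natDegree + ω ≤ 12 * χ) :
    ∃ C₀ : ℝ, 1 ≤ C₀ ∧ ∀ s : ℂ, 1 ≤ ‖s‖ →
      ‖(Polynomial.aeval s a : ℂ)‖ ≤ (C₀ * ‖s‖ ^ ((χ : ℝ) - (ω : ℝ) / 12)) ^ 4 ∧
      ‖(Polynomial.aeval s b : ℂ)‖ ≤ (C₀ * ‖s‖ ^ ((χ : ℝ) - (ω : ℝ) / 12)) ^ 6 := by
  obtain ⟨Ma, hMa0, hMa⟩ := deg_bound a
  obtain ⟨Mb, hMb0, hMb⟩ := deg_bound b
  set C₀ : ℝ := 1 + Ma + Mb with hC₀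
  have hC1 : 1 ≤ C₀ := by linarith
  refine ⟨C₀, hC1, fun s hs => ?_⟩
  set x := ‖s‖ with hx
  have hx0 : 0 < x := by linarith
  set Y := C₀ * x ^ ((χ : ℝ) - (ω : ℝ) / 12) with hY
  have hY0 : 0 ≤ Y := by positivity
  have hω : ω ≤ 12 * χ := by omega
  have hY12 : Y ^ 12 = C₀ ^ 12 * x ^ (12 * χ - ω) := by
    rw [hY, mul_pow, ← Real.rpow_natCast (x ^ ((χ : ℝ) - (ω : ℝ) / 12)) 12,
      ← Real.rpow_mul hx0.le]
    congr 1
    rw [← Real.rpow_natCast x (12 * χ - ω)]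
    congr 1
    push_cast [Nat.cast_sub hω]
    ring
  constructor
  · have h1 : ‖(Polynomial.aeval s a : ℂ)‖ ^ 3 ≤ (Y ^ 4) ^ 3 := by
      have e2 : (Y ^ 4) ^ 3 = Y ^ 12 := by ring
      rw [e2, hY12]
      calc ‖(Polynomial.aeval s a : ℂ)‖ ^ 3 ≤ (Ma * x ^ a.natDegree) ^ 3 := by
            gcongr; exact hMa s hs
        _ = Ma ^ 3 * x ^ (3 * a.natDegree) := by rw [mul_pow, ← pow_mul, mul_comm a.natDegree]
        _ ≤ C₀ ^ 3 * x ^ (12 * χ - ω) := by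
            have e3 : x ^ (3 * a.natDegree) ≤ x ^ (12 * χ - ω) :=
              pow_le_pow_right₀ hs (by omega)
            have e4 : Ma ≤ C₀ := by linarith
            gcongr
        _ ≤ C₀ ^ 12 * x ^ (12 * χ - ω) := by
            have : C₀ ^ 3 ≤ C₀ ^ 12 := pow_le_pow_right₀ hC1 (by norm_num)
            gcongr
    exact (pow_le_pow_iff_left₀ (norm_nonneg _) (by positivity) (by norm_num)).1 h1
  · have h1 : ‖(Polynomial.aeval s b : ℂ)‖ ^ 2 ≤ (Y ^ 6) ^ 2 := by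
      have e2 : (Y ^ 6) ^ 2 = Y ^ 12 := by ring
      rw [e2, hY12]
      calc ‖(Polynomial.aeval s b : ℂ)‖ ^ 2 ≤ (Mb * x ^ b.natDegree) ^ 2 := by
            gcongr; exact hMb s hs
        _ = Mb ^ 2 * x ^ (2 * b.natDegree) := by rw [mul_pow, ← pow_mul, mul_comm b.natDegree]
        _ ≤ C₀ ^ 2 * x ^ (12 * χ - ω) := by
            have e3 : x ^ (2 * b.natDegree) ≤ x ^ (12 * χ - ω) :=
              pow_le_pow_right₀ hs (by omega)
            have e4 : Mb ≤ C₀ := by linarith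
            gcongr
        _ ≤ C₀ ^ 12 * x ^ (12 * χ - ω) := by
            have : C₀ ^ 2 ≤ C₀ ^ 12 := pow_le_pow_right₀ hC1 (by norm_num)
            gcongr
    exact (pow_le_pow_iff_left₀ (norm_nonneg _) (by positivity) (by norm_num)).1 h1

/-- growth in terms of a large parameter `t` (`t = 1/|s-q|` or `t = |s|`) -/
lemma grow_core {ρ C₀ H κ μ : ℝ} (hρ : 0 < ρ) (hC₀ : 1 ≤ C₀) (N : ℕ)
    (hκμ : 2 * (κ + μ) ≤ ρ) (hN : -2 * κ ≤ N) :
    ∃ C : ℝ, 0 < C ∧ ∀ (t : ℝ) (z a b : ℂ), 1 ≤ t → ‖z‖ ≤ H * t ^ μ →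
      ‖a‖ ≤ (C₀ * t ^ κ) ^ 4 → ‖b‖ ≤ (C₀ * t ^ κ) ^ 6 →
      ‖Af z a b‖ ≤ Real.exp (C * t ^ ρ) ∧ ‖Bf z a b‖ ≤ Real.exp (C * t ^ ρ) := by
  set C1 : ℝ := 2000 * (1 + (C₀ * H) ^ 2) with hC1
  have hC10 : 0 < C1 := by positivity
  refine ⟨|Real.log 1| + (N / ρ + C1), by simp; positivity, fun t z a b ht hz ha hb => ?_⟩
  have ht0 : 0 < t := by linarith
  set l := C₀ * t ^ κ with hl
  have hl0 : 0 < l := by positivity
  obtain ⟨g1, g2⟩ := AB_growth hl0 ha hb z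
  have hlz : (l * ‖z‖) ^ 2 ≤ (C₀ * H) ^ 2 * t ^ ρ := by
    have h1 : l * ‖z‖ ≤ (C₀ * H) * t ^ (κ + μ) := by
      calc l * ‖z‖ ≤ (C₀ * t ^ κ) * (H * t ^ μ) := by gcongr
        _ = (C₀ * H) * t ^ (κ + μ) := by rw [Real.rpow_add ht0]; ring
    calc (l * ‖z‖) ^ 2 ≤ ((C₀ * H) * t ^ (κ + μ)) ^ 2 := by gcongr
      _ = (C₀ * H) ^ 2 * t ^ (2 * (κ + μ)) := by
          rw [mul_pow, ← Real.rpow_natCast (t ^ (κ + μ)) 2, ← Real.rpow_mul ht0.le]
          congr 2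
          push_cast; ring
      _ ≤ (C₀ * H) ^ 2 * t ^ ρ := by
          have := Real.rpow_le_rpow_of_exponent_le ht hκμ
          gcongr
  have hy : 1 ≤ t ^ ρ := Real.one_le_rpow ht hρ.le
  have hexp : 2000 * (1 + (l * ‖z‖) ^ 2) ≤ C1 * t ^ ρ := by
    rw [hC1]; nlinarith [sq_nonneg (C₀ * H)]
  have hN' : 1 ≤ l ^ 2 * t ^ N := by
    have h1 : l ^ 2 * t ^ N = C₀ ^ 2 * t ^ (2 * κ + N) := by
      rw [hl, mul_pow, Real.rpow_add ht0, ← Real.rpow_natCast (t ^ κ) 2, ← Real.rpow_mul ht0.le,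
        Real.rpow_natCast]
      have : κ * ((2 : ℕ) : ℝ) = 2 * κ := by push_cast; ring
      rw [this]; ring
    rw [h1]
    have h2 : 1 ≤ t ^ (2 * κ + N) := Real.one_le_rpow ht (by linarith)
    nlinarith [sq_nonneg (C₀ - 1)]
  have hAb : ‖Af z a b‖ ≤ 1 * Real.exp ((N / ρ + C1) * t ^ ρ) := by
    rw [one_mul]
    refine g1.trans (Real.exp_le_exp.2 (hexp.trans ?_))
    have : 0 ≤ (N : ℝ) / ρ := by positivity
    nlinarith
  have hBb : ‖Bf z a b‖ ≤ 1 * Real.exp ((N / ρ + C1) * t ^ ρ) := by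
    rw [one_mul]
    calc ‖Bf z a b‖ ≤ (l ^ 2 * t ^ N) * ‖Bf z a b‖ := by
          have := norm_nonneg (Bf z a b); nlinarith
      _ = t ^ N * (l ^ 2 * ‖Bf z a b‖) := by ring
      _ ≤ Real.exp ((N / ρ) * t ^ ρ) * Real.exp (C1 * t ^ ρ) := by
          gcongr
          · exact pow_le_exp_rpow ht hρ N
          · exact g2.trans (Real.exp_le_exp.2 hexp)
      _ = Real.exp ((N / ρ + C1) * t ^ ρ) := by rw [← Real.exp_add]; ring_nf
  exact ⟨bounded_factor one_pos hy hAb, bounded_factor one_pos hy hBb⟩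

end

end Pool.Agent.Helper433.ES
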