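import Pool.Agent.Helper433_ES.AB

/-! Relation with the Weierstrass function of a lattice. -/

namespace Pool.Agent.Helper433.ES

open PowerSeries Filter Topology Finset

noncomputable section

variable (L : PeriodPair) {a b : ℂ}

/-- the function `1/℘` near the origin -/
def gW (z : ℂ) : ℂ := z ^ 2 * (1 + z ^ 2 * L.weierstrassPExcept 0 z)⁻¹

lemma gW_den_analytic : AnalyticAt ℂ (fun z => 1 + z ^ 2 * L.weierstrassPExcept 0 z) 0 := by
  have h := L.analyticAt_weierstrassPExcept 0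
  fun_prop

lemma gW_u_analytic : AnalyticAt ℂ (fun z => (1 + z ^ 2 * L.weierstrassPExcept 0 z)⁻¹) 0 :=
  (gW_den_analytic L).inv (by simp)

lemma gW_analytic : AnalyticAt ℂ (gW L) 0 := by
  have h : AnalyticAt ℂ (fun z : ℂ => z ^ 2) 0 := by fun_prop
  exact h.mul (gW_u_analytic L)

lemma gW_mul {z : ℂ} (hz : z ≠ 0) (hd : 1 + z ^ 2 * L.weierstrassPExcept 0 z ≠ 0) :
    L.weierstrassP z * gW L z = 1 := by
  have h := L.ite_eq_one_sub_sq_mul_weierstrassP 0 (zero_mem _) z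
  rw [if_neg hz] at h
  simp only [sub_zero] at h
  have h1 : z ^ 2 * L.weierstrassP z = 1 + z ^ 2 * L.weierstrassPExcept 0 z := by
    rw [h]; simp; ring
  rw [gW, ← h1]
  have h2 : z ^ 2 * L.weierstrassP z ≠ 0 := by rw [h1]; exact hd
  have h3 : z ^ 2 ≠ 0 := pow_ne_zero _ hz
  have h4 : L.weierstrassP z ≠ 0 := fun h => h2 (by rw [h, mul_zero])
  field_simp

lemma eventually_good : ∀ᶠ z in 𝓝[≠] (0 : ℂ),
    z ≠ 0 ∧ z ∉ L.lattice ∧ 1 + z ^ 2 * L.weierstrassPExcept 0 z ≠ 0 := by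
  have h1 : ∀ᶠ z in 𝓝[≠] (0 : ℂ), z ≠ 0 := self_mem_nhdsWithin
  have h2 : ∀ᶠ z in 𝓝[≠] (0 : ℂ), z ∈ ((L.lattice : Set ℂ) \ {0})ᶜ :=
    mem_nhdsWithin_of_mem_nhds (L.compl_lattice_sdiff_singleton_mem_nhds 0)
  have h3 : ∀ᶠ z in 𝓝[≠] (0 : ℂ), 1 + z ^ 2 * L.weierstrassPExcept 0 z ≠ 0 :=
    mem_nhdsWithin_of_mem_nhds ((gW_den_analytic L).continuousAt.eventually_ne (by simp))
  filter_upwards [h1, h2, h3] with z h1 h2 h3
  refine ⟨h1, fun h => h2 ⟨h, h1⟩, h3⟩

lemma gW_taylor (h2 : L.g₂ = -4 * a) (h3 : L.g₃ = -4 * b) : Tay (gW L) 0 = phi a b := by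
  have hg := gW_analytic L
  have hu := gW_u_analytic L
  set υ := Tay (fun z => (1 + z ^ 2 * L.weierstrassPExcept 0 z)⁻¹) 0 with hυ
  have hγ : Tay (gW L) 0 = X ^ 2 * υ := by
    have h : AnalyticAt ℂ (fun z : ℂ => z ^ 2) 0 := by fun_prop
    have h' : AnalyticAt ℂ (fun z : ℂ => z) 0 := by fun_prop
    have : gW L = fun z => z ^ 2 * (1 + z ^ 2 * L.weierstrassPExcept 0 z)⁻¹ := rfl
    rw [this, Tay_mul h hu, Tay_pow h', Tay_id]; simp [hυ]
  have hυ0 : constantCoeff υ = 1 := by rw [hυ, constantCoeff_Tay]; simp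
  set γ := Tay (gW L) 0 with hγdef
  have hγ0 : constantCoeff γ = 0 := by rw [hγ]; simp
  have hdγ : d⁄dX ℂ γ = X * (2 * υ + X * d⁄dX ℂ υ) := by
    rw [hγ, Derivation.leibniz, d_pow' X 1, derivative_X]
    simp only [smul_eq_mul]; push_cast; ring
  have hγ1 : constantCoeff (d⁄dX ℂ γ) = 0 := by rw [hdγ]; simp
  have hne : d⁄dX ℂ γ ≠ 0 := by
    rw [hdγ]
    intro h
    have h1 : (2 * υ + X * d⁄dX ℂ υ) = 0 := by
      rcases mul_eq_zero.1 h with h | h
      · exact absurd h X_ne_zero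
      · exact h
    have h2 := congrArg constantCoeff h1
    rw [map_add, map_mul, hυ0, map_mul, constantCoeff_X, map_ofNat, map_zero] at h2
    norm_num at h2
  -- first order equation near the origin
  have key : (fun z => (deriv (gW L) z) ^ 2) =ᶠ[𝓝 0] fun z => NNf a b (gW L z) := by
    have ha1 : AnalyticAt ℂ (fun z => (deriv (gW L) z) ^ 2) 0 := (hg.deriv).pow 2
    have ha2 : AnalyticAt ℂ (fun z => NNf a b (gW L z)) 0 := NNf_analytic a b hg
    refine (ha1.frequently_eq_iff_eventually_eq ha2).1 ?_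
    refine Eventually.frequently ?_
    have hgood := eventually_good L
    have hgood2 := eventually_eventually_nhdsWithin.2 hgood
    filter_upwards [hgood, hgood2, self_mem_nhdsWithin] with z hz hz2 hz0
    have hz3 : ∀ᶠ w in 𝓝 z, w ≠ 0 ∧ w ∉ L.lattice ∧
        1 + w ^ 2 * L.weierstrassPExcept 0 w ≠ 0 := by
      have : 𝓝[≠] (0 : ℂ) ≤ 𝓝[≠] (0 : ℂ) := le_rfl
      have h0 : (fun w : ℂ => w) = fun w => w := rfl
      rw [eventually_nhdsWithin_iff] at hz2
      have h5 : ∀ᶠ w in 𝓝 z, w ≠ 0 := isOpen_ne.mem_nhds hz.1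
      filter_upwards [hz2, h5] with w hw hw0
      exact hw hw0
    have hP : ∀ w, w ≠ 0 ∧ w ∉ L.lattice ∧ 1 + w ^ 2 * L.weierstrassPExcept 0 w ≠ 0 →
        L.weierstrassP w ≠ 0 ∧ gW L w = (L.weierstrassP w)⁻¹ := by
      intro w hw
      have h1 := gW_mul L hw.1 hw.2.2
      have h2 : L.weierstrassP w ≠ 0 := fun h => by rw [h, zero_mul] at h1; exact zero_ne_one h1
      exact ⟨h2, by field_simp; linear_combination h1⟩
    have hev : gW L =ᶠ[𝓝 z] fun w => (L.weierstrassP w)⁻¹ := by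
      filter_upwards [hz3] with w hw
      exact (hP w hw).2
    have hPd : HasDerivAt L.weierstrassP (L.derivWeierstrassP z) z := by
      have := (L.analyticOnNhd_weierstrassP z hz.2.1).differentiableAt.hasDerivAt
      rwa [L.deriv_weierstrassP] at this
    have hd : deriv (gW L) z = -(L.derivWeierstrassP z) / (L.weierstrassP z) ^ 2 := by
      rw [hev.deriv_eq]
      exact (hPd.inv (hP z hz).1).deriv
    have hsq := L.derivWeierstrassP_sq z hz.2.1
    rw [h2, h3] at hsq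
    rw [hd, (hP z hz).2, NNf, div_pow, neg_sq, hsq]
    have hP0 := (hP z hz).1
    field_simp
    ring
  have key2 : (d⁄dX ℂ γ) ^ 2 = NN (C a) (C b) γ := by
    have h1 := Tay_congr key
    rw [Tay_pow (f := deriv (gW L)) hg.deriv, Tay_deriv, Tay_NNf a b hg] at h1
    exact h1
  have hA : d⁄dX ℂ (C a) = 0 := derivative_C
  have hB : d⁄dX ℂ (C b) = 0 := derivative_C
  have ode : d⁄dX ℂ (d⁄dX ℂ γ) = 2 + 6 * C a * γ ^ 2 + 8 * C b * γ ^ 3 := by
    have h1 := congrArg (d⁄dX ℂ) key2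
    rw [d_NN hA hB, d_pow' _ 1] at h1
    have h2 : (2 * d⁄dX ℂ γ) * (d⁄dX ℂ (d⁄dX ℂ γ)) =
        (2 * d⁄dX ℂ γ) * (2 + 6 * C a * γ ^ 2 + 8 * C b * γ ^ 3) := by
      push_cast at h1
      linear_combination h1
    have h20 : (2 : ℂ⟦X⟧) ≠ 0 := by
      intro h
      have h3 := congrArg constantCoeff h
      rw [map_ofNat, map_zero] at h3
      norm_num at h3
    refine mul_left_cancel₀ (mul_ne_zero h20 hne) h2
  have hδ : γ - phi a b = 0 := by
    refine lin2_unique (κ := 6 * C a * (γ + phi a b) +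
      8 * C b * (γ ^ 2 + γ * phi a b + (phi a b) ^ 2)) ?_ ?_ ?_
    · rw [map_sub, hγ0, phi_zero, sub_zero]
    · rw [map_sub, map_sub, hγ1, phi_one, sub_zero]
    · rw [map_sub, map_sub, ode, phi_ode]; ring
  exact sub_eq_zero.1 hδ

lemma gW_eq_F (h2 : L.g₂ = -4 * a) (h3 : L.g₃ = -4 * b) :
    gW L =ᶠ[𝓝 0] fun z => F z a b := by
  refine Tay_inj (gW_analytic L) (F_taylor a b).1 ?_
  rw [gW_taylor L h2 h3, (F_taylor a b).2]; rfl

lemma Af_Bf_entire (a b : ℂ) : AnalyticOnNhd ℂ (fun z => Af z a b) Set.univ ∧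
    AnalyticOnNhd ℂ (fun z => Bf z a b) Set.univ :=
  ⟨fun _ _ => (AB_analytic (ζ := fun z => z) (α := fun _ => a) (β := fun _ => b)
    analyticAt_id analyticAt_const analyticAt_const).1,
  fun _ _ => (AB_analytic (ζ := fun z => z) (α := fun _ => a) (β := fun _ => b)
    analyticAt_id analyticAt_const analyticAt_const).2⟩

instance : Countable L.lattice := L.latticeEquivProd.toEquiv.countable_iff.2 inferInstance

lemma Af_eq_wp (h2 : L.g₂ = -4 * a) (h3 : L.g₃ = -4 * b) {z : ℂ} (hz : z ∉ L.lattice) :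
    Af z a b = L.weierstrassP z * Bf z a b := by
  have hcount : (L.lattice : Set ℂ).Countable := by
    have : Countable L.lattice := inferInstance
    exact Set.countable_coe_iff.1 this
  have hpre : IsPreconnected ((L.lattice : Set ℂ)ᶜ) := by
    have := hcount.isPathConnected_compl_of_one_lt_rank (by
      rw [Complex.rank_real_complex]; exact_mod_cast one_lt_two)
    exact this.isConnected.isPreconnected
  have hA := (Af_Bf_entire a b).1
  have hB := (Af_Bf_entire a b).2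
  have hf : AnalyticOnNhd ℂ (fun z => Af z a b) ((L.lattice : Set ℂ)ᶜ) :=
    hA.mono (Set.subset_univ _)
  have hg : AnalyticOnNhd ℂ (fun z => L.weierstrassP z * Bf z a b) ((L.lattice : Set ℂ)ᶜ) :=
    L.analyticOnNhd_weierstrassP.mul (hB.mono (Set.subset_univ _))
  -- a small good point
  obtain ⟨l, hl, hla, hlb⟩ := exists_l a b
  have hev : ∀ᶠ z in 𝓝[≠] (0 : ℂ), z ∉ L.lattice ∧ Af z a b = L.weierstrassP z * Bf z a b := by
    have h4 : ∀ᶠ z in 𝓝[≠] (0 : ℂ), gW L z = F z a b :=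
      (gW_eq_F L h2 h3).filter_mono nhdsWithin_le_nhds
    have h5 : ∀ᶠ z in 𝓝[≠] (0 : ℂ), Reg l z a b :=
      (eventually_reg hl hla hlb).filter_mono nhdsWithin_le_nhds
    filter_upwards [eventually_good L, h4, h5] with z hz hgF hreg
    refine ⟨hz.2.1, ?_⟩
    have h6 := gW_mul L hz.1 hz.2.2
    rw [Af_eq hreg, Bf_eq hreg]
    have h7 : gW L z = F z a b := hgF
    rw [h7] at h6
    linear_combination (-(A0 z a b)) * h6
  obtain ⟨z₀, hz₀, hz₀'⟩ := (hev.and (eventually_eventually_nhdsWithin.2 hev)).exists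
  have hz₀0 : z₀ ≠ 0 := fun h => hz₀.1 (by rw [h]; exact zero_mem _)
  have hfg : (fun z => Af z a b) =ᶠ[𝓝 z₀] fun z => L.weierstrassP z * Bf z a b := by
    rw [eventually_nhdsWithin_iff] at hz₀'
    have h5 : ∀ᶠ w in 𝓝 z₀, w ≠ 0 := isOpen_ne.mem_nhds hz₀0
    filter_upwards [hz₀', h5] with w hw hw0
    exact (hw hw0).2
  exact hf.eqOn_of_preconnected_of_eventuallyEq hg hpre hz₀.1 hfg hz

lemma Bf_lattice (h2 : L.g₂ = -4 * a) (h3 : L.g₃ = -4 * b) {z : ℂ} (hz : z ∈ L.lattice) :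
    Bf z a b = 0 := by
  -- both sides of the identity multiplied by `(w - z)²`
  have hE : AnalyticAt ℂ (L.weierstrassPExcept z) z := L.analyticAt_weierstrassPExcept z
  have hB := ((Af_Bf_entire a b).2 z (Set.mem_univ z)).continuousAt
  have hA := ((Af_Bf_entire a b).1 z (Set.mem_univ z)).continuousAt
  have hev : ∀ᶠ w in 𝓝[≠] z, (w - z) ^ 2 * Af w a b =
      ((w - z) ^ 2 * L.weierstrassPExcept z w + 1 - (w - z) ^ 2 / z ^ 2) * Bf w a b := by
    have h1 : ∀ᶠ w in 𝓝[≠] z, w ∈ ((L.lattice : Set ℂ) \ {z})ᶜ :=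
      mem_nhdsWithin_of_mem_nhds (L.compl_lattice_sdiff_singleton_mem_nhds z)
    filter_upwards [h1, self_mem_nhdsWithin] with w hw hw0
    have hwz : w ≠ z := hw0
    have hwL : w ∉ L.lattice := fun h => hw ⟨h, hwz⟩
    have h4 := L.ite_eq_one_sub_sq_mul_weierstrassP z hz w
    rw [if_neg hwz] at h4
    rw [← h4, Af_eq_wp L h2 h3 hwL]; ring
  have hc1 : ContinuousAt (fun w => (w - z) ^ 2 * Af w a b) z := by fun_prop
  have hc2 : ContinuousAt (fun w => ((w - z) ^ 2 * L.weierstrassPExcept z w + 1 -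
      (w - z) ^ 2 / z ^ 2) * Bf w a b) z := by
    have := hE.continuousAt
    refine ContinuousAt.mul ?_ hB
    refine ContinuousAt.sub ?_ ?_
    · fun_prop
    · exact ContinuousAt.div_const (by fun_prop) _
  have t1 : Tendsto (fun w => (w - z) ^ 2 * Af w a b) (𝓝[≠] z) (𝓝 ((z - z) ^ 2 * Af z a b)) :=
    hc1.tendsto.mono_left nhdsWithin_le_nhds
  have t2 : Tendsto (fun w => ((w - z) ^ 2 * L.weierstrassPExcept z w + 1 -
      (w - z) ^ 2 / z ^ 2) * Bf w a b) (𝓝[≠] z) (𝓝 (((z - z) ^ 2 * L.weierstrassPExcept z z + 1 -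
      (z - z) ^ 2 / z ^ 2) * Bf z a b)) :=
    hc2.tendsto.mono_left nhdsWithin_le_nhds
  have t3 := t1.congr' hev
  have := tendsto_nhds_unique t3 t2
  simpa using this.symm

/-- `Bf` does not vanish off the lattice, in the nondegenerate case. -/
lemma Bf_ne (hD : 4 * a ^ 3 + 27 * b ^ 2 ≠ 0) (h2 : L.g₂ = -4 * a) (h3 : L.g₃ = -4 * b) {z : ℂ}
    (hz : z ∉ L.lattice) : Bf z a b ≠ 0 := by
  intro h
  have h1 := Af_eq_wp L h2 h3 hz
  rw [h, mul_zero] at h1
  exact AB_ne_zero hD z ⟨h1, h⟩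

/-- independence of the representative modulo the lattice -/
lemma AB_cross (h2 : L.g₂ = -4 * a) (h3 : L.g₃ = -4 * b)
    {z w : ℂ} (h : z - w ∈ L.lattice) : Af z a b * Bf w a b = Af w a b * Bf z a b := by
  by_cases hw : w ∈ L.lattice
  · have hz : z ∈ L.lattice := by
      have := add_mem h hw
      simpa using this
    rw [Bf_lattice L h2 h3 hw, Bf_lattice L h2 h3 hz]; ring
  · have hz : z ∉ L.lattice := fun hz => hw (by
      have := sub_mem hz h
      simpa using this)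
    have h4 : L.weierstrassP z = L.weierstrassP w := by
      have := L.weierstrassP_add_coe w ⟨z - w, h⟩
      simpa using this
    rw [Af_eq_wp L h2 h3 hw, Af_eq_wp L h2 h3 hz, h4]; ring

end

end Pool.Agent.Helper433.ES
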