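import Pool.Agent.Helper433_ES.Glue3
import Pool.Agent.Helper433_ES.Fib
import Pool.Agent.Helper433_ES.Wp
import Pool.Agent.Helper433_ES.Grow

/-! The global quotient attached to a class. -/

namespace Pool.Agent.Helper433.ES

open Filter Topology Finset

noncomputable section

lemma cross_facts {a b z v : ℂ} (hD : 4 * a ^ 3 + 27 * b ^ 2 ≠ 0) (h : IsPeriod a b (z - v)) :
    (Af z a b = 0 ↔ Af v a b = 0) ∧ (Bf z a b = 0 ↔ Bf v a b = 0) ∧
      Bf z a b / Af z a b = Bf v a b / Af v a b := by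
  obtain ⟨L, h2, h3, hL⟩ := h
  have hc := AB_cross L h2 h3 hL
  have n1 := AB_ne_zero hD z
  have n2 := AB_ne_zero hD v
  have hA : Af z a b = 0 ↔ Af v a b = 0 := by
    constructor
    · intro h0
      rw [h0, zero_mul] at hc
      rcases mul_eq_zero.1 hc.symm with h | h
      · exact h
      · exact absurd ⟨h0, h⟩ n1
    · intro h0
      rw [h0, zero_mul] at hc
      rcases mul_eq_zero.1 hc with h | h
      · exact h
      · exact absurd ⟨h0, h⟩ n2
  have hB : Bf z a b = 0 ↔ Bf v a b = 0 := by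
    constructor
    · intro h0
      rw [h0, mul_zero] at hc
      rcases mul_eq_zero.1 hc with h | h
      · exact absurd ⟨h, h0⟩ n1
      · exact h
    · intro h0
      rw [h0, mul_zero] at hc
      rcases mul_eq_zero.1 hc.symm with h | h
      · exact absurd ⟨h, h0⟩ n2
      · exact h
  refine ⟨hA, hB, ?_⟩
  by_cases h0 : Af z a b = 0
  · rw [h0, hA.1 h0, div_zero, div_zero]
  · have h1 : Af v a b ≠ 0 := fun h => h0 (hA.2 h)
    rw [div_eq_div_iff h0 h1]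
    linear_combination -hc

lemma prop_dichotomy (D : Finset ℂ) (P : ℂ → Prop)
    (h : ∀ p ∉ D, (∀ᶠ s in 𝓝[≠] p, P s) ∨ (∀ᶠ s in 𝓝[≠] p, ¬ P s)) :
    (∀ p ∉ D, ∀ᶠ s in 𝓝[≠] p, P s) ∨ (∀ p ∉ D, ∀ᶠ s in 𝓝[≠] p, ¬ P s) := by
  have hDo : IsOpen ((D : Set ℂ)ᶜ) := D.finite_toSet.isClosed.isOpen_compl
  have hopen : ∀ R : ℂ → Prop, IsOpen {p : ℂ | ∀ᶠ s in 𝓝[≠] p, R s} := by
    intro R
    rw [isOpen_iff_mem_nhds]
    intro p hp
    have hp' : ∀ᶠ s in 𝓝[≠] p, R s := hp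
    rw [eventually_nhdsWithin_iff] at hp'
    have h1 := eventually_eventually_nhds.2 hp'
    show ∀ᶠ p' in 𝓝 p, ∀ᶠ s in 𝓝[≠] p', R s
    filter_upwards [h1] with p' hp''
    by_cases hpp : p' = p
    · rw [hpp]; exact hp
    · rw [eventually_nhdsWithin_iff]
      filter_upwards [hp'', isOpen_ne.mem_nhds hpp] with s hs1 hs2 _
      exact hs1 hs2
  have hpre : IsPreconnected ((D : Set ℂ)ᶜ) := by
    have := (D.finite_toSet.countable).isPathConnected_compl_of_one_lt_rank (by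
      rw [Complex.rank_real_complex]; exact_mod_cast one_lt_two)
    exact this.isConnected.isPreconnected
  have hdisj : Disjoint {p : ℂ | ∀ᶠ s in 𝓝[≠] p, P s} {p : ℂ | ∀ᶠ s in 𝓝[≠] p, ¬ P s} := by
    rw [Set.disjoint_left]
    intro p hp1 hp2
    have h3 : ∀ᶠ s in 𝓝[≠] p, P s := hp1
    have h4 : ∀ᶠ s in 𝓝[≠] p, ¬ P s := hp2
    obtain ⟨s, hs1, hs2⟩ := (h3.and h4).exists
    exact hs2 hs1
  rcases hpre.subset_or_subset (hopen P) (hopen fun s => ¬ P s) hdisj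
    (fun p hp => h p hp) with h1 | h1
  · exact Or.inl fun p hp => h1 hp
  · exact Or.inr fun p hp => h1 hp

variable {K : Type*} [Field K] [Algebra K ℂ] {a b : Polynomial K} {χ : ℕ} {D : Finset ℂ}
  {m : ℂ → ℕ} {mi : ℕ}

lemma disc_near (hab : disc a b ≠ 0) (p : ℂ) :
    ∀ᶠ s in 𝓝[≠] p, 4 * (Polynomial.aeval s a : ℂ) ^ 3 + 27 * (Polynomial.aeval s b) ^ 2 ≠ 0 := by
  have h1 : ∀ s : ℂ, 4 * (Polynomial.aeval s a : ℂ) ^ 3 + 27 * (Polynomial.aeval s b) ^ 2 =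
      Polynomial.aeval s (disc a b) := by
    intro s
    unfold disc
    rw [map_add, map_mul, map_mul, map_pow, map_pow, map_ofNat, map_ofNat]
  have hT := Tay_aeval (disc a b) p
  rcases hT.1.eventually_eq_zero_or_eventually_ne_zero with h | h
  · exfalso
    have h2 : Tay (fun s => (Polynomial.aeval s (disc a b) : ℂ)) p = 0 := by
      have h3 : (fun s => (Polynomial.aeval s (disc a b) : ℂ)) =ᶠ[𝓝 p] fun _ => 0 := h
      rw [Tay_congr h3, Tay_const, map_zero]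
    exact hat_ne hab p (by rw [← hT.2, h2])
  · filter_upwards [h] with s hs
    rw [h1]; exact hs

variable (N : GrClass a b χ D m mi)

/-- the global quotient -/
def GrClass.f (s : ℂ) : ℂ :=
  Bf (N.ν s) (Polynomial.aeval s a) (Polynomial.aeval s b) /
    Af (N.ν s) (Polynomial.aeval s a) (Polynomial.aeval s b)

/-- denominators of the branches -/
def brA (a b : Polynomial K) (z : ℂ → ℂ) (s : ℂ) : ℂ :=
  Af (z s) (Polynomial.aeval s a) (Polynomial.aeval s b)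

/-- numerators of the branches -/
def brB (a b : Polynomial K) (z : ℂ → ℂ) (s : ℂ) : ℂ :=
  Bf (z s) (Polynomial.aeval s a) (Polynomial.aeval s b)

lemma br_an {z : ℂ → ℂ} {p : ℂ} (hz : AnalyticAt ℂ z p) :
    AnalyticAt ℂ (brA a b z) p ∧ AnalyticAt ℂ (brB a b z) p :=
  AB_analytic hz (Tay_aeval a p).1 (Tay_aeval b p).1

lemma N_near (hab : disc a b ≠ 0) (p : ℂ) : ∀ᶠ s in 𝓝[≠] p,
    (brA a b (N.z p) s = 0 ↔ brA a b N.ν s = 0) ∧ (brB a b (N.z p) s = 0 ↔ brB a b N.ν s = 0) ∧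
      N.f s = brB a b (N.z p) s / brA a b (N.z p) s := by
  filter_upwards [disc_near hab p, N.period p] with s hs1 hs2
  obtain ⟨h1, h2, h3⟩ := cross_facts hs1 hs2
  exact ⟨h1, h2, h3.symm⟩

lemma an_dich {g : ℂ → ℂ} {p : ℂ} (hg : AnalyticAt ℂ g p) :
    (∀ᶠ s in 𝓝[≠] p, g s = 0) ∨ (∀ᶠ s in 𝓝[≠] p, ¬ g s = 0) := by
  rcases hg.eventually_eq_zero_or_eventually_ne_zero with h | h
  · exact Or.inl (h.filter_mono nhdsWithin_le_nhds)
  · exact Or.inr h

/-- the denominator does not vanish identically -/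
lemma N_nondeg (hab : disc a b ≠ 0) {p₀ : ℂ} (hp₀ : p₀ ∉ D) (hf : Zer a b p₀) :
    ∀ p ∉ D, ∀ᶠ s in 𝓝[≠] p, ¬ brA a b N.ν s = 0 := by
  have hdich : ∀ p ∉ D, (∀ᶠ s in 𝓝[≠] p, brA a b N.ν s = 0) ∨
      (∀ᶠ s in 𝓝[≠] p, ¬ brA a b N.ν s = 0) := by
    intro p hp
    rcases an_dich (br_an (a := a) (b := b) (N.z_analytic p hp)).1 with h | h
    · left
      filter_upwards [h, N_near N hab p] with s hs1 hs2 using hs2.1.1 hs1
    · right
      filter_upwards [h, N_near N hab p] with s hs1 hs2 hs3 using hs1 (hs2.1.2 hs3)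
  rcases prop_dichotomy D _ hdich with h | h
  · exfalso
    obtain ⟨l, hl⟩ := hf.reg (N.z_analytic p₀ hp₀)
    have h1 := (h p₀ hp₀).and ((N_near N hab p₀).and (hl.filter_mono nhdsWithin_le_nhds))
    obtain ⟨s, hs1, hs2, hs3⟩ := h1.exists
    have h2 := hs2.1.2 hs1
    have h3 : brA a b (N.z p₀) s = A0 (N.z p₀ s) (Polynomial.aeval s a) (Polynomial.aeval s b) :=
      Af_eq hs3
    rw [h3] at h2
    exact A0_ne h2
  · exact h

/-- zero or nonzero class -/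
lemma N_zero_dich (hab : disc a b ≠ 0) :
    (∀ p ∉ D, ∀ᶠ s in 𝓝[≠] p, brB a b N.ν s = 0) ∨
      (∀ p ∉ D, ∀ᶠ s in 𝓝[≠] p, ¬ brB a b N.ν s = 0) := by
  refine prop_dichotomy D _ fun p hp => ?_
  rcases an_dich (br_an (a := a) (b := b) (N.z_analytic p hp)).2 with h | h
  · left
    filter_upwards [h, N_near N hab p] with s hs1 hs2 using hs2.2.1.1 hs1
  · right
    filter_upwards [h, N_near N hab p] with s hs1 hs2 hs3 using hs1 (hs2.2.1.2 hs3)

lemma N_locP (hab : disc a b ≠ 0) {p₀ : ℂ} (hp₀ : p₀ ∉ D) (hf : Zer a b p₀) :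
    ∀ p ∉ D, LocP N.f p := by
  intro p hp
  obtain ⟨h1, h2⟩ := br_an (a := a) (b := b) (N.z_analytic p hp)
  refine ⟨brA a b (N.z p), brB a b (N.z p), h1, h2, ?_, ?_⟩
  · filter_upwards [N_nondeg N hab hp₀ hf p hp, N_near N hab p] with s hs1 hs2 hs3
    exact hs1 (hs2.1.1 hs3)
  · filter_upwards [N_near N hab p] with s hs using hs.2.2

lemma N_fP (hab : disc a b ≠ 0) {p : ℂ} (hp : p ∉ D) (hf : Zer a b p) :
    ∀ᶠ s in 𝓝[≠] p, N.f s = fP a b (N.z p) s := by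
  obtain ⟨l, hl⟩ := hf.reg (N.z_analytic p hp)
  filter_upwards [N_near N hab p, hl.filter_mono nhdsWithin_le_nhds] with s hs1 hs2
  rw [hs1.2.2, brA, brB, Af_eq hs2, Bf_eq hs2, fP, mul_div_cancel_left₀ _ A0_ne]

lemma N_ext (hab : disc a b ≠ 0) {p : ℂ} (hp : p ∉ D) (hf : Zer a b p) : Ext N.f p :=
  ⟨fP a b (N.z p), hf.fP_an (N.z_analytic p hp), N_fP N hab hp hf⟩

end

end Pool.Agent.Helper433.ES
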