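import Pool.Agent.Helper433_ES.Glob1

/-! Growth of the global quotient at the poles and at infinity. -/

namespace Pool.Agent.Helper433.ES

open Filter Topology Finset

noncomputable section

variable {K : Type*} [Field K] [Algebra K ℂ] {a b : Polynomial K} {χ : ℕ} {D : Finset ℂ}
  {m : ℂ → ℕ} {mi : ℕ} (N : GrClass a b χ D m mi)

lemma near_notMem (D : Finset ℂ) (q : ℂ) : ∀ᶠ s in 𝓝[≠] q, s ∉ D := by
  have h1 : IsOpen (((D.erase q : Finset ℂ) : Set ℂ)ᶜ) :=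
    (D.erase q).finite_toSet.isClosed.isOpen_compl
  have h2 : ∀ᶠ s in 𝓝 q, s ∈ (((D.erase q : Finset ℂ) : Set ℂ)ᶜ) := h1.mem_nhds (by simp)
  rw [eventually_nhdsWithin_iff]
  filter_upwards [h2] with s hs1 hs2 hs3
  exact hs1 (Finset.mem_coe.2 (Finset.mem_erase.2 ⟨hs2, hs3⟩))

/-- a punctured neighbourhood is left by a small step -/
lemma exists_in_punctured {P : ℂ → Prop} (D : Finset ℂ) (hP : ∀ p ∉ D, ∀ᶠ s in 𝓝[≠] p, P s)
    {O : Set ℂ} (hO : IsOpen O) (hne : O.Nonempty) (hOD : ∀ s ∈ O, s ∉ D) : ∃ s ∈ O, P s := by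
  obtain ⟨s₁, hs₁⟩ := hne
  have h1 := (hP s₁ (hOD s₁ hs₁)).and (mem_nhdsWithin_of_mem_nhds (hO.mem_nhds hs₁))
  obtain ⟨s, hs, hs'⟩ := h1.exists
  exact ⟨s, hs', hs⟩

lemma N_locQ (hab : disc a b ≠ 0) {p₀ : ℂ} (hp₀ : p₀ ∉ D) (hf : Zer a b p₀) {q : ℂ}
    (hq : q ∈ D) {ω : ℕ} (ha : (Polynomial.X - Polynomial.C q) ^ ω ∣ (a.map (algebraMap K ℂ)) ^ 3)
    (hb : (Polynomial.X - Polynomial.C q) ^ ω ∣ (b.map (algebraMap K ℂ)) ^ 2) {ρ : ℝ} (hρ : 0 < ρ)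
    (hρ2 : 2 * ((m q : ℝ) - ω / 12) ≤ ρ) : LocQ N.f q ρ := by
  obtain ⟨C₀, hC₀, hw⟩ := weight_q ha hb
  obtain ⟨h, hh, hzh⟩ := N.z_pole q hq
  obtain ⟨C, hC, hgrow⟩ := grow_core (ρ := ρ) (C₀ := C₀) (H := ‖h q‖ + 1) (κ := -((ω : ℝ) / 12))
    (μ := (m q : ℝ)) hρ hC₀ ω (by linarith) (by
      have : (0 : ℝ) ≤ ω := Nat.cast_nonneg _
      linarith)
  have hhb : ∀ᶠ s in 𝓝 q, ‖h s‖ < ‖h q‖ + 1 :=
    hh.continuousAt.norm.eventually_lt continuousAt_const (by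
      show ‖h q‖ < ‖h q‖ + 1
      linarith)
  have hall := (((hzh.and (N_near N hab q)).and (near_notMem D q)).and
    ((hhb.and hh.eventually_analyticAt).filter_mono nhdsWithin_le_nhds))
  rw [eventually_nhdsWithin_iff] at hall
  obtain ⟨δ₀, hδ₀, hball⟩ := Metric.eventually_nhds_iff.1 hall
  set δ := min δ₀ 1 with hδ
  have hδ0 : 0 < δ := lt_min hδ₀ one_pos
  have hB : ∀ s, 0 < ‖s - q‖ → ‖s - q‖ < δ → s ≠ q ∧ ‖s - q‖ < 1 ∧
      (s - q) ^ m q * N.z q s = h s ∧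
      ((brA a b (N.z q) s = 0 ↔ brA a b N.ν s = 0) ∧ (brB a b (N.z q) s = 0 ↔ brB a b N.ν s = 0) ∧
        N.f s = brB a b (N.z q) s / brA a b (N.z q) s) ∧ s ∉ D ∧ ‖h s‖ < ‖h q‖ + 1 ∧
      AnalyticAt ℂ h s := by
    intro s h1 h2
    have hsq : s ≠ q := by
      rintro rfl
      simp at h1
    have h3 : dist s q < δ₀ := by
      rw [dist_eq_norm]; exact h2.trans_le (min_le_left _ _)
    obtain ⟨⟨⟨e1, e2⟩, e3⟩, e4, e5⟩ := hball h3 hsq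
    exact ⟨hsq, h2.trans_le (min_le_right _ _), e1, e2, e3, e4, e5⟩
  have hO := pball_open q δ
  have hzan : ∀ s, 0 < ‖s - q‖ → ‖s - q‖ < δ → AnalyticAt ℂ (N.z q) s := by
    intro s h1 h2
    obtain ⟨hsq, -, -, -, -, -, hhs⟩ := hB s h1 h2
    have h3 : AnalyticAt ℂ (fun s => h s / (s - q) ^ m q) s := by
      refine hhs.div ?_ (pow_ne_zero _ (sub_ne_zero.2 hsq))
      fun_prop
    refine h3.congr ?_
    filter_upwards [hO.mem_nhds ⟨h1, h2⟩] with t ht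
    obtain ⟨htq, -, e1, -⟩ := hB t ht.1 ht.2
    rw [← e1, mul_div_cancel_left₀ _ (pow_ne_zero _ (sub_ne_zero.2 htq))]
  refine ⟨δ, C, brA a b (N.z q), brB a b (N.z q), hδ0, hC, ?_, ?_, ?_, ?_⟩
  · intro s hs
    exact (br_an (hzan s hs.1 hs.2)).1.differentiableAt.differentiableWithinAt
  · intro s hs
    exact (br_an (hzan s hs.1 hs.2)).2.differentiableAt.differentiableWithinAt
  · have hne : {s : ℂ | 0 < ‖s - q‖ ∧ ‖s - q‖ < δ}.Nonempty := by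
      refine ⟨q + ((δ / 2 : ℝ) : ℂ), ?_, ?_⟩
      · rw [add_sub_cancel_left, Complex.norm_real, Real.norm_eq_abs, abs_of_pos (by linarith)]
        linarith
      · rw [add_sub_cancel_left, Complex.norm_real, Real.norm_eq_abs, abs_of_pos (by linarith)]
        linarith
    obtain ⟨s, hs, hs'⟩ := exists_in_punctured D (N_nondeg N hab hp₀ hf) hO hne
      fun s hs => (hB s hs.1 hs.2).2.2.2.2.1
    refine ⟨s, hs.1, hs.2, fun h0 => hs' ?_⟩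
    exact (hB s hs.1 hs.2).2.2.2.1.1.1 h0
  · intro s h1 h2
    obtain ⟨hsq, hs1, e1, e2, -, e4, -⟩ := hB s h1 h2
    refine ⟨e2.2.2, ?_⟩
    have hx0 : 0 < ‖s - q‖ := h1
    obtain ⟨w1, w2⟩ := hw s h1 hs1
    have ht : 1 ≤ ‖s - q‖⁻¹ := (one_le_inv₀ hx0).2 hs1.le
    have hk : ‖s - q‖⁻¹ ^ (-((ω : ℝ) / 12)) = ‖s - q‖ ^ ((ω : ℝ) / 12) := by
      rw [Real.inv_rpow hx0.le, Real.rpow_neg hx0.le, inv_inv]
    have hr : ‖s - q‖⁻¹ ^ ρ = ‖s - q‖ ^ (-ρ) := by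
      rw [Real.inv_rpow hx0.le, Real.rpow_neg hx0.le]
    have hz : ‖N.z q s‖ ≤ (‖h q‖ + 1) * ‖s - q‖⁻¹ ^ ((m q : ℕ) : ℝ) := by
      rw [Real.rpow_natCast, inv_pow, ← div_eq_mul_inv, le_div_iff₀ (pow_pos hx0 _)]
      have := congrArg norm e1
      rw [norm_mul, norm_pow] at this
      linarith
    have := hgrow ‖s - q‖⁻¹ (N.z q s) (Polynomial.aeval s a) (Polynomial.aeval s b) ht hz
      (by rw [hk]; exact w1) (by rw [hk]; exact w2)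
    rw [hr] at this
    exact this

lemma cocompact_iff {P : ℂ → Prop} : (∀ᶠ s in cocompact ℂ, P s) ↔ ∃ R : ℝ, ∀ s, R < ‖s‖ → P s := by
  rw [← Metric.cobounded_eq_cocompact]
  constructor
  · intro h
    obtain ⟨R, -, hR⟩ := (hasBasis_cobounded_norm (E := ℂ)).eventually_iff.1 h
    exact ⟨R, fun s hs => hR hs.le⟩
  · rintro ⟨R, hR⟩
    refine (hasBasis_cobounded_norm (E := ℂ)).eventually_iff.2 ⟨R + 1, trivial, fun s hs => ?_⟩
    refine hR s ?_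
    have hs' : R + 1 ≤ ‖s‖ := hs
    linarith

lemma N_locInf (hab : disc a b ≠ 0) {p₀ : ℂ} (hp₀ : p₀ ∉ D) (hf : Zer a b p₀) {ω : ℕ}
    (ha : 3 * a.natDegree + ω ≤ 12 * χ) (hb : 2 * b.natDegree + ω ≤ 12 * χ) {ρ : ℝ} (hρ : 0 < ρ)
    (hρ2 : 2 * ((mi : ℝ) - ω / 12) ≤ ρ) : LocInf N.f ρ := by
  obtain ⟨C₀, hC₀, hw⟩ := weight_inf ha hb
  obtain ⟨h, hh, hzh⟩ := N.zi_pole
  have hω : (ω : ℝ) / 12 ≤ χ := by
    have : (ω : ℝ) ≤ 12 * χ := by exact_mod_cast (by omega : ω ≤ 12 * χ)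
    linarith
  obtain ⟨C, hC, hgrow⟩ := grow_core (ρ := ρ) (C₀ := C₀) (H := ‖h 0‖ + 1)
    (κ := (χ : ℝ) - (ω : ℝ) / 12) (μ := (mi : ℝ) - χ) hρ hC₀ 0 (by linarith) (by
      push_cast; linarith)
  have hhb : ∀ᶠ s in 𝓝 (0 : ℂ), ‖h s‖ < ‖h 0‖ + 1 :=
    hh.continuousAt.norm.eventually_lt continuousAt_const (by
      show ‖h 0‖ < ‖h 0‖ + 1
      linarith)
  obtain ⟨ε, hε, hball⟩ := Metric.eventually_nhds_iff.1 (hhb.and hh.eventually_analyticAt)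
  obtain ⟨R₁, hR₁⟩ := cocompact_iff.1 (hzh.and N.period_infty)
  -- the discriminant and the poles
  obtain ⟨R₂, hR₂⟩ : ∃ R₂ : ℝ, ∀ s : ℂ, R₂ < ‖s‖ → s ∉ D ∧
      4 * (Polynomial.aeval s a : ℂ) ^ 3 + 27 * (Polynomial.aeval s b) ^ 2 ≠ 0 := by
    have hDm : (disc a b).map (algebraMap K ℂ) ≠ 0 :=
      (Polynomial.map_ne_zero_iff (algebraMap K ℂ).injective).2 hab
    set T : Finset ℂ := D ∪ ((disc a b).map (algebraMap K ℂ)).roots.toFinset with hT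
    refine ⟨∑ t ∈ T, ‖t‖, fun s hs => ?_⟩
    have hsT : s ∉ T := by
      intro hsT
      have := Finset.single_le_sum (f := fun t : ℂ => ‖t‖) (fun _ _ => norm_nonneg _) hsT
      linarith
    rw [hT, Finset.mem_union, not_or] at hsT
    refine ⟨hsT.1, fun h0 => hsT.2 ?_⟩
    rw [Multiset.mem_toFinset, Polynomial.mem_roots hDm, Polynomial.IsRoot, ← aeval_map']
    rw [← h0]
    unfold disc
    rw [map_add, map_mul, map_mul, map_pow, map_pow, map_ofNat, map_ofNat]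
  set R : ℝ := max (max R₁ R₂) (max 1 (1 / ε)) with hR
  have hR1 : 1 ≤ R := (le_max_left _ _).trans (le_max_right _ _)
  have hB : ∀ s : ℂ, R < ‖s‖ → s ≠ 0 ∧ 1 < ‖s‖ ∧ s ^ χ * N.zi s = s ^ mi * h s⁻¹ ∧
      ((brA a b N.zi s = 0 ↔ brA a b N.ν s = 0) ∧ (brB a b N.zi s = 0 ↔ brB a b N.ν s = 0) ∧
        N.f s = brB a b N.zi s / brA a b N.zi s) ∧ s ∉ D ∧ ‖h s⁻¹‖ < ‖h 0‖ + 1 ∧
      AnalyticAt ℂ h s⁻¹ := by
    intro s hs
    have h1 : 1 < ‖s‖ := lt_of_le_of_lt hR1 hs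
    have h2 : R₁ < ‖s‖ := ((le_max_left _ _).trans (le_max_left _ _)).trans_lt hs
    have h3 : R₂ < ‖s‖ := ((le_max_right _ _).trans (le_max_left _ _)).trans_lt hs
    have h4 : 1 / ε < ‖s‖ := ((le_max_right _ _).trans (le_max_right _ _)).trans_lt hs
    have hs0 : s ≠ 0 := by
      rintro rfl
      rw [norm_zero] at h1
      linarith
    obtain ⟨e1, e2⟩ := hR₁ s h2
    obtain ⟨e3, e4⟩ := hR₂ s h3
    have h5 : dist s⁻¹ 0 < ε := by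
      rw [dist_zero_right, norm_inv]
      rw [div_lt_iff₀ hε] at h4
      rw [inv_lt_iff_one_lt_mul₀ (by linarith)]
      linarith
    obtain ⟨e5, e6⟩ := hball h5
    obtain ⟨c1, c2, c3⟩ := cross_facts e4 e2
    exact ⟨hs0, h1, e1, ⟨c1, c2, c3.symm⟩, e3, e5, e6⟩
  have hO : IsOpen {s : ℂ | R < ‖s‖} := isOpen_lt continuous_const continuous_norm
  have hzan : ∀ s, R < ‖s‖ → AnalyticAt ℂ N.zi s := by
    intro s hs
    obtain ⟨hs0, -, -, -, -, -, hhs⟩ := hB s hs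
    have h3 : AnalyticAt ℂ (fun s => s ^ mi * h s⁻¹ / s ^ χ) s := by
      have e1 : AnalyticAt ℂ (fun s : ℂ => s⁻¹) s := analyticAt_inv hs0
      have e2 : AnalyticAt ℂ (fun s => h s⁻¹) s := AnalyticAt.fun_comp hhs e1
      have e3 : AnalyticAt ℂ (fun s : ℂ => s) s := by fun_prop
      exact ((e3.pow mi).mul e2).div (e3.pow χ) (pow_ne_zero _ hs0)
    refine h3.congr ?_
    filter_upwards [hO.mem_nhds hs] with t ht
    obtain ⟨ht0, -, e1, -⟩ := hB t ht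
    rw [← e1, mul_div_cancel_left₀ _ (pow_ne_zero _ ht0)]
  refine ⟨R, C, brA a b N.zi, brB a b N.zi, by linarith, hC, ?_, ?_, ?_, ?_⟩
  · intro s hs
    exact (br_an (hzan s hs)).1.differentiableAt.differentiableWithinAt
  · intro s hs
    exact (br_an (hzan s hs)).2.differentiableAt.differentiableWithinAt
  · have hne : {s : ℂ | R < ‖s‖}.Nonempty := by
      refine ⟨((R + 1 : ℝ) : ℂ), ?_⟩
      show R < ‖((R + 1 : ℝ) : ℂ)‖
      rw [Complex.norm_real, Real.norm_eq_abs, abs_of_pos (by linarith)]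
      linarith
    obtain ⟨s, hs, hs'⟩ := exists_in_punctured D (N_nondeg N hab hp₀ hf) hO hne
      fun s hs => (hB s hs).2.2.2.2.1
    refine ⟨s, hs, fun h0 => hs' ?_⟩
    exact (hB s hs).2.2.2.1.1.1 h0
  · intro s hs
    obtain ⟨hs0, hs1, e1, e2, -, e4, -⟩ := hB s hs
    refine ⟨e2.2.2, ?_⟩
    have hx0 : 0 < ‖s‖ := by linarith
    obtain ⟨w1, w2⟩ := hw s hs1.le
    have hz : ‖N.zi s‖ ≤ (‖h 0‖ + 1) * ‖s‖ ^ ((mi : ℝ) - χ) := by
      rw [Real.rpow_sub hx0, Real.rpow_natCast, Real.rpow_natCast, ← mul_div_assoc,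
        le_div_iff₀ (pow_pos hx0 _)]
      have := congrArg norm e1
      rw [norm_mul, norm_mul, norm_pow, norm_pow] at this
      have h6 : ‖s‖ ^ mi * ‖h s⁻¹‖ ≤ ‖s‖ ^ mi * (‖h 0‖ + 1) := by
        have := e4.le
        gcongr
      linarith
    exact hgrow ‖s‖ (N.zi s) (Polynomial.aeval s a) (Polynomial.aeval s b) hs1.le hz w1 w2

end

end Pool.Agent.Helper433.ES
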