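import Mathlib

/-! Taylor series at a point as formal power series. -/

namespace Pool.Agent.Helper433.ES

open PowerSeries Filter Topology

noncomputable section

/-- Taylor series of `f` at `p`. -/
def Tay (f : ℂ → ℂ) (p : ℂ) : ℂ⟦X⟧ :=
  PowerSeries.mk fun n => iteratedDeriv n f p / (n.factorial : ℂ)

lemma coeff_Tay (f : ℂ → ℂ) (p : ℂ) (n : ℕ) :
    coeff n (Tay f p) = iteratedDeriv n f p / (n.factorial : ℂ) := by
  simp [Tay]

lemma fac_ne (n : ℕ) : (n.factorial : ℂ) ≠ 0 := by exact_mod_cast Nat.factorial_ne_zero n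

lemma constantCoeff_Tay (f : ℂ → ℂ) (p : ℂ) : constantCoeff (Tay f p) = f p := by
  rw [← coeff_zero_eq_constantCoeff_apply, coeff_Tay]; simp

lemma Tay_congr {f g : ℂ → ℂ} {p : ℂ} (h : f =ᶠ[𝓝 p] g) : Tay f p = Tay g p := by
  ext n
  rw [coeff_Tay, coeff_Tay, h.iteratedDeriv_eq]

lemma Tay_const (c p : ℂ) : Tay (fun _ => c) p = C c := by
  ext n
  rw [coeff_Tay, PowerSeries.coeff_C]
  rcases n with _ | n
  · simp
  · simp [iteratedDeriv_const]

lemma Tay_id (p : ℂ) : Tay (fun s => s) p = C p + X := by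
  ext n
  rw [coeff_Tay]
  rcases n with _ | _ | n
  · simp
  · simp [iteratedDeriv_one, coeff_X]
  · rw [iteratedDeriv_succ', iteratedDeriv_succ']
    simp [coeff_X]

lemma Tay_mul {f g : ℂ → ℂ} {p : ℂ} (hf : AnalyticAt ℂ f p) (hg : AnalyticAt ℂ g p) :
    Tay (fun s => f s * g s) p = Tay f p * Tay g p := by
  ext n
  rw [coeff_Tay, PowerSeries.coeff_mul]
  have h1 : iteratedDeriv n (f * g) p = ∑ i ∈ Finset.range (n + 1),
      (n.choose i : ℂ) * iteratedDeriv i f p * iteratedDeriv (n - i) g p :=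
    iteratedDeriv_mul hf.contDiffAt hg.contDiffAt
  have h2 : (fun s => f s * g s) = f * g := rfl
  rw [h2, h1, Finset.Nat.sum_antidiagonal_eq_sum_range_succ_mk, Finset.sum_div]
  refine Finset.sum_congr rfl fun i hi => ?_
  have hi' : i ≤ n := by simpa [Nat.lt_succ_iff] using hi
  rw [coeff_Tay, coeff_Tay]
  have h3 : (n.choose i : ℂ) * (i.factorial : ℂ) * ((n - i).factorial : ℂ) = n.factorial := by
    exact_mod_cast Nat.choose_mul_factorial_mul_factorial hi'
  have h4 := fac_ne i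
  have h5 := fac_ne (n - i)
  have h6 := fac_ne n
  field_simp
  rw [← h3]; ring

lemma Tay_add {f g : ℂ → ℂ} {p : ℂ} (hf : AnalyticAt ℂ f p) (hg : AnalyticAt ℂ g p) :
    Tay (fun s => f s + g s) p = Tay f p + Tay g p := by
  ext n
  rw [coeff_Tay, map_add, coeff_Tay, coeff_Tay]
  have h1 : iteratedDeriv n (f + g) p = iteratedDeriv n f p + iteratedDeriv n g p :=
    iteratedDeriv_add hf.contDiffAt hg.contDiffAt
  have h2 : (fun s => f s + g s) = f + g := rfl
  rw [h2, h1, add_div]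

lemma Tay_const_mul (c : ℂ) {f : ℂ → ℂ} {p : ℂ} (hf : AnalyticAt ℂ f p) :
    Tay (fun s => c * f s) p = C c * Tay f p := by
  rw [Tay_mul analyticAt_const hf, Tay_const]

lemma Tay_neg {f : ℂ → ℂ} {p : ℂ} (hf : AnalyticAt ℂ f p) :
    Tay (fun s => - f s) p = - Tay f p := by
  have := Tay_const_mul (-1) hf
  simp only [neg_mul, one_mul] at this
  rw [this]; simp

lemma Tay_sub {f g : ℂ → ℂ} {p : ℂ} (hf : AnalyticAt ℂ f p) (hg : AnalyticAt ℂ g p) :
    Tay (fun s => f s - g s) p = Tay f p - Tay g p := by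
  have := Tay_add hf hg.neg
  have h2 : (fun s => f s - g s) = fun s => f s + (-g) s := by
    ext s; simp [sub_eq_add_neg]
  rw [h2, this, sub_eq_add_neg]
  congr 1
  exact Tay_neg hg

lemma Tay_pow {f : ℂ → ℂ} {p : ℂ} (hf : AnalyticAt ℂ f p) (n : ℕ) :
    Tay (fun s => f s ^ n) p = Tay f p ^ n := by
  induction n with
  | zero =>
    simp only [pow_zero]
    rw [Tay_const]; simp
  | succ n ih =>
    have h2 : (fun s => f s ^ (n + 1)) = fun s => (f s ^ n) * f s := by ext s; ring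
    rw [h2, Tay_mul (f := fun s => f s ^ n) (hf.pow n) hf, ih, pow_succ]

lemma Tay_sum {ι : Type*} (I : Finset ι) {f : ι → ℂ → ℂ} {p : ℂ}
    (hf : ∀ i ∈ I, AnalyticAt ℂ (f i) p) :
    Tay (fun s => ∑ i ∈ I, f i s) p = ∑ i ∈ I, Tay (f i) p := by
  classical
  induction I using Finset.induction_on with
  | empty => simp only [Finset.sum_empty]; rw [Tay_const]; simp
  | insert i I hi ih =>
    have h2 : (fun s => ∑ j ∈ insert i I, f j s) = fun s => f i s + ∑ j ∈ I, f j s := by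
      ext s; rw [Finset.sum_insert hi]
    rw [h2, Finset.sum_insert hi, Tay_add (hf i (Finset.mem_insert_self i I)),
      ih fun j hj => hf j (Finset.mem_insert_of_mem hj)]
    have := Finset.analyticAt_sum I (f := f) (c := p) (𝕜 := ℂ)
      fun j hj => hf j (Finset.mem_insert_of_mem hj)
    convert this using 1
    ext s; simp

lemma Tay_deriv (f : ℂ → ℂ) (p : ℂ) : Tay (deriv f) p = d⁄dX ℂ (Tay f p) := by
  ext n
  rw [coeff_Tay, PowerSeries.coeff_derivative, coeff_Tay, iteratedDeriv_succ']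
  have h4 := fac_ne n
  have h5 : ((n : ℂ) + 1) ≠ 0 := by exact_mod_cast Nat.succ_ne_zero n
  rw [Nat.factorial_succ]; push_cast
  field_simp

lemma Tay_hasFPS {f : ℂ → ℂ} {p : ℂ} (hf : AnalyticAt ℂ f p) :
    HasFPowerSeriesAt f (FormalMultilinearSeries.ofScalars ℂ fun n => coeff n (Tay f p)) p := by
  have := hf.hasFPowerSeriesAt
  simpa only [coeff_Tay] using this

lemma ofS_coeff (c : ℕ → ℂ) (n : ℕ) :
    (FormalMultilinearSeries.ofScalars ℂ c : FormalMultilinearSeries ℂ ℂ ℂ).coeff n = c n :=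
  FormalMultilinearSeries.coeff_ofScalars

/-- Near the centre an analytic function is the sum of its Taylor series. -/
lemma Tay_hasSum {f : ℂ → ℂ} {p : ℂ} (hf : AnalyticAt ℂ f p) :
    ∀ᶠ z in 𝓝 0, HasSum (fun n => z ^ n * coeff n (Tay f p)) (f (p + z)) := by
  have h1 := (hasFPowerSeriesAt_iff.1 (Tay_hasFPS hf))
  filter_upwards [h1] with z hz
  simpa only [ofS_coeff, smul_eq_mul] using hz

/-- If `f` is the sum of a power series near `p`, this is its Taylor series. -/
lemma Tay_of_hasSum {f : ℂ → ℂ} {p : ℂ} {c : ℕ → ℂ}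
    (h : ∀ᶠ z in 𝓝 0, HasSum (fun n => z ^ n * c n) (f (p + z))) :
    AnalyticAt ℂ f p ∧ Tay f p = PowerSeries.mk c := by
  have h1 : HasFPowerSeriesAt f (FormalMultilinearSeries.ofScalars ℂ c) p := by
    rw [hasFPowerSeriesAt_iff]
    filter_upwards [h] with z hz
    simpa using hz
  refine ⟨h1.analyticAt, ?_⟩
  have h2 := h1.eq_formalMultilinearSeries (Tay_hasFPS h1.analyticAt)
  have h3 := FormalMultilinearSeries.ofScalars_series_injective ℂ (E := ℂ) h2
  ext n
  rw [coeff_mk]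
  exact (congrFun h3 n).symm

lemma Tay_inj {f g : ℂ → ℂ} {p : ℂ} (hf : AnalyticAt ℂ f p) (hg : AnalyticAt ℂ g p)
    (h : Tay f p = Tay g p) : f =ᶠ[𝓝 p] g := by
  have h1 := Tay_hasFPS hf
  have h2 := Tay_hasFPS hg
  rw [h] at h1
  have h3 := h1.sub h2
  rw [sub_self] at h3
  have h4 := h3.eventually_eq_zero
  filter_upwards [h4] with z hz
  exact sub_eq_zero.mp hz

lemma Tay_comp_mul {f : ℂ → ℂ} (c : ℂ) (hf : AnalyticAt ℂ f 0) :
    Tay (fun s => f (c * s)) 0 = rescale c (Tay f 0) := by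
  have h2 : ∀ᶠ z in 𝓝 (0 : ℂ), HasSum (fun n => z ^ n * (c ^ n * coeff n (Tay f 0)))
      (f (c * (0 + z))) := by
    have h3 : Tendsto (fun z : ℂ => c * z) (𝓝 0) (𝓝 0) := by
      have : Continuous fun z : ℂ => c * z := by fun_prop
      simpa using this.tendsto 0
    filter_upwards [h3.eventually (Tay_hasSum hf)] with z hz
    rw [zero_add] at hz ⊢
    have h4 : (fun n => (c * z) ^ n * coeff n (Tay f 0)) =
        fun n => z ^ n * (c ^ n * coeff n (Tay f 0)) := by
      ext n; rw [mul_pow]; ring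
    rwa [h4] at hz
  have h3 := (Tay_of_hasSum (f := fun s => f (c * s)) h2).2
  rw [h3]
  ext n
  simp [coeff_rescale]

/-- Vanishing of the first coefficients gives divisibility. -/
lemma X_pow_dvd_Tay {f : ℂ → ℂ} {p : ℂ} (n : ℕ) (h : ∀ m < n, coeff m (Tay f p) = 0) :
    X ^ n ∣ Tay f p := PowerSeries.X_pow_dvd_iff.2 h

end

end Pool.Agent.Helper433.ES
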