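import Pool.Agent.Helper433_ES.Glue3
import Pool.Agent.Helper433_ES.Tay

/-! Algebraic functions that are locally meromorphic off a finite set are rational. -/

namespace Pool.Agent.Helper433.ES

open Filter Topology Metric Polynomial

noncomputable section

lemma ext_of_bdd {f : ℂ → ℂ} {p : ℂ} (hd : ∀ᶠ s in 𝓝[≠] p, AnalyticAt ℂ f s)
    (hb : ∃ M : ℝ, ∀ᶠ s in 𝓝[≠] p, ‖f s‖ ≤ M) : Ext f p := by
  obtain ⟨M, hM⟩ := hb
  have h1 := hd.and hM
  rw [eventually_nhdsWithin_iff] at h1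
  obtain ⟨U, hU, hUo, hpU⟩ := _root_.eventually_nhds_iff.1 h1
  have hdiff : DifferentiableOn ℂ f (U \ {p}) := fun s hs =>
    (hU s hs.1 hs.2).1.differentiableAt.differentiableWithinAt
  have hbdd : BddAbove (norm ∘ f '' (U \ {p})) := by
    refine ⟨M, ?_⟩
    rintro _ ⟨s, hs, rfl⟩
    exact (hU s hs.1 hs.2).2
  have h2 := Complex.differentiableOn_update_limUnder_of_bddAbove (hUo.mem_nhds hpU) hdiff hbdd
  refine ⟨_, h2.analyticAt (hUo.mem_nhds hpU), ?_⟩
  filter_upwards [self_mem_nhdsWithin] with s hs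
  rw [Function.update_of_ne hs]

lemma poly_bound (P : ℂ[X]) : ∃ (K : ℝ) (N : ℕ), 0 ≤ K ∧ ∀ s : ℂ, ‖P.eval s‖ ≤ K * (1 + ‖s‖) ^ N := by
  refine ⟨∑ i ∈ Finset.range (P.natDegree + 1), ‖P.coeff i‖, P.natDegree,
    Finset.sum_nonneg fun _ _ => norm_nonneg _, fun s => ?_⟩
  rw [Polynomial.eval_eq_sum_range, Finset.sum_mul]
  refine (norm_sum_le _ _).trans (Finset.sum_le_sum fun i hi => ?_)
  rw [Finset.mem_range] at hi
  rw [norm_mul, norm_pow]
  have h1 : (1 : ℝ) ≤ 1 + ‖s‖ := by linarith [norm_nonneg s]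
  calc ‖P.coeff i‖ * ‖s‖ ^ i ≤ ‖P.coeff i‖ * (1 + ‖s‖) ^ i := by
        gcongr; linarith
    _ ≤ ‖P.coeff i‖ * (1 + ‖s‖) ^ P.natDegree := by
        have h2 : (1 + ‖s‖) ^ i ≤ (1 + ‖s‖) ^ P.natDegree := pow_le_pow_right₀ h1 (by omega)
        gcongr

lemma poly_of_growth {H : ℂ → ℂ} (hH : ∀ s, AnalyticAt ℂ H s) {K : ℝ} {N : ℕ} (hK : 0 ≤ K)
    (h : ∀ s, ‖H s‖ ≤ K * (1 + ‖s‖) ^ N) : ∃ P : ℂ[X], ∀ s, H s = P.eval s := by
  have hd : Differentiable ℂ H := fun s => (hH s).differentiableAt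
  have hzero : ∀ n, N < n → iteratedDeriv n H 0 = 0 := by
    intro n hn
    have hbound : ∀ R : ℝ, 1 ≤ R → ‖iteratedDeriv n H 0‖ ≤ (n.factorial * (K * 2 ^ N)) / R := by
      intro R hR
      have hR0 : 0 < R := by linarith
      have hgb : ∀ z ∈ sphere (0 : ℂ) R, ‖H z‖ ≤ K * (1 + R) ^ N := by
        intro z hz
        have := h z
        rwa [mem_sphere_zero_iff_norm.1 hz] at this
      have h5 := Complex.norm_iteratedDeriv_le_of_forall_mem_sphere_norm_le n hR0
        (hd.diffContOnCl) hgb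
      refine h5.trans ?_
      have h6 : (1 + R) ^ N ≤ 2 ^ N * R ^ N := by
        rw [← mul_pow]; gcongr; linarith
      have h7 : R ^ N * R ≤ R ^ n := by
        rw [← pow_succ]; exact pow_le_pow_right₀ hR hn
      rw [div_le_div_iff₀ (by positivity) hR0]
      have h8 : (0 : ℝ) ≤ n.factorial := Nat.cast_nonneg _
      calc (n.factorial : ℝ) * (K * (1 + R) ^ N) * R
          ≤ (n.factorial : ℝ) * (K * (2 ^ N * R ^ N)) * R := by gcongr
        _ = (n.factorial : ℝ) * (K * 2 ^ N) * (R ^ N * R) := by ring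
        _ ≤ (n.factorial : ℝ) * (K * 2 ^ N) * R ^ n := by gcongr
    by_contra hne
    have hpos : 0 < ‖iteratedDeriv n H 0‖ := norm_pos_iff.2 hne
    set T : ℝ := n.factorial * (K * 2 ^ N) with hT
    have hT0 : 0 ≤ T := by positivity
    have h1 := hbound (T / ‖iteratedDeriv n H 0‖ + 1) (by
      have : 0 ≤ T / ‖iteratedDeriv n H 0‖ := by positivity
      linarith)
    rw [le_div_iff₀ (by positivity)] at h1
    have h2 : ‖iteratedDeriv n H 0‖ * (T / ‖iteratedDeriv n H 0‖ + 1) =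
        T + ‖iteratedDeriv n H 0‖ := by field_simp
    rw [h2] at h1
    linarith
  set P : ℂ[X] := ∑ n ∈ Finset.range (N + 1), Polynomial.C (PowerSeries.coeff n (Tay H 0)) * Polynomial.X ^ n
    with hP
  refine ⟨P, ?_⟩
  have hPan : ∀ s, AnalyticAt ℂ (fun s => P.eval s) s := fun s => by
    have : Differentiable ℂ fun s => P.eval s := P.differentiable
    exact this.analyticAt s
  have hT : Tay H 0 = Tay (fun s => P.eval s) 0 := by
    have h1 : (fun s => P.eval s) = fun s => ∑ n ∈ Finset.range (N + 1),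
        PowerSeries.coeff n (Tay H 0) * s ^ n := by
      ext s
      rw [hP, Polynomial.eval_finsetSum]
      simp
    have hid : AnalyticAt ℂ (fun s : ℂ => s) 0 := by fun_prop
    have hmon : ∀ n ∈ Finset.range (N + 1),
        AnalyticAt ℂ (fun s => PowerSeries.coeff n (Tay H 0) * s ^ n) 0 :=
      fun n _ => analyticAt_const.mul (hid.pow n)
    rw [h1, Tay_sum _ hmon]
    have h2 : ∀ n, Tay (fun s => PowerSeries.coeff n (Tay H 0) * s ^ n) 0 =
        PowerSeries.C (PowerSeries.coeff n (Tay H 0)) * PowerSeries.X ^ n := by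
      intro n
      rw [Tay_const_mul (f := fun s => s ^ n) _ (hid.pow n), Tay_pow hid, Tay_id]
      simp
    simp only [h2]
    ext m
    rw [map_sum]
    simp only [PowerSeries.coeff_C_mul, PowerSeries.coeff_X_pow]
    by_cases hm : m < N + 1
    · rw [Finset.sum_eq_single m]
      · simp
      · intro b _ hb
        rw [if_neg (Ne.symm hb), mul_zero]
      · intro hcon
        exact absurd (Finset.mem_range.2 hm) hcon
    · rw [Finset.sum_eq_zero, coeff_Tay, hzero m (by omega), zero_div]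
      intro b hb
      rw [Finset.mem_range] at hb
      rw [if_neg (by omega), mul_zero]
  have hev := Tay_inj (hH 0) (hPan 0) hT
  have hAn : AnalyticOnNhd ℂ H Set.univ := fun s _ => hH s
  have hAn' : AnalyticOnNhd ℂ (fun s => P.eval s) Set.univ := fun s _ => hPan s
  have := hAn.eqOn_of_preconnected_of_eventuallyEq hAn' isPreconnected_univ (Set.mem_univ 0) hev
  exact fun s => this (Set.mem_univ s)

/-- bound for the roots of a monic equation -/
lemma root_bound {n : ℕ} {c : ℕ → ℂ} {x : ℂ} (h : x ^ n + ∑ l ∈ Finset.range n, c l * x ^ l = 0)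
    (hn : 0 < n) : ‖x‖ ≤ 1 + ∑ l ∈ Finset.range n, ‖c l‖ := by
  by_contra hcon
  push Not at hcon
  have hS : 0 ≤ ∑ l ∈ Finset.range n, ‖c l‖ := Finset.sum_nonneg fun _ _ => norm_nonneg _
  have hx1 : 1 ≤ ‖x‖ := by linarith
  have h1 : ‖x‖ ^ n ≤ (∑ l ∈ Finset.range n, ‖c l‖) * ‖x‖ ^ (n - 1) := by
    have h2 : x ^ n = -∑ l ∈ Finset.range n, c l * x ^ l := eq_neg_of_add_eq_zero_left h
    rw [← norm_pow, h2, norm_neg, Finset.sum_mul]
    refine (norm_sum_le _ _).trans (Finset.sum_le_sum fun l hl => ?_)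
    rw [Finset.mem_range] at hl
    rw [norm_mul, norm_pow]
    have h4 : ‖x‖ ^ l ≤ ‖x‖ ^ (n - 1) := pow_le_pow_right₀ hx1 (by omega)
    gcongr
  have h3 : ‖x‖ ^ n = ‖x‖ * ‖x‖ ^ (n - 1) := by
    rw [← pow_succ']; congr 1; omega
  rw [h3] at h1
  have h4 : 0 < ‖x‖ ^ (n - 1) := by positivity
  have h5 := le_of_mul_le_mul_right h1 h4
  linarith

lemma nhds_ne_bot' (p : ℂ) : (𝓝[≠] p).NeBot := inferInstance

/-- zeros of a nonzero polynomial are isolated -/
lemma poly_ne (P : ℂ[X]) (hP : P ≠ 0) (p : ℂ) : ∀ᶠ s in 𝓝[≠] p, P.eval s ≠ 0 := by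
  have hd : Differentiable ℂ fun s => P.eval s := P.differentiable
  rcases (hd.analyticAt p).eventually_eq_zero_or_eventually_ne_zero with h | h
  · exfalso
    have han : AnalyticOnNhd ℂ (fun s => P.eval s) Set.univ := fun s _ => hd.analyticAt s
    have := han.eqOn_zero_of_preconnected_of_eventuallyEq_zero isPreconnected_univ
      (Set.mem_univ p) h
    apply hP
    apply Polynomial.funext
    intro s
    rw [Polynomial.eval_zero]
    exact this (Set.mem_univ s)
  · exact h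

theorem rational_of_alg (D : Finset ℂ) (g : ℂ → ℂ) (hg : ∀ p ∉ D, LocP g p) (L : ℕ)
    (P : ℕ → ℂ[X]) (hP : ∃ l < L, P l ≠ 0)
    (h : ∀ p ∉ D, ∀ᶠ s in 𝓝[≠] p, ∑ l ∈ Finset.range L, (P l).eval s * g s ^ l = 0) :
    ∃ A B : ℂ[X], B ≠ 0 ∧ ∀ p ∉ D, ∀ᶠ s in 𝓝[≠] p, B.eval s * g s = A.eval s := by
  classical
  -- leading term
  obtain ⟨n, hnL, hPn, hmax⟩ : ∃ n, n < L ∧ P n ≠ 0 ∧ ∀ l, n < l → l < L → P l = 0 := by
    obtain ⟨l₀, hl₀, hPl₀⟩ := hP
    set S := (Finset.range L).filter fun l => P l ≠ 0 with hS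
    have hne : S.Nonempty := ⟨l₀, by simp [hS, hl₀, hPl₀]⟩
    refine ⟨S.max' hne, ?_, ?_, ?_⟩
    · have := S.max'_mem hne
      simp only [hS, Finset.mem_filter, Finset.mem_range] at this
      exact this.1
    · have := S.max'_mem hne
      simp only [hS, Finset.mem_filter, Finset.mem_range] at this
      exact this.2
    · intro l hl hlL
      by_contra hne'
      have hmem : l ∈ S := by simp [hS, hlL, hne']
      exact absurd (S.le_max' l hmem) (not_le.2 hl)
  have h' : ∀ p ∉ D, ∀ᶠ s in 𝓝[≠] p,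
      (P n).eval s * g s ^ n + ∑ l ∈ Finset.range n, (P l).eval s * g s ^ l = 0 := by
    intro p hp
    filter_upwards [h p hp] with s hs
    have h1 : ∑ l ∈ Finset.range L, (P l).eval s * g s ^ l =
        ∑ l ∈ Finset.range (n + 1), (P l).eval s * g s ^ l := by
      symm
      refine Finset.sum_subset (by intro l hl; rw [Finset.mem_range] at hl ⊢; omega) ?_
      intro l hl hl'
      rw [Finset.mem_range] at hl hl'
      rw [hmax l (by omega) hl, Polynomial.eval_zero, zero_mul]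
    rw [h1, Finset.sum_range_succ] at hs
    rw [add_comm]; exact hs
  -- a point off `D`
  obtain ⟨p₀, hp₀⟩ : ∃ p₀ : ℂ, p₀ ∉ D := Infinite.exists_notMem_finset D
  rcases Nat.eq_zero_or_pos n with hn0 | hn
  · exfalso
    subst hn0
    have h1 := (h' p₀ hp₀).and (poly_ne (P 0) hPn p₀)
    obtain ⟨s, hs1, hs2⟩ := h1.exists
    apply hs2
    simpa using hs1
  -- the monic equation
  set hf : ℂ → ℂ := fun s => (P n).eval s * g s with hhf
  set c : ℕ → ℂ[X] := fun l => P l * P n ^ (n - 1 - l) with hc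
  set E : ℂ → ℝ := fun s => 1 + ∑ l ∈ Finset.range n, ‖(c l).eval s‖ with hE
  have hmon : ∀ p ∉ D, ∀ᶠ s in 𝓝[≠] p, ‖hf s‖ ≤ E s := by
    intro p hp
    filter_upwards [h' p hp] with s hs
    refine root_bound (c := fun l => (c l).eval s) ?_ hn
    have h1 : (P n).eval s ^ (n - 1) * ((P n).eval s * g s ^ n +
        ∑ l ∈ Finset.range n, (P l).eval s * g s ^ l) = 0 := by rw [hs, mul_zero]
    rw [← h1, mul_add, Finset.mul_sum]
    congr 1
    · simp only [hhf]
      have : (P n).eval s ^ n = (P n).eval s ^ (n - 1) * (P n).eval s := by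
        rw [← pow_succ]; congr 1; omega
      rw [mul_pow, this]; ring
    · refine Finset.sum_congr rfl fun l hl => ?_
      rw [Finset.mem_range] at hl
      simp only [hc, hhf]
      rw [Polynomial.eval_mul, Polynomial.eval_pow, mul_pow]
      have : (P n).eval s ^ (n - 1) = (P n).eval s ^ (n - 1 - l) * (P n).eval s ^ l := by
        rw [← pow_add]; congr 1; omega
      rw [this]; ring
  have hEc : Continuous E := by
    simp only [hE]
    refine continuous_const.add (continuous_finsetSum _ fun l _ => ?_)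
    exact ((c l).continuous).norm
  have hEb : ∀ p, ∃ M : ℝ, ∀ᶠ s in 𝓝[≠] p, E s ≤ M := fun p => by
    refine ⟨E p + 1, ?_⟩
    have : ∀ᶠ s in 𝓝 p, E s < E p + 1 :=
      hEc.continuousAt.eventually_lt continuousAt_const (by linarith)
    exact (this.filter_mono nhdsWithin_le_nhds).mono fun s hs => hs.le
  have hDo : IsOpen ((D : Set ℂ)ᶜ) := D.finite_toSet.isClosed.isOpen_compl
  have hExt : ∀ p ∈ ((D : Set ℂ)ᶜ), Ext hf p := by
    intro p hp
    refine ext_of_bdd ?_ ?_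
    · have hmer : MeromorphicAt hf p := by
        have h1 : MeromorphicAt (fun s => (P n).eval s) p :=
          ((P n).differentiable.analyticAt p).meromorphicAt
        exact h1.mul (hg p hp).mero
      exact hmer.eventually_analyticAt
    · obtain ⟨M, hM⟩ := hEb p
      exact ⟨M, by filter_upwards [hmon p hp, hM] with s h1 h2 using h1.trans h2⟩
  obtain ⟨h₁, h₁an, h₁eq⟩ := extend hDo hExt
  have h₁b : ∀ p ∉ D, ‖h₁ p‖ ≤ E p := by
    intro p hp
    have t1 : Tendsto (fun s => ‖h₁ s‖) (𝓝[≠] p) (𝓝 ‖h₁ p‖) :=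
      ((h₁an p hp).continuousAt.norm.tendsto).mono_left nhdsWithin_le_nhds
    have t2 : Tendsto E (𝓝[≠] p) (𝓝 (E p)) := hEc.continuousAt.tendsto.mono_left nhdsWithin_le_nhds
    refine le_of_tendsto_of_tendsto t1 t2 ?_
    filter_upwards [h₁eq p hp, hmon p hp] with s hs1 hs2
    rw [← hs1]; exact hs2
  have hnear : ∀ q : ℂ, ∀ᶠ s in 𝓝[≠] q, s ∉ D := by
    intro q
    have h1 : IsOpen (((D.erase q : Finset ℂ) : Set ℂ)ᶜ) :=
      (D.erase q).finite_toSet.isClosed.isOpen_compl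
    have h2 : ∀ᶠ s in 𝓝 q, s ∈ (((D.erase q : Finset ℂ) : Set ℂ)ᶜ) := h1.mem_nhds (by simp)
    rw [eventually_nhdsWithin_iff]
    filter_upwards [h2] with s hs1 hs2 hs3
    exact hs1 (Finset.mem_coe.2 (Finset.mem_erase.2 ⟨hs2, hs3⟩))
  have hExt2 : ∀ p ∈ (Set.univ : Set ℂ), Ext h₁ p := by
    intro p _
    refine ext_of_bdd ?_ ?_
    · filter_upwards [hnear p] with s hs
      exact h₁an s hs
    · obtain ⟨M, hM⟩ := hEb p
      exact ⟨M, by filter_upwards [hnear p, hM] with s h1 h2 using (h₁b s h1).trans h2⟩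
  obtain ⟨H, Han, Heq⟩ := extend isOpen_univ hExt2
  have HB : ∀ p, ‖H p‖ ≤ E p := by
    intro p
    have t1 : Tendsto (fun s => ‖H s‖) (𝓝[≠] p) (𝓝 ‖H p‖) :=
      ((Han p (Set.mem_univ p)).continuousAt.norm.tendsto).mono_left nhdsWithin_le_nhds
    have t2 : Tendsto E (𝓝[≠] p) (𝓝 (E p)) := hEc.continuousAt.tendsto.mono_left nhdsWithin_le_nhds
    refine le_of_tendsto_of_tendsto t1 t2 ?_
    filter_upwards [Heq p (Set.mem_univ p), hnear p] with s hs1 hs2
    rw [← hs1]; exact h₁b s hs2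
  -- growth
  obtain ⟨K, N, hK, hKN⟩ : ∃ (K : ℝ) (N : ℕ), 0 ≤ K ∧ ∀ s, E s ≤ K * (1 + ‖s‖) ^ N := by
    choose Kc Nc hKc hb using fun l => poly_bound (c l)
    refine ⟨1 + ∑ l ∈ Finset.range n, Kc l, ∑ l ∈ Finset.range n, Nc l, ?_, fun s => ?_⟩
    · have : 0 ≤ ∑ l ∈ Finset.range n, Kc l := Finset.sum_nonneg fun l _ => hKc l
      linarith
    · have h1 : (1 : ℝ) ≤ 1 + ‖s‖ := by linarith [norm_nonneg s]
      simp only [hE]
      rw [add_mul, one_mul, Finset.sum_mul]
      refine add_le_add (one_le_pow₀ h1) (Finset.sum_le_sum fun l hl => ?_)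
      refine (hb l s).trans ?_
      have h2 : Nc l ≤ ∑ l ∈ Finset.range n, Nc l :=
        Finset.single_le_sum (f := Nc) (fun _ _ => Nat.zero_le _) hl
      have := hKc l
      gcongr
  obtain ⟨A, hA⟩ := poly_of_growth (fun s => Han s (Set.mem_univ s)) hK
    (fun s => (HB s).trans (hKN s))
  refine ⟨A, P n, hPn, fun p hp => ?_⟩
  filter_upwards [h₁eq p hp, Heq p (Set.mem_univ p)] with s h1 h2
  rw [← hA s, ← h2, ← h1]

end

end Pool.Agent.Helper433.ES
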