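import Pool.Agent.Helper433_ES.Glob2
import Pool.Agent.Helper433_ES.Ari
import Pool.Agent.Helper433_ES.Rat

/-! Rationality of the global quotient. -/

namespace Pool.Agent.Helper433.ES

open Filter Topology Finset

noncomputable section

variable {K : Type*} [Field K] [Algebra K ℂ] {a b : Polynomial K} {χ : ℕ} {D : Finset ℂ}
  {m : ℂ → ℕ} {mi : ℕ}

lemma inv_ee (a b : Polynomial K) (p : ℂ) :
    (1 : ℝ) / ee a b p = (Nat.gcd 12 (eu a b p) : ℝ) / 12 := by
  have h1 : Nat.gcd 12 (eu a b p) ∣ 12 := Nat.gcd_dvd_left _ _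
  have h2 : ee a b p * Nat.gcd 12 (eu a b p) = 12 := Nat.div_mul_cancel h1
  have h3 : (ee a b p : ℝ) * (Nat.gcd 12 (eu a b p) : ℝ) = 12 := by exact_mod_cast h2
  have h4 : (ee a b p : ℝ) ≠ 0 := by exact_mod_cast ee_ne a b p
  rw [div_eq_div_iff h4 (by norm_num)]
  linarith

lemma cast_sub_le (x y : ℕ) : (x : ℝ) - y ≤ ((x - y : ℕ) : ℝ) := by
  have : x ≤ (x - y) + y := by omega
  have h : (x : ℝ) ≤ ((x - y : ℕ) : ℝ) + y := by exact_mod_cast this
  linarith

end

end Pool.Agent.Helper433.ES
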