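import Pool.Agent.Helper433_ES.Glob3
import Pool.Agent.Helper433_ES.AriF

/-! Rationality of the first coordinate for a family of classes. -/

namespace Pool.Agent.Helper433.ES

open Filter Topology Finset

noncomputable section

variable {a b : Polynomial ℂ} {χ : ℕ} {D : Finset ℂ} {m : ℂ → ℕ} {mi : ℕ}

theorem mk_data (hab : disc a b ≠ 0) {ω : ℂ → ℕ} {ωi : ℕ}
    (hω : ∀ q ∈ D, (Polynomial.X - Polynomial.C q) ^ ω q ∣ a ^ 3 ∧
      (Polynomial.X - Polynomial.C q) ^ ω q ∣ b ^ 2)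
    (hωi : 3 * a.natDegree + ωi ≤ 12 * χ ∧ 2 * b.natDegree + ωi ≤ 12 * χ)
    (I : Finset ℂ) (hI : ∀ p ∈ I, p ∉ D ∧ Adt a b p)
    (hcrit : (∑ q ∈ D, 2 * (12 * m q - ω q)) + 2 * (12 * mi - ωi) < ∑ p ∈ I, wt a b p)
    (N : GrClass a b χ D m mi) :
    (∃ p₀ ∈ I, p₀ ∉ D ∧ Adt a b p₀) ∧ ∃ d : SLData, d.D = D ∧ d.I = I ∧
      (∀ p ∈ I, d.e p = (lev a b p + 1) * ram a b p) ∧
      (∀ p ∈ I, d.qs p = Tay (fP a b (N.z p)) p) ∧
      ∀ (S L : ℕ) (c : ℕ → ℕ → ℤ), (∃ j < S, ∃ l < L, c j l ≠ 0) →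
        (∀ s ∉ D, d.G S L c s = 0) → ∃ A₀ B₀ : Polynomial ℂ, B₀ ≠ 0 ∧
          ∀ p ∉ D, ∀ᶠ s in 𝓝[≠] p, B₀.eval s * N.f s = A₀.eval s := by
  classical
  have hIne : I.Nonempty := by
    rw [Finset.nonempty_iff_ne_empty]
    rintro rfl
    rw [Finset.sum_empty] at hcrit
    omega
  obtain ⟨p₀, hp₀I⟩ := hIne
  obtain ⟨hp₀, hA₀⟩ := hI p₀ hp₀I
  have hf₀ := hA₀.zer
  refine ⟨⟨p₀, hp₀I, hp₀, hA₀⟩, ?_⟩
  -- the exponents
  set r : ℝ := (∑ q ∈ D, ((2 * (12 * m q - ω q) : ℕ) : ℝ) / 12) +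
    ((2 * (12 * mi - ωi) : ℕ) : ℝ) / 12 with hr
  set g : ℝ := ∑ p ∈ I, (1 : ℝ) / (((lev a b p + 1) * ram a b p : ℕ) : ℝ) with hg
  have hrg : r < g := by
    have h1 : g = ((∑ p ∈ I, wt a b p : ℕ) : ℝ) / 12 := by
      rw [hg, Nat.cast_sum, Finset.sum_div]
      exact Finset.sum_congr rfl fun p _ => wt_inv a b p
    have h2 : r = (((∑ q ∈ D, 2 * (12 * m q - ω q)) + 2 * (12 * mi - ωi) : ℕ) : ℝ) / 12 := by
      rw [hr, Nat.cast_add, Nat.cast_sum, add_div, Finset.sum_div]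
    rw [h1, h2]
    have h3 : (((∑ q ∈ D, 2 * (12 * m q - ω q)) + 2 * (12 * mi - ωi) : ℕ) : ℝ) <
        ((∑ p ∈ I, wt a b p : ℕ) : ℝ) := by exact_mod_cast hcrit
    linarith
  set ε : ℝ := (g - r) / (2 * ((D.card : ℝ) + 1)) with hε
  have hcard : (0 : ℝ) ≤ D.card := Nat.cast_nonneg _
  have hε0 : 0 < ε := div_pos (by linarith) (by positivity)
  set ρ : ℂ → ℝ := fun q => ((2 * (12 * m q - ω q) : ℕ) : ℝ) / 12 + ε with hρdef
  set ρi : ℝ := ((2 * (12 * mi - ωi) : ℕ) : ℝ) / 12 + ε with hρidef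
  have hρ : ∀ q ∈ D, 0 < ρ q := fun q _ => by
    have : (0 : ℝ) ≤ ((2 * (12 * m q - ω q) : ℕ) : ℝ) / 12 := by positivity
    simp only [hρdef]; linarith
  have hρi : 0 < ρi := by
    have : (0 : ℝ) ≤ ((2 * (12 * mi - ωi) : ℕ) : ℝ) / 12 := by positivity
    rw [hρidef]; linarith
  have hsum : ∑ q ∈ D, ρ q + ρi < g := by
    have h1 : ∑ q ∈ D, ρ q + ρi = r + ε * ((D.card : ℝ) + 1) := by
      simp only [hρdef, hρidef]
      rw [Finset.sum_add_distrib, Finset.sum_const, nsmul_eq_mul, hr]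
      ring
    have h2 : ε * ((D.card : ℝ) + 1) = (g - r) / 2 := by
      rw [hε]
      have : (D.card : ℝ) + 1 ≠ 0 := by positivity
      field_simp
    rw [h1, h2]; linarith
  -- local conditions
  have hlocQ : ∀ q ∈ D, LocQ N.f q (ρ q) := by
    intro q hq
    refine N_locQ N hab hp₀ hf₀ hq (ω := ω q) (by rw [map_id_c]; exact (hω q hq).1)
      (by rw [map_id_c]; exact (hω q hq).2) (hρ q hq) ?_
    have h1 := cast_sub_le (12 * m q) (ω q)
    simp only [hρdef]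
    push_cast at h1 ⊢
    linarith
  have hlocI : LocInf N.f ρi := by
    refine N_locInf N hab hp₀ hf₀ hωi.1 hωi.2 hρi ?_
    have h1 := cast_sub_le (12 * mi) ωi
    rw [hρidef]
    push_cast at h1 ⊢
    linarith
  have hlocP := N_locP N hab hp₀ hf₀
  obtain ⟨U, V, C, δ, hC, hδ, hU, hV, gq, gi, hVI, hUV⟩ := glue D ρ ρi hρ hρi N.f hlocQ hlocI hlocP
    I (fun p hp => (hI p hp).1) (fun p hp => N_ext N hab (hI p hp).1 (hI p hp).2.zer)
  let d : SLData :=
    { D := D, ρ := ρ, ρi := ρi, U := U, V := V, C := C, δ := δ, I := I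
      e := fun p => (lev a b p + 1) * ram a b p
      hρ := hρ, hρi := hρi, hU := hU, hV := hV, hC := hC, hδ := hδ, gq := gq, gi := gi
      he := fun p _ => Nat.mul_pos (Nat.succ_pos _) (Nat.pos_of_ne_zero (ram_ne a b p))
      hI := fun p hp => (hI p hp).1, hVI := hVI, hsum := hsum }
  have hDo : IsOpen ((D : Set ℂ)ᶜ) := D.finite_toSet.isClosed.isOpen_compl
  refine ⟨d, rfl, rfl, fun p _ => rfl, ?_, ?_⟩
  · intro p hp
    have hpD := (hI p hp).1
    have hUa : AnalyticAt ℂ U p := hU.analyticAt (hDo.mem_nhds hpD)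
    have hVa : AnalyticAt ℂ V p := hV.analyticAt (hDo.mem_nhds hpD)
    refine Tay_eq_of_punctured (hUa.div hVa (hVI p hp))
      ((hI p hp).2.zer.fP_an (N.z_analytic p hpD)) ?_
    filter_upwards [hUV p hpD, N_fP N hab hpD (hI p hp).2.zer] with s hs1 hs2
    rw [← hs2]
    show U s / V s = _
    rw [← hs1.2, mul_div_cancel_right₀ _ hs1.1]
  · intro S L c hc hG
    -- the polynomial relation
    refine rational_of_alg D N.f hlocP L
      (fun l => ∑ j ∈ range S, Polynomial.C (c j l : ℂ) * Polynomial.X ^ j) ?_ ?_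
    · obtain ⟨j, hj, l, hl, hcl⟩ := hc
      refine ⟨l, hl, fun h0 => hcl ?_⟩
      have h1 := congrArg (fun f => Polynomial.coeff f j) h0
      simp only [Polynomial.finset_sum_coeff, Polynomial.coeff_C_mul_X_pow, Polynomial.coeff_zero]
        at h1
      rw [Finset.sum_ite_eq (range S) j] at h1
      rw [if_pos (Finset.mem_range.2 hj)] at h1
      exact_mod_cast h1
    · intro p hp
      filter_upwards [hUV p hp, near_notMem D p] with s hs1 hs2
      obtain ⟨hV0, hfV⟩ := hs1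
      have hG' := hG s hs2
      have e1 : d.G S L c s = V s ^ L * ∑ l ∈ range L,
          (∑ j ∈ range S, Polynomial.C (c j l : ℂ) * Polynomial.X ^ j).eval s * N.f s ^ l := by
        unfold SLData.G
        rw [Finset.sum_comm, Finset.mul_sum]
        refine Finset.sum_congr rfl fun l hl => ?_
        rw [Finset.mem_range] at hl
        rw [Polynomial.eval_finsetSum, Finset.sum_mul, Finset.mul_sum]
        refine Finset.sum_congr rfl fun j _ => ?_
        show (c j l : ℂ) * s ^ j * U s ^ l * V s ^ (L - l) = _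
        have e2 : V s ^ L = V s ^ l * V s ^ (L - l) := by rw [← pow_add]; congr 1; omega
        rw [← hfV, mul_pow, e2]
        simp only [Polynomial.eval_mul, Polynomial.eval_C, Polynomial.eval_pow, Polynomial.eval_X]
        ring
      rw [e1] at hG'
      exact (mul_eq_zero.1 hG').resolve_left (pow_ne_zero _ hV0)

/-- **Rationality for a family.** -/
theorem rational_family {ι : Type*} [Finite ι] (A B Q P1 P2 : ι → Polynomial ℂ) {χ : ℕ}
    {mi ωi : ℕ} (D I : ι → Finset ℂ) (m ω : ι → ℂ → ℕ)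
    (hAa : ∀ i n, IsAlgebraic ℚ ((A i).coeff n)) (hBa : ∀ i n, IsAlgebraic ℚ ((B i).coeff n))
    (hQa : ∀ i n, IsAlgebraic ℚ ((Q i).coeff n)) (h1a : ∀ i n, IsAlgebraic ℚ ((P1 i).coeff n))
    (h2a : ∀ i n, IsAlgebraic ℚ ((P2 i).coeff n)) (hab : ∀ i, disc (A i) (B i) ≠ 0)
    (hω : ∀ i, ∀ q ∈ D i, (Polynomial.X - Polynomial.C q) ^ ω i q ∣ A i ^ 3 ∧
      (Polynomial.X - Polynomial.C q) ^ ω i q ∣ B i ^ 2)
    (hωi : ∀ i, 3 * (A i).natDegree + ωi ≤ 12 * χ ∧ 2 * (B i).natDegree + ωi ≤ 12 * χ)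
    (hI : ∀ i, ∀ p ∈ I i, p ∉ D i ∧ Adt (A i) (B i) p)
    (hcrit : ∀ i, (∑ q ∈ D i, 2 * (12 * m i q - ω i q)) + 2 * (12 * mi - ωi) <
      ∑ p ∈ I i, wt (A i) (B i) p)
    (N : ∀ i, GrClass (A i) (B i) χ (D i) (m i) mi)
    (hNQ : ∀ i, (N i).Q = Q i) (hN1 : ∀ i, (N i).P₁ = P1 i) (hN2 : ∀ i, (N i).P₂ = P2 i)
    (hT : Trn A B Q P1 P2 I) (i : ι) :
    (∃ p₀ ∈ I i, p₀ ∉ D i ∧ Adt (A i) (B i) p₀) ∧ ∃ A₀ B₀ : Polynomial ℂ, B₀ ≠ 0 ∧
      ∀ p ∉ D i, ∀ᶠ s in 𝓝[≠] p, B₀.eval s * (N i).f s = A₀.eval s := by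
  classical
  have : Fintype ι := Fintype.ofFinite ι
  have key := fun i => mk_data (hab i) (hω i) (hωi i) (I i) (hI i) (hcrit i) (N i)
  choose hp₀ d hdD hdI hde hdqs hrat using key
  refine ⟨hp₀ i, ?_⟩
  have hA : SLData.ArithF d := by
    refine arithF_of d A B Q P1 P2 hAa hBa hQa h1a h2a hab (fun i => (hNQ i) ▸ (N i).Q_ne)
      (fun i => (N i).z) (fun i => (N i).w) ?_ ?_ ?_ ?_ ?_ ?_
    · intro i p hp
      rw [hdI] at hp
      exact (hI i p hp).2
    · intro i p hp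
      rw [hdI] at hp
      have hpD := (hI i p hp).1
      rw [← hNQ i, ← hN1 i, ← hN2 i]
      exact ⟨(N i).z_analytic p hpD, (N i).w_meromorphic p hpD, (N i).gm₁ p hpD, (N i).gm₂ p hpD⟩
    · intro i p hp
      rw [hdI] at hp
      -- a root of a polynomial with algebraic coefficients
      have h2 := (hI i p hp).2.zero_a
      have h3 := (hI i p hp).2.zero_b
      have hroot : (disc (A i) (B i)).eval p = 0 := by
        rw [Polynomial.coe_aeval_eq_eval] at h2 h3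
        unfold disc
        simp only [Polynomial.eval_add, Polynomial.eval_mul, Polynomial.eval_pow, h2, h3]
        simp
      have hlift : ∀ f : Polynomial ℂ, (∀ n, IsAlgebraic ℚ (f.coeff n)) →
          ∃ g : Polynomial (algebraicClosure ℚ ℂ),
            g.map (algebraMap (algebraicClosure ℚ ℂ) ℂ) = f := by
        intro f hf
        have : f ∈ Polynomial.lifts (algebraMap (algebraicClosure ℚ ℂ) ℂ) := by
          rw [Polynomial.lifts_iff_coeff_lifts]
          intro n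
          exact ⟨⟨f.coeff n, mem_algebraicClosure_iff.2 (hf n)⟩, rfl⟩
        rw [Polynomial.mem_lifts] at this
        exact this
      obtain ⟨g, hg⟩ := hlift _ (hAa i)
      obtain ⟨h, hh⟩ := hlift _ (hBa i)
      have h4 : IsAlgebraic (algebraicClosure ℚ ℂ) p := by
        refine ⟨disc g h, ?_, ?_⟩
        · intro h0
          apply hab i
          rw [← hg, ← hh, ← disc_map_c, h0, Polynomial.map_zero]
        · rw [aeval_map', disc_map_c, hg, hh]
          exact hroot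
      have h5 : Algebra.IsAlgebraic ℚ (algebraicClosure ℚ ℂ) := algebraicClosure.isAlgebraic ℚ ℂ
      exact h4.restrictScalars ℚ
    · intro i p hp
      rw [hdI] at hp
      exact hde i p hp
    · intro i p hp
      rw [hdI] at hp
      exact hdqs i p hp
    · intro τ i
      obtain ⟨i', τ', h1, h2, h3, h4, h5, h6, h7⟩ := hT τ i
      refine ⟨i', τ', h1, h2, h3, h4, h5, h6, fun p hp => ?_⟩
      show τ' p ∈ (d i').I
      have hp' : p ∈ (d i).I := hp
      rw [hdI] at hp' ⊢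
      exact h7 p hp'
  obtain ⟨S, L, c, hc, hG⟩ := SLData.criterionF d hA
  refine hrat i S L c hc fun s hs => ?_
  exact hG i s (by rw [hdD]; exact hs)

end

end Pool.Agent.Helper433.ES
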