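import Pool.Agent.Helper433_ES.Split2

/-! Global denominators near one singular point. -/

namespace Pool.Agent.Helper433.ES

open Filter Topology Metric

noncomputable section

/-- `f` is a quotient of functions of order at most `ρ` near the singular point `q`. -/
def LocQ (f : ℂ → ℂ) (q : ℂ) (ρ : ℝ) : Prop :=
  ∃ (δ C : ℝ) (α β : ℂ → ℂ), 0 < δ ∧ 0 < C ∧
    DifferentiableOn ℂ α {s | 0 < ‖s - q‖ ∧ ‖s - q‖ < δ} ∧
    DifferentiableOn ℂ β {s | 0 < ‖s - q‖ ∧ ‖s - q‖ < δ} ∧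
    (∃ s, 0 < ‖s - q‖ ∧ ‖s - q‖ < δ ∧ α s ≠ 0) ∧
    ∀ s, 0 < ‖s - q‖ → ‖s - q‖ < δ → f s = β s / α s ∧
      ‖α s‖ ≤ Real.exp (C * ‖s - q‖ ^ (-ρ)) ∧ ‖β s‖ ≤ Real.exp (C * ‖s - q‖ ^ (-ρ))

/-- the same at infinity -/
def LocInf (f : ℂ → ℂ) (ρ : ℝ) : Prop :=
  ∃ (R C : ℝ) (α β : ℂ → ℂ), 0 < R ∧ 0 < C ∧
    DifferentiableOn ℂ α {s | R < ‖s‖} ∧ DifferentiableOn ℂ β {s | R < ‖s‖} ∧
    (∃ s, R < ‖s‖ ∧ α s ≠ 0) ∧
    ∀ s, R < ‖s‖ → f s = β s / α s ∧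
      ‖α s‖ ≤ Real.exp (C * ‖s‖ ^ ρ) ∧ ‖β s‖ ≤ Real.exp (C * ‖s‖ ^ ρ)

lemma trans_diff {g : ℂ → ℂ} {O : Set ℂ} (hg : DifferentiableOn ℂ g O) (q : ℂ) :
    DifferentiableOn ℂ (fun s => g (s + q)) {s | s + q ∈ O} := by
  intro s hs
  exact (hg (s + q) hs).comp s (by fun_prop : DifferentiableWithinAt ℂ (fun s => s + q) _ s)
    fun x hx => hx

/-- a bounded factor does not change the order -/
lemma bounded_factor {K C x y : ℝ} (hK : 0 < K) (hy : 1 ≤ y)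
    (hx : x ≤ K * Real.exp (C * y)) : x ≤ Real.exp ((|Real.log K| + C) * y) := by
  refine hx.trans ?_
  calc K * Real.exp (C * y) = Real.exp (Real.log K + C * y) := by
        rw [Real.exp_add, Real.exp_log hK]
    _ ≤ Real.exp ((|Real.log K| + C) * y) := by
        apply Real.exp_le_exp.2
        have := le_abs_self (Real.log K)
        have h2 := abs_nonneg (Real.log K)
        nlinarith

lemma one_le_rpow_neg {x ρ : ℝ} (hx : 0 < x) (hx1 : x ≤ 1) (hρ : 0 ≤ ρ) : 1 ≤ x ^ (-ρ) := by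
  rw [Real.rpow_neg hx.le]
  exact (one_le_inv₀ (Real.rpow_pos_of_pos hx _)).2 (Real.rpow_le_one hx.le hx1 hρ)

lemma pball_open (q : ℂ) (δ : ℝ) : IsOpen {s : ℂ | 0 < ‖s - q‖ ∧ ‖s - q‖ < δ} := by
  have h : Continuous fun s : ℂ => ‖s - q‖ := by fun_prop
  exact (isOpen_lt continuous_const h).inter (isOpen_lt h continuous_const)

lemma zeros_isolated {α : ℂ → ℂ} {δ : ℝ} {q : ℂ}
    (hα : DifferentiableOn ℂ α {s | 0 < ‖s - q‖ ∧ ‖s - q‖ < δ})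
    (hne : ∃ s, 0 < ‖s - q‖ ∧ ‖s - q‖ < δ ∧ α s ≠ 0) :
    ∀ s, 0 < ‖s - q‖ → ‖s - q‖ < δ → ∀ᶠ w in 𝓝[≠] s, α w ≠ 0 := by
  intro s hs1 hs2
  have hδ : 0 < δ := hs1.trans hs2
  have hO : IsOpen {s : ℂ | 0 < ‖s - q‖ ∧ ‖s - q‖ < δ} := pball_open q δ
  have hpre : IsPreconnected {s : ℂ | 0 < ‖s - q‖ ∧ ‖s - q‖ < δ} := by
    have h1 : {s : ℂ | 0 < ‖s - q‖ ∧ ‖s - q‖ < δ} =
        (fun s => s + q) '' {s : ℂ | 0 < ‖s‖ ∧ ‖s‖ < δ} := by
      ext s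
      constructor
      · intro h
        exact ⟨s - q, h, by ring⟩
      · rintro ⟨w, hw, rfl⟩
        simpa using hw
    rw [h1]
    exact (punctured_preconnected δ hδ).image _ (by fun_prop)
  have han := hα.analyticOnNhd hO
  rcases (han s ⟨hs1, hs2⟩).eventually_eq_zero_or_eventually_ne_zero with h | h
  · exfalso
    obtain ⟨t, ht1, ht2, ht3⟩ := hne
    exact ht3 (han.eqOn_zero_of_preconnected_of_eventuallyEq_zero hpre ⟨hs1, hs2⟩ h ⟨ht1, ht2⟩)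
  · exact h

/-- local package at `q` -/
lemma packQ {f : ℂ → ℂ} {q : ℂ} {ρ ε : ℝ} (hρ : 0 < ρ) (hε : 0 < ε) (h : LocQ f q ρ) :
    ∃ (r C : ℝ) (V W : ℂ → ℂ), 0 < r ∧ r < 1 ∧ 0 < C ∧ DifferentiableOn ℂ V {q}ᶜ ∧
      DifferentiableOn ℂ W {s | 0 < ‖s - q‖ ∧ ‖s - q‖ < r} ∧
      (∀ s, ε ≤ ‖s - q‖ → V s ≠ 0) ∧
      (∀ s, s ≠ q → ∀ᶠ w in 𝓝[≠] s, V w ≠ 0) ∧
      (∃ (K R : ℝ) (N : ℕ), 0 < K ∧ 1 ≤ R ∧ ∀ s, R ≤ ‖s‖ → ‖V s‖ ≤ K * ‖s‖ ^ N) ∧
      (∀ s, 0 < ‖s - q‖ → ‖s - q‖ < r → ∀ᶠ w in 𝓝[≠] s, f w * V w = W w) ∧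
      ∀ s, 0 < ‖s - q‖ → ‖s - q‖ < r → ‖V s‖ ≤ Real.exp (C * ‖s - q‖ ^ (-ρ)) ∧
        ‖W s‖ ≤ Real.exp (C * ‖s - q‖ ^ (-ρ)) := by
  obtain ⟨δ, C, α, β, hδ, hC, hα, hβ, hne, hloc⟩ := h
  have hα' : DifferentiableOn ℂ (fun s => α (s + q)) {s | 0 < ‖s‖ ∧ ‖s‖ < δ} := by
    have := trans_diff hα q
    simpa using this
  have hne' : ∃ s, 0 < ‖s‖ ∧ ‖s‖ < δ ∧ (fun s => α (s + q)) s ≠ 0 := by
    obtain ⟨s, h1, h2, h3⟩ := hne
    exact ⟨s - q, h1, h2, by simpa using h3⟩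
  obtain ⟨r₁, r₂, V₀, k, P, n, c, hr1, hr12, hr2δ, hr2ε, hc, hV₀, hk, hP, hV1, hV2⟩ :=
    factor hδ hε hα' hne'
  have hr2 : 0 < r₂ := hr1.trans hr12
  have hziso := zeros_isolated hα hne
  -- bound for the unit near the origin
  set r : ℝ := min (r₂ / 2) (1 / 2) with hr
  have hr0 : 0 < r := lt_min (half_pos hr2) (by norm_num)
  have hrr2 : r < r₂ := lt_of_le_of_lt (min_le_left _ _) (by linarith)
  have hr1' : r < 1 := lt_of_le_of_lt (min_le_right _ _) (by norm_num)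
  have hkc : ContinuousOn (fun s => Complex.exp (k s)) (closedBall 0 r) :=
    (hk.continuousOn.mono (closedBall_subset_ball hrr2)).cexp
  obtain ⟨Kb, hKb⟩ := (isCompact_closedBall (0 : ℂ) r).exists_bound_of_continuousOn hkc
  set K := max Kb 1 with hK
  have hK0 : 0 < K := lt_of_lt_of_le one_pos (le_max_right _ _)
  have hKk : ∀ s : ℂ, ‖s‖ ≤ r → ‖Complex.exp (k s)‖ ≤ K := fun s hs =>
    (hKb s (mem_closedBall_zero_iff.2 hs)).trans (le_max_left _ _)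
  set V : ℂ → ℂ := fun s => V₀ (s - q) with hV
  set W : ℂ → ℂ := fun s => β s * Complex.exp (k (s - q)) with hW
  have hsub : ∀ s : ℂ, s - q + q = s := fun s => by ring
  have hVnear : ∀ s, 0 < ‖s - q‖ → ‖s - q‖ < r₂ → V s = α s * Complex.exp (k (s - q)) := by
    intro s h1 h2
    have := hV1 (s - q) h1 h2
    simp only [hsub] at this
    exact this
  have hVfar : ∀ s, r₁ < ‖s - q‖ → V s = c * (s - q) ^ n * Complex.exp (P (s - q)⁻¹) :=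
    fun s hs => hV2 (s - q) hs
  refine ⟨r, |Real.log K| + C, V, W, hr0, hr1', by positivity, ?_, ?_, ?_, ?_, ?_, ?_, ?_⟩
  · intro s hs
    have hs' : s - q ∈ ({0} : Set ℂ)ᶜ := by
      intro h0
      apply hs
      exact sub_eq_zero.1 h0
    have hm : Set.MapsTo (fun s => s - q) ({q}ᶜ : Set ℂ) ({0}ᶜ : Set ℂ) :=
      fun x hx h0 => hx (sub_eq_zero.1 h0)
    exact (hV₀ (s - q) hs').comp s (by fun_prop) hm
  · intro s hs
    have hb := hβ s ⟨hs.1, hs.2.trans (hrr2.trans hr2δ)⟩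
    have hO : IsOpen {s : ℂ | 0 < ‖s - q‖ ∧ ‖s - q‖ < δ} := pball_open q δ
    have hb' := hb.differentiableAt (hO.mem_nhds ⟨hs.1, hs.2.trans (hrr2.trans hr2δ)⟩)
    have hk' : DifferentiableAt ℂ k (s - q) :=
      (hk (s - q) (by rw [mem_ball_zero_iff]; exact hs.2.trans hrr2)).differentiableAt
        (isOpen_ball.mem_nhds (by rw [mem_ball_zero_iff]; exact hs.2.trans hrr2))
    have hk'' : DifferentiableAt ℂ (fun s => k (s - q)) s :=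
      hk'.comp s (by fun_prop : DifferentiableAt ℂ (fun s => s - q) s)
    exact (hb'.mul hk''.cexp).differentiableWithinAt
  · intro s hs
    have h1 : r₁ < ‖s - q‖ := by linarith
    rw [hVfar s h1]
    refine mul_ne_zero (mul_ne_zero hc (zpow_ne_zero _ ?_)) (Complex.exp_ne_zero _)
    rw [← norm_pos_iff]; linarith
  · intro s hs
    have hs0 : 0 < ‖s - q‖ := norm_pos_iff.2 (sub_ne_zero.2 hs)
    by_cases h : ‖s - q‖ < r₂
    · have e1 := hziso s hs0 (h.trans hr2δ)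
      have e2 : ∀ᶠ w in 𝓝[≠] s, 0 < ‖w - q‖ ∧ ‖w - q‖ < r₂ := by
        have hO : IsOpen {s : ℂ | 0 < ‖s - q‖ ∧ ‖s - q‖ < r₂} := pball_open q r₂
        exact mem_nhdsWithin_of_mem_nhds (hO.mem_nhds ⟨hs0, h⟩)
      filter_upwards [e1, e2] with w hw1 hw2
      rw [hVnear w hw2.1 hw2.2]
      exact mul_ne_zero hw1 (Complex.exp_ne_zero _)
    · have e2 : ∀ᶠ w in 𝓝[≠] s, r₁ < ‖w - q‖ := by
        have hO : IsOpen {s : ℂ | r₁ < ‖s - q‖} := isOpen_lt continuous_const (by fun_prop)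
        exact mem_nhdsWithin_of_mem_nhds (hO.mem_nhds (by
          show r₁ < ‖s - q‖
          linarith [not_lt.1 h]))
      filter_upwards [e2] with w hw
      rw [hVfar w hw]
      refine mul_ne_zero (mul_ne_zero hc (zpow_ne_zero _ ?_)) (Complex.exp_ne_zero _)
      rw [← norm_pos_iff]; linarith
  · -- growth at infinity
    have hPc : ContinuousOn (fun t => Complex.exp (P t)) (closedBall 0 (r₂⁻¹)) :=
      (hP.continuousOn.mono (closedBall_subset_ball (inv_strictAnti₀ hr1 hr12))).cexp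
    obtain ⟨Kp, hKp⟩ := (isCompact_closedBall (0 : ℂ) r₂⁻¹).exists_bound_of_continuousOn hPc
    set K' := ‖c‖ * 2 ^ n.natAbs * max Kp 1 with hK'
    have hK'0 : 0 < K' := by
      have : 0 < ‖c‖ := norm_pos_iff.2 hc
      have : 0 < max Kp 1 := lt_of_lt_of_le one_pos (le_max_right _ _)
      positivity
    refine ⟨K', ‖q‖ + r₂ + 1 + ‖q‖, n.natAbs, hK'0, by linarith [norm_nonneg q], fun s hs => ?_⟩
    have h1 : ‖s‖ ≤ ‖s - q‖ + ‖q‖ := by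
      calc ‖s‖ = ‖(s - q) + q‖ := by ring_nf
        _ ≤ _ := norm_add_le _ _
    have h2 : ‖s - q‖ ≤ ‖s‖ + ‖q‖ := norm_sub_le _ _
    have h3 : r₂ ≤ ‖s - q‖ := by linarith [norm_nonneg q]
    have h4 : 1 ≤ ‖s - q‖ := by linarith [norm_nonneg q]
    rw [hVfar s (by linarith), norm_mul, norm_mul]
    have h5 : ‖Complex.exp (P (s - q)⁻¹)‖ ≤ max Kp 1 := by
      refine (hKp _ ?_).trans (le_max_left _ _)
      rw [mem_closedBall_zero_iff, norm_inv]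
      exact inv_anti₀ hr2 h3
    have h6 : ‖(s - q) ^ n‖ ≤ 2 ^ n.natAbs * ‖s‖ ^ n.natAbs := by
      rw [norm_zpow, ← mul_pow]
      calc ‖s - q‖ ^ n ≤ ‖s - q‖ ^ ((n.natAbs : ℕ) : ℤ) := by
            apply zpow_le_zpow_right₀ h4
            exact Int.le_natAbs
        _ = ‖s - q‖ ^ n.natAbs := zpow_natCast _ _
        _ ≤ (2 * ‖s‖) ^ n.natAbs := by
            gcongr
            linarith [norm_nonneg q]
    calc ‖c‖ * ‖(s - q) ^ n‖ * ‖Complex.exp (P (s - q)⁻¹)‖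
        ≤ ‖c‖ * (2 ^ n.natAbs * ‖s‖ ^ n.natAbs) * max Kp 1 := by gcongr
      _ = K' * ‖s‖ ^ n.natAbs := by rw [hK']; ring
  · intro s h1 h2
    have e1 := hziso s h1 (h2.trans (hrr2.trans hr2δ))
    have e2 : ∀ᶠ w in 𝓝[≠] s, 0 < ‖w - q‖ ∧ ‖w - q‖ < r := by
      have hO : IsOpen {s : ℂ | 0 < ‖s - q‖ ∧ ‖s - q‖ < r} := pball_open q r
      exact mem_nhdsWithin_of_mem_nhds (hO.mem_nhds ⟨h1, h2⟩)
    filter_upwards [e1, e2] with w hw1 hw2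
    rw [hVnear w hw2.1 (hw2.2.trans hrr2), (hloc w hw2.1 (hw2.2.trans (hrr2.trans hr2δ))).1]
    simp only [hW]
    field_simp
  · intro s h1 h2
    have hy := one_le_rpow_neg h1 (by linarith) hρ.le
    obtain ⟨-, ha, hb⟩ := hloc s h1 (h2.trans (hrr2.trans hr2δ))
    have hkb := hKk (s - q) h2.le
    constructor
    · refine bounded_factor hK0 hy ?_
      rw [hVnear s h1 (h2.trans hrr2), norm_mul, mul_comm]
      gcongr
    · refine bounded_factor hK0 hy ?_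
      simp only [hW]
      rw [norm_mul, mul_comm]
      gcongr

end

end Pool.Agent.Helper433.ES
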