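import Pool.Agent.Helper433_ES.Glue1

/-! Global denominators at infinity, and gluing. -/

namespace Pool.Agent.Helper433.ES

open Filter Topology Metric

noncomputable section

lemma pow_le_exp_rpow {x ρ : ℝ} (hx : 1 ≤ x) (hρ : 0 < ρ) (N : ℕ) :
    x ^ N ≤ Real.exp ((N / ρ) * x ^ ρ) := by
  have hx0 : 0 < x := by linarith
  have h1 : Real.log x ≤ x ^ ρ / ρ := Real.log_le_rpow_div hx0.le hρ
  calc x ^ N = Real.exp (N * Real.log x) := by rw [Real.exp_nat_mul, Real.exp_log hx0]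
    _ ≤ Real.exp ((N / ρ) * x ^ ρ) := by
        apply Real.exp_le_exp.2
        calc (N : ℝ) * Real.log x ≤ N * (x ^ ρ / ρ) := by gcongr
          _ = _ := by ring

lemma norm_zpow_le {s : ℂ} (hs : 1 ≤ ‖s‖) (n : ℤ) : ‖s ^ n‖ ≤ ‖s‖ ^ n.natAbs := by
  rw [norm_zpow]
  calc ‖s‖ ^ n ≤ ‖s‖ ^ ((n.natAbs : ℕ) : ℤ) := by
        apply zpow_le_zpow_right₀ hs
        exact Int.le_natAbs
    _ = ‖s‖ ^ n.natAbs := zpow_natCast _ _

lemma inv_diffAt {g : ℂ → ℂ} {s : ℂ} (hs : s ≠ 0) (hg : DifferentiableAt ℂ g s⁻¹) :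
    DifferentiableAt ℂ (fun s => g s⁻¹) s :=
  hg.comp s (differentiableAt_inv hs)

/-- local package at infinity -/
lemma packInf {f : ℂ → ℂ} {ρ ε : ℝ} (hρ : 0 < ρ) (hε : 0 < ε) (h : LocInf f ρ) :
    ∃ (R C : ℝ) (V W : ℂ → ℂ), 1 ≤ R ∧ 0 < C ∧ Differentiable ℂ V ∧
      DifferentiableOn ℂ W {s | R < ‖s‖} ∧
      (∀ s, ‖s‖ * ε ≤ 1 → V s ≠ 0) ∧
      (∀ s, ∀ᶠ w in 𝓝[≠] s, V w ≠ 0) ∧
      (∀ s, R < ‖s‖ → ∀ᶠ w in 𝓝[≠] s, f w * V w = W w) ∧
      ∀ s, R < ‖s‖ → ‖V s‖ ≤ Real.exp (C * ‖s‖ ^ ρ) ∧ ‖W s‖ ≤ Real.exp (C * ‖s‖ ^ ρ) := by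
  obtain ⟨R₀, C, α, β, hR₀, hC, hα, hβ, hne, hloc⟩ := h
  have hδ : 0 < R₀⁻¹ := inv_pos.2 hR₀
  have hext : IsOpen {s : ℂ | R₀ < ‖s‖} := isOpen_lt continuous_const continuous_norm
  have hinvR : ∀ t : ℂ, 0 < ‖t‖ → ‖t‖ < R₀⁻¹ → R₀ < ‖t⁻¹‖ := by
    intro t h1 h2
    rw [norm_inv]
    exact (lt_inv_comm₀ h1 hR₀).1 h2
  have hα' : DifferentiableOn ℂ (fun t => α t⁻¹) {t | 0 < ‖t‖ ∧ ‖t‖ < R₀⁻¹} := by
    intro t ht
    have h1 := hinvR t ht.1 ht.2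
    have h2 : DifferentiableAt ℂ α t⁻¹ := (hα t⁻¹ h1).differentiableAt (hext.mem_nhds h1)
    exact (inv_diffAt (norm_pos_iff.1 ht.1) h2).differentiableWithinAt
  have hne' : ∃ t, 0 < ‖t‖ ∧ ‖t‖ < R₀⁻¹ ∧ (fun t => α t⁻¹) t ≠ 0 := by
    obtain ⟨s, h1, h2⟩ := hne
    have hs0 : 0 < ‖s‖ := hR₀.trans h1
    refine ⟨s⁻¹, by rw [norm_inv]; exact inv_pos.2 hs0, ?_, by simpa using h2⟩
    rw [norm_inv]; exact inv_strictAnti₀ hR₀ h1
  obtain ⟨r₁, r₂, V₀, k, P, n, c, hr1, hr12, hr2δ, hr2ε, hc, hV₀, hk, hP, hV1, hV2⟩ :=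
    factor hδ hε hα' hne'
  have hr2 : 0 < r₂ := hr1.trans hr12
  have hziso : ∀ t, 0 < ‖t‖ → ‖t‖ < R₀⁻¹ → ∀ᶠ w in 𝓝[≠] t, α w⁻¹ ≠ 0 := by
    intro t h1 h2
    have h3 := zeros_isolated (α := fun t => α t⁻¹) (q := 0) (δ := R₀⁻¹)
      (by simpa using hα') (by simpa using hne') t (by simpa using h1) (by simpa using h2)
    exact h3
  set R : ℝ := max 1 (2 / r₂) with hR
  have hR1 : 1 ≤ R := le_max_left _ _
  have hRr : 2 / r₂ ≤ R := le_max_right _ _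
  have hsmall : ∀ s : ℂ, R < ‖s‖ → ‖s⁻¹‖ ≤ r₂ / 2 := by
    intro s hs
    rw [norm_inv]
    have h1 : 2 / r₂ ≤ ‖s‖ := hRr.trans hs.le
    calc ‖s‖⁻¹ ≤ (2 / r₂)⁻¹ := inv_anti₀ (by positivity) h1
      _ = r₂ / 2 := by rw [inv_div]
  have hkc : ContinuousOn (fun s => Complex.exp (k s)) (closedBall 0 (r₂ / 2)) :=
    (hk.continuousOn.mono (closedBall_subset_ball (by linarith))).cexp
  obtain ⟨Kb, hKb⟩ := (isCompact_closedBall (0 : ℂ) (r₂ / 2)).exists_bound_of_continuousOn hkc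
  set K := max Kb 1 with hK
  have hK0 : 0 < K := lt_of_lt_of_le one_pos (le_max_right _ _)
  have hKk : ∀ s : ℂ, R < ‖s‖ → ‖Complex.exp (k s⁻¹)‖ ≤ K := fun s hs =>
    (hKb s⁻¹ (mem_closedBall_zero_iff.2 (hsmall s hs))).trans (le_max_left _ _)
  set V : ℂ → ℂ := fun s => if s = 0 then c * Complex.exp (P 0) else s ^ n * V₀ s⁻¹ with hV
  set W : ℂ → ℂ := fun s => s ^ n * (β s * Complex.exp (k s⁻¹)) with hW
  have hVout : ∀ s, s ≠ 0 → V s = s ^ n * V₀ s⁻¹ := fun s hs => by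
    simp only [hV]; rw [if_neg hs]
  have hVin : ∀ s : ℂ, ‖s‖ < r₁⁻¹ → V s = c * Complex.exp (P s) := by
    intro s hs
    by_cases h0 : s = 0
    · simp only [hV]; rw [if_pos h0, h0]
    · rw [hVout s h0]
      have hsn : 0 < ‖s‖ := norm_pos_iff.2 h0
      have h1 : r₁ < ‖s⁻¹‖ := by
        rw [norm_inv]; exact (lt_inv_comm₀ hsn hr1).1 hs
      rw [hV2 s⁻¹ h1, inv_inv, inv_zpow]
      have : s ^ n ≠ 0 := zpow_ne_zero n h0
      field_simp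
  have hVfar : ∀ s : ℂ, r₂⁻¹ < ‖s‖ → V s = s ^ n * (α s * Complex.exp (k s⁻¹)) := by
    intro s hs
    have hsn : 0 < ‖s‖ := (inv_pos.2 hr2).trans hs
    have h0 : s ≠ 0 := norm_pos_iff.1 hsn
    rw [hVout s h0]
    have h1 : ‖s⁻¹‖ < r₂ := by
      rw [norm_inv]; exact (inv_lt_comm₀ hsn hr2).2 hs
    rw [hV1 s⁻¹ (by rw [norm_inv]; exact inv_pos.2 hsn) h1, inv_inv]
  have hRr' : r₂⁻¹ < R := by
    refine lt_of_lt_of_le ?_ hRr
    rw [div_eq_mul_inv]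
    have := inv_pos.2 hr2
    linarith
  have hRR0 : R₀ < R := by
    refine lt_of_lt_of_le ?_ hRr'.le
    rw [← inv_inv R₀]
    exact inv_strictAnti₀ hr2 hr2δ
  refine ⟨R, |Real.log K| + ((n.natAbs : ℝ) / ρ + C), V, W, hR1, by positivity, ?_, ?_, ?_, ?_,
    ?_, ?_⟩
  · intro s
    by_cases h0 : s = 0
    · subst h0
      have h1 : (0 : ℂ) ∈ ball (0 : ℂ) r₁⁻¹ := mem_ball_self (inv_pos.2 hr1)
      have hev : V =ᶠ[𝓝 0] fun s => c * Complex.exp (P s) := by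
        filter_upwards [isOpen_ball.mem_nhds h1] with w hw
        exact hVin w (mem_ball_zero_iff.1 hw)
      rw [hev.differentiableAt_iff]
      have := (hP 0 h1).differentiableAt (isOpen_ball.mem_nhds h1)
      exact this.cexp.const_mul c
    · have hev : V =ᶠ[𝓝 s] fun s => s ^ n * V₀ s⁻¹ := by
        filter_upwards [isOpen_ne.mem_nhds h0] with w hw
        exact hVout w hw
      rw [hev.differentiableAt_iff]
      have h1 : s⁻¹ ∈ ({0} : Set ℂ)ᶜ := inv_ne_zero h0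
      have d1 : DifferentiableAt ℂ V₀ s⁻¹ :=
        (hV₀ s⁻¹ h1).differentiableAt (isOpen_compl_singleton.mem_nhds h1)
      have d2 : DifferentiableAt ℂ (fun s : ℂ => s ^ n) s := differentiableAt_zpow.2 (Or.inl h0)
      exact d2.mul (inv_diffAt h0 d1)
  · intro s hs
    have hs' : R < ‖s‖ := hs
    have hsR : R₀ < ‖s‖ := hRR0.trans hs'
    have h0 : s ≠ 0 := norm_pos_iff.1 (hR₀.trans hsR)
    have d1 : DifferentiableAt ℂ β s := (hβ s hsR).differentiableAt (hext.mem_nhds hsR)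
    have hb : s⁻¹ ∈ ball (0 : ℂ) r₂ := by
      rw [mem_ball_zero_iff]; linarith [hsmall s hs']
    have d2 : DifferentiableAt ℂ k s⁻¹ := (hk s⁻¹ hb).differentiableAt (isOpen_ball.mem_nhds hb)
    have d3 : DifferentiableAt ℂ (fun s : ℂ => s ^ n) s := differentiableAt_zpow.2 (Or.inl h0)
    exact (d3.mul (d1.mul (inv_diffAt h0 d2).cexp)).differentiableWithinAt
  · intro s hs
    have h1 : ‖s‖ < r₁⁻¹ := by
      have h2 : ‖s‖ ≤ ε⁻¹ := by
        rw [← one_div, le_div_iff₀ hε]; exact hs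
      refine lt_of_le_of_lt h2 (inv_strictAnti₀ hr1 (hr12.trans hr2ε))
    rw [hVin s h1]
    exact mul_ne_zero hc (Complex.exp_ne_zero _)
  · intro s
    by_cases h : ‖s‖ < r₁⁻¹
    · have hO : IsOpen {s : ℂ | ‖s‖ < r₁⁻¹} := isOpen_lt continuous_norm continuous_const
      filter_upwards [mem_nhdsWithin_of_mem_nhds (hO.mem_nhds h)] with w hw
      rw [hVin w hw]
      exact mul_ne_zero hc (Complex.exp_ne_zero _)
    · have h1 : r₂⁻¹ < ‖s‖ := lt_of_lt_of_le (inv_strictAnti₀ hr1 hr12) (not_lt.1 h)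
      have hsn : 0 < ‖s‖ := (inv_pos.2 hr2).trans h1
      have h0 : s ≠ 0 := norm_pos_iff.1 hsn
      have hO : IsOpen {s : ℂ | r₂⁻¹ < ‖s‖} := isOpen_lt continuous_const continuous_norm
      have e1 : ∀ᶠ w in 𝓝[≠] s, r₂⁻¹ < ‖w‖ := mem_nhdsWithin_of_mem_nhds (hO.mem_nhds h1)
      have e2 : ∀ᶠ w in 𝓝[≠] s, α w ≠ 0 := by
        have hanα := (hα.analyticOnNhd hext) s (by
          show R₀ < ‖s‖
          refine lt_trans ?_ h1
          rw [← inv_inv R₀]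
          exact inv_strictAnti₀ hr2 hr2δ)
        rcases hanα.eventually_eq_zero_or_eventually_ne_zero with h2 | h2
        · exfalso
          have h3 : ∀ᶠ t in 𝓝[≠] s⁻¹, α t⁻¹ ≠ 0 := by
            refine hziso s⁻¹ (by rw [norm_inv]; exact inv_pos.2 hsn) ?_
            rw [norm_inv]
            calc ‖s‖⁻¹ < r₂ := (inv_lt_comm₀ hsn hr2).2 h1
              _ < R₀⁻¹ := hr2δ
          have h4 : ∀ᶠ t in 𝓝 s⁻¹, α t⁻¹ = 0 := by
            have hc' : ContinuousAt (fun t : ℂ => t⁻¹) s⁻¹ := continuousAt_inv₀ (inv_ne_zero h0)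
            have h5 : Tendsto (fun t : ℂ => t⁻¹) (𝓝 s⁻¹) (𝓝 s) := by
              have := hc'.tendsto
              rwa [inv_inv] at this
            exact h5.eventually h2
          have h5 : ∀ᶠ t in 𝓝[≠] s⁻¹, α t⁻¹ = 0 := h4.filter_mono nhdsWithin_le_nhds
          obtain ⟨t, ht1, ht2⟩ := (h3.and h5).exists
          exact ht1 ht2
        · exact h2
      filter_upwards [e1, e2] with w hw1 hw2
      have hw0 : w ≠ 0 := norm_pos_iff.1 ((inv_pos.2 hr2).trans hw1)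
      rw [hVfar w hw1]
      exact mul_ne_zero (zpow_ne_zero _ hw0) (mul_ne_zero hw2 (Complex.exp_ne_zero _))
  · intro s hs
    have hsR : R₀ < ‖s‖ := hRR0.trans hs
    have hsn : 0 < ‖s‖ := hR₀.trans hsR
    have h0 : s ≠ 0 := norm_pos_iff.1 hsn
    have hO : IsOpen {s : ℂ | R < ‖s‖} := isOpen_lt continuous_const continuous_norm
    have e1 : ∀ᶠ w in 𝓝[≠] s, R < ‖w‖ := mem_nhdsWithin_of_mem_nhds (hO.mem_nhds hs)
    -- `α` is not locally zero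
    have e2 : ∀ᶠ w in 𝓝[≠] s, α w ≠ 0 := by
      have hanα := (hα.analyticOnNhd hext) s hsR
      rcases hanα.eventually_eq_zero_or_eventually_ne_zero with h2 | h2
      · exfalso
        have h3 : ∀ᶠ t in 𝓝[≠] s⁻¹, α t⁻¹ ≠ 0 := by
          refine hziso s⁻¹ (by rw [norm_inv]; exact inv_pos.2 hsn) ?_
          rw [norm_inv]
          exact inv_strictAnti₀ hR₀ hsR
        have h4 : ∀ᶠ t in 𝓝 s⁻¹, α t⁻¹ = 0 := by
          have hc' : ContinuousAt (fun t : ℂ => t⁻¹) s⁻¹ := continuousAt_inv₀ (inv_ne_zero h0)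
          have h5 : Tendsto (fun t : ℂ => t⁻¹) (𝓝 s⁻¹) (𝓝 s) := by
            have := hc'.tendsto
            rwa [inv_inv] at this
          exact h5.eventually h2
        have h5 : ∀ᶠ t in 𝓝[≠] s⁻¹, α t⁻¹ = 0 := h4.filter_mono nhdsWithin_le_nhds
        obtain ⟨t, ht1, ht2⟩ := (h3.and h5).exists
        exact ht1 ht2
      · exact h2
    filter_upwards [e1, e2] with w hw1 hw2
    rw [hVfar w (hRr'.trans hw1), (hloc w (hRR0.trans hw1)).1]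
    simp only [hW]
    field_simp
  · intro s hs
    have hs1 : 1 ≤ ‖s‖ := hR1.trans hs.le
    have hy : 1 ≤ ‖s‖ ^ ρ := Real.one_le_rpow hs1 hρ.le
    obtain ⟨-, ha, hb⟩ := hloc s (hRR0.trans hs)
    have hkb := hKk s hs
    have hz : ‖s ^ n‖ ≤ Real.exp ((n.natAbs / ρ) * ‖s‖ ^ ρ) :=
      (norm_zpow_le hs1 n).trans (pow_le_exp_rpow hs1 hρ _)
    have hcomb : ∀ x : ℝ, 0 ≤ x → x ≤ Real.exp (C * ‖s‖ ^ ρ) →
        ‖s ^ n‖ * (x * ‖Complex.exp (k s⁻¹)‖) ≤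
        K * Real.exp (((n.natAbs : ℝ) / ρ + C) * ‖s‖ ^ ρ) := by
      intro x hx0 hx
      calc ‖s ^ n‖ * (x * ‖Complex.exp (k s⁻¹)‖)
          ≤ Real.exp ((n.natAbs / ρ) * ‖s‖ ^ ρ) * (Real.exp (C * ‖s‖ ^ ρ) * K) := by gcongr
        _ = K * Real.exp (((n.natAbs : ℝ) / ρ + C) * ‖s‖ ^ ρ) := by
            rw [add_mul, Real.exp_add]; ring
    constructor
    · refine bounded_factor hK0 hy ?_
      rw [hVfar s (hRr'.trans hs), norm_mul, norm_mul]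
      exact hcomb _ (norm_nonneg _) ha
    · refine bounded_factor hK0 hy ?_
      simp only [hW]
      rw [norm_mul, norm_mul]
      exact hcomb _ (norm_nonneg _) hb

end

end Pool.Agent.Helper433.ES
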