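import Pool.Agent.Helper433_ES.Glue2

/-! Gluing: `f = U / V` globally. -/

namespace Pool.Agent.Helper433.ES

open Filter Topology Metric

noncomputable section

/-- `G` agrees with an analytic function near `p`, away from `p` -/
def Ext (G : ℂ → ℂ) (p : ℂ) : Prop :=
  ∃ h : ℂ → ℂ, AnalyticAt ℂ h p ∧ ∀ᶠ s in 𝓝[≠] p, G s = h s

lemma eq_of_eventually_ne {f g : ℂ → ℂ} {p : ℂ} (hf : ContinuousAt f p) (hg : ContinuousAt g p)
    (h : ∀ᶠ s in 𝓝[≠] p, f s = g s) : f p = g p := by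
  have t1 : Tendsto f (𝓝[≠] p) (𝓝 (f p)) := hf.tendsto.mono_left nhdsWithin_le_nhds
  have t2 : Tendsto g (𝓝[≠] p) (𝓝 (g p)) := hg.tendsto.mono_left nhdsWithin_le_nhds
  exact tendsto_nhds_unique (t1.congr' h) t2

lemma extend {G : ℂ → ℂ} {O : Set ℂ} (hO : IsOpen O) (h : ∀ p ∈ O, Ext G p) :
    ∃ U : ℂ → ℂ, (∀ p ∈ O, AnalyticAt ℂ U p) ∧ ∀ p ∈ O, ∀ᶠ s in 𝓝[≠] p, G s = U s := by
  choose! H hH1 hH2 using h
  set U : ℂ → ℂ := fun s => H s s with hU
  have key : ∀ p ∈ O, U =ᶠ[𝓝 p] H p := by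
    intro p hp
    have h1 : ∀ᶠ s in 𝓝 p, s ∈ O := hO.mem_nhds hp
    have h2 := (hH1 p hp).eventually_analyticAt
    have h3 : ∀ᶠ s in 𝓝[≠] p, ∀ᶠ w in 𝓝[≠] s, G w = H p w := by
      have h4 := hH2 p hp
      rw [eventually_nhdsWithin_iff] at h4
      have h5 := eventually_eventually_nhds.2 h4
      rw [eventually_nhdsWithin_iff]
      filter_upwards [h5] with s hs hsp
      rw [eventually_nhdsWithin_iff]
      filter_upwards [hs, isOpen_ne.mem_nhds hsp] with w hw1 hw2 _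
      exact hw1 hw2
    rw [eventually_nhdsWithin_iff] at h3
    filter_upwards [h1, h2, h3] with s hs1 hs2 hs3
    by_cases hsp : s = p
    · subst hsp; rfl
    · have h6 := hs3 hsp
      have h7 := hH2 s hs1
      simp only [hU]
      refine eq_of_eventually_ne (hH1 s hs1).continuousAt hs2.continuousAt ?_
      filter_upwards [h6, h7] with w hw1 hw2
      rw [← hw2, hw1]
  refine ⟨U, fun p hp => (hH1 p hp).congr (key p hp).symm, fun p hp => ?_⟩
  filter_upwards [hH2 p hp, (key p hp).filter_mono nhdsWithin_le_nhds] with s hs1 hs2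
  rw [hs1, hs2]

/-- polynomial growth at infinity -/
def PG (h : ℂ → ℂ) : Prop :=
  ∃ (K R : ℝ) (N : ℕ), 0 < K ∧ 1 ≤ R ∧ ∀ s, R ≤ ‖s‖ → ‖h s‖ ≤ K * ‖s‖ ^ N

lemma PG.mul {f g : ℂ → ℂ} (hf : PG f) (hg : PG g) : PG fun s => f s * g s := by
  obtain ⟨K, R, N, hK, hR, h⟩ := hf
  obtain ⟨K', R', N', hK', hR', h'⟩ := hg
  refine ⟨K * K', max R R', N + N', by positivity, le_max_of_le_left hR, fun s hs => ?_⟩
  have h1 := h s ((le_max_left _ _).trans hs)
  have h2 := h' s ((le_max_right _ _).trans hs)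
  rw [norm_mul]
  calc ‖f s‖ * ‖g s‖ ≤ (K * ‖s‖ ^ N) * (K' * ‖s‖ ^ N') := by gcongr
    _ = K * K' * ‖s‖ ^ (N + N') := by rw [pow_add]; ring

lemma PG.prod {ι : Type*} (I : Finset ι) {f : ι → ℂ → ℂ} (hf : ∀ i ∈ I, PG (f i)) :
    PG fun s => ∏ i ∈ I, f i s := by
  classical
  induction I using Finset.induction_on with
  | empty => exact ⟨1, 1, 0, one_pos, le_rfl, fun s _ => by simp⟩
  | insert i I hi ih =>
    have h1 := (hf i (Finset.mem_insert_self i I)).mul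
      (ih fun j hj => hf j (Finset.mem_insert_of_mem hj))
    simpa only [Finset.prod_insert hi] using h1

lemma PG_lin (p : ℂ) : PG fun s => s - p := by
  refine ⟨2, 1 + ‖p‖, 1, by norm_num, by linarith [norm_nonneg p], fun s hs => ?_⟩
  have := norm_sub_le s p
  rw [pow_one]; linarith

lemma PG.pow {f : ℂ → ℂ} (hf : PG f) (n : ℕ) : PG fun s => f s ^ n := by
  have := PG.prod (Finset.range n) (f := fun _ => f) fun _ _ => hf
  simpa using this

lemma PG.growth {h W : ℂ → ℂ} {ρ R C : ℝ} (hρ : 0 < ρ) (hC : 0 < C) (hh : PG h)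
    (hW : ∀ s, R < ‖s‖ → ‖W s‖ ≤ Real.exp (C * ‖s‖ ^ ρ)) :
    ∃ R' C' : ℝ, 0 < C' ∧ ∀ s, R' < ‖s‖ → ‖h s * W s‖ ≤ Real.exp (C' * ‖s‖ ^ ρ) := by
  obtain ⟨K, R₁, N, hK, hR₁, h1⟩ := hh
  refine ⟨max R R₁, |Real.log K| + ((N : ℝ) / ρ + C), by positivity, fun s hs => ?_⟩
  have hs1 : R < ‖s‖ := (le_max_left _ _).trans_lt hs
  have hs2 : R₁ ≤ ‖s‖ := ((le_max_right _ _).trans_lt hs).le
  have hs3 : 1 ≤ ‖s‖ := hR₁.trans hs2
  have hy : 1 ≤ ‖s‖ ^ ρ := Real.one_le_rpow hs3 hρ.le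
  refine bounded_factor hK hy ?_
  rw [norm_mul]
  calc ‖h s‖ * ‖W s‖ ≤ (K * ‖s‖ ^ N) * Real.exp (C * ‖s‖ ^ ρ) := by
        gcongr
        · exact h1 s hs2
        · exact hW s hs1
    _ ≤ (K * Real.exp ((N / ρ) * ‖s‖ ^ ρ)) * Real.exp (C * ‖s‖ ^ ρ) := by
        gcongr
        exact pow_le_exp_rpow hs3 hρ N
    _ = K * Real.exp (((N : ℝ) / ρ + C) * ‖s‖ ^ ρ) := by rw [add_mul, Real.exp_add]; ring

/-- `f` is a quotient of analytic functions near `p` -/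
def LocP (f : ℂ → ℂ) (p : ℂ) : Prop :=
  ∃ α β : ℂ → ℂ, AnalyticAt ℂ α p ∧ AnalyticAt ℂ β p ∧ (∀ᶠ s in 𝓝[≠] p, α s ≠ 0) ∧
    ∀ᶠ s in 𝓝[≠] p, f s = β s / α s

lemma LocP.mero {f : ℂ → ℂ} {p : ℂ} (h : LocP f p) : MeromorphicAt f p := by
  obtain ⟨α, β, hα, hβ, -, hf⟩ := h
  exact (hβ.meromorphicAt.div hα.meromorphicAt).congr (by
    filter_upwards [hf] with s hs
    rw [hs]; rfl)

theorem glue (D : Finset ℂ) (ρ : ℂ → ℝ) (ρi : ℝ) (hρ : ∀ q ∈ D, 0 < ρ q) (hρi : 0 < ρi)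
    (f : ℂ → ℂ) (hq : ∀ q ∈ D, LocQ f q (ρ q)) (hi : LocInf f ρi) (hp : ∀ p ∉ D, LocP f p)
    (I : Finset ℂ) (hI : ∀ p ∈ I, p ∉ D) (hIf : ∀ p ∈ I, Ext f p) :
    ∃ (U V : ℂ → ℂ) (C δ : ℝ), 0 < C ∧ 0 < δ ∧
      DifferentiableOn ℂ U ((D : Set ℂ)ᶜ) ∧ DifferentiableOn ℂ V ((D : Set ℂ)ᶜ) ∧
      (∀ q ∈ D, ∀ s, 0 < ‖s - q‖ → ‖s - q‖ < δ →
        ‖U s‖ ≤ Real.exp (C * ‖s - q‖ ^ (-ρ q)) ∧ ‖V s‖ ≤ Real.exp (C * ‖s - q‖ ^ (-ρ q))) ∧
      (∀ s, 1 / δ < ‖s‖ →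
        ‖U s‖ ≤ Real.exp (C * ‖s‖ ^ ρi) ∧ ‖V s‖ ≤ Real.exp (C * ‖s‖ ^ ρi)) ∧
      (∀ p ∈ I, V p ≠ 0) ∧ (∀ p ∉ D, ∀ᶠ s in 𝓝[≠] p, V s ≠ 0 ∧ f s * V s = U s) := by
  classical
  -- the distance parameter
  obtain ⟨ε, hε0, hε1, hε2⟩ : ∃ ε : ℝ, 0 < ε ∧ (∀ p ∈ I, ∀ q ∈ D, ε ≤ ‖p - q‖) ∧
      ∀ p ∈ I, ‖p‖ * ε ≤ 1 := by
    set S₁ : ℝ := ∑ p ∈ I, ‖p‖ with hS₁
    set S₂ : ℝ := ∑ p ∈ I, ∑ q ∈ D, 1 / ‖p - q‖ with hS₂
    have h1 : 0 ≤ S₁ := Finset.sum_nonneg fun _ _ => norm_nonneg _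
    have h2 : 0 ≤ S₂ := Finset.sum_nonneg fun _ _ => Finset.sum_nonneg fun _ _ => by positivity
    refine ⟨1 / (1 + S₁ + S₂), by positivity, ?_, ?_⟩
    · intro p hp q hq
      have h3 : 0 < ‖p - q‖ := by
        rw [norm_pos_iff, sub_ne_zero]
        rintro rfl
        exact hI p hp hq
      have h4 : 1 / ‖p - q‖ ≤ S₂ := by
        refine le_trans ?_ (Finset.single_le_sum (f := fun p => ∑ q ∈ D, 1 / ‖p - q‖)
          (fun _ _ => Finset.sum_nonneg fun _ _ => by positivity) hp)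
        exact Finset.single_le_sum (f := fun q => 1 / ‖p - q‖) (fun _ _ => by positivity) hq
      rw [div_le_iff₀ h3] at h4
      rw [div_le_iff₀ (by positivity)]
      nlinarith
    · intro p hp
      have h4 : ‖p‖ ≤ S₁ := Finset.single_le_sum (f := fun p => ‖p‖) (fun _ _ => norm_nonneg _) hp
      rw [mul_one_div, div_le_one (by positivity)]
      linarith
  -- local packages
  choose! r Cq Vq Wq hr0 hr1 hCq hVqd hWqd hVqne hVqne2 hVqPG hfq hgrq using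
    fun (q : ℂ) (h : q ∈ D) => packQ (hρ q h) hε0 (hq q h)
  obtain ⟨Ri, Ci, Vi, Wi, hRi, hCi, hVid, hWid, hVine, hVine2, hfi, hgri⟩ := packInf hρi hε0 hi
  have hDo : IsOpen ((D : Set ℂ)ᶜ) := D.finite_toSet.isClosed.isOpen_compl
  have hVqan : ∀ q ∈ D, ∀ s, s ≠ q → AnalyticAt ℂ (Vq q) s := fun q hq s hs =>
    (hVqd q hq).analyticAt (isOpen_compl_singleton.mem_nhds hs)
  have hVian : ∀ s, AnalyticAt ℂ Vi s := fun s =>
    (hVid.differentiableOn (s := Set.univ)).analyticAt univ_mem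
  set V₁ : ℂ → ℂ := fun s => Vi s * ∏ q ∈ D, Vq q s with hV₁
  have hprodan : ∀ (E : Finset ℂ), E ⊆ D → ∀ s, s ∉ E →
      AnalyticAt ℂ (fun s => ∏ q ∈ E, Vq q s) s := by
    intro E hE s hs
    refine Finset.analyticAt_fun_prod _ fun q hq => hVqan q (hE hq) s ?_
    rintro rfl
    exact hs hq
  have hV₁an : ∀ s ∉ D, AnalyticAt ℂ V₁ s := fun s hs =>
    (hVian s).mul (hprodan D subset_rfl s hs)
  set g : ℂ → ℂ := fun s => f s * V₁ s with hg
  have hgm : ∀ s ∉ D, MeromorphicAt g s := fun s hs =>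
    ((hp s hs).mero).mul (hV₁an s hs).meromorphicAt
  -- the bad points
  set Z : Set ℂ := {p | p ∉ D ∧ ¬ Ext g p} with hZ
  set K : Set ℂ := {s | ‖s‖ ≤ Ri ∧ ∀ q ∈ D, r q ≤ ‖s - q‖} with hK
  have hgi : ∀ s, Ri < ‖s‖ → s ∉ D → ∀ᶠ w in 𝓝[≠] s, g w = Wi w * ∏ q ∈ D, Vq q w := by
    intro s hs _
    filter_upwards [hfi s hs] with w hw
    simp only [hg, hV₁]
    rw [← hw]; ring
  have hgq : ∀ q ∈ D, ∀ s, 0 < ‖s - q‖ → ‖s - q‖ < r q → ∀ᶠ w in 𝓝[≠] s,
      g w = Wq q w * (Vi w * ∏ q' ∈ D.erase q, Vq q' w) := by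
    intro q hq s h1 h2
    filter_upwards [hfq q hq s h1 h2] with w hw
    simp only [hg, hV₁]
    rw [← hw, ← Finset.mul_prod_erase D _ hq]; ring
  have hWian : ∀ s, Ri < ‖s‖ → AnalyticAt ℂ Wi s := fun s hs =>
    hWid.analyticAt ((isOpen_lt continuous_const continuous_norm).mem_nhds hs)
  have hWqan : ∀ q ∈ D, ∀ s, 0 < ‖s - q‖ → ‖s - q‖ < r q → AnalyticAt ℂ (Wq q) s :=
    fun q hq s h1 h2 => (hWqd q hq).analyticAt ((pball_open q (r q)).mem_nhds ⟨h1, h2⟩)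
  have hZK : Z ⊆ K := by
    rintro s ⟨hs1, hs2⟩
    refine ⟨?_, fun q hq => ?_⟩
    · by_contra h
      push Not at h
      apply hs2
      exact ⟨_, (hWian s h).mul (hprodan D subset_rfl s hs1), hgi s h hs1⟩
    · by_contra h
      push Not at h
      apply hs2
      have h0 : 0 < ‖s - q‖ := by
        rw [norm_pos_iff, sub_ne_zero]
        rintro rfl
        exact hs1 hq
      refine ⟨_, (hWqan q hq s h0 h).mul ((hVian s).mul (hprodan (D.erase q)
        (Finset.erase_subset _ _) s fun h => hs1 (Finset.mem_of_mem_erase h))), hgq q hq s h0 h⟩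
  have hKD : K ⊆ (D : Set ℂ)ᶜ := by
    intro s hs hsD
    have h1 := hs.2 s hsD
    rw [sub_self, norm_zero] at h1
    exact absurd (hr0 s hsD) (not_lt.2 h1)
  have hKc : IsCompact K := by
    refine Metric.isCompact_of_isClosed_isBounded ?_ ?_
    · have h1 : K = {s | ‖s‖ ≤ Ri} ∩ ⋂ q ∈ D, {s | r q ≤ ‖s - q‖} := by
        ext s; simp [hK]
      rw [h1]
      refine (isClosed_le continuous_norm continuous_const).inter ?_
      exact isClosed_biInter fun q _ => isClosed_le continuous_const (by fun_prop)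
    · refine (Metric.isBounded_closedBall (x := (0 : ℂ)) (r := Ri)).subset fun s hs => ?_
      rw [mem_closedBall_zero_iff]; exact hs.1
  have hiso : ∀ s ∉ D, ∀ᶠ w in 𝓝[≠] s, w ∉ Z := by
    intro s hs
    filter_upwards [(hgm s hs).eventually_analyticAt] with w hw hwZ
    exact hwZ.2 ⟨g, hw, Eventually.of_forall fun _ => rfl⟩
  have hZfin : Z.Finite := by
    by_contra hinf
    obtain ⟨x, hxK, hx⟩ := Set.Infinite.exists_accPt_of_subset_isCompact hinf hKc hZK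
    have h1 := hiso x (hKD hxK)
    rw [accPt_iff_frequently] at hx
    have h2 : ∃ᶠ w in 𝓝[≠] x, w ∈ Z := by
      rw [frequently_nhdsWithin_iff]
      exact hx.mono fun y hy => ⟨hy.2, hy.1⟩
    exact h2 h1
  -- the clearing polynomial
  have hnp : ∀ p ∉ D, ∃ n : ℕ, AnalyticAt ℂ (fun z => (z - p) ^ n • g z) p := fun p hp => hgm p hp
  choose! n hn using hnp
  set P : ℂ → ℂ := fun s => ∏ p ∈ hZfin.toFinset, (s - p) ^ (n p) with hP
  have hPan : ∀ s, AnalyticAt ℂ P s := fun s => by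
    refine Finset.analyticAt_fun_prod _ fun p _ => ?_
    fun_prop
  have hPPG : PG P := PG.prod _ fun p _ => (PG_lin p).pow _
  have hPne : ∀ s, s ∉ Z → P s ≠ 0 := by
    intro s hs
    simp only [hP]
    rw [Finset.prod_ne_zero_iff]
    intro p hp
    refine pow_ne_zero _ (sub_ne_zero.2 ?_)
    rintro rfl
    exact hs (hZfin.mem_toFinset.1 hp)
  have hPg : ∀ p ∈ ((D : Set ℂ)ᶜ), Ext (fun s => P s * g s) p := by
    intro p hp
    by_cases hpZ : p ∈ Z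
    · refine ⟨fun s => (∏ p' ∈ hZfin.toFinset.erase p, (s - p') ^ (n p')) *
        ((s - p) ^ (n p) • g s), ?_, ?_⟩
      · refine AnalyticAt.mul ?_ (hn p hp)
        refine Finset.analyticAt_fun_prod _ fun p _ => ?_
        fun_prop
      · refine Eventually.of_forall fun s => ?_
        simp only [hP]
        rw [← Finset.mul_prod_erase _ _ (hZfin.mem_toFinset.2 hpZ), smul_eq_mul]
        ring
    · have hext : Ext g p := by
        by_contra h
        exact hpZ ⟨hp, h⟩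
      obtain ⟨h, hh1, hh2⟩ := hext
      refine ⟨fun s => P s * h s, (hPan p).mul hh1, ?_⟩
      filter_upwards [hh2] with s hs
      rw [hs]
  obtain ⟨U, hUan, hUeq⟩ := extend hDo hPg
  set V : ℂ → ℂ := fun s => P s * V₁ s with hV
  have hVan : ∀ s ∉ D, AnalyticAt ℂ V s := fun s hs => (hPan s).mul (hV₁an s hs)
  -- formulas for `U`
  have hUi : ∀ s, Ri < ‖s‖ → s ∉ D → U s = (P s * ∏ q ∈ D, Vq q s) * Wi s := by
    intro s hs hsD
    refine eq_of_eventually_ne (g := fun s => (P s * ∏ q ∈ D, Vq q s) * Wi s)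
      (hUan s hsD).continuousAt
      (((hPan s).mul (hprodan D subset_rfl s hsD)).mul (hWian s hs)).continuousAt ?_
    filter_upwards [hUeq s hsD, hgi s hs hsD] with w hw1 hw2
    rw [← hw1, hw2]; ring
  have hUq : ∀ q ∈ D, ∀ s, 0 < ‖s - q‖ → ‖s - q‖ < r q → s ∉ D →
      U s = (P s * (Vi s * ∏ q' ∈ D.erase q, Vq q' s)) * Wq q s := by
    intro q hq s h1 h2 hsD
    have hE := hprodan (D.erase q) (Finset.erase_subset _ _) s
      fun h => hsD (Finset.mem_of_mem_erase h)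
    refine eq_of_eventually_ne (g := fun s => (P s * (Vi s * ∏ q' ∈ D.erase q, Vq q' s)) * Wq q s)
      (hUan s hsD).continuousAt
      (((hPan s).mul ((hVian s).mul hE)).mul (hWqan q hq s h1 h2)).continuousAt ?_
    filter_upwards [hUeq s hsD, hgq q hq s h1 h2] with w hw1 hw2
    rw [← hw1, hw2]; ring
  -- growth at infinity
  have hprodPG : PG fun s => ∏ q ∈ D, Vq q s := PG.prod D fun q hq => hVqPG q hq
  obtain ⟨R1, C1, hC1, hg1⟩ := (hPPG.mul hprodPG).growth hρi hCi (fun s hs => (hgri s hs).2)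
  obtain ⟨R2, C2, hC2, hg2⟩ := (hPPG.mul hprodPG).growth hρi hCi (fun s hs => (hgri s hs).1)
  set SD : ℝ := ∑ q ∈ D, ‖q‖ with hSD
  have hSD0 : 0 ≤ SD := Finset.sum_nonneg fun _ _ => norm_nonneg _
  have hSDq : ∀ q ∈ D, ‖q‖ ≤ SD := fun q hq =>
    Finset.single_le_sum (f := fun q : ℂ => ‖q‖) (fun _ _ => norm_nonneg _) hq
  set RR : ℝ := max (max R1 R2) (Ri + SD) with hRR
  have hRR0 : 0 < RR := lt_of_lt_of_le (by linarith) (le_max_right _ _)
  -- growth near `q`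
  have hloc : ∀ q ∈ D, ∃ δ' C' : ℝ, 0 < δ' ∧ 0 < C' ∧ ∀ s, 0 < ‖s - q‖ → ‖s - q‖ < δ' →
      ‖U s‖ ≤ Real.exp (C' * ‖s - q‖ ^ (-ρ q)) ∧ ‖V s‖ ≤ Real.exp (C' * ‖s - q‖ ^ (-ρ q)) := by
    intro q hq
    set F : ℂ → ℂ := fun s => P s * (Vi s * ∏ q' ∈ D.erase q, Vq q' s) with hF
    have hFan : AnalyticAt ℂ F q := (hPan q).mul ((hVian q).mul
      (hprodan (D.erase q) (Finset.erase_subset _ _) q (Finset.notMem_erase q D)))
    have hFb : ∀ᶠ s in 𝓝 q, ‖F s‖ < ‖F q‖ + 1 :=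
      hFan.continuousAt.norm.eventually_lt continuousAt_const (by linarith)
    have hDq : ∀ᶠ s in 𝓝 q, s ∉ D.erase q := by
      have : IsOpen (((D.erase q : Finset ℂ) : Set ℂ)ᶜ) :=
        (D.erase q).finite_toSet.isClosed.isOpen_compl
      exact this.mem_nhds (by simp)
    obtain ⟨δ', hδ', hball⟩ := Metric.eventually_nhds_iff.1 (hFb.and hDq)
    set K' : ℝ := ‖F q‖ + 1 with hK'
    have hK'0 : 0 < K' := by positivity
    refine ⟨min δ' (r q), |Real.log K'| + Cq q, lt_min hδ' (hr0 q hq),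
      by have := hCq q hq; positivity, fun s h1 h2 => ?_⟩
    have h3 : ‖s - q‖ < δ' := h2.trans_le (min_le_left _ _)
    have h4 : ‖s - q‖ < r q := h2.trans_le (min_le_right _ _)
    obtain ⟨h5, h6⟩ := hball (y := s) (by rw [dist_eq_norm]; exact h3)
    have hsD : s ∉ D := by
      intro hsD
      apply h6
      refine Finset.mem_erase.2 ⟨?_, hsD⟩
      rintro rfl
      simp at h1
    have hy := one_le_rpow_neg h1 (h4.trans (hr1 q hq)).le (hρ q hq).le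
    obtain ⟨hb1, hb2⟩ := hgrq q hq s h1 h4
    constructor
    · refine bounded_factor hK'0 hy ?_
      rw [hUq q hq s h1 h4 hsD, norm_mul]
      gcongr
    · refine bounded_factor hK'0 hy ?_
      have : V s = F s * Vq q s := by
        simp only [hV, hV₁, hF]
        rw [← Finset.mul_prod_erase D _ hq]; ring
      rw [this, norm_mul]
      gcongr
  choose! δq Cq' hδq hCq' hgrow using hloc
  obtain ⟨δm, hδm0, hδm⟩ : ∃ δm : ℝ, 0 < δm ∧ ∀ q ∈ D, δm ≤ δq q := by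
    by_cases hD : D.Nonempty
    · obtain ⟨q, hq, hmin⟩ := D.exists_min_image δq hD
      exact ⟨δq q, hδq q hq, hmin⟩
    · refine ⟨1, one_pos, fun q hq => absurd ⟨q, hq⟩ hD⟩
  set CC : ℝ := C1 + C2 + ∑ q ∈ D, Cq' q with hCC
  have hsum0 : 0 ≤ ∑ q ∈ D, Cq' q := Finset.sum_nonneg fun q hq => (hCq' q hq).le
  have hCCq : ∀ q ∈ D, Cq' q ≤ CC := by
    intro q hq
    have := Finset.single_le_sum (f := Cq') (fun q hq => (hCq' q hq).le) hq
    rw [hCC]; linarith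
  refine ⟨U, V, CC, min δm (1 / RR), by rw [hCC]; linarith, lt_min hδm0 (by positivity),
    fun s hs => (hUan s hs).differentiableAt.differentiableWithinAt,
    fun s hs => (hVan s hs).differentiableAt.differentiableWithinAt, ?_, ?_, ?_, ?_⟩
  · intro q hq s h1 h2
    have h3 : ‖s - q‖ < δq q := h2.trans_le ((min_le_left _ _).trans (hδm q hq))
    obtain ⟨h4, h5⟩ := hgrow q hq s h1 h3
    have h6 : 0 ≤ ‖s - q‖ ^ (-ρ q) := by positivity
    have h7 : Real.exp (Cq' q * ‖s - q‖ ^ (-ρ q)) ≤ Real.exp (CC * ‖s - q‖ ^ (-ρ q)) := by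
      apply Real.exp_le_exp.2
      exact mul_le_mul_of_nonneg_right (hCCq q hq) h6
    exact ⟨h4.trans h7, h5.trans h7⟩
  · intro s hs
    have h1 : RR < ‖s‖ := by
      refine lt_of_le_of_lt ?_ hs
      rw [le_div_iff₀ (lt_min hδm0 (by positivity))]
      calc RR * min δm (1 / RR) ≤ RR * (1 / RR) := by
            gcongr
            exact min_le_right _ _
        _ = 1 := by field_simp
    have h2 : max R1 R2 < ‖s‖ := (le_max_left _ _).trans_lt h1
    have h3 : Ri + SD < ‖s‖ := (le_max_right _ _).trans_lt h1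
    have hsD : s ∉ D := by
      intro hsD
      have := hSDq s hsD
      linarith
    have h6 : 0 ≤ ‖s‖ ^ ρi := by positivity
    have e1 := hg1 s ((le_max_left _ _).trans_lt h2)
    have e2 := hg2 s ((le_max_right _ _).trans_lt h2)
    constructor
    · rw [hUi s (by linarith) hsD]
      refine e1.trans (Real.exp_le_exp.2 (mul_le_mul_of_nonneg_right ?_ h6))
      rw [hCC]; linarith
    · have : V s = (P s * ∏ q ∈ D, Vq q s) * Vi s := by
        simp only [hV, hV₁]; ring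
      rw [this]
      refine e2.trans (Real.exp_le_exp.2 (mul_le_mul_of_nonneg_right ?_ h6))
      rw [hCC]; linarith
  · intro p hp
    simp only [hV, hV₁]
    refine mul_ne_zero (hPne p ?_) (mul_ne_zero (hVine p (hε2 p hp)) ?_)
    · rintro ⟨-, h⟩
      apply h
      obtain ⟨h, hh1, hh2⟩ := hIf p hp
      refine ⟨fun s => h s * V₁ s, hh1.mul (hV₁an p (hI p hp)), ?_⟩
      filter_upwards [hh2] with s hs
      simp only [hg]; rw [hs]
    · rw [Finset.prod_ne_zero_iff]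
      intro q hq
      exact hVqne q hq p (hε1 p hp q hq)
  · intro p hp
    have e1 : ∀ᶠ s in 𝓝[≠] p, ∀ q ∈ D, Vq q s ≠ 0 := by
      rw [Filter.eventually_all_finset]
      intro q hq
      exact hVqne2 q hq p (by rintro rfl; exact hp hq)
    filter_upwards [e1, hVine2 p, hiso p hp, hUeq p hp] with s h1 h2 h3 h4
    constructor
    · simp only [hV, hV₁]
      refine mul_ne_zero (hPne s h3) (mul_ne_zero h2 ?_)
      rw [Finset.prod_ne_zero_iff]
      exact h1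
    · rw [← h4]
      simp only [hV, hg]; ring

end

end Pool.Agent.Helper433.ES
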