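import Pool.Agent.Helper433_ES.Rec

/-! Hurwitz integral series and the composite series. -/

namespace Pool.Agent.Helper433.ES

open PowerSeries Filter Topology Finset

noncomputable section

/-- Hurwitz integral series with parameter `B`. -/
def HS (B : ℕ) : Subring ℂ⟦X⟧ where
  carrier := {φ | ∀ n, IsIntegral ℤ ((B : ℂ) ^ n * (n.factorial : ℂ) * coeff n φ)}
  mul_mem' := by
    intro φ ψ hφ hψ n
    rw [PowerSeries.coeff_mul, Finset.mul_sum]
    refine ii_sum _ fun p hp => ?_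
    rw [HasAntidiagonal.mem_antidiagonal] at hp
    have h3 : (n.choose p.1 : ℂ) * (p.1.factorial : ℂ) * (p.2.factorial : ℂ) = n.factorial := by
      have := Nat.choose_mul_factorial_mul_factorial (n := n) (k := p.1) (by omega)
      have h4 : n - p.1 = p.2 := by omega
      rw [h4] at this
      exact_mod_cast this
    have h4 : (B : ℂ) ^ n * (n.factorial : ℂ) * (coeff p.1 φ * coeff p.2 ψ) =
        (n.choose p.1 : ℂ) * (((B : ℂ) ^ p.1 * (p.1.factorial : ℂ) * coeff p.1 φ) *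
          ((B : ℂ) ^ p.2 * (p.2.factorial : ℂ) * coeff p.2 ψ)) := by
      rw [← h3, ← hp, pow_add]; ring
    rw [h4]
    exact (ii_nat _).mul ((hφ _).mul (hψ _))
  one_mem' := by
    intro n
    rw [PowerSeries.coeff_one]
    split_ifs with h
    · subst h; simpa using ii_nat 1
    · rw [mul_zero]; exact isIntegral_zero
  add_mem' := by
    intro φ ψ hφ hψ n
    rw [map_add, mul_add]
    exact (hφ n).add (hψ n)
  zero_mem' := by
    intro n
    rw [map_zero, mul_zero]; exact isIntegral_zero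
  neg_mem' := by
    intro φ hφ n
    rw [map_neg, mul_neg]
    exact (hφ n).neg

lemma mem_HS {B : ℕ} {φ : ℂ⟦X⟧} :
    φ ∈ HS B ↔ ∀ n, IsIntegral ℤ ((B : ℂ) ^ n * (n.factorial : ℂ) * coeff n φ) := Iff.rfl

lemma HS_mono {B : ℕ} {φ : ℂ⟦X⟧} (h : φ ∈ HS B) (k : ℕ) : φ ∈ HS (B * k) := by
  intro n
  have h1 : ((B * k : ℕ) : ℂ) ^ n * (n.factorial : ℂ) * coeff n φ =
      (k : ℂ) ^ n * ((B : ℂ) ^ n * (n.factorial : ℂ) * coeff n φ) := by
    push_cast; rw [mul_pow]; ring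
  rw [h1]
  exact ((ii_nat k).pow _).mul (h n)

lemma C_mem_HS {B : ℕ} {x : ℂ} (hx : IsIntegral ℤ x) : PowerSeries.C x ∈ HS B := by
  intro n
  rw [PowerSeries.coeff_C]
  split_ifs with h
  · subst h; simpa using hx
  · rw [mul_zero]; exact isIntegral_zero

lemma X_mem_HS {B : ℕ} : PowerSeries.X ∈ HS B := by
  intro n
  rw [PowerSeries.coeff_X]
  split_ifs with h
  · rw [mul_one]; exact ((ii_nat B).pow _).mul (ii_nat _)
  · rw [mul_zero]; exact isIntegral_zero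

/-- divided powers -/
lemma HS_dpow {B : ℕ} {Z : ℂ⟦X⟧} (hZ : Z ∈ HS B) (h0 : constantCoeff Z = 0) (m : ℕ) :
    PowerSeries.C ((m.factorial : ℂ)⁻¹) * Z ^ m ∈ HS B := by
  induction m with
  | zero => simp [(HS B).one_mem]
  | succ m ih =>
    have hZ' : PowerSeries.C (B : ℂ) * d⁄dX ℂ Z ∈ HS B := by
      intro n
      rw [PowerSeries.coeff_C_mul, PowerSeries.coeff_derivative]
      have h1 := hZ (n + 1)
      have h2 : (B : ℂ) ^ n * (n.factorial : ℂ) * ((B : ℂ) * (coeff (n + 1) Z * ((n : ℂ) + 1))) =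
          (B : ℂ) ^ (n + 1) * ((n + 1).factorial : ℂ) * coeff (n + 1) Z := by
        rw [Nat.factorial_succ]; push_cast; ring
      rw [h2]; exact h1
    have hprod := (HS B).mul_mem hZ' ih
    intro n
    rcases n with _ | n
    · have h1 : coeff 0 (PowerSeries.C (((m + 1).factorial : ℂ)⁻¹) * Z ^ (m + 1)) = 0 := by
        rw [coeff_zero_eq_constantCoeff_apply, map_mul, map_pow, h0, zero_pow (by omega), mul_zero]
      rw [h1, mul_zero]; exact isIntegral_zero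
    · have h1 := hprod n
      have hd : d⁄dX ℂ (PowerSeries.C (((m + 1).factorial : ℂ)⁻¹) * Z ^ (m + 1)) =
          d⁄dX ℂ Z * (PowerSeries.C ((m.factorial : ℂ)⁻¹) * Z ^ m) := by
        rw [Derivation.leibniz, derivative_C, smul_zero, add_zero, smul_eq_mul,
          PowerSeries.derivative_pow]
        have h5 : ((m + 1 : ℕ) : ℂ⟦X⟧) = PowerSeries.C ((m + 1 : ℕ) : ℂ) := by simp
        rw [h5, Nat.add_sub_cancel]
        have h6 : PowerSeries.C (((m + 1).factorial : ℂ)⁻¹) * PowerSeries.C ((m + 1 : ℕ) : ℂ) =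
            PowerSeries.C ((m.factorial : ℂ)⁻¹) := by
          rw [← map_mul]
          congr 1
          rw [Nat.factorial_succ]
          have := fac_ne m
          have h7 : ((m : ℂ) + 1) ≠ 0 := by exact_mod_cast Nat.succ_ne_zero m
          push_cast
          field_simp
        calc PowerSeries.C (((m + 1).factorial : ℂ)⁻¹) *
              (PowerSeries.C ((m + 1 : ℕ) : ℂ) * Z ^ m * d⁄dX ℂ Z)
            = (PowerSeries.C (((m + 1).factorial : ℂ)⁻¹) * PowerSeries.C ((m + 1 : ℕ) : ℂ)) *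
              Z ^ m * d⁄dX ℂ Z := by ring
          _ = _ := by rw [h6]; ring
      have h2 : coeff n (d⁄dX ℂ Z * (PowerSeries.C ((m.factorial : ℂ)⁻¹) * Z ^ m)) =
          coeff (n + 1) (PowerSeries.C (((m + 1).factorial : ℂ)⁻¹) * Z ^ (m + 1)) *
            ((n : ℂ) + 1) := by
        rw [← hd, PowerSeries.coeff_derivative]
      rw [mul_assoc (PowerSeries.C (B : ℂ)), PowerSeries.coeff_C_mul, h2] at h1
      have h3 : (B : ℂ) ^ (n + 1) * ((n + 1).factorial : ℂ) *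
          coeff (n + 1) (PowerSeries.C (((m + 1).factorial : ℂ)⁻¹) * Z ^ (m + 1)) =
          (B : ℂ) ^ n * (n.factorial : ℂ) * ((B : ℂ) *
          (coeff (n + 1) (PowerSeries.C (((m + 1).factorial : ℂ)⁻¹) * Z ^ (m + 1)) *
            ((n : ℂ) + 1))) := by
        rw [Nat.factorial_succ n]; push_cast; ring
      rw [h3]; exact h1

/-- the composite series -/
def PhiS (a b Z : ℂ⟦X⟧) : ℂ⟦X⟧ :=
  PowerSeries.mk fun m => ∑ n ∈ range (m + 1), (n.factorial : ℂ)⁻¹ * coeff m (hc a b n * Z ^ n)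

lemma PhiS_HS_aux {B : ℕ} {a b Z : ℂ⟦X⟧} (ha : a ∈ HS B) (hb : b ∈ HS B) (hZ : Z ∈ HS B)
    (h0 : constantCoeff Z = 0) : PhiS a b Z ∈ HS B := by
  intro m
  rw [PhiS, coeff_mk, Finset.mul_sum]
  refine ii_sum _ fun n _ => ?_
  have h1 := (HS B).mul_mem (hc_mem (HS B) ha hb n) (HS_dpow hZ h0 n) m
  have h2 : coeff m (hc a b n * (PowerSeries.C ((n.factorial : ℂ)⁻¹) * Z ^ n)) =
      (n.factorial : ℂ)⁻¹ * coeff m (hc a b n * Z ^ n) := by
    rw [← PowerSeries.coeff_C_mul]; congr 1; ring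
  rw [← h2]
  exact h1

lemma PhiS_scale (l : ℂ) (hl : l ≠ 0) (a b Z : ℂ⟦X⟧) :
    PhiS a b Z = PowerSeries.C (l ^ 2) *
      PhiS (PowerSeries.C (l ^ 4) * a) (PowerSeries.C (l ^ 6) * b) (PowerSeries.C l⁻¹ * Z) := by
  ext m
  rw [PowerSeries.coeff_C_mul, PhiS, PhiS, coeff_mk, coeff_mk, Finset.mul_sum]
  refine Finset.sum_congr rfl fun n _ => ?_
  have h1 := hc_scale (PowerSeries.C l) a b n
  have h2 : hc a b n * Z ^ n = PowerSeries.C (l ^ 2) *
      (hc (PowerSeries.C (l ^ 4) * a) (PowerSeries.C (l ^ 6) * b) n *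
        (PowerSeries.C l⁻¹ * Z) ^ n) := by
    rw [mul_pow, ← map_pow, map_pow (PowerSeries.C) l 4, map_pow (PowerSeries.C) l 6,
      map_pow (PowerSeries.C) l 2]
    have h3 : PowerSeries.C l ^ n * PowerSeries.C (l⁻¹ ^ n) = (1 : ℂ⟦X⟧) := by
      rw [← map_pow, ← map_mul, ← mul_pow, mul_inv_cancel₀ hl, one_pow, map_one]
    calc hc a b n * Z ^ n = (PowerSeries.C l ^ n * PowerSeries.C (l⁻¹ ^ n)) *
          (hc a b n * Z ^ n) := by rw [h3, one_mul]
      _ = (PowerSeries.C l ^ n * hc a b n) * (PowerSeries.C (l⁻¹ ^ n) * Z ^ n) := by ring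
      _ = _ := by rw [← h1]; ring
  rw [h2, PowerSeries.coeff_C_mul]
  ring

lemma Geo.HS {φ : ℂ⟦X⟧} (h : Geo φ) : ∃ M : ℕ, 0 < M ∧ PowerSeries.C (M : ℂ) * φ ∈ HS M := by
  obtain ⟨M, hM, h⟩ := h
  refine ⟨M, hM, fun n => ?_⟩
  rw [PowerSeries.coeff_C_mul]
  have : (M : ℂ) ^ n * (n.factorial : ℂ) * ((M : ℂ) * coeff n φ) =
      (n.factorial : ℂ) * ((M : ℂ) ^ (n + 1) * coeff n φ) := by ring
  rw [this]
  exact (ii_nat _).mul (h n)

/-- integrality of the composite series -/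
lemma PhiS_HS {a b Z : ℂ⟦X⟧} (ha : Geo a) (hb : Geo b) (hZ : ∃ B : ℕ, 0 < B ∧ Z ∈ HS B)
    (h0 : constantCoeff Z = 0) : ∃ B : ℕ, 0 < B ∧ PhiS a b Z ∈ HS B := by
  obtain ⟨M₁, hM₁, h₁⟩ := ha.HS
  obtain ⟨M₂, hM₂, h₂⟩ := hb.HS
  obtain ⟨B, hB, hZ⟩ := hZ
  set M := M₁ * M₂ with hM
  have hM0 : 0 < M := Nat.mul_pos hM₁ hM₂
  have hMc : (M : ℂ) ≠ 0 := by exact_mod_cast hM0.ne'
  refine ⟨B * M, Nat.mul_pos hB hM0, ?_⟩
  rw [PhiS_scale (M : ℂ) hMc]
  have hnat : ∀ (k : ℕ) (C' : ℕ), PowerSeries.C (k : ℂ) ∈ HS C' := fun k C' => C_mem_HS (ii_nat k)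
  have ha' : PowerSeries.C ((M : ℂ) ^ 4) * a ∈ HS (B * M) := by
    have e : PowerSeries.C ((M : ℂ) ^ 4) * a =
        PowerSeries.C ((M₂ * M ^ 3 : ℕ) : ℂ) * (PowerSeries.C (M₁ : ℂ) * a) := by
      rw [← mul_assoc, ← map_mul]
      congr 2
      rw [hM]; push_cast; ring
    rw [e]
    refine (HS _).mul_mem (hnat _ _) ?_
    have e2 : B * M = M₁ * (M₂ * B) := by rw [hM]; ring
    rw [e2]
    exact HS_mono h₁ _
  have hb' : PowerSeries.C ((M : ℂ) ^ 6) * b ∈ HS (B * M) := by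
    have e : PowerSeries.C ((M : ℂ) ^ 6) * b =
        PowerSeries.C ((M₁ * M ^ 5 : ℕ) : ℂ) * (PowerSeries.C (M₂ : ℂ) * b) := by
      rw [← mul_assoc, ← map_mul]
      congr 2
      rw [hM]; push_cast; ring
    rw [e]
    refine (HS _).mul_mem (hnat _ _) ?_
    have e2 : B * M = M₂ * (M₁ * B) := by rw [hM]; ring
    rw [e2]
    exact HS_mono h₂ _
  have hZ' : PowerSeries.C ((M : ℂ)⁻¹) * Z ∈ HS (B * M) := by
    intro n
    rw [PowerSeries.coeff_C_mul]
    rcases n with _ | n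
    · rw [coeff_zero_eq_constantCoeff_apply, h0, mul_zero, mul_zero]; exact isIntegral_zero
    · have e : ((B * M : ℕ) : ℂ) ^ (n + 1) * ((n + 1).factorial : ℂ) *
          ((M : ℂ)⁻¹ * coeff (n + 1) Z) =
          (M : ℂ) ^ n * ((B : ℂ) ^ (n + 1) * ((n + 1).factorial : ℂ) * coeff (n + 1) Z) := by
        push_cast
        rw [mul_pow, pow_succ (M : ℂ)]
        field_simp
      rw [e]
      exact ((ii_nat M).pow _).mul (hZ (n + 1))
  have hfin := PhiS_HS_aux ha' hb' hZ' (by rw [map_mul, h0, mul_zero])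
  have hM2 : PowerSeries.C ((M : ℂ) ^ 2) ∈ HS (B * M) := by
    have := hnat (M ^ 2) (B * M)
    push_cast at this
    exact this
  exact (HS _).mul_mem hM2 hfin

/-- equivariance -/
lemma PhiS_map (τ : ℂ →+* ℂ) (a b Z : ℂ⟦X⟧) :
    PowerSeries.map τ (PhiS a b Z) =
      PhiS (PowerSeries.map τ a) (PowerSeries.map τ b) (PowerSeries.map τ Z) := by
  ext m
  rw [PowerSeries.coeff_map, PhiS, PhiS, coeff_mk, coeff_mk, map_sum]
  refine Finset.sum_congr rfl fun n _ => ?_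
  rw [map_mul, map_inv₀, map_natCast, ← PowerSeries.coeff_map, map_mul, map_pow,
    hc_map (PowerSeries.map τ)]

end

end Pool.Agent.Helper433.ES
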