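import Pool.Agent.Helper433_ES.SL1

/-! Division by zeros, maximum principle. -/

namespace Pool.Agent.Helper433.ES

open PowerSeries Filter Topology Finset

noncomputable section

lemma div1 {O : Set ℂ} (hO : IsOpen O) (n : ℕ) : ∀ {G : ℂ → ℂ}, DifferentiableOn ℂ G O →
    ∀ {p : ℂ}, p ∈ O → X ^ n ∣ Tay G p →
    ∃ H : ℂ → ℂ, DifferentiableOn ℂ H O ∧ ∀ s, G s = (s - p) ^ n * H s := by
  induction n with
  | zero => intro G hG p _ _; exact ⟨G, hG, fun s => by simp⟩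
  | succ n ih =>
    intro G hG p hp hd
    have hGp : G p = 0 := by
      rw [← constantCoeff_Tay G p]
      rw [PowerSeries.X_pow_dvd_iff] at hd
      rw [← coeff_zero_eq_constantCoeff_apply]
      exact hd 0 (Nat.succ_pos n)
    have hG1 : DifferentiableOn ℂ (dslope G p) O :=
      (Complex.differentiableOn_dslope (hO.mem_nhds hp)).2 hG
    have hrel : ∀ s, G s = (s - p) * dslope G p s := by
      intro s
      have := sub_smul_dslope G p s
      rw [smul_eq_mul, hGp, sub_zero] at this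
      exact this.symm
    have hT : Tay G p = X * Tay (dslope G p) p := by
      have h1 : G = fun s => (s - p) * dslope G p s := funext hrel
      have h2 : AnalyticAt ℂ (fun s : ℂ => s - p) p := by fun_prop
      have h3 : AnalyticAt ℂ (dslope G p) p := hG1.analyticAt (hO.mem_nhds hp)
      conv_lhs => rw [h1]
      rw [Tay_mul h2 h3]
      congr 1
      have h4 : AnalyticAt ℂ (fun s : ℂ => s) p := by fun_prop
      rw [Tay_sub (f := fun s => s) (g := fun _ => p) h4 analyticAt_const, Tay_id, Tay_const]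
      simp
    have hd1 : X ^ n ∣ Tay (dslope G p) p := by
      rw [hT, pow_succ'] at hd
      exact (mul_dvd_mul_iff_left X_ne_zero).1 hd
    obtain ⟨H, hH, hH'⟩ := ih hG1 hp hd1
    refine ⟨H, hH, fun s => ?_⟩
    rw [hrel s, hH' s]; ring

lemma Tay_lin (p q : ℂ) : Tay (fun s => s - q) p = C (p - q) + X := by
  have h4 : AnalyticAt ℂ (fun s : ℂ => s) p := by fun_prop
  rw [Tay_sub (f := fun s => s) (g := fun _ => q) h4 analyticAt_const, Tay_id, Tay_const, map_sub]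
  ring

lemma dvd_other {G H : ℂ → ℂ} {p q : ℂ} {n m : ℕ} (hpq : p ≠ q) (hH : AnalyticAt ℂ H p)
    (h : ∀ s, G s = (s - q) ^ n * H s) (hd : X ^ m ∣ Tay G p) : X ^ m ∣ Tay H p := by
  have h1 : G = fun s => (s - q) ^ n * H s := funext h
  have h2 : AnalyticAt ℂ (fun s : ℂ => s - q) p := by fun_prop
  have h3 : Tay G p = (C (p - q) + X) ^ n * Tay H p := by
    rw [h1, Tay_mul (f := fun s => (s - q) ^ n) (h2.pow n) hH, Tay_pow h2, Tay_lin]
  rw [h3] at hd
  have hu : IsUnit ((C (p - q) + X : ℂ⟦X⟧) ^ n) := by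
    refine IsUnit.pow n ?_
    rw [PowerSeries.isUnit_iff_constantCoeff]
    simp [sub_ne_zero.2 hpq]
  exact (hu.dvd_mul_left).1 hd

lemma divide {O : Set ℂ} (hO : IsOpen O) (I : Finset ℂ) : ∀ {G : ℂ → ℂ},
    DifferentiableOn ℂ G O → (∀ p ∈ I, p ∈ O) → ∀ n : ℂ → ℕ, (∀ p ∈ I, X ^ (n p) ∣ Tay G p) →
    ∃ H : ℂ → ℂ, DifferentiableOn ℂ H O ∧ ∀ s, G s = H s * ∏ p ∈ I, (s - p) ^ (n p) := by
  classical
  induction I using Finset.induction_on with
  | empty => intro G hG _ n _; exact ⟨G, hG, fun s => by simp⟩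
  | insert q I hq ih =>
    intro G hG hI n hn
    obtain ⟨H1, hH1, hH1'⟩ := div1 hO (n q) hG (hI q (Finset.mem_insert_self q I))
      (hn q (Finset.mem_insert_self q I))
    obtain ⟨H, hH, hH'⟩ := ih hH1 (fun p hp => hI p (Finset.mem_insert_of_mem hp)) n
      (fun p hp => dvd_other (by rintro rfl; exact hq hp)
        (hH1.analyticAt (hO.mem_nhds (hI p (Finset.mem_insert_of_mem hp)))) hH1'
        (hn p (Finset.mem_insert_of_mem hp)))
    refine ⟨H, hH, fun s => ?_⟩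
    rw [hH1' s, hH' s, Finset.prod_insert hq]; ring

/-- the leading coefficient -/
lemma lead_coeff {O : Set ℂ} (hO : IsOpen O) {I : Finset ℂ} {G H : ℂ → ℂ} {n : ℂ → ℕ} {p : ℂ}
    (hp : p ∈ I) (hpO : p ∈ O) (hH : DifferentiableOn ℂ H O)
    (h : ∀ s, G s = H s * ∏ p ∈ I, (s - p) ^ (n p)) :
    coeff (n p) (Tay G p) = H p * ∏ q ∈ I.erase p, (p - q) ^ (n q) := by
  classical
  set K : ℂ → ℂ := fun s => H s * ∏ q ∈ I.erase p, (s - q) ^ (n q) with hK
  have h1 : G = fun s => (s - p) ^ (n p) * K s := by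
    ext s
    rw [h s, hK, ← Finset.mul_prod_erase I _ hp]; ring
  have h2 : AnalyticAt ℂ (fun s : ℂ => s - p) p := by fun_prop
  have h3 : AnalyticAt ℂ K p := by
    refine (hH.analyticAt (hO.mem_nhds hpO)).mul ?_
    refine Finset.analyticAt_fun_prod _ fun q _ => ?_
    fun_prop
  have h4 : Tay G p = X ^ (n p) * Tay K p := by
    rw [h1, Tay_mul (f := fun s => (s - p) ^ (n p)) (h2.pow _) h3, Tay_pow h2, Tay_lin]
    simp
  rw [h4]
  have := PowerSeries.coeff_X_pow_mul (Tay K p) (n p) 0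
  rw [zero_add] at this
  rw [this, coeff_zero_eq_constantCoeff_apply, constantCoeff_Tay]

/-- maximum principle on a disc minus discs -/
lemma max_principle {D : Finset ℂ} {r : ℂ → ℝ} {R : ℝ} (hr : ∀ q ∈ D, 0 < r q)
    {Φ : ℂ → ℂ} (hΦ : DifferentiableOn ℂ Φ ((D : Set ℂ)ᶜ)) {M : ℝ}
    (hM : ∀ s : ℂ, ‖s‖ ≤ R → (∀ q ∈ D, r q ≤ ‖s - q‖) →
      (‖s‖ = R ∨ ∃ q ∈ D, ‖s - q‖ = r q) → ‖Φ s‖ ≤ M)
    {s : ℂ} (hs : ‖s‖ < R) (hs' : ∀ q ∈ D, r q < ‖s - q‖) : ‖Φ s‖ ≤ M := by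
  set Ω : Set ℂ := {s | ‖s‖ < R ∧ ∀ q ∈ D, r q < ‖s - q‖} with hΩ
  set Ω' : Set ℂ := {s | ‖s‖ ≤ R ∧ ∀ q ∈ D, r q ≤ ‖s - q‖} with hΩ'
  have hopen : IsOpen Ω := by
    have h1 : Ω = {s | ‖s‖ < R} ∩ ⋂ q ∈ D, {s | r q < ‖s - q‖} := by
      ext s; simp [hΩ]
    rw [h1]
    refine (isOpen_lt continuous_norm continuous_const).inter ?_
    exact isOpen_biInter_finset fun q _ =>
      isOpen_lt continuous_const (by fun_prop)
  have hclosed : IsClosed Ω' := by
    have h1 : Ω' = {s | ‖s‖ ≤ R} ∩ ⋂ q ∈ D, {s | r q ≤ ‖s - q‖} := by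
      ext s; simp [hΩ']
    rw [h1]
    refine (isClosed_le continuous_norm continuous_const).inter ?_
    exact isClosed_biInter fun q _ => isClosed_le continuous_const (by fun_prop)
  have hcl : closure Ω ⊆ Ω' := hclosed.closure_subset_iff.2 fun s hs =>
    ⟨hs.1.le, fun q hq => (hs.2 q hq).le⟩
  have hsub : Ω' ⊆ (D : Set ℂ)ᶜ := by
    intro s hs hsD
    have := hs.2 s hsD
    rw [sub_self, norm_zero] at this
    exact absurd (hr s hsD) (not_lt.2 this)
  have hbdd : Bornology.IsBounded Ω := by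
    refine (Metric.isBounded_ball (x := (0 : ℂ)) (r := R)).subset fun s hs => ?_
    rw [mem_ball_zero_iff]; exact hs.1
  have hd : DiffContOnCl ℂ Φ Ω := (hΦ.mono (hcl.trans hsub)).diffContOnCl
  refine Complex.norm_le_of_forall_mem_frontier_norm_le hbdd hd ?_ (subset_closure ⟨hs, hs'⟩)
  intro w hw
  rw [hopen.frontier_eq] at hw
  have hw1 := hcl hw.1
  refine hM w hw1.1 hw1.2 ?_
  by_contra hcon
  push Not at hcon
  apply hw.2
  exact ⟨lt_of_le_of_ne hw1.1 hcon.1, fun q hq =>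
    lt_of_le_of_ne (hw1.2 q hq) (hcon.2 q hq).symm⟩

end

end Pool.Agent.Helper433.ES
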