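import Pool.Agent.Helper433_ES.Def
import Pool.Agent.Helper433_ES.Hat
import Pool.Agent.Helper433_ES.Comp
import Pool.Agent.Helper433_ES.SL2

/-! From germs to formal series at a point. -/

namespace Pool.Agent.Helper433.ES

open Filter Topology Finset

noncomputable section

lemma Tay_eq_of_punctured {f g : ℂ → ℂ} {p : ℂ} (hf : AnalyticAt ℂ f p) (hg : AnalyticAt ℂ g p)
    (h : ∀ᶠ s in 𝓝[≠] p, f s = g s) : Tay f p = Tay g p := by
  have h0 : f p = g p := by
    have t1 : Tendsto f (𝓝[≠] p) (𝓝 (f p)) := hf.continuousAt.tendsto.mono_left nhdsWithin_le_nhds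
    have t2 : Tendsto g (𝓝[≠] p) (𝓝 (g p)) := hg.continuousAt.tendsto.mono_left nhdsWithin_le_nhds
    exact tendsto_nhds_unique (t1.congr' h) t2
  refine Tay_congr ?_
  rw [eventually_nhdsWithin_iff] at h
  filter_upwards [h] with s hs
  by_cases hsp : s = p
  · rw [hsp]; exact h0
  · exact hs hsp

section

variable {K : Type*} [Field K] [Algebra K ℂ]

lemma hat_disc (a b : Polynomial K) (p : ℂ) : hat p (disc a b) = Dl (hat p a) (hat p b) := by
  unfold disc Dl
  rw [map_add, map_mul, map_mul, map_pow, map_pow, map_ofNat, map_ofNat]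

lemma hat_wrn (a b : Polynomial K) (p : ℂ) : hat p (wrn a b) = Wl (hat p a) (hat p b) := by
  unfold wrn Wl
  rw [map_sub, map_mul, map_mul, map_mul, map_mul, map_ofNat, map_ofNat, hat_deriv, hat_deriv]

/-- a local solution of the inhomogeneous Gauss-Manin system -/
structure LocSol (a b Q P1 P2 : Polynomial K) (p : ℂ) (z w : ℂ → ℂ) : Prop where
  hz : AnalyticAt ℂ z p
  hw : MeromorphicAt w p
  g1 : ∀ᶠ s in 𝓝[≠] p, Polynomial.aeval s Q * (12 * Polynomial.aeval s (disc a b) * deriv z s +
    Polynomial.aeval s (Polynomial.derivative (disc a b)) * z s +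
    18 * Polynomial.aeval s (wrn a b) * w s) = Polynomial.aeval s P1
  g2 : ∀ᶠ s in 𝓝[≠] p, Polynomial.aeval s Q * (12 * Polynomial.aeval s (disc a b) * deriv w s +
    6 * Polynomial.aeval s a * Polynomial.aeval s (wrn a b) * z s -
    Polynomial.aeval s (Polynomial.derivative (disc a b)) * w s) = Polynomial.aeval s P2

variable {a b Q P1 P2 : Polynomial K} {p : ℂ} {z w : ℂ → ℂ}

lemma LocSol.formal (h : LocSol a b Q P1 P2 p z w) : ∃ m₀ : ℕ, ∀ m, m₀ ≤ m → ∃ W : PowerSeries ℂ,
    hat p Q * L1 (hat p a) (hat p b) m (Tay z p) W = PowerSeries.X ^ m * hat p P1 ∧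
    hat p Q * L2 (hat p a) (hat p b) m (Tay z p) W = PowerSeries.X ^ (m + 1) * hat p P2 := by
  obtain ⟨m₀, hm₀⟩ := h.hw
  refine ⟨m₀, fun m hm => ?_⟩
  set W : ℂ → ℂ := fun s => (s - p) ^ m * w s with hWdef
  have hx : AnalyticAt ℂ (fun s : ℂ => s - p) p := by fun_prop
  have hW : AnalyticAt ℂ W p := by
    have : W = fun s => (s - p) ^ (m - m₀) * ((s - p) ^ m₀ • w s) := by
      ext s
      show (s - p) ^ m * w s = (s - p) ^ (m - m₀) * ((s - p) ^ m₀ • w s)
      rw [smul_eq_mul, ← mul_assoc, ← pow_add, Nat.sub_add_cancel hm]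
    rw [this]
    exact (hx.pow _).mul hm₀
  -- elements
  let cst : ℂ → AnR p := fun c => ⟨fun _ => c, analyticAt_const⟩
  let pol : Polynomial K → AnR p := fun f => ⟨fun s => Polynomial.aeval s f, (Tay_aeval f p).1⟩
  let x : AnR p := ⟨fun s => s - p, hx⟩
  let zz : AnR p := ⟨z, h.hz⟩
  let zz' : AnR p := ⟨deriv z, h.hz.deriv⟩
  let WW : AnR p := ⟨W, hW⟩
  let WW' : AnR p := ⟨deriv W, hW.deriv⟩
  have hcst : ∀ c, TayH p (cst c) = PowerSeries.C c := fun c => Tay_const c p
  have hpol : ∀ f, TayH p (pol f) = hat p f := fun f => (Tay_aeval f p).2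
  have hxT : TayH p x = PowerSeries.X := by
    have := Tay_lin p p
    rw [sub_self, map_zero, zero_add] at this
    exact this
  have hzT : TayH p zz = Tay z p := rfl
  have hzT' : TayH p zz' = PowerSeries.derivative ℂ (Tay z p) := Tay_deriv z p
  have hWT : TayH p WW = Tay W p := rfl
  have hWT' : TayH p WW' = PowerSeries.derivative ℂ (Tay W p) := Tay_deriv W p
  have hev : ∀ f g : AnR p, (∀ᶠ s in 𝓝[≠] p, f.1 s = g.1 s) → TayH p f = TayH p g :=
    fun f g hfg => Tay_eq_of_punctured f.2 g.2 hfg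
  have hnat : ∀ n : ℕ, PowerSeries.C (n : ℂ) = (n : PowerSeries ℂ) := fun n => map_natCast _ n
  refine ⟨Tay W p, ?_, ?_⟩
  · have key := hev (pol Q * (cst 12 * pol (disc a b) * x ^ m * zz' +
        pol (Polynomial.derivative (disc a b)) * x ^ m * zz + cst 18 * pol (wrn a b) * WW))
        (x ^ m * pol P1) (by
      filter_upwards [h.g1] with s hs
      show Polynomial.aeval s Q * (12 * Polynomial.aeval s (disc a b) * (s - p) ^ m * deriv z s +
        Polynomial.aeval s (Polynomial.derivative (disc a b)) * (s - p) ^ m * z s +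
        18 * Polynomial.aeval s (wrn a b) * ((s - p) ^ m * w s)) =
        (s - p) ^ m * Polynomial.aeval s P1
      rw [← hs]; ring)
    simp only [map_mul, map_add, map_pow] at key
    rw [hcst, hcst, hpol, hpol, hpol, hpol, hpol, hxT, hzT, hzT', hWT] at key
    unfold L1
    rw [← hat_disc, ← hat_wrn, hat_deriv]
    rw [← key]
    have e12 : PowerSeries.C (12 : ℂ) = 12 := map_ofNat _ 12
    have e18 : PowerSeries.C (18 : ℂ) = 18 := map_ofNat _ 18
    rw [e12, e18]
  · have hWd : ∀ᶠ s in 𝓝[≠] p, deriv W s * (s - p) = m * W s + (s - p) ^ (m + 1) * deriv w s := by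
      filter_upwards [h.hw.eventually_analyticAt, self_mem_nhdsWithin] with s hs hsp
      have hsp' : s - p ≠ 0 := sub_ne_zero.2 hsp
      have h1 : HasDerivAt (fun s => (s - p) ^ m) (m * (s - p) ^ (m - 1) * 1) s :=
        ((hasDerivAt_id s).sub_const p).pow m
      have h2 : HasDerivAt W (m * (s - p) ^ (m - 1) * 1 * w s + (s - p) ^ m * deriv w s) s :=
        h1.mul hs.differentiableAt.hasDerivAt
      rw [h2.deriv]
      rcases m with _ | m
      · simp [hWdef]; ring
      · simp only [hWdef, Nat.add_sub_cancel]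
        ring
    have key := hev (pol Q * (cst 12 * pol (disc a b) * (x * WW' - cst m * WW) +
        cst 6 * pol a * pol (wrn a b) * x ^ (m + 1) * zz -
        pol (Polynomial.derivative (disc a b)) * x * WW))
        (x ^ (m + 1) * pol P2) (by
      filter_upwards [h.g2, hWd] with s hs hs2
      show Polynomial.aeval s Q * (12 * Polynomial.aeval s (disc a b) *
        ((s - p) * deriv W s - m * W s) +
        6 * Polynomial.aeval s a * Polynomial.aeval s (wrn a b) * (s - p) ^ (m + 1) * z s -
        Polynomial.aeval s (Polynomial.derivative (disc a b)) * (s - p) * W s) =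
        (s - p) ^ (m + 1) * Polynomial.aeval s P2
      have e1 : (s - p) * deriv W s - m * W s = (s - p) ^ (m + 1) * deriv w s := by
        linear_combination hs2
      rw [e1, ← hs]
      simp only [hWdef]
      ring)
    simp only [map_mul, map_add, map_sub, map_pow] at key
    rw [hcst, hcst, hcst, hpol, hpol, hpol, hpol, hpol, hpol, hxT, hzT, hWT, hWT'] at key
    unfold L2
    rw [← hat_disc, ← hat_wrn, hat_deriv]
    rw [← key]
    have e12 : PowerSeries.C (12 : ℂ) = 12 := map_ofNat _ 12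
    have e6 : PowerSeries.C (6 : ℂ) = 6 := map_ofNat _ 6
    rw [e12, e6, hnat]

end

end

end Pool.Agent.Helper433.ES
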