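import Pool.Agent.Helper433_ES.Nor1
import Pool.Agent.Helper433_ES.Fib
import Pool.Agent.Helper433_ES.Def2

/-! Meromorphic local solutions: equivariance of polar parts. -/

namespace Pool.Agent.Helper433.ES

open Filter Topology Finset

noncomputable section

section

variable {K : Type*} [Field K] [Algebra K ℂ]

/-- a meromorphic local solution of the inhomogeneous Gauss-Manin system -/
structure MerSol (a b Q P1 P2 : Polynomial K) (p : ℂ) (z w : ℂ → ℂ) : Prop where
  hz : MeromorphicAt z p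
  hw : MeromorphicAt w p
  g : ∀ᶠ s in 𝓝[≠] p, GM a b Q P1 P2 z w s

/-- `z` cleared of its pole -/
def clr (m : ℕ) (z : ℂ → ℂ) (p : ℂ) (s : ℂ) : ℂ := (s - p) ^ m * z s

lemma clr_mono {m₀ m : ℕ} {z : ℂ → ℂ} {p : ℂ} (h : AnalyticAt ℂ (clr m₀ z p) p) (hm : m₀ ≤ m) :
    AnalyticAt ℂ (clr m z p) p := by
  have hx : AnalyticAt ℂ (fun s : ℂ => s - p) p := by fun_prop
  have : clr m z p = fun s => (s - p) ^ (m - m₀) * clr m₀ z p s := by
    ext s
    simp only [clr]
    rw [← mul_assoc, ← pow_add, Nat.sub_add_cancel hm]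
  rw [this]
  exact (hx.pow _).mul h

lemma exists_clr {z : ℂ → ℂ} {p : ℂ} (h : MeromorphicAt z p) :
    ∃ m₀, ∀ m, m₀ ≤ m → AnalyticAt ℂ (clr m z p) p := by
  obtain ⟨m₀, hm₀⟩ := h
  refine ⟨m₀, fun m hm => clr_mono (m₀ := m₀) ?_ hm⟩
  exact hm₀

lemma clr_deriv {z : ℂ → ℂ} {p : ℂ} (hz : MeromorphicAt z p) (m : ℕ) :
    ∀ᶠ s in 𝓝[≠] p, (s - p) * deriv (clr m z p) s - m * clr m z p s =
      (s - p) ^ (m + 1) * deriv z s := by
  filter_upwards [hz.eventually_analyticAt, self_mem_nhdsWithin] with s hs hsp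
  have hsp' : s - p ≠ 0 := sub_ne_zero.2 hsp
  have h1 : HasDerivAt (fun s => (s - p) ^ m) (m * (s - p) ^ (m - 1) * 1) s :=
    ((hasDerivAt_id s).sub_const p).pow m
  have h2 : HasDerivAt (clr m z p) (m * (s - p) ^ (m - 1) * 1 * z s + (s - p) ^ m * deriv z s) s :=
    h1.mul hs.differentiableAt.hasDerivAt
  rw [h2.deriv]
  rcases m with _ | m
  · simp [clr]
  · simp only [clr, Nat.add_sub_cancel]
    ring

variable {a b Q P1 P2 : Polynomial K} {p : ℂ} {z w : ℂ → ℂ}

lemma MerSol.formal (h : MerSol a b Q P1 P2 p z w) {m : ℕ} (hzm : AnalyticAt ℂ (clr m z p) p)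
    (hwm : AnalyticAt ℂ (clr m w p) p) :
    hat p Q * E1 (hat p a) (hat p b) m (Tay (clr m z p) p) (Tay (clr m w p) p) =
      PowerSeries.X ^ (m + 1) * hat p P1 ∧
    hat p Q * E2 (hat p a) (hat p b) m (Tay (clr m z p) p) (Tay (clr m w p) p) =
      PowerSeries.X ^ (m + 1) * hat p P2 := by
  have hx : AnalyticAt ℂ (fun s : ℂ => s - p) p := by fun_prop
  let cst : ℂ → AnR p := fun c => ⟨fun _ => c, analyticAt_const⟩
  let pol : Polynomial K → AnR p := fun f => ⟨fun s => Polynomial.aeval s f, (Tay_aeval f p).1⟩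
  let x : AnR p := ⟨fun s => s - p, hx⟩
  let ZZ : AnR p := ⟨clr m z p, hzm⟩
  let ZZ' : AnR p := ⟨deriv (clr m z p), hzm.deriv⟩
  let WW : AnR p := ⟨clr m w p, hwm⟩
  let WW' : AnR p := ⟨deriv (clr m w p), hwm.deriv⟩
  have hcst : ∀ c, TayH p (cst c) = PowerSeries.C c := fun c => Tay_const c p
  have hpol : ∀ f, TayH p (pol f) = hat p f := fun f => (Tay_aeval f p).2
  have hxT : TayH p x = PowerSeries.X := by
    have := Tay_lin p p
    rw [sub_self, map_zero, zero_add] at this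
    exact this
  have hZT : TayH p ZZ = Tay (clr m z p) p := rfl
  have hZT' : TayH p ZZ' = PowerSeries.derivative ℂ (Tay (clr m z p) p) := Tay_deriv _ p
  have hWT : TayH p WW = Tay (clr m w p) p := rfl
  have hWT' : TayH p WW' = PowerSeries.derivative ℂ (Tay (clr m w p) p) := Tay_deriv _ p
  have hev : ∀ f g : AnR p, (∀ᶠ s in 𝓝[≠] p, f.1 s = g.1 s) → TayH p f = TayH p g :=
    fun f g hfg => Tay_eq_of_punctured f.2 g.2 hfg
  have hnat : ∀ n : ℕ, PowerSeries.C (n : ℂ) = (n : PowerSeries ℂ) := fun n => map_natCast _ n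
  have e12 : PowerSeries.C (12 : ℂ) = 12 := map_ofNat _ 12
  have e18 : PowerSeries.C (18 : ℂ) = 18 := map_ofNat _ 18
  have e6 : PowerSeries.C (6 : ℂ) = 6 := map_ofNat _ 6
  have hZd := clr_deriv h.hz m
  have hWd := clr_deriv h.hw m
  constructor
  · have key := hev (pol Q * (cst 12 * pol (disc a b) * (x * ZZ' - cst m * ZZ) +
        x * (pol (Polynomial.derivative (disc a b)) * ZZ + cst 18 * pol (wrn a b) * WW)))
        (x ^ (m + 1) * pol P1) (by
      filter_upwards [h.g, hZd] with s hs0 hs2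
      have hs := hs0.1
      show Polynomial.aeval s Q * (12 * Polynomial.aeval s (disc a b) *
        ((s - p) * deriv (clr m z p) s - m * clr m z p s) +
        (s - p) * (Polynomial.aeval s (Polynomial.derivative (disc a b)) * clr m z p s +
        18 * Polynomial.aeval s (wrn a b) * clr m w p s)) =
        (s - p) ^ (m + 1) * Polynomial.aeval s P1
      rw [hs2, ← hs]
      simp only [clr]
      ring)
    simp only [map_mul, map_add, map_sub, map_pow] at key
    rw [hcst, hcst, hcst, hpol, hpol, hpol, hpol, hpol, hxT, hZT, hZT', hWT] at key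
    unfold E1
    rw [← hat_disc, ← hat_wrn, hat_deriv, ← key, e12, e18, hnat]
  · have key := hev (pol Q * (cst 12 * pol (disc a b) * (x * WW' - cst m * WW) +
        x * (cst 6 * pol a * pol (wrn a b) * ZZ -
          pol (Polynomial.derivative (disc a b)) * WW)))
        (x ^ (m + 1) * pol P2) (by
      filter_upwards [h.g, hWd] with s hs0 hs2
      have hs := hs0.2
      show Polynomial.aeval s Q * (12 * Polynomial.aeval s (disc a b) *
        ((s - p) * deriv (clr m w p) s - m * clr m w p s) +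
        (s - p) * (6 * Polynomial.aeval s a * Polynomial.aeval s (wrn a b) * clr m z p s -
        Polynomial.aeval s (Polynomial.derivative (disc a b)) * clr m w p s)) =
        (s - p) ^ (m + 1) * Polynomial.aeval s P2
      rw [hs2, ← hs]
      simp only [clr]
      ring)
    simp only [map_mul, map_add, map_sub, map_pow] at key
    rw [hcst, hcst, hcst, hpol, hpol, hpol, hpol, hpol, hpol, hxT, hZT, hWT, hWT'] at key
    unfold E2
    rw [← hat_disc, ← hat_wrn, hat_deriv, ← key, e12, e6, hnat]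

lemma map_E1 (τ : ℂ →+* ℂ) (A B z w : PowerSeries ℂ) (m : ℕ) :
    PowerSeries.map τ (E1 A B m z w) = E1 (PowerSeries.map τ A) (PowerSeries.map τ B) m
      (PowerSeries.map τ z) (PowerSeries.map τ w) := by
  unfold E1
  simp only [map_add, map_sub, map_mul, map_deriv, map_Dl, map_Wl, map_ofNat,
    PowerSeries.map_X, map_natCast]

lemma map_E2 (τ : ℂ →+* ℂ) (A B z w : PowerSeries ℂ) (m : ℕ) :
    PowerSeries.map τ (E2 A B m z w) = E2 (PowerSeries.map τ A) (PowerSeries.map τ B) m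
      (PowerSeries.map τ z) (PowerSeries.map τ w) := by
  unfold E2
  simp only [map_add, map_sub, map_mul, map_deriv, map_Dl, map_Wl, map_ofNat,
    PowerSeries.map_X, map_natCast]

lemma E1_sub (A B z w z' w' : PowerSeries ℂ) (m : ℕ) :
    E1 A B m (z - z') (w - w') = E1 A B m z w - E1 A B m z' w' := by
  unfold E1; rw [map_sub]; ring

lemma E2_sub (A B z w z' w' : PowerSeries ℂ) (m : ℕ) :
    E2 A B m (z - z') (w - w') = E2 A B m z w - E2 A B m z' w' := by
  unfold E2; rw [map_sub]; ring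

lemma Minl.hat (h : Minl a b p) :
    ¬ (PowerSeries.X ^ 4 ∣ hat p a ∧ PowerSeries.X ^ 6 ∣ hat p b) := by
  rintro ⟨h1, h2⟩
  apply h
  rw [hat_eq_map, X_pow_dvd_hat] at h1 h2
  exact ⟨h1, h2⟩

/-- polar parts are equivariant -/
theorem pol_equiv (τ : ℂ →+* ℂ) (hτ : ∀ x : K, τ (algebraMap K ℂ x) = algebraMap K ℂ x)
    (hD : disc a b ≠ 0) (hQ : Q ≠ 0) (hmin : Minl a b (τ p)) {z' w' : ℂ → ℂ}
    (hs : MerSol a b Q P1 P2 p z w) (hs' : MerSol a b Q P1 P2 (τ p) z' w') {m : ℕ}
    (hz : AnalyticAt ℂ (clr m z p) p) (hw : AnalyticAt ℂ (clr m w p) p)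
    (hz' : AnalyticAt ℂ (clr m z' (τ p)) (τ p)) (hw' : AnalyticAt ℂ (clr m w' (τ p)) (τ p)) :
    ∀ i < m, τ (PowerSeries.coeff i (Tay (clr m z p) p)) =
      PowerSeries.coeff i (Tay (clr m z' (τ p)) (τ p)) := by
  obtain ⟨h1, h2⟩ := hs.formal hz hw
  obtain ⟨h1', h2'⟩ := hs'.formal hz' hw'
  have e1 := congrArg (PowerSeries.map τ) h1
  have e2 := congrArg (PowerSeries.map τ) h2
  rw [map_mul, map_mul, map_pow, PowerSeries.map_X, map_E1, hat_map τ hτ, hat_map τ hτ,
    hat_map τ hτ, hat_map τ hτ, ← h1'] at e1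
  rw [map_mul, map_mul, map_pow, PowerSeries.map_X, map_E2, hat_map τ hτ, hat_map τ hτ,
    hat_map τ hτ, hat_map τ hτ, ← h2'] at e2
  have f1 := mul_left_cancel₀ (hat_ne hQ (τ p)) e1
  have f2 := mul_left_cancel₀ (hat_ne hQ (τ p)) e2
  have g1 : E1 (hat (τ p) a) (hat (τ p) b) m
      (PowerSeries.map τ (Tay (clr m z p) p) - Tay (clr m z' (τ p)) (τ p))
      (PowerSeries.map τ (Tay (clr m w p) p) - Tay (clr m w' (τ p)) (τ p)) = 0 := by
    rw [E1_sub, f1, sub_self]
  have g2 : E2 (hat (τ p) a) (hat (τ p) b) m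
      (PowerSeries.map τ (Tay (clr m z p) p) - Tay (clr m z' (τ p)) (τ p))
      (PowerSeries.map τ (Tay (clr m w p) p) - Tay (clr m w' (τ p)) (τ p)) = 0 := by
    rw [E2_sub, f2, sub_self]
  have h3 := hom_regular (by rw [← hat_disc]; exact hat_ne hD (τ p)) hmin.hat g1 g2
  intro i hi
  have h4 := (PowerSeries.X_pow_dvd_iff.1 h3) i hi
  rw [map_sub, PowerSeries.coeff_map, sub_eq_zero] at h4
  exact h4

/-- no pole at a good point -/
theorem pol_good (hs : MerSol a b Q P1 P2 p z w) (hQ : Polynomial.aeval p Q ≠ (0 : ℂ))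
    (hD : Polynomial.aeval p (disc a b) ≠ (0 : ℂ)) {m : ℕ}
    (hz : AnalyticAt ℂ (clr m z p) p) (hw : AnalyticAt ℂ (clr m w p) p) :
    ∀ i < m, PowerSeries.coeff i (Tay (clr m z p) p) = 0 := by
  obtain ⟨h1, h2⟩ := hs.formal hz hw
  have hc : ∀ f : Polynomial K, PowerSeries.constantCoeff (hat p f) = Polynomial.aeval p f := by
    intro f
    rw [← (Tay_aeval f p).2, constantCoeff_Tay]
  have hQ' : ¬ (PowerSeries.X : PowerSeries ℂ) ∣ hat p Q := by
    rw [PowerSeries.X_dvd_iff, hc]; exact hQ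
  have d1 : PowerSeries.X ^ (m + 1) ∣
      E1 (hat p a) (hat p b) m (Tay (clr m z p) p) (Tay (clr m w p) p) :=
    PowerSeries.X_prime.pow_dvd_of_dvd_mul_left _ hQ' ⟨_, h1⟩
  have d2 : PowerSeries.X ^ (m + 1) ∣
      E2 (hat p a) (hat p b) m (Tay (clr m z p) p) (Tay (clr m w p) p) :=
    PowerSeries.X_prime.pow_dvd_of_dvd_mul_left _ hQ' ⟨_, h2⟩
  have hlow := low_S (a := hat p a) (b := hat p b) (K := m) (by rw [← hat_disc, hc]; exact hD)
    (fun n hn => (PowerSeries.X_pow_dvd_iff.1 d1) n (by omega))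
    (fun n hn => (PowerSeries.X_pow_dvd_iff.1 d2) n (by omega))
  exact fun i hi => (hlow i hi).1

end

/-- splitting off the polar part -/
lemma polar {z : ℂ → ℂ} {p : ℂ} {m : ℕ} (hG : AnalyticAt ℂ (clr m z p) p) (P : Polynomial ℂ)
    (hP : ∀ i < m, PowerSeries.coeff i (hat p P) = PowerSeries.coeff i (Tay (clr m z p) p)) :
    ∃ h : ℂ → ℂ, AnalyticAt ℂ h p ∧ ∀ᶠ s in 𝓝[≠] p, z s = P.eval s / (s - p) ^ m + h s := by
  have hPan : AnalyticAt ℂ (fun s => P.eval s) p := by
    have := (Tay_aeval P p).1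
    simpa using this
  have hPT : Tay (fun s => P.eval s) p = hat p P := by
    have := (Tay_aeval P p).2
    rw [← this]
    congr 1
  have hd := hG.sub hPan
  obtain ⟨U, hU, hUo, hpU⟩ := eventually_nhds_iff.1 hd.eventually_analyticAt
  have hT : Tay (clr m z p - fun s => P.eval s) p = Tay (clr m z p) p - hat p P := by
    rw [← hPT]
    exact Tay_sub hG hPan
  obtain ⟨H, hH, hHe⟩ := div1 hUo m (G := clr m z p - fun s => P.eval s)
    (fun s hs => (hU s hs).differentiableAt.differentiableWithinAt) (p := p) hpU (by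
      rw [hT, PowerSeries.X_pow_dvd_iff]
      intro i hi
      rw [map_sub, hP i hi, sub_self])
  refine ⟨H, hH.analyticAt (hUo.mem_nhds hpU), ?_⟩
  filter_upwards [self_mem_nhdsWithin] with s hs
  have hsp : (s - p) ^ m ≠ 0 := pow_ne_zero _ (sub_ne_zero.2 hs)
  have h1 := hHe s
  simp only [Pi.sub_apply, clr] at h1
  field_simp
  linear_combination h1

end

end Pool.Agent.Helper433.ES
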