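import Pool.Agent.Helper433_ES.Aut

/-! The fixed field of the automorphisms of `ℂ` over a subfield. -/

namespace Pool.Agent.Helper433.ES

open Polynomial

noncomputable section

/-- shift of one variable -/
def shiftVar {σ : Type*} (R : Type*) [CommRing R] [DecidableEq σ] (i : σ) :
    MvPolynomial σ R ≃ₐ[R] MvPolynomial σ R :=
  AlgEquiv.ofAlgHom
    (MvPolynomial.aeval fun j => MvPolynomial.X j + MvPolynomial.C (if j = i then 1 else 0))
    (MvPolynomial.aeval fun j => MvPolynomial.X j - MvPolynomial.C (if j = i then 1 else 0))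
    (by
      ext j
      simp only [AlgHom.coe_comp, Function.comp_apply, MvPolynomial.aeval_X, map_sub,
        AlgHom.coe_id, id_eq]
      by_cases hj : j = i <;> simp [hj])
    (by
      ext j
      simp only [AlgHom.coe_comp, Function.comp_apply, MvPolynomial.aeval_X, map_add,
        AlgHom.coe_id, id_eq]
      by_cases hj : j = i <;> simp [hj])

lemma shiftVar_X {σ : Type*} (R : Type*) [CommRing R] [DecidableEq σ] (i : σ) :
    shiftVar R i (MvPolynomial.X i) = MvPolynomial.X i + 1 := by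
  show MvPolynomial.aeval _ (MvPolynomial.X i) = _
  rw [MvPolynomial.aeval_X]
  simp

lemma move_trans {K : Type*} [Field K] [Algebra K ℂ] {x : ℂ} (hx : Transcendental K x) :
    ∃ τ : ℂ →+* ℂ, (∀ y : K, τ (algebraMap K ℂ y) = algebraMap K ℂ y) ∧ τ x = x + 1 := by
  classical
  have hind : AlgebraicIndepOn K id ({x} : Set ℂ) := by
    have := (algebraicIndependent_singleton_iff (R := K) (ι := ({x} : Set ℂ))
      (x := fun i : ({x} : Set ℂ) => (i : ℂ)) ⟨x, rfl⟩).2 hx
    exact this
  obtain ⟨s, hs, hb⟩ := exists_isTranscendenceBasis_superset hind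
  have hxs : x ∈ s := hs rfl
  let i₀ : s := ⟨x, hxs⟩
  let e : Algebra.adjoin K (Set.range ((↑) : s → ℂ)) ≃+*
      Algebra.adjoin K (Set.range ((↑) : s → ℂ)) :=
    (hb.1.aevalEquiv.symm.toRingEquiv.trans (shiftVar K i₀).toRingEquiv).trans
      hb.1.aevalEquiv.toRingEquiv
  have : IsAlgClosure (Algebra.adjoin K (Set.range ((↑) : s → ℂ))) ℂ :=
    IsAlgClosed.isAlgClosure_of_transcendence_basis _ hb
  have hE : ∀ P : MvPolynomial s K, (IsAlgClosure.equivOfEquiv ℂ ℂ e)
      (algebraMap (Algebra.adjoin K (Set.range ((↑) : s → ℂ))) ℂ (hb.1.aevalEquiv P)) =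
      algebraMap (Algebra.adjoin K (Set.range ((↑) : s → ℂ))) ℂ
        (hb.1.aevalEquiv (shiftVar K i₀ P)) := by
    intro P
    rw [IsAlgClosure.equivOfEquiv_algebraMap]
    congr 1
    show hb.1.aevalEquiv (shiftVar K i₀ (hb.1.aevalEquiv.symm (hb.1.aevalEquiv P))) = _
    rw [AlgEquiv.symm_apply_apply]
  refine ⟨(IsAlgClosure.equivOfEquiv ℂ ℂ e).toRingHom, fun y => ?_, ?_⟩
  · have h1 := hE (MvPolynomial.C y)
    have h2 : algebraMap (Algebra.adjoin K (Set.range ((↑) : s → ℂ))) ℂ
        (hb.1.aevalEquiv (MvPolynomial.C y)) = algebraMap K ℂ y := by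
      have h3 : hb.1.aevalEquiv (MvPolynomial.C y) = algebraMap K _ y :=
        AlgEquiv.commutes hb.1.aevalEquiv y
      rw [h3]; rfl
    have h4 : shiftVar K i₀ (MvPolynomial.C y) = MvPolynomial.C y :=
      AlgEquiv.commutes (shiftVar K i₀) y
    rw [h4, h2] at h1
    exact h1
  · have h1 := hE (MvPolynomial.X i₀)
    have h2 : algebraMap (Algebra.adjoin K (Set.range ((↑) : s → ℂ))) ℂ
        (hb.1.aevalEquiv (MvPolynomial.X i₀)) = x := by
      rw [AlgebraicIndependent.algebraMap_aevalEquiv, MvPolynomial.aeval_X]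
    rw [shiftVar_X, map_add, map_one, map_add, map_one, h2] at h1
    exact h1

/-- **the fixed field** -/
theorem fixed_mem {K : Type*} [Field K] [CharZero K] [Algebra K ℂ] {x : ℂ}
    (h : ∀ τ : ℂ →+* ℂ, (∀ y : K, τ (algebraMap K ℂ y) = algebraMap K ℂ y) → τ x = x) :
    ∃ y : K, algebraMap K ℂ y = x := by
  by_cases hx : IsAlgebraic K x
  · by_contra hcon
    have hbot : x ∉ (⊥ : Subalgebra K ℂ) := by
      rw [Algebra.mem_bot]
      rintro ⟨y, hy⟩
      exact hcon ⟨y, hy⟩
    have hsep : IsSeparable K x := (minpoly.irreducible hx.isIntegral).separable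
    obtain ⟨y, hxy, hconj⟩ := (notMem_iff_exists_ne_and_isConjRoot hsep
      (IsAlgClosed.splits _)).1 hbot
    have hy : aeval y (minpoly K x) = 0 := by
      have h1 : minpoly K x = minpoly K y := hconj
      rw [h1]; exact minpoly.aeval K y
    obtain ⟨τ, hτ, hτx⟩ := exists_aut hx hy
    exact hxy ((h τ hτ).symm.trans hτx)
  · exfalso
    obtain ⟨τ, hτ, hτx⟩ := move_trans (K := K) hx
    have h1 := h τ hτ
    rw [hτx] at h1
    simp at h1

/-- descent of polynomials -/
theorem poly_descent {K : Type*} [Field K] [CharZero K] [Algebra K ℂ] {P : Polynomial ℂ}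
    (h : ∀ τ : ℂ →+* ℂ, (∀ y : K, τ (algebraMap K ℂ y) = algebraMap K ℂ y) → P.map τ = P) :
    ∃ P₀ : Polynomial K, P₀.map (algebraMap K ℂ) = P := by
  have h1 : P ∈ Polynomial.lifts (algebraMap K ℂ) := by
    rw [Polynomial.lifts_iff_coeff_lifts]
    intro n
    obtain ⟨y, hy⟩ := fixed_mem (K := K) (x := P.coeff n) (fun τ hτ => by
      rw [← Polynomial.coeff_map, h τ hτ])
    exact ⟨y, hy⟩
  rw [Polynomial.mem_lifts] at h1
  exact h1

end

end Pool.Agent.Helper433.ES
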