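import Pool.Agent.Helper433_ES.Nor2
import Pool.Agent.Helper433_ES.Nor3
import Pool.Agent.Helper433_ES.Glob2
import Pool.Agent.Helper433_ES.Rat

/-! Subtracting a rational function over `K` to remove the poles on the affine line. -/

namespace Pool.Agent.Helper433.ES

open Filter Topology Finset

noncomputable section

section

variable {K : Type*} [Field K] [Algebra K ℂ]

/-- the rational function `U / H` -/
def rat (U H : Polynomial K) (s : ℂ) : ℂ := Polynomial.aeval s U / Polynomial.aeval s H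

lemma rat_deriv {U H : Polynomial K} {s : ℂ} (hH : Polynomial.aeval s H ≠ (0 : ℂ)) :
    HasDerivAt (rat U H) ((Polynomial.aeval s (Polynomial.derivative U) * Polynomial.aeval s H -
      Polynomial.aeval s U * Polynomial.aeval s (Polynomial.derivative H)) /
      (Polynomial.aeval s H) ^ 2) s :=
  (U.hasDerivAt_aeval s).div (H.hasDerivAt_aeval s) hH

lemma GM.add {a b Q P₁ P₂ U H : Polynomial K} {z w : ℂ → ℂ} {s : ℂ} (h : GM a b Q P₁ P₂ z w s)
    (hz : DifferentiableAt ℂ z s) (hH : Polynomial.aeval s H ≠ (0 : ℂ)) :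
    GM a b (Q * H ^ 2) (H ^ 2 * P₁ + Q * (12 * disc a b *
      (Polynomial.derivative U * H - U * Polynomial.derivative H) +
      Polynomial.derivative (disc a b) * U * H))
      (H ^ 2 * P₂ + 6 * Q * a * wrn a b * U * H) (fun s => z s + rat U H s) w s := by
  obtain ⟨h1, h2⟩ := h
  have hd : deriv (fun s => z s + rat U H s) s = deriv z s +
      (Polynomial.aeval s (Polynomial.derivative U) * Polynomial.aeval s H -
      Polynomial.aeval s U * Polynomial.aeval s (Polynomial.derivative H)) /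
      (Polynomial.aeval s H) ^ 2 := (hz.hasDerivAt.add (rat_deriv hH)).deriv
  constructor
  · rw [hd]
    simp only [map_add, map_sub, map_mul, map_pow, map_ofNat, rat]
    rw [← h1]
    field_simp
    ring
  · simp only [map_add, map_mul, map_pow, map_ofNat, rat]
    rw [← h2]
    field_simp
    ring

lemma aeval_ne_near {H : Polynomial K} (hH : H ≠ 0) (p : ℂ) :
    ∀ᶠ s in 𝓝[≠] p, Polynomial.aeval s H ≠ (0 : ℂ) := by
  have h1 := poly_ne (H.map (algebraMap K ℂ))
    ((Polynomial.map_ne_zero_iff (algebraMap K ℂ).injective).2 hH) p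
  filter_upwards [h1] with s hs
  rwa [Polynomial.eval_map_algebraMap] at hs

lemma tendsto_inv_cc : Tendsto (fun s : ℂ => s⁻¹) (cocompact ℂ) (𝓝[≠] 0) := by
  rw [← Metric.cobounded_eq_cocompact]
  exact Filter.tendsto_inv₀_cobounded'

lemma tendsto_inv_zero : Tendsto (fun s : ℂ => s⁻¹) (𝓝[≠] 0) (cocompact ℂ) := by
  rw [← Metric.cobounded_eq_cocompact]
  exact Filter.tendsto_inv₀_nhdsNE_zero

lemma cc_ne (D : Finset ℂ) : ∀ᶠ s in cocompact ℂ, s ∉ D := by
  have h1 : IsCompact (D : Set ℂ) := D.finite_toSet.isCompact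
  filter_upwards [h1.compl_mem_cocompact] with s hs hsD
  exact hs hsD

lemma aeval_ne_cc {H : Polynomial K} (hH : H ≠ 0) :
    ∀ᶠ s in cocompact ℂ, Polynomial.aeval s H ≠ (0 : ℂ) := by
  classical
  have hne : H.map (algebraMap K ℂ) ≠ 0 :=
    (Polynomial.map_ne_zero_iff (algebraMap K ℂ).injective).2 hH
  filter_upwards [cc_ne (H.map (algebraMap K ℂ)).roots.toFinset] with s hs h0
  apply hs
  rw [Multiset.mem_toFinset, Polynomial.mem_roots hne, Polynomial.IsRoot,
    Polynomial.eval_map_algebraMap]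
  exact h0

variable {a b : Polynomial K}

lemma zi_diff {f : ℂ → ℂ} (h : MeromorphicAt (fun t => f t⁻¹) 0) :
    ∀ᶠ s in cocompact ℂ, DifferentiableAt ℂ f s := by
  have h1 := tendsto_inv_cc.eventually h.eventually_analyticAt
  filter_upwards [h1, cc_ne {0}] with s hs hs0
  have hs0' : s ≠ 0 := by simpa using hs0
  have h2 : DifferentiableAt ℂ (fun s : ℂ => s⁻¹) s := differentiableAt_inv hs0'
  have h3 : DifferentiableAt ℂ ((fun t => f t⁻¹) ∘ fun s => s⁻¹) s :=
    DifferentiableAt.comp s hs.differentiableAt h2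
  have h4 : ((fun t => f t⁻¹) ∘ fun s => s⁻¹) = f := by
    ext t; simp
  rwa [h4] at h3

lemma rat_mero (U H : Polynomial K) (p : ℂ) : MeromorphicAt (rat U H) p :=
  (Tay_aeval U p).1.meromorphicAt.div (Tay_aeval H p).1.meromorphicAt

lemma rat_mero_inf (U H : Polynomial K) : MeromorphicAt (fun t => rat U H t⁻¹) 0 := by
  have key : ∀ f : Polynomial K, MeromorphicAt (fun t : ℂ => (Polynomial.aeval t⁻¹ f : ℂ)) 0 := by
    intro f
    induction f using Polynomial.induction_on' with
    | add f g hf hg =>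
      have : (fun t : ℂ => (Polynomial.aeval t⁻¹ (f + g) : ℂ)) =
          (fun t : ℂ => (Polynomial.aeval t⁻¹ f : ℂ)) + fun t => Polynomial.aeval t⁻¹ g := by
        ext t; simp
      rw [this]; exact hf.add hg
    | monomial n x =>
      have : (fun t : ℂ => (Polynomial.aeval t⁻¹ (Polynomial.monomial n x) : ℂ)) =
          fun t => algebraMap K ℂ x * (t⁻¹) ^ n := by
        ext t; rw [Polynomial.aeval_monomial]
      rw [this]
      have hid : MeromorphicAt (fun t : ℂ => t⁻¹) 0 := by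
        have : AnalyticAt ℂ (fun t : ℂ => t) 0 := by fun_prop
        exact this.meromorphicAt.inv
      exact (MeromorphicAt.const _ _).mul (hid.pow n)
  exact (key U).div (key H)

/-- adding a rational function over `K` -/
def GrothClass.add (N : GrothClass a b) (U H : Polynomial K) (hH : H ≠ 0) : GrothClass a b where
  ν s := N.ν s + rat U H s
  z p s := N.z p s + rat U H s
  w := N.w
  zi s := N.zi s + rat U H s
  wi := N.wi
  Q := N.Q * H ^ 2
  P₁ := H ^ 2 * N.P₁ + N.Q * (12 * disc a b *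
      (Polynomial.derivative U * H - U * Polynomial.derivative H) +
      Polynomial.derivative (disc a b) * U * H)
  P₂ := H ^ 2 * N.P₂ + 6 * N.Q * a * wrn a b * U * H
  Q_ne := mul_ne_zero N.Q_ne (pow_ne_zero _ hH)
  z_mero p := (N.z_mero p).add (rat_mero U H p)
  w_mero := N.w_mero
  zi_mero := N.zi_mero.add (rat_mero_inf U H)
  wi_mero := N.wi_mero
  period p := by
    filter_upwards [N.period p] with s hs
    rwa [add_sub_add_right_eq_sub]
  period_infty := by
    filter_upwards [N.period_infty] with s hs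
    rwa [add_sub_add_right_eq_sub]
  gm p := by
    filter_upwards [N.gm p, (N.z_mero p).eventually_analyticAt, aeval_ne_near hH p]
      with s h1 h2 h3
    exact h1.add h2.differentiableAt h3
  gm_infty := by
    filter_upwards [N.gm_infty, zi_diff N.zi_mero, aeval_ne_cc hH] with s h1 h2 h3
    exact h1.add h2 h3

lemma GrothClass.mer (N : GrothClass a b) (p : ℂ) :
    MerSol a b N.Q N.P₁ N.P₂ p (N.z p) (N.w p) :=
  ⟨N.z_mero p, N.w_mero p, N.gm p⟩

end

/-- the polar part as a polynomial -/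
def ppart (M : ℕ) (z : ℂ → ℂ) (p : ℂ) : Polynomial ℂ :=
  ∑ i ∈ range M, Polynomial.C (PowerSeries.coeff i (Tay (clr M z p) p)) *
    (Polynomial.X - Polynomial.C p) ^ i

lemma hat_ppart (M : ℕ) (z : ℂ → ℂ) (p : ℂ) {i : ℕ} (hi : i < M) :
    PowerSeries.coeff i (hat p (ppart M z p)) = PowerSeries.coeff i (Tay (clr M z p) p) := by
  unfold ppart
  rw [map_sum, map_sum, Finset.sum_eq_single i]
  · rw [map_mul, map_pow, map_sub, hat_C, hat_X, hat_C]
    simp
  · intro j _ hj
    rw [map_mul, map_pow, map_sub, hat_C, hat_X, hat_C]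
    simp only [Algebra.algebraMap_self, RingHom.id_apply, add_sub_cancel_left]
    rw [PowerSeries.coeff_C_mul, PowerSeries.coeff_X_pow, if_neg hj.symm, mul_zero]
  · intro h
    exact absurd (Finset.mem_range.2 hi) h

lemma ppart_map {τ : ℂ →+* ℂ} {M : ℕ} {z z' : ℂ → ℂ} {p : ℂ}
    (h : ∀ i < M, τ (PowerSeries.coeff i (Tay (clr M z p) p)) =
      PowerSeries.coeff i (Tay (clr M z' (τ p)) (τ p))) :
    (ppart M z p).map τ = ppart M z' (τ p) := by
  unfold ppart
  rw [Polynomial.map_sum]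
  refine Finset.sum_congr rfl fun i hi => ?_
  rw [Polynomial.map_mul, Polynomial.map_pow, Polynomial.map_sub, Polynomial.map_X,
    Polynomial.map_C, Polynomial.map_C, h i (Finset.mem_range.1 hi)]

lemma polar' {z : ℂ → ℂ} {p : ℂ} {M : ℕ} (hG : AnalyticAt ℂ (clr M z p) p) :
    ∃ h : ℂ → ℂ, AnalyticAt ℂ h p ∧
      ∀ᶠ s in 𝓝[≠] p, z s = (ppart M z p).eval s / (s - p) ^ M + h s :=
  polar hG _ fun _ hi => hat_ppart M z p hi

section

variable {K : Type*} [Field K] [CharZero K] [Algebra K ℂ] {a b : Polynomial K}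

/-- **removal of the poles on the affine line** -/
theorem interior (hab : disc a b ≠ 0) (hmin : ∀ p, Minl a b p) (N : GrothClass a b) :
    ∃ U H : Polynomial K, H ≠ 0 ∧ ∀ p, ∃ h : ℂ → ℂ, AnalyticAt ℂ h p ∧
      ∀ᶠ s in 𝓝[≠] p, N.z p s + rat U H s = h s := by
  classical
  set G : Polynomial K := N.Q * disc a b with hG
  have hG0 : G ≠ 0 := mul_ne_zero N.Q_ne hab
  set Gc : Polynomial ℂ := G.map (algebraMap K ℂ) with hGc
  have hGc0 : Gc ≠ 0 := (Polynomial.map_ne_zero_iff (algebraMap K ℂ).injective).2 hG0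
  set S : Finset ℂ := Gc.roots.toFinset with hS
  have hmem : ∀ p, p ∈ S ↔ Gc.eval p = 0 := by
    intro p
    rw [hS, Multiset.mem_toFinset, Polynomial.mem_roots hGc0, Polynomial.IsRoot]
  -- uniform bound
  have hbd : ∀ p, ∃ m₀, ∀ m, m₀ ≤ m → AnalyticAt ℂ (clr m (N.z p) p) p ∧
      AnalyticAt ℂ (clr m (N.w p) p) p := by
    intro p
    obtain ⟨m₁, h1⟩ := exists_clr (N.z_mero p)
    obtain ⟨m₂, h2⟩ := exists_clr (N.w_mero p)
    exact ⟨max m₁ m₂, fun m hm => ⟨h1 m ((le_max_left _ _).trans hm),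
      h2 m ((le_max_right _ _).trans hm)⟩⟩
  choose mm hmm using hbd
  set M : ℕ := S.sup mm with hM
  have hMz : ∀ p ∈ S, AnalyticAt ℂ (clr M (N.z p) p) p ∧ AnalyticAt ℂ (clr M (N.w p) p) p :=
    fun p hp => hmm p M (Finset.le_sup hp)
  -- the numerator
  set Uc : Polynomial ℂ := -∑ p ∈ S, ppart M (N.z p) p *
    (Gc /ₘ (Polynomial.X - Polynomial.C p)) ^ M with hUc
  have hτG : ∀ τ : ℂ →+* ℂ, (∀ y : K, τ (algebraMap K ℂ y) = algebraMap K ℂ y) →
      Gc.map τ = Gc := by
    intro τ hτ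
    rw [hGc, Polynomial.map_map]
    congr 1
    ext y
    exact hτ y
  have hτS : ∀ τ : ℂ →+* ℂ, (∀ y : K, τ (algebraMap K ℂ y) = algebraMap K ℂ y) →
      ∀ p ∈ S, τ p ∈ S := by
    intro τ hτ p hp
    rw [hmem] at hp ⊢
    rw [← hτG τ hτ, Polynomial.eval_map, Polynomial.eval₂_at_apply, hp, map_zero]
  have hinv : ∀ τ : ℂ →+* ℂ, (∀ y : K, τ (algebraMap K ℂ y) = algebraMap K ℂ y) →
      Uc.map τ = Uc := by
    intro τ hτ
    have himg : S.image τ = S := by
      refine Finset.eq_of_subset_of_card_le ?_ ?_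
      · intro x hx
        obtain ⟨y, hy, rfl⟩ := Finset.mem_image.1 hx
        exact hτS τ hτ y hy
      · rw [Finset.card_image_of_injective _ τ.injective]
    rw [hUc, Polynomial.map_neg, Polynomial.map_sum]
    congr 1
    conv_rhs => rw [← himg]
    rw [Finset.sum_image fun x _ y _ hxy => τ.injective hxy]
    refine Finset.sum_congr rfl fun p hp => ?_
    rw [Polynomial.map_mul, Polynomial.map_pow,
      Polynomial.map_divByMonic _ (Polynomial.monic_X_sub_C p), hτG τ hτ, Polynomial.map_sub,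
      Polynomial.map_X, Polynomial.map_C]
    congr 1
    have hp' := hτS τ hτ p hp
    exact ppart_map (pol_equiv τ hτ hab N.Q_ne (hmin (τ p)) (N.mer p) (N.mer (τ p))
      (hMz p hp).1 (hMz p hp).2 (hMz _ hp').1 (hMz _ hp').2)
  obtain ⟨U, hU⟩ := poly_descent hinv
  refine ⟨U, G ^ M, pow_ne_zero _ hG0, fun p => ?_⟩
  -- the local shape
  have hshape : ∃ h : ℂ → ℂ, AnalyticAt ℂ h p ∧ ∀ᶠ s in 𝓝[≠] p, N.z p s =
      (if p ∈ S then (ppart M (N.z p) p).eval s / (s - p) ^ M else 0) + h s := by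
    by_cases hp : p ∈ S
    · obtain ⟨h, hh, hzh⟩ := polar' (hMz p hp).1
      refine ⟨h, hh, ?_⟩
      filter_upwards [hzh] with s hs
      rw [if_pos hp]; exact hs
    · have hGp : Gc.eval p ≠ 0 := fun h => hp ((hmem p).2 h)
      rw [hGc, Polynomial.eval_map_algebraMap, hG, map_mul] at hGp
      have h1 := hmm p (mm p) le_rfl
      have h2 := pol_good (N.mer p) (left_ne_zero_of_mul hGp) (right_ne_zero_of_mul hGp) h1.1 h1.2
      obtain ⟨h, hh, hzh⟩ := polar h1.1 0 (fun i hi => by rw [h2 i hi, map_zero, map_zero])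
      refine ⟨h, hh, ?_⟩
      filter_upwards [hzh] with s hs
      rw [if_neg hp, hs]; simp
  obtain ⟨h, hh, hzh⟩ := hshape
  have han : ∀ q ∈ S.erase p,
      AnalyticAt ℂ (fun s => (ppart M (N.z q) q).eval s / (s - q) ^ M) p := by
    intro q hq
    have hpq : p ≠ q := (Finset.ne_of_mem_erase hq).symm
    have h1 : AnalyticAt ℂ (fun s => (ppart M (N.z q) q).eval s) p := by
      have := (Tay_aeval (ppart M (N.z q) q) p).1
      simpa using this
    have h2 : AnalyticAt ℂ (fun s : ℂ => (s - q) ^ M) p := by fun_prop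
    exact h1.div h2 (pow_ne_zero _ (sub_ne_zero.2 hpq))
  refine ⟨fun s => h s - ∑ q ∈ S.erase p, (ppart M (N.z q) q).eval s / (s - q) ^ M, ?_, ?_⟩
  · exact hh.sub (Finset.analyticAt_fun_sum _ han)
  · filter_upwards [hzh, near_notMem S p, self_mem_nhdsWithin] with s hs1 hs2 hs3
    have hGs : Gc.eval s ≠ 0 := fun h0 => hs2 ((hmem s).2 h0)
    have hr : rat U (G ^ M) s = -∑ q ∈ S, (ppart M (N.z q) q).eval s / (s - q) ^ M := by
      unfold rat
      rw [map_pow, ← Polynomial.eval_map_algebraMap U, hU, ← Polynomial.eval_map_algebraMap G,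
        ← hGc, hUc, Polynomial.eval_neg, neg_div, Polynomial.eval_finsetSum, Finset.sum_div]
      congr 1
      refine Finset.sum_congr rfl fun q hq => ?_
      have hfac : (Polynomial.X - Polynomial.C q) * (Gc /ₘ (Polynomial.X - Polynomial.C q)) = Gc :=
        Polynomial.mul_divByMonic_eq_iff_isRoot.2 ((hmem q).1 hq)
      have h1 := congrArg (Polynomial.eval s) hfac
      rw [Polynomial.eval_mul, Polynomial.eval_sub, Polynomial.eval_X, Polynomial.eval_C] at h1
      have h2 : (Gc /ₘ (Polynomial.X - Polynomial.C q)).eval s ≠ 0 := by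
        intro h0
        rw [h0, mul_zero] at h1
        exact hGs h1.symm
      rw [← h1, Polynomial.eval_mul, Polynomial.eval_pow, mul_pow]
      have h3 : ((Gc /ₘ (Polynomial.X - Polynomial.C q)).eval s) ^ M ≠ 0 := pow_ne_zero _ h2
      rw [mul_div_mul_right _ _ h3]
    rw [hr, hs1]
    by_cases hp : p ∈ S
    · rw [if_pos hp, ← Finset.add_sum_erase S _ hp]
      ring
    · rw [if_neg hp, Finset.erase_eq_of_notMem hp]
      ring

end

end

end Pool.Agent.Helper433.ES
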