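import Pool.Agent.Helper433_ES.Nor4

/-! The class near infinity. -/

namespace Pool.Agent.Helper433.ES

open Filter Topology Finset

noncomputable section

section

variable {K : Type*} [Field K] [Algebra K ℂ]

/-- `g` is the polynomial `f` read at infinity, with weight `n` -/
def Rfl (n : ℕ) (f g : Polynomial K) : Prop :=
  ∀ t : ℂ, t ≠ 0 → Polynomial.aeval t g = t ^ n * Polynomial.aeval t⁻¹ f

lemma Rfl.reflect {f : Polynomial K} {n : ℕ} (hf : f.natDegree ≤ n) : Rfl n f (f.reflect n) := by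
  intro t ht
  have hx : t⁻¹ ≠ 0 := inv_ne_zero ht
  let _ : Invertible t⁻¹ := invertibleOfNonzero hx
  have h1 := Polynomial.eval₂_reflect_mul_pow (algebraMap K ℂ) t⁻¹ n f hf
  rw [invOf_eq_inv, inv_inv] at h1
  rw [Polynomial.aeval_def, Polynomial.aeval_def, ← h1, mul_comm, mul_assoc, ← mul_pow,
    inv_mul_cancel₀ ht, one_pow, mul_one]

lemma Rfl.deriv {n : ℕ} {f g : Polynomial K} (h : Rfl n f g) {t : ℂ} (ht : t ≠ 0) :
    Polynomial.aeval t (Polynomial.derivative g) =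
      t ^ n * (n * t⁻¹ * Polynomial.aeval t⁻¹ f -
        t⁻¹ ^ 2 * Polynomial.aeval t⁻¹ (Polynomial.derivative f)) := by
  have h1 : HasDerivAt (fun s : ℂ => (Polynomial.aeval s g : ℂ))
      (Polynomial.aeval t (Polynomial.derivative g)) t := g.hasDerivAt_aeval t
  have h2 : HasDerivAt (fun s : ℂ => s⁻¹) (-(t ^ 2)⁻¹) t := hasDerivAt_inv ht
  have h3 : HasDerivAt (fun s : ℂ => (Polynomial.aeval s f : ℂ))
      (Polynomial.aeval t⁻¹ (Polynomial.derivative f)) t⁻¹ := f.hasDerivAt_aeval t⁻¹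
  have h4 : HasDerivAt (fun s : ℂ => (Polynomial.aeval s⁻¹ f : ℂ))
      (Polynomial.aeval t⁻¹ (Polynomial.derivative f) * (-(t ^ 2)⁻¹)) t := h3.comp t h2
  have h5 : HasDerivAt (fun s : ℂ => s ^ n) (n * t ^ (n - 1)) t := hasDerivAt_pow n t
  have h6 := h5.mul h4
  have h7 : (fun s : ℂ => (Polynomial.aeval s g : ℂ)) =ᶠ[𝓝 t]
      ((fun s : ℂ => s ^ n) * fun s : ℂ => (Polynomial.aeval s⁻¹ f : ℂ)) := by
    filter_upwards [isOpen_ne.mem_nhds ht] with s hs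
    exact h s hs
  have h8 := (h6.congr_of_eventuallyEq h7).unique h1
  rw [← h8]
  have h9 : (n : ℂ) * t ^ (n - 1) = n * (t ^ n * t⁻¹) := by
    rcases n with _ | n
    · simp
    · rw [Nat.add_sub_cancel, pow_succ]; field_simp
  rw [h9]
  field_simp
  ring

variable {a b ai bi : Polynomial K} {χ : ℕ}

lemma Rfl.disc (ha : Rfl (4 * χ) a ai) (hb : Rfl (6 * χ) b bi) :
    Rfl (12 * χ) (disc a b) (disc ai bi) := by
  intro t ht
  unfold ES.disc
  simp only [map_add, map_mul, map_pow, map_ofNat]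
  rw [ha t ht, hb t ht]
  ring

lemma Rfl.wrn (ha : Rfl (4 * χ) a ai) (hb : Rfl (6 * χ) b bi) {t : ℂ} (ht : t ≠ 0) :
    Polynomial.aeval t (wrn ai bi) =
      -(t ^ (10 * χ) * t⁻¹ ^ 2 * Polynomial.aeval t⁻¹ (wrn a b)) := by
  unfold ES.wrn
  simp only [map_sub, map_mul, map_ofNat]
  rw [ha t ht, hb t ht, ha.deriv ht, hb.deriv ht]
  push_cast
  ring

/-- the system at infinity -/
lemma GM.infty {Q P₁ P₂ Q' P₁' P₂' : Polynomial K} {n : ℕ} {z w : ℂ → ℂ}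
    (ha : Rfl (4 * χ) a ai) (hb : Rfl (6 * χ) b bi) (hQ : Rfl n Q Q') (h1 : Rfl n P₁ P₁')
    (h2 : Rfl n P₂ P₂') {t : ℂ} (ht : t ≠ 0) (h : GM a b Q P₁ P₂ z w t⁻¹)
    (hz : DifferentiableAt ℂ z t⁻¹) (hw : DifferentiableAt ℂ w t⁻¹) :
    GM ai bi (Polynomial.X ^ 2 * Q') (-(Polynomial.X ^ (11 * χ) * P₁'))
      (-(Polynomial.X ^ (13 * χ) * P₂')) (fun t => (t ^ χ)⁻¹ * z t⁻¹) (fun t => t ^ χ * w t⁻¹)
      t := by
  obtain ⟨g1, g2⟩ := h
  have hT : t ^ χ ≠ 0 := pow_ne_zero _ ht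
  have d0 : HasDerivAt (fun s : ℂ => s⁻¹) (-(t ^ 2)⁻¹) t := hasDerivAt_inv ht
  have dz : HasDerivAt (fun s : ℂ => z s⁻¹) (deriv z t⁻¹ * (-(t ^ 2)⁻¹)) t :=
    hz.hasDerivAt.comp t d0
  have dw : HasDerivAt (fun s : ℂ => w s⁻¹) (deriv w t⁻¹ * (-(t ^ 2)⁻¹)) t :=
    hw.hasDerivAt.comp t d0
  have dT : HasDerivAt (fun s : ℂ => s ^ χ) (χ * (t ^ χ * t⁻¹)) t := by
    have h5 : HasDerivAt (fun s : ℂ => s ^ χ) (χ * t ^ (χ - 1)) t := hasDerivAt_pow χ t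
    have h9 : (χ : ℂ) * t ^ (χ - 1) = χ * (t ^ χ * t⁻¹) := by
      rcases χ with _ | χ
      · simp
      · rw [Nat.add_sub_cancel, pow_succ]; field_simp
    rwa [h9] at h5
  have dTi : HasDerivAt (fun s : ℂ => (s ^ χ)⁻¹) (-(χ * (t ^ χ * t⁻¹)) / (t ^ χ) ^ 2) t :=
    dT.inv hT
  have hZ : deriv (fun t => (t ^ χ)⁻¹ * z t⁻¹) t =
      (t ^ χ)⁻¹ * (-(χ * t⁻¹ * z t⁻¹) - t⁻¹ ^ 2 * deriv z t⁻¹) := by
    have dd : HasDerivAt (fun t => (t ^ χ)⁻¹ * z t⁻¹) _ t := dTi.mul dz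
    rw [dd.deriv]
    field_simp
    ring
  have hW : deriv (fun t => t ^ χ * w t⁻¹) t =
      t ^ χ * (χ * t⁻¹ * w t⁻¹ - t⁻¹ ^ 2 * deriv w t⁻¹) := by
    have dd : HasDerivAt (fun t => t ^ χ * w t⁻¹) _ t := dT.mul dw
    rw [dd.deriv]
    field_simp
    ring
  have hD := Rfl.disc ha hb
  constructor
  · simp only [map_mul, map_neg, map_pow, Polynomial.aeval_X]
    rw [hZ, hD t ht, hD.deriv ht, Rfl.wrn ha hb ht, hQ t ht, h1 t ht, ← g1]
    push_cast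
    have e12 : t ^ (12 * χ) = (t ^ χ) ^ 12 := by rw [← pow_mul]; ring
    have e10 : t ^ (10 * χ) = (t ^ χ) ^ 10 := by rw [← pow_mul]; ring
    have e11 : t ^ (11 * χ) = (t ^ χ) ^ 11 := by rw [← pow_mul]; ring
    rw [e12, e10, e11]
    field_simp
    ring
  · simp only [map_mul, map_neg, map_pow, Polynomial.aeval_X]
    rw [hW, hD t ht, hD.deriv ht, Rfl.wrn ha hb ht, ha t ht, hQ t ht, h2 t ht, ← g2]
    push_cast
    have e12 : t ^ (12 * χ) = (t ^ χ) ^ 12 := by rw [← pow_mul]; ring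
    have e10 : t ^ (10 * χ) = (t ^ χ) ^ 10 := by rw [← pow_mul]; ring
    have e13 : t ^ (13 * χ) = (t ^ χ) ^ 13 := by rw [← pow_mul]; ring
    have e4 : t ^ (4 * χ) = (t ^ χ) ^ 4 := by rw [← pow_mul]; ring
    rw [e12, e10, e13, e4]
    field_simp
    ring

lemma X_pow_dvd_reflect {f : Polynomial K} {n k : ℕ} (hf : f.natDegree ≤ n) (hf0 : f ≠ 0)
    (h : (Polynomial.X - Polynomial.C (0 : ℂ)) ^ k ∣ (f.reflect n).map (algebraMap K ℂ)) :
    f.natDegree + k ≤ n := by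
  rw [map_zero, sub_zero, Polynomial.X_pow_dvd_iff] at h
  by_contra hcon
  push Not at hcon
  have h1 := h (n - f.natDegree) (by omega)
  rw [Polynomial.coeff_map, Polynomial.coeff_reflect] at h1
  have h2 : Polynomial.revAt n (n - f.natDegree) = f.natDegree := by
    rw [Polynomial.revAt_le (Nat.sub_le _ _)]
    omega
  rw [h2] at h1
  have h3 : f.coeff f.natDegree = 0 := (algebraMap K ℂ).injective (by rw [h1, map_zero])
  exact hf0 (Polynomial.leadingCoeff_eq_zero.1 h3)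

lemma minl_infty (hab : disc a b ≠ 0) (ha : a.natDegree ≤ 4 * χ) (hb : b.natDegree ≤ 6 * χ)
    (hmin : ¬ (a.natDegree + 4 ≤ 4 * χ ∧ b.natDegree + 6 ≤ 6 * χ)) :
    Minl (a.reflect (4 * χ)) (b.reflect (6 * χ)) 0 := by
  rintro ⟨h1, h2⟩
  apply hmin
  by_cases ha0 : a = 0
  · have hb0 : b ≠ 0 := by
      rintro rfl
      apply hab
      unfold ES.disc
      rw [ha0]; ring
    have h3 := X_pow_dvd_reflect hb hb0 h2
    rw [ha0, Polynomial.natDegree_zero]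
    omega
  · have h3 := X_pow_dvd_reflect ha ha0 h1
    by_cases hb0 : b = 0
    · rw [hb0, Polynomial.natDegree_zero]
      omega
    · exact ⟨h3, X_pow_dvd_reflect hb hb0 h2⟩

lemma inv_pow_mero {f : ℂ → ℂ} (h : MeromorphicAt (fun t => f t⁻¹) 0) (n : ℕ) :
    MeromorphicAt (fun t => (t ^ n)⁻¹ * f t⁻¹) 0 ∧ MeromorphicAt (fun t => t ^ n * f t⁻¹) 0 := by
  have hid : AnalyticAt ℂ (fun t : ℂ => t ^ n) 0 := by fun_prop
  exact ⟨hid.meromorphicAt.inv.mul h, hid.meromorphicAt.mul h⟩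

lemma tendsto_zero_inv {P : ℂ → Prop} (h : ∀ᶠ s in cocompact ℂ, P s) :
    ∀ᶠ t in 𝓝[≠] (0 : ℂ), P t⁻¹ := tendsto_inv_zero.eventually h

/-- the solution at infinity -/
lemma GrothClass.mer_infty (N : GrothClass a b) (ha : a.natDegree ≤ 4 * χ)
    (hb : b.natDegree ≤ 6 * χ) : ∃ Q' P₁' P₂' : Polynomial K, Q' ≠ 0 ∧
      MerSol (a.reflect (4 * χ)) (b.reflect (6 * χ)) Q' P₁' P₂' 0
        (fun t => (t ^ χ)⁻¹ * N.zi t⁻¹) (fun t => t ^ χ * N.wi t⁻¹) := by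
  set n := N.Q.natDegree + N.P₁.natDegree + N.P₂.natDegree with hn
  have rQ : Rfl n N.Q (N.Q.reflect n) := Rfl.reflect (by omega)
  have r1 : Rfl n N.P₁ (N.P₁.reflect n) := Rfl.reflect (by omega)
  have r2 : Rfl n N.P₂ (N.P₂.reflect n) := Rfl.reflect (by omega)
  refine ⟨Polynomial.X ^ 2 * N.Q.reflect n, -(Polynomial.X ^ (11 * χ) * N.P₁.reflect n),
    -(Polynomial.X ^ (13 * χ) * N.P₂.reflect n), ?_, (inv_pow_mero N.zi_mero χ).1,
    (inv_pow_mero N.wi_mero χ).2, ?_⟩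
  · refine mul_ne_zero (pow_ne_zero _ Polynomial.X_ne_zero) ?_
    rw [Ne, Polynomial.reflect_eq_zero_iff]
    exact N.Q_ne
  · filter_upwards [tendsto_zero_inv N.gm_infty, tendsto_zero_inv (zi_diff N.zi_mero),
      tendsto_zero_inv (zi_diff N.wi_mero), self_mem_nhdsWithin] with t h1 h2 h3 ht
    exact GM.infty (Rfl.reflect ha) (Rfl.reflect hb) rQ r1 r2 ht h1 h2 h3

lemma ppart_natDegree (M : ℕ) (z : ℂ → ℂ) (p : ℂ) : (ppart M z p).natDegree ≤ M := by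
  unfold ppart
  refine Polynomial.natDegree_sum_le_of_forall_le _ _ fun i hi => ?_
  refine (Polynomial.natDegree_C_mul_le _ _).trans ?_
  refine (Polynomial.natDegree_pow_le).trans ?_
  rw [Polynomial.natDegree_X_sub_C, mul_one]
  exact (Finset.mem_range.1 hi).le

end

section

variable {K : Type*} [Field K] [CharZero K] [Algebra K ℂ] {a b : Polynomial K} {χ : ℕ}

/-- **the shape at infinity** -/
theorem infty_shape (hab : disc a b ≠ 0) (ha : a.natDegree ≤ 4 * χ) (hb : b.natDegree ≤ 6 * χ)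
    (hmin : ¬ (a.natDegree + 4 ≤ 4 * χ ∧ b.natDegree + 6 ≤ 6 * χ)) (N : GrothClass a b) :
    ∃ C : Polynomial K, ∃ h : ℂ → ℂ, AnalyticAt ℂ h 0 ∧
      ∀ᶠ s in cocompact ℂ, s ^ χ * N.zi s = Polynomial.aeval s C + h s⁻¹ := by
  obtain ⟨Q', P₁', P₂', hQ', hsol⟩ := N.mer_infty (χ := χ) ha hb
  have hminl := minl_infty hab ha hb hmin
  have hab' : disc (a.reflect (4 * χ)) (b.reflect (6 * χ)) ≠ 0 := by
    intro h0
    have h1 := (Rfl.disc (Rfl.reflect ha) (Rfl.reflect hb))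
    obtain ⟨t, ht⟩ := ((tendsto_zero_inv (aeval_ne_cc hab)).and
      (self_mem_nhdsWithin (s := {0}ᶜ) (a := (0 : ℂ)))).exists
    have h2 := h1 t ht.2
    rw [h0, map_zero] at h2
    exact mul_ne_zero (pow_ne_zero _ ht.2) ht.1 h2.symm
  set Z : ℂ → ℂ := fun t => (t ^ χ)⁻¹ * N.zi t⁻¹ with hZ
  set W : ℂ → ℂ := fun t => t ^ χ * N.wi t⁻¹ with hW
  obtain ⟨m₁, h1⟩ := exists_clr hsol.hz
  obtain ⟨m₂, h2⟩ := exists_clr hsol.hw
  set M := max m₁ m₂ with hM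
  have hZM := h1 M (le_max_left _ _)
  have hWM := h2 M (le_max_right _ _)
  have hinv : ∀ τ : ℂ →+* ℂ, (∀ y : K, τ (algebraMap K ℂ y) = algebraMap K ℂ y) →
      (ppart M Z 0).map τ = ppart M Z 0 := by
    intro τ hτ
    have h3 := pol_equiv (p := 0) τ hτ hab' hQ' (by rw [map_zero]; exact hminl) hsol
      (z' := Z) (w' := W) (by rw [map_zero]; exact hsol) hZM hWM
      (by rw [map_zero]; exact hZM) (by rw [map_zero]; exact hWM)
    have h4 := ppart_map h3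
    rwa [map_zero] at h4
  obtain ⟨P, hP⟩ := poly_descent hinv
  have hPdeg : P.natDegree ≤ M := by
    rw [← Polynomial.natDegree_map_eq_of_injective (algebraMap K ℂ).injective, hP]
    exact ppart_natDegree M Z 0
  obtain ⟨h, hh, hzh⟩ := polar' hZM
  refine ⟨P.reflect M, h, hh, ?_⟩
  filter_upwards [tendsto_inv_cc.eventually hzh, cc_ne {0}] with s hs hs0
  have hs0' : s ≠ 0 := by simpa using hs0
  rw [Rfl.reflect hPdeg s hs0', ← Polynomial.eval_map_algebraMap, hP]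
  have h5 : Z s⁻¹ = s ^ χ * N.zi s := by
    simp only [hZ, inv_pow, inv_inv]
  rw [← h5, hs, sub_zero]
  congr 1
  rw [inv_pow, div_inv_eq_mul, mul_comm]

end

end

end Pool.Agent.Helper433.ES
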