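import Pool.Agent.Helper433_ES.Nor5
import Pool.Agent.Helper433_ES.Fin

/-! Normal form of a Grothendieck class, and the theorem for arbitrary classes. -/

namespace Pool.Agent.Helper433.ES

open Filter Topology Finset

noncomputable section

section

variable {K : Type*} [Field K] [Algebra K ℂ] {a b : Polynomial K} {χ : ℕ}

lemma aeval_analytic (f : Polynomial K) (p : ℂ) :
    AnalyticAt ℂ (fun s => (Polynomial.aeval s f : ℂ)) p := (Tay_aeval f p).1

lemma prod_ne {D : Finset ℂ} {m : ℂ → ℕ} {p : ℂ} (hp : p ∉ D) :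
    (∏ q ∈ D, (Polynomial.X - Polynomial.C q) ^ m q : Polynomial ℂ).eval p ≠ 0 := by
  rw [Polynomial.eval_prod, Finset.prod_ne_zero_iff]
  intro q hq
  rw [Polynomial.eval_pow, Polynomial.eval_sub, Polynomial.eval_X, Polynomial.eval_C]
  refine pow_ne_zero _ (sub_ne_zero.2 ?_)
  rintro rfl
  exact hp hq

variable {D : Finset ℂ} {m : ℂ → ℕ} {mi : ℕ} {R : Polynomial K}

lemma R_facts (hR : R.map (algebraMap K ℂ) =
    ∏ q ∈ D, (Polynomial.X - Polynomial.C q) ^ m q) :
    R ≠ 0 ∧ R.natDegree = ∑ q ∈ D, m q ∧ R.leadingCoeff = 1 := by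
  have hmon : (∏ q ∈ D, (Polynomial.X - Polynomial.C q) ^ m q : Polynomial ℂ).Monic :=
    Polynomial.monic_prod_of_monic _ _ fun q _ => (Polynomial.monic_X_sub_C q).pow _
  have hRmon : R.Monic := by
    have h1 : (R.map (algebraMap K ℂ)).Monic := by rw [hR]; exact hmon
    have h2 := Polynomial.leadingCoeff_map_of_injective (algebraMap K ℂ).injective R
    rw [h1.leadingCoeff] at h2
    exact (algebraMap K ℂ).injective (by rw [← h2, map_one])
  refine ⟨hRmon.ne_zero, ?_, hRmon⟩
  rw [← Polynomial.natDegree_map_eq_of_injective (algebraMap K ℂ).injective, hR,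
    Polynomial.natDegree_prod_of_monic _ _ fun q _ => (Polynomial.monic_X_sub_C q).pow _]
  refine Finset.sum_congr rfl fun q _ => ?_
  rw [Polynomial.natDegree_pow, Polynomial.natDegree_X_sub_C, mul_one]

/-- the correction at infinity -/
lemma correct_infty (hR0 : R ≠ 0) (hRl : R.leadingCoeff = 1)
    (C : Polynomial K) (hrem : ((R * C) %ₘ Polynomial.X ^ χ).natDegree ≤ R.natDegree + mi)
    {h zi : ℂ → ℂ} (hh : AnalyticAt ℂ h 0)
    (hz : ∀ᶠ s in cocompact ℂ, s ^ χ * zi s = Polynomial.aeval s C + h s⁻¹) :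
    ∃ h' : ℂ → ℂ, AnalyticAt ℂ h' 0 ∧ ∀ᶠ s in cocompact ℂ,
      s ^ χ * (zi s + rat (-((R * C) /ₘ Polynomial.X ^ χ)) R s) = s ^ mi * h' s⁻¹ := by
  set V₀ := (R * C) /ₘ Polynomial.X ^ χ with hV₀
  set rem := (R * C) %ₘ Polynomial.X ^ χ with hremdef
  have hdiv : rem + Polynomial.X ^ χ * V₀ = R * C :=
    Polynomial.modByMonic_add_div _ _
  set d := R.natDegree with hd
  refine ⟨fun t => t ^ mi * h t + (Polynomial.aeval t (rem.reflect (d + mi)) /
    Polynomial.aeval t (R.reflect d)), ?_, ?_⟩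
  · have hid : AnalyticAt ℂ (fun t : ℂ => t) 0 := by fun_prop
    refine ((hid.pow mi).mul hh).add ((aeval_analytic _ 0).div
      (aeval_analytic _ 0) ?_)
    have h1 : (Polynomial.aeval (0 : ℂ) (R.reflect d) : ℂ) = 1 := by
      have h2 : (Polynomial.aeval (0 : ℂ) (R.reflect d) : ℂ) =
          algebraMap K ℂ ((R.reflect d).coeff 0) := by
        rw [← Polynomial.coeff_zero_eq_aeval_zero']
      rw [h2, Polynomial.coeff_reflect, Polynomial.revAt_le (Nat.zero_le _), Nat.sub_zero]
      have h3 : R.coeff d = 1 := hRl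
      rw [h3, map_one]
    rw [h1]
    exact one_ne_zero
  · filter_upwards [hz, aeval_ne_cc hR0, cc_ne {0}] with s hs hRs hs0
    have hs0' : s ≠ 0 := by simpa using hs0
    have hsi : s⁻¹ ≠ 0 := inv_ne_zero hs0'
    have h1 := Rfl.reflect (f := rem) hrem s⁻¹ hsi
    have h2 := Rfl.reflect (f := R) (n := d) le_rfl s⁻¹ hsi
    rw [inv_inv] at h1 h2
    have h3 := congrArg (fun f : Polynomial K => (Polynomial.aeval s f : ℂ)) hdiv
    simp only [map_add, map_mul, map_pow, Polynomial.aeval_X] at h3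
    have h4 : s ^ χ * (zi s + rat (-V₀) R s) =
        Polynomial.aeval s rem / Polynomial.aeval s R + h s⁻¹ := by
      rw [mul_add, hs]
      unfold rat
      rw [map_neg]
      have h5 : (Polynomial.aeval s C : ℂ) =
          (Polynomial.aeval s rem + s ^ χ * Polynomial.aeval s V₀) / Polynomial.aeval s R := by
        rw [h3]; field_simp
      rw [h5]
      ring
    rw [h4, h1, h2]
    have h8 : s ^ mi * s⁻¹ ^ mi = 1 := by
      rw [← mul_pow, mul_inv_cancel₀ hs0', one_pow]
    have h6 : s ^ mi * (s⁻¹ ^ (d + mi) * (Polynomial.aeval s rem : ℂ) /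
        (s⁻¹ ^ d * Polynomial.aeval s R)) = Polynomial.aeval s rem / Polynomial.aeval s R := by
      have h9 : s⁻¹ ^ d ≠ 0 := pow_ne_zero _ hsi
      calc s ^ mi * (s⁻¹ ^ (d + mi) * (Polynomial.aeval s rem : ℂ) /
            (s⁻¹ ^ d * Polynomial.aeval s R))
          = (s ^ mi * s⁻¹ ^ mi) * (s⁻¹ ^ d * (Polynomial.aeval s rem : ℂ)) /
            (s⁻¹ ^ d * Polynomial.aeval s R) := by rw [pow_add]; ring
        _ = _ := by rw [h8, one_mul, mul_div_mul_left _ _ h9]
    have h10 : s ^ mi * (s⁻¹ ^ mi * h s⁻¹) = h s⁻¹ := by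
      rw [← mul_assoc, h8, one_mul]
    rw [mul_add, h6, h10]
    ring

end

section

variable {K : Type*} [Field K] [Algebra K ℂ] {a b : Polynomial K} {χ : ℕ}

/-- **normal form**: `C` carries the obstruction; a divisor `D` is admissible as soon as the
obstruction becomes trivial after multiplication by its equation -/
theorem build (N : GrothClass a b) {U₁ H₁ : Polynomial K} (hH₁ : H₁ ≠ 0)
    (hint : ∀ p, ∃ h : ℂ → ℂ, AnalyticAt ℂ h p ∧ ∀ᶠ s in 𝓝[≠] p, N.z p s + rat U₁ H₁ s = h s)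
    {C : Polynomial K} (hinf : ∃ h : ℂ → ℂ, AnalyticAt ℂ h 0 ∧
      ∀ᶠ s in cocompact ℂ, s ^ χ * (N.add U₁ H₁ hH₁).zi s = Polynomial.aeval s C + h s⁻¹)
    {D : Finset ℂ} {m : ℂ → ℕ} {mi : ℕ} {R : Polynomial K} (hR0 : R ≠ 0)
    (hR : R.map (algebraMap K ℂ) = ∏ q ∈ D, (Polynomial.X - Polynomial.C q) ^ m q)
    (hrem : ((R * C) %ₘ Polynomial.X ^ χ).natDegree ≤ R.natDegree + mi) :
    ∃ N' : GrClass a b χ D m mi,
      N'.Q = ((N.add U₁ H₁ hH₁).add (-((R * C) /ₘ Polynomial.X ^ χ)) R hR0).Q ∧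
      N'.P₁ = ((N.add U₁ H₁ hH₁).add (-((R * C) /ₘ Polynomial.X ^ χ)) R hR0).P₁ ∧
      N'.P₂ = ((N.add U₁ H₁ hH₁).add (-((R * C) /ₘ Polynomial.X ^ χ)) R hR0).P₂ ∧
      ∀ p, ∀ᶠ s in 𝓝[≠] p, N'.z p s =
        N.z p s + rat (U₁ * R + (-((R * C) /ₘ Polynomial.X ^ χ)) * H₁) (H₁ * R) s := by
  classical
  choose hp hpan hpe using hint
  set N₁ := N.add U₁ H₁ hH₁ with hN₁
  obtain ⟨h, hh, hinf⟩ := hinf
  obtain ⟨-, hRd, hRl⟩ := R_facts hR
  obtain ⟨h', hh', hinf'⟩ := correct_infty (mi := mi) hR0 hRl C hrem hh hinf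
  set V := -((R * C) /ₘ Polynomial.X ^ χ) with hV
  set N₂ := N₁.add V R hR0 with hN₂
  have hz2 : ∀ p, ∀ᶠ s in 𝓝[≠] p, N₂.z p s = hp p s + rat V R s := by
    intro p
    filter_upwards [hpe p] with s hs
    show N.z p s + rat U₁ H₁ s + rat V R s = _
    rw [hs]
  have hRne : ∀ p ∉ D, Polynomial.aeval p R ≠ (0 : ℂ) := by
    intro p hpD
    rw [← Polynomial.eval_map_algebraMap, hR]
    exact prod_ne hpD
  have hgan : ∀ p ∉ D, AnalyticAt ℂ (fun s => hp p s + rat V R s) p := by
    intro p hpD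
    exact (hpan p).add ((aeval_analytic V p).div (aeval_analytic R p) (hRne p hpD))
  -- the branches
  let gz : ℂ → ℂ → ℂ := fun p => if p ∈ D then N₂.z p else fun s => hp p s + rat V R s
  have hgz : ∀ p, ∀ᶠ s in 𝓝[≠] p, gz p s = N₂.z p s := by
    intro p
    by_cases hpD : p ∈ D
    · simp only [gz, if_pos hpD]
      exact Eventually.of_forall fun _ => trivial
    · simp only [gz, if_neg hpD]
      filter_upwards [hz2 p] with s hs
      exact hs.symm
  have hgzd : ∀ p, ∀ᶠ s in 𝓝[≠] p, deriv (gz p) s = deriv (N₂.z p) s := by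
    intro p
    filter_upwards [ev_ev (hgz p)] with s hs
    exact Filter.EventuallyEq.deriv_eq hs
  let N' : GrClass a b χ D m mi :=
    { ν := N₂.ν
      z := gz
      w := N₂.w
      zi := N₂.zi
      Q := N₂.Q
      P₁ := N₂.P₁
      P₂ := N₂.P₂
      Q_ne := N₂.Q_ne
      z_analytic := fun p hpD => by
        have : gz p = fun s => hp p s + rat V R s := by simp only [gz, if_neg hpD]
        rw [this]
        exact hgan p hpD
      z_pole := fun q hq => by
        set Rq : Polynomial ℂ := ∏ q' ∈ D.erase q,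
          (Polynomial.X - Polynomial.C q') ^ m q' with hRq
        have hRqne : Rq.eval q ≠ 0 := prod_ne (Finset.notMem_erase q D)
        have hfac : ∀ s, (Polynomial.aeval s R : ℂ) = (s - q) ^ m q * Rq.eval s := by
          intro s
          rw [← Polynomial.eval_map_algebraMap, hR, ← Finset.mul_prod_erase D _ hq,
            Polynomial.eval_mul, Polynomial.eval_pow, Polynomial.eval_sub, Polynomial.eval_X,
            Polynomial.eval_C]
        refine ⟨fun s => (s - q) ^ m q * hp q s + Polynomial.aeval s V / Rq.eval s, ?_, ?_⟩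
        · have h1 : AnalyticAt ℂ (fun s : ℂ => (s - q) ^ m q) q := by fun_prop
          have h2 : AnalyticAt ℂ (fun s : ℂ => Rq.eval s) q := by
            have := aeval_analytic Rq q
            simpa using this
          exact (h1.mul (hpan q)).add ((aeval_analytic V q).div h2 hRqne)
        · filter_upwards [hgz q, hz2 q, self_mem_nhdsWithin, aeval_ne_near hR0 q]
            with s hs1 hs2 hs3 hs4
          rw [hs1, hs2]
          unfold rat
          have h5 : (s - q) ^ m q ≠ 0 := pow_ne_zero _ (sub_ne_zero.2 hs3)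
          rw [hfac s] at hs4 ⊢
          have h6 : Rq.eval s ≠ 0 := right_ne_zero_of_mul hs4
          field_simp
      zi_pole := ⟨h', hh', hinf'⟩
      period := fun p => by
        filter_upwards [N₂.period p, hgz p] with s hs1 hs2
        rwa [hs2]
      period_infty := N₂.period_infty
      w_meromorphic := fun p _ => N₂.w_mero p
      gm₁ := fun p _ => by
        filter_upwards [N₂.gm p, hgz p, hgzd p] with s hs1 hs2 hs3
        rw [hs2, hs3]
        exact hs1.1
      gm₂ := fun p _ => by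
        filter_upwards [N₂.gm p, hgz p] with s hs1 hs2
        rw [hs2]
        exact hs1.2 }
  refine ⟨N', rfl, rfl, rfl, fun p => ?_⟩
  filter_upwards [hgz p, aeval_ne_near hH₁ p, aeval_ne_near hR0 p] with s hs1 hs2 hs3
  show gz p s = _
  rw [hs1]
  show N.z p s + rat U₁ H₁ s + rat V R s = _
  unfold rat
  rw [map_add, map_mul, map_mul, map_mul]
  field_simp
  ring

end

end

end Pool.Agent.Helper433.ES
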