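import Pool.Agent.Helper433_ES.Nor6

/-! The pole divisor is chosen by linear algebra, depending on the class. -/

namespace Pool.Agent.Helper433.ES

open Filter Topology Finset

noncomputable section

section

variable {K : Type*} [Field K]

/-- a multiplier killing the obstruction -/
lemma exists_R1 (R₀ C : Polynomial K) {χ n d : ℕ} (h : χ - 1 - n < d + 1) :
    ∃ R₁ : Polynomial K, R₁.Monic ∧ R₁.natDegree ≤ d ∧
      ∀ j, n < j → j < χ → (R₀ * R₁ * C).coeff j = 0 := by
  set k := χ - 1 - n with hk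
  let F : (Fin (d + 1) → K) →ₗ[K] (Fin k → K) := LinearMap.pi fun j =>
    (Polynomial.lcoeff K (n + 1 + j)) ∘ₗ (LinearMap.mulLeft K (R₀ * C)) ∘ₗ
      (Polynomial.degreeLT K (d + 1)).subtype ∘ₗ
      (Polynomial.degreeLTEquiv K (d + 1)).symm.toLinearMap
  have hker : LinearMap.ker F ≠ ⊥ := LinearMap.ker_ne_bot_of_finrank_lt (by
    rw [Module.finrank_fin_fun, Module.finrank_fin_fun]; exact h)
  obtain ⟨v, hv, hv0⟩ := (Submodule.ne_bot_iff _).1 hker
  set P := (Polynomial.degreeLTEquiv K (d + 1)).symm v with hP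
  have hP0 : (P : Polynomial K) ≠ 0 := by
    intro h0
    apply hv0
    have h1 : P = 0 := Subtype.ext h0
    have h2 := congrArg (Polynomial.degreeLTEquiv K (d + 1)) h1
    rw [hP, LinearEquiv.apply_symm_apply, map_zero] at h2
    exact h2
  have hPdeg : (P : Polynomial K).natDegree ≤ d := by
    have h1 := Polynomial.mem_degreeLT.1 P.2
    have h2 := (Polynomial.natDegree_lt_iff_degree_lt hP0).2 h1
    omega
  have hPc : ∀ j, n < j → j < χ → (R₀ * C * P).coeff j = 0 := by
    intro j hj1 hj2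
    have h1 : F v = 0 := hv
    have h2 := congrFun h1 ⟨j - (n + 1), by omega⟩
    have h3 : F v ⟨j - (n + 1), by omega⟩ =
        (R₀ * C * P).coeff (n + 1 + (j - (n + 1))) := rfl
    rw [h3, Pi.zero_apply] at h2
    have h4 : n + 1 + (j - (n + 1)) = j := by omega
    rwa [h4] at h2
  have hlc : (P : Polynomial K).leadingCoeff ≠ 0 := Polynomial.leadingCoeff_ne_zero.2 hP0
  refine ⟨Polynomial.C (P : Polynomial K).leadingCoeff⁻¹ * P, ?_, ?_, ?_⟩
  · rw [mul_comm]
    exact Polynomial.monic_mul_leadingCoeff_inv hP0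
  · exact (Polynomial.natDegree_C_mul_le _ _).trans hPdeg
  · intro j hj1 hj2
    have h1 : R₀ * (Polynomial.C (P : Polynomial K).leadingCoeff⁻¹ * P) * C =
        Polynomial.C (P : Polynomial K).leadingCoeff⁻¹ * (R₀ * C * P) := by ring
    rw [h1, Polynomial.coeff_C_mul, hPc j hj1 hj2, mul_zero]

lemma rem_deg {f : Polynomial K} {χ n : ℕ} (h : ∀ j, n < j → j < χ → f.coeff j = 0) :
    (f %ₘ Polynomial.X ^ χ).natDegree ≤ n := by
  rw [Polynomial.natDegree_le_iff_coeff_eq_zero]
  intro j hj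
  by_cases hjχ : j < χ
  · have h1 := congrArg (fun g => Polynomial.coeff g j)
      (Polynomial.modByMonic_add_div f (Polynomial.X ^ χ))
    simp only [Polynomial.coeff_add] at h1
    rw [Polynomial.coeff_X_pow_mul', if_neg (not_le.2 hjχ), add_zero] at h1
    rw [h1]; exact h j hj hjχ
  · refine Polynomial.coeff_eq_zero_of_degree_lt (lt_of_lt_of_le
      (Polynomial.degree_modByMonic_lt _ (Polynomial.monic_X_pow χ)) ?_)
    rw [Polynomial.degree_X_pow]
    exact_mod_cast (not_lt.1 hjχ)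

end

section

variable {K : Type*} [Field K] [Algebra K ℂ] {a b : Polynomial K}

lemma poly_roots {R₁ : Polynomial K} (h : R₁.Monic) [DecidableEq ℂ] :
    R₁.map (algebraMap K ℂ) = ∏ q ∈ (R₁.map (algebraMap K ℂ)).roots.toFinset,
      (Polynomial.X - Polynomial.C q) ^ (R₁.map (algebraMap K ℂ)).rootMultiplicity q := by
  have h1 := (IsAlgClosed.splits (R₁.map (algebraMap K ℂ))).eq_prod_roots_of_monic (h.map _)
  rw [Polynomial.prod_multiset_root_eq_finset_root] at h1
  exact h1

lemma Fib.conj {p : ℂ} (h : Fib a b p) (τ : ℂ →+* ℂ)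
    (hτ : ∀ x : K, τ (algebraMap K ℂ x) = algebraMap K ℂ x) : Fib a b (τ p) := by
  have hmap : ∀ f : Polynomial K, (f.map (algebraMap K ℂ)).map τ = f.map (algebraMap K ℂ) := by
    intro f
    rw [Polynomial.map_map]
    congr 1
    ext y
    exact hτ y
  have key : ∀ (f : Polynomial K) (n r : ℕ), (Polynomial.X - Polynomial.C p) ^ n ∣
      (f.map (algebraMap K ℂ)) ^ r → (Polynomial.X - Polynomial.C (τ p)) ^ n ∣
      (f.map (algebraMap K ℂ)) ^ r := by
    intro f n r hd
    have h1 := Polynomial.map_dvd τ hd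
    rwa [Polynomial.map_pow, Polynomial.map_pow, Polynomial.map_sub, Polynomial.map_X,
      Polynomial.map_C, hmap] at h1
  refine ⟨?_, ?_, ?_⟩
  · rw [eu_map τ hτ]; exact key a _ _ h.ha
  · rw [eu_map τ hτ]; exact key b _ _ h.hb
  · rw [eu_map τ hτ]; exact h.h12

lemma Fib.root {p : ℂ} (h : Fib a b p) (hab : disc a b ≠ 0) :
    Polynomial.aeval p (disc a b) = 0 := by
  have h1 := h.eu_pos
  have hne : (disc a b).map (algebraMap K ℂ) ≠ 0 :=
    (Polynomial.map_ne_zero_iff (algebraMap K ℂ).injective).2 hab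
  have h2 : ((disc a b).map (algebraMap K ℂ)).IsRoot p :=
    (Polynomial.rootMultiplicity_pos hne).1 h1
  rwa [Polynomial.IsRoot, Polynomial.eval_map_algebraMap] at h2

end

end

end Pool.Agent.Helper433.ES
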