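import Pool.Agent.Helper433_ES.Nor6
import Pool.Agent.Helper433_ES.Cj

/-! Normalisation of a family of conjugate Grothendieck classes: descent, interior poles, the
shape at infinity. -/

namespace Pool.Agent.Helper433.ES

open Filter Topology Finset

noncomputable section

section

variable {a b Q P1 P2 : Polynomial ℂ} {p : ℂ} {z w : ℂ → ℂ}

lemma Minl_c (τ : ℂ →+* ℂ) (a b : Polynomial ℂ) (p : ℂ) :
    Minl (a.map τ) (b.map τ) (τ p) ↔ Minl a b p := by
  unfold Minl
  rw [map_id_c, map_id_c, map_id_c, map_id_c, pow_dvd_c, pow_dvd_c]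

theorem pol_equiv_c (τ : ℂ →+* ℂ) (hD : disc a b ≠ 0) (hQ : Q ≠ 0) (hmin : Minl a b p)
    {z' w' : ℂ → ℂ} (hs : MerSol a b Q P1 P2 p z w)
    (hs' : MerSol (a.map τ) (b.map τ) (Q.map τ) (P1.map τ) (P2.map τ) (τ p) z' w') {m : ℕ}
    (hz : AnalyticAt ℂ (clr m z p) p) (hw : AnalyticAt ℂ (clr m w p) p)
    (hz' : AnalyticAt ℂ (clr m z' (τ p)) (τ p)) (hw' : AnalyticAt ℂ (clr m w' (τ p)) (τ p)) :
    ∀ i < m, τ (PowerSeries.coeff i (Tay (clr m z p) p)) =
      PowerSeries.coeff i (Tay (clr m z' (τ p)) (τ p)) := by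
  have hD' : disc (a.map τ) (b.map τ) ≠ 0 := by
    rw [← disc_map_c]; exact (Polynomial.map_ne_zero_iff τ.injective).2 hD
  have hQ' : Q.map τ ≠ 0 := (Polynomial.map_ne_zero_iff τ.injective).2 hQ
  have hmin' : Minl (a.map τ) (b.map τ) (τ p) := (Minl_c τ a b p).2 hmin
  obtain ⟨h1, h2⟩ := hs.formal hz hw
  obtain ⟨h1', h2'⟩ := hs'.formal hz' hw'
  have e1 := congrArg (PowerSeries.map τ) h1
  have e2 := congrArg (PowerSeries.map τ) h2
  rw [map_mul, map_mul, map_pow, PowerSeries.map_X, map_E1, hat_map_c τ, hat_map_c τ,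
    hat_map_c τ, hat_map_c τ, ← h1'] at e1
  rw [map_mul, map_mul, map_pow, PowerSeries.map_X, map_E2, hat_map_c τ, hat_map_c τ,
    hat_map_c τ, hat_map_c τ, ← h2'] at e2
  have f1 := mul_left_cancel₀ (hat_ne hQ' (τ p)) e1
  have f2 := mul_left_cancel₀ (hat_ne hQ' (τ p)) e2
  have g1 : E1 (hat (τ p) (a.map τ)) (hat (τ p) (b.map τ)) m
      (PowerSeries.map τ (Tay (clr m z p) p) - Tay (clr m z' (τ p)) (τ p))
      (PowerSeries.map τ (Tay (clr m w p) p) - Tay (clr m w' (τ p)) (τ p)) = 0 := by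
    rw [E1_sub, f1, sub_self]
  have g2 : E2 (hat (τ p) (a.map τ)) (hat (τ p) (b.map τ)) m
      (PowerSeries.map τ (Tay (clr m z p) p) - Tay (clr m z' (τ p)) (τ p))
      (PowerSeries.map τ (Tay (clr m w p) p) - Tay (clr m w' (τ p)) (τ p)) = 0 := by
    rw [E2_sub, f2, sub_self]
  have h3 := hom_regular (by rw [← hat_disc]; exact hat_ne hD' (τ p)) hmin'.hat g1 g2
  intro i hi
  have h4 := (PowerSeries.X_pow_dvd_iff.1 h3) i hi
  rw [map_sub, PowerSeries.coeff_map, sub_eq_zero] at h4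
  exact h4

end

section

variable {K : Type*} [Field K] [NumberField K]

/-- embeddings of a number field are exchanged by endomorphisms of `ℂ` -/
lemma exists_tau (σ σ' : K →+* ℂ) : ∃ τ : ℂ →+* ℂ, ∀ x, τ (σ x) = σ' x := by
  obtain ⟨α, hα⟩ := Field.exists_primitive_element ℚ K
  let s : K →ₐ[ℚ] ℂ := RingHom.toRatAlgHom σ
  let s' : K →ₐ[ℚ] ℂ := RingHom.toRatAlgHom σ'
  have hint : IsIntegral ℚ α := Algebra.IsIntegral.isIntegral α
  have h1 : minpoly ℚ (s α) = minpoly ℚ α := minpoly.algHom_eq s s.toRingHom.injective α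
  have h2 : Polynomial.aeval (s' α) (minpoly ℚ (s α)) = 0 := by
    rw [h1, Polynomial.aeval_algHom_apply, minpoly.aeval, map_zero]
  have hsalg : IsAlgebraic ℚ (s α) := (hint.map s).isAlgebraic
  obtain ⟨τ, -, hτ⟩ := exists_aut hsalg h2
  refine ⟨τ, fun x => ?_⟩
  let t : K →ₐ[ℚ] ℂ := RingHom.toRatAlgHom (τ.comp σ)
  have h3 : t = s' := by
    have h4 : Algebra.adjoin ℚ {α} = ⊤ := by
      rw [← IntermediateField.adjoin_simple_toSubalgebra_of_isAlgebraic hint.isAlgebraic, hα,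
        IntermediateField.top_toSubalgebra]
    refine AlgHom.ext_of_adjoin_eq_top h4 ?_
    intro x hx
    rw [Set.mem_singleton_iff] at hx
    rw [hx]
    exact hτ
  have h4 := congrArg (fun f : K →ₐ[ℚ] ℂ => f x) h3
  exact h4

variable {ι : Type*} (σ : ι → K →+* ℂ)

/-- descent for a family of polynomials -/
lemma descentF [Nonempty ι] {P : ι → Polynomial ℂ}
    (h : ∀ (i j : ι) (τ : ℂ →+* ℂ), (∀ x, τ (σ i x) = σ j x) → (P i).map τ = P j) :
    ∃ P₀ : Polynomial K, ∀ i, P₀.map (σ i) = P i := by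
  obtain ⟨i₀⟩ := ‹Nonempty ι›
  let _ : Algebra K ℂ := (σ i₀).toAlgebra
  obtain ⟨P₀, hP₀⟩ := poly_descent (K := K) (P := P i₀) fun τ hτ => h i₀ i₀ τ hτ
  refine ⟨P₀, fun i => ?_⟩
  obtain ⟨τ, hτ⟩ := exists_tau (σ i₀) (σ i)
  rw [← h i₀ i τ hτ, ← hP₀, Polynomial.map_map]
  congr 1
  ext x
  exact (hτ x).symm

/-- a class whose right side comes from `K` -/
structure IsMap {a b : Polynomial ℂ} (s : K →+* ℂ) (N : GrothClass a b)
    (Q P₁ P₂ : Polynomial K) : Prop where
  hQ : N.Q = Q.map s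
  h1 : N.P₁ = P₁.map s
  h2 : N.P₂ = P₂.map s

variable {a b Q P1 P2 : Polynomial K}

lemma map_tau {s s' : K →+* ℂ} {τ : ℂ →+* ℂ} (hτ : ∀ x, τ (s x) = s' x) (f : Polynomial K) :
    (f.map s).map τ = f.map s' := by
  rw [Polynomial.map_map]
  congr 1
  ext x
  exact hτ x

lemma IsMap.mer {s : K →+* ℂ} {N : GrothClass (a.map s) (b.map s)} (h : IsMap s N Q P1 P2)
    (p : ℂ) : MerSol (a.map s) (b.map s) (Q.map s) (P1.map s) (P2.map s) p (N.z p) (N.w p) := by
  rw [← h.hQ, ← h.h1, ← h.h2]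
  exact N.mer p

/-- **removal of the poles on the affine line, for a family** -/
theorem interiorF [Finite ι] [Nonempty ι] (hab : disc a b ≠ 0) (hQ0 : Q ≠ 0)
    (hmin : ∀ i p, Minl (a.map (σ i)) (b.map (σ i)) p)
    (N : ∀ i, GrothClass (a.map (σ i)) (b.map (σ i))) (hN : ∀ i, IsMap (σ i) (N i) Q P1 P2) :
    ∃ U H : Polynomial K, H ≠ 0 ∧ ∀ i p, ∃ h : ℂ → ℂ, AnalyticAt ℂ h p ∧
      ∀ᶠ s in 𝓝[≠] p, (N i).z p s + rat (U.map (σ i)) (H.map (σ i)) s = h s := by
  classical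
  have : Fintype ι := Fintype.ofFinite ι
  set G : Polynomial K := Q * disc a b with hG
  have hG0 : G ≠ 0 := mul_ne_zero hQ0 hab
  set Gc : ι → Polynomial ℂ := fun i => G.map (σ i) with hGc
  have hGc0 : ∀ i, Gc i ≠ 0 := fun i => (Polynomial.map_ne_zero_iff (σ i).injective).2 hG0
  set S : ι → Finset ℂ := fun i => (Gc i).roots.toFinset with hS
  have hmem : ∀ i p, p ∈ S i ↔ (Gc i).eval p = 0 := by
    intro i p
    rw [hS, Multiset.mem_toFinset, Polynomial.mem_roots (hGc0 i), Polynomial.IsRoot]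
  -- uniform bound
  have hbd : ∀ i p, ∃ m₀, ∀ m, m₀ ≤ m → AnalyticAt ℂ (clr m ((N i).z p) p) p ∧
      AnalyticAt ℂ (clr m ((N i).w p) p) p := by
    intro i p
    obtain ⟨m₁, h1⟩ := exists_clr ((N i).z_mero p)
    obtain ⟨m₂, h2⟩ := exists_clr ((N i).w_mero p)
    exact ⟨max m₁ m₂, fun m hm => ⟨h1 m ((le_max_left _ _).trans hm),
      h2 m ((le_max_right _ _).trans hm)⟩⟩
  choose mm hmm using hbd
  set M : ℕ := Finset.univ.sup fun i => (S i).sup (mm i) with hM
  have hMz : ∀ i, ∀ p ∈ S i, AnalyticAt ℂ (clr M ((N i).z p) p) p ∧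
      AnalyticAt ℂ (clr M ((N i).w p) p) p := fun i p hp =>
    hmm i p M ((Finset.le_sup (f := mm i) hp).trans
      (Finset.le_sup (f := fun i => (S i).sup (mm i)) (Finset.mem_univ i)))
  -- the numerator
  set Uc : ι → Polynomial ℂ := fun i => -∑ p ∈ S i, ppart M ((N i).z p) p *
    (Gc i /ₘ (Polynomial.X - Polynomial.C p)) ^ M with hUc
  have hτG : ∀ (i j : ι) (τ : ℂ →+* ℂ), (∀ x, τ (σ i x) = σ j x) → (Gc i).map τ = Gc j :=
    fun i j τ hτ => map_tau hτ G
  have hτS : ∀ (i j : ι) (τ : ℂ →+* ℂ), (∀ x, τ (σ i x) = σ j x) → ∀ p ∈ S i, τ p ∈ S j := by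
    intro i j τ hτ p hp
    rw [hmem] at hp ⊢
    rw [← hτG i j τ hτ, Polynomial.eval_map, Polynomial.eval₂_at_apply, hp, map_zero]
  have hcard : ∀ i j, (S j).card ≤ (S i).card := by
    intro i j
    obtain ⟨τ, hτ⟩ := exists_tau (σ j) (σ i)
    exact Finset.card_le_card_of_injOn τ (fun p hp => hτS j i τ hτ p hp) τ.injective.injOn
  have hinv : ∀ (i j : ι) (τ : ℂ →+* ℂ), (∀ x, τ (σ i x) = σ j x) → (Uc i).map τ = Uc j := by
    intro i j τ hτ
    have himg : (S i).image τ = S j := by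
      refine Finset.eq_of_subset_of_card_le ?_ ?_
      · intro x hx
        obtain ⟨y, hy, rfl⟩ := Finset.mem_image.1 hx
        exact hτS i j τ hτ y hy
      · rw [Finset.card_image_of_injective _ τ.injective]
        exact hcard i j
    simp only [hUc]
    rw [Polynomial.map_neg, Polynomial.map_sum]
    congr 1
    rw [← himg, Finset.sum_image fun x _ y _ hxy => τ.injective hxy]
    refine Finset.sum_congr rfl fun p hp => ?_
    rw [Polynomial.map_mul, Polynomial.map_pow,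
      Polynomial.map_divByMonic _ (Polynomial.monic_X_sub_C p), hτG i j τ hτ, Polynomial.map_sub,
      Polynomial.map_X, Polynomial.map_C]
    congr 1
    have hp' := hτS i j τ hτ p hp
    have hD : disc (a.map (σ i)) (b.map (σ i)) ≠ 0 := by
      rw [← disc_map_c]; exact (Polynomial.map_ne_zero_iff (σ i).injective).2 hab
    have hs' : MerSol ((a.map (σ i)).map τ) ((b.map (σ i)).map τ) ((Q.map (σ i)).map τ)
        ((P1.map (σ i)).map τ) ((P2.map (σ i)).map τ) (τ p) ((N j).z (τ p)) ((N j).w (τ p)) := by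
      rw [map_tau hτ a, map_tau hτ b, map_tau hτ Q, map_tau hτ P1, map_tau hτ P2]
      exact (hN j).mer (τ p)
    exact ppart_map (pol_equiv_c τ hD ((Polynomial.map_ne_zero_iff (σ i).injective).2 hQ0)
      (hmin i p) ((hN i).mer p) hs' (hMz i p hp).1 (hMz i p hp).2 (hMz j _ hp').1 (hMz j _ hp').2)
  obtain ⟨U, hU⟩ := descentF σ hinv
  refine ⟨U, G ^ M, pow_ne_zero _ hG0, fun i p => ?_⟩
  -- the local shape
  have hshape : ∃ h : ℂ → ℂ, AnalyticAt ℂ h p ∧ ∀ᶠ s in 𝓝[≠] p, (N i).z p s =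
      (if p ∈ S i then (ppart M ((N i).z p) p).eval s / (s - p) ^ M else 0) + h s := by
    by_cases hp : p ∈ S i
    · obtain ⟨h, hh, hzh⟩ := polar' (hMz i p hp).1
      refine ⟨h, hh, ?_⟩
      filter_upwards [hzh] with s hs
      rw [if_pos hp]; exact hs
    · have hGp : (Gc i).eval p ≠ 0 := fun h => hp ((hmem i p).2 h)
      simp only [hGc, hG, Polynomial.map_mul, Polynomial.eval_mul, disc_map_c] at hGp
      have h1 := hmm i p (mm i p) le_rfl
      have h2 := pol_good ((hN i).mer p)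
        (by rw [Polynomial.coe_aeval_eq_eval]; exact left_ne_zero_of_mul hGp)
        (by rw [Polynomial.coe_aeval_eq_eval]; exact right_ne_zero_of_mul hGp) h1.1 h1.2
      obtain ⟨h, hh, hzh⟩ := polar h1.1 0 (fun i hi => by rw [h2 i hi, map_zero, map_zero])
      refine ⟨h, hh, ?_⟩
      filter_upwards [hzh] with s hs
      rw [if_neg hp, hs]; simp
  obtain ⟨h, hh, hzh⟩ := hshape
  have han : ∀ q ∈ (S i).erase p,
      AnalyticAt ℂ (fun s => (ppart M ((N i).z q) q).eval s / (s - q) ^ M) p := by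
    intro q hq
    have hpq : p ≠ q := (Finset.ne_of_mem_erase hq).symm
    have h1 : AnalyticAt ℂ (fun s => (ppart M ((N i).z q) q).eval s) p := by
      have := (Tay_aeval (ppart M ((N i).z q) q) p).1
      simpa using this
    have h2 : AnalyticAt ℂ (fun s : ℂ => (s - q) ^ M) p := by fun_prop
    exact h1.div h2 (pow_ne_zero _ (sub_ne_zero.2 hpq))
  refine ⟨fun s => h s - ∑ q ∈ (S i).erase p, (ppart M ((N i).z q) q).eval s / (s - q) ^ M, ?_, ?_⟩
  · exact hh.sub (Finset.analyticAt_fun_sum _ han)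
  · filter_upwards [hzh, near_notMem (S i) p, self_mem_nhdsWithin] with s hs1 hs2 hs3
    have hGs : (Gc i).eval s ≠ 0 := fun h0 => hs2 ((hmem i s).2 h0)
    have hr : rat (U.map (σ i)) ((G ^ M).map (σ i)) s =
        -∑ q ∈ S i, (ppart M ((N i).z q) q).eval s / (s - q) ^ M := by
      unfold rat
      rw [Polynomial.coe_aeval_eq_eval, hU i, Polynomial.map_pow]
      simp only [hUc]
      rw [Polynomial.eval_pow, Polynomial.eval_neg, neg_div, Polynomial.eval_finsetSum,
        Finset.sum_div]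
      congr 1
      refine Finset.sum_congr rfl fun q hq => ?_
      have hfac : (Polynomial.X - Polynomial.C q) *
          (Gc i /ₘ (Polynomial.X - Polynomial.C q)) = Gc i :=
        Polynomial.mul_divByMonic_eq_iff_isRoot.2 ((hmem i q).1 hq)
      have h1 := congrArg (Polynomial.eval s) hfac
      rw [Polynomial.eval_mul, Polynomial.eval_sub, Polynomial.eval_X, Polynomial.eval_C] at h1
      have h2 : (Gc i /ₘ (Polynomial.X - Polynomial.C q)).eval s ≠ 0 := by
        intro h0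
        rw [h0, mul_zero] at h1
        exact hGs h1.symm
      show _ / (Gc i).eval s ^ M = _
      rw [← h1, Polynomial.eval_mul, Polynomial.eval_pow, mul_pow]
      have h3 : ((Gc i /ₘ (Polynomial.X - Polynomial.C q)).eval s) ^ M ≠ 0 := pow_ne_zero _ h2
      rw [mul_div_mul_right _ _ h3]
    rw [hr, hs1]
    by_cases hp : p ∈ S i
    · rw [if_pos hp, ← Finset.add_sum_erase (S i) _ hp]
      ring
    · rw [if_neg hp, Finset.erase_eq_of_notMem hp]
      ring

end

end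

end Pool.Agent.Helper433.ES
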