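import Pool.Agent.Helper433_ES.NorF1

/-! Normalisation of a family of conjugate Grothendieck classes: the point at infinity. -/

namespace Pool.Agent.Helper433.ES

open Filter Topology Finset

noncomputable section

section

variable {K : Type*} [Field K] [Algebra K ℂ] {a b : Polynomial K} {χ : ℕ}

lemma disc_reflect_ne (hab : disc a b ≠ 0) (ha : a.natDegree ≤ 4 * χ)
    (hb : b.natDegree ≤ 6 * χ) : disc (a.reflect (4 * χ)) (b.reflect (6 * χ)) ≠ 0 := by
  intro h0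
  have h1 := (Rfl.disc (Rfl.reflect ha) (Rfl.reflect hb))
  obtain ⟨t, ht⟩ := ((tendsto_zero_inv (aeval_ne_cc hab)).and
    (self_mem_nhdsWithin (s := {0}ᶜ) (a := (0 : ℂ)))).exists
  have h2 := h1 t ht.2
  rw [h0, map_zero] at h2
  exact mul_ne_zero (pow_ne_zero _ ht.2) ht.1 h2.symm

lemma GrothClass.mer_inf (N : GrothClass a b) (ha : a.natDegree ≤ 4 * χ)
    (hb : b.natDegree ≤ 6 * χ) {n : ℕ} (hQ : N.Q.natDegree ≤ n) (h1 : N.P₁.natDegree ≤ n)
    (h2 : N.P₂.natDegree ≤ n) :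
    MerSol (a.reflect (4 * χ)) (b.reflect (6 * χ)) (Polynomial.X ^ 2 * N.Q.reflect n)
      (-(Polynomial.X ^ (11 * χ) * N.P₁.reflect n)) (-(Polynomial.X ^ (13 * χ) * N.P₂.reflect n)) 0
        (fun t => (t ^ χ)⁻¹ * N.zi t⁻¹) (fun t => t ^ χ * N.wi t⁻¹) := by
  refine ⟨(inv_pow_mero N.zi_mero χ).1, (inv_pow_mero N.wi_mero χ).2, ?_⟩
  filter_upwards [tendsto_zero_inv N.gm_infty, tendsto_zero_inv (zi_diff N.zi_mero),
    tendsto_zero_inv (zi_diff N.wi_mero), self_mem_nhdsWithin] with t h3 h4 h5 ht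
  exact GM.infty (Rfl.reflect ha) (Rfl.reflect hb) (Rfl.reflect hQ) (Rfl.reflect h1)
    (Rfl.reflect h2) ht h3 h4 h5

end

section

variable {K : Type*} [Field K] [NumberField K] {ι : Type*} (σ : ι → K →+* ℂ)
  {a b Q P1 P2 : Polynomial K} {χ : ℕ}

/-- **the shape at infinity, for a family** -/
theorem inftyF [Finite ι] [Nonempty ι] (hab : disc a b ≠ 0) (hQ0 : Q ≠ 0)
    (ha : a.natDegree ≤ 4 * χ) (hb : b.natDegree ≤ 6 * χ)
    (hmin : ¬ (a.natDegree + 4 ≤ 4 * χ ∧ b.natDegree + 6 ≤ 6 * χ))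
    (N : ∀ i, GrothClass (a.map (σ i)) (b.map (σ i))) (hN : ∀ i, IsMap (σ i) (N i) Q P1 P2) :
    ∃ C : Polynomial K, ∀ i, ∃ h : ℂ → ℂ, AnalyticAt ℂ h 0 ∧
      ∀ᶠ s in cocompact ℂ, s ^ χ * (N i).zi s = Polynomial.aeval s (C.map (σ i)) + h s⁻¹ := by
  classical
  have : Fintype ι := Fintype.ofFinite ι
  have hdeg : ∀ (i : ι) (f : Polynomial K), (f.map (σ i)).natDegree = f.natDegree := fun i f =>
    Polynomial.natDegree_map_eq_of_injective (σ i).injective f
  set n := Q.natDegree + P1.natDegree + P2.natDegree with hn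
  set a' := a.reflect (4 * χ) with ha'
  set b' := b.reflect (6 * χ) with hb'
  set Q' : Polynomial K := Polynomial.X ^ 2 * Q.reflect n with hQ'
  set P1' : Polynomial K := -(Polynomial.X ^ (11 * χ) * P1.reflect n) with hP1'
  set P2' : Polynomial K := -(Polynomial.X ^ (13 * χ) * P2.reflect n) with hP2'
  set Z : ι → ℂ → ℂ := fun i t => (t ^ χ)⁻¹ * (N i).zi t⁻¹ with hZ
  set W : ι → ℂ → ℂ := fun i t => t ^ χ * (N i).wi t⁻¹ with hW
  have hsol : ∀ i, MerSol (a'.map (σ i)) (b'.map (σ i)) (Q'.map (σ i)) (P1'.map (σ i))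
      (P2'.map (σ i)) 0 (Z i) (W i) := by
    intro i
    have h1 := (N i).mer_inf (χ := χ) (n := n) (by rw [hdeg]; exact ha) (by rw [hdeg]; exact hb)
      (by rw [(hN i).hQ, hdeg]; omega) (by rw [(hN i).h1, hdeg]; omega)
      (by rw [(hN i).h2, hdeg]; omega)
    rw [(hN i).hQ, (hN i).h1, (hN i).h2] at h1
    have e1 : Q'.map (σ i) = Polynomial.X ^ 2 * (Q.map (σ i)).reflect n := by
      rw [hQ', Polynomial.map_mul, Polynomial.map_pow, Polynomial.map_X, Polynomial.reflect_map]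
    have e2 : P1'.map (σ i) = -(Polynomial.X ^ (11 * χ) * (P1.map (σ i)).reflect n) := by
      rw [hP1', Polynomial.map_neg, Polynomial.map_mul, Polynomial.map_pow, Polynomial.map_X,
        Polynomial.reflect_map]
    have e3 : P2'.map (σ i) = -(Polynomial.X ^ (13 * χ) * (P2.map (σ i)).reflect n) := by
      rw [hP2', Polynomial.map_neg, Polynomial.map_mul, Polynomial.map_pow, Polynomial.map_X,
        Polynomial.reflect_map]
    rw [e1, e2, e3, ha', hb', ← Polynomial.reflect_map, ← Polynomial.reflect_map]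
    exact h1
  have hminl : ∀ i, Minl (a'.map (σ i)) (b'.map (σ i)) 0 := by
    intro i
    have hD : disc (a.map (σ i)) (b.map (σ i)) ≠ 0 := by
      rw [← disc_map_c]; exact (Polynomial.map_ne_zero_iff (σ i).injective).2 hab
    have h1 := minl_infty (χ := χ) hD (by rw [hdeg]; exact ha) (by rw [hdeg]; exact hb)
      (by rw [hdeg, hdeg]; exact hmin)
    rw [ha', hb', ← Polynomial.reflect_map, ← Polynomial.reflect_map]
    exact h1
  have hD' : ∀ i, disc (a'.map (σ i)) (b'.map (σ i)) ≠ 0 := by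
    intro i
    have hD : disc (a.map (σ i)) (b.map (σ i)) ≠ 0 := by
      rw [← disc_map_c]; exact (Polynomial.map_ne_zero_iff (σ i).injective).2 hab
    have h1 := disc_reflect_ne (χ := χ) hD (by rw [hdeg]; exact ha) (by rw [hdeg]; exact hb)
    rw [ha', hb', ← Polynomial.reflect_map, ← Polynomial.reflect_map]
    exact h1
  have hQ'0 : Q' ≠ 0 := by
    rw [hQ']
    refine mul_ne_zero (pow_ne_zero _ Polynomial.X_ne_zero) ?_
    rw [Ne, Polynomial.reflect_eq_zero_iff]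
    exact hQ0
  -- uniform bound
  have hbd : ∀ i, ∃ m₀, ∀ m, m₀ ≤ m → AnalyticAt ℂ (clr m (Z i) 0) 0 ∧
      AnalyticAt ℂ (clr m (W i) 0) 0 := by
    intro i
    obtain ⟨m₁, h1⟩ := exists_clr (hsol i).hz
    obtain ⟨m₂, h2⟩ := exists_clr (hsol i).hw
    exact ⟨max m₁ m₂, fun m hm => ⟨h1 m ((le_max_left _ _).trans hm),
      h2 m ((le_max_right _ _).trans hm)⟩⟩
  choose mm hmm using hbd
  set M : ℕ := Finset.univ.sup mm with hM
  have hMz : ∀ i, AnalyticAt ℂ (clr M (Z i) 0) 0 ∧ AnalyticAt ℂ (clr M (W i) 0) 0 := fun i =>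
    hmm i M (Finset.le_sup (f := mm) (Finset.mem_univ i))
  have hinv : ∀ (i j : ι) (τ : ℂ →+* ℂ), (∀ x, τ (σ i x) = σ j x) →
      (ppart M (Z i) 0).map τ = ppart M (Z j) 0 := by
    intro i j τ hτ
    have hs' : MerSol ((a'.map (σ i)).map τ) ((b'.map (σ i)).map τ) ((Q'.map (σ i)).map τ)
        ((P1'.map (σ i)).map τ) ((P2'.map (σ i)).map τ) (τ 0) (Z j) (W j) := by
      rw [map_tau hτ a', map_tau hτ b', map_tau hτ Q', map_tau hτ P1', map_tau hτ P2', map_zero]
      exact hsol j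
    have h3 := pol_equiv_c τ (hD' i) ((Polynomial.map_ne_zero_iff (σ i).injective).2 hQ'0)
      (hminl i) (hsol i) hs' (hMz i).1 (hMz i).2 (by rw [map_zero]; exact (hMz j).1)
      (by rw [map_zero]; exact (hMz j).2)
    have h4 := ppart_map h3
    rwa [map_zero] at h4
  obtain ⟨P, hP⟩ := descentF σ hinv
  refine ⟨P.reflect M, fun i => ?_⟩
  have hPdeg : (P.map (σ i)).natDegree ≤ M := by
    rw [hP]
    exact ppart_natDegree M (Z i) 0
  obtain ⟨h, hh, hzh⟩ := polar' (hMz i).1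
  refine ⟨h, hh, ?_⟩
  filter_upwards [tendsto_inv_cc.eventually hzh, cc_ne {0}] with s hs hs0
  have hs0' : s ≠ 0 := by simpa using hs0
  rw [← Polynomial.reflect_map, Rfl.reflect hPdeg s hs0', hP, Polynomial.coe_aeval_eq_eval]
  have h5 : Z i s⁻¹ = s ^ χ * (N i).zi s := by
    simp only [hZ, inv_pow, inv_inv]
  rw [← h5, hs, sub_zero]
  congr 1
  rw [inv_pow, div_inv_eq_mul, mul_comm]

/-- adding a rational function keeps the shape of the right side -/
lemma IsMap.add {s : K →+* ℂ} {N : GrothClass (a.map s) (b.map s)} (h : IsMap s N Q P1 P2)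
    (U H : Polynomial K) (hH : H.map s ≠ 0) :
    IsMap s (N.add (U.map s) (H.map s) hH) (Q * H ^ 2) (H ^ 2 * P1 + Q * (12 * disc a b *
      (Polynomial.derivative U * H - U * Polynomial.derivative H) +
      Polynomial.derivative (disc a b) * U * H)) (H ^ 2 * P2 + 6 * Q * a * wrn a b * U * H) := by
  refine ⟨?_, ?_, ?_⟩
  · show N.Q * (H.map s) ^ 2 = _
    rw [h.hQ, Polynomial.map_mul, Polynomial.map_pow]
  · show (H.map s) ^ 2 * N.P₁ + N.Q * (12 * disc (a.map s) (b.map s) *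
      (Polynomial.derivative (U.map s) * H.map s - U.map s * Polynomial.derivative (H.map s)) +
      Polynomial.derivative (disc (a.map s) (b.map s)) * U.map s * H.map s) = _
    rw [h.hQ, h.h1]
    simp only [Polynomial.map_add, Polynomial.map_mul, Polynomial.map_pow, Polynomial.map_sub,
      Polynomial.map_ofNat, disc_map_c, ← Polynomial.derivative_map]
  · show (H.map s) ^ 2 * N.P₂ + 6 * N.Q * a.map s * wrn (a.map s) (b.map s) * U.map s *
      H.map s = _
    rw [h.hQ, h.h2]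
    simp only [Polynomial.map_add, Polynomial.map_mul, Polynomial.map_pow, Polynomial.map_ofNat,
      wrn_map_c]

/-- **normal form for a family** -/
theorem normaliseF [Finite ι] [Nonempty ι] (hab : disc a b ≠ 0) (hQ0 : Q ≠ 0)
    (hmin : ∀ i p, Minl (a.map (σ i)) (b.map (σ i)) p)
    (ha : a.natDegree ≤ 4 * χ) (hb : b.natDegree ≤ 6 * χ)
    (hmini : ¬ (a.natDegree + 4 ≤ 4 * χ ∧ b.natDegree + 6 ≤ 6 * χ))
    (N : ∀ i, GrothClass (a.map (σ i)) (b.map (σ i))) (hN : ∀ i, IsMap (σ i) (N i) Q P1 P2) :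
    ∃ C : Polynomial K, ∀ (mi : ℕ) (R : Polynomial K) (_ : R ≠ 0) (D : ι → Finset ℂ)
      (m : ι → ℂ → ℕ) (_ : ∀ i, R.map (σ i) =
        ∏ q ∈ D i, (Polynomial.X - Polynomial.C q) ^ m i q)
      (_ : ((R * C) %ₘ Polynomial.X ^ χ).natDegree ≤ R.natDegree + mi),
      ∃ U H Q' P1' P2' : Polynomial K, H ≠ 0 ∧
        ∃ N' : ∀ i, GrClass (a.map (σ i)) (b.map (σ i)) χ (D i) (m i) mi,
          (∀ i, (N' i).Q = Q'.map (σ i)) ∧ (∀ i, (N' i).P₁ = P1'.map (σ i)) ∧
          (∀ i, (N' i).P₂ = P2'.map (σ i)) ∧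
          ∀ i p, ∀ᶠ s in 𝓝[≠] p, (N' i).z p s =
            (N i).z p s + rat (U.map (σ i)) (H.map (σ i)) s := by
  obtain ⟨U₁, H₁, hH₁, hint⟩ := interiorF σ hab hQ0 hmin N hN
  have hH₁' : ∀ i, H₁.map (σ i) ≠ 0 := fun i =>
    (Polynomial.map_ne_zero_iff (σ i).injective).2 hH₁
  set N₁ : ∀ i, GrothClass (a.map (σ i)) (b.map (σ i)) := fun i =>
    (N i).add (U₁.map (σ i)) (H₁.map (σ i)) (hH₁' i) with hN₁
  have hN₁m := fun i => (hN i).add U₁ H₁ (hH₁' i)
  obtain ⟨C, hinf⟩ := inftyF σ hab (mul_ne_zero hQ0 (pow_ne_zero 2 hH₁)) ha hb hmini N₁ hN₁m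
  refine ⟨C, fun mi R hR0 D m hR hrem => ?_⟩
  have hR0' : ∀ i, R.map (σ i) ≠ 0 := fun i =>
    (Polynomial.map_ne_zero_iff (σ i).injective).2 hR0
  set V : Polynomial K := -((R * C) /ₘ Polynomial.X ^ χ) with hV
  have hVm : ∀ i, V.map (σ i) = -((R.map (σ i) * C.map (σ i)) /ₘ Polynomial.X ^ χ) := by
    intro i
    rw [hV, Polynomial.map_neg, Polynomial.map_divByMonic _ (Polynomial.monic_X_pow χ),
      Polynomial.map_mul, Polynomial.map_pow, Polynomial.map_X]
  have hmain := fun i => build (N i) (hH₁' i) (hint i) (hinf i) (D := D i) (m := m i) (mi := mi)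
    (hR0' i) (by rw [map_id_c]; exact hR i) (by
      have e1 : (R.map (σ i) * C.map (σ i)) %ₘ Polynomial.X ^ χ =
          ((R * C) %ₘ Polynomial.X ^ χ).map (σ i) := by
        rw [Polynomial.map_modByMonic _ (Polynomial.monic_X_pow χ), Polynomial.map_mul,
          Polynomial.map_pow, Polynomial.map_X]
      rw [e1, Polynomial.natDegree_map_eq_of_injective (σ i).injective,
        Polynomial.natDegree_map_eq_of_injective (σ i).injective]
      exact hrem)
  choose N' h1 h2 h3 h4 using hmain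
  obtain ⟨Q₂, P1₂, P2₂, hN₂m⟩ : ∃ Q₂ P1₂ P2₂ : Polynomial K, ∀ i,
      IsMap (σ i) ((N₁ i).add (V.map (σ i)) (R.map (σ i)) (hR0' i)) Q₂ P1₂ P2₂ :=
    ⟨_, _, _, fun i => (hN₁m i).add V R (hR0' i)⟩
  refine ⟨U₁ * R + V * H₁, H₁ * R, Q₂, P1₂, P2₂, mul_ne_zero hH₁ hR0, N', fun i => ?_, fun i => ?_,
    fun i => ?_, fun i p => ?_⟩
  · rw [h1 i, ← (hN₂m i).hQ]
    simp only [hVm]
    rfl
  · rw [h2 i, ← (hN₂m i).h1]
    simp only [hVm]
    rfl
  · rw [h3 i, ← (hN₂m i).h2]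
    simp only [hVm]
    rfl
  · filter_upwards [h4 i p] with s hs
    rw [hs, Polynomial.map_add, Polynomial.map_mul, Polynomial.map_mul, Polynomial.map_mul, hVm i]

end

end

end Pool.Agent.Helper433.ES
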