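import Pool.Agent.Helper433_ES.NorF2
import Pool.Agent.Helper433_ES.Nor7

/-! From polynomials over `K` to the local data at a place. -/

namespace Pool.Agent.Helper433.ES

open Filter Topology Finset

noncomputable section

section

variable {K : Type*} [Field K] [CharZero K] {π f g a b : Polynomial K} {s : K →+* ℂ} {p : ℂ}

lemma root_dvd (hπ : Irreducible π) (hp : (π.map s).eval p = 0) (hf : (f.map s).eval p = 0) :
    π ∣ f := by
  by_contra hn
  obtain ⟨u, v, h⟩ := (hπ.coprime_iff_not_dvd).2 hn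
  have h1 := congrArg (fun q : Polynomial K => (q.map s).eval p) h
  simp only [Polynomial.map_add, Polynomial.map_mul, Polynomial.eval_add, Polynomial.eval_mul,
    hp, hf, Polynomial.map_one, Polynomial.eval_one] at h1
  norm_num at h1

lemma pow_dvd_map_iff (hπ : Irreducible π) (hp : (π.map s).eval p = 0) (n : ℕ) :
    (Polynomial.X - Polynomial.C p) ^ n ∣ f.map s ↔ π ^ n ∣ f := by
  have hd : (Polynomial.X - Polynomial.C p) ∣ π.map s := Polynomial.dvd_iff_isRoot.2 hp
  constructor
  · intro h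
    induction n with
    | zero => rw [pow_zero]; exact one_dvd _
    | succ n ih =>
      obtain ⟨g, hg⟩ := ih ((pow_dvd_pow _ (Nat.le_succ n)).trans h)
      obtain ⟨q, hq⟩ := hd
      have hpr : Prime (Polynomial.X - Polynomial.C p) := Polynomial.prime_X_sub_C p
      have hqp : ¬ (Polynomial.X - Polynomial.C p) ∣ q := by
        intro hq'
        have hsep : (π.map s).Separable := (hπ.separable).map
        have hsq := hsep.squarefree
        have h2 : (Polynomial.X - Polynomial.C p) * (Polynomial.X - Polynomial.C p) ∣ π.map s := by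
          rw [hq]; exact mul_dvd_mul_left _ hq'
        exact hpr.not_unit (hsq _ h2)
      have h3 : f.map s = (Polynomial.X - Polynomial.C p) ^ n * (q ^ n * g.map s) := by
        rw [hg, Polynomial.map_mul, Polynomial.map_pow, hq, mul_pow]; ring
      rw [h3, pow_succ] at h
      have h4 := (mul_dvd_mul_iff_left (pow_ne_zero n hpr.ne_zero)).1 h
      have h5 : (Polynomial.X - Polynomial.C p) ∣ g.map s := by
        rcases hpr.dvd_or_dvd h4 with h6 | h6
        · exact absurd (hpr.dvd_of_dvd_pow h6) hqp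
        · exact h6
      obtain ⟨c, hc⟩ := root_dvd hπ hp (Polynomial.dvd_iff_isRoot.1 h5)
      exact ⟨c, by rw [hg, hc]; ring⟩
  · intro h
    refine (pow_dvd_pow_of_dvd hd n).trans ?_
    rw [← Polynomial.map_pow]
    exact Polynomial.map_dvd s h

lemma disc_ne_map (hab : disc a b ≠ 0) (s : K →+* ℂ) : disc (a.map s) (b.map s) ≠ 0 := by
  rw [← disc_map_c]; exact (Polynomial.map_ne_zero_iff s.injective).2 hab

lemma eu_le_iff (hab : disc a b ≠ 0) (hπ : Irreducible π) (hp : (π.map s).eval p = 0) (n : ℕ) :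
    n ≤ eu (a.map s) (b.map s) p ↔ π ^ n ∣ disc a b := by
  unfold eu
  rw [map_id_c, Polynomial.le_rootMultiplicity_iff (disc_ne_map hab s), ← disc_map_c,
    pow_dvd_map_iff hπ hp]

lemma Fib.not_star {a b : Polynomial ℂ} (h : Fib a b p) : ¬ Star a b p := by
  intro h'
  obtain ⟨ψ, hψ⟩ := h'.hat_a
  have h1 := h.hat_a
  have h2 : PowerSeries.X ^ 7 ∣ hat p a ^ 3 := (pow_dvd_pow _ h'.2.2.2).trans h1
  rw [hψ, mul_pow, ← pow_mul] at h2
  have h3 : PowerSeries.X ^ 6 * PowerSeries.X ∣ PowerSeries.X ^ 6 * ψ ^ 3 := h2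
  have h4 := (mul_dvd_mul_iff_left (pow_ne_zero _ PowerSeries.X_ne_zero)).1 h3
  have h5 := PowerSeries.X_prime.dvd_of_dvd_pow h4
  apply h'.2.2.1
  rw [← X_pow_dvd_hat, hψ, pow_succ _ 2]
  exact mul_dvd_mul_left _ h5

lemma Gain.adt (hab : disc a b ≠ 0) (hπ : Irreducible π) (hp : (π.map s).eval p = 0) {g : ℕ}
    (h : Gain a b π g) : Adt (a.map s) (b.map s) p ∧ wt (a.map s) (b.map s) p = g := by
  rcases h with ⟨hg, h1, h2, h3, h4⟩ | ⟨e, hg, h12, h1, h2, h3⟩
  · have hS : Star (a.map s) (b.map s) p := by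
      refine ⟨(pow_dvd_map_iff hπ hp 2).2 h1, (pow_dvd_map_iff hπ hp 3).2 h2, fun h => h3 ?_, ?_⟩
      · exact (pow_dvd_map_iff hπ hp 3).1 h
      · exact (eu_le_iff hab hπ hp 7).2 h4
    refine ⟨Or.inl hS, ?_⟩
    unfold wt
    rw [if_pos hS, hg]
  · have he : eu (a.map s) (b.map s) p = e := by
      refine le_antisymm ?_ ?_
      · by_contra hn
        exact h3 ((eu_le_iff hab hπ hp (e + 1)).1 (by omega))
      · rw [eu_le_iff hab hπ hp]
        unfold disc
        exact dvd_add (Dvd.dvd.mul_left h1 _) (Dvd.dvd.mul_left h2 _)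
    have hF : Fib (a.map s) (b.map s) p := by
      refine ⟨?_, ?_, by rw [he]; exact h12⟩
      · rw [map_id_c, he, ← Polynomial.map_pow]
        exact (pow_dvd_map_iff hπ hp e).2 h1
      · rw [map_id_c, he, ← Polynomial.map_pow]
        exact (pow_dvd_map_iff hπ hp e).2 h2
    refine ⟨Or.inr ⟨hF.not_star, hF⟩, ?_⟩
    unfold wt
    rw [if_neg hF.not_star, he, hg]

/-- minimality over `K` gives minimality at each point -/
lemma minl_of (hab : disc a b ≠ 0)
    (hmin : ∀ π : Polynomial K, Irreducible π → ¬ (π ^ 4 ∣ a ∧ π ^ 6 ∣ b)) (s : K →+* ℂ) (p : ℂ) :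
    Minl (a.map s) (b.map s) p := by
  unfold Minl
  rw [map_id_c, map_id_c]
  rintro ⟨h1, h2⟩
  let _ : Algebra K ℂ := s.toAlgebra
  have ha : (a.map s).eval p = 0 :=
    Polynomial.dvd_iff_isRoot.1 ((dvd_pow_self _ (by norm_num)).trans h1)
  have hb : (b.map s).eval p = 0 :=
    Polynomial.dvd_iff_isRoot.1 ((dvd_pow_self _ (by norm_num)).trans h2)
  have halg : IsAlgebraic K p := by
    refine ⟨disc a b, hab, ?_⟩
    have : Polynomial.aeval p (disc a b) = ((disc a b).map s).eval p := by
      rw [Polynomial.eval_map]; rfl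
    rw [this, disc_map_c]
    unfold disc
    simp only [Polynomial.eval_add, Polynomial.eval_mul, Polynomial.eval_pow, ha, hb]
    simp
  have hirr : Irreducible (minpoly K p) := minpoly.irreducible halg.isIntegral
  have hroot : ((minpoly K p).map s).eval p = 0 := by
    have := minpoly.aeval K p
    rw [Polynomial.eval_map]
    exact this
  exact hmin _ hirr ⟨(pow_dvd_map_iff hirr hroot 4).1 h1, (pow_dvd_map_iff hirr hroot 6).1 h2⟩

end

end

end Pool.Agent.Helper433.ES
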