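import Pool.Agent.Helper433_ES.NorF3
import Pool.Agent.Helper433_ES.GlobF

/-! The divisor of poles and the criterion at a place. -/

namespace Pool.Agent.Helper433.ES

open Filter Topology Finset

noncomputable section

open Classical in
/-- weight of an additive point -/
def om (a b : Polynomial ℂ) (p : ℂ) : ℕ := if Star a b p then 6 else eu a b p

section

variable {a b : Polynomial ℂ} {p : ℂ}

lemma Adt.om_a (h : Adt a b p) : (Polynomial.X - Polynomial.C p) ^ om a b p ∣ a ^ 3 := by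
  unfold om
  rcases h with h | ⟨h0, h⟩
  · rw [if_pos h]
    have := pow_dvd_pow_of_dvd h.1 3
    rwa [← pow_mul] at this
  · rw [if_neg h0]
    have := h.ha
    rwa [map_id_c] at this

lemma Adt.om_b (h : Adt a b p) : (Polynomial.X - Polynomial.C p) ^ om a b p ∣ b ^ 2 := by
  unfold om
  rcases h with h | ⟨h0, h⟩
  · rw [if_pos h]
    have := pow_dvd_pow_of_dvd h.2.1 2
    rwa [← pow_mul] at this
  · rw [if_neg h0]
    have := h.hb
    rwa [map_id_c] at this

lemma Adt.wt_le (h : Adt a b p) : wt a b p ≤ 2 * om a b p ∧ wt a b p ≤ 12 := by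
  unfold wt om
  rcases h with h | ⟨h0, h⟩
  · rw [if_pos h, if_pos h]; norm_num
  · rw [if_neg h0, if_neg h0]
    have hg1 : Nat.gcd 12 (eu a b p) ≤ eu a b p :=
      Nat.le_of_dvd h.eu_pos (Nat.gcd_dvd_right _ _)
    have hg2 : Nat.gcd 12 (eu a b p) ≤ 12 := Nat.le_of_dvd (by norm_num) (Nat.gcd_dvd_left _ _)
    omega

lemma Adt.root (h : Adt a b p) : (disc a b).eval p = 0 := by
  have h2 := h.zero_a
  have h3 := h.zero_b
  rw [Polynomial.coe_aeval_eq_eval] at h2 h3
  unfold disc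
  simp only [Polynomial.eval_add, Polynomial.eval_mul, Polynomial.eval_pow, h2, h3]
  simp

/-- adding the divisor of `R₁` to the poles -/
lemma transfer {Rc R₁c : Polynomial ℂ} {D : Finset ℂ} {m : ℂ → ℕ} (hab : disc a b ≠ 0)
    (hR : Rc = ∏ q ∈ D, (Polynomial.X - Polynomial.C q) ^ m q) (hm0 : ∀ q ∈ D, m q ≠ 0)
    (hR₁ : R₁c.Monic) {ω : ℂ → ℕ} {ωi mi : ℕ}
    (hω : ∀ q ∈ D, (Polynomial.X - Polynomial.C q) ^ ω q ∣ a ^ 3 ∧
      (Polynomial.X - Polynomial.C q) ^ ω q ∣ b ^ 2)
    {I : Finset ℂ} (hI : ∀ p ∈ I, p ∉ D ∧ Adt a b p) {d₁ : ℕ} (hd : R₁c.natDegree ≤ d₁)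
    (hcrit : (∑ q ∈ D, 2 * (12 * m q - ω q)) + 2 * (12 * mi - ωi) + 24 * d₁ <
      ∑ p ∈ I, wt a b p) :
    ∃ (D' : Finset ℂ) (m' ω' : ℂ → ℕ) (I' : Finset ℂ),
      Rc * R₁c = ∏ q ∈ D', (Polynomial.X - Polynomial.C q) ^ m' q ∧
      (∀ q ∈ D', (Polynomial.X - Polynomial.C q) ^ ω' q ∣ a ^ 3 ∧
        (Polynomial.X - Polynomial.C q) ^ ω' q ∣ b ^ 2) ∧
      (∀ p, p ∈ I' ↔ (Rc * R₁c).eval p ≠ 0 ∧ Adt a b p) ∧ (∀ p ∈ I', p ∉ D') ∧
      (∑ q ∈ D', 2 * (12 * m' q - ω' q)) + 2 * (12 * (mi + (d₁ - R₁c.natDegree)) - ωi) <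
        ∑ p ∈ I', wt a b p := by
  classical
  have hR₁c0 : R₁c ≠ 0 := hR₁.ne_zero
  set S₁ := R₁c.roots.toFinset with hS₁
  set r : ℂ → ℕ := fun q => R₁c.rootMultiplicity q with hr
  have hrS : ∀ q, q ∈ S₁ ↔ 0 < r q := by
    intro q
    rw [hS₁, Multiset.mem_toFinset, Polynomial.mem_roots hR₁c0, hr,
      Polynomial.rootMultiplicity_pos hR₁c0]
  have hR₁prod : R₁c = ∏ q ∈ S₁, (Polynomial.X - Polynomial.C q) ^ r q := by
    have := poly_roots (K := ℂ) hR₁
    rwa [map_id_c] at this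
  -- the combined divisor
  set D' := D ∪ S₁ with hD'
  set m' : ℂ → ℕ := fun q => (if q ∈ D then m q else 0) + r q with hm'
  have hR' : Rc * R₁c = ∏ q ∈ D', (Polynomial.X - Polynomial.C q) ^ m' q := by
    rw [hR]
    conv_lhs => rw [hR₁prod]
    have e1 : (∏ q ∈ D, (Polynomial.X - Polynomial.C q) ^ m q : Polynomial ℂ) =
        ∏ q ∈ D', (Polynomial.X - Polynomial.C q) ^ (if q ∈ D then m q else 0) := by
      rw [← Finset.prod_subset (Finset.subset_union_left : D ⊆ D')]
      · exact Finset.prod_congr rfl fun q hq => by rw [if_pos hq]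
      · intro q _ hq
        rw [if_neg hq, pow_zero]
    have e2 : (∏ q ∈ S₁, (Polynomial.X - Polynomial.C q) ^ r q : Polynomial ℂ) =
        ∏ q ∈ D', (Polynomial.X - Polynomial.C q) ^ r q := by
      refine Finset.prod_subset (Finset.subset_union_right : S₁ ⊆ D') ?_
      intro q _ hq
      have h0 : r q = 0 := by
        by_contra h
        exact hq ((hrS q).2 (Nat.pos_of_ne_zero h))
      rw [h0, pow_zero]
    rw [e1, e2, ← Finset.prod_mul_distrib]
    refine Finset.prod_congr rfl fun q _ => ?_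
    rw [← pow_add]
  have hsumr : ∑ q ∈ D', r q = R₁c.natDegree := by
    have h1 := (R_facts (K := ℂ) (R := R₁c) (D := S₁) (m := r)
      (by rw [map_id_c]; exact hR₁prod)).2.1
    rw [h1]
    refine (Finset.sum_subset (Finset.subset_union_right : S₁ ⊆ D') ?_).symm
    intro q _ hq
    by_contra h
    exact hq ((hrS q).2 (Nat.pos_of_ne_zero h))
  have hDmem : ∀ p, p ∈ D' ↔ (Rc * R₁c).eval p = 0 := by
    intro p
    constructor
    · intro hp
      have hmp : m' p ≠ 0 := by
        simp only [hm']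
        rcases Finset.mem_union.1 hp with h | h
        · rw [if_pos h]
          have := hm0 p h
          omega
        · have := (hrS p).1 h
          omega
      rw [hR', Polynomial.eval_prod]
      refine Finset.prod_eq_zero hp ?_
      rw [Polynomial.eval_pow, Polynomial.eval_sub, Polynomial.eval_X, Polynomial.eval_C,
        sub_self, zero_pow hmp]
    · intro h0
      by_contra hp
      rw [hR'] at h0
      exact prod_ne hp h0
  set I₁ : Finset ℂ := (disc a b).roots.toFinset.filter (fun p => p ∉ D ∧ Adt a b p) with hI₁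
  have hI₁mem : ∀ p, p ∈ I₁ ↔ p ∉ D ∧ Adt a b p := by
    intro p
    rw [hI₁, Finset.mem_filter, Multiset.mem_toFinset, Polynomial.mem_roots hab]
    constructor
    · exact fun h => h.2
    · exact fun h => ⟨h.2.root, h⟩
  have hII₁ : I ⊆ I₁ := fun p hp => (hI₁mem p).2 (hI p hp)
  have hsumI : ∑ p ∈ I, wt a b p ≤ ∑ p ∈ I₁, wt a b p := Finset.sum_le_sum_of_subset hII₁
  set I' := I₁ \ D' with hI'
  have hI'mem : ∀ p, p ∈ I' ↔ (Rc * R₁c).eval p ≠ 0 ∧ Adt a b p := by
    intro p
    rw [hI', Finset.mem_sdiff, hI₁mem, hDmem]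
    constructor
    · exact fun h => ⟨h.2, h.1.2⟩
    · refine fun h => ⟨⟨fun hp => h.1 ?_, h.2⟩, h.1⟩
      exact (hDmem p).1 (Finset.mem_union_left _ hp)
  -- weights
  set ω' : ℂ → ℕ := fun q => if q ∈ D then ω q else if q ∈ I₁ then om a b q else 0 with hω'def
  have hω' : ∀ q ∈ D', (Polynomial.X - Polynomial.C q) ^ ω' q ∣ a ^ 3 ∧
      (Polynomial.X - Polynomial.C q) ^ ω' q ∣ b ^ 2 := by
    intro q _
    by_cases h1 : q ∈ D
    · simp only [hω'def, if_pos h1]
      exact hω q h1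
    · by_cases h2 : q ∈ I₁
      · simp only [hω'def, if_neg h1, if_pos h2]
        exact ⟨((hI₁mem q).1 h2).2.om_a, ((hI₁mem q).1 h2).2.om_b⟩
      · simp only [hω'def, if_neg h1, if_neg h2, pow_zero]
        exact ⟨one_dvd _, one_dvd _⟩
  -- the criterion
  have hpt : ∀ q ∈ D', 2 * (12 * m' q - ω' q) + (if q ∈ I₁ then wt a b q else 0) ≤
      (if q ∈ D then 2 * (12 * m q - ω q) else 0) + 24 * r q := by
    intro q hq
    by_cases h1 : q ∈ D
    · have h2 : q ∉ I₁ := fun h => ((hI₁mem q).1 h).1 h1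
      simp only [hm', hω'def, if_pos h1, if_neg h2]
      omega
    · have hrq : 0 < r q := by
        rcases Finset.mem_union.1 hq with h | h
        · exact absurd h h1
        · exact (hrS q).1 h
      by_cases h2 : q ∈ I₁
      · obtain ⟨hg1, hg2⟩ := ((hI₁mem q).1 h2).2.wt_le
        simp only [hm', hω'def, if_neg h1, if_pos h2]
        omega
      · simp only [hm', hω'def, if_neg h1, if_neg h2]
        omega
  have hsum := Finset.sum_le_sum hpt
  rw [Finset.sum_add_distrib, Finset.sum_add_distrib, ← Finset.mul_sum _ r, hsumr] at hsum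
  have hs1 : ∑ q ∈ D', (if q ∈ I₁ then wt a b q else 0) = ∑ q ∈ D' ∩ I₁, wt a b q := by
    rw [← Finset.sum_ite_mem]
  have hs2 : ∑ q ∈ D', (if q ∈ D then 2 * (12 * m q - ω q) else 0) =
      ∑ q ∈ D, 2 * (12 * m q - ω q) := by
    rw [Finset.sum_ite_mem, Finset.inter_eq_right.2 (Finset.subset_union_left : D ⊆ D')]
  have hs3 : ∑ q ∈ I₁, wt a b q = ∑ q ∈ I', wt a b q + ∑ q ∈ D' ∩ I₁, wt a b q := by
    rw [hI', Finset.inter_comm, ← Finset.sum_sdiff (Finset.inter_subset_left : I₁ ∩ D' ⊆ I₁),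
      Finset.sdiff_inter_self_left]
  have hcrit' : (∑ q ∈ D', 2 * (12 * m' q - ω' q)) +
      2 * (12 * (mi + (d₁ - R₁c.natDegree)) - ωi) < ∑ p ∈ I', wt a b p := by
    rw [hs1, hs2] at hsum
    omega
  exact ⟨D', m', ω', I', hR', hω', hI'mem, fun p hp => (Finset.mem_sdiff.1 hp).2, hcrit'⟩

end

section

variable {K : Type*} [Field K] [CharZero K] {a b : Polynomial K}

/-- the data over `K` at a place -/
lemma place_data (hab : disc a b ≠ 0) {R T : Polynomial K} (hR : R.Monic) (hT : T ∣ R ^ 12)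
    (hTa : T ∣ a ^ 3) (hTb : T ∣ b ^ 2) {I : Finset (Polynomial K)} {g : Polynomial K → ℕ}
    (hI : ∀ π ∈ I, π.Monic ∧ Irreducible π ∧ ¬ π ∣ R ∧ Gain a b π (g π)) (s : K →+* ℂ) :
    ∃ (D : Finset ℂ) (m ω : ℂ → ℕ) (J : Finset ℂ),
      R.map s = ∏ q ∈ D, (Polynomial.X - Polynomial.C q) ^ m q ∧ (∀ q ∈ D, m q ≠ 0) ∧
      (∀ q ∈ D, (Polynomial.X - Polynomial.C q) ^ ω q ∣ (a.map s) ^ 3 ∧
        (Polynomial.X - Polynomial.C q) ^ ω q ∣ (b.map s) ^ 2) ∧
      (∀ p ∈ J, p ∉ D ∧ Adt (a.map s) (b.map s) p) ∧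
      ∑ q ∈ D, 2 * (12 * m q - ω q) = 2 * (12 * R.natDegree - T.natDegree) ∧
      ∑ p ∈ J, wt (a.map s) (b.map s) p = ∑ π ∈ I, π.natDegree * g π := by
  classical
  have hT0 : T ≠ 0 := by
    rintro rfl
    exact pow_ne_zero 12 hR.ne_zero (zero_dvd_iff.1 hT)
  set Rc := R.map s with hRc
  set Tc := T.map s with hTc
  have hRc0 : Rc ≠ 0 := (hR.map s).ne_zero
  have hTc0 : Tc ≠ 0 := (Polynomial.map_ne_zero_iff s.injective).2 hT0
  set D := Rc.roots.toFinset with hD
  have hDmem : ∀ q, q ∈ D ↔ Rc.eval q = 0 := by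
    intro q
    rw [hD, Multiset.mem_toFinset, Polynomial.mem_roots hRc0, Polynomial.IsRoot]
  set J := I.biUnion (fun π => (π.map s).roots.toFinset) with hJ
  have hJmem : ∀ p, p ∈ J ↔ ∃ π ∈ I, (π.map s).eval p = 0 := by
    intro p
    rw [hJ, Finset.mem_biUnion]
    constructor
    · rintro ⟨π, hπ, hp⟩
      refine ⟨π, hπ, ?_⟩
      rw [Multiset.mem_toFinset, Polynomial.mem_roots ((hI π hπ).1.map s).ne_zero] at hp
      exact hp
    · rintro ⟨π, hπ, hp⟩
      refine ⟨π, hπ, ?_⟩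
      rw [Multiset.mem_toFinset, Polynomial.mem_roots ((hI π hπ).1.map s).ne_zero]
      exact hp
  refine ⟨D, fun q => Rc.rootMultiplicity q, fun q => Tc.rootMultiplicity q, J, ?_, ?_, ?_, ?_,
    ?_, ?_⟩
  · have := poly_roots (K := ℂ) (hR.map s)
    rwa [map_id_c] at this
  · intro q hq
    exact ((Polynomial.rootMultiplicity_pos hRc0).2 ((hDmem q).1 hq)).ne'
  · intro q _
    have h1 : (Polynomial.X - Polynomial.C q) ^ Tc.rootMultiplicity q ∣ Tc :=
      Polynomial.pow_rootMultiplicity_dvd _ _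
    refine ⟨h1.trans ?_, h1.trans ?_⟩
    · rw [hTc, ← Polynomial.map_pow]; exact Polynomial.map_dvd s hTa
    · rw [hTc, ← Polynomial.map_pow]; exact Polynomial.map_dvd s hTb
  · intro p hp
    obtain ⟨π, hπ, hpπ⟩ := (hJmem p).1 hp
    obtain ⟨h1, h2, h3, h4⟩ := hI π hπ
    refine ⟨fun hpD => h3 ?_, (h4.adt hab h2 hpπ).1⟩
    exact root_dvd h2 hpπ ((hDmem p).1 hpD)
  · -- the cost
    have hle : ∀ q, Tc.rootMultiplicity q ≤ 12 * Rc.rootMultiplicity q := by
      intro q
      have h1 : Tc ∣ Rc ^ 12 := by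
        rw [hTc, hRc, ← Polynomial.map_pow]; exact Polynomial.map_dvd s hT
      have h2 : (Polynomial.X - Polynomial.C q) ^ Tc.rootMultiplicity q ∣ Rc ^ 12 :=
        (Polynomial.pow_rootMultiplicity_dvd _ _).trans h1
      have h3 := (Polynomial.le_rootMultiplicity_iff (pow_ne_zero 12 hRc0)).2 h2
      rwa [← Polynomial.count_roots (Rc ^ 12), Polynomial.roots_pow, Multiset.count_nsmul,
        Polynomial.count_roots] at h3
    have hsumR : ∑ q ∈ D, Rc.rootMultiplicity q = R.natDegree := by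
      have h1 := (R_facts (K := ℂ) (R := Rc) (D := D) (m := fun q => Rc.rootMultiplicity q)
        (by rw [map_id_c]
            have := poly_roots (K := ℂ) (hR.map s)
            rwa [map_id_c] at this)).2.1
      rw [← h1, hRc, Polynomial.natDegree_map_eq_of_injective s.injective]
    have hsumT : ∑ q ∈ D, Tc.rootMultiplicity q = T.natDegree := by
      have h1 : Multiset.card Tc.roots = T.natDegree := by
        rw [← (IsAlgClosed.splits Tc).natDegree_eq_card_roots, hTc,
          Polynomial.natDegree_map_eq_of_injective s.injective]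
      rw [← h1]
      have h2 : Tc.roots.toFinset ⊆ D := by
        intro q hq
        rw [Multiset.mem_toFinset, Polynomial.mem_roots hTc0] at hq
        have h3 : 0 < Tc.rootMultiplicity q := (Polynomial.rootMultiplicity_pos hTc0).2 hq
        have h4 := hle q
        rw [hDmem]
        exact (Polynomial.rootMultiplicity_pos hRc0).1 (by omega)
      have h5 := Multiset.toFinset_sum_count_eq Tc.roots
      rw [← h5]
      simp only [Polynomial.count_roots]
      refine (Finset.sum_subset h2 ?_).symm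
      intro q _ hq
      rw [Multiset.mem_toFinset, Polynomial.mem_roots hTc0] at hq
      exact Polynomial.rootMultiplicity_eq_zero hq
    have h1 : ∑ q ∈ D, 2 * (12 * Rc.rootMultiplicity q - Tc.rootMultiplicity q) +
        2 * ∑ q ∈ D, Tc.rootMultiplicity q = 24 * ∑ q ∈ D, Rc.rootMultiplicity q := by
      rw [Finset.mul_sum, Finset.mul_sum, ← Finset.sum_add_distrib]
      refine Finset.sum_congr rfl fun q _ => ?_
      have := hle q
      omega
    rw [hsumR, hsumT] at h1
    show ∑ q ∈ D, 2 * (12 * Rc.rootMultiplicity q - Tc.rootMultiplicity q) = _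
    omega
  · -- the gain
    rw [hJ, Finset.sum_biUnion]
    · refine Finset.sum_congr rfl fun π hπ => ?_
      obtain ⟨h1, h2, h3, h4⟩ := hI π hπ
      have h5 : ∀ p ∈ (π.map s).roots.toFinset, wt (a.map s) (b.map s) p = g π := by
        intro p hp
        rw [Multiset.mem_toFinset, Polynomial.mem_roots (h1.map s).ne_zero] at hp
        exact (h4.adt hab h2 hp).2
      rw [Finset.sum_congr rfl h5, Finset.sum_const, smul_eq_mul]
      congr 1
      have h6 : (π.map s).roots.Nodup := Polynomial.nodup_roots (h2.separable.map)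
      rw [Multiset.toFinset_card_of_nodup h6,
        ← (IsAlgClosed.splits (π.map s)).natDegree_eq_card_roots,
        Polynomial.natDegree_map_eq_of_injective s.injective]
    · intro π hπ π' hπ' hne
      rw [Function.onFun, Finset.disjoint_left]
      intro p hp hp'
      apply hne
      have hπI := hI π (Finset.mem_coe.1 hπ)
      have hπI' := hI π' (Finset.mem_coe.1 hπ')
      rw [Multiset.mem_toFinset, Polynomial.mem_roots (hπI.1.map s).ne_zero] at hp
      rw [Multiset.mem_toFinset, Polynomial.mem_roots (hπI'.1.map s).ne_zero] at hp'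
      have h1 := root_dvd hπI.2.1 hp hp'
      have h2 := root_dvd hπI'.2.1 hp' hp
      exact Polynomial.eq_of_monic_of_dvd_of_natDegree_le hπI.1 hπI'.1 h1
        (Polynomial.natDegree_le_of_dvd h2 hπI.1.ne_zero) |>.symm

end

end

end Pool.Agent.Helper433.ES
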