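import Pool.Agent.Helper433_ES.NorF4

/-! The theorem for classes over an arbitrary number field, Grothendieck at every place. -/

namespace Pool.Agent.Helper433.ES

open Filter Topology Finset

noncomputable section

/-- the older form of the data -/
def GClass.toG {a b Q P₁ P₂ : Polynomial ℂ} (N : GClass a b Q P₁ P₂) (hQ : Q ≠ 0) :
    GrothClass a b where
  ν := N.ν
  z := N.z
  w := N.w
  zi := N.zi
  wi := N.wi
  Q := Q
  P₁ := P₁
  P₂ := P₂
  Q_ne := hQ
  z_mero := N.z_mero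
  w_mero := N.w_mero
  zi_mero := N.zi_mero
  wi_mero := N.wi_mero
  period p := by
    filter_upwards [N.period p] with s hs
    rwa [Polynomial.coe_aeval_eq_eval]
  period_infty := by
    filter_upwards [N.period_infty] with s hs
    rwa [Polynomial.coe_aeval_eq_eval]
  gm := N.gm
  gm_infty := N.gm_infty

section

variable {K : Type*} [Field K] [NumberField K] {ι : Type*} {σ : ι → K →+* ℂ}
  {a b Q P₁ P₂ R T : Polynomial K} {χ mi ωi : ℕ}

theorem main3 [Finite ι] [Nonempty ι]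
    (hσ : ∀ τ : K →+* ℂ, ∃ i, τ = σ i ∨ τ = (starRingEnd ℂ).comp (σ i))
    (hab : disc a b ≠ 0) (hmin : ∀ π : Polynomial K, Irreducible π → ¬ (π ^ 4 ∣ a ∧ π ^ 6 ∣ b))
    (ha : a.natDegree ≤ 4 * χ) (hb : b.natDegree ≤ 6 * χ)
    (hmini : ¬ (a.natDegree + 4 ≤ 4 * χ ∧ b.natDegree + 6 ≤ 6 * χ))
    (hR : R.Monic) (hT : T ∣ R ^ 12) (hTa : T ∣ a ^ 3) (hTb : T ∣ b ^ 2)
    (hωi : 3 * a.natDegree + ωi ≤ 12 * χ ∧ 2 * b.natDegree + ωi ≤ 12 * χ)
    {I : Finset (Polynomial K)} {g : Polynomial K → ℕ}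
    (hI : ∀ π ∈ I, π.Monic ∧ Irreducible π ∧ ¬ π ∣ R ∧ Gain a b π (g π))
    (hcrit : 2 * (12 * R.natDegree - T.natDegree) + 2 * (12 * mi - ωi) +
      24 * ((χ - (R.natDegree + mi)) / 2) < ∑ π ∈ I, π.natDegree * g π)
    (hQ : Q ≠ 0)
    (N : ∀ i, GClass (a.map (σ i)) (b.map (σ i)) (Q.map (σ i)) (P₁.map (σ i)) (P₂.map (σ i))) :
    ∃ U H : Polynomial K, H ≠ 0 ∧ ∀ i,
    ((∀ p, ∀ᶠ s in 𝓝[≠] p, IsPeriod ((a.map (σ i)).eval s) ((b.map (σ i)).eval s)
      ((N i).z p s + (U.map (σ i)).eval s / (H.map (σ i)).eval s)) ∨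
    ∃ x y : RatFunc ℂ,
      y ^ 2 = x ^ 3 + algebraMap (Polynomial ℂ) (RatFunc ℂ) (a.map (σ i)) * x +
        algebraMap (Polynomial ℂ) (RatFunc ℂ) (b.map (σ i)) ∧
      ∀ p, ∀ᶠ s in 𝓝[≠] p, ∀ L : PeriodPair,
        L.g₂ = -4 * (a.map (σ i)).eval s → L.g₃ = -4 * (b.map (σ i)).eval s →
        (N i).z p s + (U.map (σ i)).eval s / (H.map (σ i)).eval s ∉ L.lattice ∧
          L.weierstrassP ((N i).z p s + (U.map (σ i)).eval s / (H.map (σ i)).eval s) =
            RatFunc.eval (RingHom.id ℂ) s x ∧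
          L.derivWeierstrassP ((N i).z p s + (U.map (σ i)).eval s / (H.map (σ i)).eval s) =
            2 * RatFunc.eval (RingHom.id ℂ) s y) := by
  classical
  have hQ' : ∀ i, Q.map (σ i) ≠ 0 := fun i =>
    (Polynomial.map_ne_zero_iff (σ i).injective).2 hQ
  have hdeg : ∀ (i : ι) (f : Polynomial K), (f.map (σ i)).natDegree = f.natDegree := fun i f =>
    Polynomial.natDegree_map_eq_of_injective (σ i).injective f
  -- the normal form
  obtain ⟨C, hC⟩ := normaliseF σ (Q := Q) (P1 := P₁) (P2 := P₂) hab hQ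
    (fun i p => minl_of hab hmin (σ i) p) ha hb hmini (fun i => (N i).toG (hQ' i))
    (fun i => ⟨rfl, rfl, rfl⟩)
  set d₀ := R.natDegree + mi with hd₀
  set d₁ := (χ - d₀) / 2 with hd₁
  obtain ⟨R₁, hR₁, hR₁d, hR₁c⟩ := exists_R1 R C (χ := χ) (n := d₀ + d₁) (d := d₁) (by omega)
  -- local data at the places
  have hpl := fun i => place_data hab hR hT hTa hTb hI (σ i)
  choose D m ω J hRD hm0 hω hJ hcost hgain using hpl
  have htr := fun i => transfer (disc_ne_map hab (σ i)) (hRD i) (hm0 i) (hR₁.map (σ i)) (hω i)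
    (hJ i) (d₁ := d₁) (mi := mi) (ωi := ωi) (by rw [hdeg]; exact hR₁d)
    (by rw [hcost i, hgain i]; exact hcrit)
  choose D' m' ω' I' hRD' hω' hI'mem hI'D hcrit' using htr
  have hRR₁0 : R * R₁ ≠ 0 := mul_ne_zero hR.ne_zero hR₁.ne_zero
  have hRR₁deg : (R * R₁).natDegree = R.natDegree + R₁.natDegree :=
    Polynomial.natDegree_mul hR.ne_zero hR₁.ne_zero
  obtain ⟨U, H, Q₂, P1₂, P2₂, hH, N', hNQ, hN1, hN2, hN'⟩ := hC (mi + (d₁ - R₁.natDegree))
    (R * R₁) hRR₁0 D' m' (fun i => by rw [Polynomial.map_mul]; exact hRD' i) (by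
      refine rem_deg fun j hj1 hj2 => hR₁c j ?_ hj2
      rw [hRR₁deg] at hj1
      omega)
  have halg : ∀ (f : Polynomial K) (i : ι) (n : ℕ), IsAlgebraic ℚ ((f.map (σ i)).coeff n) := by
    intro f i n
    rw [Polynomial.coeff_map]
    have h1 : IsAlgebraic ℚ (f.coeff n) := Algebra.IsAlgebraic.isAlgebraic _
    exact h1.algHom (RingHom.toRatAlgHom (σ i))
  have hTrn : Trn (fun i => a.map (σ i)) (fun i => b.map (σ i)) (fun i => Q₂.map (σ i))
      (fun i => P1₂.map (σ i)) (fun i => P2₂.map (σ i)) I' := by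
    have key : ∀ (τ : ℂ →+* ℂ) (i j : ι), (∀ x, τ (σ i x) = σ j x) →
        (a.map (σ i)).map τ = a.map (σ j) ∧ (b.map (σ i)).map τ = b.map (σ j) ∧
        (Q₂.map (σ i)).map τ = Q₂.map (σ j) ∧ (P1₂.map (σ i)).map τ = P1₂.map (σ j) ∧
        (P2₂.map (σ i)).map τ = P2₂.map (σ j) ∧ ∀ p ∈ I' i, τ p ∈ I' j := by
      intro τ i j hτ
      refine ⟨map_tau hτ a, map_tau hτ b, map_tau hτ Q₂, map_tau hτ P1₂, map_tau hτ P2₂, ?_⟩
      intro p hp
      rw [hI'mem] at hp ⊢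
      refine ⟨?_, ?_⟩
      · rw [← map_tau hτ R, ← map_tau hτ R₁, ← Polynomial.map_mul, Polynomial.eval_map,
          Polynomial.eval₂_at_apply]
        exact (map_ne_zero τ).2 hp.1
      · rw [← map_tau hτ a, ← map_tau hτ b, Adt_c]
        exact hp.2
    intro τ i
    obtain ⟨j, hj⟩ := hσ (τ.comp (σ i))
    rcases hj with hj | hj
    · exact ⟨j, τ, fun x => rfl, key τ i j fun x => by rw [← hj]; rfl⟩
    · refine ⟨j, (starRingEnd ℂ).comp τ, fun x => ?_, key _ i j fun x => ?_⟩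
      · exact RCLike.norm_conj (τ x)
      · have h1 := congrArg (fun f : K →+* ℂ => (starRingEnd ℂ) (f x)) hj
        simp only [RingHom.comp_apply, Complex.conj_conj] at h1
        exact h1
  refine ⟨U, H, hH, fun i => ?_⟩
  obtain ⟨⟨p₀, hp₀I, hp₀, hA₀⟩, A₀, B₀, hB₀, hrel⟩ := rational_family (fun i => a.map (σ i))
    (fun i => b.map (σ i)) (fun i => Q₂.map (σ i)) (fun i => P1₂.map (σ i))
    (fun i => P2₂.map (σ i)) (χ := χ) (mi := mi + (d₁ - R₁.natDegree)) (ωi := ωi) D' I' m' ω'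
    (halg a) (halg b) (halg Q₂) (halg P1₂) (halg P2₂) (fun i => disc_ne_map hab (σ i)) hω'
    (fun i => by rw [hdeg, hdeg]; exact hωi)
    (fun i p hp => ⟨hI'D i p hp, ((hI'mem i p).1 hp).2⟩)
    (fun i => by
      have := hcrit' i
      rwa [hdeg] at this) N' hNQ hN1 hN2 hTrn i
  have hfin := main_fin (N' i) (disc_ne_map hab (σ i)) hp₀ hA₀.zer hB₀ hrel
  rcases hfin with hz | ⟨x, y, hxy, hsec⟩
  · left
    intro p
    filter_upwards [hz p, hN' i p] with s h1 h2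
    rw [h2] at h1
    unfold rat at h1
    simp only [Polynomial.coe_aeval_eq_eval] at h1
    exact h1
  · right
    refine ⟨x, y, by rw [map_id_c, map_id_c] at hxy; exact hxy, fun p => ?_⟩
    filter_upwards [hsec p, hN' i p] with s h1 h2
    rw [h2] at h1
    unfold rat at h1
    simp only [Polynomial.coe_aeval_eq_eval] at h1
    exact h1

end

end

end Pool.Agent.Helper433.ES
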