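import Pool.Agent.Helper433_ES.Geo

/-! The recursion for solutions of a regular singular system. -/

namespace Pool.Agent.Helper433.ES

open PowerSeries Filter Topology Finset

noncomputable section

lemma geo_common {ι : Type*} [Fintype ι] (φ : ι → ℂ⟦X⟧) (h : ∀ i, Geo (φ i)) :
    ∃ M : ℕ, 0 < M ∧ ∀ i n, IsIntegral ℤ ((M : ℂ) ^ (n + 1) * coeff n (φ i)) := by
  classical
  choose M hM h using h
  refine ⟨∏ i, M i, Finset.prod_pos fun i _ => hM i, fun i n => ?_⟩
  rw [← Finset.mul_prod_erase Finset.univ M (Finset.mem_univ i)]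
  exact geo_scale (h i) _ n

lemma coeff_X_mul_deriv (φ : ℂ⟦X⟧) (n : ℕ) :
    coeff n (PowerSeries.X * d⁄dX ℂ φ) = n * coeff n φ := by
  rcases n with _ | n
  · simp
  · rw [PowerSeries.coeff_succ_X_mul, PowerSeries.coeff_derivative]; push_cast; ring

section

variable {ι : Type*} [Fintype ι] {k : ℕ} {Y Γ : ι → ℂ⟦X⟧} {N : ι → ι → ℂ⟦X⟧}

lemma rec_zero (hrec : ∀ i, PowerSeries.X * d⁄dX ℂ (Y i) =
      (k : ℂ⟦X⟧) * Y i + PowerSeries.X * ∑ j, N i j * Y j + Γ i) (i : ι) :
    ((0 : ℕ) : ℂ) * coeff 0 (Y i) - k * coeff 0 (Y i) = coeff 0 (Γ i) := by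
  have h1 := congrArg (coeff 0) (hrec i)
  rw [coeff_X_mul_deriv, map_add, map_add, PowerSeries.coeff_zero_X_mul] at h1
  have h2 : coeff 0 ((k : ℂ⟦X⟧) * Y i) = k * coeff 0 (Y i) := by
    rw [← map_natCast (PowerSeries.C (R := ℂ)), PowerSeries.coeff_C_mul]
  rw [h2] at h1
  linear_combination h1

lemma rec_succ (hrec : ∀ i, PowerSeries.X * d⁄dX ℂ (Y i) =
      (k : ℂ⟦X⟧) * Y i + PowerSeries.X * ∑ j, N i j * Y j + Γ i) (i : ι) (n : ℕ) :
    ((n + 1 : ℕ) : ℂ) * coeff (n + 1) (Y i) - k * coeff (n + 1) (Y i) =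
      (∑ j, ∑ p ∈ antidiagonal n, coeff p.1 (N i j) * coeff p.2 (Y j)) + coeff (n + 1) (Γ i) := by
  have h1 := congrArg (coeff (n + 1)) (hrec i)
  rw [coeff_X_mul_deriv, map_add, map_add, PowerSeries.coeff_succ_X_mul, map_sum] at h1
  have h2 : coeff (n + 1) ((k : ℂ⟦X⟧) * Y i) = k * coeff (n + 1) (Y i) := by
    rw [← map_natCast (PowerSeries.C (R := ℂ)), PowerSeries.coeff_C_mul]
  have h3 : ∀ j, coeff n (N i j * Y j) =
      ∑ p ∈ antidiagonal n, coeff p.1 (N i j) * coeff p.2 (Y j) := fun j =>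
    PowerSeries.coeff_mul _ _ _
  simp only [h3] at h1
  rw [h2] at h1
  linear_combination h1

/-- uniqueness -/
lemma rec_unique (hrec : ∀ i, PowerSeries.X * d⁄dX ℂ (Y i) =
      (k : ℂ⟦X⟧) * Y i + PowerSeries.X * ∑ j, N i j * Y j)
    (hk : ∀ i, coeff k (Y i) = 0) (i : ι) : Y i = 0 := by
  have hrec' : ∀ i, PowerSeries.X * d⁄dX ℂ (Y i) =
      (k : ℂ⟦X⟧) * Y i + PowerSeries.X * ∑ j, N i j * Y j + (fun _ => (0 : ℂ⟦X⟧)) i := fun i => by
    rw [hrec i]; simp
  have key : ∀ n, ∀ i, coeff n (Y i) = 0 := by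
    intro n
    induction n using Nat.strong_induction_on with
    | _ n ih =>
      intro i
      by_cases hnk : n = k
      · rw [hnk]; exact hk i
      · have hne : ((n : ℂ) - k) ≠ 0 := sub_ne_zero.2 (by exact_mod_cast hnk)
        have h1 : ((n : ℂ) - k) * coeff n (Y i) = 0 := by
          rcases n with _ | n
          · have := rec_zero hrec' i
            rw [sub_mul, this, map_zero]
          · have := rec_succ hrec' i n
            rw [sub_mul, this, map_zero, add_zero]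
            refine Finset.sum_eq_zero fun j _ => Finset.sum_eq_zero fun p hp => ?_
            rw [HasAntidiagonal.mem_antidiagonal] at hp
            rw [ih p.2 (by omega) j, mul_zero]
        exact (mul_eq_zero.1 h1).resolve_left hne
  ext n
  rw [key n i, map_zero]

/-- the integer used to divide -/
lemma exists_kappa (k n : ℕ) (h : n ≠ k) : ∃ κ : ℤ,
    ((n : ℤ) - k) * κ = k.factorial * (n - k).factorial ∧
      ∀ b < n, ∃ μ : ℤ, κ = (b - k).factorial * μ := by
  rcases Nat.lt_or_gt_of_ne h with h | h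
  · obtain ⟨c, hc⟩ : (k - n) ∣ k.factorial := Nat.dvd_factorial (by omega) (by omega)
    refine ⟨-(c : ℤ), ?_, fun b hb => ⟨-(c : ℤ), ?_⟩⟩
    · rw [Nat.sub_eq_zero_of_le h.le, Nat.factorial_zero, Nat.cast_one, mul_one, hc]
      push_cast [Nat.cast_sub h.le]
      ring
    · rw [Nat.sub_eq_zero_of_le (by omega), Nat.factorial_zero, Nat.cast_one, one_mul]
  · refine ⟨k.factorial * (n - k - 1).factorial, ?_, fun b hb => ?_⟩
    · have h1 : (n - k).factorial = (n - k) * (n - k - 1).factorial := by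
        obtain ⟨m, hm⟩ : ∃ m, n - k = m + 1 := ⟨n - k - 1, by omega⟩
        rw [hm, Nat.factorial_succ]; rfl
      rw [h1]
      push_cast [Nat.cast_sub h.le]
      ring
    · obtain ⟨c, hc⟩ : (b - k).factorial ∣ (n - k - 1).factorial :=
        Nat.factorial_dvd_factorial (by omega)
      refine ⟨k.factorial * c, ?_⟩
      rw [hc]; push_cast; ring

lemma ii_int (n : ℤ) : IsIntegral ℤ (n : ℂ) := by
  have := isIntegral_algebraMap (R := ℤ) (A := ℂ) (x := n)
  simpa using this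

/-- integrality -/
lemma rec_int (hN : ∀ i j, Geo (N i j)) (hΓ : ∀ i, Geo (Γ i))
    (hrec : ∀ i, PowerSeries.X * d⁄dX ℂ (Y i) =
      (k : ℂ⟦X⟧) * Y i + PowerSeries.X * ∑ j, N i j * Y j + Γ i)
    (hk : ∀ i, coeff k (Y i) = 0) :
    ∃ B : ℕ, 0 < B ∧ ∀ n, ∀ i,
      IsIntegral ℤ ((B : ℂ) ^ (n + 1) * ((n - k).factorial : ℂ) * coeff n (Y i)) := by
  obtain ⟨M₁, hM₁, h₁⟩ := geo_common (fun x : ι × ι => N x.1 x.2) fun x => hN x.1 x.2
  obtain ⟨M₂, hM₂, h₂⟩ := geo_common Γ hΓ
  set M := M₁ * M₂ with hM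
  have hM0 : 0 < M := Nat.mul_pos hM₁ hM₂
  have hNM : ∀ i j n, IsIntegral ℤ ((M : ℂ) ^ (n + 1) * coeff n (N i j)) := fun i j n =>
    geo_scale (fun n => h₁ (i, j) n) M₂ n
  have hΓM : ∀ i n, IsIntegral ℤ ((M : ℂ) ^ (n + 1) * coeff n (Γ i)) := fun i n => by
    rw [hM, mul_comm M₁ M₂]
    exact geo_scale (fun n => h₂ i n) M₁ n
  set f := k.factorial with hf
  have hf0 : 0 < f := Nat.factorial_pos k
  refine ⟨f * (M * M), Nat.mul_pos hf0 (Nat.mul_pos hM0 hM0), fun n => ?_⟩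
  have hfc : (f : ℂ) ≠ 0 := by exact_mod_cast hf0.ne'
  induction n using Nat.strong_induction_on with
  | _ n ih =>
    intro i
    by_cases hnk : n = k
    · rw [hnk, hk i, mul_zero]; exact isIntegral_zero
    · obtain ⟨κ, hκ1, hκ2⟩ := exists_kappa k n hnk
      have hne : ((n : ℂ) - k) ≠ 0 := sub_ne_zero.2 (by exact_mod_cast hnk)
      have hκC : ((n : ℂ) - k) * (κ : ℂ) = f * ((n - k).factorial : ℂ) := by
        exact_mod_cast congrArg (Int.cast (R := ℂ)) hκ1
      -- the term with the inhomogeneity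
      have hγ : IsIntegral ℤ (((f * (M * M) : ℕ) : ℂ) ^ n * ((M : ℂ) * M) * κ *
          coeff n (Γ i)) := by
        have e : ((f * (M * M) : ℕ) : ℂ) ^ n * ((M : ℂ) * M) * κ * coeff n (Γ i) =
            ((f : ℂ) ^ n * (M : ℂ) ^ (n + 1) * κ) * ((M : ℂ) ^ (n + 1) * coeff n (Γ i)) := by
          push_cast; rw [mul_pow, mul_pow]; ring
        rw [e]
        exact ((((ii_nat f).pow _).mul ((ii_nat M).pow _)).mul (ii_int κ)).mul (hΓM i n)
      have hmain : IsIntegral ℤ (((f * (M * M) : ℕ) : ℂ) ^ n * ((M : ℂ) * M) * κ *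
          (((n : ℂ) - k) * coeff n (Y i))) := by
        rcases n with _ | n
        · have h3 := rec_zero hrec i
          rw [sub_mul, h3]
          exact hγ
        · have h3 := rec_succ hrec i n
          rw [sub_mul, h3, mul_add]
          refine IsIntegral.add ?_ hγ
          rw [Finset.mul_sum]
          refine ii_sum _ fun j _ => ?_
          rw [Finset.mul_sum]
          refine ii_sum _ fun p hp => ?_
          rw [HasAntidiagonal.mem_antidiagonal] at hp
          obtain ⟨μ, hμ⟩ := hκ2 p.2 (by omega)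
          have h4 := ih p.2 (by omega) j
          have e : ((f * (M * M) : ℕ) : ℂ) ^ (n + 1) * ((M : ℂ) * M) * κ *
              (coeff p.1 (N i j) * coeff p.2 (Y j)) =
              ((f : ℂ) ^ p.1 * (M : ℂ) ^ (p.1 + 1) * μ) *
              ((M : ℂ) ^ (p.1 + 1) * coeff p.1 (N i j)) *
              (((f * (M * M) : ℕ) : ℂ) ^ (p.2 + 1) * ((p.2 - k).factorial : ℂ) *
                coeff p.2 (Y j)) := by
            rw [hμ]
            have e1 : ((f * (M * M) : ℕ) : ℂ) ^ (n + 1) = ((f * (M * M) : ℕ) : ℂ) ^ (p.2 + 1) *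
                ((f * (M * M) : ℕ) : ℂ) ^ p.1 := by rw [← pow_add]; congr 1; omega
            rw [e1]
            have e2 : ((f * (M * M) : ℕ) : ℂ) ^ p.1 = (f : ℂ) ^ p.1 *
                ((M : ℂ) ^ p.1 * (M : ℂ) ^ p.1) := by push_cast; rw [mul_pow, mul_pow]
            rw [e2]
            push_cast
            ring
          rw [e]
          exact ((((ii_nat f).pow _).mul ((ii_nat M).pow _)).mul (ii_int μ)).mul
            (hNM i j p.1) |>.mul h4
      have e : ((f * (M * M) : ℕ) : ℂ) ^ (n + 1) * ((n - k).factorial : ℂ) * coeff n (Y i) =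
          ((f * (M * M) : ℕ) : ℂ) ^ n * ((M : ℂ) * M) * κ * (((n : ℂ) - k) * coeff n (Y i)) := by
        have : ((f * (M * M) : ℕ) : ℂ) ^ (n + 1) =
            ((f * (M * M) : ℕ) : ℂ) ^ n * (f * ((M : ℂ) * M)) := by
          rw [pow_succ]; push_cast; ring
        rw [this]
        linear_combination (-1) * ((f * (M * M) : ℕ) : ℂ) ^ n * ((M : ℂ) * M) *
          coeff n (Y i) * hκC
      rw [e]
      exact hmain

end

end

end Pool.Agent.Helper433.ES
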