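import Pool.Agent.Helper433_ES.Rec

/-! The recursion for a regular singular system with nilpotent residue of square zero. -/

namespace Pool.Agent.Helper433.ES

open PowerSeries Filter Topology Finset

noncomputable section

variable {ι : Type*} [Fintype ι] {k : ℕ} {Y Γ : ι → ℂ⟦X⟧} {N : ι → ι → ℂ⟦X⟧} {N0 : ι → ι → ℂ}

lemma rec2_one (hrec : ∀ i, PowerSeries.X * d⁄dX ℂ (Y i) =
      (k : ℂ⟦X⟧) * Y i + ∑ j, PowerSeries.C (N0 i j) * Y j +
        (PowerSeries.X * ∑ j, N i j * Y j + Γ i)) (n : ℕ) (i : ι) :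
    ((n : ℂ) - k) * coeff n (Y i) = ∑ j, N0 i j * coeff n (Y j) +
      coeff n (PowerSeries.X * ∑ j, N i j * Y j + Γ i) := by
  have h1 := congrArg (coeff n) (hrec i)
  rw [coeff_X_mul_deriv, map_add, map_add, map_sum] at h1
  have h2 : coeff n ((k : ℂ⟦X⟧) * Y i) = k * coeff n (Y i) := by
    rw [← map_natCast (PowerSeries.C (R := ℂ)), PowerSeries.coeff_C_mul]
  have h3 : ∀ j, coeff n (PowerSeries.C (N0 i j) * Y j) = N0 i j * coeff n (Y j) := fun j =>
    PowerSeries.coeff_C_mul _ _ _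
  simp only [h3] at h1
  rw [h2] at h1
  linear_combination h1

lemma rec2_two (hrec : ∀ i, PowerSeries.X * d⁄dX ℂ (Y i) =
      (k : ℂ⟦X⟧) * Y i + ∑ j, PowerSeries.C (N0 i j) * Y j +
        (PowerSeries.X * ∑ j, N i j * Y j + Γ i))
    (hN0 : ∀ i l, ∑ j, N0 i j * N0 j l = 0) (n : ℕ) (i : ι) :
    ((n : ℂ) - k) ^ 2 * coeff n (Y i) =
      ∑ j, N0 i j * coeff n (PowerSeries.X * ∑ l, N j l * Y l + Γ j) +
      ((n : ℂ) - k) * coeff n (PowerSeries.X * ∑ j, N i j * Y j + Γ i) := by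
  have h1 := fun i => rec2_one hrec n i
  have h2 : ((n : ℂ) - k) ^ 2 * coeff n (Y i) =
      ∑ j, N0 i j * (((n : ℂ) - k) * coeff n (Y j)) +
      ((n : ℂ) - k) * coeff n (PowerSeries.X * ∑ j, N i j * Y j + Γ i) := by
    rw [pow_two, mul_assoc, h1 i, mul_add, Finset.mul_sum]
    congr 1
    exact Finset.sum_congr rfl fun j _ => by ring
  rw [h2]
  congr 1
  simp only [h1, mul_add, Finset.sum_add_distrib]
  have h3 : ∑ j, N0 i j * ∑ l, N0 j l * coeff n (Y l) = 0 := by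
    simp only [Finset.mul_sum]
    rw [Finset.sum_comm]
    refine Finset.sum_eq_zero fun l _ => ?_
    have : ∑ j, N0 i j * (N0 j l * coeff n (Y l)) = (∑ j, N0 i j * N0 j l) * coeff n (Y l) := by
      rw [Finset.sum_mul]
      exact Finset.sum_congr rfl fun j _ => by ring
    rw [this, hN0, zero_mul]
  rw [h3, zero_add]

/-- uniqueness -/
lemma rec2_unique (hrec : ∀ i, PowerSeries.X * d⁄dX ℂ (Y i) =
      (k : ℂ⟦X⟧) * Y i + ∑ j, PowerSeries.C (N0 i j) * Y j + PowerSeries.X * ∑ j, N i j * Y j)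
    (hN0 : ∀ i l, ∑ j, N0 i j * N0 j l = 0)
    (hk : ∀ i, coeff k (Y i) = 0) (i : ι) : Y i = 0 := by
  have hrec' : ∀ i, PowerSeries.X * d⁄dX ℂ (Y i) =
      (k : ℂ⟦X⟧) * Y i + ∑ j, PowerSeries.C (N0 i j) * Y j +
        (PowerSeries.X * ∑ j, N i j * Y j + (fun _ => (0 : ℂ⟦X⟧)) i) := fun i => by
    rw [hrec i]; simp
  have key : ∀ n, ∀ i, coeff n (Y i) = 0 := by
    intro n
    induction n using Nat.strong_induction_on with
    | _ n ih =>
      intro i
      by_cases hnk : n = k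
      · rw [hnk]; exact hk i
      · have hne : ((n : ℂ) - k) ≠ 0 := sub_ne_zero.2 (by exact_mod_cast hnk)
        have h0 : ∀ i, coeff n (PowerSeries.X * ∑ j, N i j * Y j) = 0 := by
          intro i
          rcases n with _ | n
          · simp
          · rw [PowerSeries.coeff_succ_X_mul, map_sum]
            refine Finset.sum_eq_zero fun j _ => ?_
            rw [PowerSeries.coeff_mul]
            refine Finset.sum_eq_zero fun p hp => ?_
            rw [HasAntidiagonal.mem_antidiagonal] at hp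
            rw [ih p.2 (by omega) j, mul_zero]
        have h1 := rec2_two hrec' hN0 n i
        simp only [add_zero, h0, mul_zero, Finset.sum_const_zero] at h1
        exact (mul_eq_zero.1 h1).resolve_left (pow_ne_zero _ hne)
  ext n
  rw [key n i, map_zero]

/-- integrality -/
lemma rec2_int (hN : ∀ i j, Geo (N i j)) (hΓ : ∀ i, Geo (Γ i))
    (hA : ∀ i j, IsAlgebraic ℚ (N0 i j))
    (hrec : ∀ i, PowerSeries.X * d⁄dX ℂ (Y i) =
      (k : ℂ⟦X⟧) * Y i + ∑ j, PowerSeries.C (N0 i j) * Y j +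
        (PowerSeries.X * ∑ j, N i j * Y j + Γ i))
    (hN0 : ∀ i l, ∑ j, N0 i j * N0 j l = 0)
    (hk : ∀ i, coeff k (Y i) = 0) :
    ∃ B : ℕ, 0 < B ∧ ∀ n, ∀ i,
      IsIntegral ℤ ((B : ℂ) ^ (n + 1) * ((n - k).factorial : ℂ) ^ 2 * coeff n (Y i)) := by
  obtain ⟨M₁, hM₁, h₁⟩ := geo_common (fun x : ι × ι => N x.1 x.2) fun x => hN x.1 x.2
  obtain ⟨M₂, hM₂, h₂⟩ := geo_common Γ hΓ
  obtain ⟨M₃, hM₃, h₃⟩ := geo_common (fun x : ι × ι => PowerSeries.C (N0 x.1 x.2))
    fun x => Geo.C (hA x.1 x.2)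
  set M := M₁ * (M₂ * M₃) with hM
  have hM0 : 0 < M := Nat.mul_pos hM₁ (Nat.mul_pos hM₂ hM₃)
  have hNM : ∀ i j n, IsIntegral ℤ ((M : ℂ) ^ (n + 1) * coeff n (N i j)) := fun i j n =>
    geo_scale (fun n => h₁ (i, j) n) (M₂ * M₃) n
  have hΓM : ∀ i n, IsIntegral ℤ ((M : ℂ) ^ (n + 1) * coeff n (Γ i)) := fun i n => by
    have : M = M₂ * (M₁ * M₃) := by rw [hM]; ring
    rw [this]
    exact geo_scale (fun n => h₂ i n) (M₁ * M₃) n
  have h0M : ∀ i j, IsIntegral ℤ ((M : ℂ) * N0 i j) := fun i j => by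
    have : M = M₃ * (M₁ * M₂) := by rw [hM]; ring
    rw [this]
    have := geo_scale (fun n => h₃ (i, j) n) (M₁ * M₂) 0
    simpa using this
  set f := k.factorial with hf
  have hf0 : 0 < f := Nat.factorial_pos k
  set B := f * f * (M * M * M) with hB
  have hB0 : 0 < B := Nat.mul_pos (Nat.mul_pos hf0 hf0) (Nat.mul_pos (Nat.mul_pos hM0 hM0) hM0)
  refine ⟨B, hB0, fun n => ?_⟩
  have hBC : (B : ℂ) = f * f * (M * M * M) := by rw [hB]; push_cast; ring
  have hpow : ∀ r : ℕ, (B : ℂ) ^ r = (f : ℂ) ^ (2 * r) * ((M : ℂ) ^ r * (M : ℂ) ^ (2 * r)) := by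
    intro r
    rw [hBC, mul_pow, mul_pow, mul_pow, mul_pow, pow_mul (f : ℂ) 2 r, pow_mul (M : ℂ) 2 r,
      ← mul_pow, pow_two, pow_two, mul_pow (M : ℂ) (M : ℂ)]
    ring
  induction n using Nat.strong_induction_on with
  | _ n ih =>
    intro i
    by_cases hnk : n = k
    · rw [hnk, hk i, mul_zero]; exact isIntegral_zero
    · obtain ⟨κ, hκ1, hκ2⟩ := exists_kappa k n hnk
      have hne : ((n : ℂ) - k) ≠ 0 := sub_ne_zero.2 (by exact_mod_cast hnk)
      have hκC : ((n : ℂ) - k) * (κ : ℂ) = f * ((n - k).factorial : ℂ) := by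
        exact_mod_cast congrArg (Int.cast (R := ℂ)) hκ1
      have hR : ∀ i, IsIntegral ℤ ((B : ℂ) ^ n * ((M : ℂ) * M) * (κ : ℂ) ^ 2 *
          coeff n (PowerSeries.X * ∑ j, N i j * Y j + Γ i)) := by
        intro i
        have hγ : IsIntegral ℤ ((B : ℂ) ^ n * ((M : ℂ) * M) * (κ : ℂ) ^ 2 * coeff n (Γ i)) := by
          have e : (B : ℂ) ^ n * ((M : ℂ) * M) * (κ : ℂ) ^ 2 * coeff n (Γ i) =
              ((f : ℂ) ^ (2 * n) * ((M : ℂ) ^ (2 * n) * M) * (κ : ℂ) ^ 2) *
                ((M : ℂ) ^ (n + 1) * coeff n (Γ i)) := by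
            rw [hpow]; ring
          rw [e]
          exact ((((ii_nat f).pow _).mul (((ii_nat M).pow _).mul (ii_nat M))).mul
            ((ii_int κ).pow _)).mul (hΓM i n)
        rw [map_add, mul_add]
        refine IsIntegral.add ?_ hγ
        rcases n with _ | n
        · simp only [PowerSeries.coeff_zero_X_mul, mul_zero]; exact isIntegral_zero
        · rw [PowerSeries.coeff_succ_X_mul, map_sum, Finset.mul_sum]
          refine ii_sum _ fun j _ => ?_
          rw [PowerSeries.coeff_mul, Finset.mul_sum]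
          refine ii_sum _ fun p hp => ?_
          rw [HasAntidiagonal.mem_antidiagonal] at hp
          obtain ⟨μ, hμ⟩ := hκ2 p.2 (by omega)
          have h4 := ih p.2 (by omega) j
          have e : (B : ℂ) ^ (n + 1) * ((M : ℂ) * M) * (κ : ℂ) ^ 2 *
              (coeff p.1 (N i j) * coeff p.2 (Y j)) =
              ((f : ℂ) ^ (2 * p.1) * ((M : ℂ) ^ (2 * p.1) * M) * (μ : ℂ) ^ 2) *
              ((M : ℂ) ^ (p.1 + 1) * coeff p.1 (N i j)) *
              ((B : ℂ) ^ (p.2 + 1) * ((p.2 - k).factorial : ℂ) ^ 2 * coeff p.2 (Y j)) := by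
            rw [hμ]
            have e1 : (B : ℂ) ^ (n + 1) = (B : ℂ) ^ (p.2 + 1) * (B : ℂ) ^ p.1 := by
              rw [← pow_add]; congr 1; omega
            rw [e1, hpow p.1]
            push_cast
            ring
          rw [e]
          exact ((((ii_nat f).pow _).mul (((ii_nat M).pow _).mul (ii_nat M))).mul
            ((ii_int μ).pow _)).mul (hNM i j p.1) |>.mul h4
      have h5 := rec2_two hrec hN0 n i
      have e : (B : ℂ) ^ (n + 1) * ((n - k).factorial : ℂ) ^ 2 * coeff n (Y i) =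
          ∑ j, ((M : ℂ) * N0 i j) * ((B : ℂ) ^ n * ((M : ℂ) * M) * (κ : ℂ) ^ 2 *
            coeff n (PowerSeries.X * ∑ l, N j l * Y l + Γ j)) +
          ((M : ℂ) * (((n : ℤ) - k : ℤ) : ℂ)) * ((B : ℂ) ^ n * ((M : ℂ) * M) * (κ : ℂ) ^ 2 *
            coeff n (PowerSeries.X * ∑ j, N i j * Y j + Γ i)) := by
        have e2 : (B : ℂ) ^ (n + 1) * ((n - k).factorial : ℂ) ^ 2 * coeff n (Y i) =
            (B : ℂ) ^ n * ((M : ℂ) * M * M) * (κ : ℂ) ^ 2 *
              (((n : ℂ) - k) ^ 2 * coeff n (Y i)) := by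
          have e3 : (κ : ℂ) ^ 2 * ((n : ℂ) - k) ^ 2 = f * f * ((n - k).factorial : ℂ) ^ 2 := by
            rw [← mul_pow, mul_comm, hκC]; ring
          rw [pow_succ, hBC]
          linear_combination (-1) * (f * f * (M * M * M) : ℂ) ^ n * ((M : ℂ) * M * M) *
            coeff n (Y i) * e3
        rw [e2, h5, mul_add, Finset.mul_sum]
        push_cast
        congr 1
        · exact Finset.sum_congr rfl fun j _ => by ring
        · ring
      rw [e]
      exact (ii_sum _ fun j _ => (h0M i j).mul (hR j)).add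
        (((ii_nat M).mul (ii_int _)).mul (hR i))

end

end Pool.Agent.Helper433.ES
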