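import Pool.Agent.Helper433_ES.Tay

/-! Pigeonhole and Liouville. -/

namespace Pool.Agent.Helper433.ES

open PowerSeries Filter Topology Finset

noncomputable section

lemma floor_mem {x : ℝ} {B : ℕ} (h : |x| ≤ B) : ⌊x⌋ ∈ Finset.Icc (-(B : ℤ)) B := by
  rw [Finset.mem_Icc]
  obtain ⟨h1, h2⟩ := abs_le.1 h
  constructor
  · rw [Int.le_floor]; push_cast; exact h1
  · have : (⌊x⌋ : ℝ) ≤ B := (Int.floor_le x).trans h2
    exact_mod_cast this

/-- Thue's pigeonhole lemma for complex linear forms. -/
lemma pigeon {ι J : Type*} [Fintype ι] [Fintype J] [DecidableEq J] (a : ι → J → ℂ) (H B : ℕ)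
    (hB : ∀ i, (H : ℝ) * ∑ j, ‖a i j‖ ≤ B)
    (hcard : (4 * B + 1) ^ (2 * Fintype.card ι) < (H + 1) ^ Fintype.card J) :
    ∃ c : J → ℤ, c ≠ 0 ∧ (∀ j, |c j| ≤ H) ∧ ∀ i, ‖∑ j, (c j : ℂ) * a i j‖ < 1 := by
  classical
  let ev : (J → Fin (H + 1)) → ι → ℂ := fun c i => ∑ j, ((c j : ℕ) : ℂ) * a i j
  have hev : ∀ c i, ‖ev c i‖ ≤ B := by
    intro c i
    refine le_trans (norm_sum_le _ _) (le_trans ?_ (hB i))
    rw [Finset.mul_sum]
    refine Finset.sum_le_sum fun j _ => ?_
    rw [norm_mul, Complex.norm_natCast]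
    have : ((c j : ℕ) : ℝ) ≤ H := by exact_mod_cast Nat.lt_succ_iff.1 (c j).2
    gcongr
  let T : Finset (ι × Bool → ℤ) :=
    Fintype.piFinset fun _ : ι × Bool => Finset.Icc (-((2 * B : ℕ) : ℤ)) ((2 * B : ℕ) : ℤ)
  let fl : (J → Fin (H + 1)) → (ι × Bool → ℤ) := fun c q =>
    if q.2 then ⌊2 * (ev c q.1).re⌋ else ⌊2 * (ev c q.1).im⌋
  have hmaps : ∀ c ∈ (Finset.univ : Finset (J → Fin (H + 1))), fl c ∈ T := by
    intro c _
    rw [Fintype.mem_piFinset]
    intro q
    simp only [fl]
    split_ifs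
    · refine floor_mem ?_
      rw [abs_mul, abs_two]
      have := (Complex.abs_re_le_norm (ev c q.1)).trans (hev c q.1)
      push_cast; linarith
    · refine floor_mem ?_
      rw [abs_mul, abs_two]
      have := (Complex.abs_im_le_norm (ev c q.1)).trans (hev c q.1)
      push_cast; linarith
  have hTcard : T.card = (4 * B + 1) ^ (2 * Fintype.card ι) := by
    have h1 : T.card = (Finset.Icc (-((2 * B : ℕ) : ℤ)) ((2 * B : ℕ) : ℤ)).card ^
        (Fintype.card (ι × Bool)) := by
      simp only [T]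
      rw [Fintype.card_piFinset, Finset.prod_const, Finset.card_univ]
    rw [h1, Int.card_Icc, Fintype.card_prod, Fintype.card_bool, mul_comm 2 (Fintype.card ι)]
    congr 1
    omega
  have hlt : T.card < (Finset.univ : Finset (J → Fin (H + 1))).card := by
    rw [hTcard, Finset.card_univ, Fintype.card_fun, Fintype.card_fin]; exact hcard
  obtain ⟨c, -, c', -, hne, heq⟩ := Finset.exists_ne_map_eq_of_card_lt_of_maps_to hlt hmaps
  refine ⟨fun j => ((c j : ℕ) : ℤ) - ((c' j : ℕ) : ℤ), ?_, ?_, ?_⟩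
  · intro h0
    apply hne
    ext j
    have := congrFun h0 j
    simp only [Pi.zero_apply] at this
    omega
  · intro j
    have h1 := (c j).2
    have h2 := (c' j).2
    show |((c j : ℕ) : ℤ) - ((c' j : ℕ) : ℤ)| ≤ H
    rw [abs_le]; constructor <;> omega
  · intro i
    have e1 : ∑ j, (((((c j : ℕ) : ℤ) - ((c' j : ℕ) : ℤ) : ℤ)) : ℂ) * a i j = ev c i - ev c' i := by
      simp only [ev]
      rw [← Finset.sum_sub_distrib]
      refine Finset.sum_congr rfl fun j _ => ?_
      push_cast; ring
    rw [e1]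
    have hre := congrFun heq (i, true)
    have him := congrFun heq (i, false)
    simp only [fl, if_true] at hre
    simp only [fl] at him
    have him' : ⌊2 * (ev c i).im⌋ = ⌊2 * (ev c' i).im⌋ := by simpa using him
    have b1 : |2 * (ev c i).re - 2 * (ev c' i).re| < 1 := Int.abs_sub_lt_one_of_floor_eq_floor hre
    have b2 : |2 * (ev c i).im - 2 * (ev c' i).im| < 1 := Int.abs_sub_lt_one_of_floor_eq_floor him'
    have b3 := Complex.norm_le_abs_re_add_abs_im (ev c i - ev c' i)
    have b4 : |(ev c i - ev c' i).re| < 1 / 2 := by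
      rw [Complex.sub_re]
      have : |2 * (ev c i).re - 2 * (ev c' i).re| = 2 * |(ev c i).re - (ev c' i).re| := by
        rw [← mul_sub, abs_mul, abs_two]
      rw [this] at b1; linarith
    have b5 : |(ev c i - ev c' i).im| < 1 / 2 := by
      rw [Complex.sub_im]
      have : |2 * (ev c i).im - 2 * (ev c' i).im| = 2 * |(ev c i).im - (ev c' i).im| := by
        rw [← mul_sub, abs_mul, abs_two]
      rw [this] at b2; linarith
    linarith

/-- Liouville inequality over a field all of whose nonzero integers are large. -/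
lemma liouville {K : Type*} [Field K] [Algebra K ℂ]
    (hK : ∀ x : K, IsIntegral ℤ x → x ≠ 0 → 1 ≤ ‖algebraMap K ℂ x‖)
    {g : ℂ} {D : ℕ} (hD : 0 < D) (hg : g ≠ 0) (hi : IsIntegral ℤ ((D : ℂ) * g)) :
    ∃ y : ℂ, Polynomial.aeval y (minpoly K g) = 0 ∧ 1 ≤ ‖(D : ℂ) * y‖ := by
  have : CharZero K := (algebraMap K ℂ).charZero
  have hD0 : (D : ℂ) ≠ 0 := by exact_mod_cast hD.ne'
  have hDK : (D : K) ≠ 0 := by exact_mod_cast hD.ne'
  obtain ⟨h, hmon, hroot⟩ := hi
  -- the polynomial vanishing at `g`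
  let hK' : Polynomial K := (h.map (algebraMap ℤ K)).comp (Polynomial.C (D : K) * Polynomial.X)
  have hK0 : ∀ y : ℂ, Polynomial.aeval y hK' = Polynomial.eval₂ (algebraMap ℤ ℂ) ((D : ℂ) * y) h := by
    intro y
    simp only [hK']
    rw [Polynomial.aeval_comp]
    simp only [map_mul, Polynomial.aeval_X, map_natCast]
    rw [Polynomial.aeval_map_algebraMap, Polynomial.aeval_def]
  have hdeg : (Polynomial.C (D : K) * Polynomial.X).natDegree = 1 := by
    rw [Polynomial.natDegree_C_mul_X _ hDK]
  have hne : hK' ≠ 0 := by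
    intro h0
    have h1 : (h.map (algebraMap ℤ K)) = 0 := by
      rcases Polynomial.comp_eq_zero_iff.1 h0 with h2 | h2
      · exact h2
      · exfalso
        have h3 := congrArg Polynomial.natDegree h2.2
        rw [hdeg] at h3
        simp at h3
    exact (hmon.map (algebraMap ℤ K)).ne_zero h1
  have hgalg : IsIntegral K g := by
    rw [← isAlgebraic_iff_isIntegral]
    exact ⟨hK', hne, by rw [hK0]; exact hroot⟩
  have hdvd : minpoly K g ∣ hK' := minpoly.dvd K g (by rw [hK0]; exact hroot)
  set f := minpoly K g with hf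
  have hfm : f.Monic := minpoly.monic hgalg
  set fc := f.map (algebraMap K ℂ) with hfc
  have hfcm : fc.Monic := hfm.map _
  have hsplit : fc.Splits := IsAlgClosed.splits fc
  have hroots : ∀ y ∈ fc.roots, Polynomial.aeval y f = 0 ∧ IsIntegral ℤ ((D : ℂ) * y) := by
    intro y hy
    have h1 : Polynomial.aeval y f = 0 := by
      have := (Polynomial.mem_roots hfcm.ne_zero).1 hy
      rw [Polynomial.IsRoot.def, hfc, Polynomial.eval_map_algebraMap] at this
      exact this
    refine ⟨h1, h, hmon, ?_⟩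
    obtain ⟨w, hw⟩ := hdvd
    have h2 := hK0 y
    rw [hw, map_mul, h1, zero_mul] at h2
    exact h2.symm
  by_contra hcon
  push Not at hcon
  -- the product of the roots
  have hprod : fc.coeff 0 = (-1) ^ fc.natDegree * fc.roots.prod :=
    Polynomial.Splits.coeff_zero_eq_prod_roots_of_monic hsplit hfcm
  have hc0 : f.coeff 0 ≠ 0 := by
    rw [hf]
    exact minpoly.coeff_zero_ne_zero hgalg hg
  set d := fc.roots.card with hd
  have hdpos : 0 < d := by
    rw [hd, ← hsplit.natDegree_eq_card_roots, hfc, Polynomial.natDegree_map]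
    exact minpoly.natDegree_pos hgalg
  have e1 : (fc.roots.map fun y => (D : ℂ) * y).prod = (D : ℂ) ^ d * fc.roots.prod := by
    rw [Multiset.prod_map_mul, Multiset.map_id', Multiset.map_const', Multiset.prod_replicate]
  have e2 : IsIntegral ℤ (fc.roots.map fun y => (D : ℂ) * y).prod := by
    refine IsIntegral.multiset_prod fun y hy => ?_
    obtain ⟨x, hx, rfl⟩ := Multiset.mem_map.1 hy
    exact (hroots x hx).2
  -- the element of `K`
  let x : K := (-1) ^ fc.natDegree * (D : K) ^ d * f.coeff 0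
  have hx : algebraMap K ℂ x = (fc.roots.map fun y => (D : ℂ) * y).prod := by
    have h3 : algebraMap K ℂ (f.coeff 0) = fc.coeff 0 := by rw [hfc, Polynomial.coeff_map]
    simp only [x, map_mul, map_pow, map_neg, map_one, map_natCast]
    rw [h3, hprod, e1]
    have h4 : ((-1 : ℂ) ^ fc.natDegree) * ((-1 : ℂ) ^ fc.natDegree) = 1 := by
      rw [← mul_pow]; simp
    linear_combination ((D : ℂ) ^ d * fc.roots.prod) * h4
  have hx0 : x ≠ 0 := by
    refine mul_ne_zero (mul_ne_zero (pow_ne_zero _ (by norm_num)) (pow_ne_zero _ hDK)) hc0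
  have hxi : IsIntegral ℤ x := by
    rw [← hx] at e2
    exact (isIntegral_algebraMap_iff (algebraMap K ℂ).injective).1 e2
  have h5 := hK x hxi hx0
  rw [hx] at h5
  have h6 : ‖(fc.roots.map fun y => (D : ℂ) * y).prod‖ < 1 := by
    have : ∀ s : Multiset ℂ, s ≠ 0 → (∀ y ∈ s, ‖(D : ℂ) * y‖ < 1) →
        ‖(s.map fun y => (D : ℂ) * y).prod‖ < 1 := by
      intro s
      induction s using Multiset.induction_on with
      | empty => intro h; exact absurd rfl h
      | cons y s ih =>
        intro _ hs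
        rw [Multiset.map_cons, Multiset.prod_cons, norm_mul]
        have h7 := hs y (Multiset.mem_cons_self y s)
        by_cases hs0 : s = 0
        · subst hs0; simpa using h7
        · have h8 := ih hs0 fun z hz => hs z (Multiset.mem_cons_of_mem hz)
          exact mul_lt_one_of_nonneg_of_lt_one_left (norm_nonneg _) h7 h8.le
    refine this _ ?_ fun y hy => hcon y (hroots y hy).1
    intro h0
    rw [hd, h0] at hdpos
    simp at hdpos
  linarith

end

end Pool.Agent.Helper433.ES
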