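import Pool.Agent.Helper433_ES.SL2

/-! The analytic estimate. -/

namespace Pool.Agent.Helper433.ES

open PowerSeries Filter Topology Finset

noncomputable section

/-- Analytic data on the punctured sphere. -/
structure SLData where
  D : Finset ℂ
  ρ : ℂ → ℝ
  ρi : ℝ
  U : ℂ → ℂ
  V : ℂ → ℂ
  C : ℝ
  δ : ℝ
  I : Finset ℂ
  e : ℂ → ℕ
  hρ : ∀ q ∈ D, 0 < ρ q
  hρi : 0 < ρi
  hU : DifferentiableOn ℂ U ((D : Set ℂ)ᶜ)
  hV : DifferentiableOn ℂ V ((D : Set ℂ)ᶜ)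
  hC : 0 < C
  hδ : 0 < δ
  gq : ∀ q ∈ D, ∀ s, 0 < ‖s - q‖ → ‖s - q‖ < δ →
    ‖U s‖ ≤ Real.exp (C * ‖s - q‖ ^ (-ρ q)) ∧ ‖V s‖ ≤ Real.exp (C * ‖s - q‖ ^ (-ρ q))
  gi : ∀ s, 1 / δ < ‖s‖ →
    ‖U s‖ ≤ Real.exp (C * ‖s‖ ^ ρi) ∧ ‖V s‖ ≤ Real.exp (C * ‖s‖ ^ ρi)
  he : ∀ p ∈ I, 0 < e p
  hI : ∀ p ∈ I, p ∉ D
  hVI : ∀ p ∈ I, V p ≠ 0
  hsum : ∑ q ∈ D, ρ q + ρi < ∑ p ∈ I, (1 : ℝ) / e p

namespace SLData

variable (d : SLData)

/-- the homogenised value -/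
def G (S L : ℕ) (c : ℕ → ℕ → ℤ) (s : ℂ) : ℂ :=
  ∑ j ∈ range S, ∑ l ∈ range L, (c j l : ℂ) * s ^ j * d.U s ^ l * d.V s ^ (L - l)

lemma G_diff (S L : ℕ) (c : ℕ → ℕ → ℤ) : DifferentiableOn ℂ (d.G S L c) ((d.D : Set ℂ)ᶜ) := by
  unfold G
  refine DifferentiableOn.fun_sum fun j _ => DifferentiableOn.fun_sum fun l _ => ?_
  have h1 := d.hU
  have h2 := d.hV
  exact (((differentiableOn_const _).mul (differentiableOn_id.pow j)).mul (h1.pow l)).mul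
    (h2.pow (L - l))

lemma G_norm {S L : ℕ} {c : ℕ → ℕ → ℤ} {H A B : ℝ} {s : ℂ} (hc : ∀ j l, |(c j l : ℝ)| ≤ H)
    (hA : 1 ≤ A) (hB : 1 ≤ B) (hs : ‖s‖ ≤ A) (hU : ‖d.U s‖ ≤ B) (hV : ‖d.V s‖ ≤ B) :
    ‖d.G S L c s‖ ≤ S * L * H * A ^ S * B ^ L := by
  unfold G
  have hH : 0 ≤ H := (abs_nonneg _).trans (hc 0 0)
  have key : ∀ j ∈ range S, ∀ l ∈ range L,
      ‖(c j l : ℂ) * s ^ j * d.U s ^ l * d.V s ^ (L - l)‖ ≤ H * A ^ S * B ^ L := by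
    intro j hj l hl
    rw [Finset.mem_range] at hj hl
    rw [norm_mul, norm_mul, norm_mul, norm_pow, norm_pow, norm_pow]
    have h1 : ‖(c j l : ℂ)‖ ≤ H := by
      rw [Complex.norm_intCast]; exact hc j l
    have h2 : ‖s‖ ^ j ≤ A ^ S := by
      calc ‖s‖ ^ j ≤ A ^ j := by gcongr
        _ ≤ A ^ S := pow_le_pow_right₀ hA hj.le
    have h3 : ‖d.U s‖ ^ l * ‖d.V s‖ ^ (L - l) ≤ B ^ L := by
      calc ‖d.U s‖ ^ l * ‖d.V s‖ ^ (L - l) ≤ B ^ l * B ^ (L - l) := by gcongr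
        _ = B ^ L := by rw [← pow_add]; congr 1; omega
    calc ‖(c j l : ℂ)‖ * ‖s‖ ^ j * ‖d.U s‖ ^ l * ‖d.V s‖ ^ (L - l)
        = ‖(c j l : ℂ)‖ * ‖s‖ ^ j * (‖d.U s‖ ^ l * ‖d.V s‖ ^ (L - l)) := by ring
      _ ≤ H * A ^ S * B ^ L := by gcongr
  calc ‖∑ j ∈ range S, ∑ l ∈ range L, (c j l : ℂ) * s ^ j * d.U s ^ l * d.V s ^ (L - l)‖
      ≤ ∑ j ∈ range S, ∑ l ∈ range L, H * A ^ S * B ^ L := by
        refine (norm_sum_le _ _).trans (Finset.sum_le_sum fun j hj => ?_)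
        refine (norm_sum_le _ _).trans (Finset.sum_le_sum fun l hl => key j hj l hl)
    _ = S * L * H * A ^ S * B ^ L := by
        simp only [Finset.sum_const, Finset.card_range, nsmul_eq_mul]; ring

/-- geometric constants -/
lemma exists_geom : ∃ K δ₁ : ℝ, 1 ≤ K ∧ 0 < δ₁ ∧ δ₁ < d.δ ∧ δ₁ ≤ 1 ∧
    (∀ q ∈ d.D, ∀ s, ‖s - q‖ ≤ δ₁ → ‖s‖ ≤ K ∧ (∀ q' ∈ d.D, ‖s - q'‖ ≤ K) ∧
      ∀ p ∈ d.I, 1 / K ≤ ‖s - p‖) ∧
    (∀ p ∈ d.I, (∀ q ∈ d.D, 1 / K ≤ ‖p - q‖ ∧ δ₁ < ‖p - q‖) ∧ (∀ q ∈ d.I, ‖p - q‖ ≤ K) ∧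
      1 / K ≤ ‖d.V p‖ ∧ ‖p‖ ≤ K) ∧
    (∀ q ∈ d.D, ‖q‖ ≤ K) := by
  classical
  set K₁ : ℝ := ∑ x ∈ d.D ∪ d.I, ‖x‖ with hK₁
  set K₂ : ℝ := ∑ p ∈ d.I, ∑ q ∈ d.D, 2 / ‖p - q‖ with hK₂
  set K₃ : ℝ := ∑ p ∈ d.I, 1 / ‖d.V p‖ with hK₃
  have h1 : 0 ≤ K₁ := Finset.sum_nonneg fun _ _ => norm_nonneg _
  have h2 : 0 ≤ K₂ := Finset.sum_nonneg fun _ _ => Finset.sum_nonneg fun _ _ => by positivity
  have h3 : 0 ≤ K₃ := Finset.sum_nonneg fun _ _ => by positivity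
  have hx : ∀ x ∈ d.D ∪ d.I, ‖x‖ ≤ K₁ := fun x hx =>
    Finset.single_le_sum (f := fun x => ‖x‖) (fun _ _ => norm_nonneg _) hx
  have hpq : ∀ p ∈ d.I, ∀ q ∈ d.D, 2 / ‖p - q‖ ≤ K₂ := by
    intro p hp q hq
    refine le_trans ?_ (Finset.single_le_sum (f := fun p => ∑ q ∈ d.D, 2 / ‖p - q‖)
      (fun _ _ => Finset.sum_nonneg fun _ _ => by positivity) hp)
    exact Finset.single_le_sum (f := fun q => 2 / ‖p - q‖) (fun _ _ => by positivity) hq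
  have hV : ∀ p ∈ d.I, 1 / ‖d.V p‖ ≤ K₃ := fun p hp =>
    Finset.single_le_sum (f := fun p => 1 / ‖d.V p‖) (fun _ _ => by positivity) hp
  have hne : ∀ p ∈ d.I, ∀ q ∈ d.D, 0 < ‖p - q‖ := by
    intro p hp q hq
    rw [norm_pos_iff, sub_ne_zero]
    rintro rfl
    exact d.hI p hp hq
  set K : ℝ := 2 + 2 * K₁ + K₂ + K₃ with hK
  set δ₁ : ℝ := min (d.δ / 2) (1 / (1 + K₂)) with hδ₁
  have hδ₁0 : 0 < δ₁ := lt_min (half_pos d.hδ) (by positivity)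
  have hδ₁1 : δ₁ ≤ 1 := (min_le_right _ _).trans (by
    rw [div_le_one (by positivity)]; linarith)
  have hKpos : 0 < K := by linarith
  have hδpq : ∀ p ∈ d.I, ∀ q ∈ d.D, δ₁ ≤ ‖p - q‖ / 2 := by
    intro p hp q hq
    refine (min_le_right _ _).trans ?_
    rw [div_le_div_iff₀ (by positivity) (by norm_num)]
    have h4 := hpq p hp q hq
    have h5 := hne p hp q hq
    rw [div_le_iff₀ h5] at h4
    nlinarith
  have hKpq : ∀ p ∈ d.I, ∀ q ∈ d.D, 1 / K ≤ ‖p - q‖ / 2 := by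
    intro p hp q hq
    have h4 := hpq p hp q hq
    have h5 := hne p hp q hq
    rw [div_le_iff₀ h5] at h4
    rw [div_le_div_iff₀ hKpos (by norm_num)]
    have : K₂ * ‖p - q‖ ≤ K * ‖p - q‖ := by
      apply mul_le_mul_of_nonneg_right _ h5.le; linarith
    linarith
  refine ⟨K, δ₁, by linarith, hδ₁0, ?_, hδ₁1, ?_, ?_, ?_⟩
  · exact lt_of_le_of_lt (min_le_left _ _) (by linarith [d.hδ])
  · intro q hq s hs
    have hq1 := hx q (Finset.mem_union_left _ hq)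
    have hs1 : ‖s‖ ≤ δ₁ + K₁ := by
      calc ‖s‖ = ‖(s - q) + q‖ := by ring_nf
        _ ≤ ‖s - q‖ + ‖q‖ := norm_add_le _ _
        _ ≤ δ₁ + K₁ := by linarith
    refine ⟨by linarith, ?_, ?_⟩
    · intro q' hq'
      have := hx q' (Finset.mem_union_left _ hq')
      calc ‖s - q'‖ ≤ ‖s‖ + ‖q'‖ := norm_sub_le _ _
        _ ≤ K := by linarith
    · intro p hp
      have h6 := hδpq p hp q hq
      have h7 := hKpq p hp q hq
      have h8 : ‖p - q‖ ≤ ‖s - p‖ + ‖s - q‖ := by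
        calc ‖p - q‖ = ‖-(s - p) + (s - q)‖ := by ring_nf
          _ ≤ ‖-(s - p)‖ + ‖s - q‖ := norm_add_le _ _
          _ = _ := by rw [norm_neg]
      linarith
  · intro p hp
    have hp1 := hx p (Finset.mem_union_right _ hp)
    refine ⟨?_, ?_, ?_, by linarith⟩
    · intro q hq
      have h6 := hδpq p hp q hq
      have h7 := hKpq p hp q hq
      have h8 := hne p hp q hq
      exact ⟨by linarith, by linarith⟩
    · intro q hq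
      have := hx q (Finset.mem_union_right _ hq)
      calc ‖p - q‖ ≤ ‖p‖ + ‖q‖ := norm_sub_le _ _
        _ ≤ K := by linarith
    · have h9 := hV p hp
      have h10 : 0 < ‖d.V p‖ := norm_pos_iff.2 (d.hVI p hp)
      rw [div_le_iff₀ h10] at h9
      rw [div_le_iff₀ hKpos]
      have : K₃ * ‖d.V p‖ ≤ K * ‖d.V p‖ := by
        apply mul_le_mul_of_nonneg_right _ h10.le; linarith
      linarith
  · intro q hq
    have := hx q (Finset.mem_union_left _ hq)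
    linarith

/-- the gain -/
def gain : ℝ := (∑ p ∈ d.I, (1 : ℝ) / d.e p) / (∑ q ∈ d.D, d.ρ q + d.ρi)

lemma total_pos : 0 < ∑ q ∈ d.D, d.ρ q + d.ρi :=
  add_pos_of_nonneg_of_pos (Finset.sum_nonneg fun q hq => (d.hρ q hq).le) d.hρi

lemma one_lt_gain : 1 < d.gain := by
  rw [gain, one_lt_div d.total_pos]; exact d.hsum

/-- zero orders -/
def nn (τ : ℕ) (p : ℂ) : ℕ := (τ + d.e p - 1) / d.e p

/-- pole orders of the weight -/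
def tt (τ : ℕ) (q : ℂ) : ℕ := ⌊d.gain * d.ρ q * τ⌋₊

lemma lt_nn {τ : ℕ} {p : ℂ} (hp : p ∈ d.I) (N : ℕ) : N < d.nn τ p ↔ d.e p * N < τ := by
  have h := d.he p hp
  unfold nn
  rw [Nat.lt_iff_add_one_le, Nat.le_div_iff_mul_le h]
  constructor
  · intro h1
    have : (N + 1) * d.e p = d.e p * N + d.e p := by ring
    omega
  · intro h1
    have : (N + 1) * d.e p = d.e p * N + d.e p := by ring
    omega

lemma nn_ge {τ : ℕ} {p : ℂ} (hp : p ∈ d.I) : (τ : ℝ) / d.e p ≤ d.nn τ p := by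
  have h := d.he p hp
  have h1 : ¬ (d.nn τ p < d.nn τ p) := lt_irrefl _
  rw [d.lt_nn hp] at h1
  push Not at h1
  rw [div_le_iff₀ (by exact_mod_cast h)]
  calc (τ : ℝ) ≤ ((d.e p * d.nn τ p : ℕ) : ℝ) := by exact_mod_cast h1
    _ = (d.nn τ p : ℝ) * d.e p := by push_cast; ring

lemma nn_le {τ : ℕ} {p : ℂ} (hp : p ∈ d.I) : (d.nn τ p : ℝ) ≤ τ := by
  have h := d.he p hp
  have : d.nn τ p ≤ τ := by
    by_contra hcon
    push Not at hcon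
    rw [d.lt_nn hp] at hcon
    have : τ ≤ d.e p * τ := Nat.le_mul_of_pos_left τ h
    omega
  exact_mod_cast this

lemma tt_le {τ : ℕ} {q : ℂ} (hq : q ∈ d.D) : (d.tt τ q : ℝ) ≤ d.gain * d.ρ q * τ := by
  refine Nat.floor_le ?_
  have h1 := d.hρ q hq
  have h2 := d.one_lt_gain
  positivity

lemma tt_ge {τ : ℕ} {q : ℂ} : d.gain * d.ρ q * τ - 1 ≤ d.tt τ q := by
  have := Nat.lt_floor_add_one (d.gain * d.ρ q * τ)
  unfold tt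
  linarith

end SLData

end

end Pool.Agent.Helper433.ES
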