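import Pool.Agent.Helper433_ES.SL3

/-! The analytic estimate, second part. -/

namespace Pool.Agent.Helper433.ES

open PowerSeries Filter Topology Finset

noncomputable section

lemma pow_eq_exp {K : ℝ} (hK : 0 < K) (n : ℕ) : K ^ n = Real.exp (n * Real.log K) := by
  rw [Real.exp_nat_mul, Real.exp_log hK]

lemma nat_le_exp {n : ℕ} {x : ℝ} (h : (n : ℝ) ≤ x) : (n : ℝ) ≤ Real.exp x := by
  have := Real.add_one_le_exp x
  linarith

lemma two_pow_le_exp {n : ℕ} {x : ℝ} (h : (n : ℝ) ≤ x) : (2 : ℝ) ^ n ≤ Real.exp x := by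
  calc (2 : ℝ) ^ n ≤ (Real.exp 1) ^ n := by
        gcongr
        have := Real.add_one_le_exp (1 : ℝ)
        linarith
    _ = Real.exp n := by rw [← Real.exp_nat_mul, mul_one]
    _ ≤ Real.exp x := Real.exp_le_exp.2 h

lemma prod_pow_le {ι : Type*} {s : Finset ι} {f : ι → ℝ} {n : ι → ℕ} {K : ℝ} (hK : 0 < K)
    (hf : ∀ i ∈ s, 0 ≤ f i) (h : ∀ i ∈ s, f i ≤ K) :
    ∏ i ∈ s, f i ^ (n i) ≤ Real.exp ((∑ i ∈ s, (n i : ℝ)) * Real.log K) := by
  have h1 : ∏ i ∈ s, f i ^ (n i) ≤ ∏ i ∈ s, K ^ (n i) :=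
    Finset.prod_le_prod (fun i hi => pow_nonneg (hf i hi) _) fun i hi =>
      pow_le_pow_left₀ (hf i hi) (h i hi) _
  refine h1.trans (le_of_eq ?_)
  rw [Finset.prod_pow_eq_pow_sum, pow_eq_exp hK]; push_cast; rfl

lemma le_prod_pow {ι : Type*} {s : Finset ι} {f : ι → ℝ} {n : ι → ℕ} {K : ℝ} (hK : 0 < K)
    (h : ∀ i ∈ s, K ≤ f i) :
    Real.exp ((∑ i ∈ s, (n i : ℝ)) * Real.log K) ≤ ∏ i ∈ s, f i ^ (n i) := by
  have h1 : ∏ i ∈ s, K ^ (n i) ≤ ∏ i ∈ s, f i ^ (n i) :=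
    Finset.prod_le_prod (fun i _ => pow_nonneg hK.le _) fun i hi =>
      pow_le_pow_left₀ hK.le (h i hi) _
  refine le_trans (le_of_eq ?_) h1
  rw [Finset.prod_pow_eq_pow_sum, pow_eq_exp hK]; push_cast; rfl

namespace SLData

variable (d : SLData)

lemma est (θ : ℝ) (hθ : 0 < θ) : ∃ E : ℝ, 0 < E ∧ ∀ᶠ τ : ℕ in atTop, ∀ S L h : ℕ,
    (S : ℝ) ≤ τ → S * Real.log τ ≤ τ → (L : ℝ) ≤ τ → L * Real.exp (θ * Real.log τ) ≤ τ →
    (h : ℝ) ≤ τ → ∀ c : ℕ → ℕ → ℤ, (∀ j l, |(c j l : ℝ)| ≤ 2 ^ h) →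
    ∀ H : ℂ → ℂ, DifferentiableOn ℂ H ((d.D : Set ℂ)ᶜ) →
    (∀ s, d.G S L c s = H s * ∏ p ∈ d.I, (s - p) ^ (d.nn τ p)) →
    ∀ p₀ ∈ d.I, ‖H p₀ * ∏ q ∈ d.I.erase p₀, (p₀ - q) ^ (d.nn τ q)‖ ≤
      Real.exp (E * τ - θ * d.gain * τ * Real.log τ) := by
  classical
  obtain ⟨K, δ₁, hK1, hδ0, hδδ, hδ1, hgeo1, hgeo2, hgeo3⟩ := d.exists_geom
  have hK0 : 0 < K := by linarith
  set lk := Real.log K with hlk
  have hlk0 : 0 ≤ lk := Real.log_nonneg hK1
  set g := d.gain with hg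
  have hg1 : 1 < g := d.one_lt_gain
  set Sρ := ∑ q ∈ d.D, d.ρ q with hSρ
  have hSρ0 : 0 ≤ Sρ := Finset.sum_nonneg fun q hq => (d.hρ q hq).le
  set xi := θ / d.ρi with hxi
  have hxi0 : 0 < xi := div_pos hθ d.hρi
  set X := ∑ q ∈ d.D, θ / d.ρ q with hX
  have hX0 : 0 ≤ X := Finset.sum_nonneg fun q hq => (div_pos hθ (d.hρ q hq)).le
  have hXq : ∀ q ∈ d.D, θ / d.ρ q ≤ X := fun q hq =>
    Finset.single_le_sum (f := fun q => θ / d.ρ q)
      (fun q hq => (div_pos hθ (d.hρ q hq)).le) hq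
  set cI : ℝ := (d.I.card : ℝ) with hcI
  have hcI0 : 0 ≤ cI := Nat.cast_nonneg _
  have hCpos := d.hC
  set E : ℝ := 3 + lk + d.C + xi + X + (cI + g * Sρ) * (2 * lk + 1) +
    (cI + g * Sρ) * lk with hE
  have hgS : 0 ≤ g * Sρ := by positivity
  have hE0 : 0 < E := by positivity
  refine ⟨E, hE0, ?_⟩
  -- eventual conditions
  have hlog : Tendsto (fun τ : ℕ => Real.log (τ : ℝ)) atTop atTop :=
    Real.tendsto_log_atTop.comp tendsto_natCast_atTop_atTop
  have ev1 : ∀ᶠ τ : ℕ in atTop, ∀ q ∈ d.D, -Real.log δ₁ / (θ / d.ρ q) < Real.log τ := by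
    rw [Filter.eventually_all_finset]
    intro q _
    exact hlog.eventually_gt_atTop _
  have ev2 : ∀ᶠ τ : ℕ in atTop, Real.log (2 * K + 1 + 1 / d.δ) / xi < Real.log τ :=
    hlog.eventually_gt_atTop _
  have ev3 : ∀ᶠ τ : ℕ in atTop, 1 ≤ τ := eventually_ge_atTop 1
  have ev4 : ∀ᶠ τ : ℕ in atTop, 0 < Real.log τ := hlog.eventually_gt_atTop _
  filter_upwards [ev1, ev2, ev3, ev4] with τ hτ1 hτ2 hτ3 hτ4
  intro S L h hS hSl hL hLθ hh c hc H hH hGH p₀ hp₀
  set ℓ := Real.log τ with hℓ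
  have hτpos : (0 : ℝ) < τ := by exact_mod_cast hτ3
  have hℓτ : ℓ ≤ τ := (Real.log_le_sub_one_of_pos hτpos).trans (by linarith)
  set r : ℂ → ℝ := fun q => Real.exp (-(θ / d.ρ q) * ℓ) with hr
  set R : ℝ := Real.exp (xi * ℓ) with hR
  have hrδ : ∀ q ∈ d.D, r q < δ₁ := by
    intro q hq
    have h1 := hτ1 q hq
    have h2 : 0 < θ / d.ρ q := div_pos hθ (d.hρ q hq)
    rw [div_lt_iff₀ h2] at h1
    simp only [hr]
    rw [← Real.lt_log_iff_exp_lt hδ0]
    linarith
  have hRbig : 2 * K + 1 + 1 / d.δ < R := by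
    have hpos : 0 < 2 * K + 1 + 1 / d.δ := by have := d.hδ; positivity
    rw [div_lt_iff₀ hxi0] at hτ2
    rw [hR, ← Real.log_lt_iff_lt_exp hpos]
    linarith
  have hδinv : 0 < 1 / d.δ := by have := d.hδ; positivity
  have hR0 : 0 < R := Real.exp_pos _
  -- sums
  set Sn : ℝ := ∑ p ∈ d.I, (d.nn τ p : ℝ) with hSn
  set St : ℝ := ∑ q ∈ d.D, (d.tt τ q : ℝ) with hSt
  have hSn0 : 0 ≤ Sn := Finset.sum_nonneg fun _ _ => Nat.cast_nonneg _
  have hSt0 : 0 ≤ St := Finset.sum_nonneg fun _ _ => Nat.cast_nonneg _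
  have hSnle : Sn ≤ cI * τ := by
    calc Sn ≤ ∑ p ∈ d.I, (τ : ℝ) := Finset.sum_le_sum fun p hp => d.nn_le hp
      _ = cI * τ := by rw [Finset.sum_const, nsmul_eq_mul]
  have hStle : St ≤ g * Sρ * τ := by
    calc St ≤ ∑ q ∈ d.D, g * d.ρ q * τ := Finset.sum_le_sum fun q hq => d.tt_le hq
      _ = g * Sρ * τ := by rw [hSρ, Finset.mul_sum, Finset.sum_mul]
  have hSnge : (g * (Sρ + d.ρi)) * τ ≤ Sn := by
    have h1 : g * (Sρ + d.ρi) = ∑ p ∈ d.I, (1 : ℝ) / d.e p := by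
      rw [hg, gain]
      exact div_mul_cancel₀ _ d.total_pos.ne'
    rw [h1, Finset.sum_mul]
    refine Finset.sum_le_sum fun p hp => ?_
    have := d.nn_ge (τ := τ) hp
    calc (1 : ℝ) / d.e p * τ = τ / d.e p := by ring
      _ ≤ _ := this
  have hdiff : St - Sn ≤ -(g * d.ρi * τ) := by
    have : (g * (Sρ + d.ρi)) * τ = g * Sρ * τ + g * d.ρi * τ := by ring
    linarith
  set Φ : ℂ → ℂ := fun s => H s * ∏ q ∈ d.D, (s - q) ^ (d.tt τ q) with hΦ
  have hΦd : DifferentiableOn ℂ Φ ((d.D : Set ℂ)ᶜ) := by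
    refine hH.mul ?_
    refine DifferentiableOn.fun_finsetProd fun q _ => ?_
    exact ((differentiableOn_id.sub (differentiableOn_const q)).pow _)
  set M₁ : ℝ := Real.exp ((3 + lk + d.C + xi + X + (cI + g * Sρ) * (2 * lk + 1)) * τ -
    θ * g * τ * ℓ) with hM₁
  have hbound : ∀ s : ℂ, ‖s‖ ≤ R → (∀ q ∈ d.D, r q ≤ ‖s - q‖) →
      (‖s‖ = R ∨ ∃ q ∈ d.D, ‖s - q‖ = r q) → ‖Φ s‖ ≤ M₁ := by
    intro s hsR hsq hcase
    have hΦn : ‖Φ s‖ = ‖H s‖ * ∏ q ∈ d.D, ‖s - q‖ ^ (d.tt τ q) := by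
      simp only [hΦ, norm_mul, norm_prod, norm_pow]
    have hGn : ‖d.G S L c s‖ = ‖H s‖ * ∏ p ∈ d.I, ‖s - p‖ ^ (d.nn τ p) := by
      rw [hGH s, norm_mul, norm_prod]; simp only [norm_pow]
    have hLθ' : d.C * Real.exp (θ * ℓ) * L ≤ d.C * τ := by
      have : d.C * (L * Real.exp (θ * ℓ)) ≤ d.C * τ := by gcongr
      linarith
    rcases hcase with hcase | ⟨q, hq, hcase⟩
    · -- the large circle
      have hsδ : 1 / d.δ < ‖s‖ := by rw [hcase]; linarith
      obtain ⟨hU, hV⟩ := d.gi s hsδ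
      have hRρ : ‖s‖ ^ d.ρi = Real.exp (θ * ℓ) := by
        rw [hcase, hR, ← Real.exp_mul]
        congr 1
        rw [hxi]; field_simp [d.hρi.ne']
      rw [hRρ] at hU hV
      have hB1 : 1 ≤ Real.exp (d.C * Real.exp (θ * ℓ)) := Real.one_le_exp (by positivity)
      have hR1 : 1 ≤ R := by linarith
      have hG := d.G_norm (S := S) (L := L) hc hR1 hB1 hsR hU hV
      have hG2 : ‖d.G S L c s‖ ≤ Real.exp ((3 + xi + d.C) * τ) := by
        refine hG.trans ?_
        have e1 : R ^ S ≤ Real.exp (xi * τ) := by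
          rw [hR, ← Real.exp_nat_mul]
          apply Real.exp_le_exp.2
          have : xi * (S * ℓ) ≤ xi * τ := by gcongr
          linarith
        have e2 : Real.exp (d.C * Real.exp (θ * ℓ)) ^ L ≤ Real.exp (d.C * τ) := by
          rw [← Real.exp_nat_mul]
          apply Real.exp_le_exp.2
          linarith
        calc (S : ℝ) * L * 2 ^ h * R ^ S * Real.exp (d.C * Real.exp (θ * ℓ)) ^ L
            ≤ Real.exp τ * Real.exp τ * Real.exp τ * Real.exp (xi * τ) * Real.exp (d.C * τ) := by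
              gcongr
              · exact nat_le_exp hS
              · exact nat_le_exp hL
              · exact two_pow_le_exp hh
          _ = Real.exp ((3 + xi + d.C) * τ) := by
              rw [← Real.exp_add, ← Real.exp_add, ← Real.exp_add, ← Real.exp_add]
              congr 1; ring
      have hlow : Real.exp (Sn * Real.log (R / 2)) ≤ ∏ p ∈ d.I, ‖s - p‖ ^ (d.nn τ p) := by
        refine le_prod_pow (by positivity) fun p hp => ?_
        have h1 := (hgeo2 p hp).2.2.2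
        have h2 : ‖s‖ ≤ ‖s - p‖ + ‖p‖ := by
          calc ‖s‖ = ‖(s - p) + p‖ := by ring_nf
            _ ≤ _ := norm_add_le _ _
        rw [hcase] at h2
        linarith
      have hup : ∏ q ∈ d.D, ‖s - q‖ ^ (d.tt τ q) ≤ Real.exp (St * Real.log (2 * R)) := by
        refine prod_pow_le (by positivity) (fun q _ => norm_nonneg _) fun q hq => ?_
        have h1 := hgeo3 q hq
        calc ‖s - q‖ ≤ ‖s‖ + ‖q‖ := norm_sub_le _ _
          _ ≤ 2 * R := by rw [hcase]; linarith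
      have hH1 : ‖H s‖ ≤ Real.exp ((3 + xi + d.C) * τ) * Real.exp (-(Sn * Real.log (R / 2))) := by
        rw [Real.exp_neg, ← div_eq_mul_inv, le_div_iff₀ (Real.exp_pos _)]
        calc ‖H s‖ * Real.exp (Sn * Real.log (R / 2))
            ≤ ‖H s‖ * ∏ p ∈ d.I, ‖s - p‖ ^ (d.nn τ p) := by gcongr
          _ = ‖d.G S L c s‖ := hGn.symm
          _ ≤ _ := hG2
      have hlogR : Real.log R = xi * ℓ := by rw [hR, Real.log_exp]
      have hlR2 : Real.log (R / 2) = xi * ℓ - Real.log 2 := by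
        rw [Real.log_div hR0.ne' (by norm_num), hlogR]
      have hl2R : Real.log (2 * R) = xi * ℓ + Real.log 2 := by
        rw [Real.log_mul (by norm_num) hR0.ne', hlogR]; ring
      have hlog2 : Real.log 2 ≤ 1 := by
        have := Real.log_le_sub_one_of_pos (x := 2) (by norm_num)
        linarith
      have hlog20 : 0 ≤ Real.log 2 := Real.log_nonneg (by norm_num)
      rw [hΦn]
      calc ‖H s‖ * ∏ q ∈ d.D, ‖s - q‖ ^ (d.tt τ q)
          ≤ (Real.exp ((3 + xi + d.C) * τ) * Real.exp (-(Sn * Real.log (R / 2)))) *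
            Real.exp (St * Real.log (2 * R)) := by gcongr
        _ = Real.exp ((3 + xi + d.C) * τ - Sn * Real.log (R / 2) + St * Real.log (2 * R)) := by
            rw [← Real.exp_add, ← Real.exp_add]; congr 1
        _ ≤ M₁ := by
            apply Real.exp_le_exp.2
            rw [hlR2, hl2R]
            have h1 : xi * ℓ * (St - Sn) ≤ xi * ℓ * (-(g * d.ρi * τ)) := by gcongr
            have h2 : xi * ℓ * (-(g * d.ρi * τ)) = -(θ * g * τ * ℓ) := by
              rw [hxi]; field_simp [d.hρi.ne']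
            have h3 : (Sn + St) * Real.log 2 ≤ (Sn + St) * 1 := by gcongr
            have h4 : 0 ≤ (cI + g * Sρ) * (2 * lk) * τ := by positivity
            have h5 : 0 ≤ lk * τ := by positivity
            have h6 : 0 ≤ X * τ := by positivity
            have h7 : (Sn + St) * 1 ≤ (cI + g * Sρ) * τ := by linarith
            have e1 : (3 + xi + d.C) * τ - Sn * (xi * ℓ - Real.log 2) +
                St * (xi * ℓ + Real.log 2) = (3 + xi + d.C) * τ + xi * ℓ * (St - Sn) +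
                (Sn + St) * Real.log 2 := by ring
            have e2 : (3 + lk + d.C + xi + X + (cI + g * Sρ) * (2 * lk + 1)) * τ -
                θ * g * τ * ℓ = (3 + xi + d.C) * τ - θ * g * τ * ℓ + (cI + g * Sρ) * τ +
                lk * τ + X * τ + (cI + g * Sρ) * (2 * lk) * τ := by ring
            rw [e1, e2]
            linarith
    · -- small circles
      have hsδ : ‖s - q‖ < δ₁ := by rw [hcase]; exact hrδ q hq
      have hrpos : 0 < ‖s - q‖ := by rw [hcase]; exact Real.exp_pos _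
      obtain ⟨hU, hV⟩ := d.gq q hq s hrpos (hsδ.trans hδδ)
      have hrρ : ‖s - q‖ ^ (-d.ρ q) = Real.exp (θ * ℓ) := by
        rw [hcase]; simp only [hr]
        rw [← Real.exp_mul]
        congr 1
        have := (d.hρ q hq).ne'
        field_simp
      rw [hrρ] at hU hV
      have hB1 : 1 ≤ Real.exp (d.C * Real.exp (θ * ℓ)) := Real.one_le_exp (by positivity)
      obtain ⟨hsK, hsq', hsp⟩ := hgeo1 q hq s hsδ.le
      have hG := d.G_norm (S := S) (L := L) hc hK1 hB1 hsK hU hV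
      have hG2 : ‖d.G S L c s‖ ≤ Real.exp ((3 + lk + d.C) * τ) := by
        refine hG.trans ?_
        have e1 : K ^ S ≤ Real.exp (lk * τ) := by
          rw [pow_eq_exp hK0]
          apply Real.exp_le_exp.2
          have : (S : ℝ) * lk ≤ τ * lk := by gcongr
          linarith
        have e2 : Real.exp (d.C * Real.exp (θ * ℓ)) ^ L ≤ Real.exp (d.C * τ) := by
          rw [← Real.exp_nat_mul]
          apply Real.exp_le_exp.2
          linarith
        calc (S : ℝ) * L * 2 ^ h * K ^ S * Real.exp (d.C * Real.exp (θ * ℓ)) ^ L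
            ≤ Real.exp τ * Real.exp τ * Real.exp τ * Real.exp (lk * τ) * Real.exp (d.C * τ) := by
              gcongr
              · exact nat_le_exp hS
              · exact nat_le_exp hL
              · exact two_pow_le_exp hh
          _ = Real.exp ((3 + lk + d.C) * τ) := by
              rw [← Real.exp_add, ← Real.exp_add, ← Real.exp_add, ← Real.exp_add]
              congr 1; ring
      have hlow : Real.exp (Sn * Real.log (1 / K)) ≤ ∏ p ∈ d.I, ‖s - p‖ ^ (d.nn τ p) :=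
        le_prod_pow (by positivity) fun p hp => hsp p hp
      have hup : ∏ q' ∈ d.D, ‖s - q'‖ ^ (d.tt τ q') ≤
          Real.exp (-(θ / d.ρ q) * ℓ * d.tt τ q) * Real.exp (St * lk) := by
        rw [← Finset.mul_prod_erase d.D _ hq]
        have h1 : ‖s - q‖ ^ (d.tt τ q) = Real.exp (-(θ / d.ρ q) * ℓ * d.tt τ q) := by
          rw [hcase]; simp only [hr]; rw [← Real.exp_nat_mul]; congr 1; ring
        rw [h1]
        have h2 : ∏ q' ∈ d.D.erase q, ‖s - q'‖ ^ (d.tt τ q') ≤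
            Real.exp ((∑ q' ∈ d.D.erase q, (d.tt τ q' : ℝ)) * lk) :=
          prod_pow_le hK0 (fun q _ => norm_nonneg _) fun q' hq' =>
            hsq' q' (Finset.mem_of_mem_erase hq')
        have h3 : (∑ q' ∈ d.D.erase q, (d.tt τ q' : ℝ)) * lk ≤ St * lk := by
          apply mul_le_mul_of_nonneg_right _ hlk0
          exact Finset.sum_le_sum_of_subset_of_nonneg (Finset.erase_subset _ _)
            fun _ _ _ => Nat.cast_nonneg _
        have h4 : ∏ q' ∈ d.D.erase q, ‖s - q'‖ ^ (d.tt τ q') ≤ Real.exp (St * lk) :=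
          h2.trans (Real.exp_le_exp.2 h3)
        gcongr
      have hH1 : ‖H s‖ ≤ Real.exp ((3 + lk + d.C) * τ) * Real.exp (-(Sn * Real.log (1 / K))) := by
        rw [Real.exp_neg, ← div_eq_mul_inv, le_div_iff₀ (Real.exp_pos _)]
        calc ‖H s‖ * Real.exp (Sn * Real.log (1 / K))
            ≤ ‖H s‖ * ∏ p ∈ d.I, ‖s - p‖ ^ (d.nn τ p) := by gcongr
          _ = ‖d.G S L c s‖ := hGn.symm
          _ ≤ _ := hG2
      have hl1K : Real.log (1 / K) = -lk := by rw [one_div, Real.log_inv]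
      rw [hΦn]
      calc ‖H s‖ * ∏ q' ∈ d.D, ‖s - q'‖ ^ (d.tt τ q')
          ≤ (Real.exp ((3 + lk + d.C) * τ) * Real.exp (-(Sn * Real.log (1 / K)))) *
            (Real.exp (-(θ / d.ρ q) * ℓ * d.tt τ q) * Real.exp (St * lk)) := by gcongr
        _ = Real.exp ((3 + lk + d.C) * τ - Sn * Real.log (1 / K) +
            (-(θ / d.ρ q) * ℓ * d.tt τ q) + St * lk) := by
            rw [← Real.exp_add, ← Real.exp_add, ← Real.exp_add]; congr 1; ring
        _ ≤ M₁ := by
            apply Real.exp_le_exp.2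
            rw [hl1K]
            have hρq := d.hρ q hq
            have h0 := d.tt_ge (τ := τ) (q := q)
            have h1 : (θ / d.ρ q) * ℓ * (g * d.ρ q * τ - 1) ≤ (θ / d.ρ q) * ℓ * d.tt τ q := by
              gcongr
            have h2 : (θ / d.ρ q) * ℓ * (g * d.ρ q * τ - 1) =
                θ * g * τ * ℓ - (θ / d.ρ q) * ℓ := by
              field_simp
            have h3 : (θ / d.ρ q) * ℓ ≤ X * τ := by
              have := hXq q hq
              gcongr
            have h4 : Sn * lk ≤ cI * τ * lk := by gcongr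
            have h5 : St * lk ≤ g * Sρ * τ * lk := by gcongr
            have h6 : 0 ≤ (cI + g * Sρ) * (lk + 1) * τ := by positivity
            have h7 : 0 ≤ xi * τ := by positivity
            have e2 : (3 + lk + d.C + xi + X + (cI + g * Sρ) * (2 * lk + 1)) * τ -
                θ * g * τ * ℓ = (3 + lk + d.C) * τ - θ * g * τ * ℓ + cI * τ * lk +
                g * Sρ * τ * lk + X * τ + xi * τ + (cI + g * Sρ) * (lk + 1) * τ := by ring
            have e1 : (3 + lk + d.C) * τ - Sn * -lk + -(θ / d.ρ q) * ℓ * d.tt τ q + St * lk =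
                (3 + lk + d.C) * τ + Sn * lk - (θ / d.ρ q) * ℓ * d.tt τ q + St * lk := by ring
            rw [e1, e2]
            linarith
  have hp₀R : ‖p₀‖ < R := by
    have := (hgeo2 p₀ hp₀).2.2.2; linarith
  have hp₀q : ∀ q ∈ d.D, r q < ‖p₀ - q‖ := fun q hq =>
    (hrδ q hq).trans ((hgeo2 p₀ hp₀).1 q hq).2
  have hfin := max_principle (D := d.D) (r := r) (R := R) (fun q _ => Real.exp_pos _) hΦd hbound
    hp₀R hp₀q
  have hΦn : ‖Φ p₀‖ = ‖H p₀‖ * ∏ q ∈ d.D, ‖p₀ - q‖ ^ (d.tt τ q) := by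
    simp only [hΦ, norm_mul, norm_prod, norm_pow]
  have hlow : Real.exp (St * Real.log (1 / K)) ≤ ∏ q ∈ d.D, ‖p₀ - q‖ ^ (d.tt τ q) :=
    le_prod_pow (by positivity) fun q hq => ((hgeo2 p₀ hp₀).1 q hq).1
  have hl1K : Real.log (1 / K) = -lk := by rw [one_div, Real.log_inv]
  have hH1 : ‖H p₀‖ ≤ M₁ * Real.exp (St * lk) := by
    have h1 : ‖H p₀‖ * Real.exp (St * Real.log (1 / K)) ≤ M₁ := by
      calc ‖H p₀‖ * Real.exp (St * Real.log (1 / K))
          ≤ ‖H p₀‖ * ∏ q ∈ d.D, ‖p₀ - q‖ ^ (d.tt τ q) := by gcongr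
        _ = ‖Φ p₀‖ := hΦn.symm
        _ ≤ M₁ := hfin
    rw [hl1K, mul_neg, Real.exp_neg, ← div_eq_mul_inv, div_le_iff₀ (Real.exp_pos _)] at h1
    exact h1
  have hup : ∏ q ∈ d.I.erase p₀, ‖p₀ - q‖ ^ (d.nn τ q) ≤ Real.exp (Sn * lk) := by
    have h2 : ∏ q ∈ d.I.erase p₀, ‖p₀ - q‖ ^ (d.nn τ q) ≤
        Real.exp ((∑ q ∈ d.I.erase p₀, (d.nn τ q : ℝ)) * lk) :=
      prod_pow_le hK0 (fun q _ => norm_nonneg _) fun q hq =>
        (hgeo2 p₀ hp₀).2.1 q (Finset.mem_of_mem_erase hq)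
    refine h2.trans (Real.exp_le_exp.2 ?_)
    apply mul_le_mul_of_nonneg_right _ hlk0
    exact Finset.sum_le_sum_of_subset_of_nonneg (Finset.erase_subset _ _)
      fun _ _ _ => Nat.cast_nonneg _
  rw [norm_mul, norm_prod]
  simp only [norm_pow]
  calc ‖H p₀‖ * ∏ q ∈ d.I.erase p₀, ‖p₀ - q‖ ^ (d.nn τ q)
      ≤ (M₁ * Real.exp (St * lk)) * Real.exp (Sn * lk) := by gcongr
    _ = Real.exp (((3 + lk + d.C + xi + X + (cI + g * Sρ) * (2 * lk + 1)) * τ -
        θ * g * τ * ℓ) + St * lk + Sn * lk) := by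
        rw [hM₁, ← Real.exp_add, ← Real.exp_add]
    _ ≤ Real.exp (E * τ - θ * g * τ * ℓ) := by
        apply Real.exp_le_exp.2
        have h4 : Sn * lk ≤ cI * τ * lk := by gcongr
        have h5 : St * lk ≤ g * Sρ * τ * lk := by gcongr
        have e2 : E * τ = (3 + lk + d.C + xi + X + (cI + g * Sρ) * (2 * lk + 1)) * τ +
            cI * τ * lk + g * Sρ * τ * lk := by rw [hE]; ring
        rw [e2]
        linarith

end SLData

end

end Pool.Agent.Helper433.ES
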