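import Pool.Agent.Helper433_ES.SL4

/-! Arithmetic input and numerical lemmas. -/

namespace Pool.Agent.Helper433.ES

open PowerSeries Filter Topology Finset

noncomputable section

lemma le_two_pow_self (n : ℕ) : n ≤ 2 ^ n := Nat.lt_two_pow_self.le

lemma pow_le_two_pow (M x : ℕ) : M ^ x ≤ 2 ^ (M * x) := by
  rw [pow_mul]
  exact Nat.pow_le_pow_left (le_two_pow_self M) x

/-- the counting inequality -/
lemma count_ineq (Em M κ Q m₀ r : ℕ) (hr : 7 ≤ r) : ∀ᶠ n : ℕ in atTop,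
    (4 * (2 ^ (n ^ (r - 1)) * n ^ (r - 2) * n ^ 5 * M ^ (n ^ (r - 2) + n ^ r + n ^ 5) *
      (Em * n ^ r + κ * n ^ 5).factorial * Q ^ (n ^ (r - 2) + n ^ 5 + n ^ r)) + 1) ^
      (2 * (m₀ * n ^ r)) < (2 ^ (n ^ (r - 1)) + 1) ^ (n ^ (r - 2) * n ^ 5) := by
  set E : ℕ := 3 + 1 + 1 + 1 + 3 * M + (Em + κ) + 3 * Q with hE
  have ev1 : ∀ᶠ n : ℕ in atTop, (Em + κ) * n ^ r ≤ 2 ^ n := by
    have h1 : Tendsto (fun n : ℕ => (n : ℝ) ^ r / 2 ^ n) atTop (𝓝 0) := by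
      have := tendsto_pow_const_div_const_pow_of_one_lt r (one_lt_two (α := ℝ))
      exact this
    have h2 : ∀ᶠ n : ℕ in atTop, (n : ℝ) ^ r / 2 ^ n < 1 / ((Em + κ : ℕ) + 1) :=
      h1.eventually_lt_const (by positivity)
    filter_upwards [h2] with n hn
    rw [div_lt_div_iff₀ (by positivity) (by positivity)] at hn
    have h3 : (((Em + κ) * n ^ r : ℕ) : ℝ) ≤ ((2 ^ n : ℕ) : ℝ) := by
      push_cast at hn ⊢
      have : (0 : ℝ) ≤ (n : ℝ) ^ r := by positivity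
      nlinarith
    exact_mod_cast h3
  filter_upwards [ev1, eventually_gt_atTop (2 * m₀ * E + 1)] with n hn1 hn2
  have hn0 : 1 ≤ n := by omega
  have p1 : ∀ i j, i ≤ j → n ^ i ≤ n ^ j := fun i j h => Nat.pow_le_pow_right hn0 h
  have hh : n ^ (r - 1) ≤ n ^ (r + 1) := p1 _ _ (by omega)
  have hS : n ^ (r - 2) ≤ n ^ r := p1 _ _ (by omega)
  have hL : n ^ 5 ≤ n ^ r := p1 _ _ (by omega)
  have hT : n ^ r ≤ n ^ (r + 1) := p1 _ _ (by omega)
  -- the factors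
  have f1 : 2 ^ (n ^ (r - 1)) ≤ 2 ^ (n ^ (r + 1)) := Nat.pow_le_pow_right (by norm_num) hh
  have f2 : n ^ (r - 2) ≤ 2 ^ (n ^ (r + 1)) :=
    (le_two_pow_self _).trans (Nat.pow_le_pow_right (by norm_num) (hS.trans hT))
  have f3 : n ^ 5 ≤ 2 ^ (n ^ (r + 1)) :=
    (le_two_pow_self _).trans (Nat.pow_le_pow_right (by norm_num) (hL.trans hT))
  have f4 : M ^ (n ^ (r - 2) + n ^ r + n ^ 5) ≤ 2 ^ (3 * M * n ^ (r + 1)) := by
    refine (pow_le_two_pow _ _).trans (Nat.pow_le_pow_right (by norm_num) ?_)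
    calc M * (n ^ (r - 2) + n ^ r + n ^ 5) ≤ M * (n ^ (r + 1) + n ^ (r + 1) + n ^ (r + 1)) := by
          gcongr <;> omega
      _ = 3 * M * n ^ (r + 1) := by ring
  have f6 : Q ^ (n ^ (r - 2) + n ^ 5 + n ^ r) ≤ 2 ^ (3 * Q * n ^ (r + 1)) := by
    refine (pow_le_two_pow _ _).trans (Nat.pow_le_pow_right (by norm_num) ?_)
    calc Q * (n ^ (r - 2) + n ^ 5 + n ^ r) ≤ Q * (n ^ (r + 1) + n ^ (r + 1) + n ^ (r + 1)) := by
          gcongr <;> omega
      _ = 3 * Q * n ^ (r + 1) := by ring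
  have f5 : (Em * n ^ r + κ * n ^ 5).factorial ≤ 2 ^ ((Em + κ) * n ^ (r + 1)) := by
    have g1 : Em * n ^ r + κ * n ^ 5 ≤ (Em + κ) * n ^ r := by
      calc Em * n ^ r + κ * n ^ 5 ≤ Em * n ^ r + κ * n ^ r := by gcongr
        _ = _ := by ring
    calc (Em * n ^ r + κ * n ^ 5).factorial ≤ ((Em + κ) * n ^ r).factorial :=
          Nat.factorial_le g1
      _ ≤ ((Em + κ) * n ^ r) ^ ((Em + κ) * n ^ r) := Nat.factorial_le_pow _
      _ ≤ (2 ^ n) ^ ((Em + κ) * n ^ r) := Nat.pow_le_pow_left hn1 _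
      _ = 2 ^ ((Em + κ) * n ^ (r + 1)) := by rw [← pow_mul]; congr 1; ring
  set B := 2 ^ (n ^ (r - 1)) * n ^ (r - 2) * n ^ 5 * M ^ (n ^ (r - 2) + n ^ r + n ^ 5) *
      (Em * n ^ r + κ * n ^ 5).factorial * Q ^ (n ^ (r - 2) + n ^ 5 + n ^ r) with hB
  have hBle : B ≤ 2 ^ ((1 + 1 + 1 + 3 * M + (Em + κ) + 3 * Q) * n ^ (r + 1)) := by
    calc B ≤ 2 ^ (n ^ (r + 1)) * 2 ^ (n ^ (r + 1)) * 2 ^ (n ^ (r + 1)) *
          2 ^ (3 * M * n ^ (r + 1)) * 2 ^ ((Em + κ) * n ^ (r + 1)) * 2 ^ (3 * Q * n ^ (r + 1)) := by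
          rw [hB]; gcongr
      _ = _ := by rw [← pow_add, ← pow_add, ← pow_add, ← pow_add, ← pow_add]; congr 1; ring
  have h4B : 4 * B + 1 ≤ 2 ^ (E * n ^ (r + 1)) := by
    have g1 : 1 ≤ 2 ^ ((1 + 1 + 1 + 3 * M + (Em + κ) + 3 * Q) * n ^ (r + 1)) :=
      Nat.one_le_two_pow
    have g2 : 1 ≤ n ^ (r + 1) := Nat.one_le_pow _ _ hn0
    calc 4 * B + 1 ≤ 8 * 2 ^ ((1 + 1 + 1 + 3 * M + (Em + κ) + 3 * Q) * n ^ (r + 1)) := by omega
      _ = 2 ^ (3 + (1 + 1 + 1 + 3 * M + (Em + κ) + 3 * Q) * n ^ (r + 1)) := by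
          have h8 : (2 : ℕ) ^ 3 = 8 := by norm_num
          rw [pow_add 2 3, h8]
      _ ≤ 2 ^ (E * n ^ (r + 1)) := by
          apply Nat.pow_le_pow_right (by norm_num)
          rw [hE]
          nlinarith
  calc (4 * B + 1) ^ (2 * (m₀ * n ^ r)) ≤ (2 ^ (E * n ^ (r + 1))) ^ (2 * (m₀ * n ^ r)) :=
        Nat.pow_le_pow_left h4B _
    _ = 2 ^ ((2 * m₀ * E) * n ^ (2 * r + 1)) := by
        rw [← pow_mul]; congr 1; rw [two_mul r]; ring
    _ < 2 ^ (n * n ^ (2 * r + 1)) := by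
        apply Nat.pow_lt_pow_right (by norm_num)
        have : 0 < n ^ (2 * r + 1) := by positivity
        apply Nat.mul_lt_mul_of_pos_right _ this
        omega
    _ = (2 ^ (n ^ (r - 1))) ^ (n ^ (r - 2) * n ^ 5) := by
        rw [← pow_mul]; congr 1
        rw [← pow_succ', ← pow_add, ← pow_add]; congr 1; omega
    _ ≤ (2 ^ (n ^ (r - 1)) + 1) ^ (n ^ (r - 2) * n ^ 5) := Nat.pow_le_pow_left (by omega) _

/-- size conditions -/
lemma size_ineq (θ : ℝ) (r : ℕ) (hr : 7 ≤ r) (hθ : 5 / (r : ℝ) ≤ 1 - θ) :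
    ∀ᶠ τ : ℕ in atTop, ∀ n : ℕ, n ^ r ≤ τ → 1 ≤ n →
      ((n ^ (r - 2) : ℕ) : ℝ) ≤ τ ∧ ((n ^ (r - 2) : ℕ) : ℝ) * Real.log τ ≤ τ ∧
      ((n ^ 5 : ℕ) : ℝ) ≤ τ ∧ ((n ^ 5 : ℕ) : ℝ) * Real.exp (θ * Real.log τ) ≤ τ ∧
      ((n ^ (r - 1) : ℕ) : ℝ) ≤ τ ∧ ((n ^ 5 : ℕ) : ℝ) * Real.log τ ≤ τ := by
  have hr0 : (0 : ℝ) < r := by exact_mod_cast (by omega : 0 < r)
  have hlog : Tendsto (fun τ : ℕ => Real.log (τ : ℝ)) atTop atTop :=
    Real.tendsto_log_atTop.comp tendsto_natCast_atTop_atTop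
  have ev1 : ∀ᶠ τ : ℕ in atTop, Real.log τ ≤ Real.exp (2 / r * Real.log τ) := by
    have h1 : ∀ᶠ x : ℝ in atTop, x ≤ Real.exp (2 / r * x) := by
      have h2 : Tendsto (fun x : ℝ => Real.exp (2 / r * x) / x) atTop atTop := by
        have := tendsto_exp_mul_div_rpow_atTop 1 (2 / (r : ℝ)) (by positivity)
        simpa using this
      filter_upwards [h2.eventually_ge_atTop 1, eventually_gt_atTop 0] with x hx hx0
      rw [le_div_iff₀ hx0] at hx
      linarith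
    exact hlog.eventually h1
  filter_upwards [ev1, eventually_ge_atTop 1] with τ hτ hτ1 n hn hn1
  have hτpos : (0 : ℝ) < τ := by exact_mod_cast hτ1
  have hnpos : (0 : ℝ) < n := by exact_mod_cast hn1
  have hpow : ∀ i, i ≤ r → ((n ^ i : ℕ) : ℝ) ≤ τ := by
    intro i hi
    have : n ^ i ≤ τ := (Nat.pow_le_pow_right hn1 hi).trans hn
    exact_mod_cast this
  have hlogn : r * Real.log n ≤ Real.log τ := by
    have h1 : ((n : ℝ) ^ r) ≤ τ := by exact_mod_cast hn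
    have h2 := Real.log_le_log (by positivity) h1
    rwa [Real.log_pow] at h2
  have hS : ((n ^ (r - 2) : ℕ) : ℝ) * Real.log τ ≤ τ := by
    have h1 : ((n ^ (r - 2) : ℕ) : ℝ) = Real.exp ((r - 2 : ℕ) * Real.log n) := by
      push_cast
      rw [Real.exp_nat_mul, Real.exp_log hnpos]
    have h2 : ((r - 2 : ℕ) : ℝ) * Real.log n + 2 / r * Real.log τ ≤ Real.log τ := by
      have h3 : ((r - 2 : ℕ) : ℝ) = r - 2 := by
        rw [Nat.cast_sub (by omega)]; norm_num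
      have h4 : Real.log n ≤ Real.log τ / r := by
        rw [le_div_iff₀ hr0]; linarith
      have h5 : (0 : ℝ) ≤ r - 2 := by
        have : (7 : ℝ) ≤ r := by exact_mod_cast hr
        linarith
      rw [h3]
      calc ((r : ℝ) - 2) * Real.log n + 2 / r * Real.log τ
          ≤ ((r : ℝ) - 2) * (Real.log τ / r) + 2 / r * Real.log τ := by gcongr
        _ = Real.log τ := by field_simp; ring
    calc ((n ^ (r - 2) : ℕ) : ℝ) * Real.log τ
        ≤ Real.exp ((r - 2 : ℕ) * Real.log n) * Real.exp (2 / r * Real.log τ) := by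
          rw [h1]; gcongr
      _ = Real.exp ((r - 2 : ℕ) * Real.log n + 2 / r * Real.log τ) := by rw [Real.exp_add]
      _ ≤ Real.exp (Real.log τ) := Real.exp_le_exp.2 h2
      _ = τ := Real.exp_log hτpos
  refine ⟨hpow _ (by omega), hS, hpow _ (by omega), ?_, hpow _ (by omega), ?_⟩
  · have h1 : ((n ^ 5 : ℕ) : ℝ) = Real.exp (5 * Real.log n) := by
      push_cast
      have := Real.exp_nat_mul (Real.log n) 5
      push_cast at this
      rw [this, Real.exp_log hnpos]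
    rw [h1, ← Real.exp_add]
    calc Real.exp (5 * Real.log n + θ * Real.log τ) ≤ Real.exp (Real.log τ) := by
          apply Real.exp_le_exp.2
          have h4 : Real.log n ≤ Real.log τ / r := by
            rw [le_div_iff₀ hr0]; linarith
          have h5 : 0 ≤ Real.log τ := Real.log_nonneg (by exact_mod_cast hτ1)
          have h6 : 5 / (r : ℝ) * Real.log τ ≤ (1 - θ) * Real.log τ := by gcongr
          have h7 : 5 * (Real.log τ / r) = 5 / (r : ℝ) * Real.log τ := by ring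
          linarith
      _ = τ := Real.exp_log hτpos
  · refine le_trans ?_ hS
    have h5 : 0 ≤ Real.log τ := Real.log_nonneg (by exact_mod_cast hτ1)
    apply mul_le_mul_of_nonneg_right _ h5
    have : n ^ 5 ≤ n ^ (r - 2) := Nat.pow_le_pow_right hn1 (by omega)
    exact_mod_cast this

/-- the final comparison -/
lemma final_ineq (g θ E K : ℝ) (M κ : ℕ) (hθg : 1 < θ * g) (hK : 0 ≤ K)
    (hM : 0 < M) : ∀ᶠ τ : ℕ in atTop, ∀ S L N : ℕ, (S : ℝ) ≤ τ → (L : ℝ) ≤ τ → (N : ℝ) ≤ τ →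
      (L : ℝ) * Real.log τ ≤ τ →
      ((M ^ (S + N + L) * (τ + κ * L).factorial : ℕ) : ℝ) *
        (Real.exp (E * τ - θ * g * τ * Real.log τ) * Real.exp (L * K)) < 1 := by
  have hlog : Tendsto (fun τ : ℕ => Real.log (τ : ℝ)) atTop atTop :=
    Real.tendsto_log_atTop.comp tendsto_natCast_atTop_atTop
  set E' : ℝ := 3 * Real.log M + (2 * κ + κ ^ 2) + E + K with hE'
  filter_upwards [hlog.eventually_gt_atTop (E' / (θ * g - 1)), eventually_ge_atTop 1]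
    with τ hτ hτ1 S L N hS hL hN hLl
  have hτpos : (0 : ℝ) < τ := by exact_mod_cast hτ1
  set ℓ := Real.log τ with hℓ
  have hℓ0 : 0 ≤ ℓ := Real.log_nonneg (by exact_mod_cast hτ1)
  have hMpos : (0 : ℝ) < M := by exact_mod_cast hM
  have hlM : 0 ≤ Real.log M := Real.log_nonneg (by exact_mod_cast hM)
  have hL0 : (0 : ℝ) ≤ L := Nat.cast_nonneg _
  have hκ0 : (0 : ℝ) ≤ κ := Nat.cast_nonneg _
  have h1 : ((M ^ (S + N + L) : ℕ) : ℝ) ≤ Real.exp (3 * Real.log M * τ) := by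
    push_cast
    rw [pow_eq_exp hMpos]
    apply Real.exp_le_exp.2
    push_cast
    have : ((S : ℝ) + N + L) * Real.log M ≤ (3 * τ) * Real.log M := by gcongr; linarith
    linarith
  have h2 : (((τ + κ * L).factorial : ℕ) : ℝ) ≤ Real.exp (τ * ℓ + (2 * κ + κ ^ 2) * τ) := by
    have hpos : (0 : ℝ) < ((τ + κ * L : ℕ) : ℝ) := by
      have : 0 < τ + κ * L := by omega
      exact_mod_cast this
    have h3 : (((τ + κ * L).factorial : ℕ) : ℝ) ≤ (((τ + κ * L : ℕ) : ℝ)) ^ (τ + κ * L) := by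
      exact_mod_cast Nat.factorial_le_pow _
    refine h3.trans ?_
    rw [pow_eq_exp hpos]
    apply Real.exp_le_exp.2
    have h4 : Real.log ((τ + κ * L : ℕ) : ℝ) ≤ ℓ + κ := by
      have h5 : ((τ + κ * L : ℕ) : ℝ) = τ * (1 + κ * L / τ) := by
        push_cast; field_simp
      rw [h5, Real.log_mul hτpos.ne' (by positivity)]
      have h6 : Real.log (1 + κ * L / τ) ≤ κ * L / τ := by
        have := Real.log_le_sub_one_of_pos (x := 1 + κ * L / τ) (by positivity)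
        linarith
      have h7 : (κ : ℝ) * L / τ ≤ κ := by
        rw [div_le_iff₀ hτpos]; gcongr
      linarith
    calc ((τ + κ * L : ℕ) : ℝ) * Real.log ((τ + κ * L : ℕ) : ℝ)
        ≤ ((τ + κ * L : ℕ) : ℝ) * (ℓ + κ) := by gcongr
      _ = τ * ℓ + κ * τ + κ * (L * ℓ) + κ ^ 2 * L := by push_cast; ring
      _ ≤ τ * ℓ + κ * τ + κ * τ + κ ^ 2 * τ := by gcongr
      _ = _ := by ring
  have h3 : Real.exp (L * K) ≤ Real.exp (K * τ) := by
    apply Real.exp_le_exp.2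
    rw [mul_comm]; gcongr
  have hfin : E' * τ < (θ * g - 1) * τ * ℓ := by
    rw [div_lt_iff₀ (by linarith)] at hτ
    nlinarith
  calc ((M ^ (S + N + L) * (τ + κ * L).factorial : ℕ) : ℝ) *
        (Real.exp (E * τ - θ * g * τ * ℓ) * Real.exp (L * K))
      = ((M ^ (S + N + L) : ℕ) : ℝ) * (((τ + κ * L).factorial : ℕ) : ℝ) *
        (Real.exp (E * τ - θ * g * τ * ℓ) * Real.exp (L * K)) := by push_cast; ring
    _ ≤ Real.exp (3 * Real.log M * τ) * Real.exp (τ * ℓ + (2 * κ + κ ^ 2) * τ) *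
        (Real.exp (E * τ - θ * g * τ * ℓ) * Real.exp (K * τ)) := by gcongr
    _ = Real.exp (E' * τ - (θ * g - 1) * τ * ℓ) := by
        rw [← Real.exp_add, ← Real.exp_add, ← Real.exp_add]; congr 1; rw [hE']; ring
    _ < 1 := by
        rw [Real.exp_lt_one_iff]; linarith

end

end Pool.Agent.Helper433.ES
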