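import Pool.Agent.Helper433_ES.Tay

/-! Laurent splitting on an annulus. -/

namespace Pool.Agent.Helper433.ES

open Filter Topology Metric Real Complex

noncomputable section

/-- the Cauchy integral of `g` over the circle of radius `r` around `0` -/
def cau (g : ℂ → ℂ) (r : ℝ) (s : ℂ) : ℂ :=
  (2 * (π : ℂ) * Complex.I)⁻¹ • ∮ z in C(0, r), (z - s)⁻¹ • g z

lemma cau_diff {g : ℂ → ℂ} {r : ℝ} (hr : 0 < r) (hg : ContinuousOn g (sphere 0 r)) :
    DifferentiableOn ℂ (cau g r) (ball 0 r) := by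
  lift r to NNReal using hr.le
  have h1 : CircleIntegrable g 0 r := hg.circleIntegrable hr.le
  have h2 := hasFPowerSeriesOn_cauchy_integral h1 (by exact_mod_cast hr)
  have h3 := h2.analyticOnNhd
  rw [Metric.eball_coe] at h3
  exact h3.differentiableOn

/-- the Cauchy formula on an annulus -/
lemma cau_annulus {g : ℂ → ℂ} {ρ₁ ρ₂ r₁ r₂ : ℝ} (hr1 : 0 < r₁) (h1 : ρ₁ < r₁)
    (h2 : r₂ < ρ₂) (hg : DifferentiableOn ℂ g {s | ρ₁ < ‖s‖ ∧ ‖s‖ < ρ₂}) {s : ℂ}
    (hs1 : r₁ < ‖s‖) (hs2 : ‖s‖ < r₂) : g s = cau g r₂ s - cau g r₁ s := by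
  have hO : IsOpen {s : ℂ | ρ₁ < ‖s‖ ∧ ‖s‖ < ρ₂} :=
    (isOpen_lt continuous_const continuous_norm).inter (isOpen_lt continuous_norm continuous_const)
  have hr12 : r₁ < r₂ := hs1.trans hs2
  have hr2 : 0 < r₂ := hr1.trans hr12
  have hsO : s ∈ {s : ℂ | ρ₁ < ‖s‖ ∧ ‖s‖ < ρ₂} := ⟨h1.trans hs1, hs2.trans h2⟩
  have hd : DifferentiableOn ℂ (dslope g s) {s | ρ₁ < ‖s‖ ∧ ‖s‖ < ρ₂} :=
    (Complex.differentiableOn_dslope (hO.mem_nhds hsO)).2 hg
  have hsub : closedBall (0 : ℂ) r₂ \ ball 0 r₁ ⊆ {s | ρ₁ < ‖s‖ ∧ ‖s‖ < ρ₂} := by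
    intro w hw
    obtain ⟨hw1, hw2⟩ := hw
    rw [mem_closedBall_zero_iff] at hw1
    rw [mem_ball_zero_iff, not_lt] at hw2
    exact ⟨by linarith, by linarith⟩
  have key := Complex.circleIntegral_eq_of_differentiable_on_annulus_off_countable
    (c := (0 : ℂ)) hr1 hr12.le (f := dslope g s) (s := ∅) Set.countable_empty
    (hd.continuousOn.mono hsub) (fun z hz => by
      have hz' : z ∈ ball (0 : ℂ) r₂ \ closedBall 0 r₁ := hz.1
      have hz2 : z ∈ {s : ℂ | ρ₁ < ‖s‖ ∧ ‖s‖ < ρ₂} := by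
        obtain ⟨hw1, hw2⟩ := hz'
        rw [mem_ball_zero_iff] at hw1
        rw [mem_closedBall_zero_iff, not_le] at hw2
        exact ⟨by linarith, by linarith⟩
      exact (hd z hz2).differentiableAt (hO.mem_nhds hz2))
  have hcirc : ∀ r : ℝ, 0 < r → ρ₁ < r → r < ρ₂ → r ≠ ‖s‖ →
      (∮ z in C(0, r), dslope g s z) = (∮ z in C(0, r), (z - s)⁻¹ • g z) -
        (∮ z in C(0, r), (z - s)⁻¹) * g s := by
    intro r hr hρ1 hρ2 hne
    have hsph : ∀ z ∈ sphere (0 : ℂ) r, z - s ≠ 0 := by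
      intro z hz h0
      rw [sub_eq_zero] at h0
      rw [mem_sphere_zero_iff_norm] at hz
      rw [h0] at hz
      exact hne hz.symm
    have hgc : ContinuousOn g (sphere 0 r) := hg.continuousOn.mono fun z hz => by
      rw [mem_sphere_zero_iff_norm] at hz
      exact ⟨by rw [hz]; exact hρ1, by rw [hz]; exact hρ2⟩
    have hinv : ContinuousOn (fun z : ℂ => (z - s)⁻¹) (sphere 0 r) :=
      ContinuousOn.inv₀ (by fun_prop) hsph
    have e1 : (∮ z in C(0, r), dslope g s z) =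
        ∮ z in C(0, r), ((z - s)⁻¹ • g z - (z - s)⁻¹ * g s) := by
      refine circleIntegral.integral_congr hr.le fun z hz => ?_
      have hzs : z ≠ s := fun h => hsph z hz (sub_eq_zero.2 h)
      rw [dslope_of_ne _ hzs, slope_def_field, smul_eq_mul, div_eq_inv_mul, mul_sub]
    have c1 : CircleIntegrable (fun z => (z - s)⁻¹ • g z) 0 r :=
      (hinv.smul hgc).circleIntegrable hr.le
    have c2 : CircleIntegrable (fun z => (z - s)⁻¹ * g s) 0 r :=
      (hinv.mul continuousOn_const).circleIntegrable hr.le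
    rw [e1, circleIntegral.integral_sub c1 c2]
    congr 1
    have := circleIntegral.integral_smul_const (fun z : ℂ => (z - s)⁻¹) (g s) 0 r
    simpa only [smul_eq_mul] using this
  have i2 : (∮ z in C(0, r₂), (z - s)⁻¹) = 2 * (π : ℂ) * Complex.I :=
    circleIntegral.integral_sub_inv_of_mem_ball (by rw [mem_ball_zero_iff]; exact hs2)
  have i1 : (∮ z in C(0, r₁), (z - s)⁻¹) = 0 := by
    refine Complex.circleIntegral_eq_zero_of_differentiable_on_off_countable hr1.le
      Set.countable_empty ?_ ?_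
    · refine ContinuousOn.inv₀ (by fun_prop) fun z hz h0 => ?_
      rw [sub_eq_zero] at h0
      rw [mem_closedBall_zero_iff, h0] at hz
      linarith
    · intro z hz
      have hz1 := hz.1
      rw [mem_ball_zero_iff] at hz1
      refine DifferentiableAt.inv (by fun_prop) fun h0 => ?_
      rw [sub_eq_zero] at h0
      rw [h0] at hz1
      linarith
  rw [hcirc r₂ hr2 (by linarith) h2 hs2.ne', hcirc r₁ hr1 h1 (by linarith) hs1.ne, i1, i2,
    zero_mul, sub_zero] at key
  have hpi : (2 * (π : ℂ) * Complex.I) ≠ 0 := Complex.two_pi_I_ne_zero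
  unfold cau
  rw [← key, smul_eq_mul, smul_eq_mul, mul_sub]
  field_simp
  ring

/-- inversion of circle integrals -/
lemma circle_inv (f : ℂ → ℂ) {r : ℝ} (hr : 0 < r) :
    (∮ z in C(0, r⁻¹), f z) = ∮ z in C(0, r), f z⁻¹ * (z⁻¹) ^ 2 := by
  unfold circleIntegral
  have h := intervalIntegral.integral_comp_sub_left
    (fun θ => deriv (circleMap 0 r⁻¹) θ • f (circleMap 0 r⁻¹ θ)) (2 * π) (a := 0) (b := 2 * π)
  rw [sub_self, sub_zero] at h
  rw [← h]
  refine intervalIntegral.integral_congr fun θ _ => ?_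
  have hr0 : (r : ℂ) ≠ 0 := by exact_mod_cast hr.ne'
  have e1 : circleMap 0 r⁻¹ (2 * π - θ) = (circleMap 0 r θ)⁻¹ := by
    simp only [circleMap, zero_add]
    rw [mul_inv, ← Complex.exp_neg]
    have e2 : ((2 * π - θ : ℝ) : ℂ) * Complex.I = 2 * π * Complex.I - θ * Complex.I := by
      push_cast; ring
    rw [e2, Complex.exp_sub, Complex.exp_two_pi_mul_I, Complex.exp_neg]
    push_cast; ring
  simp only [deriv_circleMap, smul_eq_mul, e1]
  have h0 : circleMap 0 r θ ≠ 0 := circleMap_ne_center hr.ne'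
  field_simp

/-- the exterior Cauchy integral as a function of the inverse variable -/
lemma cau_ext {g : ℂ → ℂ} {r : ℝ} (hr : 0 < r) {t : ℂ} (ht : t ≠ 0) :
    cau g r t⁻¹ = -(t * cau (fun η => g η⁻¹ * η⁻¹) r⁻¹ t) := by
  unfold cau
  rw [circle_inv _ hr]
  have e1 : (∮ z in C(0, r), (z - t⁻¹)⁻¹ • g z) =
      ∮ z in C(0, r), (-t) • ((z⁻¹ - t)⁻¹ • (g z⁻¹⁻¹ * z⁻¹⁻¹) * (z⁻¹) ^ 2) := by
    refine circleIntegral.integral_congr hr.le fun z hz => ?_
    have hz0 : z ≠ 0 := by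
      rintro rfl
      rw [mem_sphere_zero_iff_norm, norm_zero] at hz
      exact hr.ne hz
    simp only [smul_eq_mul, inv_inv]
    by_cases h : z - t⁻¹ = 0
    · have h2 : z⁻¹ - t = 0 := by
        rw [sub_eq_zero] at h ⊢
        rw [h, inv_inv]
      rw [h, h2]; simp
    · have h2 : z⁻¹ - t ≠ 0 := by
        intro h2
        apply h
        rw [sub_eq_zero] at h2 ⊢
        rw [← h2, inv_inv]
      have h3 : z * t - 1 ≠ 0 := by
        intro h3
        apply h
        field_simp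
        rw [mul_zero]; exact h3
      have h4 : 1 - z * t ≠ 0 := by
        intro h4; apply h3; linear_combination -h4
      have e5 : (z - t⁻¹)⁻¹ = -(t / (1 - z * t)) := by
        have e7 : (z - t⁻¹)⁻¹ = t / (z * t - 1) := by field_simp
        have e8 : z * t - 1 = -(1 - z * t) := by ring
        rw [e7, e8, div_neg]
      have e6 : (z⁻¹ - t)⁻¹ = z / (1 - z * t) := by
        rw [eq_div_iff h4]
        field_simp
      rw [e5, e6]
      field_simp
  rw [e1, circleIntegral.integral_smul]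
  simp only [smul_eq_mul]
  ring

end

end Pool.Agent.Helper433.ES
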