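import Pool.Agent.Helper433_ES.Split

/-! Splitting off the zeros near an isolated singularity. -/

namespace Pool.Agent.Helper433.ES

open Filter Topology Metric Real Complex

noncomputable section

lemma punctured_preconnected (δ : ℝ) (hδ : 0 < δ) :
    IsPreconnected {s : ℂ | 0 < ‖s‖ ∧ ‖s‖ < δ} := by
  have h1 : {s : ℂ | 0 < ‖s‖ ∧ ‖s‖ < δ} = Complex.exp '' {w : ℂ | w.re < Real.log δ} := by
    ext s
    constructor
    · rintro ⟨h1, h2⟩
      refine ⟨Complex.log s, ?_, Complex.exp_log (norm_pos_iff.1 h1)⟩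
      show (Complex.log s).re < Real.log δ
      rw [Complex.log_re]
      exact Real.log_lt_log h1 h2
    · rintro ⟨w, hw, rfl⟩
      have hw' : w.re < Real.log δ := hw
      refine ⟨by rw [Complex.norm_exp]; exact Real.exp_pos _, ?_⟩
      rw [Complex.norm_exp, ← Real.lt_log_iff_exp_lt hδ]
      exact hw'
  rw [h1]
  have h2 : Convex ℝ {w : ℂ | w.re < Real.log δ} := convex_halfSpace_re_lt _
  exact h2.isPreconnected.image _ Complex.continuous_exp.continuousOn

lemma punctured_open (δ : ℝ) : IsOpen {s : ℂ | 0 < ‖s‖ ∧ ‖s‖ < δ} :=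
  (isOpen_lt continuous_const continuous_norm).inter (isOpen_lt continuous_norm continuous_const)

lemma exists_annulus {α : ℂ → ℂ} {δ ε : ℝ} (hδ : 0 < δ) (hε : 0 < ε)
    (hα : DifferentiableOn ℂ α {s | 0 < ‖s‖ ∧ ‖s‖ < δ})
    (hne : ∃ s, 0 < ‖s‖ ∧ ‖s‖ < δ ∧ α s ≠ 0) :
    ∃ ρ₁ ρ₂ : ℝ, 0 < ρ₁ ∧ ρ₁ < ρ₂ ∧ ρ₂ < δ ∧ ρ₂ < ε ∧ ∀ s : ℂ, ρ₁ < ‖s‖ → ‖s‖ < ρ₂ → α s ≠ 0 := by
  set O : Set ℂ := {s : ℂ | 0 < ‖s‖ ∧ ‖s‖ < δ} with hO
  have hOo : IsOpen O := punctured_open δ
  have han : AnalyticOnNhd ℂ α O := hα.analyticOnNhd hOo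
  have hiso : ∀ x ∈ O, ∀ᶠ w in 𝓝[≠] x, α w ≠ 0 := by
    intro x hx
    rcases (han x hx).eventually_eq_zero_or_eventually_ne_zero with h | h
    · exfalso
      obtain ⟨s, hs1, hs2, hs3⟩ := hne
      have h2 := han.eqOn_zero_of_preconnected_of_eventuallyEq_zero
        (punctured_preconnected δ hδ) hx h
      exact hs3 (h2 ⟨hs1, hs2⟩)
    · exact h
  set m := min δ ε with hm
  have hm0 : 0 < m := lt_min hδ hε
  set K : Set ℂ := {s : ℂ | m / 3 ≤ ‖s‖ ∧ ‖s‖ ≤ m * 2 / 3} with hK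
  have hKO : K ⊆ O := by
    rintro s ⟨h1, h2⟩
    have : m ≤ δ := min_le_left _ _
    exact ⟨by linarith, by linarith⟩
  have hKc : IsCompact K := by
    refine Metric.isCompact_of_isClosed_isBounded ?_ ?_
    · exact (isClosed_le continuous_const continuous_norm).inter
        (isClosed_le continuous_norm continuous_const)
    · refine (Metric.isBounded_closedBall (x := (0 : ℂ)) (r := m * 2 / 3)).subset fun s hs => ?_
      rw [mem_closedBall_zero_iff]; exact hs.2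
  have hfin : {s ∈ K | α s = 0}.Finite := by
    by_contra hinf
    obtain ⟨x, hxK, hx⟩ := Set.Infinite.exists_accPt_of_subset_isCompact hinf hKc
      (fun s hs => hs.1)
    have h1 := hiso x (hKO hxK)
    rw [accPt_iff_frequently] at hx
    have h2 : ∃ᶠ w in 𝓝[≠] x, α w = 0 := by
      rw [frequently_nhdsWithin_iff]
      exact hx.mono fun y hy => ⟨hy.2.2, hy.1⟩
    exact h2 (h1.mono fun w hw => hw)
  have hrad : ((fun s : ℂ => ‖s‖) '' {s ∈ K | α s = 0}).Finite := hfin.image _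
  obtain ⟨r, hr, hrn⟩ : ∃ r ∈ Set.Ioo (m / 3) (m * 2 / 3),
      r ∉ ((fun s : ℂ => ‖s‖) '' {s ∈ K | α s = 0}) := by
    have hI : (Set.Ioo (m / 3) (m * 2 / 3)).Infinite := Set.Ioo_infinite (by linarith)
    obtain ⟨r, hr1, hr2⟩ := hI.exists_notMem_finite hrad
    exact ⟨r, hr1, hr2⟩
  -- the sphere of radius `r` is zero-free; so is a neighbourhood
  set Z : Set ℂ := {s ∈ K | α s = 0} with hZ
  have hZc : IsClosed ((fun s : ℂ => ‖s‖) '' Z) := hrad.isClosed
  obtain ⟨η, hη, hηb⟩ := Metric.isOpen_iff.1 hZc.isOpen_compl r hrn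
  set η' := min (η / 2) (min ((r - m / 3) / 2) ((m * 2 / 3 - r) / 2)) with hη'
  have hη'0 : 0 < η' := by
    refine lt_min (half_pos hη) (lt_min ?_ ?_)
    · have := hr.1; linarith
    · have := hr.2; linarith
  have b1 : η' ≤ η / 2 := min_le_left _ _
  have b2 : η' ≤ (r - m / 3) / 2 := (min_le_right _ _).trans (min_le_left _ _)
  have b3 : η' ≤ (m * 2 / 3 - r) / 2 := (min_le_right _ _).trans (min_le_right _ _)
  have hr1 := hr.1
  have hr2 := hr.2
  have hmδ : m ≤ δ := min_le_left _ _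
  have hmε : m ≤ ε := min_le_right _ _
  refine ⟨r - η', r + η', by linarith, by linarith, by linarith, by linarith, ?_⟩
  intro s hs1 hs2 h0
  have hsK : s ∈ K := ⟨by linarith, by linarith⟩
  have hmem : ‖s‖ ∈ ((fun s : ℂ => ‖s‖) '' Z) := ⟨s, ⟨hsK, h0⟩, rfl⟩
  have : ‖s‖ ∈ ball r η := by
    rw [mem_ball, Real.dist_eq, abs_lt]
    constructor <;> linarith
  exact hηb this hmem

/-- Splitting off the zeros of `α` near the origin: there is a function `V` on the punctured plane,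
equal to `α` up to a unit near the origin, and to `c s ^ n` up to a unit away from it. -/
lemma factor {α : ℂ → ℂ} {δ ε : ℝ} (hδ : 0 < δ) (hε : 0 < ε)
    (hα : DifferentiableOn ℂ α {s | 0 < ‖s‖ ∧ ‖s‖ < δ})
    (hne : ∃ s, 0 < ‖s‖ ∧ ‖s‖ < δ ∧ α s ≠ 0) :
    ∃ (r₁ r₂ : ℝ) (V k P : ℂ → ℂ) (n : ℤ) (c : ℂ), 0 < r₁ ∧ r₁ < r₂ ∧ r₂ < δ ∧ r₂ < ε ∧ c ≠ 0 ∧
      DifferentiableOn ℂ V {0}ᶜ ∧ DifferentiableOn ℂ k (ball 0 r₂) ∧
      DifferentiableOn ℂ P (ball 0 r₁⁻¹) ∧
      (∀ s, 0 < ‖s‖ → ‖s‖ < r₂ → V s = α s * Complex.exp (k s)) ∧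
      (∀ s, r₁ < ‖s‖ → V s = c * s ^ n * Complex.exp (P s⁻¹)) := by
  obtain ⟨ρ₁, ρ₂, hρ1, hρ12, hρδ, hρε, hnz⟩ := exists_annulus hδ hε hα hne
  -- intermediate radii
  set r₁ : ℝ := ρ₁ + (ρ₂ - ρ₁) / 3 with hr1
  set r₂ : ℝ := ρ₁ + (ρ₂ - ρ₁) * 2 / 3 with hr2
  have hr10 : 0 < r₁ := by rw [hr1]; linarith
  have hρr1 : ρ₁ < r₁ := by rw [hr1]; linarith
  have hr12 : r₁ < r₂ := by rw [hr1, hr2]; linarith
  have hr2ρ : r₂ < ρ₂ := by rw [hr2]; linarith
  have hr20 : 0 < r₂ := hr10.trans hr12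
  set O : Set ℂ := {s : ℂ | 0 < ‖s‖ ∧ ‖s‖ < δ} with hO
  have hOo : IsOpen O := punctured_open δ
  have han : AnalyticOnNhd ℂ α O := hα.analyticOnNhd hOo
  set An : Set ℂ := {s : ℂ | ρ₁ < ‖s‖ ∧ ‖s‖ < ρ₂} with hAn
  have hAnO : An ⊆ O := fun s hs => ⟨hρ1.trans hs.1, hs.2.trans hρδ⟩
  have hAno : IsOpen An :=
    (isOpen_lt continuous_const continuous_norm).inter (isOpen_lt continuous_norm continuous_const)
  -- logarithmic derivative
  set g : ℂ → ℂ := fun s => deriv α s / α s with hg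
  have hgd : DifferentiableOn ℂ g An := by
    intro s hs
    have h1 := han s (hAnO hs)
    exact (h1.deriv.differentiableAt.div h1.differentiableAt (hnz s hs.1 hs.2)).differentiableWithinAt
  -- interior part and its primitive
  have hc2 : ContinuousOn g (sphere 0 r₂) := hgd.continuousOn.mono fun z hz => by
    rw [mem_sphere_zero_iff_norm] at hz
    exact ⟨by rw [hz]; linarith, by rw [hz]; exact hr2ρ⟩
  have hG2 := cau_diff hr20 hc2
  obtain ⟨h₁, hh₁⟩ := hG2.isExactOn_ball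
  -- exterior part and its primitive
  set Q : ℂ → ℂ := cau (fun η => g η⁻¹ * η⁻¹) r₁⁻¹ with hQ
  have hr1inv : 0 < r₁⁻¹ := inv_pos.2 hr10
  have hcQ : ContinuousOn (fun η => g η⁻¹ * η⁻¹) (sphere 0 r₁⁻¹) := by
    have hinv : ContinuousOn (fun η : ℂ => η⁻¹) (sphere 0 r₁⁻¹) := by
      refine continuousOn_id.inv₀ fun z hz h0 => ?_
      simp only [id] at h0
      rw [mem_sphere_zero_iff_norm, h0, norm_zero] at hz
      exact hr1inv.ne hz
    refine ContinuousOn.mul ?_ hinv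
    refine hgd.continuousOn.comp hinv fun z hz => ?_
    rw [mem_sphere_zero_iff_norm] at hz
    show ρ₁ < ‖z⁻¹‖ ∧ ‖z⁻¹‖ < ρ₂
    rw [norm_inv, hz, inv_inv]
    exact ⟨hρr1, by linarith⟩
  have hQd : DifferentiableOn ℂ Q (ball 0 r₁⁻¹) := cau_diff hr1inv hcQ
  set ν : ℂ := Q 0 with hν
  have h0mem : (0 : ℂ) ∈ ball (0 : ℂ) r₁⁻¹ := mem_ball_self hr1inv
  have hKd : DifferentiableOn ℂ (fun t => -dslope Q 0 t) (ball 0 r₁⁻¹) :=
    ((Complex.differentiableOn_dslope (isOpen_ball.mem_nhds h0mem)).2 hQd).neg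
  obtain ⟨P, hP⟩ := hKd.isExactOn_ball
  have hPd : DifferentiableOn ℂ P (ball 0 r₁⁻¹) := fun t ht =>
    (hP t ht).differentiableAt.differentiableWithinAt
  have hh₂ : ∀ s : ℂ, r₁ < ‖s‖ → HasDerivAt (fun s => P s⁻¹) ((Q s⁻¹ - ν) / s) s := by
    intro s hs
    have hs0 : s ≠ 0 := by
      rintro rfl; rw [norm_zero] at hs; linarith
    have hsb : s⁻¹ ∈ ball (0 : ℂ) r₁⁻¹ := by
      rw [mem_ball_zero_iff, norm_inv]
      exact inv_strictAnti₀ hr10 hs
    have h1 := (hP s⁻¹ hsb).comp s (hasDerivAt_inv hs0)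
    refine h1.congr_deriv ?_
    show -dslope Q 0 s⁻¹ * -(s ^ 2)⁻¹ = (Q s⁻¹ - ν) / s
    rw [dslope_of_ne _ (inv_ne_zero hs0), slope_def_field, ← hν]
    field_simp
    ring
  -- the quotient on the small annulus
  set An' : Set ℂ := {s : ℂ | r₁ < ‖s‖ ∧ ‖s‖ < r₂} with hAn'
  have hφ : ∀ s ∈ An', HasDerivAt (fun s => α s * Complex.exp (-(h₁ s) - P s⁻¹))
      (ν / s * (α s * Complex.exp (-(h₁ s) - P s⁻¹))) s := by
    intro s hs
    have hs0 : s ≠ 0 := by
      rintro rfl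
      have := hs.1
      rw [norm_zero] at this; linarith
    have hsA : s ∈ An := ⟨hρr1.trans hs.1, hs.2.trans hr2ρ⟩
    have d1 : HasDerivAt α (deriv α s) s := (han s (hAnO hsA)).differentiableAt.hasDerivAt
    have d2 := hh₁ s (by rw [mem_ball_zero_iff]; exact hs.2)
    have d3 := hh₂ s hs.1
    have d4 : HasDerivAt (fun s => -(h₁ s) - P s⁻¹) (-(cau g r₂ s) - (Q s⁻¹ - ν) / s) s :=
      d2.neg.sub d3
    have d5 := d1.mul d4.cexp
    refine d5.congr_deriv ?_
    have e1 := cau_annulus hr10 hρr1 hr2ρ hgd hs.1 hs.2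
    have e2 : cau g r₁ s = -(s⁻¹ * Q s⁻¹) := by
      have := cau_ext (g := g) hr10 (t := s⁻¹) (inv_ne_zero hs0)
      rw [inv_inv] at this
      exact this
    have hαs : α s ≠ 0 := hnz s hsA.1 hsA.2
    have e3 : deriv α s = g s * α s := by simp only [hg]; field_simp
    rw [e3, e1, e2]
    field_simp
    ring
  -- in the exponential coordinate
  set St : Set ℂ := {w : ℂ | w.re ∈ Set.Ioo (Real.log r₁) (Real.log r₂)} with hSt
  have hStconv : Convex ℝ St := by
    have : St = {w : ℂ | Real.log r₁ < w.re} ∩ {w : ℂ | w.re < Real.log r₂} := by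
      ext w; simp [hSt, Set.mem_Ioo]
    rw [this]
    exact (convex_halfSpace_re_gt _).inter (convex_halfSpace_re_lt _)
  have hSto : IsOpen St := by
    exact isOpen_Ioo.preimage Complex.continuous_re
  have hStAn : ∀ w ∈ St, Complex.exp w ∈ An' := by
    intro w hw
    show r₁ < ‖Complex.exp w‖ ∧ ‖Complex.exp w‖ < r₂
    rw [Complex.norm_exp]
    exact ⟨(Real.log_lt_iff_lt_exp hr10).1 hw.1, (Real.lt_log_iff_exp_lt hr20).1 hw.2⟩
  set ψ : ℂ → ℂ := fun w => (α (Complex.exp w) * Complex.exp (-(h₁ (Complex.exp w)) -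
    P (Complex.exp w)⁻¹)) * Complex.exp (-(ν * w)) with hψ
  have hψ' : ∀ w ∈ St, HasDerivAt ψ 0 w := by
    intro w hw
    have d1 := (hφ _ (hStAn w hw)).comp w (Complex.hasDerivAt_exp w)
    have d2 : HasDerivAt (fun w : ℂ => Complex.exp (-(ν * w))) (Complex.exp (-(ν * w)) * (-ν)) w := by
      have : HasDerivAt (fun w : ℂ => -(ν * w)) (-ν) w := by
        simpa using ((hasDerivAt_id' w).const_mul ν).fun_neg
      exact this.cexp
    have d3 := d1.mul d2
    refine d3.congr_deriv ?_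
    have := Complex.exp_ne_zero w
    simp only [Function.comp]
    field_simp
    ring
  obtain ⟨w₀, hw₀⟩ : St.Nonempty := by
    refine ⟨((Real.log r₁ + Real.log r₂) / 2 : ℝ), ?_⟩
    have : Real.log r₁ < Real.log r₂ := Real.log_lt_log hr10 hr12
    show ((((Real.log r₁ + Real.log r₂) / 2 : ℝ)) : ℂ).re ∈ Set.Ioo (Real.log r₁) (Real.log r₂)
    rw [Complex.ofReal_re]
    exact ⟨by linarith, by linarith⟩
  have hconst : ∀ w ∈ St, ψ w = ψ w₀ := by
    intro w hw
    refine hSto.is_const_of_deriv_eq_zero hStconv.isPreconnected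
      (fun w hw => (hψ' w hw).differentiableAt.differentiableWithinAt)
      (fun w hw => (hψ' w hw).deriv) hw hw₀
  set c : ℂ := ψ w₀ with hc
  have hc0 : c ≠ 0 := by
    rw [hc]; simp only [hψ]
    have h1 := hStAn w₀ hw₀
    have hαs : α (Complex.exp w₀) ≠ 0 :=
      hnz _ (hρr1.trans h1.1) (h1.2.trans hr2ρ)
    exact mul_ne_zero (mul_ne_zero hαs (Complex.exp_ne_zero _)) (Complex.exp_ne_zero _)
  -- integrality of `ν`
  obtain ⟨n, hn⟩ : ∃ n : ℤ, ν = n := by
    have hw₁ : w₀ + 2 * π * Complex.I ∈ St := by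
      show (w₀ + 2 * π * Complex.I).re ∈ Set.Ioo (Real.log r₁) (Real.log r₂)
      have : (w₀ + 2 * π * Complex.I).re = w₀.re := by simp
      rw [this]; exact hw₀
    have h1 := hconst _ hw₁
    have h2 : ψ (w₀ + 2 * π * Complex.I) = ψ w₀ * Complex.exp (-(ν * (2 * π * Complex.I))) := by
      simp only [hψ]
      rw [Complex.exp_add, Complex.exp_two_pi_mul_I, mul_one, mul_add, neg_add, Complex.exp_add]
      ring
    rw [h2] at h1
    have h3 : Complex.exp (-(ν * (2 * π * Complex.I))) = 1 := by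
      have : ψ w₀ ≠ 0 := hc0
      exact mul_left_cancel₀ this (by rw [h1, mul_one])
    obtain ⟨m, hm⟩ := Complex.exp_eq_one_iff.1 h3
    refine ⟨-m, ?_⟩
    have h4 : (2 * (π : ℂ) * Complex.I) ≠ 0 := Complex.two_pi_I_ne_zero
    have h5 : (ν + m) * (2 * (π : ℂ) * Complex.I) = 0 := by linear_combination -hm
    rcases mul_eq_zero.1 h5 with h6 | h6
    · push_cast; linear_combination h6
    · exact absurd h6 h4
  have hmain : ∀ s ∈ An', α s * Complex.exp (-(h₁ s)) = c * s ^ n * Complex.exp (P s⁻¹) := by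
    intro s hs
    have hs0 : s ≠ 0 := by
      rintro rfl
      have := hs.1
      rw [norm_zero] at this; linarith
    have hlog : Complex.log s ∈ St := by
      show (Complex.log s).re ∈ Set.Ioo (Real.log r₁) (Real.log r₂)
      rw [Complex.log_re]
      exact ⟨Real.log_lt_log hr10 hs.1, Real.log_lt_log (norm_pos_iff.2 hs0) hs.2⟩
    have h1 := hconst _ hlog
    simp only [hψ] at h1
    rw [Complex.exp_log hs0] at h1
    have h2 : Complex.exp (-(ν * Complex.log s)) = (s ^ n)⁻¹ := by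
      rw [Complex.exp_neg, hn, Complex.exp_int_mul, Complex.exp_log hs0]
    rw [h2] at h1
    have h3 : s ^ n ≠ 0 := zpow_ne_zero n hs0
    have h4 : Complex.exp (-(h₁ s) - P s⁻¹) = Complex.exp (-(h₁ s)) * (Complex.exp (P s⁻¹))⁻¹ := by
      rw [Complex.exp_sub, div_eq_mul_inv]
    rw [h4] at h1
    have h5 := Complex.exp_ne_zero (P s⁻¹)
    have h6 : c = α s * (Complex.exp (-(h₁ s)) * (Complex.exp (P s⁻¹))⁻¹) * (s ^ n)⁻¹ := by
      rw [h1]
    rw [h6]
    field_simp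
  -- glue
  set rm : ℝ := (r₁ + r₂) / 2 with hrm
  have hrm1 : r₁ < rm := by rw [hrm]; linarith
  have hrm2 : rm < r₂ := by rw [hrm]; linarith
  set V : ℂ → ℂ := fun s => if ‖s‖ < rm then α s * Complex.exp (-(h₁ s)) else
    c * s ^ n * Complex.exp (P s⁻¹) with hV
  have hV1 : ∀ s, 0 < ‖s‖ → ‖s‖ < r₂ → V s = α s * Complex.exp (-(h₁ s)) := by
    intro s hs1 hs2
    simp only [hV]
    split_ifs with h
    · rfl
    · exact (hmain s ⟨by linarith, hs2⟩).symm
  have hV2 : ∀ s, r₁ < ‖s‖ → V s = c * s ^ n * Complex.exp (P s⁻¹) := by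
    intro s hs1
    simp only [hV]
    split_ifs with h
    · exact hmain s ⟨hs1, by linarith⟩
    · rfl
  refine ⟨r₁, r₂, V, fun s => -(h₁ s), P, n, c, hr10, hr12, by linarith, by linarith, hc0, ?_, ?_,
    hPd, hV1, hV2⟩
  · intro s hs
    have hs0 : s ≠ 0 := hs
    have hsn : 0 < ‖s‖ := norm_pos_iff.2 hs0
    refine DifferentiableAt.differentiableWithinAt ?_
    by_cases h : ‖s‖ < r₂
    · have hO2 : IsOpen {s : ℂ | 0 < ‖s‖ ∧ ‖s‖ < r₂} := punctured_open r₂
      have hev : V =ᶠ[𝓝 s] fun s => α s * Complex.exp (-(h₁ s)) := by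
        filter_upwards [hO2.mem_nhds ⟨hsn, h⟩] with w hw
        exact hV1 w hw.1 hw.2
      rw [hev.differentiableAt_iff]
      have d1 := (han s ⟨hsn, by linarith⟩).differentiableAt
      have d2 := (hh₁ s (by rw [mem_ball_zero_iff]; exact h)).differentiableAt
      exact d1.mul d2.neg.cexp
    · have hs1 : r₁ < ‖s‖ := by linarith [not_lt.1 h]
      have hev : V =ᶠ[𝓝 s] fun s => c * s ^ n * Complex.exp (P s⁻¹) := by
        filter_upwards [(isOpen_lt continuous_const continuous_norm).mem_nhds hs1] with w hw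
        exact hV2 w hw
      rw [hev.differentiableAt_iff]
      have d1 := (hh₂ s hs1).differentiableAt
      have d2 : DifferentiableAt ℂ (fun s : ℂ => s ^ n) s := differentiableAt_zpow.2 (Or.inl hs0)
      exact (d2.const_mul c).mul d1.cexp
  · intro s hs
    exact (hh₁ s hs).differentiableAt.neg.differentiableWithinAt

end

end Pool.Agent.Helper433.ES
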