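import Mathlib

/-! Definitions used by the statement about Grothendieck classes on elliptic surfaces
`y ^ 2 = x ^ 3 + a x + b` over the projective line. -/

namespace Pool.Agent.Helper433.ES

open Filter Topology

noncomputable section

/-- `t` is a period (zero included) of the differential `dx / (2 y)` on the elliptic curve
`y ^ 2 = x ^ 3 + a x + b`: it lies in the lattice with `g₂ = -4 a`, `g₃ = -4 b`, for which
`x = ℘`, `y = ℘' / 2` is the uniformisation of the curve. -/
def IsPeriod (a b t : ℂ) : Prop :=
  ∃ L : PeriodPair, L.g₂ = -4 * a ∧ L.g₃ = -4 * b ∧ t ∈ L.lattice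

section

variable {K : Type*} [Field K]

/-- the discriminant of `y ^ 2 = x ^ 3 + a x + b` up to a constant -/
def disc (a b : Polynomial K) : Polynomial K := 4 * a ^ 3 + 27 * b ^ 2

/-- the Wronskian `2 a b' - 3 a' b` of the Gauss-Manin system -/
def wrn (a b : Polynomial K) : Polynomial K :=
  2 * a * Polynomial.derivative b - 3 * Polynomial.derivative a * b

/-- The fibre over the point of the line defined by the irreducible polynomial `π` has gain `g`.
Either it is of type `I_n^*` with `n` positive and `g = 3`, or it is additive and potentially good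
(types `II`, `III`, `IV`, `I_0^*`, `IV^*`, `III^*`, `II^*` when the equation is minimal) and `g`
is the greatest common divisor of `12` and its Euler number `e`, the exact order of the
discriminant: the cube of `a` and the square of `b` are divisible by `π ^ e` and `12` does not
divide `e`. -/
def Gain (a b π : Polynomial K) (g : ℕ) : Prop :=
  (g = 3 ∧ π ^ 2 ∣ a ∧ π ^ 3 ∣ b ∧ ¬ π ^ 3 ∣ a ∧ π ^ 7 ∣ disc a b) ∨
    ∃ e, g = Nat.gcd 12 e ∧ ¬ 12 ∣ e ∧ π ^ e ∣ a ^ 3 ∧ π ^ e ∣ b ^ 2 ∧ ¬ π ^ (e + 1) ∣ disc a b

end

/-- The inhomogeneous Gauss-Manin system at `s` for the coordinates `z`, `w` of a local section of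
the relative de Rham bundle, with right-hand side the rational section `(P₁ / Q, P₂ / Q)`. -/
def GM {K : Type*} [Field K] [Algebra K ℂ] (a b Q P₁ P₂ : Polynomial K) (z w : ℂ → ℂ) (s : ℂ) :
    Prop :=
  Polynomial.aeval s Q * (12 * Polynomial.aeval s (disc a b) * deriv z s +
    Polynomial.aeval s (Polynomial.derivative (disc a b)) * z s +
    18 * Polynomial.aeval s (wrn a b) * w s) = Polynomial.aeval s P₁ ∧
  Polynomial.aeval s Q * (12 * Polynomial.aeval s (disc a b) * deriv w s +
    6 * Polynomial.aeval s a * Polynomial.aeval s (wrn a b) * z s -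
    Polynomial.aeval s (Polynomial.derivative (disc a b)) * w s) = Polynomial.aeval s P₂

/-- A Grothendieck class on the elliptic surface `y ^ 2 = x ^ 3 + a x + b` over the projective
line, at one embedding of the ground field. The de Rham class is given by the rational section
`(P₁ / Q, P₂ / Q)` of the relative de Rham bundle, which near every point `p` of the affine line
and near infinity is the covariant derivative of a meromorphic section `(z p, w p)`, resp.
`(zi, wi)`; these local primitives agree modulo periods: their first coordinates take the common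
values `ν s` modulo the period lattice. -/
structure GClass (a b Q P₁ P₂ : Polynomial ℂ) where
  /-- common values of the primitives modulo periods -/
  ν : ℂ → ℂ
  /-- first coordinate of the primitive near `p` -/
  z : ℂ → ℂ → ℂ
  /-- second coordinate of the primitive near `p` -/
  w : ℂ → ℂ → ℂ
  /-- first coordinate of the primitive near infinity -/
  zi : ℂ → ℂ
  /-- second coordinate of the primitive near infinity -/
  wi : ℂ → ℂ
  z_mero : ∀ p, MeromorphicAt (z p) p
  w_mero : ∀ p, MeromorphicAt (w p) p
  zi_mero : MeromorphicAt (fun t => zi t⁻¹) 0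
  wi_mero : MeromorphicAt (fun t => wi t⁻¹) 0
  period : ∀ p, ∀ᶠ s in 𝓝[≠] p, IsPeriod (a.eval s) (b.eval s) (z p s - ν s)
  period_infty : ∀ᶠ s in cocompact ℂ, IsPeriod (a.eval s) (b.eval s) (zi s - ν s)
  gm : ∀ p, ∀ᶠ s in 𝓝[≠] p, GM a b Q P₁ P₂ (z p) (w p) s
  gm_infty : ∀ᶠ s in cocompact ℂ, GM a b Q P₁ P₂ zi wi s

end

end Pool.Agent.Helper433.ES
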